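import Mathlib

/-! Calculus on the torus for the Lojasiewicz inequality. -/

set_option autoImplicit false

namespace Pool.Agent.Helper49.Loj

open MvPolynomial Complex
open scoped ComplexConjugate

variable {d : ℕ}

/-- the point of the torus with angles `θ` -/
noncomputable def EE (θ : Fin d → ℝ) : Fin d → ℂ := fun j => exp (θ j * I)

theorem norm_EE (θ : Fin d → ℝ) (j : Fin d) : ‖EE θ j‖ = 1 := norm_exp_ofReal_mul_I _

theorem EE_ne_zero (θ : Fin d → ℝ) (j : Fin d) : EE θ j ≠ 0 := exp_ne_zero _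

theorem continuous_EE : Continuous (EE : (Fin d → ℝ) → (Fin d → ℂ)) := by
  unfold EE
  fun_prop

/-- every point of the torus has angles in `[-π, π]` -/
theorem exists_EE (ζ : Fin d → ℂ) (hζ : ∀ j, ‖ζ j‖ = 1) :
    ∃ θ : Fin d → ℝ, θ ∈ Set.Icc (fun _ => -Real.pi) (fun _ => Real.pi) ∧ EE θ = ζ := by
  refine ⟨fun j => arg (ζ j), ⟨fun j => (neg_pi_lt_arg _).le, fun j => arg_le_pi _⟩, ?_⟩
  funext j
  have h := norm_mul_exp_arg_mul_I (ζ j)
  rw [hζ j, ofReal_one, one_mul] at h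
  exact h

/-- derivative of `θ ↦ P(e^{iθ})` -/
noncomputable def LL (P : MvPolynomial (Fin d) ℂ) (θ : Fin d → ℝ) : (Fin d → ℝ) →L[ℝ] ℂ :=
  ∑ j, (ContinuousLinearMap.proj j : (Fin d → ℝ) →L[ℝ] ℝ).smulRight
    (eval (EE θ) (X j * pderiv j P) * I)

theorem LL_apply (P : MvPolynomial (Fin d) ℂ) (θ v : Fin d → ℝ) :
    LL P θ v = ∑ j, (v j : ℂ) * (eval (EE θ) (X j * pderiv j P) * I) := by
  simp [LL]

theorem hasStrictFDerivAt_EE (θ : Fin d → ℝ) (i : Fin d) :
    HasStrictFDerivAt (fun θ : Fin d → ℝ => EE θ i)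
      ((ContinuousLinearMap.proj i : (Fin d → ℝ) →L[ℝ] ℝ).smulRight (EE θ i * I)) θ := by
  have h1 : HasStrictFDerivAt (fun θ : Fin d → ℝ => ((θ i : ℝ) : ℂ))
      (ofRealCLM.comp (ContinuousLinearMap.proj i : (Fin d → ℝ) →L[ℝ] ℝ)) θ :=
    (ofRealCLM.comp (ContinuousLinearMap.proj i : (Fin d → ℝ) →L[ℝ] ℝ)).hasStrictFDerivAt
  have h2 := (h1.mul_const I).cexp
  refine h2.congr_fderiv ?_
  ext v
  simp [EE]
  ring

theorem hasStrictFDerivAt_eval (P : MvPolynomial (Fin d) ℂ) (θ : Fin d → ℝ) :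
    HasStrictFDerivAt (fun θ : Fin d → ℝ => eval (EE θ) P) (LL P θ) θ := by
  induction P using MvPolynomial.induction_on with
  | C a =>
    have h : LL (C a : MvPolynomial (Fin d) ℂ) θ = 0 := by
      ext v
      simp [LL_apply]
    rw [h]
    simpa using hasStrictFDerivAt_const a θ
  | add p q hp hq =>
    have h : LL (p + q) θ = LL p θ + LL q θ := by
      ext v
      simp only [LL_apply, add_apply, map_add, mul_add, add_mul,
        Finset.sum_add_distrib]
    rw [h]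
    refine (hp.add hq).congr_of_eventuallyEq (Filter.Eventually.of_forall fun x => ?_)
    simp
  | mul_X p i hp =>
    have h1 := hp.mul (hasStrictFDerivAt_EE θ i)
    have h2 : HasStrictFDerivAt (fun θ : Fin d → ℝ => eval (EE θ) (p * X i))
        (eval (EE θ) p • (ContinuousLinearMap.proj i : (Fin d → ℝ) →L[ℝ] ℝ).smulRight (EE θ i * I)
          + EE θ i • LL p θ) θ := by
      refine h1.congr_of_eventuallyEq (Filter.Eventually.of_forall fun x => ?_)
      simp
    refine h2.congr_fderiv ?_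
    ext v
    rw [LL_apply]
    simp only [add_apply, smul_apply,
      ContinuousLinearMap.smulRight_apply, ContinuousLinearMap.proj_apply, LL_apply, smul_eq_mul,
      Derivation.leibniz, pderiv_X, map_add, map_mul, eval_X, Finset.mul_sum]
    have h3 : ∀ j, (v j : ℂ) * (EE θ j * (eval (EE θ) p * eval (EE θ) (Pi.single (M := fun _ => MvPolynomial (Fin d) ℂ) j 1 i) +
        EE θ i * eval (EE θ) (pderiv j p)) * I)
        = (if j = i then (v i : ℂ) * (EE θ i * eval (EE θ) p * I) else 0) +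
          EE θ i * ((v j : ℂ) * (EE θ j * eval (EE θ) (pderiv j p) * I)) := by
      intro j
      by_cases hj : j = i
      · subst hj
        simp
        ring
      · simp [hj, Ne.symm hj]
        ring
    rw [Finset.sum_congr rfl fun j _ => h3 j, Finset.sum_add_distrib, Finset.sum_ite_eq']
    simp
    ring

/-- `|P|²` as a function of the angles -/
noncomputable def ff (P : MvPolynomial (Fin d) ℂ) (θ : Fin d → ℝ) : ℝ := ‖eval (EE θ) P‖ ^ 2

theorem continuous_ff (P : MvPolynomial (Fin d) ℂ) : Continuous (ff P) := by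
  unfold ff
  exact (((MvPolynomial.continuous_eval P).comp continuous_EE).norm).pow 2

/-- derivative of `|P|²` -/
noncomputable def Lf (P : MvPolynomial (Fin d) ℂ) (θ : Fin d → ℝ) : (Fin d → ℝ) →L[ℝ] ℝ :=
  (2 • innerSL ℝ (eval (EE θ) P)).comp (LL P θ)

theorem hasStrictFDerivAt_ff (P : MvPolynomial (Fin d) ℂ) (θ : Fin d → ℝ) :
    HasStrictFDerivAt (ff P) (Lf P θ) θ :=
  (hasStrictFDerivAt_norm_sq _).comp θ (hasStrictFDerivAt_eval P θ)

/-- the partial derivatives of `|P|²` -/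
noncomputable def Aj (P : MvPolynomial (Fin d) ℂ) (j : Fin d) (θ : Fin d → ℝ) : ℝ :=
  -2 * (conj (eval (EE θ) P) * eval (EE θ) (X j * pderiv j P)).im

theorem Lf_single (P : MvPolynomial (Fin d) ℂ) (θ : Fin d → ℝ) (j : Fin d) :
    Lf P θ (Pi.single j 1) = Aj P j θ := by
  rw [Lf, ContinuousLinearMap.comp_apply, LL_apply]
  rw [Finset.sum_eq_single j]
  · simp [Aj, Complex.inner]
    ring
  · intro i _ hi
    simp [hi]
  · intro h
    exact absurd (Finset.mem_univ j) h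

/-- **Lagrange multipliers.** -/
theorem lagrange (P Q : MvPolynomial (Fin d) ℂ) (θ₀ : Fin d → ℝ)
    (hmin : ∀ θ, ff Q θ = ff Q θ₀ → ff P θ₀ ≤ ff P θ) (i j : Fin d) :
    Aj P i θ₀ * Aj Q j θ₀ = Aj P j θ₀ * Aj Q i θ₀ := by
  have hextr : IsLocalExtrOn (ff P) {θ | ff Q θ = ff Q θ₀} θ₀ := by
    left
    apply IsMinOn.localize
    intro θ hθ
    exact hmin θ hθ
  obtain ⟨a, b, hab, h⟩ := hextr.exists_multipliers_of_hasStrictFDerivAt_1d
    (hasStrictFDerivAt_ff Q θ₀) (hasStrictFDerivAt_ff P θ₀)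
  have h1 : ∀ l, a * Aj Q l θ₀ + b * Aj P l θ₀ = 0 := by
    intro l
    have := DFunLike.congr_fun h (Pi.single l 1)
    simpa only [add_apply, smul_apply, smul_eq_mul,
      Lf_single, zero_apply] using this
  have hi := h1 i
  have hj := h1 j
  by_cases ha : a = 0
  · have hb : b ≠ 0 := by
      intro hb
      exact hab (by rw [ha, hb]; rfl)
    rw [ha, zero_mul, zero_add] at hi hj
    rw [(mul_eq_zero.1 hi).resolve_left hb, (mul_eq_zero.1 hj).resolve_left hb]
    simp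
  · have h2 : a * (Aj P i θ₀ * Aj Q j θ₀ - Aj P j θ₀ * Aj Q i θ₀) = 0 := by
      linear_combination Aj P i θ₀ * hj - Aj P j θ₀ * hi
    have h3 := (mul_eq_zero.1 h2).resolve_left ha
    linarith

/-- minimisers exist -/
theorem exists_minimizer (P Q : MvPolynomial (Fin d) ℂ) (θ₁ : Fin d → ℝ) :
    ∃ θ₀, ff Q θ₀ = ff Q θ₁ ∧ ∀ θ, ff Q θ = ff Q θ₀ → ff P θ₀ ≤ ff P θ := by
  set S : Set (Fin d → ℝ) := Set.Icc (fun _ => -Real.pi) (fun _ => Real.pi) ∩ {θ | ff Q θ = ff Q θ₁}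
    with hS
  have hcomp : IsCompact S := by
    apply isCompact_Icc.inter_right
    exact isClosed_eq (continuous_ff Q) continuous_const
  have hred : ∀ θ, ∃ θ' ∈ Set.Icc (fun _ : Fin d => -Real.pi) (fun _ => Real.pi), EE θ' = EE θ := by
    intro θ
    obtain ⟨θ', h1, h2⟩ := exists_EE (EE θ) (norm_EE θ)
    exact ⟨θ', h1, h2⟩
  have hne : S.Nonempty := by
    obtain ⟨θ', h1, h2⟩ := hred θ₁
    refine ⟨θ', h1, ?_⟩
    show ff Q θ' = ff Q θ₁
    unfold ff
    rw [h2]
  obtain ⟨θ₀, h0, hmin⟩ := hcomp.exists_isMinOn hne (continuous_ff P).continuousOn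
  refine ⟨θ₀, h0.2, fun θ hθ => ?_⟩
  obtain ⟨θ', h1, h2⟩ := hred θ
  have h3 : θ' ∈ S := by
    refine ⟨h1, ?_⟩
    show ff Q θ' = ff Q θ₁
    have h4 : ff Q θ' = ff Q θ := by unfold ff; rw [h2]
    rw [h4, hθ]
    exact h0.2
  have h4 := hmin h3
  have h5 : ff P θ' = ff P θ := by unfold ff; rw [h2]
  rw [← h5]
  exact h4

end Pool.Agent.Helper49.Loj
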