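import Mathlib

set_option autoImplicit false

namespace Pool.Agent.Helper49.Loj

open MvPolynomial TensorProduct

theorem extend_derivation (R S T : Type*) [CommRing R] [CommRing S] [CommRing T]
    [Algebra R S] [Algebra R T] [Algebra S T] [IsScalarTower R S T] [Algebra.FormallyEtale S T]
    (δ₀ : Derivation R S T) :
    ∃ δ : Derivation R T T, ∀ s, δ (algebraMap S T s) = δ₀ s := by
  set l : T ⊗[S] (Ω[S⁄R]) →ₗ[T] T := LinearMap.liftBaseChange T δ₀.liftKaehlerDifferential
  set e := (KaehlerDifferential.tensorKaehlerEquivOfFormallyEtale R S T).symm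
  refine ⟨(l.comp e.toLinearMap).compDer (KaehlerDifferential.D R T), fun s => ?_⟩
  show l (e (KaehlerDifferential.D R T (algebraMap S T s))) = δ₀ s
  rw [KaehlerDifferential.tensorKaehlerEquivOfFormallyEtale_symm_D_algebraMap]
  show LinearMap.liftBaseChange T δ₀.liftKaehlerDifferential (1 ⊗ₜ KaehlerDifferential.D R S s) = δ₀ s
  rw [LinearMap.liftBaseChange_tmul, one_smul, Derivation.liftKaehlerDifferential_comp_D]

open scoped IntermediateField.algebraAdjoinAdjoin in
theorem exists_derivation {k K ι : Type*} [Field k] [Field K] [Algebra k K] [CharZero k]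
    (v : ι → K) (hv : AlgebraicIndependent k v) (c : ι → K) :
    ∃ δ : Derivation k K K, ∀ i, δ (v i) = c i := by
  classical
  obtain ⟨t, hst, ht⟩ := exists_isTranscendenceBasis_superset (R := k) (s := Set.range v) hv.coe_range
  set w : t → K := (↑) with hw
  have hb : AlgebraicIndependent k w := ht.1
  have e1 : Algebra.FormallyEtale (Algebra.adjoin k (Set.range w))
      (IntermediateField.adjoin k (Set.range w)) :=
    Algebra.FormallyEtale.of_isLocalization (nonZeroDivisors _)
  have : Algebra.IsAlgebraic (IntermediateField.adjoin k (Set.range w)) K := ht.isAlgebraic_field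
  have : CharZero (IntermediateField.adjoin k (Set.range w)) := inferInstance
  have e2 : Algebra.FormallyEtale (IntermediateField.adjoin k (Set.range w)) K :=
    Algebra.FormallyEtale.of_isSeparable _ K
  have e3 : Algebra.FormallyEtale (Algebra.adjoin k (Set.range w)) K :=
    Algebra.FormallyEtale.comp (Algebra.adjoin k (Set.range w))
      (IntermediateField.adjoin k (Set.range w)) K
  -- the derivation on the polynomial ring
  let _ : Module (MvPolynomial t k) K := Module.compHom K (aeval w : MvPolynomial t k →ₐ[k] K).toRingHom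
  have hsm : ∀ (p : MvPolynomial t k) (x : K), p • x = aeval w p * x := fun p x => rfl
  have : IsScalarTower k (MvPolynomial t k) K := ⟨fun a p x => by
    rw [hsm, hsm, map_smul, smul_mul_assoc]⟩
  have hinj : Function.Injective v := hv.injective
  set c' : t → K := fun x => if h : (x : K) ∈ Set.range v then c (Classical.choose h) else 0 with hc'
  have hc'v : ∀ i, c' ⟨v i, hst ⟨i, rfl⟩⟩ = c i := by
    intro i
    have h : ((⟨v i, hst ⟨i, rfl⟩⟩ : t) : K) ∈ Set.range v := ⟨i, rfl⟩
    simp only [hc', dif_pos h]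
    congr 1
    exact hinj (Classical.choose_spec h)
  set D0 : Derivation k (MvPolynomial t k) K := mkDerivation k c' with hD0
  set δ₀ : Derivation k (Algebra.adjoin k (Set.range w)) K :=
    Derivation.mk' (D0.toLinearMap.comp hb.repr.toLinearMap) (by
      intro a b
      show D0 (hb.repr (a * b)) = a • D0 (hb.repr b) + b • D0 (hb.repr a)
      rw [map_mul, Derivation.leibniz, hsm, hsm, hb.aeval_repr, hb.aeval_repr]
      rfl) with hδ₀
  obtain ⟨δ, hδ⟩ := extend_derivation k (Algebra.adjoin k (Set.range w)) K δ₀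
  refine ⟨δ, fun i => ?_⟩
  have hmem : v i ∈ Algebra.adjoin k (Set.range w) :=
    Algebra.subset_adjoin ⟨⟨v i, hst ⟨i, rfl⟩⟩, rfl⟩
  have h1 := hδ ⟨v i, hmem⟩
  have h2 : hb.repr ⟨v i, hmem⟩ = X ⟨v i, hst ⟨i, rfl⟩⟩ := by
    apply hb.aevalEquiv.injective
    rw [AlgebraicIndependent.repr]
    simp
    ext
    simp [hw]
  have h3 : δ₀ ⟨v i, hmem⟩ = c i := by
    show D0 (hb.repr ⟨v i, hmem⟩) = c i
    rw [h2, hD0, mkDerivation_X, hc'v]
  rw [← h3, ← h1]
  rfl

end Pool.Agent.Helper49.Loj
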