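import Mathlib
import Pool.Agent.Helper49.LojDer
import Pool.Agent.Helper49.LojCalc

/-! The Lojasiewicz inequality for polynomials on the torus. -/

set_option autoImplicit false

namespace Pool.Agent.Helper49.Loj

open MvPolynomial Complex Filter Topology
open scoped ComplexConjugate

variable {d : ℕ}

/-! ### Limit fields -/

/-- A maximal ideal of the ring of functions adapted to a filter. -/
theorem exists_limit_ideal {ι k : Type*} [Field k] (F : Filter ι) [F.NeBot] :
    ∃ M : Ideal (ι → k), M.IsMaximal ∧ (∀ x : ι → k, (∀ᶠ i in F, x i = 0) → x ∈ M) ∧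
      ∀ x ∈ M, ∃ᶠ i in F, x i = 0 := by
  set I₀ : Ideal (ι → k) :=
    { carrier := {x | ∀ᶠ i in F, x i = 0}
      add_mem' := by
        intro a b ha hb
        filter_upwards [ha, hb] with i h1 h2
        rw [Pi.add_apply, h1, h2, add_zero]
      zero_mem' := Filter.Eventually.of_forall fun i => rfl
      smul_mem' := by
        intro c x hx
        filter_upwards [hx] with i h
        rw [smul_eq_mul, Pi.mul_apply, h, mul_zero] } with hI₀
  have hI₀mem : ∀ x, x ∈ I₀ ↔ ∀ᶠ i in F, x i = 0 := fun x => Iff.rfl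
  have hne : I₀ ≠ ⊤ := by
    intro h
    rw [Ideal.eq_top_iff_one, hI₀mem] at h
    obtain ⟨i, hi⟩ := h.exists
    exact one_ne_zero hi
  obtain ⟨M, hM, hle⟩ := Ideal.exists_le_maximal I₀ hne
  refine ⟨M, hM, fun x hx => hle ((hI₀mem x).2 hx), fun x hx => ?_⟩
  by_contra hcon
  rw [Filter.not_frequently] at hcon
  apply hM.ne_top
  rw [Ideal.eq_top_iff_one]
  have h1 : (fun i => (x i)⁻¹) * x ∈ M := M.mul_mem_left _ hx
  have h2 : 1 - (fun i => (x i)⁻¹) * x ∈ M := by
    apply hle
    rw [hI₀mem]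
    filter_upwards [hcon] with i hi
    rw [Pi.sub_apply, Pi.one_apply, Pi.mul_apply, inv_mul_cancel₀ hi, sub_self]
  have h3 := M.add_mem h2 h1
  rwa [sub_add_cancel] at h3

/-- **Limit fields**: a field containing `k` together with a homomorphism from the ring of
functions, adapted to a filter. -/
theorem exists_limit_field {ι k : Type} [Field k] (F : Filter ι) [F.NeBot] :
    ∃ (K : Type) (_ : Field K) (_ : Algebra k K) (π : (ι → k) →ₐ[k] K),
      (∀ x : ι → k, (∀ᶠ i in F, x i = 0) → π x = 0) ∧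
      (∀ x : ι → k, π x = 0 → ∃ᶠ i in F, x i = 0) ∧
      (∀ x y : ι → k, (∀ i, y i = 0 → x i = 0) → π y = 0 → π x = 0) := by
  obtain ⟨M, hM, h1, h2⟩ := exists_limit_ideal (k := k) F
  refine ⟨(ι → k) ⧸ M, Ideal.Quotient.field M, inferInstance, Ideal.Quotient.mkₐ k M, ?_, ?_, ?_⟩
  · intro x hx
    exact Ideal.Quotient.eq_zero_iff_mem.2 (h1 x hx)
  · intro x hx
    exact h2 x (Ideal.Quotient.eq_zero_iff_mem.1 hx)
  · intro x y hxy hy
    have hy' : y ∈ M := Ideal.Quotient.eq_zero_iff_mem.1 hy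
    have : x = (fun i => x i * (y i)⁻¹) * y := by
      funext i
      rw [Pi.mul_apply]
      by_cases h : y i = 0
      · rw [hxy i h, h]; simp
      · field_simp
    exact Ideal.Quotient.eq_zero_iff_mem.2 (this ▸ M.mul_mem_left _ hy')

/-- Polynomial expressions pass to the limit field. -/
theorem aeval_pi {ι k σ K : Type*} [Field k] [Field K] [Algebra k K] (π : (ι → k) →ₐ[k] K)
    (x : σ → ι → k) (p : MvPolynomial σ k) :
    aeval (fun j => π (x j)) p = π (fun i => eval (fun j => x j i) p) := by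
  have h1 : (aeval x p : ι → k) = fun i => eval (fun j => x j i) p := by
    funext i
    have h2 : (Pi.evalAlgHom k (fun _ : ι => k) i).comp (aeval x : MvPolynomial σ k →ₐ[k] (ι → k))
        = aeval (fun j => x j i) := by
      apply MvPolynomial.algHom_ext
      intro j
      simp
    have h3 := DFunLike.congr_fun h2 p
    simpa [coe_aeval_eq_eval] using h3
  rw [← h1]
  have h4 : π.comp (aeval x : MvPolynomial σ k →ₐ[k] (ι → k)) = aeval (fun j => π (x j)) := by
    apply MvPolynomial.algHom_ext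
    intro j
    simp
  have h5 := DFunLike.congr_fun h4 p
  exact h5.symm

theorem aeval_two {ι k K : Type*} [Field k] [Field K] [Algebra k K] (π : (ι → k) →ₐ[k] K)
    (u v : ι → k) (a b : K) (ha : a = π u) (hb : b = π v) (R : MvPolynomial (Fin 2) k) :
    aeval ![a, b] R = π (fun i => eval ![u i, v i] R) := by
  have h1 : (![a, b] : Fin 2 → K) = fun j => π ((![u, v] : Fin 2 → ι → k) j) := by
    funext j
    match j with
    | 0 => simp [ha]
    | 1 => simp [hb]
  rw [h1, aeval_pi]
  congr 1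
  funext i
  congr 1
  congr 1
  funext j
  match j with
  | 0 => rfl
  | 1 => rfl

/-- chain rule for derivations and polynomials -/
theorem derivation_aeval {k K σ : Type*} [Field k] [Field K] [Algebra k K] [Fintype σ] [DecidableEq σ]
    (δ : Derivation k K K) (z : σ → K) (p : MvPolynomial σ k) :
    δ (aeval z p) = ∑ j, aeval z (pderiv j p) * δ (z j) := by
  induction p using MvPolynomial.induction_on with
  | C a => simp
  | add p q hp hq => simp only [map_add, hp, hq, add_mul, Finset.sum_add_distrib]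
  | mul_X p i hp =>
    rw [map_mul, Derivation.leibniz, hp, aeval_X, smul_eq_mul, smul_eq_mul]
    have h3 : ∀ j, aeval z (pderiv j (p * X i)) * δ (z j)
        = (if j = i then aeval z p * δ (z i) else 0) + z i * (aeval z (pderiv j p) * δ (z j)) := by
      intro j
      rw [Derivation.leibniz, pderiv_X, smul_eq_mul, smul_eq_mul, map_add, map_mul, map_mul, aeval_X]
      by_cases hj : j = i
      · subst hj
        simp
        ring
      · simp [hj, Ne.symm hj]
        ring
    rw [Finset.sum_congr rfl fun j _ => h3 j, Finset.sum_add_distrib, Finset.sum_ite_eq',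
      Finset.mul_sum]
    simp

/-! ### Growth -/

/-- A nonzero polynomial in two variables does not vanish at `(ε, x)` when `x` is much smaller
than all powers of `ε`. -/
theorem growth (R : MvPolynomial (Fin 2) ℂ) (hR : R ≠ 0) (ε x : ℕ → ℝ) (hε : ∀ n, 0 < ε n)
    (hε1 : ∀ᶠ n in atTop, ε n ≤ 1) (hε0 : Tendsto ε atTop (𝓝 0)) (hx : ∀ n, 0 < x n)
    (hxε : ∀ n, x n ≤ ε n ^ n) :
    ∀ᶠ n in atTop, eval ![(ε n : ℂ), (x n : ℂ)] R ≠ 0 := by
  classical
  have hne : R.support.Nonempty := support_nonempty.2 hR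
  obtain ⟨m1, hm1, hmin1⟩ := Finset.exists_min_image R.support (fun m => m 1) hne
  have hne2 : (R.support.filter (fun m => m 1 = m1 1)).Nonempty :=
    ⟨m1, Finset.mem_filter.2 ⟨hm1, rfl⟩⟩
  obtain ⟨m0, hm0, hmin0⟩ := Finset.exists_min_image (R.support.filter (fun m => m 1 = m1 1))
    (fun m => m 0) hne2
  rw [Finset.mem_filter] at hm0
  set a0 := m0 0 with ha0
  set b0 := m0 1 with hb0
  have hx1 : ∀ᶠ n in atTop, x n ≤ 1 := by
    filter_upwards [hε1] with n hn
    exact (hxε n).trans (pow_le_one₀ (hε n).le hn)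
  -- each term divided by the dominant one
  have hterm : ∀ m ∈ R.support, Tendsto (fun n => R.coeff m * (((ε n ^ m 0 * x n ^ m 1) /
      (ε n ^ a0 * x n ^ b0) : ℝ) : ℂ)) atTop (𝓝 (if m = m0 then R.coeff m else 0)) := by
    intro m hm
    by_cases hmm : m = m0
    · rw [if_pos hmm]
      have : ∀ n, R.coeff m * (((ε n ^ m 0 * x n ^ m 1) / (ε n ^ a0 * x n ^ b0) : ℝ) : ℂ) = R.coeff m := by
        intro n
        rw [hmm, ← ha0, ← hb0, div_self (by have := hε n; have := hx n; positivity)]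
        simp
      simp only [this]
      exact tendsto_const_nhds
    · rw [if_neg hmm]
      have h0 : Tendsto (fun n => (ε n ^ m 0 * x n ^ m 1) / (ε n ^ a0 * x n ^ b0)) atTop (𝓝 0) := by
        have hb : b0 ≤ m 1 := by
          have := hmin1 m hm
          rw [hm0.2]
          exact this
        rcases Nat.eq_or_lt_of_le hb with h | h
        · have ha : a0 < m 0 := by
            have h1 := hmin0 m (Finset.mem_filter.2 ⟨hm, by rw [← h, hm0.2]⟩)
            refine lt_of_le_of_ne h1 fun h2 => hmm ?_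
            ext i
            fin_cases i
            · exact h2.symm
            · exact h.symm
          have h1 : ∀ n, (ε n ^ m 0 * x n ^ m 1) / (ε n ^ a0 * x n ^ b0) = ε n ^ (m 0 - a0) := by
            intro n
            have h2 := hε n
            have h3 := hx n
            rw [← h, show m 0 = (m 0 - a0) + a0 by omega, pow_add]
            field_simp
            simp
          simp only [h1]
          have h2 := hε0.pow (m 0 - a0)
          rwa [zero_pow (by omega)] at h2
        · -- bounded by `ε^(n - a0)`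
          have h1 : ∀ᶠ n in atTop, (ε n ^ m 0 * x n ^ m 1) / (ε n ^ a0 * x n ^ b0) ≤ ε n := by
            filter_upwards [hε1, hx1, eventually_ge_atTop (a0 + 1)] with n h1 h2 h3
            have h4 := hε n
            have h5 := hx n
            rw [div_le_iff₀ (by positivity)]
            have h6 : x n ^ m 1 = x n ^ (m 1 - b0 - 1) * (x n * x n ^ b0) := by
              rw [← pow_succ', ← pow_add]
              congr 1
              omega
            have h7 : x n ≤ ε n ^ (a0 + 1) := (hxε n).trans (pow_le_pow_of_le_one h4.le h1 h3)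
            have h8 : x n ^ (m 1 - b0 - 1) ≤ 1 := pow_le_one₀ h5.le h2
            have h9 : ε n ^ m 0 ≤ 1 := pow_le_one₀ h4.le h1
            rw [h6]
            calc ε n ^ m 0 * (x n ^ (m 1 - b0 - 1) * (x n * x n ^ b0))
                ≤ 1 * (1 * (ε n ^ (a0 + 1) * x n ^ b0)) := by gcongr
              _ = ε n * (ε n ^ a0 * x n ^ b0) := by ring
          apply squeeze_zero' _ h1 hε0
          filter_upwards with n
          have h4 := hε n
          have h5 := hx n
          positivity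
      have h1 := ((Complex.continuous_ofReal.tendsto 0).comp h0).const_mul (R.coeff m)
      simpa using h1
  have hsum := tendsto_finsetSum R.support hterm
  rw [Finset.sum_ite_eq', if_pos hm0.1] at hsum
  have hne0 : R.coeff m0 ≠ 0 := mem_support_iff.1 hm0.1
  filter_upwards [hsum.eventually_ne hne0] with n hn h0
  apply hn
  have h4 := hε n
  have h5 := hx n
  have h6 : ∑ m ∈ R.support, R.coeff m * (((ε n ^ m 0 * x n ^ m 1) /
      (ε n ^ a0 * x n ^ b0) : ℝ) : ℂ)
      = (eval ![(ε n : ℂ), (x n : ℂ)] R) / (((ε n ^ a0 * x n ^ b0 : ℝ)) : ℂ) := by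
    rw [eval_eq', Finset.sum_div]
    apply Finset.sum_congr rfl
    intro m _
    rw [Fin.prod_univ_two]
    push_cast
    ring
  rw [h6, h0, zero_div]

/-! ### The algebraic argument -/

/-- conjugated coefficients -/
noncomputable abbrev cc (P : MvPolynomial (Fin d) ℂ) : MvPolynomial (Fin d) ℂ := map (starRingEnd ℂ) P

theorem eval_cc (P : MvPolynomial (Fin d) ℂ) (z : Fin d → ℂ) :
    eval (fun j => conj (z j)) (cc P) = conj (eval z P) := by
  rw [cc, eval_map]
  have := MvPolynomial.eval₂_comp_left (starRingEnd ℂ) (RingHom.id ℂ) z P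
  rw [RingHom.comp_id] at this
  rw [eval, coe_eval₂Hom, this]
  rfl

theorem pderiv_cc (P : MvPolynomial (Fin d) ℂ) (j : Fin d) : pderiv j (cc P) = cc (pderiv j P) :=
  pderiv_map


/-- derivative of `|P|²` along a derivation -/
theorem derivation_normSq {K : Type*} [Field K] [Algebra ℂ K] (δ : Derivation ℂ K K)
    (z w : Fin d → K) (hzw : ∀ j, z j * w j = 1) (P : MvPolynomial (Fin d) ℂ) :
    δ (aeval z P * aeval w (cc P)) = ∑ j, (δ (z j) * w j) *
      (aeval z (X j * pderiv j P) * aeval w (cc P) - aeval z P * aeval w (X j * pderiv j (cc P))) := by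
  classical
  have hw : ∀ j, δ (w j) = - (w j * (δ (z j) * w j)) := by
    intro j
    have h1 := congrArg δ (hzw j)
    rw [Derivation.leibniz, Derivation.map_one_eq_zero, smul_eq_mul, smul_eq_mul] at h1
    linear_combination (w j) * h1 - (δ (w j)) * hzw j
  rw [Derivation.leibniz, derivation_aeval, derivation_aeval, smul_eq_mul, smul_eq_mul,
    Finset.mul_sum, Finset.mul_sum, ← Finset.sum_add_distrib]
  apply Finset.sum_congr rfl
  intro j _
  rw [hw j, map_mul, map_mul, aeval_X, aeval_X]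
  linear_combination (- (aeval w (cc P) * aeval z (pderiv j P) * δ (z j))) * hzw j

/-- the derivative of `|P|²` in the direction `j`, algebraically -/
noncomputable def FD {K : Type*} [Field K] [Algebra ℂ K] (z w : Fin d → K) (p : MvPolynomial (Fin d) ℂ)
    (j : Fin d) : K :=
  aeval z (X j * pderiv j p) * aeval w (cc p) - aeval z p * aeval w (X j * pderiv j (cc p))

theorem alg_dep {K : Type*} [Field K] [Algebra ℂ K] (z w : Fin d → K) (hzw : ∀ j, z j * w j = 1)
    (P Q : MvPolynomial (Fin d) ℂ)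
    (hcross : ∀ i j, FD z w P i * FD z w Q j = FD z w P j * FD z w Q i) :
    ¬ AlgebraicIndependent ℂ ![aeval z Q * aeval w (cc Q), aeval z P * aeval w (cc P)] := by
  intro hind
  obtain ⟨δ1, hδ1⟩ := exists_derivation _ hind ![1, 0]
  obtain ⟨δ2, hδ2⟩ := exists_derivation _ hind ![0, 1]
  have h10 : δ1 (aeval z Q * aeval w (cc Q)) = 1 := hδ1 0
  have h20 : δ2 (aeval z Q * aeval w (cc Q)) = 0 := hδ2 0
  have h21 : δ2 (aeval z P * aeval w (cc P)) = 1 := hδ2 1
  rw [derivation_normSq δ1 z w hzw Q] at h10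
  change ∑ j, (δ1 (z j) * w j) * FD z w Q j = 1 at h10
  have hex : ∃ j, FD z w Q j ≠ 0 := by
    by_contra hcon
    push Not at hcon
    rw [Finset.sum_eq_zero fun j _ => by rw [hcon j, mul_zero]] at h10
    exact zero_ne_one h10
  obtain ⟨j, hj⟩ := hex
  rw [derivation_normSq δ2 z w hzw Q] at h20
  rw [derivation_normSq δ2 z w hzw P] at h21
  change ∑ j, (δ2 (z j) * w j) * FD z w Q j = 0 at h20
  change ∑ j, (δ2 (z j) * w j) * FD z w P j = 1 at h21
  have h3 : FD z w Q j * 1 = 0 := by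
    rw [← h21, Finset.mul_sum]
    have h4 : ∀ i, FD z w Q j * ((δ2 (z i) * w i) * FD z w P i)
        = FD z w P j * ((δ2 (z i) * w i) * FD z w Q i) := by
      intro i
      linear_combination (δ2 (z i) * w i) * hcross i j
    rw [Finset.sum_congr rfl fun i _ => h4 i, ← Finset.mul_sum, h20, mul_zero]
  rw [mul_one] at h3
  exact hj h3

/-- **Critical values are algebraically dependent.** -/
theorem dependent (P Q : MvPolynomial (Fin d) ℂ) (y : ℕ → Fin d → ℝ)
    (hlag : ∀ n i j, Aj P i (y n) * Aj Q j (y n) = Aj P j (y n) * Aj Q i (y n)) :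
    ∃ R : MvPolynomial (Fin 2) ℂ, R ≠ 0 ∧
      ∃ᶠ n in atTop, eval ![((ff Q (y n) : ℝ) : ℂ), ((ff P (y n) : ℝ) : ℂ)] R = 0 := by
  classical
  obtain ⟨K, _, _, π, -, hπ2, -⟩ := exists_limit_field (k := ℂ) (atTop : Filter ℕ)
  set z : Fin d → K := fun j => π (fun n => EE (y n) j) with hz
  set w : Fin d → K := fun j => π (fun n => conj (EE (y n) j)) with hw
  have hzw : ∀ j, z j * w j = 1 := by
    intro j
    show π _ * π _ = 1
    rw [← map_mul, ← map_one π]
    congr 1
    funext n
    show EE (y n) j * conj (EE (y n) j) = 1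
    rw [mul_comm, ← Complex.normSq_eq_conj_mul_self, Complex.normSq_eq_norm_sq, norm_EE]
    simp
  have hzP : ∀ p : MvPolynomial (Fin d) ℂ, aeval z p = π (fun n => eval (EE (y n)) p) :=
    fun p => aeval_pi π (fun j n => EE (y n) j) p
  have hwP : ∀ p : MvPolynomial (Fin d) ℂ, aeval w (cc p) = π (fun n => conj (eval (EE (y n)) p)) := by
    intro p
    rw [hw, aeval_pi π (fun j n => conj (EE (y n) j)) (cc p)]
    congr 1
    funext n
    exact eval_cc p (EE (y n))
  have hval : ∀ p : MvPolynomial (Fin d) ℂ, aeval z p * aeval w (cc p)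
      = π (fun n => ((ff p (y n) : ℝ) : ℂ)) := by
    intro p
    rw [hzP, hwP, ← map_mul]
    congr 1
    funext n
    show eval (EE (y n)) p * conj (eval (EE (y n)) p) = ((‖eval (EE (y n)) p‖ ^ 2 : ℝ) : ℂ)
    rw [mul_comm, ← Complex.normSq_eq_conj_mul_self, Complex.normSq_eq_norm_sq]
  have hF : ∀ (p : MvPolynomial (Fin d) ℂ) (j : Fin d),
      FD z w p j = π (fun n => -I * ((Aj p j (y n) : ℝ) : ℂ)) := by
    intro p j
    have h1 : (X j * pderiv j (cc p) : MvPolynomial (Fin d) ℂ) = cc (X j * pderiv j p) := by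
      have h2 : cc (X j * pderiv j p) = cc (X j) * cc (pderiv j p) := map_mul _ _ _
      rw [h2, pderiv_cc]
      congr 1
      exact (map_X _ _).symm
    rw [FD, h1, hzP, hwP, hzP, hwP, ← map_mul, ← map_mul, ← map_sub]
    congr 1
    funext n
    show eval (EE (y n)) (X j * pderiv j p) * conj (eval (EE (y n)) p)
      - eval (EE (y n)) p * conj (eval (EE (y n)) (X j * pderiv j p)) = -I * ((Aj p j (y n) : ℝ) : ℂ)
    unfold Aj
    apply Complex.ext
    · simp
      ring
    · simp
      ring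
  have hdep := alg_dep z w hzw P Q (by
    intro i j
    have hfun : (fun n => -I * ((Aj P i (y n) : ℝ) : ℂ)) * (fun n => -I * ((Aj Q j (y n) : ℝ) : ℂ))
        = (fun n => -I * ((Aj P j (y n) : ℝ) : ℂ)) * (fun n => -I * ((Aj Q i (y n) : ℝ) : ℂ)) := by
      funext n
      have h := hlag n i j
      have h2 : ((Aj P i (y n) : ℝ) : ℂ) * ((Aj Q j (y n) : ℝ) : ℂ)
          = ((Aj P j (y n) : ℝ) : ℂ) * ((Aj Q i (y n) : ℝ) : ℂ) := by exact_mod_cast h
      rw [Pi.mul_apply, Pi.mul_apply]
      linear_combination (I * I) * h2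
    calc FD z w P i * FD z w Q j
        = π ((fun n => -I * ((Aj P i (y n) : ℝ) : ℂ)) * (fun n => -I * ((Aj Q j (y n) : ℝ) : ℂ))) := by
          rw [map_mul, hF P i, hF Q j]
      _ = π ((fun n => -I * ((Aj P j (y n) : ℝ) : ℂ)) * (fun n => -I * ((Aj Q i (y n) : ℝ) : ℂ))) := by
          rw [hfun]
      _ = FD z w P j * FD z w Q i := by rw [map_mul, hF P j, hF Q i])
  rw [algebraicIndependent_iff] at hdep
  push Not at hdep
  obtain ⟨R, hR1, hR2⟩ := hdep
  refine ⟨R, hR2, ?_⟩
  rw [aeval_two π _ _ _ _ (hval Q) (hval P)] at hR1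
  exact hπ2 _ hR1

/-- **Lojasiewicz inequality** for polynomials on the torus. -/
theorem lojasiewicz (P Q : MvPolynomial (Fin d) ℂ)
    (h : ∀ ζ : Fin d → ℂ, (∀ j, ‖ζ j‖ = 1) → eval ζ P = 0 → eval ζ Q = 0) :
    ∃ (N : ℕ) (C : ℝ), 0 < C ∧ ∀ ζ : Fin d → ℂ, (∀ j, ‖ζ j‖ = 1) →
      ‖eval ζ Q‖ ^ N ≤ C * ‖eval ζ P‖ := by
  classical
  by_contra hcon
  push Not at hcon
  -- a bound for `Q`
  set B : ℝ := 1 + ∑ α ∈ Q.support, ‖Q.coeff α‖ with hB
  have hBpos : 0 < B := by positivity
  have hQB : ∀ ζ : Fin d → ℂ, (∀ j, ‖ζ j‖ = 1) → ‖eval ζ Q‖ ≤ B := by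
    intro ζ hζ
    rw [eval_eq']
    refine (norm_sum_le _ _).trans ?_
    have : ∑ α ∈ Q.support, ‖Q.coeff α * ∏ i, ζ i ^ α i‖ = ∑ α ∈ Q.support, ‖Q.coeff α‖ := by
      apply Finset.sum_congr rfl
      intro α _
      rw [norm_mul, norm_prod]
      simp [hζ]
    rw [this, hB]
    linarith
  -- the rescaled polynomial
  set Q' : MvPolynomial (Fin d) ℂ := C ((B⁻¹ : ℝ) : ℂ) * Q with hQ'
  have hQ'e : ∀ ζ, ‖eval ζ Q'‖ = B⁻¹ * ‖eval ζ Q‖ := by
    intro ζ
    rw [hQ', map_mul, eval_C, norm_mul, Complex.norm_real, Real.norm_of_nonneg (by positivity)]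
  have hQ'1 : ∀ ζ : Fin d → ℂ, (∀ j, ‖ζ j‖ = 1) → ‖eval ζ Q'‖ ≤ 1 := by
    intro ζ hζ
    rw [hQ'e, inv_mul_le_iff₀ hBpos, mul_one]
    exact hQB ζ hζ
  have h1 : ∀ n : ℕ, ∃ θ : Fin d → ℝ, ((n : ℝ) + 1) * ‖eval (EE θ) P‖ < ‖eval (EE θ) Q'‖ ^ (n + 1) := by
    intro n
    obtain ⟨ζ, hζ, hlt⟩ := hcon (n + 1) (((n : ℝ) + 1) * B ^ (n + 1)) (by positivity)
    obtain ⟨θ, -, hθ⟩ := exists_EE ζ hζ
    refine ⟨θ, ?_⟩
    rw [hθ, hQ'e, mul_pow, inv_pow, lt_inv_mul_iff₀ (by positivity)]
    linarith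
  choose θ hθ using h1
  choose y hy1 hy2 using fun n => exists_minimizer P Q' (θ n)
  have hff : ∀ (p : MvPolynomial (Fin d) ℂ) θ, ff p θ = ‖eval (EE θ) p‖ ^ 2 := fun _ _ => rfl
  have hεpos : ∀ n, 0 < ff Q' (y n) := by
    intro n
    rw [hy1 n, hff]
    have h2 := hθ n
    have h3 : 0 < ‖eval (EE (θ n)) Q'‖ ^ (n + 1) := lt_of_le_of_lt (by positivity) h2
    have h4 : ‖eval (EE (θ n)) Q'‖ ≠ 0 := by
      intro h0
      rw [h0, zero_pow (by omega)] at h3
      exact lt_irrefl _ h3
    positivity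
  have hε1 : ∀ n, ff Q' (y n) ≤ 1 := by
    intro n
    rw [hff]
    exact pow_le_one₀ (norm_nonneg _) (hQ'1 _ (norm_EE _))
  have hxlt : ∀ n, ff P (y n) * ((n : ℝ) + 1) ^ 2 ≤ ff Q' (y n) ^ (n + 1) := by
    intro n
    have h2 : ff P (y n) ≤ ff P (θ n) := hy2 n (θ n) (hy1 n).symm
    have h3 : ff P (θ n) * ((n : ℝ) + 1) ^ 2 ≤ ff Q' (θ n) ^ (n + 1) := by
      rw [hff, hff]
      have h4 := (hθ n).le
      have h5 := pow_le_pow_left₀ (by positivity) h4 2
      calc ‖eval (EE (θ n)) P‖ ^ 2 * ((n : ℝ) + 1) ^ 2 = (((n : ℝ) + 1) * ‖eval (EE (θ n)) P‖) ^ 2 := by ring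
        _ ≤ _ := h5
        _ = _ := by ring
    rw [hy1 n]
    refine le_trans ?_ h3
    gcongr
  have hxpos : ∀ n, 0 < ff P (y n) := by
    intro n
    rw [hff]
    have h0 : eval (EE (y n)) P ≠ 0 := by
      intro h0
      have h2 := h _ (norm_EE _) h0
      have h3 := hεpos n
      rw [hff, hQ'e, h2] at h3
      simp at h3
    positivity
  have hxε : ∀ n, ff P (y n) ≤ ff Q' (y n) ^ n := by
    intro n
    have h2 := hxlt n
    have h3 : ff Q' (y n) ^ (n + 1) ≤ ff Q' (y n) ^ n :=
      pow_le_pow_of_le_one (hεpos n).le (hε1 n) (Nat.le_succ n)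
    have h4 : (1 : ℝ) ≤ ((n : ℝ) + 1) ^ 2 := by
      have : (0 : ℝ) ≤ n := Nat.cast_nonneg n
      nlinarith
    have h5 := hxpos n
    nlinarith
  have hx0 : Tendsto (fun n => ff P (y n)) atTop (𝓝 0) := by
    have h2 : ∀ n, ff P (y n) ≤ 1 / ((n : ℝ) + 1) := by
      intro n
      rw [le_div_iff₀ (by positivity)]
      have h3 := hxlt n
      have h4 : ff Q' (y n) ^ (n + 1) ≤ 1 := pow_le_one₀ (hεpos n).le (hε1 n)
      have h5 := hxpos n
      have h6 : (0 : ℝ) ≤ n := Nat.cast_nonneg n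
      nlinarith [mul_nonneg h5.le h6]
    exact squeeze_zero (fun n => (hxpos n).le) h2 tendsto_one_div_add_atTop_nhds_zero_nat
  have hε0 : Tendsto (fun n => ff Q' (y n)) atTop (𝓝 0) := by
    rw [Metric.tendsto_atTop]
    intro η hη
    -- compactness
    set S : Set (Fin d → ℝ) := Set.Icc (fun _ => -Real.pi) (fun _ => Real.pi) ∩ {θ | η ≤ ff Q' θ} with hS
    have hcomp : IsCompact S := by
      apply isCompact_Icc.inter_right
      exact isClosed_le continuous_const (continuous_ff Q')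
    have hmem : ∀ n, η ≤ ff Q' (y n) → ∃ θ' ∈ S, ff P θ' = ff P (y n) := by
      intro n hn
      obtain ⟨θ', h1, h2⟩ := exists_EE (EE (y n)) (norm_EE _)
      refine ⟨θ', ⟨h1, ?_⟩, by rw [hff, hff, h2]⟩
      show η ≤ ff Q' θ'
      rw [hff, h2]
      exact hn
    rcases S.eq_empty_or_nonempty with hemp | hne
    · refine ⟨0, fun n _ => ?_⟩
      rw [dist_zero_right, Real.norm_of_nonneg (hεpos n).le]
      by_contra hge
      push Not at hge
      obtain ⟨θ', h1, -⟩ := hmem n hge
      rw [hemp] at h1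
      exact h1
    · obtain ⟨θ₀, h0, hmin⟩ := hcomp.exists_isMinOn hne (continuous_ff P).continuousOn
      have hc : 0 < ff P θ₀ := by
        rw [hff]
        have h2 : eval (EE θ₀) P ≠ 0 := by
          intro h3
          have h4 := h _ (norm_EE _) h3
          have h5 : η ≤ ff Q' θ₀ := h0.2
          rw [hff, hQ'e, h4] at h5
          simp at h5
          linarith
        positivity
      obtain ⟨N, hN⟩ := (Metric.tendsto_atTop.1 hx0) (ff P θ₀) hc
      refine ⟨N, fun n hn => ?_⟩
      rw [dist_zero_right, Real.norm_of_nonneg (hεpos n).le]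
      by_contra hge
      push Not at hge
      obtain ⟨θ', h1, h2⟩ := hmem n hge
      have h3 := hN n hn
      rw [dist_zero_right, Real.norm_of_nonneg (hxpos n).le, ← h2] at h3
      exact absurd (hmin h1) (not_le.2 h3)
  -- conclusion
  obtain ⟨R, hR0, hR⟩ := dependent P Q' y (fun n i j => lagrange P Q' (y n)
    (hy2 n) i j)
  have hg := growth R hR0 (fun n => ff Q' (y n)) (fun n => ff P (y n)) hεpos
    (Filter.Eventually.of_forall hε1) hε0 hxpos hxε
  obtain ⟨n, hn1, hn2⟩ := (hR.and_eventually hg).exists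
  exact hn2 hn1

end Pool.Agent.Helper49.Loj
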