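import Mathlib

/-! Definitions for shift-cyclic polynomials in Dirichlet-type spaces on the polydisk. -/

set_option autoImplicit false

namespace Pool.Agent.Helper49.Cyc

open scoped ENNReal

variable {d : ℕ}

/-- The weight `w_t(α) = ∏_j (1 + α_j)^t`. -/
noncomputable def weight (t : ℝ) (α : Fin d →₀ ℕ) : ℝ := ∏ j, (1 + (α j : ℝ)) ^ t

/-- The squared norm `‖f‖_t² = ∑_α w_t(α) |c_α|²`, in `[0, ∞]`, of the power series `f` with
coefficients `c`. The space `𝓓_t(𝔻^d)` consists of the power series of finite norm. -/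
noncomputable def normSq (t : ℝ) (c : (Fin d →₀ ℕ) → ℂ) : ℝ≥0∞ :=
  ∑' α, ENNReal.ofReal (weight t α * ‖c α‖ ^ 2)

/-- The polynomial `P` is shift-cyclic in `𝓓_t(𝔻^d)`: the multiples `p P`, `p` a polynomial, are
dense in the space. -/
def ShiftCyclic (t : ℝ) (P : MvPolynomial (Fin d) ℂ) : Prop :=
  ∀ c : (Fin d →₀ ℕ) → ℂ, normSq t c < ⊤ → ∀ ε : ℝ≥0∞, 0 < ε →
    ∃ p : MvPolynomial (Fin d) ℂ, normSq t (fun α => c α - (p * P).coeff α) < ε

/-- The subgroup of `ℤ^d` generated by the exponents of the monomials of `P`. -/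
def expGroup (P : MvPolynomial (Fin d) ℂ) : AddSubgroup (Fin d → ℤ) :=
  AddSubgroup.closure {v | ∃ α ∈ P.support, v = fun j => (α j : ℤ)}

/-- The points of `expGroup P` with nonnegative coordinates. -/
def expPoints (P : MvPolynomial (Fin d) ℂ) : Set (Fin d →₀ ℕ) :=
  {k | (fun j => (k j : ℤ)) ∈ expGroup P}

end Pool.Agent.Helper49.Cyc
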