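import Mathlib
import Pool.Agent.Helper49.CycDefs

/-! Basic facts on Dirichlet-type spaces on the polydisk and shift-cyclic polynomials. -/

set_option autoImplicit false

namespace Pool.Agent.Helper49.Cyc

open scoped ENNReal InnerProductSpace ComplexConjugate
open Filter Topology MvPolynomial

variable {d : ℕ}

theorem weight_pos (t : ℝ) (α : Fin d →₀ ℕ) : 0 < weight t α := by
  unfold weight
  exact Finset.prod_pos fun j _ => by positivity

theorem rpow_aux {t a c : ℝ} (ha : 0 ≤ a) (hc : 0 ≤ c) :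
    (1 + a + c) ^ t ≤ (1 + c) ^ |t| * (1 + a) ^ t := by
  rcases le_or_gt 0 t with ht | ht
  · rw [abs_of_nonneg ht, ← Real.mul_rpow (by linarith) (by linarith)]
    exact Real.rpow_le_rpow (by linarith) (by nlinarith) ht
  · have h1 : (1 + a + c) ^ t ≤ (1 + a) ^ t :=
      Real.rpow_le_rpow_of_nonpos (by linarith) (by linarith) ht.le
    have h2 : 1 ≤ (1 + c) ^ |t| := Real.one_le_rpow (by linarith) (abs_nonneg t)
    have h3 : 0 ≤ (1 + a) ^ t := by positivity
    nlinarith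

theorem rpow_aux' {t a c : ℝ} (ha : 0 ≤ a) (hc : 0 ≤ c) :
    (1 + a) ^ t ≤ (1 + c) ^ |t| * (1 + a + c) ^ t := by
  rcases le_or_gt 0 t with ht | ht
  · have h1 : (1 + a) ^ t ≤ (1 + a + c) ^ t :=
      Real.rpow_le_rpow (by linarith) (by linarith) ht
    have h2 : 1 ≤ (1 + c) ^ |t| := Real.one_le_rpow (by linarith) (abs_nonneg t)
    have h3 : 0 ≤ (1 + a + c) ^ t := by positivity
    nlinarith
  · have h4 := rpow_aux (t := -t) ha hc
    rw [abs_neg] at h4
    have h5 : 0 < (1 + a) ^ t := by positivity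
    have h6 : 0 < (1 + a + c) ^ t := by positivity
    rw [Real.rpow_neg (by linarith), Real.rpow_neg (by linarith)] at h4
    have h7 : (1 + a) ^ t * ((1 + a + c) ^ t * ((1 + a + c) ^ t)⁻¹)
        ≤ (1 + a) ^ t * ((1 + a + c) ^ t * ((1 + c) ^ |t| * ((1 + a) ^ t)⁻¹)) := by
      gcongr
    rw [mul_inv_cancel₀ h6.ne'] at h7
    calc (1 + a) ^ t = (1 + a) ^ t * 1 := by ring
      _ ≤ (1 + a) ^ t * ((1 + a + c) ^ t * ((1 + c) ^ |t| * ((1 + a) ^ t)⁻¹)) := h7
      _ = (1 + c) ^ |t| * (1 + a + c) ^ t * ((1 + a) ^ t * ((1 + a) ^ t)⁻¹) := by ring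
      _ = (1 + c) ^ |t| * (1 + a + c) ^ t := by rw [mul_inv_cancel₀ h5.ne', mul_one]

theorem weight_add_le (t : ℝ) (α γ : Fin d →₀ ℕ) :
    weight t (α + γ) ≤ weight |t| γ * weight t α := by
  unfold weight
  rw [← Finset.prod_mul_distrib]
  apply Finset.prod_le_prod
  · intro j _; positivity
  · intro j _
    have := rpow_aux (t := t) (a := (α j : ℝ)) (c := (γ j : ℝ)) (by positivity) (by positivity)
    simpa [add_assoc] using this

theorem weight_le_add (t : ℝ) (α γ : Fin d →₀ ℕ) :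
    weight t α ≤ weight |t| γ * weight t (α + γ) := by
  unfold weight
  rw [← Finset.prod_mul_distrib]
  apply Finset.prod_le_prod
  · intro j _; positivity
  · intro j _
    have := rpow_aux' (t := t) (a := (α j : ℝ)) (c := (γ j : ℝ)) (by positivity) (by positivity)
    simpa [add_assoc] using this

theorem weight_le_of_le (t : ℝ) (α : Fin d →₀ ℕ) {m : ℝ} (hm : ∀ j, (α j : ℝ) ≤ m) :
    weight t α ≤ ((1 + m) ^ |t|) ^ d := by
  unfold weight
  calc ∏ j, (1 + (α j : ℝ)) ^ t ≤ ∏ _j : Fin d, (1 + m) ^ |t| := by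
        apply Finset.prod_le_prod
        · intro j _; positivity
        · intro j _
          calc (1 + (α j : ℝ)) ^ t ≤ (1 + (α j : ℝ)) ^ |t| :=
                Real.rpow_le_rpow_of_exponent_le (by simp) (le_abs_self t)
            _ ≤ (1 + m) ^ |t| :=
                Real.rpow_le_rpow (by positivity) (by linarith [hm j]) (abs_nonneg t)
    _ = ((1 + m) ^ |t|) ^ d := by simp

/-- The Hilbert space of coefficients. -/
noncomputable abbrev HH (d : ℕ) := lp (fun _ : Fin d →₀ ℕ => ℂ) 2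

theorem two_toReal : (2 : ℝ≥0∞).toReal = 2 := by norm_num

/-- squared norm in `ℓ²` -/
theorem norm_sq_eq (f : HH d) : HasSum (fun α => ‖f α‖ ^ 2) (‖f‖ ^ 2) := by
  have := lp.hasSum_norm (p := 2) (by rw [two_toReal]; norm_num) f
  rw [two_toReal] at this
  simpa using this

/-- Every coefficient function of finite `𝓓_t` norm gives an element of `ℓ²`. -/
theorem exists_embed (t : ℝ) (c : (Fin d →₀ ℕ) → ℂ) (hc : normSq t c < ⊤) :
    ∃ F : HH d, (∀ α, F α = ((Real.sqrt (weight t α) : ℝ) : ℂ) * c α) ∧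
      ENNReal.ofReal (‖F‖ ^ 2) = normSq t c := by
  have hnn : ∀ α, 0 ≤ weight t α * ‖c α‖ ^ 2 := fun α =>
    mul_nonneg (weight_pos t α).le (by positivity)
  have hsum : Summable (fun α => weight t α * ‖c α‖ ^ 2) := by
    have h1 := ENNReal.summable_toReal hc.ne
    refine h1.congr (fun α => ?_)
    rw [ENNReal.toReal_ofReal (hnn α)]
  have hnorm : ∀ α, ‖((Real.sqrt (weight t α) : ℝ) : ℂ) * c α‖ ^ 2 = weight t α * ‖c α‖ ^ 2 := by
    intro α
    rw [norm_mul, mul_pow, Complex.norm_real, Real.norm_of_nonneg (Real.sqrt_nonneg _),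
      Real.sq_sqrt (weight_pos t α).le]
  have hmem : Memℓp (fun α => ((Real.sqrt (weight t α) : ℝ) : ℂ) * c α) 2 := by
    apply memℓp_gen
    rw [two_toReal]
    refine hsum.congr (fun α => ?_)
    rw [← hnorm α, Real.rpow_two]
  refine ⟨⟨_, hmem⟩, fun α => rfl, ?_⟩
  have h2 : HasSum (fun α => ‖((Real.sqrt (weight t α) : ℝ) : ℂ) * c α‖ ^ 2)
      (‖(⟨_, hmem⟩ : HH d)‖ ^ 2) := norm_sq_eq (⟨_, hmem⟩ : HH d)
  have h3 : HasSum (fun α => weight t α * ‖c α‖ ^ 2) (‖(⟨_, hmem⟩ : HH d)‖ ^ 2) := by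
    simpa only [hnorm] using h2
  rw [← h3.tsum_eq, normSq, ENNReal.ofReal_tsum_of_nonneg hnn hsum]

/-- The norm of a polynomial is finite. -/
theorem normSq_poly_lt_top (t : ℝ) (Q : MvPolynomial (Fin d) ℂ) :
    normSq t (fun α => Q.coeff α) < ⊤ := by
  unfold normSq
  rw [tsum_eq_sum (s := Q.support)]
  · exact ENNReal.sum_lt_top.2 fun α _ => ENNReal.ofReal_lt_top
  · intro α hα
    rw [MvPolynomial.notMem_support_iff] at hα
    simp [hα]

/-- The embedding of polynomials into the Hilbert space, as a linear map. -/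
noncomputable def J (t : ℝ) : MvPolynomial (Fin d) ℂ →ₗ[ℂ] HH d where
  toFun Q := Classical.choose (exists_embed t (fun α => Q.coeff α) (normSq_poly_lt_top t Q))
  map_add' Q R := by
    ext α
    rw [(Classical.choose_spec (exists_embed t _ (normSq_poly_lt_top t (Q + R)))).1, lp.coeFn_add,
      Pi.add_apply, (Classical.choose_spec (exists_embed t _ (normSq_poly_lt_top t Q))).1,
      (Classical.choose_spec (exists_embed t _ (normSq_poly_lt_top t R))).1,
      MvPolynomial.coeff_add]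
    ring
  map_smul' a Q := by
    ext α
    rw [(Classical.choose_spec (exists_embed t _ (normSq_poly_lt_top t (a • Q)))).1,
      RingHom.id_apply, lp.coeFn_smul, Pi.smul_apply,
      (Classical.choose_spec (exists_embed t _ (normSq_poly_lt_top t Q))).1,
      MvPolynomial.coeff_smul, smul_eq_mul, smul_eq_mul]
    ring

theorem J_apply (t : ℝ) (Q : MvPolynomial (Fin d) ℂ) (α : Fin d →₀ ℕ) :
    J t Q α = ((Real.sqrt (weight t α) : ℝ) : ℂ) * Q.coeff α :=
  (Classical.choose_spec (exists_embed t _ (normSq_poly_lt_top t Q))).1 α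

theorem J_norm (t : ℝ) (Q : MvPolynomial (Fin d) ℂ) :
    ‖J t Q‖ ^ 2 = ∑ α ∈ Q.support, weight t α * ‖Q.coeff α‖ ^ 2 := by
  have h1 := norm_sq_eq (J t Q)
  have h2 : ∀ α, ‖J t Q α‖ ^ 2 = weight t α * ‖Q.coeff α‖ ^ 2 := by
    intro α
    rw [J_apply, norm_mul, mul_pow, Complex.norm_real, Real.norm_of_nonneg (Real.sqrt_nonneg _),
      Real.sq_sqrt (weight_pos t α).le]
  simp only [h2] at h1
  rw [← h1.tsum_eq]
  apply tsum_eq_sum
  intro α hα
  rw [MvPolynomial.notMem_support_iff] at hα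
  simp [hα]

/-- Density criterion: if no nonzero functional annihilates the multiples of `P`, then `P` is
shift-cyclic. -/
theorem shiftCyclic_of_annihilator (t : ℝ) (P : MvPolynomial (Fin d) ℂ)
    (h : ∀ φ : HH d, (∀ Q : MvPolynomial (Fin d) ℂ, ⟪φ, J t (Q * P)⟫_ℂ = 0) → φ = 0) :
    ShiftCyclic t P := by
  intro c hc ε hε
  obtain ⟨F, hF1, hF2⟩ := exists_embed t c hc
  let W : Submodule ℂ (HH d) :=
    LinearMap.range ((J t : MvPolynomial (Fin d) ℂ →ₗ[ℂ] HH d).comp
      (LinearMap.mulRight ℂ P))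
  have horth : Wᗮ = ⊥ := by
    rw [Submodule.eq_bot_iff]
    intro φ hφ
    apply h
    intro Q
    rw [Submodule.mem_orthogonal'] at hφ
    exact hφ _ ⟨Q, rfl⟩
  have hdense : Dense (W : Set (HH d)) := by
    rw [Submodule.dense_iff_topologicalClosure_eq_top]
    exact (Submodule.topologicalClosure_eq_top_iff).2 horth
  obtain ⟨δ, hδ, hδε⟩ : ∃ δ : ℝ, 0 < δ ∧ ENNReal.ofReal (δ ^ 2) ≤ ε := by
    by_cases hε' : ε = ⊤
    · exact ⟨1, one_pos, by rw [hε']; exact le_top⟩
    · refine ⟨Real.sqrt ε.toReal, Real.sqrt_pos.2 (ENNReal.toReal_pos hε.ne' hε'), ?_⟩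
      rw [Real.sq_sqrt ENNReal.toReal_nonneg, ENNReal.ofReal_toReal hε']
  obtain ⟨y, hy, hdist⟩ := Metric.mem_closure_iff.1 (hdense F) δ hδ
  obtain ⟨Q, rfl⟩ := hy
  refine ⟨Q, ?_⟩
  have hlt : normSq t (fun α => c α - (Q * P).coeff α) < ⊤ ∧
      normSq t (fun α => c α - (Q * P).coeff α) = ENNReal.ofReal (‖F - J t (Q * P)‖ ^ 2) := by
    have h1 := norm_sq_eq (F - J t (Q * P))
    have h2 : ∀ α, ‖(F - J t (Q * P)) α‖ ^ 2 = weight t α * ‖c α - (Q * P).coeff α‖ ^ 2 := by
      intro α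
      rw [lp.coeFn_sub, Pi.sub_apply, J_apply, hF1, ← mul_sub, norm_mul, mul_pow,
        Complex.norm_real, Real.norm_of_nonneg (Real.sqrt_nonneg _),
        Real.sq_sqrt (weight_pos t α).le]
    simp only [h2] at h1
    have h3 : normSq t (fun α => c α - (Q * P).coeff α)
        = ENNReal.ofReal (‖F - J t (Q * P)‖ ^ 2) := by
      rw [← h1.tsum_eq, normSq, ENNReal.ofReal_tsum_of_nonneg _ h1.summable]
      intro α
      exact mul_nonneg (weight_pos t α).le (by positivity)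
    rw [h3]
    exact ⟨ENNReal.ofReal_lt_top, rfl⟩
  rw [hlt.2]
  refine lt_of_lt_of_le ?_ hδε
  rw [ENNReal.ofReal_lt_ofReal_iff (by positivity)]
  have h4 : ‖F - J t (Q * P)‖ < δ := by
    rw [← dist_eq_norm]
    exact hdist
  exact pow_lt_pow_left₀ h4 (norm_nonneg _) two_ne_zero

end Pool.Agent.Helper49.Cyc
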