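import Mathlib
import Pool.Agent.Helper49.CycBasic

/-! Decay of differences of powers of a lazy averaging operator, in the `ℓ²` norm. -/

set_option autoImplicit false

namespace Pool.Agent.Helper49.Cyc

open scoped ENNReal InnerProductSpace ComplexConjugate
open Filter Topology MvPolynomial

variable {d : ℕ}

theorem weight_zero (α : Fin d →₀ ℕ) : weight 0 α = 1 := by simp [weight]

theorem J0_hasSum (Q : MvPolynomial (Fin d) ℂ) :
    HasSum (fun α => ‖Q.coeff α‖ ^ 2) (‖J 0 Q‖ ^ 2) := by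
  refine (norm_sq_eq (J 0 Q)).congr_fun (fun α => ?_)
  rw [J_apply, weight_zero]
  simp

/-- Multiplication by a unimodular monomial preserves the `ℓ²` norm of coefficients. -/
theorem J0_monomial_mul (β : Fin d →₀ ℕ) {u : ℂ} (hu : ‖u‖ = 1) (f : MvPolynomial (Fin d) ℂ) :
    ‖J 0 (monomial β u * f)‖ = ‖J 0 f‖ := by
  have h1 := J0_hasSum (monomial β u * f)
  have hinj : Function.Injective (fun α : Fin d →₀ ℕ => β + α) := add_right_injective β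
  have h2 := (hinj.hasSum_iff (f := fun α => ‖(monomial β u * f).coeff α‖ ^ 2)
    (a := ‖J 0 (monomial β u * f)‖ ^ 2) (by
      intro x hx
      have : ¬ β ≤ x := by
        intro h
        exact hx ⟨x - β, by simp [add_tsub_cancel_of_le h]⟩
      simp [coeff_monomial_mul', this])).2 h1
  have h3 : HasSum (fun α => ‖f.coeff α‖ ^ 2) (‖J 0 (monomial β u * f)‖ ^ 2) := by
    refine h2.congr_fun (fun α => ?_)
    simp [Function.comp, coeff_monomial_mul, hu]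
  have h4 := h3.unique (J0_hasSum f)
  exact (pow_left_inj₀ (norm_nonneg _) (norm_nonneg _) two_ne_zero).1 h4

section
variable (B : Finset (Fin d →₀ ℕ)) (c : (Fin d →₀ ℕ) → ℝ) (u : (Fin d →₀ ℕ) → ℂ)

/-- The averaging polynomial `G = ∑ c_β u_β z^β`. -/
noncomputable def G : MvPolynomial (Fin d) ℂ := ∑ β ∈ B, monomial β ((c β : ℂ) * u β)

/-- The lazy version `(1 + G) / 2`. -/
noncomputable def G' : MvPolynomial (Fin d) ℂ := C (1 / 2 : ℂ) * (1 + G B c u)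

variable {B c u}

theorem J0_G_mul (f : MvPolynomial (Fin d) ℂ) :
    J 0 (G B c u * f) = ∑ β ∈ B, (c β : ℂ) • J 0 (monomial β (u β) * f) := by
  rw [G, Finset.sum_mul, map_sum]
  apply Finset.sum_congr rfl
  intro β _
  rw [← map_smul]
  congr 1
  rw [smul_eq_C_mul, ← mul_assoc, C_mul_monomial]

theorem norm_J0_G_mul (hc : ∀ β ∈ B, 0 ≤ c β) (hsum : ∑ β ∈ B, c β = 1)
    (hu : ∀ β ∈ B, ‖u β‖ = 1) (f : MvPolynomial (Fin d) ℂ) :
    ‖J 0 (G B c u * f)‖ ≤ ‖J 0 f‖ := by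
  rw [J0_G_mul]
  calc ‖∑ β ∈ B, (c β : ℂ) • J 0 (monomial β (u β) * f)‖
      ≤ ∑ β ∈ B, ‖(c β : ℂ) • J 0 (monomial β (u β) * f)‖ := norm_sum_le _ _
    _ = ∑ β ∈ B, c β * ‖J 0 f‖ := by
        apply Finset.sum_congr rfl
        intro β hβ
        rw [norm_smul, Complex.norm_real, Real.norm_of_nonneg (hc β hβ),
          J0_monomial_mul β (hu β hβ)]
    _ = ‖J 0 f‖ := by rw [← Finset.sum_mul, hsum, one_mul]

/-- The basic energy identity. -/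
theorem energy (hc : ∀ β ∈ B, 0 ≤ c β) (hsum : ∑ β ∈ B, c β = 1)
    (hu : ∀ β ∈ B, ‖u β‖ = 1) (f : MvPolynomial (Fin d) ℂ) :
    1 / 4 * ∑ β ∈ B, c β * ‖J 0 ((1 - monomial β (u β)) * f)‖ ^ 2
      ≤ ‖J 0 f‖ ^ 2 - ‖J 0 (G' B c u * f)‖ ^ 2 := by
  have h1 : J 0 (G' B c u * f) = (1 / 2 : ℂ) • (J 0 f + J 0 (G B c u * f)) := by
    rw [← map_add, ← map_smul]
    congr 1
    rw [G', smul_eq_C_mul]
    ring
  have h2 : ‖J 0 (G' B c u * f)‖ ^ 2
      = 1 / 4 * (‖J 0 f‖ ^ 2 + 2 * RCLike.re ⟪J 0 f, J 0 (G B c u * f)⟫_ℂ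
        + ‖J 0 (G B c u * f)‖ ^ 2) := by
    rw [h1, norm_smul, mul_pow, norm_add_sq (𝕜 := ℂ)]
    norm_num
  have h3 := norm_J0_G_mul hc hsum hu f
  have h4 : ‖J 0 (G B c u * f)‖ ^ 2 ≤ ‖J 0 f‖ ^ 2 := by gcongr
  have h5 : RCLike.re ⟪J 0 f, J 0 (G B c u * f)⟫_ℂ
      = ∑ β ∈ B, c β * RCLike.re ⟪J 0 f, J 0 (monomial β (u β) * f)⟫_ℂ := by
    rw [J0_G_mul, inner_sum, map_sum]
    apply Finset.sum_congr rfl
    intro β _
    rw [inner_smul_right]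
    simp
  have h6 : ∀ β ∈ B, ‖J 0 ((1 - monomial β (u β)) * f)‖ ^ 2
      = 2 * ‖J 0 f‖ ^ 2 - 2 * RCLike.re ⟪J 0 f, J 0 (monomial β (u β) * f)⟫_ℂ := by
    intro β hβ
    rw [sub_mul, one_mul, map_sub, norm_sub_sq (𝕜 := ℂ), J0_monomial_mul β (hu β hβ)]
    ring
  have h7 : ∑ β ∈ B, c β * ‖J 0 ((1 - monomial β (u β)) * f)‖ ^ 2
      = 2 * ‖J 0 f‖ ^ 2 - 2 * RCLike.re ⟪J 0 f, J 0 (G B c u * f)⟫_ℂ := by
    rw [h5, Finset.mul_sum]
    have h8 : 2 * ‖J 0 f‖ ^ 2 = ∑ β ∈ B, c β * (2 * ‖J 0 f‖ ^ 2) := by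
      rw [← Finset.sum_mul, hsum, one_mul]
    rw [h8, ← Finset.sum_sub_distrib]
    apply Finset.sum_congr rfl
    intro β hβ
    rw [h6 β hβ]
    ring
  rw [h7, h2]
  linarith

theorem G'_contraction (hc : ∀ β ∈ B, 0 ≤ c β) (hsum : ∑ β ∈ B, c β = 1)
    (hu : ∀ β ∈ B, ‖u β‖ = 1) (f : MvPolynomial (Fin d) ℂ) :
    ‖J 0 (G' B c u * f)‖ ≤ ‖J 0 f‖ := by
  have h1 := energy hc hsum hu f
  have h2 : 0 ≤ 1 / 4 * ∑ β ∈ B, c β * ‖J 0 ((1 - monomial β (u β)) * f)‖ ^ 2 := by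
    apply mul_nonneg (by norm_num)
    exact Finset.sum_nonneg fun β hβ => mul_nonneg (hc β hβ) (by positivity)
  have h3 : ‖J 0 (G' B c u * f)‖ ^ 2 ≤ ‖J 0 f‖ ^ 2 := by linarith
  exact le_of_sq_le_sq h3 (norm_nonneg _)

theorem G'_pow_contraction (hc : ∀ β ∈ B, 0 ≤ c β) (hsum : ∑ β ∈ B, c β = 1)
    (hu : ∀ β ∈ B, ‖u β‖ = 1) (f : MvPolynomial (Fin d) ℂ) (m : ℕ) :
    ‖J 0 (G' B c u ^ m * f)‖ ≤ ‖J 0 f‖ := by
  induction m with
  | zero => simp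
  | succ m ih =>
    rw [pow_succ', mul_assoc]
    exact (G'_contraction hc hsum hu _).trans ih

/-- One difference gains a factor `1 / M`. -/
theorem decay_one (hc : ∀ β ∈ B, 0 ≤ c β) (hsum : ∑ β ∈ B, c β = 1)
    (hu : ∀ β ∈ B, ‖u β‖ = 1) {β : Fin d →₀ ℕ} (hβ : β ∈ B) (f : MvPolynomial (Fin d) ℂ) (M : ℕ) :
    ((M : ℝ) + 1) * (c β * ‖J 0 ((1 - monomial β (u β)) * G' B c u ^ M * f)‖ ^ 2)
      ≤ 4 * ‖J 0 f‖ ^ 2 := by
  -- telescoping
  have h1 : ∀ m : ℕ, 1 / 4 * (c β * ‖J 0 ((1 - monomial β (u β)) * G' B c u ^ m * f)‖ ^ 2)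
      ≤ ‖J 0 (G' B c u ^ m * f)‖ ^ 2 - ‖J 0 (G' B c u ^ (m + 1) * f)‖ ^ 2 := by
    intro m
    have h2 := energy hc hsum hu (G' B c u ^ m * f)
    have h3 : c β * ‖J 0 ((1 - monomial β (u β)) * (G' B c u ^ m * f))‖ ^ 2
        ≤ ∑ β ∈ B, c β * ‖J 0 ((1 - monomial β (u β)) * (G' B c u ^ m * f))‖ ^ 2 :=
      Finset.single_le_sum (f := fun β => c β *
        ‖J 0 ((1 - monomial β (u β)) * (G' B c u ^ m * f))‖ ^ 2)
        (fun β hβ => mul_nonneg (hc β hβ) (by positivity)) hβ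
    rw [mul_assoc, pow_succ' (G' B c u) m, mul_assoc (G' B c u)]
    linarith
  have h2 : ∀ m : ℕ, m ≤ M → ‖J 0 ((1 - monomial β (u β)) * G' B c u ^ M * f)‖ ^ 2
      ≤ ‖J 0 ((1 - monomial β (u β)) * G' B c u ^ m * f)‖ ^ 2 := by
    intro m hm
    have h3 : (1 - monomial β (u β)) * G' B c u ^ M * f
        = G' B c u ^ (M - m) * ((1 - monomial β (u β)) * G' B c u ^ m * f) := by
      have : G' B c u ^ M = G' B c u ^ (M - m) * G' B c u ^ m := by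
        rw [← pow_add, Nat.sub_add_cancel hm]
      rw [this]; ring
    rw [h3]
    have := G'_pow_contraction hc hsum hu ((1 - monomial β (u β)) * G' B c u ^ m * f) (M - m)
    gcongr
  have h3 : ∑ m ∈ Finset.range (M + 1),
      (1 / 4 * (c β * ‖J 0 ((1 - monomial β (u β)) * G' B c u ^ m * f)‖ ^ 2))
      ≤ ‖J 0 f‖ ^ 2 := by
    calc _ ≤ ∑ m ∈ Finset.range (M + 1),
          (‖J 0 (G' B c u ^ m * f)‖ ^ 2 - ‖J 0 (G' B c u ^ (m + 1) * f)‖ ^ 2) :=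
          Finset.sum_le_sum fun m _ => h1 m
      _ = ‖J 0 (G' B c u ^ 0 * f)‖ ^ 2 - ‖J 0 (G' B c u ^ (M + 1) * f)‖ ^ 2 :=
          Finset.sum_range_sub' (fun m => ‖J 0 (G' B c u ^ m * f)‖ ^ 2) (M + 1)
      _ ≤ ‖J 0 f‖ ^ 2 := by
          rw [pow_zero, one_mul]
          have : 0 ≤ ‖J 0 (G' B c u ^ (M + 1) * f)‖ ^ 2 := by positivity
          linarith
  have h4 : ∑ m ∈ Finset.range (M + 1),
      (1 / 4 * (c β * ‖J 0 ((1 - monomial β (u β)) * G' B c u ^ M * f)‖ ^ 2))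
      ≤ ‖J 0 f‖ ^ 2 := by
    refine le_trans (Finset.sum_le_sum fun m hm => ?_) h3
    have := h2 m (by rw [Finset.mem_range] at hm; omega)
    have := hc β hβ
    gcongr
  rw [Finset.sum_const, Finset.card_range, nsmul_eq_mul] at h4
  push_cast at h4
  linarith

/-- Iterated differences. -/
theorem decay_list (hc : ∀ β ∈ B, 0 < c β) (hsum : ∑ β ∈ B, c β = 1)
    (hu : ∀ β ∈ B, ‖u β‖ = 1) (l : List (Fin d →₀ ℕ)) (hl : ∀ β ∈ l, β ∈ B)
    (f : MvPolynomial (Fin d) ℂ) :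
    ∃ K : ℝ, 0 ≤ K ∧ ∀ M : ℕ,
      ((M : ℝ) + 1) ^ l.length *
        ‖J 0 ((l.map fun β => 1 - monomial β (u β)).prod * G' B c u ^ (M * l.length) * f)‖ ^ 2
      ≤ K := by
  have hc' : ∀ β ∈ B, 0 ≤ c β := fun β hβ => (hc β hβ).le
  induction l with
  | nil => exact ⟨‖J 0 f‖ ^ 2, by positivity, fun M => by simp⟩
  | cons β l ih =>
    obtain ⟨K, hK, h⟩ := ih (fun β hβ => hl β (List.mem_cons_of_mem _ hβ))
    have hβ : β ∈ B := hl β List.mem_cons_self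
    refine ⟨4 / c β * K, by have := hc β hβ; positivity, fun M => ?_⟩
    have h1 := decay_one hc' hsum hu hβ
      ((l.map fun β => 1 - monomial β (u β)).prod * G' B c u ^ (M * l.length) * f) M
    have h2 : (((β :: l).map fun β => 1 - monomial β (u β)).prod *
        G' B c u ^ (M * (β :: l).length) * f)
        = (1 - monomial β (u β)) * G' B c u ^ M *
          ((l.map fun β => 1 - monomial β (u β)).prod * G' B c u ^ (M * l.length) * f) := by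
      rw [List.map_cons, List.prod_cons, List.length_cons, Nat.mul_succ, pow_add]
      ring
    rw [h2, List.length_cons, pow_succ]
    have hcβ := hc β hβ
    have h3 := h M
    set X := ‖J 0 ((1 - monomial β (u β)) * G' B c u ^ M *
          ((l.map fun β => 1 - monomial β (u β)).prod * G' B c u ^ (M * l.length) * f))‖ ^ 2
    set Y := ‖J 0 ((l.map fun β => 1 - monomial β (u β)).prod *
      G' B c u ^ (M * l.length) * f)‖ ^ 2
    have h4 : ((M : ℝ) + 1) * X ≤ 4 / c β * Y := by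
      rw [div_mul_eq_mul_div, le_div_iff₀ hcβ]
      calc ((M : ℝ) + 1) * X * c β = ((M : ℝ) + 1) * (c β * X) := by ring
        _ ≤ 4 * Y := h1
    calc ((M : ℝ) + 1) ^ l.length * ((M : ℝ) + 1) * X
        = ((M : ℝ) + 1) ^ l.length * (((M : ℝ) + 1) * X) := by ring
      _ ≤ ((M : ℝ) + 1) ^ l.length * (4 / c β * Y) := by gcongr
      _ = 4 / c β * (((M : ℝ) + 1) ^ l.length * Y) := by ring
      _ ≤ 4 / c β * K := by gcongr

end

end Pool.Agent.Helper49.Cyc
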