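import Mathlib
import Pool.Agent.Helper49.CycDecay

/-! Annihilators of the ideal generated by `1 - G`. -/

set_option autoImplicit false

namespace Pool.Agent.Helper49.Cyc

open scoped ENNReal InnerProductSpace ComplexConjugate
open Filter Topology MvPolynomial

variable {d : ℕ}

/-- Comparison of the weighted norm with the unweighted one for a polynomial of given degree. -/
theorem J_norm_le (t : ℝ) (Q : MvPolynomial (Fin d) ℂ) {m : ℝ} (hm : (Q.totalDegree : ℝ) ≤ m) :
    ‖J t Q‖ ^ 2 ≤ ((1 + m) ^ |t|) ^ d * ‖J 0 Q‖ ^ 2 := by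
  rw [J_norm, J_norm, Finset.mul_sum]
  apply Finset.sum_le_sum
  intro α hα
  rw [weight_zero, one_mul]
  apply mul_le_mul_of_nonneg_right _ (by positivity)
  apply weight_le_of_le
  intro j
  refine le_trans ?_ hm
  have h1 : (α.sum fun _ e => e) ≤ Q.totalDegree := le_totalDegree hα
  have h2 : α j ≤ α.sum fun _ e => e := by
    rw [Finsupp.sum]
    by_cases hj : j ∈ α.support
    · exact Finset.single_le_sum (f := fun i => α i) (fun _ _ => Nat.zero_le _) hj
    · rw [Finsupp.notMem_support_iff] at hj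
      rw [hj]; exact Nat.zero_le _
  exact_mod_cast h2.trans h1

section
variable {B : Finset (Fin d →₀ ℕ)} {c : (Fin d →₀ ℕ) → ℝ} {u : (Fin d →₀ ℕ) → ℂ}

/-- `1 - G'^m` is a multiple of `1 - G`. -/
theorem one_sub_pow_dvd (m : ℕ) : (1 - G B c u) ∣ (1 - G' B c u ^ m) := by
  have h1 : (1 - G' B c u) = C (1 / 2 : ℂ) * (1 - G B c u) := by
    have h2 : (C (1 / 2 : ℂ) : MvPolynomial (Fin d) ℂ) + C (1 / 2 : ℂ) = 1 := by
      rw [← C_add]; norm_num
    rw [G']
    linear_combination -h2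
  have h3 : (1 - G' B c u) ∣ (1 - G' B c u ^ m) := by
    have := sub_dvd_pow_sub_pow (1 : MvPolynomial (Fin d) ℂ) (G' B c u) m
    simpa using this
  exact (Dvd.intro_left _ h1.symm).trans h3

/-- **High order differences are annihilated.** -/
theorem ann_list (t : ℝ) (φ : HH d) (hc : ∀ β ∈ B, 0 < c β) (hsum : ∑ β ∈ B, c β = 1)
    (hu : ∀ β ∈ B, ‖u β‖ = 1)
    (hφ : ∀ Q : MvPolynomial (Fin d) ℂ, ⟪φ, J t (Q * (1 - G B c u))⟫_ℂ = 0)
    (l : List (Fin d →₀ ℕ)) (hl : ∀ β ∈ l, β ∈ B) (hlen : |t| * d < l.length)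
    (f : MvPolynomial (Fin d) ℂ) :
    ⟪φ, J t ((l.map fun β => 1 - monomial β (u β)).prod * f)⟫_ℂ = 0 := by
  set R := (l.map fun β => (1 : MvPolynomial (Fin d) ℂ) - monomial β (u β)).prod with hR
  obtain ⟨K, hK, hKM⟩ := decay_list hc hsum hu l hl f
  -- invariance
  have hinv : ∀ M : ℕ, ⟪φ, J t (R * f)⟫_ℂ = ⟪φ, J t (R * G' B c u ^ (M * l.length) * f)⟫_ℂ := by
    intro M
    obtain ⟨q, hq⟩ := one_sub_pow_dvd (B := B) (c := c) (u := u) (M * l.length)
    rw [← sub_eq_zero, ← inner_sub_right, ← map_sub]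
    have h1 : R * f - R * G' B c u ^ (M * l.length) * f = (R * f * q) * (1 - G B c u) := by
      have : R * f - R * G' B c u ^ (M * l.length) * f
          = R * f * (1 - G' B c u ^ (M * l.length)) := by ring
      rw [this, hq]; ring
    rw [h1]
    exact hφ _
  -- degrees
  set a : ℝ := (R.totalDegree : ℝ) + f.totalDegree with ha
  set b : ℝ := (l.length : ℝ) * ((G' B c u).totalDegree : ℝ) with hb
  have hdeg : ∀ M : ℕ, ((R * G' B c u ^ (M * l.length) * f).totalDegree : ℝ) ≤ a + b * M := by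
    intro M
    have h1 : (R * G' B c u ^ (M * l.length) * f).totalDegree
        ≤ R.totalDegree + (M * l.length) * (G' B c u).totalDegree + f.totalDegree := by
      refine (totalDegree_mul _ _).trans ?_
      refine Nat.add_le_add_right ((totalDegree_mul _ _).trans ?_) _
      exact Nat.add_le_add_left (totalDegree_pow _ _) _
    have h2 : ((R * G' B c u ^ (M * l.length) * f).totalDegree : ℝ)
        ≤ ((R.totalDegree + (M * l.length) * (G' B c u).totalDegree + f.totalDegree : ℕ) : ℝ) := by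
      exact_mod_cast h1
    refine h2.trans (le_of_eq ?_)
    push_cast
    ring
  have ha0 : 0 ≤ a := by positivity
  have hb0 : 0 ≤ b := by positivity
  -- bound for the pairing
  have hbound : ∀ M : ℕ, ‖⟪φ, J t (R * f)⟫_ℂ‖ ^ 2
      ≤ (‖φ‖ ^ 2 * (1 + a + b) ^ (|t| * d) * K) * ((M : ℝ) + 1) ^ (|t| * d - l.length) := by
    intro M
    have h1 : ‖⟪φ, J t (R * f)⟫_ℂ‖ ≤ ‖φ‖ * ‖J t (R * G' B c u ^ (M * l.length) * f)‖ := by
      rw [hinv M]; exact norm_inner_le_norm _ _
    have h2 := J_norm_le t _ (hdeg M)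
    have h3 := hKM M
    have hM : (0 : ℝ) < (M : ℝ) + 1 := by positivity
    have h4 : ((1 + (a + b * M)) ^ |t|) ^ d ≤ (1 + a + b) ^ (|t| * d) * ((M : ℝ) + 1) ^ (|t| * d) := by
      rw [← Real.rpow_natCast, ← Real.rpow_mul (by positivity), ← Real.mul_rpow (by positivity)
        (by positivity)]
      apply Real.rpow_le_rpow (by positivity) _ (by positivity)
      have hMn : (0 : ℝ) ≤ M := by positivity
      nlinarith [mul_nonneg ha0 hMn, mul_nonneg hb0 hMn]
    have h5 : ‖J 0 (R * G' B c u ^ (M * l.length) * f)‖ ^ 2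
        ≤ K * ((M : ℝ) + 1) ^ (-(l.length : ℝ)) := by
      rw [Real.rpow_neg hM.le, Real.rpow_natCast, ← div_eq_mul_inv, le_div_iff₀ (by positivity)]
      linarith
    calc ‖⟪φ, J t (R * f)⟫_ℂ‖ ^ 2
        ≤ (‖φ‖ * ‖J t (R * G' B c u ^ (M * l.length) * f)‖) ^ 2 := by gcongr
      _ = ‖φ‖ ^ 2 * ‖J t (R * G' B c u ^ (M * l.length) * f)‖ ^ 2 := by ring
      _ ≤ ‖φ‖ ^ 2 * (((1 + (a + b * M)) ^ |t|) ^ d *
            ‖J 0 (R * G' B c u ^ (M * l.length) * f)‖ ^ 2) := by gcongr
      _ ≤ ‖φ‖ ^ 2 * (((1 + a + b) ^ (|t| * d) * ((M : ℝ) + 1) ^ (|t| * d)) *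
            (K * ((M : ℝ) + 1) ^ (-(l.length : ℝ)))) := by gcongr
      _ = (‖φ‖ ^ 2 * (1 + a + b) ^ (|t| * d) * K) *
            (((M : ℝ) + 1) ^ (|t| * d) * ((M : ℝ) + 1) ^ (-(l.length : ℝ))) := by ring
      _ = _ := by rw [← Real.rpow_add hM, ← sub_eq_add_neg]
  -- the bound tends to zero
  have hlim : Tendsto (fun M : ℕ => (‖φ‖ ^ 2 * (1 + a + b) ^ (|t| * d) * K) *
      ((M : ℝ) + 1) ^ (|t| * d - l.length)) atTop (𝓝 0) := by
    have h1 : Tendsto (fun x : ℝ => x ^ (-((l.length : ℝ) - |t| * d))) atTop (𝓝 0) :=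
      tendsto_rpow_neg_atTop (by linarith)
    have h2 : Tendsto (fun M : ℕ => (M : ℝ) + 1) atTop atTop :=
      tendsto_atTop_add_const_right _ _ tendsto_natCast_atTop_atTop
    have h3 := (h1.comp h2).const_mul (‖φ‖ ^ 2 * (1 + a + b) ^ (|t| * d) * K)
    simp only [Function.comp_def, mul_zero, neg_sub] at h3
    exact h3
  have h0 : ‖⟪φ, J t (R * f)⟫_ℂ‖ ^ 2 ≤ 0 :=
    ge_of_tendsto' hlim hbound
  have h1 : ‖⟪φ, J t (R * f)⟫_ℂ‖ = 0 := by
    have := norm_nonneg ⟪φ, J t (R * f)⟫_ℂ
    nlinarith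
  exact norm_eq_zero.1 h1

/-- integer vector of an exponent -/
def toZ (α : Fin d →₀ ℕ) : Fin d → ℤ := fun j => (α j : ℤ)

theorem toZ_add (α β : Fin d →₀ ℕ) : toZ (α + β) = toZ α + toZ β := by
  funext j; simp [toZ]

theorem toZ_injective : Function.Injective (toZ : (Fin d →₀ ℕ) → (Fin d → ℤ)) := by
  intro α β h
  ext j
  have := congrFun h j
  simpa [toZ] using this

/-- A function invariant under the generators is invariant under the group they generate. -/
theorem invariant_group (B : Finset (Fin d →₀ ℕ)) (θ : (Fin d →₀ ℕ) → ℂ)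
    (hθ : ∀ α, ∀ β ∈ B, θ (α + β) = θ α) (L : AddSubgroup (Fin d → ℤ))
    (hL : L ≤ AddSubgroup.closure {v | ∃ α ∈ B, v = toZ α})
    (α k : Fin d →₀ ℕ) (hk : toZ k ∈ L) : θ (α + k) = θ α := by
  -- invariance under the monoid generated by `B`
  have hmon : ∀ p ∈ AddSubmonoid.closure (B : Set (Fin d →₀ ℕ)), ∀ α, θ (α + p) = θ α := by
    intro p hp
    induction hp using AddSubmonoid.closure_induction with
    | mem x hx => exact fun α => hθ α x hx
    | zero => intro α; rw [add_zero]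
    | add x y _ _ hx hy => intro α; rw [← add_assoc, hy, hx]
  -- decomposition of group elements
  have hdec : ∀ v ∈ AddSubgroup.closure {v | ∃ α ∈ B, v = toZ α},
      ∃ p ∈ AddSubmonoid.closure (B : Set (Fin d →₀ ℕ)),
      ∃ m ∈ AddSubmonoid.closure (B : Set (Fin d →₀ ℕ)), v + toZ m = toZ p := by
    intro v hv
    induction hv using AddSubgroup.closure_induction with
    | mem x hx =>
      obtain ⟨β, hβ, rfl⟩ := hx
      exact ⟨β, AddSubmonoid.subset_closure hβ, 0, zero_mem _, by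
        rw [← toZ_add, add_zero]⟩
    | zero => exact ⟨0, zero_mem _, 0, zero_mem _, by rw [zero_add]⟩
    | add x y _ _ hx hy =>
      obtain ⟨p, hp, m, hm, h1⟩ := hx
      obtain ⟨p', hp', m', hm', h2⟩ := hy
      refine ⟨p + p', add_mem hp hp', m + m', add_mem hm hm', ?_⟩
      rw [toZ_add, toZ_add, ← h1, ← h2]
      abel
    | neg x _ hx =>
      obtain ⟨p, hp, m, hm, h1⟩ := hx
      refine ⟨m, hm, p, hp, ?_⟩
      rw [← h1]
      abel
  obtain ⟨p, hp, m, hm, h1⟩ := hdec _ (hL hk)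
  have h2 : k + m = p := by
    apply toZ_injective
    rw [toZ_add, h1]
  rw [← hmon m hm (α + k), add_assoc, h2, hmon p hp]

/-- **No annihilators when the series over the exponent group diverges.** -/
theorem annihilator_zero (t : ℝ) (φ : HH d) (hc : ∀ β ∈ B, 0 < c β) (hsum : ∑ β ∈ B, c β = 1)
    (χ : (Fin d →₀ ℕ) → ℂ) (hχ1 : ∀ α, ‖χ α‖ = 1) (hχ : ∀ α β, χ (α + β) = χ α * χ β)
    (hφ : ∀ Q : MvPolynomial (Fin d) ℂ, ⟪φ, J t (Q * (1 - G B c χ))⟫_ℂ = 0)
    (L : AddSubgroup (Fin d → ℤ)) (hL : L ≤ AddSubgroup.closure {v | ∃ α ∈ B, v = toZ α})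
    (hdiv : ∑' k : {k : Fin d →₀ ℕ | toZ k ∈ L}, ENNReal.ofReal ((weight t (k : Fin d →₀ ℕ))⁻¹) = ⊤) :
    φ = 0 := by
  -- the descending induction
  have hstep : ∀ n : ℕ,
      (∀ l : List (Fin d →₀ ℕ), l.length = n + 1 → (∀ β ∈ l, β ∈ B) → ∀ f,
        ⟪φ, J t ((l.map fun β => 1 - monomial β (χ β)).prod * f)⟫_ℂ = 0) →
      (∀ l : List (Fin d →₀ ℕ), l.length = n → (∀ β ∈ l, β ∈ B) → ∀ f,
        ⟪φ, J t ((l.map fun β => 1 - monomial β (χ β)).prod * f)⟫_ℂ = 0) := by
    intro n hn l hlen hl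
    set R := (l.map fun β => (1 : MvPolynomial (Fin d) ℂ) - monomial β (χ β)).prod with hR
    set θ : (Fin d →₀ ℕ) → ℂ := fun α => ⟪φ, J t (R * monomial α (χ α))⟫_ℂ with hθ
    have hθB : ∀ α, ∀ β ∈ B, θ (α + β) = θ α := by
      intro α β hβ
      have h1 := hn (β :: l) (by simp [hlen]) (by
        intro γ hγ
        rcases List.mem_cons.1 hγ with rfl | hγ
        · exact hβ
        · exact hl γ hγ) (monomial α (χ α))
      have h2 : ((β :: l).map fun β => (1 : MvPolynomial (Fin d) ℂ) - monomial β (χ β)).prod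
          * monomial α (χ α) = R * monomial α (χ α) - R * monomial (α + β) (χ (α + β)) := by
        rw [List.map_cons, List.prod_cons, ← hR, hχ]
        have : monomial (α + β) (χ α * χ β) = monomial α (χ α) * monomial β (χ β) := by
          rw [monomial_mul]
        rw [this]
        ring
      rw [h2, map_sub, inner_sub_right, sub_eq_zero] at h1
      exact h1.symm
    have hθL : ∀ α k, toZ k ∈ L → θ (α + k) = θ α :=
      fun α k hk => invariant_group B θ hθB L hL α k hk
    -- pointwise bound of `θ`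
    have hpoint : ∀ α, ‖θ α‖ ^ 2 ≤ (∑ γ ∈ R.support, ‖R.coeff γ‖ ^ 2 * weight |t| γ) *
        (weight t α * ∑ γ ∈ R.support, ‖φ (γ + α)‖ ^ 2) := by
      intro α
      have h1 : θ α = ∑ γ ∈ R.support, conj (φ (γ + α)) *
          (((Real.sqrt (weight t (γ + α)) : ℝ) : ℂ) * (R.coeff γ * χ α)) := by
        have h2 : R * monomial α (χ α) = ∑ γ ∈ R.support, monomial (γ + α) (R.coeff γ * χ α) := by
          conv_lhs => rw [R.as_sum, Finset.sum_mul]
          apply Finset.sum_congr rfl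
          intro γ _
          rw [monomial_mul]
        have h3 : ∀ (γ : Fin d →₀ ℕ) (a : ℂ), ⟪φ, J t (monomial γ a)⟫_ℂ
            = conj (φ γ) * (((Real.sqrt (weight t γ) : ℝ) : ℂ) * a) := by
          intro γ a
          have h4 := lp.hasSum_inner (𝕜 := ℂ) φ (J t (monomial γ a))
          rw [← h4.tsum_eq, tsum_eq_single γ]
          · rw [J_apply, coeff_monomial, if_pos rfl, RCLike.inner_apply]
            ring
          · intro δ hδ
            rw [J_apply, coeff_monomial, if_neg (Ne.symm hδ), mul_zero, inner_zero_right]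
        simp only [hθ, h2, map_sum, inner_sum, h3]
      have h2 : ‖θ α‖ ≤ ∑ γ ∈ R.support, (‖R.coeff γ‖ * Real.sqrt (weight |t| γ)) *
          (Real.sqrt (weight t α) * ‖φ (γ + α)‖) := by
        rw [h1]
        refine (norm_sum_le _ _).trans (Finset.sum_le_sum fun γ _ => ?_)
        rw [norm_mul, norm_mul, norm_mul, RCLike.norm_conj, Complex.norm_real,
          Real.norm_of_nonneg (Real.sqrt_nonneg _), hχ1, mul_one]
        have h3 : Real.sqrt (weight t (γ + α))
            ≤ Real.sqrt (weight |t| γ) * Real.sqrt (weight t α) := by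
          rw [← Real.sqrt_mul (weight_pos _ _).le]
          apply Real.sqrt_le_sqrt
          rw [add_comm γ α]
          exact weight_add_le t α γ
        calc ‖φ (γ + α)‖ * (Real.sqrt (weight t (γ + α)) * ‖R.coeff γ‖)
            ≤ ‖φ (γ + α)‖ * ((Real.sqrt (weight |t| γ) * Real.sqrt (weight t α)) *
              ‖R.coeff γ‖) := by gcongr
          _ = _ := by ring
      calc ‖θ α‖ ^ 2 ≤ (∑ γ ∈ R.support, (‖R.coeff γ‖ * Real.sqrt (weight |t| γ)) *
            (Real.sqrt (weight t α) * ‖φ (γ + α)‖)) ^ 2 := by gcongr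
        _ ≤ (∑ γ ∈ R.support, (‖R.coeff γ‖ * Real.sqrt (weight |t| γ)) ^ 2) *
            ∑ γ ∈ R.support, (Real.sqrt (weight t α) * ‖φ (γ + α)‖) ^ 2 :=
            Finset.sum_mul_sq_le_sq_mul_sq _ _ _
        _ = _ := by
            congr 1
            · apply Finset.sum_congr rfl
              intro γ _
              rw [mul_pow, Real.sq_sqrt (weight_pos _ _).le]
            · rw [Finset.mul_sum]
              apply Finset.sum_congr rfl
              intro γ _
              rw [mul_pow, Real.sq_sqrt (weight_pos _ _).le]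
    -- summability of `|θ|² / w`
    have hsummable : Summable (fun α => (weight t α)⁻¹ * ‖θ α‖ ^ 2) := by
      have h1 : ∀ γ : Fin d →₀ ℕ, Summable (fun α => ‖φ (γ + α)‖ ^ 2) := by
        intro γ
        have h2 := (norm_sq_eq φ).summable
        exact h2.comp_injective (add_right_injective γ)
      have h2 : Summable (fun α => (∑ γ ∈ R.support, ‖R.coeff γ‖ ^ 2 * weight |t| γ) *
          ∑ γ ∈ R.support, ‖φ (γ + α)‖ ^ 2) :=
        (summable_sum fun γ _ => h1 γ).mul_left _
      refine Summable.of_nonneg_of_le (fun α => ?_) (fun α => ?_) h2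
      · have := weight_pos t α
        positivity
      · have hw := weight_pos t α
        rw [inv_mul_le_iff₀ hw]
        refine (hpoint α).trans (le_of_eq ?_)
        ring
    -- `θ` vanishes
    have hθ0 : ∀ α, θ α = 0 := by
      intro α₀
      by_contra hne
      have hpos : 0 < ‖θ α₀‖ ^ 2 := by
        have := norm_pos_iff.2 hne
        positivity
      have h1 : Summable (fun k : {k : Fin d →₀ ℕ | toZ k ∈ L} =>
          (weight t (α₀ + (k : Fin d →₀ ℕ)))⁻¹ * ‖θ (α₀ + (k : Fin d →₀ ℕ))‖ ^ 2) :=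
        hsummable.comp_injective
          (f := fun α => (weight t α)⁻¹ * ‖θ α‖ ^ 2)
          (i := fun k : {k : Fin d →₀ ℕ | toZ k ∈ L} => α₀ + (k : Fin d →₀ ℕ))
          (fun k k' h => Subtype.ext (add_right_injective α₀ h))
      have h2 : Summable (fun k : {k : Fin d →₀ ℕ | toZ k ∈ L} => (weight t (k : Fin d →₀ ℕ))⁻¹) := by
        have h3 := h1.mul_left (weight |t| α₀ / ‖θ α₀‖ ^ 2)
        refine Summable.of_nonneg_of_le (fun k => ?_) (fun k => ?_) h3
        · exact inv_nonneg.2 (weight_pos _ _).le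
        · rw [hθL α₀ k k.2]
          have hw1 := weight_pos t (k : Fin d →₀ ℕ)
          have hw2 := weight_pos t (α₀ + (k : Fin d →₀ ℕ))
          have hw3 := weight_pos |t| α₀
          have h4 : weight t (α₀ + (k : Fin d →₀ ℕ)) ≤ weight |t| α₀ * weight t (k : Fin d →₀ ℕ) := by
            rw [add_comm]; exact weight_add_le t _ _
          have h5 : weight |t| α₀ / ‖θ α₀‖ ^ 2 * ((weight t (α₀ + (k : Fin d →₀ ℕ)))⁻¹ *
              ‖θ α₀‖ ^ 2) = weight |t| α₀ * (weight t (α₀ + (k : Fin d →₀ ℕ)))⁻¹ := by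
            field_simp
          rw [h5, ← div_eq_mul_inv, le_div_iff₀ hw2, inv_mul_le_iff₀ hw1]
          linarith
      have h6 : ∑' k : {k : Fin d →₀ ℕ | toZ k ∈ L},
          ENNReal.ofReal ((weight t (k : Fin d →₀ ℕ))⁻¹) < ⊤ := by
        rw [← ENNReal.ofReal_tsum_of_nonneg (fun k => inv_nonneg.2 (weight_pos _ _).le) h2]
        exact ENNReal.ofReal_lt_top
      exact absurd hdiv h6.ne
    -- conclusion for all polynomials
    intro f
    have h1 : ∀ (α : Fin d →₀ ℕ) (a : ℂ), ⟪φ, J t (R * monomial α a)⟫_ℂ = 0 := by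
      intro α a
      have hne : χ α ≠ 0 := by
        intro h
        have := hχ1 α
        rw [h, norm_zero] at this
        exact zero_ne_one this
      have h2 : R * monomial α a = (a / χ α) • (R * monomial α (χ α)) := by
        rw [mul_comm R, mul_comm R, ← smul_mul_assoc, smul_monomial, smul_eq_mul,
          div_mul_cancel₀ _ hne]
      rw [h2, map_smul, inner_smul_right]
      have := hθ0 α
      simp only [hθ] at this
      rw [this, mul_zero]
    conv_lhs => rw [f.as_sum]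
    rw [Finset.mul_sum, map_sum, inner_sum]
    exact Finset.sum_eq_zero fun α _ => h1 α _
  -- start of the induction
  obtain ⟨N, hN⟩ := exists_nat_gt (|t| * d)
  have hall : ∀ m : ℕ, ∀ l : List (Fin d →₀ ℕ), l.length + m = N → (∀ β ∈ l, β ∈ B) → ∀ f,
        ⟪φ, J t ((l.map fun β => 1 - monomial β (χ β)).prod * f)⟫_ℂ = 0 := by
    intro m
    induction m with
    | zero =>
      intro l hlen hl f
      apply ann_list t φ hc hsum (fun β _ => hχ1 β) hφ l hl
      rw [add_zero] at hlen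
      rw [hlen]; exact hN
    | succ m ih =>
      intro l hlen hl f
      exact hstep l.length (fun l' hl' hB' f' => ih l' (by omega) hB' f') l rfl hl f
  have hzero : ∀ f : MvPolynomial (Fin d) ℂ, ⟪φ, J t f⟫_ℂ = 0 := by
    intro f
    have := hall N [] (by simp) (by simp) f
    simpa using this
  -- conclusion
  ext α
  have h1 := hzero (monomial α 1)
  have h4 := lp.hasSum_inner (𝕜 := ℂ) φ (J t (monomial α 1))
  rw [← h4.tsum_eq, tsum_eq_single α] at h1
  · rw [J_apply, coeff_monomial, if_pos rfl, RCLike.inner_apply, mul_one] at h1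
    have hw : ((Real.sqrt (weight t α) : ℝ) : ℂ) ≠ 0 := by
      have := Real.sqrt_pos.2 (weight_pos t α)
      exact_mod_cast this.ne'
    rcases mul_eq_zero.1 h1 with h2 | h2
    · exact absurd h2 hw
    · simpa using h2
  · intro δ hδ
    rw [J_apply, coeff_monomial, if_neg (Ne.symm hδ), mul_zero, inner_zero_right]

end

end Pool.Agent.Helper49.Cyc
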