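import Mathlib
import Pool.Agent.Helper49.CycAnn

/-! Characterisation of shift-cyclicity for polynomials with dominant constant term. -/

set_option autoImplicit false

namespace Pool.Agent.Helper49.Cyc

open scoped ENNReal InnerProductSpace ComplexConjugate
open Filter Topology MvPolynomial

variable {d : ℕ}

/-- Relation between `normSq` and the Hilbert space norm. -/
theorem normSq_eq_of_embed (t : ℝ) (c : (Fin d →₀ ℕ) → ℂ) (F : HH d)
    (hF : ∀ α, F α = ((Real.sqrt (weight t α) : ℝ) : ℂ) * c α) :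
    normSq t c = ENNReal.ofReal (‖F‖ ^ 2) := by
  have h1 := norm_sq_eq F
  have h2 : ∀ α, ‖F α‖ ^ 2 = weight t α * ‖c α‖ ^ 2 := by
    intro α
    rw [hF, norm_mul, mul_pow, Complex.norm_real, Real.norm_of_nonneg (Real.sqrt_nonneg _),
      Real.sq_sqrt (weight_pos t α).le]
  simp only [h2] at h1
  rw [← h1.tsum_eq, normSq, ENNReal.ofReal_tsum_of_nonneg _ h1.summable]
  intro α
  exact mul_nonneg (weight_pos t α).le (by positivity)

/-- Hilbert space form of shift-cyclicity. -/
theorem shiftCyclic_iff_dense (t : ℝ) (P : MvPolynomial (Fin d) ℂ) :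
    ShiftCyclic t P ↔ ∀ F : HH d, ∀ δ : ℝ, 0 < δ →
      ∃ p : MvPolynomial (Fin d) ℂ, ‖F - J t (p * P)‖ < δ := by
  constructor
  · intro h F δ hδ
    set c : (Fin d →₀ ℕ) → ℂ := fun α => F α / ((Real.sqrt (weight t α) : ℝ) : ℂ) with hc
    have hsq : ∀ α : Fin d →₀ ℕ, ((Real.sqrt (weight t α) : ℝ) : ℂ) ≠ 0 := by
      intro α
      have := Real.sqrt_pos.2 (weight_pos t α)
      exact_mod_cast this.ne'
    have hF : ∀ α, F α = ((Real.sqrt (weight t α) : ℝ) : ℂ) * c α := by
      intro α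
      rw [hc]
      field_simp [hsq α]
    obtain ⟨p, hp⟩ := h c (by rw [normSq_eq_of_embed t c F hF]; exact ENNReal.ofReal_lt_top)
      (ENNReal.ofReal (δ ^ 2)) (by rw [ENNReal.ofReal_pos]; positivity)
    refine ⟨p, ?_⟩
    rw [normSq_eq_of_embed t _ (F - J t (p * P)) (by
      intro α
      rw [lp.coeFn_sub, Pi.sub_apply, J_apply, hF α, mul_sub])] at hp
    rw [ENNReal.ofReal_lt_ofReal_iff (by positivity)] at hp
    exact lt_of_pow_lt_pow_left₀ 2 hδ.le hp
  · intro h c hc ε hε
    obtain ⟨F, hF1, hF2⟩ := exists_embed t c hc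
    obtain ⟨δ, hδ, hδε⟩ : ∃ δ : ℝ, 0 < δ ∧ ENNReal.ofReal (δ ^ 2) ≤ ε := by
      by_cases hε' : ε = ⊤
      · exact ⟨1, one_pos, by rw [hε']; exact le_top⟩
      · refine ⟨Real.sqrt ε.toReal, Real.sqrt_pos.2 (ENNReal.toReal_pos hε.ne' hε'), ?_⟩
        rw [Real.sq_sqrt ENNReal.toReal_nonneg, ENNReal.ofReal_toReal hε']
    obtain ⟨p, hp⟩ := h F δ hδ
    refine ⟨p, ?_⟩
    rw [normSq_eq_of_embed t _ (F - J t (p * P)) (by
      intro α
      rw [lp.coeFn_sub, Pi.sub_apply, J_apply, hF1 α, mul_sub])]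
    refine lt_of_lt_of_le ?_ hδε
    rw [ENNReal.ofReal_lt_ofReal_iff (by positivity)]
    exact pow_lt_pow_left₀ hp (norm_nonneg _) two_ne_zero

/-- Multiplication by a monomial is bounded. -/
theorem norm_J_monomial_mul (t : ℝ) (β : Fin d →₀ ℕ) (a : ℂ) (f : MvPolynomial (Fin d) ℂ) :
    ‖J t (monomial β a * f)‖ ≤ (‖a‖ * Real.sqrt (weight |t| β)) * ‖J t f‖ := by
  have h1 := norm_sq_eq (J t (monomial β a * f))
  have hinj : Function.Injective (fun α : Fin d →₀ ℕ => β + α) := add_right_injective β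
  have h2 := (hinj.hasSum_iff (f := fun α => ‖J t (monomial β a * f) α‖ ^ 2)
    (a := ‖J t (monomial β a * f)‖ ^ 2) (by
      intro x hx
      have : ¬ β ≤ x := by
        intro h
        exact hx ⟨x - β, by simp [add_tsub_cancel_of_le h]⟩
      simp [J_apply, coeff_monomial_mul', this])).2 h1
  have h3 := (norm_sq_eq (J t f)).mul_left ((‖a‖ * Real.sqrt (weight |t| β)) ^ 2)
  have h4 : ‖J t (monomial β a * f)‖ ^ 2 ≤ (‖a‖ * Real.sqrt (weight |t| β)) ^ 2 * ‖J t f‖ ^ 2 := by
    refine hasSum_le (fun α => ?_) h2 h3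
    simp only [Function.comp]
    rw [J_apply, J_apply, coeff_monomial_mul]
    rw [norm_mul, norm_mul, norm_mul, Complex.norm_real, Complex.norm_real,
      Real.norm_of_nonneg (Real.sqrt_nonneg _), Real.norm_of_nonneg (Real.sqrt_nonneg _)]
    simp only [mul_pow]
    rw [Real.sq_sqrt (weight_pos _ _).le, Real.sq_sqrt (weight_pos _ _).le,
      Real.sq_sqrt (weight_pos _ _).le]
    have h5 : weight t (β + α) ≤ weight |t| β * weight t α := by
      rw [add_comm]; exact weight_add_le t α β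
    calc weight t (β + α) * (‖a‖ ^ 2 * ‖f.coeff α‖ ^ 2)
        ≤ (weight |t| β * weight t α) * (‖a‖ ^ 2 * ‖f.coeff α‖ ^ 2) := by gcongr
      _ = _ := by ring
  rw [← mul_pow] at h4
  exact le_of_sq_le_sq h4 (by positivity)

/-- Multiplication by a polynomial is bounded. -/
theorem exists_multiplier_bound (t : ℝ) (P : MvPolynomial (Fin d) ℂ) :
    ∃ K : ℝ, 0 < K ∧ ∀ f : MvPolynomial (Fin d) ℂ, ‖J t (f * P)‖ ≤ K * ‖J t f‖ := by
  refine ⟨1 + ∑ β ∈ P.support, ‖P.coeff β‖ * Real.sqrt (weight |t| β), by positivity, fun f => ?_⟩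
  have h1 : f * P = ∑ β ∈ P.support, monomial β (P.coeff β) * f := by
    rw [← Finset.sum_mul, ← P.as_sum, mul_comm]
  rw [h1, map_sum]
  calc ‖∑ β ∈ P.support, J t (monomial β (P.coeff β) * f)‖
      ≤ ∑ β ∈ P.support, ‖J t (monomial β (P.coeff β) * f)‖ := norm_sum_le _ _
    _ ≤ ∑ β ∈ P.support, (‖P.coeff β‖ * Real.sqrt (weight |t| β)) * ‖J t f‖ :=
        Finset.sum_le_sum fun β _ => norm_J_monomial_mul t β _ f
    _ = (∑ β ∈ P.support, ‖P.coeff β‖ * Real.sqrt (weight |t| β)) * ‖J t f‖ := by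
        rw [Finset.sum_mul]
    _ ≤ _ := by
        have := norm_nonneg (J t f)
        nlinarith

theorem ShiftCyclic.of_mul {t : ℝ} {P Q : MvPolynomial (Fin d) ℂ} (h : ShiftCyclic t (P * Q)) :
    ShiftCyclic t P := by
  intro c hc ε hε
  obtain ⟨p, hp⟩ := h c hc ε hε
  refine ⟨p * Q, ?_⟩
  have : p * Q * P = p * (P * Q) := by ring
  rw [this]
  exact hp

theorem ShiftCyclic.mul {t : ℝ} {P Q : MvPolynomial (Fin d) ℂ} (hP : ShiftCyclic t P)
    (hQ : ShiftCyclic t Q) : ShiftCyclic t (P * Q) := by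
  rw [shiftCyclic_iff_dense] at hP hQ ⊢
  intro F δ hδ
  obtain ⟨K, hK, hKP⟩ := exists_multiplier_bound t P
  obtain ⟨p, hp⟩ := hP F (δ / 2) (by positivity)
  obtain ⟨q, hq⟩ := hQ (J t p) (δ / (2 * K)) (by positivity)
  refine ⟨q, ?_⟩
  have h1 : F - J t (q * (P * Q)) = (F - J t (p * P)) + J t ((p - q * Q) * P) := by
    have : (p - q * Q) * P = p * P - q * (P * Q) := by ring
    rw [this, map_sub]
    abel
  rw [h1]
  calc ‖(F - J t (p * P)) + J t ((p - q * Q) * P)‖
      ≤ ‖F - J t (p * P)‖ + ‖J t ((p - q * Q) * P)‖ := norm_add_le _ _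
    _ ≤ ‖F - J t (p * P)‖ + K * ‖J t (p - q * Q)‖ := by gcongr; exact hKP _
    _ < δ / 2 + K * (δ / (2 * K)) := by
        rw [map_sub]
        gcongr
    _ = δ := by field_simp; ring

/-- A functional vanishing on all polynomials is zero. -/
theorem eq_zero_of_forall_poly (t : ℝ) (φ : HH d)
    (hzero : ∀ f : MvPolynomial (Fin d) ℂ, ⟪φ, J t f⟫_ℂ = 0) : φ = 0 := by
  ext α
  have h1 := hzero (monomial α 1)
  have h4 := lp.hasSum_inner (𝕜 := ℂ) φ (J t (monomial α 1))
  rw [← h4.tsum_eq, tsum_eq_single α] at h1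
  · rw [J_apply, coeff_monomial, if_pos rfl, RCLike.inner_apply, mul_one] at h1
    have hw : ((Real.sqrt (weight t α) : ℝ) : ℂ) ≠ 0 := by
      have := Real.sqrt_pos.2 (weight_pos t α)
      exact_mod_cast this.ne'
    rcases mul_eq_zero.1 h1 with h2 | h2
    · exact absurd h2 hw
    · simpa using h2
  · intro δ hδ
    rw [J_apply, coeff_monomial, if_neg (Ne.symm hδ), mul_zero, inner_zero_right]

theorem shiftCyclic_one (t : ℝ) : ShiftCyclic t (1 : MvPolynomial (Fin d) ℂ) := by
  apply shiftCyclic_of_annihilator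
  intro φ h
  apply eq_zero_of_forall_poly t
  intro f
  have := h f
  rwa [mul_one] at this

theorem shiftCyclic_prod {ι : Type*} (t : ℝ) (s : Finset ι) (P : ι → MvPolynomial (Fin d) ℂ) :
    ShiftCyclic t (∏ i ∈ s, P i) ↔ ∀ i ∈ s, ShiftCyclic t (P i) := by
  classical
  induction s using Finset.induction_on with
  | empty => simp [shiftCyclic_one]
  | insert a s ha ih =>
    rw [Finset.prod_insert ha]
    constructor
    · intro h i hi
      rcases Finset.mem_insert.1 hi with rfl | hi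
      · exact h.of_mul
      · rw [mul_comm] at h
        exact ih.1 h.of_mul i hi
    · intro h
      exact (h a (Finset.mem_insert_self _ _)).mul (ih.2 fun i hi => h i (Finset.mem_insert_of_mem hi))

/-- **Noncyclicity.** If `P` vanishes at a point of the torus and the series over the exponent
group converges, then `P` is not shift-cyclic. -/
theorem not_shiftCyclic (t : ℝ) (P : MvPolynomial (Fin d) ℂ) (ζ : Fin d → ℂ)
    (hζ : ∀ j, ‖ζ j‖ = 1) (hP : MvPolynomial.eval ζ P = 0)
    (hconv : ∑' k : expPoints P, ENNReal.ofReal ((weight t (k : Fin d →₀ ℕ))⁻¹) ≠ ⊤) :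
    ¬ ShiftCyclic t P := by
  classical
  intro hcyc
  set L := expGroup P with hL
  set v : (Fin d →₀ ℕ) → ℂ := fun k => if toZ k ∈ L then ∏ j, ζ j ^ k j else 0 with hv
  have hv1 : ∀ k, ‖v k‖ ≤ 1 := by
    intro k
    simp only [hv]
    split_ifs
    · rw [norm_prod]
      simp [hζ]
    · simp
  set Φ : MvPolynomial (Fin d) ℂ →ₗ[ℂ] ℂ := (MvPolynomial.basisMonomials (Fin d) ℂ).constr ℂ v
    with hΦ
  have hΦm : ∀ k a, Φ (monomial k a) = a * v k := by
    intro k a
    have h1 : (monomial k a : MvPolynomial (Fin d) ℂ)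
        = a • (MvPolynomial.basisMonomials (Fin d) ℂ) k := by
      rw [coe_basisMonomials, smul_monomial, smul_eq_mul, mul_one]
    rw [h1, map_smul, hΦ, Module.Basis.constr_basis, smul_eq_mul]
  have hmem : ∀ β ∈ P.support, toZ β ∈ L := by
    intro β hβ
    exact AddSubgroup.subset_closure ⟨β, hβ, rfl⟩
  -- `Φ` annihilates the multiples of `P`
  have hann : ∀ Q : MvPolynomial (Fin d) ℂ, Φ (Q * P) = 0 := by
    intro Q
    have h1 : ∀ α a, Φ (monomial α a * P) = 0 := by
      intro α a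
      have h2 : monomial α a * P = ∑ β ∈ P.support, monomial (α + β) (a * P.coeff β) := by
        conv_lhs => rw [P.as_sum, Finset.mul_sum]
        apply Finset.sum_congr rfl
        intro β _
        rw [monomial_mul]
      rw [h2, map_sum]
      simp only [hΦm]
      by_cases hα : toZ α ∈ L
      · have h3 : ∀ β ∈ P.support, a * P.coeff β * v (α + β)
            = (a * ∏ j, ζ j ^ α j) * (P.coeff β * ∏ j, ζ j ^ β j) := by
          intro β hβ
          have h4 : toZ (α + β) ∈ L := by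
            rw [toZ_add]; exact add_mem hα (hmem β hβ)
          simp only [hv, if_pos h4, Finsupp.add_apply, pow_add, Finset.prod_mul_distrib]
          ring
        rw [Finset.sum_congr rfl h3, ← Finset.mul_sum]
        have h5 : ∑ β ∈ P.support, P.coeff β * ∏ j, ζ j ^ β j = 0 := by
          rw [← hP, MvPolynomial.eval_eq']
        rw [h5, mul_zero]
      · apply Finset.sum_eq_zero
        intro β hβ
        have h4 : toZ (α + β) ∉ L := by
          rw [toZ_add]
          intro h
          apply hα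
          have := sub_mem h (hmem β hβ)
          rwa [add_sub_cancel_right] at this
        simp only [hv, if_neg h4, mul_zero]
    conv_lhs => rw [Q.as_sum, Finset.sum_mul, map_sum]
    exact Finset.sum_eq_zero fun α _ => h1 α _
  -- summability
  have hsummable : Summable (fun k : expPoints P => (weight t (k : Fin d →₀ ℕ))⁻¹) := by
    have h1 := ENNReal.summable_toReal hconv
    refine h1.congr (fun k => ?_)
    rw [ENNReal.toReal_ofReal (inv_nonneg.2 (weight_pos _ _).le)]
  set S : ℝ := ∑' k : expPoints P, (weight t (k : Fin d →₀ ℕ))⁻¹ with hS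
  have hS0 : 0 ≤ S := tsum_nonneg fun k => inv_nonneg.2 (weight_pos _ _).le
  -- boundedness of `Φ`
  have hbound : ∀ D : MvPolynomial (Fin d) ℂ, ‖Φ D‖ ^ 2 ≤ S * ‖J t D‖ ^ 2 := by
    intro D
    have h1 : Φ D = ∑ k ∈ D.support with toZ k ∈ L, D.coeff k * v k := by
      conv_lhs => rw [D.as_sum, map_sum]
      simp only [hΦm]
      rw [Finset.sum_filter]
      apply Finset.sum_congr rfl
      intro k _
      by_cases hk : toZ k ∈ L
      · rw [if_pos hk]
      · rw [if_neg hk]; simp [hv, hk]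
    have h2 : ‖Φ D‖ ≤ ∑ k ∈ D.support with toZ k ∈ L,
        Real.sqrt ((weight t k)⁻¹) * (Real.sqrt (weight t k) * ‖D.coeff k‖) := by
      rw [h1]
      refine (norm_sum_le _ _).trans (Finset.sum_le_sum fun k _ => ?_)
      rw [norm_mul, ← mul_assoc, ← Real.sqrt_mul (inv_nonneg.2 (weight_pos _ _).le),
        inv_mul_cancel₀ (weight_pos t k).ne', Real.sqrt_one, one_mul]
      have := hv1 k
      have := norm_nonneg (D.coeff k)
      nlinarith
    have h3 : ∑ k ∈ D.support with toZ k ∈ L, (weight t k)⁻¹ ≤ S := by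
      have h4 : ∑ k ∈ D.support with toZ k ∈ L, (weight t k)⁻¹
          = ∑ k ∈ (D.support.filter (fun k => toZ k ∈ L)).subtype (fun k => k ∈ expPoints P),
            (weight t (k : Fin d →₀ ℕ))⁻¹ := by
        rw [← Finset.sum_subtype_of_mem (p := fun k => k ∈ expPoints P)
          (f := fun k => (weight t k)⁻¹)]
        intro k hk
        exact (Finset.mem_filter.1 hk).2
      rw [h4]
      exact hsummable.sum_le_tsum _ (fun k _ => inv_nonneg.2 (weight_pos _ _).le)
    have h5 : ∑ k ∈ D.support with toZ k ∈ L, weight t k * ‖D.coeff k‖ ^ 2 ≤ ‖J t D‖ ^ 2 := by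
      rw [J_norm]
      apply Finset.sum_le_sum_of_subset_of_nonneg (Finset.filter_subset _ _)
      intro k _ _
      exact mul_nonneg (weight_pos t k).le (by positivity)
    calc ‖Φ D‖ ^ 2 ≤ (∑ k ∈ D.support with toZ k ∈ L,
          Real.sqrt ((weight t k)⁻¹) * (Real.sqrt (weight t k) * ‖D.coeff k‖)) ^ 2 := by gcongr
      _ ≤ (∑ k ∈ D.support with toZ k ∈ L, Real.sqrt ((weight t k)⁻¹) ^ 2) *
          ∑ k ∈ D.support with toZ k ∈ L, (Real.sqrt (weight t k) * ‖D.coeff k‖) ^ 2 :=
          Finset.sum_mul_sq_le_sq_mul_sq _ _ _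
      _ = (∑ k ∈ D.support with toZ k ∈ L, (weight t k)⁻¹) *
          ∑ k ∈ D.support with toZ k ∈ L, weight t k * ‖D.coeff k‖ ^ 2 := by
          congr 1
          · apply Finset.sum_congr rfl
            intro k _
            rw [Real.sq_sqrt (inv_nonneg.2 (weight_pos _ _).le)]
          · apply Finset.sum_congr rfl
            intro k _
            rw [mul_pow, Real.sq_sqrt (weight_pos _ _).le]
      _ ≤ S * ‖J t D‖ ^ 2 := by
          apply mul_le_mul h3 h5 _ hS0
          exact Finset.sum_nonneg fun k _ => mul_nonneg (weight_pos t k).le (by positivity)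
  -- contradiction
  rw [shiftCyclic_iff_dense] at hcyc
  obtain ⟨p, hp⟩ := hcyc (J t 1) (Real.sqrt (1 / (S + 1))) (by positivity)
  rw [← map_sub] at hp
  have h1 := hbound (1 - p * P)
  have h2 : Φ (1 - p * P) = 1 := by
    rw [map_sub, hann, sub_zero]
    have : (1 : MvPolynomial (Fin d) ℂ) = monomial 0 1 := rfl
    rw [this, hΦm]
    have h0 : toZ (0 : Fin d →₀ ℕ) ∈ L := by
      have : toZ (0 : Fin d →₀ ℕ) = 0 := by funext j; simp [toZ]
      rw [this]; exact zero_mem _
    simp [hv, h0]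
  rw [h2, norm_one, one_pow] at h1
  have h3 : ‖J t (1 - p * P)‖ ^ 2 < 1 / (S + 1) := by
    have h4 := pow_lt_pow_left₀ hp (norm_nonneg _) two_ne_zero
    rwa [Real.sq_sqrt (by positivity)] at h4
  have h4 : S * ‖J t (1 - p * P)‖ ^ 2 ≤ S * (1 / (S + 1)) := by gcongr
  have h5 : S * (1 / (S + 1)) < 1 := by
    rw [mul_one_div, div_lt_one (by linarith)]
    linarith
  linarith

/-- Structure of polynomials with dominant constant term that vanish on the torus. -/
theorem dominated_structure (P : MvPolynomial (Fin d) ℂ)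
    (hdom : ∑ α ∈ P.support.erase 0, ‖P.coeff α‖ ≤ ‖P.coeff 0‖)
    (ζ : Fin d → ℂ) (hζ : ∀ j, ‖ζ j‖ = 1) (hP : MvPolynomial.eval ζ P = 0) (hP0 : P.coeff 0 ≠ 0) :
    (∑ β ∈ P.support.erase 0, ‖P.coeff β‖ / ‖P.coeff 0‖ = 1) ∧
    P = C (P.coeff 0) * (1 - G (P.support.erase 0) (fun β => ‖P.coeff β‖ / ‖P.coeff 0‖)
      (fun β => ∏ j, (conj (ζ j)) ^ β j)) := by
  classical
  set p₀ := P.coeff 0 with hp₀
  have hn0 : 0 < ‖p₀‖ := norm_pos_iff.2 hP0
  have h0mem : (0 : Fin d →₀ ℕ) ∈ P.support := mem_support_iff.2 hP0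
  set m : (Fin d →₀ ℕ) → ℂ := fun β => ∏ j, ζ j ^ β j with hm
  have hm1 : ∀ β, ‖m β‖ = 1 := by
    intro β
    simp [hm, hζ]
  have heval : p₀ + ∑ β ∈ P.support.erase 0, P.coeff β * m β = 0 := by
    rw [← hP, MvPolynomial.eval_eq', ← Finset.add_sum_erase _ _ h0mem]
    simp [hm, hp₀]
  -- the rotated terms
  set w : (Fin d →₀ ℕ) → ℂ := fun β => -(P.coeff β * m β * conj p₀) / ‖p₀‖ with hw
  have hwn : ∀ β, ‖w β‖ = ‖P.coeff β‖ := by
    intro β
    simp only [hw]
    rw [norm_div, norm_neg, norm_mul, norm_mul, hm1, RCLike.norm_conj, Complex.norm_real,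
      norm_norm, mul_one, mul_div_assoc, div_self hn0.ne', mul_one]
  have hwsum : ∑ β ∈ P.support.erase 0, w β = ((‖p₀‖ : ℝ) : ℂ) := by
    have h1 : ∑ β ∈ P.support.erase 0, P.coeff β * m β = -p₀ := by
      linear_combination heval
    have h2 : ∑ β ∈ P.support.erase 0, w β
        = -((∑ β ∈ P.support.erase 0, P.coeff β * m β) * conj p₀) / ‖p₀‖ := by
      rw [Finset.sum_mul, ← Finset.sum_neg_distrib, Finset.sum_div]
    rw [h2, h1, neg_mul, neg_neg, Complex.mul_conj']
    have : ((‖p₀‖ : ℝ) : ℂ) ≠ 0 := by exact_mod_cast hn0.ne'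
    field_simp
  have hre : ∑ β ∈ P.support.erase 0, (‖P.coeff β‖ - (w β).re)
      = (∑ β ∈ P.support.erase 0, ‖P.coeff β‖) - ‖p₀‖ := by
    rw [Finset.sum_sub_distrib, ← Complex.re_sum, hwsum, Complex.ofReal_re]
  have hnn : ∀ β ∈ P.support.erase 0, 0 ≤ ‖P.coeff β‖ - (w β).re := by
    intro β _
    rw [← hwn β]
    linarith [Complex.re_le_norm (w β)]
  have hle : ∑ β ∈ P.support.erase 0, (‖P.coeff β‖ - (w β).re) ≤ 0 := by
    rw [hre]; linarith
  have hzero : ∑ β ∈ P.support.erase 0, (‖P.coeff β‖ - (w β).re) = 0 :=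
    le_antisymm hle (Finset.sum_nonneg hnn)
  have hall := (Finset.sum_eq_zero_iff_of_nonneg hnn).1 hzero
  have hsum : ∑ β ∈ P.support.erase 0, ‖P.coeff β‖ = ‖p₀‖ := by
    rw [hre] at hzero; linarith
  have hwreal : ∀ β ∈ P.support.erase 0, w β = ((‖P.coeff β‖ : ℝ) : ℂ) := by
    intro β hβ
    have h1 := hall β hβ
    have h2 : (w β).re = ‖w β‖ := by rw [hwn β]; linarith
    have h3 : ‖w β‖ ^ 2 = (w β).re ^ 2 + (w β).im ^ 2 := by
      rw [← Complex.normSq_eq_norm_sq, Complex.normSq_apply]; ring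
    have h4 : (w β).im = 0 := by
      rw [← h2] at h3
      have : (w β).im ^ 2 = 0 := by linarith
      exact pow_eq_zero_iff two_ne_zero |>.1 this
    apply Complex.ext
    · rw [h2, hwn, Complex.ofReal_re]
    · rw [h4, Complex.ofReal_im]
  have hcoef : ∀ β ∈ P.support.erase 0,
      P.coeff β = -(p₀ * (((‖P.coeff β‖ / ‖p₀‖ : ℝ) : ℂ) * ∏ j, (conj (ζ j)) ^ β j)) := by
    intro β hβ
    have h1 := hwreal β hβ
    have h2 : (∏ j, (conj (ζ j)) ^ β j) = conj (m β) := by
      simp [hm, map_prod, map_pow]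
    have h3 : m β * conj (m β) = 1 := by
      rw [Complex.mul_conj', hm1]; norm_num
    have h4 : conj p₀ * p₀ = ((‖p₀‖ : ℝ) : ℂ) ^ 2 := Complex.conj_mul' p₀
    have hne : ((‖p₀‖ : ℝ) : ℂ) ≠ 0 := by exact_mod_cast hn0.ne'
    rw [h2]
    simp only [hw] at h1
    rw [div_eq_iff hne] at h1
    push_cast
    have h5 : P.coeff β * ((‖p₀‖ : ℝ) : ℂ) ^ 2
        = -(p₀ * ((‖P.coeff β‖ : ℝ) : ℂ) * ((‖p₀‖ : ℝ) : ℂ) * conj (m β)) := by
      calc P.coeff β * ((‖p₀‖ : ℝ) : ℂ) ^ 2
          = (P.coeff β * m β * conj p₀) * (p₀ * conj (m β)) := by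
            rw [← h4]
            linear_combination (-(P.coeff β * conj p₀ * p₀)) * h3
        _ = -(((‖P.coeff β‖ : ℝ) : ℂ) * ((‖p₀‖ : ℝ) : ℂ)) * (p₀ * conj (m β)) := by
            rw [← h1]; ring
        _ = _ := by ring
    have h6 : P.coeff β * ((‖p₀‖ : ℝ) : ℂ)
        = -(p₀ * ((‖P.coeff β‖ : ℝ) : ℂ) * conj (m β)) := by
      apply mul_right_cancel₀ hne
      linear_combination h5
    field_simp
    linear_combination h6
  refine ⟨?_, ?_⟩
  · rw [← Finset.sum_div, hsum, div_self hn0.ne']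
  · have h1 : P = C p₀ + ∑ β ∈ P.support.erase 0, monomial β (P.coeff β) := by
      conv_lhs => rw [P.as_sum, ← Finset.add_sum_erase _ _ h0mem]
      rfl
    have h2 : C p₀ * (1 - G (P.support.erase 0) (fun β => ‖P.coeff β‖ / ‖p₀‖)
        (fun β => ∏ j, (conj (ζ j)) ^ β j))
        = C p₀ + ∑ β ∈ P.support.erase 0, monomial β (P.coeff β) := by
      rw [mul_sub, mul_one, G, Finset.mul_sum, sub_eq_add_neg, ← Finset.sum_neg_distrib]
      congr 1
      apply Finset.sum_congr rfl
      intro β hβ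
      rw [C_mul_monomial]
      conv_rhs => rw [hcoef β hβ]
      rw [map_neg]
    rw [h2]
    exact h1

/-- **Characterisation for one factor.** -/
theorem shiftCyclic_iff_of_dominated (t : ℝ) (P : MvPolynomial (Fin d) ℂ)
    (hdom : ∑ α ∈ P.support.erase 0, ‖P.coeff α‖ ≤ ‖P.coeff 0‖)
    (hzero : ∃ ζ : Fin d → ℂ, (∀ j, ‖ζ j‖ = 1) ∧ MvPolynomial.eval ζ P = 0) :
    ShiftCyclic t P ↔
      ∑' k : expPoints P, ENNReal.ofReal ((weight t (k : Fin d →₀ ℕ))⁻¹) = ⊤ := by
  classical
  obtain ⟨ζ, hζ, hP⟩ := hzero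
  constructor
  · intro h
    by_contra hne
    exact not_shiftCyclic t P ζ hζ hP hne h
  · intro hdiv
    have hP0 : P.coeff 0 ≠ 0 := by
      intro h0
      -- then `P = 0` and the series has a single term
      have hall : ∀ α, P.coeff α = 0 := by
        intro α
        by_contra hα
        have hα' : α ∈ P.support.erase 0 := by
          refine Finset.mem_erase.2 ⟨?_, mem_support_iff.2 hα⟩
          rintro rfl
          exact hα h0
        have h1 := Finset.single_le_sum (f := fun α => ‖P.coeff α‖)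
          (fun α _ => norm_nonneg _) hα'
        rw [h0, norm_zero] at hdom
        have h2 := norm_pos_iff.2 hα
        linarith
      have hsupp : P.support = ∅ := by
        rw [Finset.eq_empty_iff_forall_notMem]
        intro α hα
        exact (mem_support_iff.1 hα) (hall α)
      have hgrp : expGroup P = ⊥ := by
        unfold expGroup
        rw [AddSubgroup.closure_eq_bot_iff]
        rintro v ⟨α, hα, -⟩
        rw [hsupp] at hα
        simp at hα
      have hfin : (expPoints P).Finite := by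
        have : expPoints P ⊆ {0} := by
          intro k hk
          have h1 : toZ k ∈ expGroup P := hk
          rw [hgrp, AddSubgroup.mem_bot] at h1
          have h2 : k = 0 := by
            apply toZ_injective
            rw [h1]; funext j; simp [toZ]
          exact h2
        exact (Set.finite_singleton 0).subset this
      have : Finite (expPoints P) := hfin
      have hlt : ∑' k : expPoints P, ENNReal.ofReal ((weight t (k : Fin d →₀ ℕ))⁻¹) < ⊤ := by
        have := Fintype.ofFinite (expPoints P)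
        rw [tsum_fintype]
        exact ENNReal.sum_lt_top.2 fun _ _ => ENNReal.ofReal_lt_top
      exact absurd hdiv hlt.ne
    obtain ⟨hsum, hstr⟩ := dominated_structure P hdom ζ hζ hP hP0
    apply shiftCyclic_of_annihilator
    intro φ hφ
    refine annihilator_zero (B := P.support.erase 0) (c := fun β => ‖P.coeff β‖ / ‖P.coeff 0‖)
      t φ ?_ hsum (fun β => ∏ j, (conj (ζ j)) ^ β j) ?_ ?_ ?_ (expGroup P) ?_ hdiv
    · intro β hβ
      have h1 := mem_support_iff.1 (Finset.mem_of_mem_erase hβ)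
      exact div_pos (norm_pos_iff.2 h1) (norm_pos_iff.2 hP0)
    · intro α
      simp [hζ]
    · intro α β
      simp [pow_add, Finset.prod_mul_distrib]
    · intro Q
      have h1 := hφ (Q * C (P.coeff 0)⁻¹)
      have h2 : Q * C (P.coeff 0)⁻¹ * P = Q * (1 - G (P.support.erase 0)
          (fun β => ‖P.coeff β‖ / ‖P.coeff 0‖) (fun β => ∏ j, (conj (ζ j)) ^ β j)) := by
        have h3 : (C (P.coeff 0)⁻¹ : MvPolynomial (Fin d) ℂ) * C (P.coeff 0) = 1 := by
          rw [← C_mul, inv_mul_cancel₀ hP0, C_1]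
        have h4 := congrArg (fun X => C (P.coeff 0)⁻¹ * X) hstr
        rw [← mul_assoc (C (P.coeff 0)⁻¹), h3, one_mul] at h4
        rw [mul_assoc, h4]
      rw [h2] at h1
      exact h1
    · unfold expGroup
      rw [AddSubgroup.closure_le]
      rintro v ⟨α, hα, rfl⟩
      by_cases h0 : α = 0
      · subst h0
        have : (fun j => (((0 : Fin d →₀ ℕ) j : ℕ) : ℤ)) = 0 := by funext j; simp
        rw [this]
        exact zero_mem _
      · exact AddSubgroup.subset_closure ⟨α, Finset.mem_erase.2 ⟨h0, hα⟩, rfl⟩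

end Pool.Agent.Helper49.Cyc
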