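import Mathlib
import Pool.Agent.Helper49.CycMain

/-! Noncyclicity from an annihilating sequence. -/

set_option autoImplicit false

namespace Pool.Agent.Helper49.Cyc

open scoped ENNReal InnerProductSpace
open Filter Topology MvPolynomial

variable {d : ℕ}

/-- **Noncyclicity criterion.** -/
theorem not_shiftCyclic_of_seq (t : ℝ) (P : MvPolynomial (Fin d) ℂ) (v : (Fin d →₀ ℕ) → ℂ)
    (S : ℝ) (hS : ∀ s : Finset (Fin d →₀ ℕ), ∑ k ∈ s, ‖v k‖ ^ 2 / weight t k ≤ S)
    (hann : ∀ k, ∑ β ∈ P.support, P.coeff β * v (k + β) = 0)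
    (k₀ : Fin d →₀ ℕ) (hk₀ : v k₀ ≠ 0) : ¬ ShiftCyclic t P := by
  classical
  intro hcyc
  have hS0 : 0 ≤ S := by simpa using hS ∅
  set Φ : MvPolynomial (Fin d) ℂ →ₗ[ℂ] ℂ := (MvPolynomial.basisMonomials (Fin d) ℂ).constr ℂ v
    with hΦ
  have hΦm : ∀ k a, Φ (monomial k a) = a * v k := by
    intro k a
    have h1 : (monomial k a : MvPolynomial (Fin d) ℂ)
        = a • (MvPolynomial.basisMonomials (Fin d) ℂ) k := by
      rw [coe_basisMonomials, smul_monomial, smul_eq_mul, mul_one]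
    rw [h1, map_smul, hΦ, Module.Basis.constr_basis, smul_eq_mul]
  have hann' : ∀ Q : MvPolynomial (Fin d) ℂ, Φ (Q * P) = 0 := by
    intro Q
    have h1 : ∀ α a, Φ (monomial α a * P) = 0 := by
      intro α a
      have h2 : monomial α a * P = ∑ β ∈ P.support, monomial (α + β) (a * P.coeff β) := by
        conv_lhs => rw [P.as_sum, Finset.mul_sum]
        apply Finset.sum_congr rfl
        intro β _
        rw [monomial_mul]
      rw [h2, map_sum]
      simp only [hΦm]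
      have h3 : ∑ β ∈ P.support, a * P.coeff β * v (α + β)
          = a * ∑ β ∈ P.support, P.coeff β * v (α + β) := by
        rw [Finset.mul_sum]
        apply Finset.sum_congr rfl
        intro β _
        ring
      rw [h3, hann, mul_zero]
    conv_lhs => rw [Q.as_sum, Finset.sum_mul, map_sum]
    exact Finset.sum_eq_zero fun α _ => h1 α _
  have hbound : ∀ D : MvPolynomial (Fin d) ℂ, ‖Φ D‖ ^ 2 ≤ S * ‖J t D‖ ^ 2 := by
    intro D
    have h1 : Φ D = ∑ k ∈ D.support, D.coeff k * v k := by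
      conv_lhs => rw [D.as_sum, map_sum]
      simp only [hΦm]
    have h2 : ‖Φ D‖ ≤ ∑ k ∈ D.support,
        (‖v k‖ / Real.sqrt (weight t k)) * (Real.sqrt (weight t k) * ‖D.coeff k‖) := by
      rw [h1]
      refine (norm_sum_le _ _).trans (Finset.sum_le_sum fun k _ => ?_)
      have hw := Real.sqrt_pos.2 (weight_pos t k)
      rw [norm_mul, ← mul_assoc, div_mul_cancel₀ _ hw.ne', mul_comm]
    calc ‖Φ D‖ ^ 2 ≤ (∑ k ∈ D.support,
        (‖v k‖ / Real.sqrt (weight t k)) * (Real.sqrt (weight t k) * ‖D.coeff k‖)) ^ 2 := by gcongr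
      _ ≤ (∑ k ∈ D.support, (‖v k‖ / Real.sqrt (weight t k)) ^ 2) *
          ∑ k ∈ D.support, (Real.sqrt (weight t k) * ‖D.coeff k‖) ^ 2 :=
          Finset.sum_mul_sq_le_sq_mul_sq _ _ _
      _ = (∑ k ∈ D.support, ‖v k‖ ^ 2 / weight t k) * ‖J t D‖ ^ 2 := by
          congr 1
          · apply Finset.sum_congr rfl
            intro k _
            rw [div_pow, Real.sq_sqrt (weight_pos _ _).le]
          · rw [J_norm]
            apply Finset.sum_congr rfl
            intro k _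
            rw [mul_pow, Real.sq_sqrt (weight_pos _ _).le]
      _ ≤ S * ‖J t D‖ ^ 2 := mul_le_mul_of_nonneg_right (hS _) (by positivity)
  rw [shiftCyclic_iff_dense] at hcyc
  have hv : 0 < ‖v k₀‖ := norm_pos_iff.2 hk₀
  obtain ⟨p, hp⟩ := hcyc (J t (monomial k₀ 1)) (‖v k₀‖ / Real.sqrt (S + 1)) (by positivity)
  rw [← map_sub] at hp
  have h1 := hbound (monomial k₀ 1 - p * P)
  rw [map_sub, hann', sub_zero, hΦm, one_mul] at h1
  have h3 : ‖J t (monomial k₀ 1 - p * P)‖ ^ 2 < ‖v k₀‖ ^ 2 / (S + 1) := by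
    have h4 := pow_lt_pow_left₀ hp (norm_nonneg _) two_ne_zero
    rwa [div_pow, Real.sq_sqrt (by positivity)] at h4
  have h4 : S * ‖J t (monomial k₀ 1 - p * P)‖ ^ 2 ≤ S * (‖v k₀‖ ^ 2 / (S + 1)) := by gcongr
  have h5 : S * (‖v k₀‖ ^ 2 / (S + 1)) < ‖v k₀‖ ^ 2 := by
    rw [mul_div_assoc', div_lt_iff₀ (by linarith)]
    nlinarith [pow_pos hv 2]
  linarith

end Pool.Agent.Helper49.Cyc
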