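import Mathlib

/-! Self-reflective polynomials. -/

set_option autoImplicit false

namespace Pool.Agent.Helper49.Cyc

open MvPolynomial
open scoped ComplexConjugate

/-- `P` is self-reflective: with `n` its multidegree (`n_j` the degree of `P` in `z_j`), there is
a constant `c` with `P(z) = c z^n conj(P(1/conj z))`; that is, the coefficient of `z^β` is `c`
times the conjugate of the coefficient of `z^α` whenever `α + β = n`. -/
def SelfReflective {d : ℕ} (P : MvPolynomial (Fin d) ℂ) : Prop :=
  ∃ c : ℂ, ∀ α β : Fin d →₀ ℕ, (∀ j, α j + β j = P.degreeOf j) →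
    P.coeff β = c * conj (P.coeff α)

end Pool.Agent.Helper49.Cyc
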