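import Mathlib

/-! One-variable estimates: if `p` has no zeros in the open unit disk then `p(z)/p(rz)` is bounded
in the Dirichlet space uniformly in `r < 1`. -/

set_option autoImplicit false

namespace Pool.Agent.Helper49.OneVar

open PowerSeries Finset

/-- truncated `ℓ¹` norm of the coefficients -/
noncomputable def W (N : ℕ) (f : PowerSeries ℂ) : ℝ := ∑ n ∈ range N, ‖coeff n f‖

/-- truncated squared Dirichlet norm -/
noncomputable def E (N : ℕ) (f : PowerSeries ℂ) : ℝ :=
  ∑ n ∈ range N, (1 + (n : ℝ)) * ‖coeff n f‖ ^ 2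

theorem W_nonneg (N : ℕ) (f : PowerSeries ℂ) : 0 ≤ W N f := sum_nonneg fun _ _ => norm_nonneg _

theorem E_nonneg (N : ℕ) (f : PowerSeries ℂ) : 0 ≤ E N f :=
  sum_nonneg fun _ _ => by positivity

/-- A sum over antidiagonals below `N` is at most the sum over the square. -/
theorem sum_antidiagonal_le (N : ℕ) (F : ℕ × ℕ → ℝ) (hF : ∀ x, 0 ≤ F x) :
    ∑ n ∈ range N, ∑ x ∈ antidiagonal n, F x ≤ ∑ x ∈ range N ×ˢ range N, F x := by
  have h1 : ∑ n ∈ range N, ∑ x ∈ antidiagonal n, F x
      = ∑ x ∈ (range N ×ˢ range N).filter (fun x => x.1 + x.2 < N), F x := by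
    rw [← Finset.sum_fiberwise_of_maps_to (g := fun x : ℕ × ℕ => x.1 + x.2) (t := range N)]
    · apply sum_congr rfl
      intro n hn
      apply sum_congr _ (fun _ _ => rfl)
      ext x
      simp only [Finset.HasAntidiagonal.mem_antidiagonal, mem_filter, mem_product, mem_range] at *
      omega
    · intro x hx
      simp only [mem_filter, mem_product, mem_range] at *
      omega
  rw [h1]
  exact sum_le_sum_of_subset_of_nonneg (filter_subset _ _) fun _ _ _ => hF _

theorem W_mul_le (N : ℕ) (f g : PowerSeries ℂ) : W N (f * g) ≤ W N f * W N g := by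
  calc W N (f * g) ≤ ∑ n ∈ range N, ∑ x ∈ antidiagonal n, ‖coeff x.1 f‖ * ‖coeff x.2 g‖ := by
        apply sum_le_sum
        intro n _
        rw [coeff_mul]
        refine (norm_sum_le _ _).trans (le_of_eq ?_)
        simp only [norm_mul]
    _ ≤ ∑ x ∈ range N ×ˢ range N, ‖coeff x.1 f‖ * ‖coeff x.2 g‖ :=
        sum_antidiagonal_le N _ fun _ => by positivity
    _ = W N f * W N g := by
        rw [sum_product, W, W, sum_mul_sum]

theorem conv_le (N : ℕ) (a b : ℕ → ℝ) (hb : ∀ n, 0 ≤ b n) :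
    ∑ n ∈ range N, (∑ x ∈ antidiagonal n, a x.1 * b x.2) ^ 2
      ≤ (∑ n ∈ range N, a n ^ 2) * (∑ n ∈ range N, b n) ^ 2 := by
  have hB : 0 ≤ ∑ n ∈ range N, b n := sum_nonneg fun _ _ => hb _
  have h1 : ∀ n ∈ range N, (∑ x ∈ antidiagonal n, a x.1 * b x.2) ^ 2
      ≤ (∑ n ∈ range N, b n) * ∑ x ∈ antidiagonal n, a x.1 ^ 2 * b x.2 := by
    intro n hn
    have h2 : (∑ x ∈ antidiagonal n, a x.1 * b x.2) ^ 2
        ≤ (∑ x ∈ antidiagonal n, b x.2) * ∑ x ∈ antidiagonal n, a x.1 ^ 2 * b x.2 := by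
      have := Finset.sum_mul_sq_le_sq_mul_sq (antidiagonal n)
        (fun x => Real.sqrt (b x.2)) (fun x => a x.1 * Real.sqrt (b x.2))
      calc (∑ x ∈ antidiagonal n, a x.1 * b x.2) ^ 2
          = (∑ x ∈ antidiagonal n, Real.sqrt (b x.2) * (a x.1 * Real.sqrt (b x.2))) ^ 2 := by
            congr 1
            apply sum_congr rfl
            intro x _
            have := Real.mul_self_sqrt (hb x.2)
            linear_combination (-a x.1) * this
        _ ≤ _ := this
        _ = _ := by
            congr 1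
            · apply sum_congr rfl
              intro x _
              exact Real.sq_sqrt (hb _)
            · apply sum_congr rfl
              intro x _
              rw [mul_pow, Real.sq_sqrt (hb _)]
    refine h2.trans ?_
    apply mul_le_mul_of_nonneg_right
    · rw [mem_range] at hn
      have h3 : ∑ x ∈ antidiagonal n, b x.2 = ∑ l ∈ range (n + 1), b l := by
        rw [Finset.Nat.sum_antidiagonal_eq_sum_range_succ_mk]
        exact Finset.sum_range_reflect (fun l => b l) (n + 1)
      rw [h3]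
      exact sum_le_sum_of_subset_of_nonneg (range_mono (by omega)) fun _ _ _ => hb _
    · exact sum_nonneg fun x _ => mul_nonneg (by positivity) (hb _)
  calc ∑ n ∈ range N, (∑ x ∈ antidiagonal n, a x.1 * b x.2) ^ 2
      ≤ ∑ n ∈ range N, (∑ n ∈ range N, b n) * ∑ x ∈ antidiagonal n, a x.1 ^ 2 * b x.2 :=
        sum_le_sum h1
    _ = (∑ n ∈ range N, b n) * ∑ n ∈ range N, ∑ x ∈ antidiagonal n, a x.1 ^ 2 * b x.2 := by
        rw [mul_sum]
    _ ≤ (∑ n ∈ range N, b n) * ∑ x ∈ range N ×ˢ range N, a x.1 ^ 2 * b x.2 := by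
        apply mul_le_mul_of_nonneg_left _ hB
        exact sum_antidiagonal_le N (fun x => a x.1 ^ 2 * b x.2)
          fun x => mul_nonneg (by positivity) (hb _)
    _ = _ := by
        rw [sum_product]
        dsimp only
        rw [← sum_mul_sum]
        ring

theorem E_mul_le (N : ℕ) (f g : PowerSeries ℂ) :
    E N (f * g) ≤ 2 * (E N f * W N g ^ 2 + E N g * W N f ^ 2) := by
  have hs : ∀ n : ℕ, (0 : ℝ) ≤ 1 + n := fun n => by positivity
  have h1 : ∀ n : ℕ, (1 + (n : ℝ)) * ‖coeff n (f * g)‖ ^ 2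
      ≤ 2 * ((∑ x ∈ antidiagonal n, (Real.sqrt (1 + x.1) * ‖coeff x.1 f‖) * ‖coeff x.2 g‖) ^ 2
        + (∑ x ∈ antidiagonal n, ‖coeff x.1 f‖ * (Real.sqrt (1 + x.2) * ‖coeff x.2 g‖)) ^ 2) := by
    intro n
    have h2 : Real.sqrt (1 + n) * ‖coeff n (f * g)‖
        ≤ (∑ x ∈ antidiagonal n, (Real.sqrt (1 + x.1) * ‖coeff x.1 f‖) * ‖coeff x.2 g‖)
        + (∑ x ∈ antidiagonal n, ‖coeff x.1 f‖ * (Real.sqrt (1 + x.2) * ‖coeff x.2 g‖)) := by
      rw [coeff_mul, ← sum_add_distrib]
      calc Real.sqrt (1 + n) * ‖∑ x ∈ antidiagonal n, coeff x.1 f * coeff x.2 g‖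
          ≤ Real.sqrt (1 + n) * ∑ x ∈ antidiagonal n, ‖coeff x.1 f‖ * ‖coeff x.2 g‖ := by
            apply mul_le_mul_of_nonneg_left _ (Real.sqrt_nonneg _)
            refine (norm_sum_le _ _).trans (le_of_eq ?_)
            simp only [norm_mul]
        _ = ∑ x ∈ antidiagonal n, Real.sqrt (1 + n) * (‖coeff x.1 f‖ * ‖coeff x.2 g‖) := by
            rw [mul_sum]
        _ ≤ _ := by
            apply sum_le_sum
            intro x hx
            rw [Finset.HasAntidiagonal.mem_antidiagonal] at hx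
            have h3 : Real.sqrt (1 + (n : ℝ)) ≤ Real.sqrt (1 + x.1) + Real.sqrt (1 + x.2) := by
              rw [← hx]
              push_cast
              refine Real.sqrt_le_iff.2 ⟨by positivity, ?_⟩
              have h4 := Real.sq_sqrt (hs x.1)
              have h5 := Real.sq_sqrt (hs x.2)
              have h6 := Real.sqrt_nonneg (1 + (x.1 : ℝ))
              have h7 := Real.sqrt_nonneg (1 + (x.2 : ℝ))
              nlinarith [mul_nonneg h6 h7]
            have h8 : 0 ≤ ‖coeff x.1 f‖ * ‖coeff x.2 g‖ := by positivity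
            nlinarith
    have h9 : 0 ≤ Real.sqrt (1 + (n : ℝ)) * ‖coeff n (f * g)‖ := by positivity
    have h10 := pow_le_pow_left₀ h9 h2 2
    rw [mul_pow, Real.sq_sqrt (hs n)] at h10
    refine h10.trans ?_
    nlinarith [sq_nonneg ((∑ x ∈ antidiagonal n, (Real.sqrt (1 + x.1) * ‖coeff x.1 f‖) *
      ‖coeff x.2 g‖) - (∑ x ∈ antidiagonal n, ‖coeff x.1 f‖ * (Real.sqrt (1 + x.2) *
      ‖coeff x.2 g‖)))]
  have h2 := conv_le N (fun n => Real.sqrt (1 + n) * ‖coeff n f‖) (fun n => ‖coeff n g‖)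
    (fun _ => by positivity)
  have h3 := conv_le N (fun n => Real.sqrt (1 + n) * ‖coeff n g‖) (fun n => ‖coeff n f‖)
    (fun _ => by positivity)
  have h4 : ∀ (u v : ℕ → ℝ) (n : ℕ), ∑ x ∈ antidiagonal n, u x.1 * v x.2
      = ∑ x ∈ antidiagonal n, v x.1 * u x.2 := by
    intro u v n
    rw [← Finset.Nat.sum_antidiagonal_swap]
    apply sum_congr rfl
    intro x _
    simp only [Prod.fst_swap, Prod.snd_swap]
    ring
  have h5 : ∀ h : PowerSeries ℂ, ∑ n ∈ range N, (Real.sqrt (1 + n) * ‖coeff n h‖) ^ 2 = E N h := by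
    intro h
    apply sum_congr rfl
    intro n _
    rw [mul_pow, Real.sq_sqrt (hs n)]
  rw [h5] at h2 h3
  calc E N (f * g) ≤ ∑ n ∈ range N, 2 *
        ((∑ x ∈ antidiagonal n, (Real.sqrt (1 + x.1) * ‖coeff x.1 f‖) * ‖coeff x.2 g‖) ^ 2
        + (∑ x ∈ antidiagonal n, ‖coeff x.1 f‖ * (Real.sqrt (1 + x.2) * ‖coeff x.2 g‖)) ^ 2) :=
        sum_le_sum fun n _ => h1 n
    _ = 2 * (∑ n ∈ range N,
        (∑ x ∈ antidiagonal n, (Real.sqrt (1 + x.1) * ‖coeff x.1 f‖) * ‖coeff x.2 g‖) ^ 2
        + ∑ n ∈ range N,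
        (∑ x ∈ antidiagonal n, (Real.sqrt (1 + x.1) * ‖coeff x.1 g‖) * ‖coeff x.2 f‖) ^ 2) := by
        rw [← mul_sum, sum_add_distrib]
        congr 2
        apply sum_congr rfl
        intro n _
        rw [h4 (fun m => ‖coeff m f‖) (fun m => Real.sqrt (1 + m) * ‖coeff m g‖)]
    _ ≤ _ := by
        have h6 : W N g = ∑ n ∈ range N, ‖coeff n g‖ := rfl
        have h7 : W N f = ∑ n ∈ range N, ‖coeff n f‖ := rfl
        rw [h6, h7]
        linarith

/-- The series `(1 - a X) / (1 - a r X)`. -/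
noncomputable def gq (a : ℂ) (r : ℝ) : PowerSeries ℂ :=
  PowerSeries.mk fun n => if n = 0 then 1 else a ^ n * (r : ℂ) ^ (n - 1) * ((r : ℂ) - 1)

theorem gq_mul (a : ℂ) (r : ℝ) :
    gq a r * (1 - C (a * r) * X) = 1 - C a * X := by
  ext n
  rw [mul_sub, mul_one, ← mul_assoc, mul_comm (gq a r) (C (a * r)), mul_assoc]
  rcases n with _ | n
  · simp [gq]
  · rw [map_sub, map_sub, coeff_C_mul, coeff_succ_mul_X, coeff_C_mul, gq, coeff_mk, coeff_mk]
    rcases n with _ | n
    · simp; ring
    · have h1 : coeff (n + 1 + 1) (1 : PowerSeries ℂ) = 0 := by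
        rw [coeff_one]; simp
      have h2 : coeff (n + 1 + 1) (X : PowerSeries ℂ) = 0 := by
        rw [coeff_X]; simp
      rw [h1, h2]
      simp
      ring

theorem sum_geo (r : ℝ) (N : ℕ) :
    (1 - r) ^ 2 * ∑ n ∈ range N, ((n : ℝ) + 1) * r ^ n = 1 - (N + 1) * r ^ N + N * r ^ (N + 1) := by
  induction N with
  | zero => simp
  | succ N ih =>
    rw [sum_range_succ, mul_add, ih]
    push_cast
    ring

theorem sum_geo_le {r : ℝ} (hr0 : 0 ≤ r) (hr1 : r ≤ 1) (N : ℕ) :
    (1 - r) ^ 2 * ∑ n ∈ range N, ((n : ℝ) + 1) * r ^ n ≤ 1 := by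
  rw [sum_geo]
  have h1 : r ^ (N + 1) ≤ r ^ N := pow_le_pow_of_le_one hr0 hr1 (by omega)
  have h2 : 0 ≤ r ^ N := by positivity
  have h3 : (0 : ℝ) ≤ N := Nat.cast_nonneg N
  nlinarith

theorem sum_geo1_le {r : ℝ} (hr0 : 0 ≤ r) (N : ℕ) :
    (1 - r) * ∑ n ∈ range N, r ^ n ≤ 1 := by
  have h1 := mul_neg_geom_sum r N
  have h2 : 0 ≤ r ^ N := by positivity
  linarith

theorem W_gq_le {a : ℂ} (ha : ‖a‖ ≤ 1) {r : ℝ} (hr0 : 0 ≤ r) (hr1 : r ≤ 1) (N : ℕ) :
    W N (gq a r) ≤ 2 := by
  rcases N with _ | N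
  · simp [W]
  · rw [W, sum_range_succ']
    have h1 : ∀ n, ‖coeff (n + 1) (gq a r)‖ ≤ (1 - r) * r ^ n := by
      intro n
      simp only [gq, coeff_mk, Nat.succ_ne_zero, if_false, Nat.add_sub_cancel]
      rw [norm_mul, norm_mul, norm_pow, norm_pow, Complex.norm_real, Real.norm_of_nonneg hr0]
      have h2 : ‖(r : ℂ) - 1‖ = 1 - r := by
        rw [show (r : ℂ) - 1 = ((r - 1 : ℝ) : ℂ) by push_cast; ring, Complex.norm_real,
          Real.norm_eq_abs, abs_of_nonpos (by linarith)]
        ring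
      rw [h2]
      have h3 : ‖a‖ ^ (n + 1) ≤ 1 := pow_le_one₀ (norm_nonneg _) ha
      have h4 : 0 ≤ r ^ n * (1 - r) := mul_nonneg (by positivity) (by linarith)
      nlinarith
    have h5 : ‖coeff 0 (gq a r)‖ = 1 := by simp [gq]
    rw [h5]
    have h6 : ∑ n ∈ range N, ‖coeff (n + 1) (gq a r)‖ ≤ ∑ n ∈ range N, (1 - r) * r ^ n :=
      sum_le_sum fun n _ => h1 n
    rw [← mul_sum] at h6
    have := sum_geo1_le hr0 N
    linarith

theorem E_gq_le {a : ℂ} (ha : ‖a‖ ≤ 1) {r : ℝ} (hr0 : 0 ≤ r) (hr1 : r ≤ 1) (N : ℕ) :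
    E N (gq a r) ≤ 3 := by
  rcases N with _ | N
  · simp [E]
  · rw [E, sum_range_succ']
    have h1 : ∀ n : ℕ, (1 + ((n + 1 : ℕ) : ℝ)) * ‖coeff (n + 1) (gq a r)‖ ^ 2
        ≤ 2 * ((1 - r) ^ 2 * (((n : ℝ) + 1) * r ^ n)) := by
      intro n
      simp only [gq, coeff_mk, Nat.succ_ne_zero, if_false, Nat.add_sub_cancel]
      rw [norm_mul, norm_mul, norm_pow, norm_pow, Complex.norm_real, Real.norm_of_nonneg hr0]
      have h2 : ‖(r : ℂ) - 1‖ = 1 - r := by
        rw [show (r : ℂ) - 1 = ((r - 1 : ℝ) : ℂ) by push_cast; ring, Complex.norm_real,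
          Real.norm_eq_abs, abs_of_nonpos (by linarith)]
        ring
      rw [h2]
      have h3 : ‖a‖ ^ (n + 1) ≤ 1 := pow_le_one₀ (norm_nonneg _) ha
      have h3' : 0 ≤ ‖a‖ ^ (n + 1) := by positivity
      have h4 : (‖a‖ ^ (n + 1) * r ^ n * (1 - r)) ^ 2 ≤ r ^ n * (1 - r) ^ 2 := by
        have h5 : (‖a‖ ^ (n + 1)) ^ 2 ≤ 1 := pow_le_one₀ h3' h3
        have h6 : r ^ n ≤ 1 := pow_le_one₀ hr0 hr1
        have h7 : 0 ≤ r ^ n := by positivity
        have h8 : (r ^ n) ^ 2 ≤ r ^ n := by nlinarith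
        have h9 : 0 ≤ (1 - r) ^ 2 := by positivity
        calc (‖a‖ ^ (n + 1) * r ^ n * (1 - r)) ^ 2
            = (‖a‖ ^ (n + 1)) ^ 2 * ((r ^ n) ^ 2 * (1 - r) ^ 2) := by ring
          _ ≤ 1 * (r ^ n * (1 - r) ^ 2) := by gcongr
          _ = _ := by ring
      have h10 : (0 : ℝ) ≤ n := Nat.cast_nonneg n
      push_cast
      have h11 : 0 ≤ r ^ n * (1 - r) ^ 2 := by positivity
      nlinarith
    have h5 : (1 + ((0 : ℕ) : ℝ)) * ‖coeff 0 (gq a r)‖ ^ 2 = 1 := by simp [gq]
    rw [h5]
    have h6 : ∑ n ∈ range N, (1 + ((n + 1 : ℕ) : ℝ)) * ‖coeff (n + 1) (gq a r)‖ ^ 2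
        ≤ ∑ n ∈ range N, 2 * ((1 - r) ^ 2 * (((n : ℝ) + 1) * r ^ n)) :=
      sum_le_sum fun n _ => h1 n
    rw [← mul_sum, ← mul_sum] at h6
    have := sum_geo_le hr0 hr1 N
    linarith

/-- Factor data: a product of `D` factors `1 - a X` with `|a| ≤ 1`. -/
theorem list_estimate (L : List ℂ) (hL : ∀ a ∈ L, ‖a‖ ≤ 1) :
    ∃ b : PowerSeries ℂ, b * (L.map fun a => 1 - C a * X).prod = 1 ∧
      (∀ n, ‖coeff n b‖ ≤ ((n : ℝ) + 1) ^ L.length) ∧
      ∀ r : ℝ, 0 ≤ r → r ≤ 1 → ∀ N,
        W N ((L.map fun a => 1 - C a * X).prod * rescale (r : ℂ) b) ≤ 2 ^ L.length ∧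
        E N ((L.map fun a => 1 - C a * X).prod * rescale (r : ℂ) b) ≤ 14 ^ L.length := by
  induction L with
  | nil =>
    refine ⟨1, by simp, fun n => ?_, fun r _ _ N => ?_⟩
    · simp only [coeff_one, List.length_nil, pow_zero]
      split_ifs <;> simp
    · simp only [List.map_nil, List.prod_nil, map_one, mul_one, List.length_nil, pow_zero]
      rcases N with _ | N
      · simp [W, E]
      · constructor
        · rw [W, sum_range_succ', sum_eq_zero]
          · simp
          · intro n _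
            rw [coeff_one]; simp
        · rw [E, sum_range_succ', sum_eq_zero]
          · simp
          · intro n _
            rw [coeff_one]; simp
  | cons a L ih =>
    obtain ⟨b, hb1, hb2, hb3⟩ := ih fun x hx => hL x (List.mem_cons_of_mem _ hx)
    have ha : ‖a‖ ≤ 1 := hL a List.mem_cons_self
    set q : PowerSeries ℂ := (L.map fun a => 1 - C a * X).prod with hq
    set geo : PowerSeries ℂ := PowerSeries.mk fun n => a ^ n with hgeo
    have hgeo1 : geo * (1 - C a * X) = 1 := by
      ext n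
      rw [mul_sub, mul_one, ← mul_assoc, mul_comm geo (C a), mul_assoc]
      rcases n with _ | n
      · simp [hgeo]
      · rw [map_sub, coeff_C_mul, coeff_succ_mul_X, hgeo, coeff_mk, coeff_mk, coeff_one]
        simp
        ring
    refine ⟨geo * b, ?_, ?_, ?_⟩
    · rw [List.map_cons, List.prod_cons]
      calc geo * b * ((1 - C a * X) * q) = (geo * (1 - C a * X)) * (b * q) := by ring
        _ = 1 := by rw [hgeo1, hb1, one_mul]
    · intro n
      rw [coeff_mul, List.length_cons]
      calc ‖∑ x ∈ antidiagonal n, coeff x.1 geo * coeff x.2 b‖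
          ≤ ∑ x ∈ antidiagonal n, ‖coeff x.1 geo * coeff x.2 b‖ := norm_sum_le _ _
        _ ≤ ∑ x ∈ antidiagonal n, ((n : ℝ) + 1) ^ L.length := by
            apply sum_le_sum
            intro x hx
            rw [Finset.HasAntidiagonal.mem_antidiagonal] at hx
            rw [norm_mul, hgeo, coeff_mk, norm_pow]
            have h1 : ‖a‖ ^ x.1 ≤ 1 := pow_le_one₀ (norm_nonneg _) ha
            have h2 : ((x.2 : ℝ) + 1) ^ L.length ≤ ((n : ℝ) + 1) ^ L.length := by
              apply pow_le_pow_left₀ (by positivity)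
              have : (x.2 : ℝ) ≤ n := by exact_mod_cast (by omega)
              linarith
            calc ‖a‖ ^ x.1 * ‖coeff x.2 b‖ ≤ 1 * ((x.2 : ℝ) + 1) ^ L.length := by
                  gcongr
                  exact hb2 _
              _ ≤ _ := by linarith
        _ = _ := by
            rw [sum_const, Finset.Nat.card_antidiagonal, nsmul_eq_mul]
            push_cast
            ring
    · intro r hr0 hr1 N
      obtain ⟨hW, hE⟩ := hb3 r hr0 hr1 N
      have h1 : (1 - C a * X) * rescale (r : ℂ) geo = gq a r := by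
        have h2 : rescale (r : ℂ) geo * (1 - C (a * r) * X) = 1 := by
          have h3 := congrArg (rescale (r : ℂ)) hgeo1
          rw [map_mul, map_sub, map_one, map_mul, rescale_X] at h3
          have h4 : rescale (r : ℂ) (C a) = C a := by
            ext n
            rw [coeff_rescale, coeff_C]
            split_ifs with h
            · rw [h]; simp
            · simp
          rw [h4] at h3
          rw [map_mul, mul_assoc]
          exact h3
        calc (1 - C a * X) * rescale (r : ℂ) geo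
            = gq a r * (rescale (r : ℂ) geo * (1 - C (a * r) * X)) := by
              rw [← gq_mul a r]; ring
          _ = gq a r := by rw [h2, mul_one]
      have h5 : ((a :: L).map fun a => 1 - C a * X).prod * rescale (r : ℂ) (geo * b)
          = gq a r * (q * rescale (r : ℂ) b) := by
        rw [List.map_cons, List.prod_cons, map_mul, ← h1]
        ring
      rw [h5, List.length_cons]
      have hW1 := W_gq_le ha hr0 hr1 N
      have hE1 := E_gq_le ha hr0 hr1 N
      have hW0 := W_nonneg N (gq a r)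
      have hE0 := E_nonneg N (gq a r)
      have hW0' := W_nonneg N (q * rescale (r : ℂ) b)
      have hE0' := E_nonneg N (q * rescale (r : ℂ) b)
      constructor
      · calc W N (gq a r * (q * rescale (r : ℂ) b)) ≤ _ := W_mul_le _ _ _
          _ ≤ 2 * 2 ^ L.length := by gcongr
          _ = _ := by ring
      · calc E N (gq a r * (q * rescale (r : ℂ) b)) ≤ _ := E_mul_le _ _ _
          _ ≤ 2 * (3 * (2 ^ L.length) ^ 2 + 14 ^ L.length * 2 ^ 2) := by gcongr
          _ ≤ 14 ^ (L.length + 1) := by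
              have h6 : ((2 : ℝ) ^ L.length) ^ 2 ≤ 14 ^ L.length := by
                rw [← pow_mul, mul_comm, pow_mul]
                exact pow_le_pow_left₀ (by norm_num) (by norm_num) _
              have h7 : (14 : ℝ) ^ (L.length + 1) = 14 * 14 ^ L.length := by ring
              rw [h7]
              linarith

/-- The one-variable estimate. -/
theorem poly_estimate (p : Polynomial ℂ) (hp0 : p.coeff 0 = 1)
    (hp : ∀ z : ℂ, ‖z‖ < 1 → p.eval z ≠ 0) :
    ∃ b : PowerSeries ℂ, b * (p : PowerSeries ℂ) = 1 ∧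
      (∀ n, ‖coeff n b‖ ≤ ((n : ℝ) + 1) ^ p.natDegree) ∧
      ∀ r : ℝ, 0 ≤ r → r ≤ 1 → ∀ N,
        E N ((p : PowerSeries ℂ) * rescale (r : ℂ) b) ≤ 14 ^ p.natDegree := by
  have hroots : ∀ a ∈ p.roots, 1 ≤ ‖a‖ := by
    intro a ha
    by_contra hcon
    push Not at hcon
    exact hp a hcon (Polynomial.isRoot_of_mem_roots ha)
  have hne0 : p ≠ 0 := by
    intro h
    rw [h] at hp0
    simp at hp0
  have hsplit : p = Polynomial.C p.leadingCoeff * (p.roots.map fun a => Polynomial.X - Polynomial.C a).prod :=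
    (IsAlgClosed.splits p).eq_prod_roots
  set L : List ℂ := p.roots.toList.map (fun a => a⁻¹) with hL
  have hLlen : L.length = p.natDegree := by
    rw [hL, List.length_map, Multiset.length_toList]
    exact (IsAlgClosed.splits p).natDegree_eq_card_roots.symm
  have hLn : ∀ a ∈ L, ‖a‖ ≤ 1 := by
    intro a ha
    rw [hL, List.mem_map] at ha
    obtain ⟨b, hb, rfl⟩ := ha
    rw [Multiset.mem_toList] at hb
    rw [norm_inv]
    exact inv_le_one_of_one_le₀ (hroots b hb)
  have hprod : p = (L.map fun a => 1 - Polynomial.C a * Polynomial.X).prod := by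
    have h1 : ∀ M : List ℂ, (∀ a ∈ M, a ≠ 0) →
        (M.map fun a => Polynomial.X - Polynomial.C a).prod
          = Polynomial.C ((M.map fun a => -a).prod) *
            ((M.map fun a => a⁻¹).map fun a => 1 - Polynomial.C a * Polynomial.X).prod := by
      intro M
      induction M with
      | nil => intro _; simp
      | cons a M ih =>
        intro hM
        have ha : a ≠ 0 := hM a List.mem_cons_self
        rw [List.map_cons, List.prod_cons, ih fun x hx => hM x (List.mem_cons_of_mem _ hx),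
          List.map_cons, List.prod_cons, List.map_cons, List.map_cons, List.prod_cons, map_mul]
        have h2 : (Polynomial.X - Polynomial.C a : Polynomial ℂ)
            = Polynomial.C (-a) * (1 - Polynomial.C a⁻¹ * Polynomial.X) := by
          rw [mul_sub, mul_one, ← mul_assoc, ← Polynomial.C_mul]
          rw [show -a * a⁻¹ = -1 by field_simp]
          simp
          ring
        rw [h2]
        ring
    have h2 : p = Polynomial.C (p.leadingCoeff * (p.roots.toList.map fun a => -a).prod) *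
        (L.map fun a => 1 - Polynomial.C a * Polynomial.X).prod := by
      conv_lhs => rw [hsplit]
      have h3 : (p.roots.map fun a => Polynomial.X - Polynomial.C a).prod
          = (p.roots.toList.map fun a => Polynomial.X - Polynomial.C a).prod := by
        conv_lhs => rw [← Multiset.coe_toList p.roots]
        rw [Multiset.map_coe, Multiset.prod_coe]
      rw [h3, h1 p.roots.toList, ← mul_assoc, ← Polynomial.C_mul]
      intro a ha
      rw [Multiset.mem_toList] at ha
      intro h0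
      have := hroots a ha
      rw [h0, norm_zero] at this
      linarith
    have h4 : ∀ M : List ℂ, (M.map fun a => 1 - Polynomial.C a * Polynomial.X).prod.coeff 0 = 1 := by
      intro M
      induction M with
      | nil => simp
      | cons a M ih =>
        rw [List.map_cons, List.prod_cons, Polynomial.mul_coeff_zero, ih]
        simp
    have h5 : p.leadingCoeff * (p.roots.toList.map fun a => -a).prod = 1 := by
      have h6 : p.coeff 0 = (Polynomial.C (p.leadingCoeff * (p.roots.toList.map fun a => -a).prod) *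
        (L.map fun a => 1 - Polynomial.C a * Polynomial.X).prod).coeff 0 := by
        rw [← h2]
      rw [hp0, Polynomial.coeff_C_mul, h4, mul_one] at h6
      exact h6.symm
    rw [h5] at h2
    simpa using h2
  obtain ⟨b, hb1, hb2, hb3⟩ := list_estimate L hLn
  have hcoe : (p : PowerSeries ℂ) = (L.map fun a => 1 - C a * X).prod := by
    conv_lhs => rw [hprod]
    rw [← Polynomial.coeToPowerSeries.ringHom_apply, map_list_prod, List.map_map]
    congr 1
    apply List.map_congr_left
    intro a _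
    rw [Function.comp_apply, Polynomial.coeToPowerSeries.ringHom_apply, Polynomial.coe_sub,
      Polynomial.coe_mul, Polynomial.coe_one, Polynomial.coe_C, Polynomial.coe_X]
  rw [← hLlen]
  refine ⟨b, by rw [hcoe]; exact hb1, hb2, fun r hr0 hr1 N => ?_⟩
  rw [hcoe]
  exact (hb3 r hr0 hr1 N).2

end Pool.Agent.Helper49.OneVar
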