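import Mathlib

/-! Parseval's identity for polynomials on the torus. -/

set_option autoImplicit false

namespace Pool.Agent.Helper49.Torus

open MeasureTheory AddCircle MvPolynomial
open scoped ENNReal ComplexConjugate

variable {d : ℕ}

/-- Normalised Haar measure on the torus. -/
noncomputable def tm (d : ℕ) : Measure (Fin d → UnitAddCircle) :=
  Measure.pi fun _ => haarAddCircle

instance : IsProbabilityMeasure (tm d) := by unfold tm; infer_instance

/-- The point of `𝕋^d ⊂ ℂ^d` with given angles. -/
noncomputable def tor (x : Fin d → UnitAddCircle) : Fin d → ℂ := fun j => (fourier 1 (x j) : ℂ)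

theorem norm_tor (x : Fin d → UnitAddCircle) (j : Fin d) : ‖tor x j‖ = 1 := by
  exact Circle.norm_coe _

theorem tor_pow (x : Fin d → UnitAddCircle) (j : Fin d) (n : ℕ) :
    tor x j ^ n = (fourier (n : ℤ) (x j) : ℂ) := by
  simp only [tor, fourier_apply, natCast_zsmul, one_smul, toCircle_nsmul, Circle.coe_pow]

theorem int_fourier (n : ℤ) : ∫ x : UnitAddCircle, (fourier n x : ℂ) ∂haarAddCircle
    = if n = 0 then 1 else 0 := by
  split_ifs with h
  · simp [h]
  · exact integral_eq_zero_of_add_right_eq_neg (μ := haarAddCircle)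
      (fourier_add_half_inv_index h (Fact.out : (0 : ℝ) < 1))

theorem int_char (n : Fin d → ℤ) : ∫ x, ∏ j, (fourier (n j) (x j) : ℂ) ∂(tm d)
    = if n = 0 then 1 else 0 := by
  rw [tm, integral_fintype_prod_eq_prod (fun j x => (fourier (n j) x : ℂ))]
  simp only [int_fourier]
  split_ifs with h
  · simp [h]
  · obtain ⟨j, hj⟩ : ∃ j, n j ≠ 0 := by
      by_contra hcon
      push Not at hcon
      exact h (funext hcon)
    exact Finset.prod_eq_zero (Finset.mem_univ j) (if_neg hj)

theorem continuous_tor : Continuous (tor : (Fin d → UnitAddCircle) → (Fin d → ℂ)) := by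
  refine continuous_pi fun j => ?_
  exact (fourier (T := (1 : ℝ)) 1).continuous.comp (continuous_apply j)

theorem continuous_eval_tor (Q : MvPolynomial (Fin d) ℂ) :
    Continuous fun x => eval (tor x) Q :=
  (MvPolynomial.continuous_eval Q).comp continuous_tor

theorem eval_tor (Q : MvPolynomial (Fin d) ℂ) (x : Fin d → UnitAddCircle) :
    eval (tor x) Q = ∑ α ∈ Q.support, Q.coeff α * ∏ j, (fourier ((α j : ℕ) : ℤ) (x j) : ℂ) := by
  rw [eval_eq']
  apply Finset.sum_congr rfl
  intro α _
  simp only [tor_pow]

theorem integrable_cont {f : (Fin d → UnitAddCircle) → ℂ} (hf : Continuous f) :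
    Integrable f (tm d) := by
  obtain ⟨C, hC⟩ := isCompact_univ.exists_bound_of_continuousOn hf.continuousOn
  exact Integrable.of_bound hf.aestronglyMeasurable C (Filter.Eventually.of_forall fun x =>
    hC x (Set.mem_univ x))

theorem integrable_cont_real {f : (Fin d → UnitAddCircle) → ℝ} (hf : Continuous f) :
    Integrable f (tm d) := by
  obtain ⟨C, hC⟩ := isCompact_univ.exists_bound_of_continuousOn hf.continuousOn
  exact Integrable.of_bound hf.aestronglyMeasurable C (Filter.Eventually.of_forall fun x =>
    hC x (Set.mem_univ x))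

/-- **Parseval** -/
theorem parseval (Q : MvPolynomial (Fin d) ℂ) :
    ∫ x, ‖eval (tor x) Q‖ ^ 2 ∂(tm d) = ∑ α ∈ Q.support, ‖Q.coeff α‖ ^ 2 := by
  have h1 : ∀ x, ((‖eval (tor x) Q‖ ^ 2 : ℝ) : ℂ)
      = ∑ α ∈ Q.support, ∑ β ∈ Q.support, (Q.coeff α * conj (Q.coeff β)) *
        ∏ j, (fourier ((α j : ℤ) - (β j : ℤ)) (x j) : ℂ) := by
    intro x
    rw [← Complex.normSq_eq_norm_sq, Complex.normSq_eq_conj_mul_self, mul_comm, eval_tor,
      map_sum, Finset.sum_mul_sum]
    apply Finset.sum_congr rfl
    intro α _
    apply Finset.sum_congr rfl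
    intro β _
    rw [map_mul, map_prod]
    have h2 : ∏ j, (fourier ((α j : ℤ) - (β j : ℤ)) (x j) : ℂ)
        = (∏ j, (fourier (α j : ℤ) (x j) : ℂ)) * ∏ j, conj (fourier (β j : ℤ) (x j) : ℂ) := by
      rw [← Finset.prod_mul_distrib]
      apply Finset.prod_congr rfl
      intro j _
      rw [sub_eq_add_neg, fourier_add, fourier_neg]
    rw [h2]
    ring
  have h2 : ((∫ x, ‖eval (tor x) Q‖ ^ 2 ∂(tm d) : ℝ) : ℂ)
      = ((∑ α ∈ Q.support, ‖Q.coeff α‖ ^ 2 : ℝ) : ℂ) := by
    rw [← integral_complex_ofReal]
    simp only [h1]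
    rw [integral_finsetSum]
    · push_cast
      apply Finset.sum_congr rfl
      intro α hα
      rw [integral_finsetSum]
      · simp only [integral_const_mul, int_char]
        rw [Finset.sum_eq_single α]
        · rw [if_pos (by funext j; simp), mul_one, ← Complex.ofReal_pow,
            ← Complex.normSq_eq_norm_sq, Complex.normSq_eq_conj_mul_self, mul_comm]
        · intro β _ hβ
          rw [if_neg, mul_zero]
          intro h
          apply hβ
          ext j
          have := congrFun h j
          simp only [Pi.zero_apply] at this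
          omega
        · intro h
          exact absurd hα h
      · intro β _
        apply integrable_cont
        fun_prop
    · intro α _
      apply integrable_finsetSum
      intro β _
      apply integrable_cont
      fun_prop
  exact_mod_cast h2

/-- A polynomial bounded by `B` on the torus has `ℓ²` coefficient norm at most `B`. -/
theorem sum_sq_le (Q : MvPolynomial (Fin d) ℂ) {B : ℝ}
    (hB : ∀ x, ‖eval (tor x) Q‖ ^ 2 ≤ B) :
    ∑ α ∈ Q.support, ‖Q.coeff α‖ ^ 2 ≤ B := by
  rw [← parseval]
  calc ∫ x, ‖eval (tor x) Q‖ ^ 2 ∂(tm d) ≤ ∫ _x, B ∂(tm d) := by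
        apply integral_mono
        · exact integrable_cont_real ((continuous_eval_tor Q).norm.pow 2)
        · exact integrable_const _
        · intro x; exact hB x
    _ = B := by simp

end Pool.Agent.Helper49.Torus
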