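import Mathlib
import Pool.Agent.Helper49.CycMain
import Pool.Agent.Helper49.CycOneVar
import Pool.Agent.Helper49.CycTorus

/-! Polynomials without zeros in the open polydisk are shift-cyclic in `𝓓_t` for
`t ≤ 1 / (number of variables involved)`. -/

set_option autoImplicit false

namespace Pool.Agent.Helper49.Univ

open scoped ENNReal InnerProductSpace
open Filter Topology MvPolynomial Finset
open Pool.Agent.Helper49.Cyc Pool.Agent.Helper49.Torus

variable {d : ℕ}

/-- weak convergence from boundedness and coordinatewise convergence -/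
theorem tendsto_inner_of_bounded (φ : HH d) (x : ℕ → HH d) (y : HH d) (C : ℝ)
    (hb : ∀ m, ‖x m‖ ≤ C) (hc : ∀ α, Tendsto (fun m => x m α) atTop (𝓝 (y α))) :
    Tendsto (fun m => ⟪φ, x m⟫_ℂ) atTop (𝓝 ⟪φ, y⟫_ℂ) := by
  classical
  rw [Metric.tendsto_atTop]
  intro ε hε
  have hC : 0 ≤ C := (norm_nonneg _).trans (hb 0)
  set K : ℝ := C + ‖y‖ + 1 with hK
  have hKpos : 0 < K := by positivity
  have h1 := lp.hasSum_single (p := 2) (by norm_num) φ
  obtain ⟨s, hs⟩ := (Metric.tendsto_atTop.1 h1) (ε / (2 * K)) (by positivity)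
  have h2 := hs s le_rfl
  rw [dist_eq_norm] at h2
  set φs : HH d := ∑ α ∈ s, lp.single 2 α (φ α) with hφs
  have h3 : Tendsto (fun m => ⟪φs, x m⟫_ℂ) atTop (𝓝 ⟪φs, y⟫_ℂ) := by
    have h4 : ∀ z : HH d, ⟪φs, z⟫_ℂ = ∑ α ∈ s, ⟪φ α, z α⟫_ℂ := by
      intro z
      rw [hφs, sum_inner]
      apply Finset.sum_congr rfl
      intro α _
      exact lp.inner_single_left (𝕜 := ℂ) (G := fun _ : Fin d →₀ ℕ => ℂ) α (φ α) z
    simp only [h4]
    apply tendsto_finsetSum
    intro α _
    exact (tendsto_const_nhds (x := φ α)).inner (hc α)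
  obtain ⟨N, hN⟩ := (Metric.tendsto_atTop.1 h3) (ε / 2) (by positivity)
  refine ⟨N, fun m hm => ?_⟩
  have h5 := hN m hm
  rw [dist_eq_norm] at h5 ⊢
  have h6 : ⟪φ, x m⟫_ℂ - ⟪φ, y⟫_ℂ
      = (⟪φs, x m⟫_ℂ - ⟪φs, y⟫_ℂ) - ⟪φs - φ, x m - y⟫_ℂ := by
    rw [inner_sub_left, inner_sub_right, inner_sub_right]
    ring
  rw [h6]
  have h7 : ‖⟪φs - φ, x m - y⟫_ℂ‖ ≤ ε / (2 * K) * K := by
    refine (norm_inner_le_norm _ _).trans ?_
    have h8 : ‖x m - y‖ ≤ K := by
      refine (norm_sub_le _ _).trans ?_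
      have := hb m
      linarith
    gcongr
  have h9 : ε / (2 * K) * K = ε / 2 := by field_simp
  calc ‖(⟪φs, x m⟫_ℂ - ⟪φs, y⟫_ℂ) - ⟪φs - φ, x m - y⟫_ℂ‖
      ≤ ‖⟪φs, x m⟫_ℂ - ⟪φs, y⟫_ℂ‖ + ‖⟪φs - φ, x m - y⟫_ℂ‖ := norm_sub_le _ _
    _ < ε / 2 + ε / 2 := by
        rw [h9] at h7
        linarith
    _ = ε := by ring

/-- Criterion for cyclicity: a bounded sequence of multiples of `P` converging coefficientwise
to `1`. -/
theorem shiftCyclic_of_bounded (t : ℝ) (P : MvPolynomial (Fin d) ℂ)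
    (G : ℕ → MvPolynomial (Fin d) ℂ) (C : ℝ) (hb : ∀ m, ‖J t (G m * P)‖ ≤ C)
    (hc : ∀ α, Tendsto (fun m => (G m * P).coeff α) atTop
      (𝓝 ((1 : MvPolynomial (Fin d) ℂ).coeff α))) :
    ShiftCyclic t P := by
  classical
  apply shiftCyclic_of_annihilator
  intro φ hφ
  apply eq_zero_of_forall_poly t
  intro f
  obtain ⟨K, hK, hKb⟩ := exists_multiplier_bound t f
  have h1 : Tendsto (fun m => ⟪φ, J t (G m * P * f)⟫_ℂ) atTop (𝓝 ⟪φ, J t f⟫_ℂ) := by
    apply tendsto_inner_of_bounded φ _ _ (K * C)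
    · intro m
      refine (hKb _).trans ?_
      exact mul_le_mul_of_nonneg_left (hb m) hK.le
    · intro α
      simp only [J_apply]
      apply Tendsto.const_mul
      simp only [coeff_mul]
      have h2 : f.coeff α = ∑ x ∈ antidiagonal α, (1 : MvPolynomial (Fin d) ℂ).coeff x.1 * f.coeff x.2 := by
        rw [← coeff_mul, one_mul]
      rw [h2]
      apply tendsto_finsetSum
      intro x _
      have := (hc x.1).mul_const (f.coeff x.2)
      simpa only [coeff_mul] using this
  have h2 : ∀ m, ⟪φ, J t (G m * P * f)⟫_ℂ = 0 := by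
    intro m
    have : G m * P * f = (G m * f) * P := by ring
    rw [this]
    exact hφ _
  simp only [h2] at h1
  exact (tendsto_nhds_unique h1 tendsto_const_nhds)

/-! ### Homogeneous components and the reciprocal -/

/-- homogeneous components of the reciprocal of a polynomial with constant term `1` -/
noncomputable def hh (P : MvPolynomial (Fin d) ℂ) : ℕ → MvPolynomial (Fin d) ℂ
  | 0 => 1
  | (n + 1) => - ∑ x : {x // x ∈ antidiagonal n},
      homogeneousComponent (x.1.1 + 1) P * hh P x.1.2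
  decreasing_by
    have := x.2
    rw [HasAntidiagonal.mem_antidiagonal] at this
    omega

theorem hh_zero (P : MvPolynomial (Fin d) ℂ) : hh P 0 = 1 := by rw [hh]

theorem hh_succ (P : MvPolynomial (Fin d) ℂ) (n : ℕ) :
    hh P (n + 1) = - ∑ x ∈ antidiagonal n, homogeneousComponent (x.1 + 1) P * hh P x.2 := by
  rw [hh]
  congr 1
  exact Finset.sum_coe_sort (antidiagonal n)
    (fun x => homogeneousComponent (x.1 + 1) P * hh P x.2)

theorem hh_identity (P : MvPolynomial (Fin d) ℂ) (hP : P.coeff 0 = 1) (k : ℕ) :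
    ∑ x ∈ antidiagonal k, homogeneousComponent x.1 P * hh P x.2 = if k = 0 then 1 else 0 := by
  rcases k with _ | k
  · simp [hh_zero, homogeneousComponent_zero, hP]
  · rw [Finset.Nat.sum_antidiagonal_succ, hh_succ, homogeneousComponent_zero, hP]
    simp

theorem hh_homogeneous (P : MvPolynomial (Fin d) ℂ) (n : ℕ) : (hh P n).IsHomogeneous n := by
  induction n using Nat.strong_induction_on with
  | _ n ih =>
    rcases n with _ | n
    · rw [hh_zero]; exact isHomogeneous_one _ _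
    · rw [hh_succ]
      apply IsHomogeneous.neg
      apply IsHomogeneous.sum
      intro x hx
      rw [HasAntidiagonal.mem_antidiagonal] at hx
      have h1 := (homogeneousComponent_isHomogeneous (x.1 + 1) P).mul (ih x.2 (by omega))
      rwa [show x.1 + 1 + x.2 = n + 1 by omega] at h1

theorem hc_supported (P : MvPolynomial (Fin d) ℂ) (n : ℕ) :
    homogeneousComponent n P ∈ supported ℂ (P.vars : Set (Fin d)) := by
  classical
  rw [mem_supported]
  intro j hj
  rw [Finset.mem_coe, mem_vars_iff_mem_support] at hj ⊢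
  obtain ⟨α, hα, hαj⟩ := hj
  refine ⟨α, ?_, hαj⟩
  rw [mem_support_iff, coeff_homogeneousComponent] at hα
  rw [mem_support_iff]
  intro h
  rw [h] at hα
  simp at hα

theorem hh_supported (P : MvPolynomial (Fin d) ℂ) (n : ℕ) :
    hh P n ∈ supported ℂ (P.vars : Set (Fin d)) := by
  induction n using Nat.strong_induction_on with
  | _ n ih =>
    rcases n with _ | n
    · rw [hh_zero]; exact one_mem _
    · rw [hh_succ]
      apply neg_mem
      apply sum_mem
      intro x hx
      rw [HasAntidiagonal.mem_antidiagonal] at hx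
      exact mul_mem (hc_supported P _) (ih x.2 (by omega))

/-- the one-variable slice `λ ↦ P(λ ζ)` -/
noncomputable def sl (P : MvPolynomial (Fin d) ℂ) (ζ : Fin d → ℂ) : Polynomial ℂ :=
  ∑ i ∈ range (P.totalDegree + 1), Polynomial.C (eval ζ (homogeneousComponent i P)) * Polynomial.X ^ i

theorem coeff_sl (P : MvPolynomial (Fin d) ℂ) (ζ : Fin d → ℂ) (n : ℕ) :
    (sl P ζ).coeff n = eval ζ (homogeneousComponent n P) := by
  unfold sl
  rw [Polynomial.finsetSum_coeff]
  simp only [Polynomial.coeff_C_mul, Polynomial.coeff_X_pow, mul_ite, mul_one, mul_zero]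
  rw [Finset.sum_ite_eq]
  split_ifs with h
  · rfl
  · rw [Finset.mem_range, not_lt] at h
    rw [homogeneousComponent_eq_zero _ _ (by omega), map_zero]

theorem eval_smul_homogeneous {Q : MvPolynomial (Fin d) ℂ} {n : ℕ} (hQ : Q.IsHomogeneous n)
    (a : ℂ) (ζ : Fin d → ℂ) : eval (fun j => a * ζ j) Q = a ^ n * eval ζ Q := by
  rw [eval_eq', eval_eq', Finset.mul_sum]
  apply Finset.sum_congr rfl
  intro α hα
  have h1 : ∏ j, (a * ζ j) ^ α j = a ^ n * ∏ j, ζ j ^ α j := by
    simp only [mul_pow]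
    rw [Finset.prod_mul_distrib, Finset.prod_pow_eq_pow_sum]
    congr 2
    have := hQ (mem_support_iff.1 hα)
    rw [← this, Finsupp.weight_apply, Finsupp.sum_fintype _ _ (by simp)]
    simp
  rw [h1]
  ring

theorem eval_sl (P : MvPolynomial (Fin d) ℂ) (ζ : Fin d → ℂ) (a : ℂ) :
    (sl P ζ).eval a = eval (fun j => a * ζ j) P := by
  conv_rhs => rw [← sum_homogeneousComponent P]
  unfold sl
  rw [Polynomial.eval_finsetSum, map_sum]
  apply Finset.sum_congr rfl
  intro i _
  rw [eval_smul_homogeneous (homogeneousComponent_isHomogeneous i P)]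
  simp
  ring

theorem natDegree_sl_le (P : MvPolynomial (Fin d) ℂ) (ζ : Fin d → ℂ) :
    (sl P ζ).natDegree ≤ P.totalDegree := by
  rw [Polynomial.natDegree_le_iff_coeff_eq_zero]
  intro n hn
  rw [coeff_sl, homogeneousComponent_eq_zero _ _ hn, map_zero]

/-- Estimates for the slices of a polynomial without zeros in the polydisk. -/
theorem slice_estimate (P : MvPolynomial (Fin d) ℂ) (hP : P.coeff 0 = 1)
    (hz : ∀ z : Fin d → ℂ, (∀ j, ‖z j‖ < 1) → eval z P ≠ 0) (ζ : Fin d → ℂ)
    (hζ : ∀ j, ‖ζ j‖ ≤ 1) :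
    (∀ n, ‖eval ζ (hh P n)‖ ≤ ((n : ℝ) + 1) ^ P.totalDegree) ∧
    ∀ r : ℝ, 0 ≤ r → r ≤ 1 → ∀ N, ∑ k ∈ range N, (1 + (k : ℝ)) *
      ‖∑ x ∈ antidiagonal k, eval ζ (homogeneousComponent x.1 P) *
        ((r : ℂ) ^ x.2 * eval ζ (hh P x.2))‖ ^ 2 ≤ 14 ^ P.totalDegree := by
  have h0 : (sl P ζ).coeff 0 = 1 := by
    rw [coeff_sl, homogeneousComponent_zero, hP]; simp
  have hnz : ∀ z : ℂ, ‖z‖ < 1 → (sl P ζ).eval z ≠ 0 := by
    intro z hz1
    rw [eval_sl]
    apply hz
    intro j
    rw [norm_mul]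
    have := hζ j
    nlinarith [norm_nonneg (ζ j), norm_nonneg z]
  obtain ⟨b, hb1, hb2, hb3⟩ := OneVar.poly_estimate (sl P ζ) h0 hnz
  have hbeq : b = PowerSeries.mk fun n => eval ζ (hh P n) := by
    have h1 : (PowerSeries.mk fun n => eval ζ (hh P n)) * (sl P ζ : PowerSeries ℂ) = 1 := by
      ext k
      rw [PowerSeries.coeff_mul, ← Finset.Nat.sum_antidiagonal_swap]
      simp only [Prod.fst_swap, Prod.snd_swap, PowerSeries.coeff_mk, Polynomial.coeff_coe, coeff_sl]
      have h2 := congrArg (eval ζ) (hh_identity P hP k)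
      rw [map_sum] at h2
      simp only [map_mul] at h2
      rw [PowerSeries.coeff_one]
      calc ∑ x ∈ antidiagonal k, eval ζ (hh P x.2) * eval ζ (homogeneousComponent x.1 P)
          = ∑ x ∈ antidiagonal k, eval ζ (homogeneousComponent x.1 P) * eval ζ (hh P x.2) :=
            Finset.sum_congr rfl fun x _ => mul_comm _ _
        _ = _ := by rw [h2]; split_ifs <;> simp
    calc b = b * ((PowerSeries.mk fun n => eval ζ (hh P n)) * (sl P ζ : PowerSeries ℂ)) := by
          rw [h1, mul_one]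
      _ = (b * (sl P ζ : PowerSeries ℂ)) * (PowerSeries.mk fun n => eval ζ (hh P n)) := by ring
      _ = _ := by rw [hb1, one_mul]
  have hdeg := natDegree_sl_le P ζ
  constructor
  · intro n
    have h1 := hb2 n
    rw [hbeq, PowerSeries.coeff_mk] at h1
    refine h1.trans ?_
    apply pow_le_pow_right₀ _ hdeg
    have : (0 : ℝ) ≤ n := Nat.cast_nonneg n
    linarith
  · intro r hr0 hr1 N
    have h1 := hb3 r hr0 hr1 N
    rw [hbeq] at h1
    have h2 : (14 : ℝ) ^ (sl P ζ).natDegree ≤ 14 ^ P.totalDegree :=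
      pow_le_pow_right₀ (by norm_num) hdeg
    refine le_trans (le_of_eq ?_) (h1.trans h2)
    unfold OneVar.E
    apply Finset.sum_congr rfl
    intro k _
    congr 3
    rw [PowerSeries.coeff_mul]
    simp only [PowerSeries.coeff_rescale, PowerSeries.coeff_mk, Polynomial.coeff_coe, coeff_sl]

end Pool.Agent.Helper49.Univ
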