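import Mathlib
import Pool.Agent.Helper49.CycUniv

set_option autoImplicit false

namespace Pool.Agent.Helper49.Univ

open scoped ENNReal InnerProductSpace
open Filter Topology MvPolynomial Finset
open Pool.Agent.Helper49.Cyc Pool.Agent.Helper49.Torus

variable {d : ℕ}

/-- truncated dilated reciprocal -/
noncomputable def FF (P : MvPolynomial (Fin d) ℂ) (r : ℝ) (M : ℕ) : MvPolynomial (Fin d) ℂ :=
  ∑ n ∈ range (M + 1), C ((r : ℂ) ^ n) * hh P n

theorem FF_term_homogeneous (P : MvPolynomial (Fin d) ℂ) (r : ℝ) (n : ℕ) :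
    (C ((r : ℂ) ^ n) * hh P n).IsHomogeneous n := by
  have := (isHomogeneous_C (Fin d) ((r : ℂ) ^ n)).mul (hh_homogeneous P n)
  rwa [zero_add] at this

theorem hc_FF (P : MvPolynomial (Fin d) ℂ) (r : ℝ) (M k : ℕ) :
    homogeneousComponent k (FF P r M * P) = ∑ x ∈ antidiagonal k,
      if x.2 ≤ M then homogeneousComponent x.1 P * (C ((r : ℂ) ^ x.2) * hh P x.2) else 0 := by
  have h1 : FF P r M * P = ∑ n ∈ range (M + 1), ∑ i ∈ range (P.totalDegree + 1),
      homogeneousComponent i P * (C ((r : ℂ) ^ n) * hh P n) := by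
    conv_lhs => rw [← sum_homogeneousComponent P]
    rw [sum_homogeneousComponent, FF, Finset.sum_mul]
    apply Finset.sum_congr rfl
    intro n _
    rw [← Finset.sum_mul, sum_homogeneousComponent, mul_comm]
  rw [h1, map_sum]
  have h2 : ∀ n, homogeneousComponent k (∑ i ∈ range (P.totalDegree + 1),
      homogeneousComponent i P * (C ((r : ℂ) ^ n) * hh P n))
      = if n ≤ k then homogeneousComponent (k - n) P * (C ((r : ℂ) ^ n) * hh P n) else 0 := by
    intro n
    rw [map_sum]
    have h3 : ∀ i, homogeneousComponent k (homogeneousComponent i P * (C ((r : ℂ) ^ n) * hh P n))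
        = if k = i + n then homogeneousComponent i P * (C ((r : ℂ) ^ n) * hh P n) else 0 := by
      intro i
      rw [homogeneousComponent_of_mem]
      exact (homogeneousComponent_isHomogeneous i P).mul (FF_term_homogeneous P r n)
    simp only [h3]
    split_ifs with h
    · by_cases hD : k - n ≤ P.totalDegree
      · rw [Finset.sum_eq_single (k - n)]
        · rw [if_pos (by omega)]
        · intro i _ hi
          rw [if_neg (by omega)]
        · intro hh
          rw [Finset.mem_range] at hh
          omega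
      · rw [homogeneousComponent_eq_zero _ _ (by omega), zero_mul]
        apply Finset.sum_eq_zero
        intro i hi
        rw [Finset.mem_range] at hi
        rw [if_neg (by omega)]
    · apply Finset.sum_eq_zero
      intro i _
      rw [if_neg (by omega)]
  simp only [h2]
  rw [← Finset.Nat.sum_antidiagonal_swap]
  simp only [Prod.fst_swap, Prod.snd_swap]
  rw [Finset.Nat.sum_antidiagonal_eq_sum_range_succ
    (fun a b => if a ≤ M then homogeneousComponent b P * (C ((r : ℂ) ^ a) * hh P a) else 0)]
  have h4 : ∑ n ∈ range (M + 1), (if n ≤ k then homogeneousComponent (k - n) P *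
      (C ((r : ℂ) ^ n) * hh P n) else 0)
      = ∑ n ∈ (range (M + 1)).filter (fun n => n ≤ k), homogeneousComponent (k - n) P *
      (C ((r : ℂ) ^ n) * hh P n) := by
    rw [Finset.sum_filter]
  have h5 : ∑ n ∈ range (k + 1), (if n ≤ M then homogeneousComponent (k - n) P *
      (C ((r : ℂ) ^ n) * hh P n) else 0)
      = ∑ n ∈ (range (k + 1)).filter (fun n => n ≤ M), homogeneousComponent (k - n) P *
      (C ((r : ℂ) ^ n) * hh P n) := by
    rw [Finset.sum_filter]
  rw [Nat.succ_eq_add_one, h4, h5]
  apply Finset.sum_congr _ (fun _ _ => rfl)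
  ext n
  simp only [Finset.mem_filter, Finset.mem_range]
  omega

/-- The Dirichlet-type norm of `F` in terms of its homogeneous components. -/
theorem sum_weighted_le (Q : MvPolynomial (Fin d) ℂ) {B : ℝ} {N : ℕ} (hN : Q.totalDegree < N)
    (hB : ∀ ζ : Fin d → ℂ, (∀ j, ‖ζ j‖ ≤ 1) → ∑ k ∈ range N, (1 + (k : ℝ)) *
      ‖eval ζ (homogeneousComponent k Q)‖ ^ 2 ≤ B) :
    ∑ α ∈ Q.support, (1 + (α.degree : ℝ)) * ‖Q.coeff α‖ ^ 2 ≤ B := by
  classical
  have h1 : ∑ α ∈ Q.support, (1 + (α.degree : ℝ)) * ‖Q.coeff α‖ ^ 2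
      = ∑ k ∈ range N, (1 + (k : ℝ)) * ∑ α ∈ (homogeneousComponent k Q).support,
        ‖(homogeneousComponent k Q).coeff α‖ ^ 2 := by
    rw [← Finset.sum_fiberwise_of_maps_to (g := fun α : Fin d →₀ ℕ => α.degree) (t := range N)]
    · apply Finset.sum_congr rfl
      intro k _
      rw [Finset.mul_sum]
      have h2 : (homogeneousComponent k Q).support = Q.support.filter (fun α => α.degree = k) := by
        ext α
        rw [mem_support_iff, coeff_homogeneousComponent, Finset.mem_filter, mem_support_iff]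
        split_ifs with h <;> simp [h]
      rw [h2]
      apply Finset.sum_congr rfl
      intro α hα
      rw [Finset.mem_filter] at hα
      rw [coeff_homogeneousComponent, if_pos hα.2, hα.2]
    · intro α hα
      rw [Finset.mem_range]
      refine lt_of_le_of_lt ?_ hN
      have := le_totalDegree hα
      rw [Finsupp.sum_fintype _ _ (by simp)] at this
      rwa [Finsupp.degree_eq_sum]
  rw [h1]
  simp only [← parseval]
  calc ∑ k ∈ range N, (1 + (k : ℝ)) * ∫ x, ‖eval (tor x) (homogeneousComponent k Q)‖ ^ 2 ∂(tm d)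
      = ∫ x, ∑ k ∈ range N, (1 + (k : ℝ)) * ‖eval (tor x) (homogeneousComponent k Q)‖ ^ 2 ∂(tm d) := by
        rw [MeasureTheory.integral_finsetSum]
        · simp only [MeasureTheory.integral_const_mul]
        · intro k _
          apply MeasureTheory.Integrable.const_mul
          exact integrable_cont_real ((continuous_eval_tor _).norm.pow 2)
    _ ≤ ∫ _x, B ∂(tm d) := by
        apply MeasureTheory.integral_mono
        · apply integrable_cont_real
          apply continuous_finsetSum
          intro k _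
          exact continuous_const.mul ((continuous_eval_tor _).norm.pow 2)
        · exact MeasureTheory.integrable_const _
        · intro x
          apply hB
          intro j
          rw [norm_tor]
    _ = B := by simp

theorem weight_le_degree {t : ℝ} {S : Finset (Fin d)} (hS : t * S.card ≤ 1) {α : Fin d →₀ ℕ}
    (hα : α.support ⊆ S) : weight t α ≤ 1 + (α.degree : ℝ) := by
  have h0 : weight t α = ∏ j ∈ S, (1 + (α j : ℝ)) ^ t := by
    unfold weight
    symm
    apply Finset.prod_subset (Finset.subset_univ S)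
    intro j _ hj
    have : α j = 0 := by
      by_contra h
      exact hj (hα (Finsupp.mem_support_iff.2 h))
    simp [this]
  have h1 : (1 : ℝ) ≤ 1 + (α.degree : ℝ) := by
    have : (0 : ℝ) ≤ (α.degree : ℝ) := Nat.cast_nonneg _
    linarith
  rw [h0]
  rcases le_or_gt t 0 with ht | ht
  · refine le_trans (Finset.prod_le_one (fun j _ => by positivity) ?_) h1
    intro j _
    exact Real.rpow_le_one_of_one_le_of_nonpos (by simp) ht
  · calc ∏ j ∈ S, (1 + (α j : ℝ)) ^ t ≤ ∏ _j ∈ S, (1 + (α.degree : ℝ)) ^ t := by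
          apply Finset.prod_le_prod
          · intro j _; positivity
          · intro j _
            apply Real.rpow_le_rpow (by positivity) _ ht.le
            have : α j ≤ α.degree := Finsupp.le_degree j α
            have h2 : (α j : ℝ) ≤ (α.degree : ℝ) := by exact_mod_cast this
            linarith
      _ = (1 + (α.degree : ℝ)) ^ (t * S.card) := by
          rw [Finset.prod_const, ← Real.rpow_natCast, ← Real.rpow_mul (by linarith)]
      _ ≤ (1 + (α.degree : ℝ)) ^ (1 : ℝ) := Real.rpow_le_rpow_of_exponent_le h1 hS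
      _ = 1 + (α.degree : ℝ) := Real.rpow_one _


/-- `ℓ¹` norm of the coefficients -/
noncomputable def A1 (P : MvPolynomial (Fin d) ℂ) : ℝ := ∑ α ∈ P.support, ‖P.coeff α‖

theorem A1_nonneg (P : MvPolynomial (Fin d) ℂ) : 0 ≤ A1 P := Finset.sum_nonneg fun _ _ => norm_nonneg _

theorem norm_eval_hc_le (P : MvPolynomial (Fin d) ℂ) (ζ : Fin d → ℂ) (hζ : ∀ j, ‖ζ j‖ ≤ 1) (i : ℕ) :
    ‖eval ζ (homogeneousComponent i P)‖ ≤ A1 P := by
  classical
  rw [eval_eq']
  refine (norm_sum_le _ _).trans ?_
  have h1 : ∀ α, ‖(homogeneousComponent i P).coeff α * ∏ j, ζ j ^ α j‖ ≤ ‖P.coeff α‖ := by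
    intro α
    rw [norm_mul, norm_prod]
    have h2 : ∏ j, ‖ζ j ^ α j‖ ≤ 1 := by
      apply Finset.prod_le_one
      · intro j _; exact norm_nonneg _
      · intro j _
        rw [norm_pow]
        exact pow_le_one₀ (norm_nonneg _) (hζ j)
    have h3 : ‖(homogeneousComponent i P).coeff α‖ ≤ ‖P.coeff α‖ := by
      rw [coeff_homogeneousComponent]
      split_ifs
      · exact le_rfl
      · simp
    have h4 : 0 ≤ ∏ j, ‖ζ j ^ α j‖ := Finset.prod_nonneg fun _ _ => norm_nonneg _
    calc ‖(homogeneousComponent i P).coeff α‖ * ∏ j, ‖ζ j ^ α j‖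
        ≤ ‖P.coeff α‖ * 1 := mul_le_mul h3 h2 h4 (norm_nonneg _)
      _ = _ := mul_one _
  calc ∑ α ∈ (homogeneousComponent i P).support,
        ‖(homogeneousComponent i P).coeff α * ∏ j, ζ j ^ α j‖
      ≤ ∑ α ∈ (homogeneousComponent i P).support, ‖P.coeff α‖ := Finset.sum_le_sum fun α _ => h1 α
    _ ≤ A1 P := by
        apply Finset.sum_le_sum_of_subset_of_nonneg
        · intro α hα
          rw [mem_support_iff, coeff_homogeneousComponent] at hα
          rw [mem_support_iff]
          intro h
          rw [h] at hα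
          simp at hα
        · intro α _ _
          exact norm_nonneg _

/-- the tail bound -/
noncomputable def TT (P : MvPolynomial (Fin d) ℂ) (r : ℝ) (L : ℕ) : ℝ :=
  (P.totalDegree : ℝ) * ((L : ℝ) + 2 * P.totalDegree + 1) *
    (((L : ℝ) + 2 * P.totalDegree + 1) * (A1 P * (r ^ L *
      ((L : ℝ) + 2 * P.totalDegree + 1) ^ P.totalDegree))) ^ 2

theorem sum_hc_le (P : MvPolynomial (Fin d) ℂ) (hP : P.coeff 0 = 1)
    (hz : ∀ z : Fin d → ℂ, (∀ j, ‖z j‖ < 1) → eval z P ≠ 0) (ζ : Fin d → ℂ)
    (hζ : ∀ j, ‖ζ j‖ ≤ 1) (r : ℝ) (hr0 : 0 ≤ r) (hr1 : r ≤ 1) (L : ℕ) :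
    ∑ k ∈ range (L + P.totalDegree + 1 + P.totalDegree), (1 + (k : ℝ)) *
      ‖eval ζ (homogeneousComponent k (FF P r (L + P.totalDegree) * P))‖ ^ 2
      ≤ 14 ^ P.totalDegree + TT P r L := by
  obtain ⟨hb, he⟩ := slice_estimate P hP hz ζ hζ
  set D := P.totalDegree with hD
  rw [Finset.sum_range_add]
  apply add_le_add
  · refine le_trans (le_of_eq ?_) (he r hr0 hr1 (L + D + 1))
    apply Finset.sum_congr rfl
    intro k hk
    rw [Finset.mem_range] at hk
    rw [hc_FF, map_sum]
    congr 3
    apply Finset.sum_congr rfl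
    intro x hx
    rw [HasAntidiagonal.mem_antidiagonal] at hx
    rw [if_pos (by omega)]
    simp
  · have h1 : ∀ k < D, (1 + ((L + D + 1 + k : ℕ) : ℝ)) *
        ‖eval ζ (homogeneousComponent (L + D + 1 + k) (FF P r (L + D) * P))‖ ^ 2
        ≤ ((L : ℝ) + 2 * D + 1) * (((L : ℝ) + 2 * D + 1) * (A1 P * (r ^ L *
      ((L : ℝ) + 2 * D + 1) ^ D))) ^ 2 := by
      intro k hk
      have hkD : (k : ℝ) + 1 ≤ D := by exact_mod_cast hk
      have h2 : ‖eval ζ (homogeneousComponent (L + D + 1 + k) (FF P r (L + D) * P))‖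
          ≤ ((L : ℝ) + 2 * D + 1) * (A1 P * (r ^ L * ((L : ℝ) + 2 * D + 1) ^ D)) := by
        rw [hc_FF, map_sum]
        have h3 : ∀ x ∈ antidiagonal (L + D + 1 + k),
            ‖eval ζ (if x.2 ≤ L + D then homogeneousComponent x.1 P *
              (C ((r : ℂ) ^ x.2) * hh P x.2) else 0)‖
            ≤ if x.2 ≤ L + D then A1 P * (r ^ L * ((L : ℝ) + 2 * D + 1) ^ D) else 0 := by
          intro x hx
          rw [HasAntidiagonal.mem_antidiagonal] at hx
          split_ifs with hxM
          · by_cases hx1 : x.1 ≤ D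
            · rw [map_mul, map_mul, norm_mul, norm_mul, eval_C, norm_pow, Complex.norm_real,
                Real.norm_of_nonneg hr0]
              apply mul_le_mul (norm_eval_hc_le P ζ hζ _) _ (by positivity) (A1_nonneg P)
              apply mul_le_mul _ _ (norm_nonneg _) (by positivity)
              · exact pow_le_pow_of_le_one hr0 hr1 (by omega)
              · refine (hb x.2).trans ?_
                apply pow_le_pow_left₀ (by positivity)
                have : (x.2 : ℝ) ≤ L + D := by exact_mod_cast hxM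
                have hD0 : (0 : ℝ) ≤ D := Nat.cast_nonneg _
                linarith
            · rw [homogeneousComponent_eq_zero _ _ (by omega), zero_mul, map_zero, norm_zero]
              have := A1_nonneg P
              positivity
          · simp
        refine (norm_sum_le _ _).trans ((Finset.sum_le_sum h3).trans ?_)
        rw [← Finset.sum_filter, Finset.sum_const, nsmul_eq_mul]
        have hA := A1_nonneg P
        apply mul_le_mul_of_nonneg_right _ (by positivity)
        have h4 : ((antidiagonal (L + D + 1 + k)).filter (fun x => x.2 ≤ L + D)).card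
            ≤ L + D + 1 := by
          calc ((antidiagonal (L + D + 1 + k)).filter (fun x => x.2 ≤ L + D)).card
              ≤ (range (L + D + 1)).card := by
                apply Finset.card_le_card_of_injOn (fun x => x.2)
                · intro x hx
                  have hx' := (Finset.mem_filter.1 (Finset.mem_coe.1 hx)).2
                  simp only [Finset.coe_range, Set.mem_Iio]
                  omega
                · intro x hx y hy hxy
                  have hx' := (Finset.mem_filter.1 (Finset.mem_coe.1 hx)).1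
                  have hy' := (Finset.mem_filter.1 (Finset.mem_coe.1 hy)).1
                  rw [HasAntidiagonal.mem_antidiagonal] at hx' hy'
                  ext
                  · simp only at hxy
                    omega
                  · exact hxy
            _ = L + D + 1 := Finset.card_range _
        have h5 : (((antidiagonal (L + D + 1 + k)).filter (fun x => x.2 ≤ L + D)).card : ℝ)
            ≤ ((L + D + 1 : ℕ) : ℝ) := by exact_mod_cast h4
        refine h5.trans ?_
        push_cast
        have hD0 : (0 : ℝ) ≤ D := Nat.cast_nonneg _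
        linarith
      apply mul_le_mul _ _ (by positivity) (by positivity)
      · push_cast
        linarith
      · exact pow_le_pow_left₀ (norm_nonneg _) h2 2
    calc ∑ k ∈ range D, (1 + ((L + D + 1 + k : ℕ) : ℝ)) *
        ‖eval ζ (homogeneousComponent (L + D + 1 + k) (FF P r (L + D) * P))‖ ^ 2
        ≤ ∑ _k ∈ range D, ((L : ℝ) + 2 * D + 1) * (((L : ℝ) + 2 * D + 1) * (A1 P * (r ^ L *
      ((L : ℝ) + 2 * D + 1) ^ D))) ^ 2 :=
          Finset.sum_le_sum fun k hk => h1 k (Finset.mem_range.1 hk)
      _ = TT P r L := by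
          rw [Finset.sum_const, Finset.card_range, nsmul_eq_mul, TT]
          ring

theorem tendsto_TT (P : MvPolynomial (Fin d) ℂ) {r : ℝ} (hr0 : 0 < r) (hr1 : r < 1) :
    Tendsto (TT P r) atTop (𝓝 0) := by
  set D := P.totalDegree with hD
  have h1 := tendsto_pow_const_mul_const_pow_of_abs_lt_one (2 * D + 3)
    (show |r| < 1 by rw [abs_of_pos hr0]; exact hr1)
  have h2 := h1.comp (tendsto_add_atTop_nat (2 * D + 1))
  have h3 := h2.const_mul ((D : ℝ) * A1 P ^ 2 * (r ^ (2 * D + 1))⁻¹)
  rw [mul_zero] at h3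
  apply squeeze_zero _ _ h3
  · intro L
    unfold TT
    positivity
  · intro L
    have hA := A1_nonneg P
    simp only [Function.comp_apply]
    have h4 : ((L + (2 * D + 1) : ℕ) : ℝ) = (L : ℝ) + 2 * D + 1 := by push_cast; ring
    rw [h4, pow_add r L (2 * D + 1)]
    have h5 : r ^ (2 * D + 1) ≠ 0 := by positivity
    have h6 : (D : ℝ) * A1 P ^ 2 * (r ^ (2 * D + 1))⁻¹ * (((L : ℝ) + 2 * D + 1) ^ (2 * D + 3) *
        (r ^ L * r ^ (2 * D + 1)))
        = (D : ℝ) * A1 P ^ 2 * ((L : ℝ) + 2 * D + 1) ^ (2 * D + 3) * r ^ L := by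
      field_simp
    rw [h6]
    unfold TT
    rw [← hD]
    have h7 : (D : ℝ) * ((L : ℝ) + 2 * D + 1) *
      (((L : ℝ) + 2 * D + 1) * (A1 P * (r ^ L * ((L : ℝ) + 2 * D + 1) ^ D))) ^ 2
      = (D : ℝ) * A1 P ^ 2 * ((L : ℝ) + 2 * D + 1) ^ (2 * D + 3) * r ^ L * r ^ L := by
      ring
    rw [h7]
    have h8 : r ^ L ≤ 1 := pow_le_one₀ hr0.le hr1.le
    have h9 : 0 ≤ (D : ℝ) * A1 P ^ 2 * ((L : ℝ) + 2 * D + 1) ^ (2 * D + 3) * r ^ L := by positivity
    nlinarith


theorem totalDegree_FF_mul_lt (P : MvPolynomial (Fin d) ℂ) (r : ℝ) (L : ℕ) :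
    (FF P r (L + P.totalDegree) * P).totalDegree < L + P.totalDegree + 1 + P.totalDegree := by
  have h1 : (FF P r (L + P.totalDegree)).totalDegree ≤ L + P.totalDegree := by
    unfold FF
    apply totalDegree_finsetSum_le
    intro n hn
    rw [Finset.mem_range] at hn
    exact (FF_term_homogeneous P r n).totalDegree_le.trans (by omega)
  have h2 := totalDegree_mul (FF P r (L + P.totalDegree)) P
  omega

theorem FF_mul_supported (P : MvPolynomial (Fin d) ℂ) (r : ℝ) (M : ℕ) {α : Fin d →₀ ℕ}
    (hα : α ∈ (FF P r M * P).support) : α.support ⊆ P.vars := by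
  have h1 : FF P r M * P ∈ supported ℂ (P.vars : Set (Fin d)) := by
    apply mul_mem
    · unfold FF
      apply sum_mem
      intro n _
      apply mul_mem _ (hh_supported P n)
      exact Subalgebra.algebraMap_mem _ _
    · rw [mem_supported]
  rw [mem_supported, Finset.coe_subset] at h1
  intro j hj
  apply h1
  rw [mem_vars_iff_mem_support]
  exact ⟨α, hα, hj⟩

theorem coeff_FF_mul (P : MvPolynomial (Fin d) ℂ) (r : ℝ) {M : ℕ} {α : Fin d →₀ ℕ}
    (hα : α.degree ≤ M) : (FF P r M * P).coeff α = ∑ x ∈ antidiagonal α.degree,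
      (r : ℂ) ^ x.2 * (homogeneousComponent x.1 P * hh P x.2).coeff α := by
  have h1 : (FF P r M * P).coeff α = (homogeneousComponent α.degree (FF P r M * P)).coeff α := by
    rw [coeff_homogeneousComponent, if_pos rfl]
  rw [h1, hc_FF, coeff_sum]
  apply Finset.sum_congr rfl
  intro x hx
  rw [HasAntidiagonal.mem_antidiagonal] at hx
  rw [if_pos (by omega), ← coeff_C_mul]
  congr 1
  ring

theorem shiftCyclic_of_vars_aux (t : ℝ) (P : MvPolynomial (Fin d) ℂ) (hP : P.coeff 0 = 1)
    (hz : ∀ z : Fin d → ℂ, (∀ j, ‖z j‖ < 1) → eval z P ≠ 0)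
    (ht : t * P.vars.card ≤ 1) : ShiftCyclic t P := by
  classical
  set D := P.totalDegree with hD
  set r : ℕ → ℝ := fun m => 1 - 1 / ((m : ℝ) + 2) with hr
  have hr0 : ∀ m, 0 < r m := by
    intro m
    simp only [hr]
    have : (1 : ℝ) / ((m : ℝ) + 2) < 1 := by
      rw [div_lt_one (by positivity)]
      have : (0 : ℝ) ≤ m := Nat.cast_nonneg m
      linarith
    linarith
  have hr1 : ∀ m, r m < 1 := by
    intro m
    simp only [hr]
    have : (0 : ℝ) < 1 / ((m : ℝ) + 2) := by positivity
    linarith
  have hrlim : Tendsto r atTop (𝓝 1) := by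
    have h1 : Tendsto (fun m : ℕ => 1 / ((m : ℝ) + 2)) atTop (𝓝 0) := by
      have := (tendsto_one_div_add_atTop_nhds_zero_nat (𝕜 := ℝ)).comp (tendsto_add_atTop_nat 1)
      refine this.congr fun m => ?_
      simp only [Function.comp_apply]
      push_cast
      ring_nf
    have h2 := tendsto_const_nhds (x := (1 : ℝ)) |>.sub h1
    simpa [hr] using h2
  have hL : ∀ m : ℕ, ∃ L : ℕ, m ≤ L ∧ TT P (r m) L ≤ 1 := by
    intro m
    have h1 := (tendsto_TT P (hr0 m) (hr1 m)).eventually (gt_mem_nhds (show (0 : ℝ) < 1 by norm_num))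
    obtain ⟨L, hL1, hL2⟩ := (h1.and (eventually_ge_atTop m)).exists
    exact ⟨L, hL2, hL1.le⟩
  choose L hmL hTL using hL
  apply shiftCyclic_of_bounded t P (fun m => FF P (r m) (L m + D)) (Real.sqrt (14 ^ D + 1))
  · intro m
    apply Real.le_sqrt_of_sq_le
    rw [J_norm]
    calc ∑ α ∈ (FF P (r m) (L m + D) * P).support,
          weight t α * ‖(FF P (r m) (L m + D) * P).coeff α‖ ^ 2
        ≤ ∑ α ∈ (FF P (r m) (L m + D) * P).support,
          (1 + (α.degree : ℝ)) * ‖(FF P (r m) (L m + D) * P).coeff α‖ ^ 2 := by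
          apply Finset.sum_le_sum
          intro α hα
          apply mul_le_mul_of_nonneg_right _ (by positivity)
          exact weight_le_degree ht (FF_mul_supported P _ _ hα)
      _ ≤ 14 ^ D + 1 := by
          apply sum_weighted_le _ (totalDegree_FF_mul_lt P (r m) (L m))
          intro ζ hζ
          refine (sum_hc_le P hP hz ζ hζ (r m) (hr0 m).le (hr1 m).le (L m)).trans ?_
          have := hTL m
          linarith
  · intro α
    have h1 : Tendsto (fun m => ∑ x ∈ antidiagonal α.degree,
        ((r m : ℝ) : ℂ) ^ x.2 * (homogeneousComponent x.1 P * hh P x.2).coeff α) atTop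
        (𝓝 (∑ x ∈ antidiagonal α.degree,
        (((1 : ℝ) : ℂ)) ^ x.2 * (homogeneousComponent x.1 P * hh P x.2).coeff α)) := by
      apply tendsto_finsetSum
      intro x _
      apply Tendsto.mul_const
      apply Tendsto.pow
      exact (Complex.continuous_ofReal.tendsto _).comp hrlim
    have h2 : (∑ x ∈ antidiagonal α.degree,
        (((1 : ℝ) : ℂ)) ^ x.2 * (homogeneousComponent x.1 P * hh P x.2).coeff α)
        = (1 : MvPolynomial (Fin d) ℂ).coeff α := by
      have h3 := congrArg (fun Q => MvPolynomial.coeff α Q) (hh_identity P hP α.degree)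
      simp only [coeff_sum] at h3
      simp only [Complex.ofReal_one, one_pow, one_mul]
      rw [h3]
      split_ifs with h
      · rfl
      · rw [coeff_zero, coeff_one, if_neg]
        rintro rfl
        exact h (by simp)
    rw [h2] at h1
    apply h1.congr'
    filter_upwards [eventually_ge_atTop α.degree] with m hm
    rw [coeff_FF_mul]
    exact hm.trans ((hmL m).trans (by omega))

/-- **Universal range of cyclicity.** A polynomial without zeros in the open polydisk involving
`m` variables is shift-cyclic in `𝓓_t(𝔻^d)` whenever `t m ≤ 1`. -/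
theorem shiftCyclic_of_vars (t : ℝ) (P : MvPolynomial (Fin d) ℂ)
    (hz : ∀ z : Fin d → ℂ, (∀ j, ‖z j‖ < 1) → eval z P ≠ 0)
    (ht : t * P.vars.card ≤ 1) : ShiftCyclic t P := by
  have h0 : P.coeff 0 ≠ 0 := by
    have := hz 0 (by simp)
    rwa [MvPolynomial.eval_zero, constantCoeff_eq] at this
  have h1 : ShiftCyclic t (P * C (P.coeff 0)⁻¹) := by
    apply shiftCyclic_of_vars_aux
    · rw [mul_comm, coeff_C_mul, inv_mul_cancel₀ h0]
    · intro z hz'
      rw [map_mul, eval_C]
      exact mul_ne_zero (hz z hz') (inv_ne_zero h0)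
    · have h2 : (P * C (P.coeff 0)⁻¹).vars = P.vars := by
        rw [mul_comm, vars_C_mul _ (inv_ne_zero h0)]
      rwa [h2]
  exact h1.of_mul

end Pool.Agent.Helper49.Univ
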