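import Mathlib
import Pool.Agent.Helper49.CycUniv2

/-! The logarithmic derivative of a polynomial without zeros in the disk or polydisk. -/

set_option autoImplicit false

namespace Pool.Agent.Helper49.OneVar

open PowerSeries Finset

theorem exists_list_factor (p : Polynomial ℂ) (hp0 : p.coeff 0 = 1)
    (hp : ∀ z : ℂ, ‖z‖ < 1 → p.eval z ≠ 0) :
    ∃ L : List ℂ, L.length = p.natDegree ∧ (∀ a ∈ L, ‖a‖ ≤ 1) ∧
      p = (L.map fun a => 1 - Polynomial.C a * Polynomial.X).prod := by
  have hroots : ∀ a ∈ p.roots, 1 ≤ ‖a‖ := by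
    intro a ha
    by_contra hcon
    push Not at hcon
    exact hp a hcon (Polynomial.isRoot_of_mem_roots ha)
  have hne0 : p ≠ 0 := by
    intro h
    rw [h] at hp0
    simp at hp0
  have hsplit : p = Polynomial.C p.leadingCoeff * (p.roots.map fun a => Polynomial.X - Polynomial.C a).prod :=
    (IsAlgClosed.splits p).eq_prod_roots
  set L : List ℂ := p.roots.toList.map (fun a => a⁻¹) with hL
  have hLlen : L.length = p.natDegree := by
    rw [hL, List.length_map, Multiset.length_toList]
    exact (IsAlgClosed.splits p).natDegree_eq_card_roots.symm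
  have hLn : ∀ a ∈ L, ‖a‖ ≤ 1 := by
    intro a ha
    rw [hL, List.mem_map] at ha
    obtain ⟨b, hb, rfl⟩ := ha
    rw [Multiset.mem_toList] at hb
    rw [norm_inv]
    exact inv_le_one_of_one_le₀ (hroots b hb)
  refine ⟨L, hLlen, hLn, ?_⟩
  have h1 : ∀ M : List ℂ, (∀ a ∈ M, a ≠ 0) →
      (M.map fun a => Polynomial.X - Polynomial.C a).prod
        = Polynomial.C ((M.map fun a => -a).prod) *
          ((M.map fun a => a⁻¹).map fun a => 1 - Polynomial.C a * Polynomial.X).prod := by
    intro M
    induction M with
    | nil => intro _; simp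
    | cons a M ih =>
      intro hM
      have ha : a ≠ 0 := hM a List.mem_cons_self
      rw [List.map_cons, List.prod_cons, ih fun x hx => hM x (List.mem_cons_of_mem _ hx),
        List.map_cons, List.prod_cons, List.map_cons, List.map_cons, List.prod_cons, map_mul]
      have h2 : (Polynomial.X - Polynomial.C a : Polynomial ℂ)
          = Polynomial.C (-a) * (1 - Polynomial.C a⁻¹ * Polynomial.X) := by
        rw [mul_sub, mul_one, ← mul_assoc, ← Polynomial.C_mul]
        rw [show -a * a⁻¹ = -1 by field_simp]
        simp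
        ring
      rw [h2]
      ring
  have h2 : p = Polynomial.C (p.leadingCoeff * (p.roots.toList.map fun a => -a).prod) *
      (L.map fun a => 1 - Polynomial.C a * Polynomial.X).prod := by
    conv_lhs => rw [hsplit]
    have h3 : (p.roots.map fun a => Polynomial.X - Polynomial.C a).prod
        = (p.roots.toList.map fun a => Polynomial.X - Polynomial.C a).prod := by
      conv_lhs => rw [← Multiset.coe_toList p.roots]
      rw [Multiset.map_coe, Multiset.prod_coe]
    rw [h3, h1 p.roots.toList, ← mul_assoc, ← Polynomial.C_mul]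
    intro a ha
    rw [Multiset.mem_toList] at ha
    intro h0
    have := hroots a ha
    rw [h0, norm_zero] at this
    linarith
  have h4 : ∀ M : List ℂ, (M.map fun a => 1 - Polynomial.C a * Polynomial.X).prod.coeff 0 = 1 := by
    intro M
    induction M with
    | nil => simp
    | cons a M ih =>
      rw [List.map_cons, List.prod_cons, Polynomial.mul_coeff_zero, ih]
      simp
  have h5 : p.leadingCoeff * (p.roots.toList.map fun a => -a).prod = 1 := by
    have h6 : p.coeff 0 = (Polynomial.C (p.leadingCoeff * (p.roots.toList.map fun a => -a).prod) *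
      (L.map fun a => 1 - Polynomial.C a * Polynomial.X).prod).coeff 0 := by
      rw [← h2]
    rw [hp0, Polynomial.coeff_C_mul, h4, mul_one] at h6
    exact h6.symm
  rw [h5] at h2
  simpa using h2

theorem log_list (L : List ℂ) (hL : ∀ a ∈ L, ‖a‖ ≤ 1) :
    ∃ u : PowerSeries ℂ,
      u * (((L.map fun a => 1 - Polynomial.C a * Polynomial.X).prod : Polynomial ℂ) : PowerSeries ℂ)
        = - (X * ((Polynomial.derivative
          (L.map fun a => 1 - Polynomial.C a * Polynomial.X).prod : Polynomial ℂ) : PowerSeries ℂ)) ∧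
      coeff 0 u = 0 ∧ ∀ m, ‖coeff m u‖ ≤ L.length := by
  induction L with
  | nil => exact ⟨0, by simp, by simp, by simp⟩
  | cons a L ih =>
    obtain ⟨u1, h1, h2, h3⟩ := ih fun x hx => hL x (List.mem_cons_of_mem _ hx)
    have ha : ‖a‖ ≤ 1 := hL a List.mem_cons_self
    set q1 : Polynomial ℂ := (L.map fun a => 1 - Polynomial.C a * Polynomial.X).prod with hq1
    set geo : PowerSeries ℂ := PowerSeries.mk fun n => a ^ n with hgeo
    have hgeo1 : geo * (1 - C a * X) = 1 := by
      ext n
      rcases n with _ | n
      · simp [mul_sub, hgeo]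
      · rw [mul_sub, mul_one, ← mul_assoc, map_sub, coeff_succ_mul_X, coeff_mul_C, hgeo, coeff_mk,
          coeff_mk, coeff_one]
        simp
        ring
    refine ⟨u1 + C a * X * geo, ?_, ?_, ?_⟩
    · rw [List.map_cons, List.prod_cons, Polynomial.derivative_mul]
      push_cast
      have hd : ((Polynomial.derivative (1 - Polynomial.C a * Polynomial.X) : Polynomial ℂ) : PowerSeries ℂ)
          = - C a := by
        simp
      rw [hd]
      linear_combination (1 - C a * X) * h1 + (C a * X * (q1 : PowerSeries ℂ)) * hgeo1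
    · rw [map_add, h2]
      simp [mul_comm, mul_assoc, mul_left_comm]
    · intro m
      rw [map_add, List.length_cons]
      rcases m with _ | m
      · rw [h2]
        have : coeff 0 (C a * X * geo) = 0 := by
          simp
        rw [this]
        simp
        positivity
      · have h4 : coeff (m + 1) (C a * X * geo) = a ^ (m + 1) := by
          rw [mul_assoc, coeff_C_mul, coeff_succ_X_mul, hgeo, coeff_mk]
          ring
        rw [h4]
        push_cast
        refine (norm_add_le _ _).trans ?_
        apply add_le_add (h3 _)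
        rw [norm_pow]
        exact pow_le_one₀ (norm_nonneg _) ha

/-- Coefficients of `(n p - z p') / p` are bounded by `n`. -/
theorem log_estimate (p : Polynomial ℂ) (hp : ∀ z : ℂ, ‖z‖ < 1 → p.eval z ≠ 0) {n : ℕ}
    (hn : p.natDegree ≤ n) :
    ∃ g : PowerSeries ℂ, g * (p : PowerSeries ℂ)
        = (((Polynomial.C (n : ℂ) * p - Polynomial.X * Polynomial.derivative p : Polynomial ℂ)) : PowerSeries ℂ) ∧
      ∀ m, ‖coeff m g‖ ≤ n := by
  have hp0 : p.coeff 0 ≠ 0 := by
    have := hp 0 (by simp)
    rwa [← Polynomial.coeff_zero_eq_eval_zero] at this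
  set q : Polynomial ℂ := Polynomial.C (p.coeff 0)⁻¹ * p with hq
  have hq0 : q.coeff 0 = 1 := by
    rw [hq, Polynomial.coeff_C_mul, inv_mul_cancel₀ hp0]
  have hqz : ∀ z : ℂ, ‖z‖ < 1 → q.eval z ≠ 0 := by
    intro z hz
    rw [hq, Polynomial.eval_mul, Polynomial.eval_C]
    exact mul_ne_zero (inv_ne_zero hp0) (hp z hz)
  have hqd : q.natDegree = p.natDegree := by
    rw [hq, Polynomial.natDegree_C_mul (inv_ne_zero hp0)]
  obtain ⟨L, hL1, hL2, hL3⟩ := exists_list_factor q hq0 hqz
  obtain ⟨u, hu1, hu2, hu3⟩ := log_list L hL2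
  rw [← hL3] at hu1
  have hpq : p = Polynomial.C (p.coeff 0) * q := by
    rw [hq, ← mul_assoc, ← Polynomial.C_mul, mul_inv_cancel₀ hp0]
    simp
  refine ⟨C (n : ℂ) + u, ?_, ?_⟩
  · have h1 : (p : PowerSeries ℂ) = C (p.coeff 0) * (q : PowerSeries ℂ) := by
      conv_lhs => rw [hpq]
      rw [Polynomial.coe_mul, Polynomial.coe_C]
    have h2 : ((Polynomial.derivative p : Polynomial ℂ) : PowerSeries ℂ)
        = C (p.coeff 0) * ((Polynomial.derivative q : Polynomial ℂ) : PowerSeries ℂ) := by
      conv_lhs => rw [hpq]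
      rw [Polynomial.derivative_C_mul, Polynomial.coe_mul, Polynomial.coe_C]
    rw [Polynomial.coe_sub, Polynomial.coe_mul, Polynomial.coe_mul, Polynomial.coe_C,
      Polynomial.coe_X, h2, h1]
    linear_combination C (p.coeff 0) * hu1
  · intro m
    rw [map_add, coeff_C]
    split_ifs with h
    · rw [h, hu2, add_zero]
      simp
    · rw [zero_add]
      refine (hu3 m).trans ?_
      rw [hL1, hqd]
      exact_mod_cast hn

end Pool.Agent.Helper49.OneVar
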