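import Mathlib
import Pool.Agent.Helper49.CycLog

set_option autoImplicit false

namespace Pool.Agent.Helper49.Toral

open scoped ENNReal InnerProductSpace
open Filter Topology MvPolynomial Finset
open Pool.Agent.Helper49.Cyc Pool.Agent.Helper49.Torus Pool.Agent.Helper49.Univ

variable {d : ℕ}

/-- `n P - z_j ∂_j P` -/
noncomputable def Tj (n : ℕ) (j : Fin d) (P : MvPolynomial (Fin d) ℂ) : MvPolynomial (Fin d) ℂ :=
  C (n : ℂ) * P - X j * pderiv j P

theorem coeff_X_mul_pderiv (j : Fin d) (P : MvPolynomial (Fin d) ℂ) (α : Fin d →₀ ℕ) :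
    (X j * pderiv j P).coeff α = (α j : ℂ) * P.coeff α := by
  classical
  induction P using MvPolynomial.induction_on' with
  | monomial β a =>
    rw [X_mul_pderiv_monomial, coeff_smul, coeff_monomial]
    split_ifs with h
    · rw [h]; simp
    · simp
  | add p q hp hq =>
    rw [map_add, mul_add, coeff_add, coeff_add, hp, hq]
    ring

theorem coeff_Tj (n : ℕ) (j : Fin d) (P : MvPolynomial (Fin d) ℂ) (α : Fin d →₀ ℕ) :
    (Tj n j P).coeff α = ((n : ℂ) - α j) * P.coeff α := by
  rw [Tj, coeff_sub, coeff_C_mul, coeff_X_mul_pderiv]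
  ring

/-- slice in the direction of `z_j` -/
noncomputable def sj (j : Fin d) (y : Fin d → ℂ) : MvPolynomial (Fin d) ℂ →ₐ[ℂ] Polynomial ℂ :=
  aeval (fun i => if i = j then Polynomial.X else Polynomial.C (y i))

theorem sj_prod (j : Fin d) (y : Fin d → ℂ) (k : Fin d →₀ ℕ) :
    ∏ i, (if i = j then Polynomial.X else Polynomial.C (y i) : Polynomial ℂ) ^ k i
      = Polynomial.X ^ k j * Polynomial.C (∏ i ∈ Finset.univ.erase j, y i ^ k i) := by
  classical
  rw [← Finset.mul_prod_erase _ _ (Finset.mem_univ j), if_pos rfl, map_prod]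
  congr 1
  apply Finset.prod_congr rfl
  intro i hi
  rw [if_neg (Finset.ne_of_mem_erase hi), map_pow]

theorem sj_eq (j : Fin d) (y : Fin d → ℂ) (F : MvPolynomial (Fin d) ℂ) :
    sj j y F = ∑ k ∈ F.support, Polynomial.C (F.coeff k) *
      (Polynomial.X ^ k j * Polynomial.C (∏ i ∈ Finset.univ.erase j, y i ^ k i)) := by
  rw [sj, aeval_def, eval₂_eq']
  apply Finset.sum_congr rfl
  intro k _
  rw [sj_prod]
  rfl

theorem sj_coeff (j : Fin d) (y : Fin d → ℂ) (F : MvPolynomial (Fin d) ℂ) (a : ℕ) :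
    (sj j y F).coeff a = ∑ k ∈ F.support, if k j = a then
      F.coeff k * ∏ i ∈ Finset.univ.erase j, y i ^ k i else 0 := by
  rw [sj_eq, Polynomial.finsetSum_coeff]
  apply Finset.sum_congr rfl
  intro k _
  rw [Polynomial.coeff_C_mul, Polynomial.coeff_mul_C, Polynomial.coeff_X_pow]
  by_cases h : k j = a
  · rw [if_pos h.symm, if_pos h, one_mul]
  · rw [if_neg (fun h' => h h'.symm), if_neg h]
    ring

theorem sj_eval (j : Fin d) (y : Fin d → ℂ) (F : MvPolynomial (Fin d) ℂ) (z : ℂ) :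
    (sj j y F).eval z = eval (Function.update y j z) F := by
  have h : (Polynomial.aeval z : Polynomial ℂ →ₐ[ℂ] ℂ).comp (sj j y)
      = aeval (Function.update y j z) := by
    apply MvPolynomial.algHom_ext
    intro i
    rw [AlgHom.comp_apply, sj, aeval_X, aeval_X]
    by_cases hi : i = j
    · subst hi
      simp
    · simp [hi]
  have h1 := DFunLike.congr_fun h F
  rw [AlgHom.comp_apply] at h1
  simpa [Polynomial.coe_aeval_eq_eval, coe_aeval_eq_eval] using h1

theorem sj_euler (j : Fin d) (y : Fin d → ℂ) (F : MvPolynomial (Fin d) ℂ) :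
    sj j y (X j * pderiv j F) = Polynomial.X * Polynomial.derivative (sj j y F) := by
  classical
  ext a
  rcases a with _ | a
  · rw [Polynomial.coeff_X_mul_zero]
    rw [sj_coeff]
    apply Finset.sum_eq_zero
    intro k _
    split_ifs with h
    · rw [coeff_X_mul_pderiv, h]
      simp
    · rfl
  · rw [Polynomial.coeff_X_mul, Polynomial.coeff_derivative, sj_coeff, sj_coeff, Finset.sum_mul]
    have hsub : (X j * pderiv j F).support ⊆ F.support := by
      intro k hk
      rw [mem_support_iff, coeff_X_mul_pderiv] at hk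
      rw [mem_support_iff]
      exact right_ne_zero_of_mul hk
    rw [Finset.sum_subset hsub]
    · apply Finset.sum_congr rfl
      intro k _
      split_ifs with h
      · rw [coeff_X_mul_pderiv, h]
        push_cast
        ring
      · ring
    · intro k _ hk
      rw [notMem_support_iff] at hk
      rw [hk]
      simp

theorem sj_Tj (n : ℕ) (j : Fin d) (y : Fin d → ℂ) (P : MvPolynomial (Fin d) ℂ) :
    sj j y (Tj n j P) = Polynomial.C (n : ℂ) * sj j y P
      - Polynomial.X * Polynomial.derivative (sj j y P) := by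
  rw [Tj, map_sub, sj_euler, map_mul]
  congr 2
  rw [sj, aeval_C]
  rfl

theorem natDegree_sj_le (j : Fin d) (y : Fin d → ℂ) (F : MvPolynomial (Fin d) ℂ) :
    (sj j y F).natDegree ≤ F.degreeOf j := by
  rw [Polynomial.natDegree_le_iff_coeff_eq_zero]
  intro n hn
  rw [sj_coeff]
  apply Finset.sum_eq_zero
  intro k hk
  rw [if_neg]
  intro h
  have := monomial_le_degreeOf j hk
  omega


/-- the truncated reciprocal -/
noncomputable abbrev EM (P : MvPolynomial (Fin d) ℂ) (M : ℕ) : MvPolynomial (Fin d) ℂ := FF P 1 M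

/-- the remainder `P E - 1` -/
noncomputable def RM (P : MvPolynomial (Fin d) ℂ) (M : ℕ) : MvPolynomial (Fin d) ℂ := EM P M * P - 1

theorem coeff_RM (P : MvPolynomial (Fin d) ℂ) (hP : P.coeff 0 = 1) {M : ℕ} {α : Fin d →₀ ℕ}
    (hα : α.degree ≤ M) : (RM P M).coeff α = 0 := by
  rw [RM, coeff_sub, coeff_FF_mul P 1 hα]
  have h3 := congrArg (fun Q => MvPolynomial.coeff α Q) (hh_identity P hP α.degree)
  simp only [coeff_sum] at h3
  simp only [Complex.ofReal_one, one_pow, one_mul]
  rw [h3, sub_eq_zero]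
  split_ifs with h
  · rfl
  · rw [coeff_zero, coeff_one, if_neg]
    rintro rfl
    exact h (by simp)

theorem norm_eval_le (P : MvPolynomial (Fin d) ℂ) (ζ : Fin d → ℂ) (hζ : ∀ j, ‖ζ j‖ ≤ 1) :
    ‖eval ζ P‖ ≤ A1 P := by
  rw [eval_eq']
  refine (norm_sum_le _ _).trans ?_
  apply Finset.sum_le_sum
  intro α _
  rw [norm_mul, norm_prod]
  have h2 : ∏ j, ‖ζ j ^ α j‖ ≤ 1 := by
    apply Finset.prod_le_one
    · intro j _; exact norm_nonneg _
    · intro j _
      rw [norm_pow]
      exact pow_le_one₀ (norm_nonneg _) (hζ j)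
  have h4 : 0 ≤ ∏ j, ‖ζ j ^ α j‖ := Finset.prod_nonneg fun _ _ => norm_nonneg _
  nlinarith [norm_nonneg (P.coeff α)]

/-- the bound for the coefficients of the remainder -/
noncomputable def BM (P : MvPolynomial (Fin d) ℂ) (M : ℕ) : ℝ :=
  ((M : ℝ) + 1) ^ (P.totalDegree + 1) * A1 P + 1

theorem norm_coeff_RM_le (P : MvPolynomial (Fin d) ℂ) (hP : P.coeff 0 = 1)
    (hz : ∀ z : Fin d → ℂ, (∀ j, ‖z j‖ < 1) → eval z P ≠ 0) (M : ℕ) (α : Fin d →₀ ℕ) :
    ‖(RM P M).coeff α‖ ≤ BM P M := by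
  have hA := A1_nonneg P
  have hB : 0 ≤ BM P M := by unfold BM; positivity
  have h1 : ∀ x, ‖eval (tor x) (RM P M)‖ ≤ BM P M := by
    intro x
    have ht : ∀ j, ‖tor x j‖ ≤ 1 := fun j => by rw [norm_tor]
    obtain ⟨hb, -⟩ := slice_estimate P hP hz (tor x) ht
    have h2 : ‖eval (tor x) (EM P M)‖ ≤ ((M : ℝ) + 1) ^ (P.totalDegree + 1) := by
      rw [EM, FF, map_sum]
      refine (norm_sum_le _ _).trans ?_
      calc ∑ n ∈ range (M + 1), ‖eval (tor x) (C (((1 : ℝ) : ℂ) ^ n) * hh P n)‖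
          ≤ ∑ _n ∈ range (M + 1), ((M : ℝ) + 1) ^ P.totalDegree := by
            apply Finset.sum_le_sum
            intro n hn
            rw [Finset.mem_range] at hn
            simp only [Complex.ofReal_one, one_pow, C_1, one_mul]
            refine (hb n).trans ?_
            apply pow_le_pow_left₀ (by positivity)
            have : (n : ℝ) ≤ M := by exact_mod_cast (by omega)
            linarith
        _ = ((M : ℝ) + 1) ^ (P.totalDegree + 1) := by
            rw [Finset.sum_const, Finset.card_range, nsmul_eq_mul]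
            push_cast
            ring
    rw [RM, map_sub, map_mul, map_one]
    refine (norm_sub_le _ _).trans ?_
    rw [norm_mul, norm_one]
    unfold BM
    gcongr
    exact norm_eval_le P _ ht
  have h2 := sum_sq_le (RM P M) (B := BM P M ^ 2) fun x =>
    pow_le_pow_left₀ (norm_nonneg _) (h1 x) 2
  by_cases hα : α ∈ (RM P M).support
  · have h3 : ‖(RM P M).coeff α‖ ^ 2 ≤ BM P M ^ 2 :=
      (Finset.single_le_sum (f := fun α => ‖(RM P M).coeff α‖ ^ 2) (fun _ _ => by positivity) hα).trans h2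
    exact (abs_le_of_sq_le_sq' h3 hB).2
  · rw [notMem_support_iff] at hα
    rw [hα, norm_zero]
    exact hB

theorem totalDegree_RM_le (P : MvPolynomial (Fin d) ℂ) (M : ℕ) :
    (RM P M).totalDegree ≤ M + P.totalDegree := by
  have h1 : (EM P M).totalDegree ≤ M := by
    unfold EM FF
    apply totalDegree_finsetSum_le
    intro n hn
    rw [Finset.mem_range] at hn
    exact (FF_term_homogeneous P 1 n).totalDegree_le.trans (by omega)
  rw [RM]
  refine (totalDegree_sub _ _).trans ?_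
  rw [totalDegree_one]
  have := totalDegree_mul (EM P M) P
  omega

theorem degree_le_of_mem (F : MvPolynomial (Fin d) ℂ) {k : Fin d →₀ ℕ} (hk : k ∈ F.support) :
    k.degree ≤ F.totalDegree := by
  have := le_totalDegree hk
  rw [Finsupp.sum_fintype _ _ (by simp)] at this
  rwa [Finsupp.degree_eq_sum]

theorem card_support_RM_le (P : MvPolynomial (Fin d) ℂ) (M : ℕ) :
    ((RM P M).support.card : ℝ) ≤ ((M : ℝ) + P.totalDegree + 1) ^ d := by
  classical
  have h1 : (RM P M).support ⊆ Finset.Iic (Finsupp.equivFunOnFinite.symm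
      (fun _ : Fin d => M + P.totalDegree)) := by
    intro k hk
    rw [Finset.mem_Iic]
    intro j
    have h2 := (degree_le_of_mem _ hk).trans (totalDegree_RM_le P M)
    have h3 := Finsupp.le_degree j k
    simp only [Finsupp.equivFunOnFinite_symm_apply_apply]
    omega
  have h2 := Finset.card_le_card h1
  rw [Finsupp.card_Iic] at h2
  have h3 : ∏ i ∈ (Finsupp.equivFunOnFinite.symm (fun _ : Fin d => M + P.totalDegree)).support,
      (Finset.Iic ((Finsupp.equivFunOnFinite.symm (fun _ : Fin d => M + P.totalDegree)) i)).card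
      ≤ (M + P.totalDegree + 1) ^ d := by
    calc ∏ i ∈ (Finsupp.equivFunOnFinite.symm (fun _ : Fin d => M + P.totalDegree)).support,
      (Finset.Iic ((Finsupp.equivFunOnFinite.symm (fun _ : Fin d => M + P.totalDegree)) i)).card
        = ∏ i ∈ (Finsupp.equivFunOnFinite.symm (fun _ : Fin d => M + P.totalDegree)).support,
          (M + P.totalDegree + 1) := by
          apply Finset.prod_congr rfl
          intro i _
          simp
      _ = (M + P.totalDegree + 1) ^ (Finsupp.equivFunOnFinite.symm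
          (fun _ : Fin d => M + P.totalDegree)).support.card := by rw [Finset.prod_const]
      _ ≤ (M + P.totalDegree + 1) ^ d := by
          apply Nat.pow_le_pow_right (by omega)
          calc _ ≤ (Finset.univ : Finset (Fin d)).card := Finset.card_le_univ _
            _ = d := by simp
  have h4 := h2.trans h3
  exact_mod_cast h4

/-- the error in the slices -/
noncomputable def DM (P : MvPolynomial (Fin d) ℂ) (r : ℝ) (a M : ℕ) : ℝ :=
  ((M : ℝ) + P.totalDegree + 1) ^ d * (BM P M * r ^ (M - a))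

theorem norm_coeff_sj_RM_le (P : MvPolynomial (Fin d) ℂ) (hP : P.coeff 0 = 1)
    (hz : ∀ z : Fin d → ℂ, (∀ j, ‖z j‖ < 1) → eval z P ≠ 0) (M : ℕ) (j : Fin d) (y : Fin d → ℂ)
    {r : ℝ} (hr0 : 0 ≤ r) (hr1 : r ≤ 1) (hy : ∀ i, ‖y i‖ ≤ r) {a i : ℕ} (hi : i ≤ a) :
    ‖(sj j y (RM P M)).coeff i‖ ≤ DM P r a M := by
  classical
  have hA := A1_nonneg P
  have hB : 0 ≤ BM P M := by unfold BM; positivity
  rw [sj_coeff]
  refine (norm_sum_le _ _).trans ?_
  have h1 : ∀ k ∈ (RM P M).support, ‖if k j = i then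
      (RM P M).coeff k * ∏ l ∈ Finset.univ.erase j, y l ^ k l else 0‖ ≤ BM P M * r ^ (M - a) := by
    intro k hk
    have hkM : M < k.degree := by
      by_contra hcon
      push Not at hcon
      rw [mem_support_iff] at hk
      exact hk (coeff_RM P hP hcon)
    split_ifs with h
    · rw [norm_mul]
      apply mul_le_mul (norm_coeff_RM_le P hP hz M k) _ (norm_nonneg _) hB
      rw [norm_prod]
      calc ∏ l ∈ Finset.univ.erase j, ‖y l ^ k l‖ ≤ ∏ l ∈ Finset.univ.erase j, r ^ k l := by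
            apply Finset.prod_le_prod
            · intro l _; exact norm_nonneg _
            · intro l _
              rw [norm_pow]
              exact pow_le_pow_left₀ (norm_nonneg _) (hy l) _
        _ = r ^ (∑ l ∈ Finset.univ.erase j, k l) := by rw [Finset.prod_pow_eq_pow_sum]
        _ ≤ r ^ (M - a) := by
            apply pow_le_pow_of_le_one hr0 hr1
            have h2 : k.degree = k j + ∑ l ∈ Finset.univ.erase j, k l := by
              rw [Finsupp.degree_eq_sum, Finset.add_sum_erase _ _ (Finset.mem_univ j)]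
            omega
    · rw [norm_zero]
      positivity
  refine (Finset.sum_le_sum h1).trans ?_
  rw [Finset.sum_const, nsmul_eq_mul]
  unfold DM
  apply mul_le_mul_of_nonneg_right (card_support_RM_le P M)
  positivity

theorem tendsto_DM (P : MvPolynomial (Fin d) ℂ) {r : ℝ} (hr0 : 0 < r) (hr1 : r < 1) (a : ℕ) :
    Tendsto (DM P r a) atTop (𝓝 0) := by
  set D := P.totalDegree with hD
  have hA := A1_nonneg P
  have h1 := tendsto_pow_const_mul_const_pow_of_abs_lt_one (d + D + 1)
    (show |r| < 1 by rw [abs_of_pos hr0]; exact hr1)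
  have h2 := h1.comp (tendsto_add_atTop_nat (D + 1))
  have h3 := h2.const_mul ((A1 P + 1) * (r ^ (D + 1) * r ^ a)⁻¹)
  rw [mul_zero] at h3
  apply squeeze_zero' _ _ h3
  · filter_upwards with M
    unfold DM BM
    positivity
  · filter_upwards [eventually_ge_atTop a] with M hM
    simp only [Function.comp_apply]
    have h4 : ((M + (D + 1) : ℕ) : ℝ) = (M : ℝ) + D + 1 := by push_cast; ring
    rw [h4]
    have h5 : r ^ (M - a) = r ^ M * (r ^ a)⁻¹ := by
      rw [eq_mul_inv_iff_mul_eq₀ (by positivity), ← pow_add]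
      congr 1
      omega
    have h6 : BM P M ≤ (A1 P + 1) * ((M : ℝ) + D + 1) ^ (D + 1) := by
      unfold BM
      rw [← hD]
      have h7 : ((M : ℝ) + 1) ^ (D + 1) ≤ ((M : ℝ) + D + 1) ^ (D + 1) := by
        apply pow_le_pow_left₀ (by positivity)
        have : (0 : ℝ) ≤ D := Nat.cast_nonneg _
        linarith
      have h8 : (1 : ℝ) ≤ ((M : ℝ) + D + 1) ^ (D + 1) := by
        apply one_le_pow₀
        have : (0 : ℝ) ≤ D := Nat.cast_nonneg _
        have : (0 : ℝ) ≤ M := Nat.cast_nonneg _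
        linarith
      nlinarith
    unfold DM
    rw [← hD, h5]
    calc ((M : ℝ) + D + 1) ^ d * (BM P M * (r ^ M * (r ^ a)⁻¹))
        ≤ ((M : ℝ) + D + 1) ^ d * (((A1 P + 1) * ((M : ℝ) + D + 1) ^ (D + 1)) * (r ^ M * (r ^ a)⁻¹)) := by
          gcongr
      _ = (A1 P + 1) * (r ^ (D + 1) * r ^ a)⁻¹ *
          (((M : ℝ) + D + 1) ^ (d + D + 1) * r ^ (M + (D + 1))) := by
          rw [pow_add r M (D + 1)]
          field_simp
          ring


theorem coe_mul_inv (P : MvPolynomial (Fin d) ℂ) (hP : P.coeff 0 = 1) :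
    (P : MvPowerSeries (Fin d) ℂ) * (P : MvPowerSeries (Fin d) ℂ)⁻¹ = 1 := by
  apply MvPowerSeries.mul_inv_cancel
  rw [← MvPowerSeries.coeff_zero_eq_constantCoeff_apply, MvPolynomial.coeff_coe, hP]
  exact one_ne_zero

theorem coeff_mul_inv (P f : MvPolynomial (Fin d) ℂ) (hP : P.coeff 0 = 1) {M : ℕ}
    {k : Fin d →₀ ℕ} (hk : k.degree ≤ M) :
    MvPowerSeries.coeff k ((f : MvPowerSeries (Fin d) ℂ) * (P : MvPowerSeries (Fin d) ℂ)⁻¹)
      = (f * EM P M).coeff k := by
  classical
  have h1 : (f : MvPowerSeries (Fin d) ℂ) * (P : MvPowerSeries (Fin d) ℂ)⁻¹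
      = ((f * EM P M : MvPolynomial (Fin d) ℂ) : MvPowerSeries (Fin d) ℂ)
        - ((f : MvPowerSeries (Fin d) ℂ) * (P : MvPowerSeries (Fin d) ℂ)⁻¹) * (RM P M : MvPowerSeries (Fin d) ℂ) := by
    have h2 : (RM P M : MvPowerSeries (Fin d) ℂ) = (EM P M : MvPowerSeries (Fin d) ℂ) *
        (P : MvPowerSeries (Fin d) ℂ) - 1 := by
      have h3 : EM P M * P = RM P M + 1 := by rw [RM]; ring
      have h4 := congrArg (fun Q : MvPolynomial (Fin d) ℂ => (Q : MvPowerSeries (Fin d) ℂ)) h3
      simp only [MvPolynomial.coe_mul, MvPolynomial.coe_add, MvPolynomial.coe_one] at h4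
      rw [h4]
      ring
    rw [h2, MvPolynomial.coe_mul]
    linear_combination ((f : MvPowerSeries (Fin d) ℂ) * (EM P M : MvPowerSeries (Fin d) ℂ)) * coe_mul_inv P hP
  rw [h1, map_sub, MvPolynomial.coeff_coe, MvPowerSeries.coeff_mul]
  rw [Finset.sum_eq_zero, sub_zero]
  intro x hx
  rw [HasAntidiagonal.mem_antidiagonal] at hx
  have h3 : x.2.degree ≤ M := by
    refine le_trans ?_ hk
    rw [← hx, map_add]
    omega
  rw [MvPolynomial.coeff_coe, coeff_RM P hP h3, mul_zero]

theorem norm_coeff_sj_le (P : MvPolynomial (Fin d) ℂ) (hP : P.coeff 0 = 1)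
    (hz : ∀ z : Fin d → ℂ, (∀ j, ‖z j‖ < 1) → eval z P ≠ 0) (M : ℕ) (j : Fin d) (y : Fin d → ℂ)
    {r : ℝ} (hr0 : 0 ≤ r) (hr1 : r < 1) (hy : ∀ i, ‖y i‖ ≤ r) {n : ℕ} (hn : P.degreeOf j ≤ n) (a : ℕ) :
    ‖(sj j y (Tj n j P * EM P M)).coeff a‖ ≤ n + n * ((a + 1) * DM P r a M) := by
  have hp : ∀ z : ℂ, ‖z‖ < 1 → (sj j y P).eval z ≠ 0 := by
    intro z hz1
    rw [sj_eval]
    apply hz
    intro i
    by_cases hi : i = j
    · subst hi
      rw [Function.update_self]
      exact hz1
    · rw [Function.update_of_ne hi]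
      exact (hy i).trans_lt hr1
  obtain ⟨g, hg1, hg2⟩ := OneVar.log_estimate (sj j y P) hp ((natDegree_sj_le j y P).trans hn)
  have h1 : ((sj j y (Tj n j P * EM P M) : Polynomial ℂ) : PowerSeries ℂ)
      = g + g * ((sj j y (RM P M) : Polynomial ℂ) : PowerSeries ℂ) := by
    have h2 : sj j y (EM P M) * sj j y P = 1 + sj j y (RM P M) := by
      rw [RM, map_sub, map_mul, map_one]
      ring
    have h3 := congrArg (fun Q : Polynomial ℂ => (Q : PowerSeries ℂ)) h2
    simp only [Polynomial.coe_mul, Polynomial.coe_add, Polynomial.coe_one] at h3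
    rw [map_mul, sj_Tj, Polynomial.coe_mul, ← hg1]
    linear_combination g * h3
  have h2 : (sj j y (Tj n j P * EM P M)).coeff a
      = PowerSeries.coeff a (g + g * ((sj j y (RM P M) : Polynomial ℂ) : PowerSeries ℂ)) := by
    rw [← h1, Polynomial.coeff_coe]
  rw [h2, map_add, PowerSeries.coeff_mul]
  refine (norm_add_le _ _).trans (add_le_add (hg2 a) ?_)
  refine (norm_sum_le _ _).trans ?_
  have hD : ∀ i ≤ a, ‖(sj j y (RM P M)).coeff i‖ ≤ DM P r a M := fun i hi =>
    norm_coeff_sj_RM_le P hP hz M j y hr0 hr1.le hy hi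
  calc ∑ x ∈ antidiagonal a, ‖PowerSeries.coeff x.1 g *
        PowerSeries.coeff x.2 ((sj j y (RM P M) : Polynomial ℂ) : PowerSeries ℂ)‖
      ≤ ∑ _x ∈ antidiagonal a, (n : ℝ) * DM P r a M := by
        apply Finset.sum_le_sum
        intro x hx
        rw [HasAntidiagonal.mem_antidiagonal] at hx
        rw [norm_mul, Polynomial.coeff_coe]
        exact mul_le_mul (hg2 _) (hD _ (by omega)) (norm_nonneg _) (Nat.cast_nonneg _)
    _ = n * ((a + 1) * DM P r a M) := by
        rw [Finset.sum_const, Finset.Nat.card_antidiagonal, nsmul_eq_mul]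
        push_cast
        ring

theorem row_bound_M (P : MvPolynomial (Fin d) ℂ) (hP : P.coeff 0 = 1)
    (hz : ∀ z : Fin d → ℂ, (∀ j, ‖z j‖ < 1) → eval z P ≠ 0) (M : ℕ) (j : Fin d)
    {r : ℝ} (hr0 : 0 ≤ r) (hr1 : r < 1) {n : ℕ} (hn : P.degreeOf j ≤ n) (a : ℕ)
    (s : Finset (Fin d →₀ ℕ)) (hs : ∀ k ∈ s, k j = a) :
    ∑ k ∈ s, (r ^ k.degree * ‖(Tj n j P * EM P M).coeff k‖) ^ 2
      ≤ (n + n * ((a + 1) * DM P r a M)) ^ 2 := by
  classical
  set F := Tj n j P * EM P M with hF
  set f : MvPolynomial (Fin d) ℂ := ∑ k ∈ F.support.filter (fun k => k j = a),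
    monomial k (F.coeff k * (r : ℂ) ^ k.degree) with hf
  have hfc : ∀ k, f.coeff k = if k j = a then F.coeff k * (r : ℂ) ^ k.degree else 0 := by
    intro k
    rw [hf, coeff_sum]
    simp only [coeff_monomial]
    rw [Finset.sum_ite_eq']
    by_cases hk : k ∈ F.support
    · by_cases hka : k j = a
      · rw [if_pos (Finset.mem_filter.2 ⟨hk, hka⟩), if_pos hka]
      · rw [if_neg (by simp [hka]), if_neg hka]
    · rw [if_neg (by simp only [Finset.mem_filter, hk, false_and, not_false_iff])]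
      rw [notMem_support_iff] at hk
      rw [hk]
      simp
  have heval : ∀ x, eval (tor x) f = ((r : ℂ) * tor x j) ^ a *
      (sj j (fun i => (r : ℂ) * tor x i) F).coeff a := by
    intro x
    rw [hf, map_sum, sj_coeff, Finset.sum_filter, Finset.mul_sum]
    apply Finset.sum_congr rfl
    intro k _
    split_ifs with hka
    · rw [eval_monomial, Finsupp.prod_fintype _ _ (by simp)]
      have h2 : k.degree = k j + ∑ l ∈ Finset.univ.erase j, k l := by
        rw [Finsupp.degree_eq_sum, Finset.add_sum_erase _ _ (Finset.mem_univ j)]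
      rw [h2, hka, ← Finset.mul_prod_erase _ _ (Finset.mem_univ j), hka]
      simp only [mul_pow]
      rw [Finset.prod_mul_distrib, Finset.prod_pow_eq_pow_sum, pow_add]
      ring
    · rw [mul_zero]
  have hbound : ∀ x, ‖eval (tor x) f‖ ^ 2 ≤ (n + n * ((a + 1) * DM P r a M)) ^ 2 := by
    intro x
    apply pow_le_pow_left₀ (norm_nonneg _)
    rw [heval, norm_mul, norm_pow, norm_mul, norm_tor, mul_one, Complex.norm_real,
      Real.norm_of_nonneg hr0]
    have h1 := norm_coeff_sj_le P hP hz M j (fun i => (r : ℂ) * tor x i) hr0 hr1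
      (fun i => by rw [norm_mul, norm_tor, mul_one, Complex.norm_real, Real.norm_of_nonneg hr0])
      hn a
    have h2 : r ^ a ≤ 1 := pow_le_one₀ hr0 hr1.le
    calc r ^ a * ‖(sj j (fun i => (r : ℂ) * tor x i) F).coeff a‖
        ≤ 1 * ‖(sj j (fun i => (r : ℂ) * tor x i) F).coeff a‖ :=
          mul_le_mul_of_nonneg_right h2 (norm_nonneg _)
      _ = ‖(sj j (fun i => (r : ℂ) * tor x i) F).coeff a‖ := one_mul _
      _ ≤ _ := h1
  refine le_trans ?_ (sum_sq_le f hbound)
  have h3 : ∑ k ∈ s, (r ^ k.degree * ‖F.coeff k‖) ^ 2 = ∑ k ∈ s, ‖f.coeff k‖ ^ 2 := by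
    apply Finset.sum_congr rfl
    intro k hk
    rw [hfc, if_pos (hs k hk), norm_mul, norm_pow, Complex.norm_real, Real.norm_of_nonneg hr0,
      mul_comm]
  rw [h3, ← Finset.sum_filter_add_sum_filter_not s (fun k => k ∈ f.support)]
  have h4 : ∑ k ∈ s.filter (fun k => k ∉ f.support), ‖f.coeff k‖ ^ 2 = 0 := by
    apply Finset.sum_eq_zero
    intro k hk
    rw [Finset.mem_filter, notMem_support_iff] at hk
    rw [hk.2]
    simp
  rw [h4, add_zero]
  apply Finset.sum_le_sum_of_subset_of_nonneg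
  · intro k hk
    exact (Finset.mem_filter.1 hk).2
  · intro k _ _
    positivity

/-- **Row bound**: in each row `k_j = a`, the `ℓ²` norm of the coefficients of
`(n P - z_j ∂_j P) / P` is at most `n`. -/
theorem row_bound (P : MvPolynomial (Fin d) ℂ) (hP : P.coeff 0 = 1)
    (hz : ∀ z : Fin d → ℂ, (∀ j, ‖z j‖ < 1) → eval z P ≠ 0) (j : Fin d)
    {n : ℕ} (hn : P.degreeOf j ≤ n) (a : ℕ)
    (s : Finset (Fin d →₀ ℕ)) (hs : ∀ k ∈ s, k j = a) :
    ∑ k ∈ s, ‖MvPowerSeries.coeff k ((Tj n j P : MvPowerSeries (Fin d) ℂ) *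
      (P : MvPowerSeries (Fin d) ℂ)⁻¹)‖ ^ 2 ≤ (n : ℝ) ^ 2 := by
  set c : (Fin d →₀ ℕ) → ℂ := fun k => MvPowerSeries.coeff k
    ((Tj n j P : MvPowerSeries (Fin d) ℂ) * (P : MvPowerSeries (Fin d) ℂ)⁻¹) with hc
  obtain ⟨K, hK⟩ : ∃ K : ℕ, ∀ k ∈ s, k.degree ≤ K :=
    ⟨s.sup (fun k => k.degree), fun k hk => Finset.le_sup (f := fun k => k.degree) hk⟩
  have h1 : ∀ r : ℝ, 0 < r → r < 1 → ∑ k ∈ s, (r ^ k.degree * ‖c k‖) ^ 2 ≤ (n : ℝ) ^ 2 := by
    intro r hr0 hr1
    have h2 : Tendsto (fun M => ((n : ℝ) + n * ((a + 1) * DM P r a M)) ^ 2) atTop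
        (𝓝 (((n : ℝ) + n * ((a + 1) * 0)) ^ 2)) := by
      apply Tendsto.pow
      apply Tendsto.const_add
      apply Tendsto.const_mul
      apply Tendsto.const_mul
      exact tendsto_DM P hr0 hr1 a
    rw [mul_zero, mul_zero, add_zero] at h2
    apply ge_of_tendsto h2
    filter_upwards [eventually_ge_atTop K] with M hM
    have h3 := row_bound_M P hP hz M j hr0.le hr1 hn a s hs
    refine le_trans (le_of_eq ?_) h3
    apply Finset.sum_congr rfl
    intro k hk
    simp only [hc]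
    rw [coeff_mul_inv P (Tj n j P) hP ((hK k hk).trans hM)]
  have h2 : Tendsto (fun r : ℝ => ∑ k ∈ s, (r ^ k.degree * ‖c k‖) ^ 2) (𝓝[<] 1)
      (𝓝 (∑ k ∈ s, ((1 : ℝ) ^ k.degree * ‖c k‖) ^ 2)) := by
    apply tendsto_finsetSum
    intro k _
    apply Tendsto.pow
    apply Tendsto.mul_const
    apply Tendsto.pow
    exact tendsto_nhdsWithin_of_tendsto_nhds tendsto_id
  simp only [one_pow, one_mul] at h2
  apply le_of_tendsto h2
  have h3 : ∀ᶠ r : ℝ in 𝓝[<] 1, 0 < r := by
    apply eventually_nhdsWithin_of_eventually_nhds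
    exact lt_mem_nhds one_pos
  filter_upwards [h3, self_mem_nhdsWithin] with r hr0 hr1
  exact h1 r hr0 hr1

end Pool.Agent.Helper49.Toral
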