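import Mathlib
import Pool.Agent.Helper49.CycRow
import Pool.Agent.Helper49.CycFunc
import Pool.Agent.Helper49.CycRefl

/-! Self-reflective irreducible polynomials: the exact range of cyclicity. -/

set_option autoImplicit false

namespace Pool.Agent.Helper49.Toral

open scoped ENNReal InnerProductSpace ComplexConjugate
open Filter Topology MvPolynomial Finset
open Pool.Agent.Helper49.Cyc Pool.Agent.Helper49.Torus Pool.Agent.Helper49.Univ

variable {d : ℕ}

theorem mul_row (F : MvPolynomial (Fin d) ℂ) (A : MvPowerSeries (Fin d) ℂ) (j : Fin d) {K : ℝ}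
    (hA : ∀ (a : ℕ) (s : Finset (Fin d →₀ ℕ)), (∀ k ∈ s, k j = a) →
      ∑ k ∈ s, ‖MvPowerSeries.coeff k A‖ ^ 2 ≤ K) :
    ∀ (a : ℕ) (s : Finset (Fin d →₀ ℕ)), (∀ k ∈ s, k j = a) →
      ∑ k ∈ s, ‖MvPowerSeries.coeff k ((F : MvPowerSeries (Fin d) ℂ) * A)‖ ^ 2 ≤ A1 F ^ 2 * K := by
  classical
  intro a s hs
  have hA1 := A1_nonneg F
  set B : (Fin d →₀ ℕ) → (Fin d →₀ ℕ) → ℂ := fun β k => if β ≤ k then MvPowerSeries.coeff (k - β) A else 0
    with hB
  have hcoef : ∀ k, MvPowerSeries.coeff k ((F : MvPowerSeries (Fin d) ℂ) * A)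
      = ∑ β ∈ F.support, F.coeff β * B β k := by
    intro k
    have h1 : (F : MvPowerSeries (Fin d) ℂ) = ∑ β ∈ F.support,
        MvPowerSeries.monomial β (F.coeff β) := by
      conv_lhs => rw [F.as_sum]
      rw [← MvPolynomial.coeToMvPowerSeries.ringHom_apply, map_sum]
      apply Finset.sum_congr rfl
      intro β _
      rw [MvPolynomial.coeToMvPowerSeries.ringHom_apply, MvPolynomial.coe_monomial]
    rw [h1, Finset.sum_mul, map_sum]
    apply Finset.sum_congr rfl
    intro β _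
    rw [MvPowerSeries.coeff_monomial_mul]
    simp only [hB]
    by_cases h : β ≤ k
    · rw [if_pos h, if_pos h]
    · rw [if_neg h, if_neg h, mul_zero]
  have hBrow : ∀ β, ∑ k ∈ s, ‖B β k‖ ^ 2 ≤ K := by
    intro β
    have h1 : ∑ k ∈ s, ‖B β k‖ ^ 2 = ∑ k ∈ s.filter (fun k => β ≤ k),
        ‖MvPowerSeries.coeff (k - β) A‖ ^ 2 := by
      rw [Finset.sum_filter]
      apply Finset.sum_congr rfl
      intro k _
      simp only [hB]
      split_ifs <;> simp
    have h2 : ∑ k ∈ s.filter (fun k => β ≤ k), ‖MvPowerSeries.coeff (k - β) A‖ ^ 2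
        = ∑ l ∈ (s.filter (fun k => β ≤ k)).image (fun k => k - β), ‖MvPowerSeries.coeff l A‖ ^ 2 := by
      rw [Finset.sum_image]
      intro x hx y hy hxy
      have hx' := (Finset.mem_filter.1 (Finset.mem_coe.1 hx)).2
      have hy' := (Finset.mem_filter.1 (Finset.mem_coe.1 hy)).2
      simp only at hxy
      calc x = x - β + β := (tsub_add_cancel_of_le hx').symm
        _ = y - β + β := by rw [hxy]
        _ = y := tsub_add_cancel_of_le hy'
    rw [h1, h2]
    apply hA (a - β j)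
    intro l hl
    rw [Finset.mem_image] at hl
    obtain ⟨k, hk, rfl⟩ := hl
    rw [Finsupp.tsub_apply, hs k (Finset.mem_filter.1 hk).1]
  have hCS : ∀ k, ‖∑ β ∈ F.support, F.coeff β * B β k‖ ^ 2
      ≤ A1 F * ∑ β ∈ F.support, ‖F.coeff β‖ * ‖B β k‖ ^ 2 := by
    intro k
    have h1 : ‖∑ β ∈ F.support, F.coeff β * B β k‖
        ≤ ∑ β ∈ F.support, Real.sqrt ‖F.coeff β‖ * (Real.sqrt ‖F.coeff β‖ * ‖B β k‖) := by
      refine (norm_sum_le _ _).trans (le_of_eq ?_)
      apply Finset.sum_congr rfl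
      intro β _
      rw [norm_mul, ← mul_assoc, Real.mul_self_sqrt (norm_nonneg _)]
    calc ‖∑ β ∈ F.support, F.coeff β * B β k‖ ^ 2
        ≤ (∑ β ∈ F.support, Real.sqrt ‖F.coeff β‖ * (Real.sqrt ‖F.coeff β‖ * ‖B β k‖)) ^ 2 := by
          gcongr
      _ ≤ (∑ β ∈ F.support, Real.sqrt ‖F.coeff β‖ ^ 2) *
          ∑ β ∈ F.support, (Real.sqrt ‖F.coeff β‖ * ‖B β k‖) ^ 2 :=
          Finset.sum_mul_sq_le_sq_mul_sq _ _ _
      _ = _ := by
          congr 1
          · apply Finset.sum_congr rfl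
            intro β _
            exact Real.sq_sqrt (norm_nonneg _)
          · apply Finset.sum_congr rfl
            intro β _
            rw [mul_pow, Real.sq_sqrt (norm_nonneg _)]
  calc ∑ k ∈ s, ‖MvPowerSeries.coeff k ((F : MvPowerSeries (Fin d) ℂ) * A)‖ ^ 2
      ≤ ∑ k ∈ s, A1 F * ∑ β ∈ F.support, ‖F.coeff β‖ * ‖B β k‖ ^ 2 := by
        apply Finset.sum_le_sum
        intro k _
        rw [hcoef]
        exact hCS k
    _ = A1 F * ∑ β ∈ F.support, ‖F.coeff β‖ * ∑ k ∈ s, ‖B β k‖ ^ 2 := by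
        rw [← Finset.mul_sum, Finset.sum_comm]
        simp only [Finset.mul_sum]
    _ ≤ A1 F * ∑ β ∈ F.support, ‖F.coeff β‖ * K := by
        apply mul_le_mul_of_nonneg_left _ hA1
        apply Finset.sum_le_sum
        intro β _
        exact mul_le_mul_of_nonneg_left (hBrow β) (norm_nonneg _)
    _ = A1 F ^ 2 * K := by
        rw [← Finset.sum_mul, A1]
        ring

/-- `∏_{i ∈ vars P} (n_i P - z_i ∂_i P)` -/
noncomputable def QQ (P : MvPolynomial (Fin d) ℂ) : MvPolynomial (Fin d) ℂ :=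
  ∏ i ∈ P.vars, Tj (P.degreeOf i) i P

/-- the quotient `QQ / P` -/
noncomputable def HS (P : MvPolynomial (Fin d) ℂ) : MvPowerSeries (Fin d) ℂ :=
  (QQ P : MvPowerSeries (Fin d) ℂ) * (P : MvPowerSeries (Fin d) ℂ)⁻¹

theorem HS_row (P : MvPolynomial (Fin d) ℂ) (hP : P.coeff 0 = 1)
    (hz : ∀ z : Fin d → ℂ, (∀ j, ‖z j‖ < 1) → eval z P ≠ 0) :
    ∃ K : ℝ, 0 ≤ K ∧ ∀ j ∈ P.vars, ∀ (a : ℕ) (s : Finset (Fin d →₀ ℕ)), (∀ k ∈ s, k j = a) →
      ∑ k ∈ s, ‖MvPowerSeries.coeff k (HS P)‖ ^ 2 ≤ K := by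
  classical
  have h1 : ∀ j : Fin d, ∃ K : ℝ, 0 ≤ K ∧ (j ∈ P.vars → ∀ (a : ℕ) (s : Finset (Fin d →₀ ℕ)),
      (∀ k ∈ s, k j = a) → ∑ k ∈ s, ‖MvPowerSeries.coeff k (HS P)‖ ^ 2 ≤ K) := by
    intro j
    set F := ∏ i ∈ P.vars.erase j, Tj (P.degreeOf i) i P with hF
    refine ⟨A1 F ^ 2 * (P.degreeOf j : ℝ) ^ 2, by positivity, fun hj => ?_⟩
    have h2 : HS P = (F : MvPowerSeries (Fin d) ℂ) * ((Tj (P.degreeOf j) j P : MvPowerSeries (Fin d) ℂ) *
        (P : MvPowerSeries (Fin d) ℂ)⁻¹) := by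
      rw [HS, QQ, ← Finset.mul_prod_erase _ _ hj, MvPolynomial.coe_mul, ← hF]
      ring
    rw [h2]
    exact mul_row F _ j fun a s hs => row_bound P hP hz j le_rfl a s hs
  choose K hK0 hK using h1
  refine ⟨∑ j, K j, Finset.sum_nonneg fun j _ => hK0 j, fun j hj a s hs => ?_⟩
  exact (hK j hj a s hs).trans (Finset.single_le_sum (f := K) (fun j _ => hK0 j) (Finset.mem_univ j))

theorem Tj_supported (P : MvPolynomial (Fin d) ℂ) (n : ℕ) (j : Fin d) :
    Tj n j P ∈ supported ℂ (P.vars : Set (Fin d)) := by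
  classical
  rw [mem_supported]
  intro i hi
  rw [Finset.mem_coe, mem_vars_iff_mem_support] at hi ⊢
  obtain ⟨α, hα, hαi⟩ := hi
  refine ⟨α, ?_, hαi⟩
  rw [mem_support_iff, coeff_Tj] at hα
  rw [mem_support_iff]
  exact right_ne_zero_of_mul hα

theorem QQ_supported (P : MvPolynomial (Fin d) ℂ) : QQ P ∈ supported ℂ (P.vars : Set (Fin d)) :=
  prod_mem fun i _ => Tj_supported P _ i

theorem HS_supported (P : MvPolynomial (Fin d) ℂ) (hP : P.coeff 0 = 1) {k : Fin d →₀ ℕ}
    (hk : MvPowerSeries.coeff k (HS P) ≠ 0) : k.support ⊆ P.vars := by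
  rw [HS, coeff_mul_inv P _ hP (le_refl k.degree)] at hk
  have h1 : QQ P * EM P k.degree ∈ supported ℂ (P.vars : Set (Fin d)) := by
    apply mul_mem (QQ_supported P)
    unfold EM FF
    apply sum_mem
    intro n _
    apply mul_mem _ (hh_supported P n)
    exact Subalgebra.algebraMap_mem _ _
  rw [mem_supported, Finset.coe_subset] at h1
  intro j hj
  apply h1
  rw [mem_vars_iff_mem_support]
  exact ⟨k, mem_support_iff.2 hk, hj⟩

theorem sum_range_rpow_le {c : ℝ} (hc : 1 < c) : ∃ Z : ℝ, 0 ≤ Z ∧ ∀ N : ℕ,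
    ∑ a ∈ range N, ((1 + (a : ℝ)) ^ c)⁻¹ ≤ Z := by
  have h1 : Summable fun a : ℕ => ((1 + (a : ℝ)) ^ c)⁻¹ := by
    have h2 := (Real.summable_nat_rpow_inv.2 hc)
    have h3 := (summable_nat_add_iff 1).2 h2
    refine h3.congr fun a => ?_
    push_cast
    rw [add_comm]
  refine ⟨∑' a : ℕ, ((1 + (a : ℝ)) ^ c)⁻¹, tsum_nonneg fun a => by positivity, fun N => ?_⟩
  exact h1.sum_le_tsum _ fun a _ => by positivity

theorem HS_energy (P : MvPolynomial (Fin d) ℂ) (hP : P.coeff 0 = 1)
    (hz : ∀ z : Fin d → ℂ, (∀ j, ‖z j‖ < 1) → eval z P ≠ 0) {t : ℝ}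
    (ht : 1 < t * P.vars.card) (κ : Fin d →₀ ℕ) :
    ∃ S : ℝ, ∀ s : Finset (Fin d →₀ ℕ),
      ∑ k ∈ s, ‖MvPowerSeries.coeff (k + κ) (HS P)‖ ^ 2 / weight t k ≤ S := by
  classical
  obtain ⟨K, hK0, hK⟩ := HS_row P hP hz
  set m := P.vars.card with hm
  have hmpos : 0 < m := by
    rcases Nat.eq_zero_or_pos m with h | h
    · rw [h] at ht; norm_num at ht
    · exact h
  have ht0 : 0 < t := by
    by_contra hcon
    push Not at hcon
    have : t * m ≤ 0 := mul_nonpos_of_nonpos_of_nonneg hcon (Nat.cast_nonneg _)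
    linarith
  obtain ⟨Z, hZ0, hZ⟩ := sum_range_rpow_le ht
  refine ⟨m * (K * Z), fun s => ?_⟩
  set b : (Fin d →₀ ℕ) → ℂ := fun k => MvPowerSeries.coeff (k + κ) (HS P) with hb
  -- pointwise bound
  have h1 : ∀ k, ‖b k‖ ^ 2 / weight t k ≤ ∑ j ∈ P.vars, ‖b k‖ ^ 2 * ((1 + (k j : ℝ)) ^ (t * m))⁻¹ := by
    intro k
    have hw := weight_pos t k
    by_cases hbk : b k = 0
    · rw [hbk]; simp
    have hsup : k.support ⊆ P.vars := by
      refine Finset.Subset.trans ?_ (HS_supported P hP hbk)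
      intro i hi
      rw [Finsupp.mem_support_iff] at hi ⊢
      rw [Finsupp.add_apply]
      omega
    obtain ⟨j, hj, hjmin⟩ := Finset.exists_min_image P.vars (fun i => k i)
      (Finset.card_pos.1 hmpos)
    have h2 : (1 + (k j : ℝ)) ^ (t * m) ≤ weight t k := by
      have h0 : weight t k = ∏ i ∈ P.vars, (1 + (k i : ℝ)) ^ t := by
        unfold weight
        symm
        apply Finset.prod_subset (Finset.subset_univ _)
        intro i _ hi
        have : k i = 0 := by
          by_contra h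
          exact hi (hsup (Finsupp.mem_support_iff.2 h))
        simp [this]
      rw [h0]
      calc (1 + (k j : ℝ)) ^ (t * m) = ∏ _i ∈ P.vars, (1 + (k j : ℝ)) ^ t := by
            rw [Finset.prod_const, ← Real.rpow_natCast, ← Real.rpow_mul (by positivity)]
        _ ≤ _ := by
            apply Finset.prod_le_prod
            · intro i _; positivity
            · intro i hi
              apply Real.rpow_le_rpow (by positivity) _ ht0.le
              have : (k j : ℝ) ≤ k i := by exact_mod_cast hjmin i hi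
              linarith
    calc ‖b k‖ ^ 2 / weight t k ≤ ‖b k‖ ^ 2 * ((1 + (k j : ℝ)) ^ (t * m))⁻¹ := by
          rw [div_eq_mul_inv]
          gcongr
      _ ≤ _ := Finset.single_le_sum (f := fun j => ‖b k‖ ^ 2 * ((1 + (k j : ℝ)) ^ (t * m))⁻¹)
          (fun i _ => by positivity) hj
  have h2 : ∀ j ∈ P.vars, ∑ k ∈ s, ‖b k‖ ^ 2 * ((1 + (k j : ℝ)) ^ (t * m))⁻¹ ≤ K * Z := by
    intro j hj
    obtain ⟨N, hN⟩ : ∃ N : ℕ, ∀ k ∈ s, k j < N :=
      ⟨s.sup (fun k => k j) + 1, fun k hk =>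
        Nat.lt_succ_of_le (Finset.le_sup (f := fun k => k j) hk)⟩
    rw [← Finset.sum_fiberwise_of_maps_to (g := fun k : Fin d →₀ ℕ => k j) (t := range N)]
    · calc ∑ a ∈ range N, ∑ k ∈ s.filter (fun k => k j = a), ‖b k‖ ^ 2 * ((1 + (k j : ℝ)) ^ (t * m))⁻¹
          ≤ ∑ a ∈ range N, K * ((1 + (a : ℝ)) ^ (t * m))⁻¹ := by
            apply Finset.sum_le_sum
            intro a _
            have h3 : ∑ k ∈ s.filter (fun k => k j = a), ‖b k‖ ^ 2 * ((1 + (k j : ℝ)) ^ (t * m))⁻¹
                = (∑ k ∈ s.filter (fun k => k j = a), ‖b k‖ ^ 2) * ((1 + (a : ℝ)) ^ (t * m))⁻¹ := by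
              rw [Finset.sum_mul]
              apply Finset.sum_congr rfl
              intro k hk
              rw [(Finset.mem_filter.1 hk).2]
            rw [h3]
            apply mul_le_mul_of_nonneg_right _ (by positivity)
            have h4 : ∑ k ∈ s.filter (fun k => k j = a), ‖b k‖ ^ 2
                = ∑ l ∈ (s.filter (fun k => k j = a)).image (fun k => k + κ),
                  ‖MvPowerSeries.coeff l (HS P)‖ ^ 2 := by
              rw [Finset.sum_image]
              intro x _ y _ hxy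
              exact add_right_cancel hxy
            rw [h4]
            apply hK j hj (a + κ j)
            intro l hl
            rw [Finset.mem_image] at hl
            obtain ⟨k, hk, rfl⟩ := hl
            rw [Finsupp.add_apply, (Finset.mem_filter.1 hk).2]
        _ = K * ∑ a ∈ range N, ((1 + (a : ℝ)) ^ (t * m))⁻¹ := by rw [Finset.mul_sum]
        _ ≤ K * Z := mul_le_mul_of_nonneg_left (hZ N) hK0
    · intro k hk
      exact Finset.mem_range.2 (hN k hk)
  calc ∑ k ∈ s, ‖b k‖ ^ 2 / weight t k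
      ≤ ∑ k ∈ s, ∑ j ∈ P.vars, ‖b k‖ ^ 2 * ((1 + (k j : ℝ)) ^ (t * m))⁻¹ :=
        Finset.sum_le_sum fun k _ => h1 k
    _ = ∑ j ∈ P.vars, ∑ k ∈ s, ‖b k‖ ^ 2 * ((1 + (k j : ℝ)) ^ (t * m))⁻¹ := Finset.sum_comm
    _ ≤ ∑ _j ∈ P.vars, K * Z := Finset.sum_le_sum h2
    _ = m * (K * Z) := by rw [Finset.sum_const, nsmul_eq_mul]


theorem not_dvd_euler (P : MvPolynomial (Fin d) ℂ) (hP : P.coeff 0 = 1) {i : Fin d}
    (hi : i ∈ P.vars) : ¬ P ∣ X i * pderiv i P := by
  classical
  rintro ⟨G, hG⟩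
  have hP0 : P ≠ 0 := by
    rintro rfl
    simp at hP
  have hne : X i * pderiv i P ≠ 0 := by
    intro h0
    rw [mem_vars_iff_mem_support] at hi
    obtain ⟨α, hα, hαi⟩ := hi
    have h1 := coeff_X_mul_pderiv i P α
    rw [h0, coeff_zero] at h1
    rw [mem_support_iff] at hα
    rw [Finsupp.mem_support_iff] at hαi
    have h2 : (α i : ℂ) ≠ 0 := by exact_mod_cast hαi
    exact mul_ne_zero h2 hα h1.symm
  have hG0 : G ≠ 0 := by
    rintro rfl
    rw [mul_zero] at hG
    exact hne hG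
  have h1 : (X i * pderiv i P).totalDegree ≤ P.totalDegree := by
    apply totalDegree_le_of_support_subset
    intro α hα
    rw [mem_support_iff, coeff_X_mul_pderiv] at hα
    rw [mem_support_iff]
    exact right_ne_zero_of_mul hα
  have h2 : (P * G).totalDegree = P.totalDegree + G.totalDegree :=
    totalDegree_mul_of_isDomain hP0 hG0
  have h3 : G.totalDegree = 0 := by
    rw [hG] at h1
    omega
  rw [totalDegree_eq_zero_iff_eq_C] at h3
  have h4 := coeff_X_mul_pderiv i P 0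
  rw [hG, h3, mul_comm, coeff_C_mul, hP] at h4
  simp only [Finsupp.coe_zero, Pi.zero_apply, Nat.cast_zero, mul_one] at h4
  rw [h4, C_0] at h3
  exact hG0 h3

theorem exists_kappa (P : MvPolynomial (Fin d) ℂ) (hP : P.coeff 0 = 1) (hirr : Irreducible P) :
    ∃ (κ : Fin d →₀ ℕ) (l : Fin d), MvPowerSeries.coeff κ (HS P) ≠ 0 ∧ (QQ P).degreeOf l < κ l := by
  classical
  by_contra hcon
  push Not at hcon
  set N : Fin d →₀ ℕ := Finsupp.equivFunOnFinite.symm (fun l => (QQ P).degreeOf l) with hN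
  set H0 : MvPolynomial (Fin d) ℂ := ∑ κ ∈ Finset.Iic N, monomial κ (MvPowerSeries.coeff κ (HS P))
    with hH0
  have h1 : (H0 : MvPowerSeries (Fin d) ℂ) = HS P := by
    ext κ
    rw [MvPolynomial.coeff_coe, hH0, coeff_sum]
    simp only [coeff_monomial]
    rw [Finset.sum_ite_eq']
    split_ifs with h
    · rfl
    · by_contra hne
      apply h
      rw [Finset.mem_Iic]
      intro l
      rw [hN, Finsupp.equivFunOnFinite_symm_apply_apply]
      exact hcon κ l (Ne.symm hne)
  have h2 : P * H0 = QQ P := by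
    apply MvPolynomial.coe_injective
    rw [MvPolynomial.coe_mul, h1, HS]
    linear_combination (QQ P : MvPowerSeries (Fin d) ℂ) * coe_mul_inv P hP
  have h3 : P ∣ QQ P := ⟨H0, h2.symm⟩
  have hprime : Prime P := hirr.prime
  rw [QQ] at h3
  obtain ⟨i, hi, hdvd⟩ := hprime.exists_mem_finset_dvd h3
  rw [Tj] at hdvd
  have h4 : P ∣ X i * pderiv i P := by
    have h5 := dvd_sub (Dvd.intro_left (C ((P.degreeOf i : ℕ) : ℂ)) rfl : P ∣ C ((P.degreeOf i : ℕ) : ℂ) * P) hdvd
    rwa [sub_sub_cancel] at h5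
  exact not_dvd_euler P hP hi h4

theorem HS_annihilates (P : MvPolynomial (Fin d) ℂ) (hP : P.coeff 0 = 1) (hr : SelfReflective P)
    {κ : Fin d →₀ ℕ} {l : Fin d} (hl : (QQ P).degreeOf l < κ l) (k : Fin d →₀ ℕ) :
    ∑ β ∈ P.support, P.coeff β * conj (MvPowerSeries.coeff (k + β + κ) (HS P)) = 0 := by
  classical
  obtain ⟨c, hc⟩ := hr
  set n : Fin d →₀ ℕ := Finsupp.equivFunOnFinite.symm (fun j => P.degreeOf j) with hn
  have hnj : ∀ j, n j = P.degreeOf j := fun j => by
    rw [hn, Finsupp.equivFunOnFinite_symm_apply_apply]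
  have hsub : P.support ⊆ Finset.Iic n := by
    intro β hβ
    rw [Finset.mem_Iic]
    intro j
    rw [hnj]
    exact monomial_le_degreeOf j hβ
  have hc0 : c ≠ 0 := by
    intro h0
    have h1 := hc n 0 (by intro j; rw [hnj]; simp)
    rw [h0, zero_mul, hP] at h1
    exact one_ne_zero h1
  -- the coefficient identity
  have h1 : ∑ β ∈ Finset.Iic n, P.coeff β * MvPowerSeries.coeff (k + κ + (n - β)) (HS P) = 0 := by
    have h2 : (P : MvPowerSeries (Fin d) ℂ) * HS P = (QQ P : MvPowerSeries (Fin d) ℂ) := by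
      rw [HS]
      linear_combination (QQ P : MvPowerSeries (Fin d) ℂ) * coe_mul_inv P hP
    have h3 := congrArg (MvPowerSeries.coeff (k + κ + n)) h2
    have h4 : MvPowerSeries.coeff (k + κ + n) (QQ P : MvPowerSeries (Fin d) ℂ) = 0 := by
      rw [MvPolynomial.coeff_coe]
      by_contra hne
      have h5 := monomial_le_degreeOf l (mem_support_iff.2 hne)
      rw [Finsupp.add_apply, Finsupp.add_apply] at h5
      omega
    rw [h4] at h3
    have h5 : (P : MvPowerSeries (Fin d) ℂ) = ∑ β ∈ P.support,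
        MvPowerSeries.monomial β (P.coeff β) := by
      conv_lhs => rw [P.as_sum]
      rw [← MvPolynomial.coeToMvPowerSeries.ringHom_apply, map_sum]
      apply Finset.sum_congr rfl
      intro β _
      rw [MvPolynomial.coeToMvPowerSeries.ringHom_apply, MvPolynomial.coe_monomial]
    rw [h5, Finset.sum_mul, map_sum] at h3
    rw [← h3]
    symm
    rw [Finset.sum_subset hsub]
    · apply Finset.sum_congr rfl
      intro β hβ
      rw [Finset.mem_Iic] at hβ
      rw [MvPowerSeries.coeff_monomial_mul, if_pos (hβ.trans le_add_self)]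
      rw [add_tsub_assoc_of_le hβ]
    · intro β _ hβ
      rw [notMem_support_iff] at hβ
      rw [hβ]
      simp
  have h2 : ∑ β ∈ Finset.Iic n, P.coeff β * MvPowerSeries.coeff (k + κ + (n - β)) (HS P)
      = ∑ β ∈ Finset.Iic n, P.coeff (n - β) * MvPowerSeries.coeff (k + κ + β) (HS P) := by
    apply Finset.sum_nbij' (fun β => n - β) (fun β => n - β)
    · intro β _
      rw [Finset.mem_Iic]
      exact tsub_le_self
    · intro β _
      rw [Finset.mem_Iic]
      exact tsub_le_self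
    · intro β hβ
      rw [Finset.mem_Iic] at hβ
      exact tsub_tsub_cancel_of_le hβ
    · intro β hβ
      rw [Finset.mem_Iic] at hβ
      exact tsub_tsub_cancel_of_le hβ
    · intro β hβ
      rw [Finset.mem_Iic] at hβ
      rw [tsub_tsub_cancel_of_le hβ]
  have h3 : ∀ β ∈ Finset.Iic n, P.coeff (n - β) = c * conj (P.coeff β) := by
    intro β hβ
    rw [Finset.mem_Iic] at hβ
    apply hc
    intro j
    rw [Finsupp.tsub_apply, ← hnj j]
    have := hβ j
    omega
  rw [h2, Finset.sum_congr rfl (fun β hβ => by rw [h3 β hβ, mul_assoc]), ← Finset.mul_sum] at h1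
  have h4 : ∑ β ∈ Finset.Iic n, conj (P.coeff β) * MvPowerSeries.coeff (k + κ + β) (HS P) = 0 := by
    rcases mul_eq_zero.1 h1 with h | h
    · exact absurd h hc0
    · exact h
  have h5 : ∑ β ∈ P.support, P.coeff β * conj (MvPowerSeries.coeff (k + β + κ) (HS P))
      = conj (∑ β ∈ Finset.Iic n, conj (P.coeff β) * MvPowerSeries.coeff (k + κ + β) (HS P)) := by
    rw [map_sum, Finset.sum_subset hsub]
    · apply Finset.sum_congr rfl
      intro β _
      rw [map_mul, Complex.conj_conj, add_right_comm]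
    · intro β _ hβ
      rw [notMem_support_iff] at hβ
      rw [hβ]
      simp
  rw [h5, h4, map_zero]

theorem not_shiftCyclic_aux (t : ℝ) (P : MvPolynomial (Fin d) ℂ) (hP : P.coeff 0 = 1)
    (hirr : Irreducible P) (hz : ∀ z : Fin d → ℂ, (∀ j, ‖z j‖ < 1) → eval z P ≠ 0)
    (hr : SelfReflective P) (ht : 1 < t * P.vars.card) : ¬ ShiftCyclic t P := by
  obtain ⟨κ, l, hκ, hl⟩ := exists_kappa P hP hirr
  obtain ⟨S, hS⟩ := HS_energy P hP hz ht κ
  apply not_shiftCyclic_of_seq t P (fun k => conj (MvPowerSeries.coeff (k + κ) (HS P))) S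
  · intro s
    simpa only [RCLike.norm_conj] using hS s
  · intro k
    exact HS_annihilates P hP hr hl k
  · show conj (MvPowerSeries.coeff (0 + κ) (HS P)) ≠ 0
    rw [zero_add]
    exact (map_ne_zero _).2 hκ

theorem shiftCyclic_C (t : ℝ) {a : ℂ} (ha : a ≠ 0) : ShiftCyclic t (C a : MvPolynomial (Fin d) ℂ) := by
  have h := shiftCyclic_one (d := d) t
  have h1 : (1 : MvPolynomial (Fin d) ℂ) = C a * C a⁻¹ := by
    rw [← C_mul, mul_inv_cancel₀ ha, C_1]
  rw [h1] at h
  exact h.of_mul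

/-- **Toral polynomials.** For a self-reflective irreducible polynomial without zeros in the
polydisk, shift-cyclicity holds exactly for `t m ≤ 1`, with `m` the number of its variables. -/
theorem shiftCyclic_toral_iff (t : ℝ) (P : MvPolynomial (Fin d) ℂ) (hirr : Irreducible P)
    (hz : ∀ z : Fin d → ℂ, (∀ j, ‖z j‖ < 1) → eval z P ≠ 0) (hr : SelfReflective P) :
    ShiftCyclic t P ↔ t * P.vars.card ≤ 1 := by
  constructor
  · intro h
    by_contra hcon
    push Not at hcon
    have h0 : P.coeff 0 ≠ 0 := by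
      have := hz 0 (by simp)
      rwa [MvPolynomial.eval_zero, constantCoeff_eq] at this
    set P' := C (P.coeff 0)⁻¹ * P with hP'
    have hinv := inv_ne_zero h0
    have hvars : P'.vars = P.vars := vars_C_mul _ hinv _
    have hdeg : ∀ j, P'.degreeOf j = P.degreeOf j := fun j => by
      rw [hP', degreeOf_eq_sup, degreeOf_eq_sup]
      have : (C (P.coeff 0)⁻¹ * P).support = P.support := by
        ext α
        rw [mem_support_iff, mem_support_iff, coeff_C_mul]
        simp [hinv]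
      rw [this]
    have hunit : IsUnit (C (P.coeff 0)⁻¹ : MvPolynomial (Fin d) ℂ) :=
      (IsUnit.mk0 _ hinv).map C
    have h1 : ¬ ShiftCyclic t P' := by
      apply not_shiftCyclic_aux t P'
      · rw [hP', coeff_C_mul, inv_mul_cancel₀ h0]
      · rw [hP', irreducible_isUnit_mul hunit]
        exact hirr
      · intro z hz'
        rw [hP', map_mul, eval_C]
        exact mul_ne_zero hinv (hz z hz')
      · obtain ⟨c, hc⟩ := hr
        refine ⟨(P.coeff 0)⁻¹ * c * (conj (P.coeff 0)⁻¹)⁻¹, fun α β hαβ => ?_⟩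
        rw [hP', coeff_C_mul, coeff_C_mul, hc α β (fun j => by rw [← hdeg]; exact hαβ j), map_mul]
        have he : conj (P.coeff 0)⁻¹ ≠ 0 := (map_ne_zero _).2 hinv
        generalize conj (P.coeff 0)⁻¹ = e at he ⊢
        field_simp
      · rw [hvars]
        exact hcon
    exact h1 ((shiftCyclic_C t hinv).mul h)
  · intro h
    exact shiftCyclic_of_vars t P hz h

end Pool.Agent.Helper49.Toral
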