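import Mathlib
import Pool.Agent.Helper49.CycToral

/-! Self-reflective polynomials: factors, and the characterisation of cyclicity. -/

set_option autoImplicit false

namespace Pool.Agent.Helper49.Toral

open scoped ENNReal InnerProductSpace ComplexConjugate
open Filter Topology MvPolynomial Finset
open Pool.Agent.Helper49.Cyc Pool.Agent.Helper49.Torus Pool.Agent.Helper49.Univ

variable {d : ℕ}

/-- A cyclic polynomial has no zeros in the open polydisk. -/
theorem ne_zero_of_shiftCyclic (t : ℝ) (P : MvPolynomial (Fin d) ℂ) (h : ShiftCyclic t P)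
    (z : Fin d → ℂ) (hz : ∀ j, ‖z j‖ < 1) : eval z P ≠ 0 := by
  classical
  intro h0
  -- the one-variable series
  have hsum : ∀ j : Fin d, Summable fun a : ℕ => ‖z j‖ ^ (2 * a) / (1 + (a : ℝ)) ^ t := by
    intro j
    have hr : ‖z j‖ ^ 2 < 1 := by
      have := hz j
      have h2 := norm_nonneg (z j)
      nlinarith
    obtain ⟨K, hK⟩ := exists_nat_ge |t|
    have h1 : Summable fun a : ℕ => ((a + 1 : ℕ) : ℝ) ^ K * (‖z j‖ ^ 2) ^ (a + 1) := by
      have := summable_pow_mul_geometric_of_norm_lt_one K (r := ‖z j‖ ^ 2)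
        (by rwa [Real.norm_of_nonneg (by positivity)])
      exact (summable_nat_add_iff 1).2 this
    by_cases hz0 : ‖z j‖ = 0
    · apply summable_of_ne_finset_zero (s := {0})
      intro a ha
      rw [Finset.mem_singleton] at ha
      rw [hz0, zero_pow (by omega), zero_div]
    have hzpos : 0 < ‖z j‖ := lt_of_le_of_ne (norm_nonneg _) (Ne.symm hz0)
    have h2 := h1.mul_right ((‖z j‖ ^ 2)⁻¹)
    apply Summable.of_nonneg_of_le _ _ h2
    · intro a; positivity
    · intro a
      have h3 : ((a + 1 : ℕ) : ℝ) ^ K * (‖z j‖ ^ 2) ^ (a + 1) * (‖z j‖ ^ 2)⁻¹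
          = ((a + 1 : ℕ) : ℝ) ^ K * (‖z j‖ ^ 2) ^ a := by
        rw [pow_succ]
        field_simp
      rw [h3, ← pow_mul, div_eq_mul_inv, mul_comm]
      apply mul_le_mul_of_nonneg_right _ (by positivity)
      rw [← Real.rpow_neg (by positivity), ← Real.rpow_natCast]
      push_cast
      rw [add_comm]
      apply Real.rpow_le_rpow_of_exponent_le (by
        have : (0 : ℝ) ≤ a := Nat.cast_nonneg a
        linarith)
      exact (neg_le_abs t).trans hK
  have h1 : ∀ j : Fin d, ∃ S : ℝ, 0 ≤ S ∧ ∀ s : Finset ℕ, ∑ a ∈ s, ‖z j‖ ^ (2 * a) / (1 + (a : ℝ)) ^ t ≤ S :=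
    fun j => ⟨∑' a : ℕ, ‖z j‖ ^ (2 * a) / (1 + (a : ℝ)) ^ t, tsum_nonneg fun a => by positivity,
      fun s => (hsum j).sum_le_tsum _ fun a _ => by positivity⟩
  choose S hS0 hS using h1
  refine not_shiftCyclic_of_seq t P (fun k => ∏ j, z j ^ k j) (∏ j, S j) ?_ ?_ 0 (by simp) h
  · intro s
    obtain ⟨N, hN⟩ : ∃ N : ℕ, ∀ k ∈ s, ∀ j, k j ≤ N := by
      refine ⟨s.sup (fun k => k.degree), fun k hk j => ?_⟩
      exact (Finsupp.le_degree j k).trans (Finset.le_sup (f := fun k => k.degree) hk)
    have h2 : ∑ k ∈ s, ‖∏ j, z j ^ k j‖ ^ 2 / weight t k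
        ≤ ∑ k ∈ Fintype.piFinset (fun _ : Fin d => range (N + 1)),
          ∏ j, ‖z j‖ ^ (2 * k j) / (1 + (k j : ℝ)) ^ t := by
      have h3 : ∑ k ∈ s, ‖∏ j, z j ^ k j‖ ^ 2 / weight t k
          = ∑ k ∈ s.image (fun k : Fin d →₀ ℕ => (k : Fin d → ℕ)),
            ∏ j, ‖z j‖ ^ (2 * k j) / (1 + (k j : ℝ)) ^ t := by
        rw [Finset.sum_image]
        · apply Finset.sum_congr rfl
          intro k _
          rw [norm_prod, ← Finset.prod_pow, weight, ← Finset.prod_div_distrib]
          apply Finset.prod_congr rfl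
          intro j _
          rw [norm_pow, ← pow_mul, mul_comm]
        · intro x _ y _ hxy
          exact DFunLike.coe_injective hxy
      rw [h3]
      apply Finset.sum_le_sum_of_subset_of_nonneg
      · intro k hk
        rw [Finset.mem_image] at hk
        obtain ⟨k', hk', rfl⟩ := hk
        rw [Fintype.mem_piFinset]
        intro j
        rw [Finset.mem_range]
        have := hN k' hk' j
        omega
      · intro k _ _
        apply Finset.prod_nonneg
        intro j _
        positivity
    refine h2.trans ?_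
    rw [Finset.sum_prod_piFinset (range (N + 1)) (fun j a => ‖z j‖ ^ (2 * a) / (1 + (a : ℝ)) ^ t)]
    apply Finset.prod_le_prod
    · intro j _
      exact Finset.sum_nonneg fun a _ => by positivity
    · intro j _
      exact hS j _
  · intro k
    have h2 : ∀ β ∈ P.support, P.coeff β * ∏ j, z j ^ (k + β) j
        = (∏ j, z j ^ k j) * (P.coeff β * ∏ j, z j ^ β j) := by
      intro β _
      simp only [Finsupp.add_apply, pow_add, Finset.prod_mul_distrib]
      ring
    rw [Finset.sum_congr rfl h2, ← Finset.mul_sum, ← eval_eq', h0, mul_zero]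

theorem one_var_reflect (q : Polynomial ℂ) (hq : ∀ z : ℂ, q.eval z = 0 → ‖z‖ = 1) :
    conj (q.eval 1) * q.coeff 0 = conj q.leadingCoeff * q.eval 1 := by
  have hsplit : q = Polynomial.C q.leadingCoeff * (q.roots.map fun a => Polynomial.X - Polynomial.C a).prod :=
    (IsAlgClosed.splits q).eq_prod_roots
  by_cases hq0 : q = 0
  · rw [hq0]; simp
  have hroots : ∀ a ∈ q.roots, ‖a‖ = 1 := fun a ha => hq a (Polynomial.isRoot_of_mem_roots ha)
  have h1 : q.eval 1 = q.leadingCoeff * (q.roots.map fun a => 1 - a).prod := by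
    conv_lhs => rw [hsplit]
    rw [Polynomial.eval_mul, Polynomial.eval_C, Polynomial.eval_multiset_prod, Multiset.map_map]
    simp
  have h2 : q.coeff 0 = q.leadingCoeff * (q.roots.map fun a => -a).prod := by
    conv_lhs => rw [hsplit]
    rw [Polynomial.coeff_zero_eq_eval_zero, Polynomial.eval_mul, Polynomial.eval_C,
      Polynomial.eval_multiset_prod, Multiset.map_map]
    simp
  have h3 : ∀ M : Multiset ℂ, (∀ a ∈ M, ‖a‖ = 1) →
      conj (M.map fun a => 1 - a).prod * (M.map fun a => -a).prod = (M.map fun a => 1 - a).prod := by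
    intro M
    induction M using Multiset.induction_on with
    | empty => simp
    | cons a M ih =>
      intro hM
      have ha := hM a (Multiset.mem_cons_self a M)
      have ih' := ih fun x hx => hM x (Multiset.mem_cons_of_mem hx)
      rw [Multiset.map_cons, Multiset.prod_cons, Multiset.map_cons, Multiset.prod_cons, map_mul,
        map_sub, map_one]
      have h4 : conj a * a = 1 := by
        rw [← Complex.normSq_eq_conj_mul_self, Complex.normSq_eq_norm_sq, ha]
        simp
      linear_combination (1 - a) * ih' + (conj (M.map fun a => 1 - a).prod *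
        (M.map fun a => -a).prod) * h4
  rw [h1, h2, map_mul]
  linear_combination (conj q.leadingCoeff * q.leadingCoeff) * h3 q.roots hroots

theorem eval_reflect (P : MvPolynomial (Fin d) ℂ) {c : ℂ}
    (hc : ∀ α β : Fin d →₀ ℕ, (∀ j, α j + β j = P.degreeOf j) →
    P.coeff β = c * conj (P.coeff α)) (w : Fin d → ℂ) (hw : ∀ j, w j ≠ 0) :
    eval w P = c * (∏ j, w j ^ P.degreeOf j) * conj (eval (fun j => (conj (w j))⁻¹) P) := by
  classical
  set n : Fin d →₀ ℕ := Finsupp.equivFunOnFinite.symm (fun j => P.degreeOf j) with hn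
  have hnj : ∀ j, n j = P.degreeOf j := fun j => by
    rw [hn, Finsupp.equivFunOnFinite_symm_apply_apply]
  have hsub : P.support ⊆ Finset.Iic n := by
    intro β hβ
    rw [Finset.mem_Iic]
    intro j
    rw [hnj]
    exact monomial_le_degreeOf j hβ
  rw [eval_eq', eval_eq', map_sum, Finset.mul_sum]
  rw [Finset.sum_subset hsub (f := fun β => P.coeff β * ∏ i, w i ^ β i)
    (by intro β _ hβ; rw [notMem_support_iff] at hβ; rw [hβ, zero_mul])]
  rw [Finset.sum_subset hsub (f := fun β => c * (∏ j, w j ^ P.degreeOf j) *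
      conj (P.coeff β * ∏ i, (conj (w i))⁻¹ ^ β i))
    (by intro β _ hβ; rw [notMem_support_iff] at hβ; rw [hβ]; simp)]
  apply Finset.sum_nbij' (fun β => n - β) (fun β => n - β)
  · intro β _
    rw [Finset.mem_Iic]
    exact tsub_le_self
  · intro β _
    rw [Finset.mem_Iic]
    exact tsub_le_self
  · intro β hβ
    rw [Finset.mem_Iic] at hβ
    exact tsub_tsub_cancel_of_le hβ
  · intro β hβ
    rw [Finset.mem_Iic] at hβ
    exact tsub_tsub_cancel_of_le hβ
  · intro β hβ
    rw [Finset.mem_Iic] at hβ
    rw [hc (n - β) β (by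
      intro j
      rw [Finsupp.tsub_apply, ← hnj j]
      have := hβ j
      omega), map_mul]
    have h1 : (∏ j, w j ^ P.degreeOf j) * conj (∏ i, (conj (w i))⁻¹ ^ (n - β) i) = ∏ i, w i ^ β i := by
      rw [map_prod, ← Finset.prod_mul_distrib]
      apply Finset.prod_congr rfl
      intro j _
      rw [map_pow, map_inv₀, Complex.conj_conj, Finsupp.tsub_apply, ← hnj j]
      have h2 := hβ j
      have h3 : w j ^ n j = w j ^ β j * w j ^ (n j - β j) := by
        rw [← pow_add]
        congr 1
        omega
      rw [h3, inv_pow, mul_assoc, mul_inv_cancel₀ (pow_ne_zero _ (hw j)), mul_one]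
    linear_combination (-(c * conj (P.coeff (n - β)))) * h1

theorem poly_zero_of_torus (F : MvPolynomial (Fin d) ℂ) (h : ∀ x, eval (tor x) F = 0) : F = 0 := by
  have h1 := sum_sq_le F (B := 0) (fun x => by rw [h x]; simp)
  ext α
  rw [coeff_zero]
  by_cases hα : α ∈ F.support
  · have h2 := (Finset.single_le_sum (f := fun α => ‖F.coeff α‖ ^ 2) (fun _ _ => by positivity) hα).trans h1
    have h3 : ‖F.coeff α‖ ^ 2 = 0 := le_antisymm h2 (by positivity)
    simpa using h3
  · rwa [notMem_support_iff] at hα

/-- Factors of self-reflective polynomials without zeros in the polydisk are self-reflective. -/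
theorem SelfReflective_of_dvd {P Q : MvPolynomial (Fin d) ℂ} (hr : SelfReflective P)
    (hz : ∀ z : Fin d → ℂ, (∀ j, ‖z j‖ < 1) → eval z P ≠ 0) (hQ : Q ∣ P) : SelfReflective Q := by
  classical
  obtain ⟨R, hR⟩ := hQ
  obtain ⟨c, hc⟩ := hr
  have hP0 : P.coeff 0 ≠ 0 := by
    have := hz 0 (by simp)
    rwa [MvPolynomial.eval_zero, constantCoeff_eq] at this
  have hPne : P ≠ 0 := by
    rintro rfl
    simp at hP0
  have hQne : Q ≠ 0 := by rintro rfl; rw [zero_mul] at hR; exact hPne hR
  have hRne : R ≠ 0 := by rintro rfl; rw [mul_zero] at hR; exact hPne hR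
  set nf : MvPolynomial (Fin d) ℂ → (Fin d →₀ ℕ) := fun F =>
    Finsupp.equivFunOnFinite.symm (fun j => F.degreeOf j) with hnf
  have hnfj : ∀ F j, nf F j = F.degreeOf j := fun F j => by
    rw [hnf, Finsupp.equivFunOnFinite_symm_apply_apply]
  have hle : ∀ F : MvPolynomial (Fin d) ℂ, ∀ β ∈ F.support, β ≤ nf F := by
    intro F β hβ j
    rw [hnfj]
    exact monomial_le_degreeOf j hβ
  have hnadd : nf P = nf Q + nf R := by
    ext j
    rw [Finsupp.add_apply, hnfj, hnfj, hnfj, hR, degreeOf_mul_eq hQne hRne]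
  -- the top coefficients
  have hc0 : c ≠ 0 := by
    intro h0
    have h1 := hc (nf P) 0 (by intro j; rw [hnfj]; simp)
    rw [h0, zero_mul] at h1
    exact hP0 h1
  have hPn : P.coeff (nf P) ≠ 0 := by
    rw [hc 0 (nf P) (by intro j; rw [hnfj]; simp)]
    exact mul_ne_zero hc0 ((map_ne_zero _).2 hP0)
  have hQn : Q.coeff (nf Q) ≠ 0 := by
    intro h0
    apply hPn
    have key : coeff (nf Q + nf R) (Q * R) = 0 := by
      rw [coeff_mul]
      apply Finset.sum_eq_zero
      intro x hx
      rw [HasAntidiagonal.mem_antidiagonal] at hx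
      by_cases hx1 : x.1 ∈ Q.support
      · by_cases hx2 : x.2 ∈ R.support
        · have h1 := hle Q _ hx1
          have h2 := hle R _ hx2
          have h3 : x.1 = nf Q := by
            ext j
            have h4 := DFunLike.congr_fun hx j
            rw [Finsupp.add_apply, Finsupp.add_apply] at h4
            have h5 := h1 j
            have h6 := h2 j
            omega
          rw [h3, h0, zero_mul]
        · rw [notMem_support_iff] at hx2
          rw [hx2, mul_zero]
      · rw [notMem_support_iff] at hx1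
        rw [hx1, zero_mul]
    rw [hnadd]
    conv_lhs => rw [hR]
    exact key
  have hQ0 : Q.coeff 0 ≠ 0 := by
    intro h0
    apply hP0
    rw [hR, ← constantCoeff_eq, map_mul, constantCoeff_eq, h0, zero_mul]
  -- the slices have their zeros on the circle
  have hslice : ∀ x, ∀ z : ℂ, (sl Q (tor x)).eval z = 0 → ‖z‖ = 1 := by
    intro x z hz0
    rw [eval_sl] at hz0
    have hPz : eval (fun j => z * tor x j) P = 0 := by rw [hR, map_mul, hz0, zero_mul]
    rcases lt_trichotomy ‖z‖ 1 with h | h | h
    · exact absurd hPz (hz _ fun j => by rw [norm_mul, norm_tor, mul_one]; exact h)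
    · exact h
    · exfalso
      have hzne : z ≠ 0 := by
        intro h0
        rw [h0, norm_zero] at h
        linarith
      have htne : ∀ j, tor x j ≠ 0 := fun j => by
        intro h0
        have := norm_tor x j
        rw [h0, norm_zero] at this
        norm_num at this
      rw [eval_reflect P hc _ (fun j => mul_ne_zero hzne (htne j))] at hPz
      have h1 : ∏ j, (z * tor x j) ^ P.degreeOf j ≠ 0 :=
        Finset.prod_ne_zero_iff.2 fun j _ => pow_ne_zero _ (mul_ne_zero hzne (htne j))
      rcases mul_eq_zero.1 hPz with h2 | h2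
      · exact (mul_ne_zero hc0 h1) h2
      · rw [map_eq_zero] at h2
        refine hz _ (fun j => ?_) h2
        rw [norm_inv, RCLike.norm_conj, norm_mul, norm_tor, mul_one]
        exact inv_lt_one_of_one_lt₀ h
  -- leading coefficient of the slice
  set N := ∑ j, Q.degreeOf j with hN
  have hdeg : ∀ α ∈ Q.support, α.degree ≤ N ∧ (α.degree = N → α = nf Q) := by
    intro α hα
    have h1 := hle Q α hα
    have h2 : ∀ j, α j ≤ Q.degreeOf j := fun j => by rw [← hnfj]; exact h1 j
    rw [Finsupp.degree_eq_sum]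
    refine ⟨Finset.sum_le_sum fun j _ => h2 j, fun h => ?_⟩
    have h3 := (Finset.sum_eq_sum_iff_of_le (fun j _ => h2 j)).1 h
    ext j
    rw [hnfj]
    exact h3 j (Finset.mem_univ j)
  have hcoefN : ∀ x, (sl Q (tor x)).coeff N = Q.coeff (nf Q) * ∏ j, tor x j ^ Q.degreeOf j := by
    intro x
    rw [coeff_sl]
    have h1 : homogeneousComponent N Q = monomial (nf Q) (Q.coeff (nf Q)) := by
      ext α
      rw [coeff_homogeneousComponent, coeff_monomial]
      have hdn : (nf Q).degree = N := by
        rw [Finsupp.degree_eq_sum, hN]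
        exact Finset.sum_congr rfl fun j _ => hnfj Q j
      by_cases hα : nf Q = α
      · rw [← hα, if_pos hdn, if_pos rfl]
      · rw [if_neg hα]
        split_ifs with h
        · by_contra hne
          exact hα ((hdeg α (mem_support_iff.2 hne)).2 h).symm
        · rfl
    rw [h1, eval_monomial, Finsupp.prod_fintype _ _ (by simp)]
    congr 1
  have hnd : ∀ x, (sl Q (tor x)).natDegree = N := by
    intro x
    apply le_antisymm
    · rw [Polynomial.natDegree_le_iff_coeff_eq_zero]
      intro m hm
      rw [coeff_sl, homogeneousComponent_eq_zero', map_zero]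
      intro α hα
      have := (hdeg α hα).1
      omega
    · apply Polynomial.le_natDegree_of_ne_zero
      rw [hcoefN]
      apply mul_ne_zero hQn
      apply Finset.prod_ne_zero_iff.2
      intro j _
      apply pow_ne_zero
      intro h0
      have := norm_tor x j
      rw [h0, norm_zero] at this
      norm_num at this
  -- the reflection identity on the torus
  have hrefl : ∀ x, (∏ j, tor x j ^ Q.degreeOf j) * conj (eval (tor x) Q) * Q.coeff 0
      = conj (Q.coeff (nf Q)) * eval (tor x) Q := by
    intro x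
    have h1 := one_var_reflect (sl Q (tor x)) (hslice x)
    have h2 : (sl Q (tor x)).eval 1 = eval (tor x) Q := by
      rw [eval_sl]
      simp
    have h3 : (sl Q (tor x)).coeff 0 = Q.coeff 0 := by
      rw [coeff_sl, homogeneousComponent_zero]
      simp
    have h4 : (sl Q (tor x)).leadingCoeff = Q.coeff (nf Q) * ∏ j, tor x j ^ Q.degreeOf j := by
      rw [Polynomial.leadingCoeff, hnd, hcoefN]
    rw [h2, h3, h4, map_mul] at h1
    have h5 : conj (∏ j, tor x j ^ Q.degreeOf j) * ∏ j, tor x j ^ Q.degreeOf j = 1 := by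
      rw [← Complex.normSq_eq_conj_mul_self, Complex.normSq_eq_norm_sq, norm_prod]
      simp [norm_tor]
    linear_combination (∏ j, tor x j ^ Q.degreeOf j) * h1 +
      (conj (Q.coeff (nf Q)) * eval (tor x) Q) * h5
  -- the reflected polynomial
  set Qs : MvPolynomial (Fin d) ℂ := ∑ α ∈ Q.support, monomial (nf Q - α) (conj (Q.coeff α)) with hQs
  have hQse : ∀ x, eval (tor x) Qs = (∏ j, tor x j ^ Q.degreeOf j) * conj (eval (tor x) Q) := by
    intro x
    rw [hQs, map_sum, eval_eq', map_sum, Finset.mul_sum]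
    apply Finset.sum_congr rfl
    intro α hα
    rw [eval_monomial, Finsupp.prod_fintype _ _ (by simp), map_mul]
    have h1 : (∏ j, tor x j ^ Q.degreeOf j) * conj (∏ i, tor x i ^ α i) = ∏ i, tor x i ^ (nf Q - α) i := by
      rw [map_prod, ← Finset.prod_mul_distrib]
      apply Finset.prod_congr rfl
      intro j _
      rw [Finsupp.tsub_apply, hnfj, map_pow]
      have h2 := hle Q α hα j
      rw [hnfj] at h2
      have h3 : tor x j ^ Q.degreeOf j = tor x j ^ (Q.degreeOf j - α j) * tor x j ^ α j := by
        rw [← pow_add]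
        congr 1
        omega
      have h4 : tor x j ^ α j * conj (tor x j) ^ α j = 1 := by
        rw [← mul_pow, mul_comm, ← Complex.normSq_eq_conj_mul_self, Complex.normSq_eq_norm_sq, norm_tor]
        simp
      rw [h3, mul_assoc, h4, mul_one]
    linear_combination (- conj (Q.coeff α)) * h1
  have hkey : C (Q.coeff 0) * Qs - C (conj (Q.coeff (nf Q))) * Q = 0 := by
    apply poly_zero_of_torus
    intro x
    rw [map_sub, map_mul, map_mul, eval_C, eval_C, hQse]
    linear_combination hrefl x
  have hcoefs : ∀ β, β ≤ nf Q → Qs.coeff β = conj (Q.coeff (nf Q - β)) := by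
    intro β hβ
    rw [hQs, coeff_sum]
    rw [Finset.sum_eq_single (nf Q - β)]
    · rw [tsub_tsub_cancel_of_le hβ, coeff_monomial, if_pos rfl]
    · intro α hα hne
      rw [coeff_monomial, if_neg]
      intro h
      apply hne
      rw [← h, tsub_tsub_cancel_of_le (hle Q α hα)]
    · intro h
      rw [notMem_support_iff] at h
      rw [h, map_zero, monomial_zero, coeff_zero]
  refine ⟨Q.coeff 0 / conj (Q.coeff (nf Q)), fun α β hαβ => ?_⟩
  have hβ : β ≤ nf Q := by
    intro j
    rw [hnfj, ← hαβ j]
    exact Nat.le_add_left _ _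
  have hα : nf Q - β = α := by
    ext j
    rw [Finsupp.tsub_apply, hnfj, ← hαβ j]
    omega
  have h1 := congrArg (MvPolynomial.coeff β) hkey
  rw [coeff_sub, coeff_C_mul, coeff_C_mul, hcoefs β hβ, hα, coeff_zero] at h1
  have h2 : conj (Q.coeff (nf Q)) ≠ 0 := (map_ne_zero _).2 hQn
  field_simp
  linear_combination -h1

/-- **Self-reflective polynomials.** -/
theorem shiftCyclic_iff_of_selfReflective (t : ℝ) (P : MvPolynomial (Fin d) ℂ)
    (hr : SelfReflective P) :
    ShiftCyclic t P ↔ (∀ z : Fin d → ℂ, (∀ j, ‖z j‖ < 1) → eval z P ≠ 0) ∧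
      ∀ Q : MvPolynomial (Fin d) ℂ, Irreducible Q → Q ∣ P → t * Q.vars.card ≤ 1 := by
  classical
  constructor
  · intro h
    have hz := ne_zero_of_shiftCyclic t P h
    refine ⟨hz, fun Q hQ hQP => ?_⟩
    have hzQ : ∀ z : Fin d → ℂ, (∀ j, ‖z j‖ < 1) → eval z Q ≠ 0 := by
      intro z hz' h0
      obtain ⟨R, hR⟩ := hQP
      apply hz z hz'
      rw [hR, map_mul, h0, zero_mul]
    rw [← shiftCyclic_toral_iff t Q hQ hzQ (SelfReflective_of_dvd hr hz hQP)]
    obtain ⟨R, rfl⟩ := hQP
    exact h.of_mul
  · rintro ⟨hz, hfac⟩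
    have hPne : P ≠ 0 := by
      rintro rfl
      exact hz 0 (by simp) (by simp)
    have h1 : ∀ F : MvPolynomial (Fin d) ℂ, F ≠ 0 → F ∣ P → ShiftCyclic t F := by
      intro F hF
      induction F using UniqueFactorizationMonoid.induction_on_prime with
      | h₁ => exact absurd rfl hF
      | h₂ u hu =>
        intro _
        obtain ⟨v, hv⟩ := hu.exists_right_inv
        have h := shiftCyclic_one (d := d) t
        rw [← hv] at h
        exact h.of_mul
      | h₃ a p ha hp ih =>
        intro hdvd
        have hpdvd : p ∣ P := (Dvd.intro _ rfl).trans hdvd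
        have hadvd : a ∣ P := (Dvd.intro_left _ rfl).trans hdvd
        apply ShiftCyclic.mul _ (ih ha hadvd)
        apply shiftCyclic_of_vars
        · intro z hz' h0
          obtain ⟨R, hR⟩ := hpdvd
          apply hz z hz'
          rw [hR, map_mul, h0, zero_mul]
        · exact hfac p hp.irreducible hpdvd
    exact h1 P hPne dvd_rfl

end Pool.Agent.Helper49.Toral
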