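import Mathlib
import Pool.Agent.Helper49.CycSelf
import Pool.Agent.Helper49.LojMain

/-! Comparison: cyclicity of polynomials depends only on the zero set on the torus. -/

set_option autoImplicit false

namespace Pool.Agent.Helper49.Comp

open scoped ENNReal InnerProductSpace
open Filter Topology MvPolynomial Finset
open Pool.Agent.Helper49.Cyc Pool.Agent.Helper49.Torus Pool.Agent.Helper49.Univ
open Pool.Agent.Helper49.Toral

variable {d : ℕ}

/-- weighted `ℓ¹` norm of the coefficients -/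
noncomputable def wn (K : ℕ) (G : MvPolynomial (Fin d) ℂ) : ℝ :=
  ∑ α ∈ G.support, ‖G.coeff α‖ * (1 + (α.degree : ℝ)) ^ K

theorem wn_nonneg (K : ℕ) (G : MvPolynomial (Fin d) ℂ) : 0 ≤ wn K G :=
  Finset.sum_nonneg fun _ _ => by positivity

theorem wn_eq (K : ℕ) (G : MvPolynomial (Fin d) ℂ) {s : Finset (Fin d →₀ ℕ)} (hs : G.support ⊆ s) :
    wn K G = ∑ α ∈ s, ‖G.coeff α‖ * (1 + (α.degree : ℝ)) ^ K := by
  unfold wn
  apply Finset.sum_subset hs
  intro α _ hα
  rw [notMem_support_iff] at hα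
  rw [hα]
  simp

theorem wn_add_le (K : ℕ) (F G : MvPolynomial (Fin d) ℂ) : wn K (F + G) ≤ wn K F + wn K G := by
  classical
  set s := F.support ∪ G.support
  rw [wn_eq K (F + G) (s := s) support_add, wn_eq K F (s := s) Finset.subset_union_left,
    wn_eq K G (s := s) Finset.subset_union_right, ← Finset.sum_add_distrib]
  apply Finset.sum_le_sum
  intro α _
  rw [coeff_add, ← add_mul]
  gcongr
  exact norm_add_le _ _

theorem wn_zero (K : ℕ) : wn K (0 : MvPolynomial (Fin d) ℂ) = 0 := by simp [wn]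

theorem wn_sum_le {ι : Type*} (K : ℕ) (s : Finset ι) (F : ι → MvPolynomial (Fin d) ℂ) :
    wn K (∑ i ∈ s, F i) ≤ ∑ i ∈ s, wn K (F i) := by
  classical
  induction s using Finset.induction_on with
  | empty => simp [wn_zero]
  | insert a s ha ih =>
    rw [Finset.sum_insert ha, Finset.sum_insert ha]
    exact (wn_add_le _ _ _).trans (by gcongr)

theorem wn_monomial (K : ℕ) (α : Fin d →₀ ℕ) (a : ℂ) :
    wn K (monomial α a) = ‖a‖ * (1 + (α.degree : ℝ)) ^ K := by
  classical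
  rw [wn_eq K (monomial α a) (s := {α}) support_monomial_subset, Finset.sum_singleton,
    coeff_monomial, if_pos rfl]

theorem wn_mul_le (K : ℕ) (F G : MvPolynomial (Fin d) ℂ) : wn K (F * G) ≤ wn K F * wn K G := by
  classical
  have h1 : F * G = ∑ α ∈ F.support, ∑ β ∈ G.support, monomial (α + β) (F.coeff α * G.coeff β) := by
    conv_lhs => rw [F.as_sum, G.as_sum, Finset.sum_mul_sum]
    apply Finset.sum_congr rfl
    intro α _
    apply Finset.sum_congr rfl
    intro β _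
    rw [monomial_mul]
  rw [h1]
  refine (wn_sum_le _ _ _).trans ?_
  unfold wn
  rw [Finset.sum_mul_sum]
  apply Finset.sum_le_sum
  intro α _
  refine (wn_sum_le _ _ _).trans ?_
  apply Finset.sum_le_sum
  intro β _
  rw [wn_monomial, norm_mul, map_add]
  have h2 : (1 + ((α.degree + β.degree : ℕ) : ℝ)) ^ K
      ≤ (1 + (α.degree : ℝ)) ^ K * (1 + (β.degree : ℝ)) ^ K := by
    rw [← mul_pow]
    apply pow_le_pow_left₀ (by positivity)
    push_cast
    have h3 : (0 : ℝ) ≤ α.degree := Nat.cast_nonneg _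
    have h4 : (0 : ℝ) ≤ β.degree := Nat.cast_nonneg _
    nlinarith
  calc ‖F.coeff α‖ * ‖G.coeff β‖ * (1 + ((α.degree + β.degree : ℕ) : ℝ)) ^ K
      ≤ ‖F.coeff α‖ * ‖G.coeff β‖ * ((1 + (α.degree : ℝ)) ^ K * (1 + (β.degree : ℝ)) ^ K) := by gcongr
    _ = _ := by ring

theorem wn_C_mul (K : ℕ) (a : ℂ) (G : MvPolynomial (Fin d) ℂ) : wn K (C a * G) ≤ ‖a‖ * wn K G := by
  refine (wn_mul_le _ _ _).trans (le_of_eq ?_)
  congr 1
  rw [show (C a : MvPolynomial (Fin d) ℂ) = monomial 0 a from rfl, wn_monomial]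
  simp

theorem wn_mono {K K' : ℕ} (h : K ≤ K') (G : MvPolynomial (Fin d) ℂ) : wn K G ≤ wn K' G := by
  unfold wn
  apply Finset.sum_le_sum
  intro α _
  apply mul_le_mul_of_nonneg_left _ (norm_nonneg _)
  apply pow_le_pow_right₀ _ h
  have h3 : (0 : ℝ) ≤ α.degree := Nat.cast_nonneg _
  linarith

theorem wn_euler (K : ℕ) (j : Fin d) (G : MvPolynomial (Fin d) ℂ) :
    wn K (X j * pderiv j G) ≤ wn (K + 1) G := by
  have hsub : (X j * pderiv j G).support ⊆ G.support := by
    intro k hk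
    rw [mem_support_iff, coeff_X_mul_pderiv] at hk
    rw [mem_support_iff]
    exact right_ne_zero_of_mul hk
  rw [wn_eq K _ hsub, wn]
  apply Finset.sum_le_sum
  intro α _
  rw [coeff_X_mul_pderiv, norm_mul, pow_succ]
  have h1 : ‖((α j : ℕ) : ℂ)‖ ≤ 1 + (α.degree : ℝ) := by
    rw [Complex.norm_natCast]
    have h2 := Finsupp.le_degree j α
    have h3 : ((α j : ℕ) : ℝ) ≤ α.degree := by exact_mod_cast h2
    linarith
  calc ‖((α j : ℕ) : ℂ)‖ * ‖G.coeff α‖ * (1 + (α.degree : ℝ)) ^ K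
      ≤ (1 + (α.degree : ℝ)) * ‖G.coeff α‖ * (1 + (α.degree : ℝ)) ^ K := by gcongr
    _ = _ := by ring

theorem norm_eval_le_wn (G : MvPolynomial (Fin d) ℂ) (ζ : Fin d → ℂ) (hζ : ∀ j, ‖ζ j‖ ≤ 1) :
    ‖eval ζ G‖ ≤ wn 0 G := by
  refine (norm_eval_le G ζ hζ).trans (le_of_eq ?_)
  simp [A1, wn]

/-! ### Iterated Euler derivatives -/

/-- iterated Euler derivatives -/
noncomputable def Xl (F : MvPolynomial (Fin d) ℂ) : List (Fin d) → MvPolynomial (Fin d) ℂ
  | [] => F
  | j :: l => X j * pderiv j (Xl F l)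

/-- numerators of the iterated derivatives of `Q^L B / U` -/
noncomputable def Gl (U Q B : MvPolynomial (Fin d) ℂ) (L : ℕ) : List (Fin d) → MvPolynomial (Fin d) ℂ
  | [] => B
  | j :: l => C ((L - l.length : ℕ) : ℂ) * ((X j * pderiv j Q) * Gl U Q B L l * U)
      + Q * U * (X j * pderiv j (Gl U Q B L l))
      - C ((l.length + 1 : ℕ) : ℂ) * (Q * (X j * pderiv j U) * Gl U Q B L l)

theorem Xl_identity (U Q B F : MvPolynomial (Fin d) ℂ) (L : ℕ) (h : U * F = Q ^ L * B)
    (l : List (Fin d)) (hl : l.length ≤ L) :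
    U ^ (l.length + 1) * Xl F l = Q ^ (L - l.length) * Gl U Q B L l := by
  induction l with
  | nil => simpa [Xl, Gl] using h
  | cons j l ih =>
    have hl' : l.length + 1 ≤ L := by simpa using hl
    have ih' := ih (by omega)
    obtain ⟨m, hm⟩ : ∃ m, L - l.length = m + 1 := ⟨L - l.length - 1, by omega⟩
    have hm' : L - (l.length + 1) = m := by omega
    rw [hm] at ih'
    have h1 := congrArg (fun p => X j * pderiv j p) ih'
    simp only [Derivation.leibniz, Derivation.leibniz_pow, smul_eq_mul, nsmul_eq_mul,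
      Nat.add_sub_cancel] at h1
    rw [List.length_cons, hm', Xl, Gl, hm]
    have hC1 : (C ((m + 1 : ℕ) : ℂ) : MvPolynomial (Fin d) ℂ) = ((m + 1 : ℕ) : MvPolynomial (Fin d) ℂ) := by
      simp
    have hC2 : (C ((l.length + 1 : ℕ) : ℂ) : MvPolynomial (Fin d) ℂ)
        = ((l.length + 1 : ℕ) : MvPolynomial (Fin d) ℂ) := by
      simp
    rw [hC1, hC2]
    push_cast at h1 ⊢
    linear_combination U * h1 - ((l.length : MvPolynomial (Fin d) ℂ) + 1) * (X j * pderiv j U) * ih'

theorem Gl_bound (L : ℕ) (l : List (Fin d)) : ∀ (K : ℕ) (b : ℝ), ∃ c : ℝ, 0 ≤ c ∧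
    ∀ U Q B : MvPolynomial (Fin d) ℂ, wn (K + l.length) U ≤ b → wn (K + l.length) Q ≤ b →
      wn (K + l.length) B ≤ b → wn K (Gl U Q B L l) ≤ c := by
  induction l with
  | nil =>
    intro K b
    exact ⟨max b 0, le_max_right _ _, fun U Q B _ _ hB => hB.trans (le_max_left _ _)⟩
  | cons j l ih =>
    intro K b
    obtain ⟨c1, hc1, h1⟩ := ih K b
    obtain ⟨c2, hc2, h2⟩ := ih (K + 1) b
    set b' := max b 0 with hb'
    have hb0 : 0 ≤ b' := le_max_right _ _
    refine ⟨(L - l.length : ℕ) * (b' * c1 * b') + b' * b' * c2 + (l.length + 1 : ℕ) * (b' * b' * c1),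
      by positivity, fun U Q B hU hQ hB => ?_⟩
    rw [List.length_cons] at hU hQ hB
    have hK : K + (l.length + 1) = K + 1 + l.length := by omega
    have hG1 : wn K (Gl U Q B L l) ≤ c1 := h1 U Q B
      ((wn_mono (by omega) U).trans hU) ((wn_mono (by omega) Q).trans hQ) ((wn_mono (by omega) B).trans hB)
    have hG2 : wn (K + 1) (Gl U Q B L l) ≤ c2 := h2 U Q B
      (by rw [← hK]; exact hU) (by rw [← hK]; exact hQ) (by rw [← hK]; exact hB)
    have hU0 : wn K U ≤ b' := ((wn_mono (by omega) U).trans hU).trans (le_max_left _ _)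
    have hQ0 : wn K Q ≤ b' := ((wn_mono (by omega) Q).trans hQ).trans (le_max_left _ _)
    have hU1 : wn K (X j * pderiv j U) ≤ b' :=
      (wn_euler K j U).trans (((wn_mono (by omega) U).trans hU).trans (le_max_left _ _))
    have hQ1 : wn K (X j * pderiv j Q) ≤ b' :=
      (wn_euler K j Q).trans (((wn_mono (by omega) Q).trans hQ).trans (le_max_left _ _))
    have hG3 : wn K (X j * pderiv j (Gl U Q B L l)) ≤ c2 := (wn_euler K j _).trans hG2
    have n1 := wn_nonneg K U
    have n2 := wn_nonneg K Q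
    have n3 := wn_nonneg K (X j * pderiv j U)
    have n4 := wn_nonneg K (X j * pderiv j Q)
    have n5 := wn_nonneg K (Gl U Q B L l)
    have n6 := wn_nonneg K (X j * pderiv j (Gl U Q B L l))
    rw [Gl]
    have e1 : wn K (C ((L - l.length : ℕ) : ℂ) * ((X j * pderiv j Q) * Gl U Q B L l * U))
        ≤ (L - l.length : ℕ) * (b' * c1 * b') := by
      refine (wn_C_mul _ _ _).trans ?_
      rw [Complex.norm_natCast]
      apply mul_le_mul_of_nonneg_left _ (Nat.cast_nonneg _)
      refine (wn_mul_le _ _ _).trans ?_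
      apply mul_le_mul _ hU0 n1 (by positivity)
      exact (wn_mul_le _ _ _).trans (mul_le_mul hQ1 hG1 n5 hb0)
    have e2 : wn K (Q * U * (X j * pderiv j (Gl U Q B L l))) ≤ b' * b' * c2 := by
      refine (wn_mul_le _ _ _).trans ?_
      apply mul_le_mul _ hG3 n6 (by positivity)
      exact (wn_mul_le _ _ _).trans (mul_le_mul hQ0 hU0 n1 hb0)
    have e3 : wn K (C ((l.length + 1 : ℕ) : ℂ) * (Q * (X j * pderiv j U) * Gl U Q B L l))
        ≤ (l.length + 1 : ℕ) * (b' * b' * c1) := by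
      refine (wn_C_mul _ _ _).trans ?_
      rw [Complex.norm_natCast]
      apply mul_le_mul_of_nonneg_left _ (Nat.cast_nonneg _)
      refine (wn_mul_le _ _ _).trans ?_
      apply mul_le_mul _ hG1 n5 (by positivity)
      exact (wn_mul_le _ _ _).trans (mul_le_mul hQ0 hU1 n3 hb0)
    have e4 : wn K (-(C ((l.length + 1 : ℕ) : ℂ) * (Q * (X j * pderiv j U) * Gl U Q B L l)))
        = wn K (C ((l.length + 1 : ℕ) : ℂ) * (Q * (X j * pderiv j U) * Gl U Q B L l)) := by
      unfold wn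
      rw [support_neg]
      simp only [coeff_neg, norm_neg]
    rw [sub_eq_add_neg]
    refine (wn_add_le _ _ _).trans ?_
    rw [e4]
    exact add_le_add ((wn_add_le _ _ _).trans (add_le_add e1 e2)) e3

theorem coeff_Xl (F : MvPolynomial (Fin d) ℂ) (l : List (Fin d)) (α : Fin d →₀ ℕ) :
    (Xl F l).coeff α = (l.map fun j => (α j : ℂ)).prod * F.coeff α := by
  induction l with
  | nil => simp [Xl]
  | cons j l ih =>
    rw [Xl, coeff_X_mul_pderiv, ih, List.map_cons, List.prod_cons]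
    ring


/-! ### Dilation -/

/-- dilation `F(r z)` -/
noncomputable def dil (r : ℝ) : MvPolynomial (Fin d) ℂ →ₐ[ℂ] MvPolynomial (Fin d) ℂ :=
  aeval (fun j => C (r : ℂ) * X j)

theorem dil_eval (r : ℝ) (F : MvPolynomial (Fin d) ℂ) (ζ : Fin d → ℂ) :
    eval ζ (dil r F) = eval (fun j => (r : ℂ) * ζ j) F := by
  have h : (aeval ζ : MvPolynomial (Fin d) ℂ →ₐ[ℂ] ℂ).comp (dil r)
      = aeval (fun j => (r : ℂ) * ζ j) := by
    apply MvPolynomial.algHom_ext
    intro j
    simp [dil]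
  have h1 := DFunLike.congr_fun h F
  rw [AlgHom.comp_apply] at h1
  simpa [coe_aeval_eq_eval] using h1

theorem dil_monomial (r : ℝ) (α : Fin d →₀ ℕ) (a : ℂ) :
    dil r (monomial α a) = monomial α (a * (r : ℂ) ^ α.degree) := by
  rw [dil, aeval_monomial, Finsupp.prod_fintype _ _ (by simp)]
  simp only [mul_pow]
  rw [Finset.prod_mul_distrib, Finset.prod_pow_eq_pow_sum, ← Finsupp.degree_eq_sum]
  have h1 : (∏ i, (X i : MvPolynomial (Fin d) ℂ) ^ α i) = monomial α 1 := by
    rw [monomial_eq, C_1, one_mul, Finsupp.prod_fintype _ _ (by simp)]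
  rw [h1]
  rw [show (algebraMap ℂ (MvPolynomial (Fin d) ℂ)) a = C a from rfl, ← C_pow, ← mul_assoc, ← C_mul,
    C_mul_monomial, mul_one]

theorem coeff_dil (r : ℝ) (F : MvPolynomial (Fin d) ℂ) (α : Fin d →₀ ℕ) :
    (dil r F).coeff α = F.coeff α * (r : ℂ) ^ α.degree := by
  classical
  induction F using MvPolynomial.induction_on' with
  | monomial β a =>
    rw [dil_monomial, coeff_monomial, coeff_monomial]
    split_ifs with h
    · rw [h]
    · simp
  | add p q hp hq => rw [map_add, coeff_add, coeff_add, hp, hq]; ring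

theorem dil_EM (r : ℝ) (P : MvPolynomial (Fin d) ℂ) (M : ℕ) : dil r (EM P M) = FF P r M := by
  ext α
  rw [coeff_dil]
  unfold EM FF
  rw [coeff_sum, coeff_sum, Finset.sum_mul]
  apply Finset.sum_congr rfl
  intro n _
  rw [coeff_C_mul, coeff_C_mul]
  by_cases h : α.degree = n
  · rw [h]
    simp
    ring
  · have h0 : (hh P n).coeff α = 0 := by
      by_contra hne
      apply h
      have := hh_homogeneous P n hne
      rwa [Finsupp.degree_eq_weight_one]
    rw [h0]
    simp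

theorem wn_dil_le {r : ℝ} (hr0 : 0 ≤ r) (hr1 : r ≤ 1) (K : ℕ) (F : MvPolynomial (Fin d) ℂ) :
    wn K (dil r F) ≤ wn K F := by
  have hsub : (dil r F).support ⊆ F.support := by
    intro α hα
    rw [mem_support_iff, coeff_dil] at hα
    rw [mem_support_iff]
    exact left_ne_zero_of_mul hα
  rw [wn_eq K _ hsub, wn]
  apply Finset.sum_le_sum
  intro α _
  rw [coeff_dil, norm_mul, norm_pow, Complex.norm_real, Real.norm_of_nonneg hr0]
  have h1 : r ^ α.degree ≤ 1 := pow_le_one₀ hr0 hr1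
  have h2 := norm_nonneg (F.coeff α)
  gcongr
  nlinarith

/-- the remainder is small -/
theorem exists_small_RM (P : MvPolynomial (Fin d) ℂ) (hP : P.coeff 0 = 1)
    (hz : ∀ z : Fin d → ℂ, (∀ j, ‖z j‖ < 1) → eval z P ≠ 0) {r : ℝ} (hr0 : 0 < r) (hr1 : r < 1)
    (K m : ℕ) : ∃ M, m ≤ M ∧ wn K (dil r (RM P M)) ≤ 1 := by
  set D := P.totalDegree with hD
  have hA := A1_nonneg P
  have hbound : ∀ M, wn K (dil r (RM P M)) ≤
      ((M : ℝ) + D + 1) ^ d * (BM P M * r ^ M * ((M : ℝ) + D + 1) ^ K) := by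
    intro M
    have hB : 0 ≤ BM P M := by unfold BM; positivity
    have hsub : (dil r (RM P M)).support ⊆ (RM P M).support := by
      intro α hα
      rw [mem_support_iff, coeff_dil] at hα
      rw [mem_support_iff]
      exact left_ne_zero_of_mul hα
    rw [wn_eq K _ hsub]
    calc ∑ α ∈ (RM P M).support, ‖(dil r (RM P M)).coeff α‖ * (1 + (α.degree : ℝ)) ^ K
        ≤ ∑ _α ∈ (RM P M).support, BM P M * r ^ M * ((M : ℝ) + D + 1) ^ K := by
          apply Finset.sum_le_sum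
          intro α hα
          have h1 : M < α.degree := by
            by_contra hcon
            push Not at hcon
            rw [mem_support_iff] at hα
            exact hα (coeff_RM P hP hcon)
          have h2 : α.degree ≤ M + D := (degree_le_of_mem _ hα).trans (totalDegree_RM_le P M)
          have h3 : (α.degree : ℝ) ≤ M + D := by exact_mod_cast h2
          rw [coeff_dil, norm_mul, norm_pow, Complex.norm_real, Real.norm_of_nonneg hr0.le]
          have h4 : r ^ α.degree ≤ r ^ M := pow_le_pow_of_le_one hr0.le hr1.le h1.le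
          have h5 := norm_coeff_RM_le P hP hz M α
          have h6 : (1 + (α.degree : ℝ)) ^ K ≤ ((M : ℝ) + D + 1) ^ K :=
            pow_le_pow_left₀ (by positivity) (by linarith) K
          gcongr
      _ = ((RM P M).support.card : ℝ) * (BM P M * r ^ M * ((M : ℝ) + D + 1) ^ K) := by
          rw [Finset.sum_const, nsmul_eq_mul]
      _ ≤ _ := by
          apply mul_le_mul_of_nonneg_right (card_support_RM_le P M)
          positivity
  have h1 := tendsto_pow_const_mul_const_pow_of_abs_lt_one (d + K + D + 1)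
    (show |r| < 1 by rw [abs_of_pos hr0]; exact hr1)
  have h2 := h1.comp (tendsto_add_atTop_nat (D + 1))
  have h3 := h2.const_mul ((A1 P + 1) * (r ^ (D + 1))⁻¹)
  rw [mul_zero] at h3
  have h4 := (h3.eventually (gt_mem_nhds (show (0 : ℝ) < 1 by norm_num))).and (eventually_ge_atTop m)
  obtain ⟨M, hM1, hM2⟩ := h4.exists
  refine ⟨M, hM2, (hbound M).trans (le_trans ?_ hM1.le)⟩
  simp only [Function.comp_apply]
  have h5 : ((M + (D + 1) : ℕ) : ℝ) = (M : ℝ) + D + 1 := by push_cast; ring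
  rw [h5, pow_add r M (D + 1)]
  have h6 : BM P M ≤ (A1 P + 1) * ((M : ℝ) + D + 1) ^ (D + 1) := by
    unfold BM
    rw [← hD]
    have h7 : ((M : ℝ) + 1) ^ (D + 1) ≤ ((M : ℝ) + D + 1) ^ (D + 1) := by
      apply pow_le_pow_left₀ (by positivity)
      have : (0 : ℝ) ≤ D := Nat.cast_nonneg _
      linarith
    have h8 : (1 : ℝ) ≤ ((M : ℝ) + D + 1) ^ (D + 1) := by
      apply one_le_pow₀
      have : (0 : ℝ) ≤ D := Nat.cast_nonneg _
      have : (0 : ℝ) ≤ M := Nat.cast_nonneg _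
      linarith
    nlinarith
  calc ((M : ℝ) + D + 1) ^ d * (BM P M * r ^ M * ((M : ℝ) + D + 1) ^ K)
      ≤ ((M : ℝ) + D + 1) ^ d * (((A1 P + 1) * ((M : ℝ) + D + 1) ^ (D + 1)) * r ^ M *
        ((M : ℝ) + D + 1) ^ K) := by gcongr
    _ = (A1 P + 1) * (r ^ (D + 1))⁻¹ * (((M : ℝ) + D + 1) ^ (d + K + D + 1) *
        (r ^ M * r ^ (D + 1))) := by
        field_simp
        ring

/-- `|P(ζ)| ≤ 2^D |P(rζ)|` -/
theorem norm_eval_le_dil (P : MvPolynomial (Fin d) ℂ) (hP : P.coeff 0 = 1)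
    (hz : ∀ z : Fin d → ℂ, (∀ j, ‖z j‖ < 1) → eval z P ≠ 0) {r : ℝ} (hr0 : 0 ≤ r) (hr1 : r ≤ 1)
    (ζ : Fin d → ℂ) (hζ : ∀ j, ‖ζ j‖ ≤ 1) :
    ‖eval ζ P‖ ≤ 2 ^ P.totalDegree * ‖eval (fun j => (r : ℂ) * ζ j) P‖ := by
  have h0 : (sl P ζ).coeff 0 = 1 := by
    rw [coeff_sl, homogeneousComponent_zero, hP]; simp
  have hnz : ∀ z : ℂ, ‖z‖ < 1 → (sl P ζ).eval z ≠ 0 := by
    intro z hz1
    rw [eval_sl]
    apply hz
    intro j
    rw [norm_mul]
    have := hζ j
    nlinarith [norm_nonneg (ζ j), norm_nonneg z]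
  obtain ⟨L, hL1, hL2, hL3⟩ := OneVar.exists_list_factor (sl P ζ) h0 hnz
  have h1 : eval ζ P = (sl P ζ).eval 1 := by rw [eval_sl]; simp
  have h2 : eval (fun j => (r : ℂ) * ζ j) P = (sl P ζ).eval (r : ℂ) := by rw [eval_sl]
  have h3 : ∀ M : List ℂ, (∀ a ∈ M, ‖a‖ ≤ 1) →
      ‖((M.map fun a => 1 - Polynomial.C a * Polynomial.X).prod : Polynomial ℂ).eval 1‖
        ≤ 2 ^ M.length * ‖((M.map fun a => 1 - Polynomial.C a * Polynomial.X).prod : Polynomial ℂ).eval (r : ℂ)‖ := by
    intro M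
    induction M with
    | nil => simp
    | cons a M ih =>
      intro hM
      have ha := hM a List.mem_cons_self
      have ih' := ih fun x hx => hM x (List.mem_cons_of_mem _ hx)
      rw [List.map_cons, List.prod_cons, Polynomial.eval_mul, Polynomial.eval_mul, norm_mul, norm_mul,
        List.length_cons]
      simp only [Polynomial.eval_sub, Polynomial.eval_one, Polynomial.eval_mul, Polynomial.eval_C,
        Polynomial.eval_X, mul_one]
      have h4 : ‖1 - a‖ ≤ 2 * ‖1 - a * (r : ℂ)‖ := by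
        have h5 : ‖1 - a‖ ≤ ‖1 - a * (r : ℂ)‖ + ‖a‖ * (1 - r) := by
          have h6 : 1 - a = (1 - a * (r : ℂ)) - a * (((1 - r : ℝ)) : ℂ) := by push_cast; ring
          calc ‖1 - a‖ = ‖(1 - a * (r : ℂ)) - a * (((1 - r : ℝ)) : ℂ)‖ := by rw [← h6]
            _ ≤ ‖1 - a * (r : ℂ)‖ + ‖a * (((1 - r : ℝ)) : ℂ)‖ := norm_sub_le _ _
            _ = _ := by rw [norm_mul, Complex.norm_real, Real.norm_of_nonneg (by linarith)]
        have h7 : 1 - r ≤ ‖1 - a * (r : ℂ)‖ := by
          have h8 : ‖(1 : ℂ)‖ - ‖a * (r : ℂ)‖ ≤ ‖1 - a * (r : ℂ)‖ := norm_sub_norm_le _ _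
          rw [norm_one, norm_mul, Complex.norm_real, Real.norm_of_nonneg hr0] at h8
          nlinarith
        nlinarith [norm_nonneg a]
      calc ‖1 - a‖ * ‖((M.map fun a => 1 - Polynomial.C a * Polynomial.X).prod : Polynomial ℂ).eval 1‖
          ≤ (2 * ‖1 - a * (r : ℂ)‖) * (2 ^ M.length *
            ‖((M.map fun a => 1 - Polynomial.C a * Polynomial.X).prod : Polynomial ℂ).eval (r : ℂ)‖) :=
            mul_le_mul h4 ih' (norm_nonneg _) (by positivity)
        _ = _ := by ring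
  rw [h1, h2]
  have h4 := h3 L hL2
  rw [← hL3, hL1] at h4
  refine h4.trans ?_
  apply mul_le_mul_of_nonneg_right _ (norm_nonneg _)
  exact pow_le_pow_right₀ (by norm_num) (natDegree_sl_le P ζ)

/-- annihilators of cyclic polynomials are trivial -/
theorem annihilator_eq_zero (t : ℝ) (P : MvPolynomial (Fin d) ℂ) (h : ShiftCyclic t P) (φ : HH d)
    (hφ : ∀ f : MvPolynomial (Fin d) ℂ, ⟪φ, J t (f * P)⟫_ℂ = 0) : φ = 0 := by
  rw [shiftCyclic_iff_dense] at h
  by_contra hne
  have hpos : 0 < ‖φ‖ := norm_pos_iff.2 hne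
  obtain ⟨p, hp⟩ := h φ ‖φ‖ hpos
  have h1 : ⟪φ, φ⟫_ℂ = ⟪φ, φ - J t (p * P)⟫_ℂ := by
    rw [inner_sub_right, hφ, sub_zero]
  have h2 : ‖φ‖ ^ 2 ≤ ‖φ‖ * ‖φ - J t (p * P)‖ := by
    calc ‖φ‖ ^ 2 = ‖⟪φ, φ⟫_ℂ‖ := by
          rw [inner_self_eq_norm_sq_to_K]
          simp
      _ = ‖⟪φ, φ - J t (p * P)⟫_ℂ‖ := by rw [h1]
      _ ≤ _ := norm_inner_le_norm _ _
  nlinarith


theorem weight_le_prod {t : ℝ} (ht : t ≤ 1) (α : Fin d →₀ ℕ) :
    weight t α ≤ ∏ j, (1 + (α j : ℝ) ^ 2) := by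
  unfold weight
  apply Finset.prod_le_prod
  · intro j _; positivity
  · intro j _
    have h1 : (1 + (α j : ℝ)) ^ t ≤ (1 + (α j : ℝ)) ^ (1 : ℝ) :=
      Real.rpow_le_rpow_of_exponent_le (by simp) ht
    rw [Real.rpow_one] at h1
    refine h1.trans ?_
    have h2 : (α j : ℝ) ≤ (α j : ℝ) ^ 2 := by exact_mod_cast Nat.le_self_pow two_ne_zero (α j)
    linarith

/-- the uniform bound -/
theorem uniform_bound {t : ℝ} (ht : t ≤ 1) (P Q : MvPolynomial (Fin d) ℂ) (hP : P.coeff 0 = 1)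
    (hz : ∀ z : Fin d → ℂ, (∀ j, ‖z j‖ < 1) → eval z P ≠ 0) (N : ℕ) {C : ℝ} (hC : 0 < C)
    (hL : ∀ ζ : Fin d → ℂ, (∀ j, ‖ζ j‖ = 1) → ‖eval ζ Q‖ ^ N ≤ C * ‖eval ζ P‖) :
    ∃ K : ℝ, ∀ (r : ℝ) (M : ℕ), 0 < r → r < 1 → wn d (dil r (RM P M)) ≤ 1 →
      ‖J t (Q ^ (N * (d + 1) + d) * dil r (EM P M) * P)‖ ≤ K := by
  classical
  set L := N * (d + 1) + d with hLdef
  set b : ℝ := wn d P * 2 + wn d Q + wn d P with hb
  have nP := wn_nonneg d P
  have nQ := wn_nonneg d Q
  choose c hc0 hc using fun l : List (Fin d) => Gl_bound L l 0 b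
  set C' : ℝ := C * 2 ^ P.totalDegree with hC'
  have hC'0 : 0 < C' := by positivity
  set bQ : ℝ := max 1 (wn 0 Q) with hbQ
  have hbQ1 : 1 ≤ bQ := le_max_left _ _
  set K0 : Finset (Fin d) → ℝ := fun S => C' ^ (S.card + 1) * bQ ^ L * c S.toList with hK0
  refine ⟨Real.sqrt (∑ S ∈ (Finset.univ : Finset (Fin d)).powerset, K0 S ^ 2), fun r M hr0 hr1 hRM => ?_⟩
  set F := Q ^ L * dil r (EM P M) * P with hF
  set U := dil r P with hU
  set B := P * (1 + dil r (RM P M)) with hB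
  have hUF : U * F = Q ^ L * B := by
    have h1 : dil r (EM P M) * U = 1 + dil r (RM P M) := by
      rw [hU, ← map_mul, RM, map_sub, map_one]
      ring
    rw [hF, hB, ← h1]
    ring
  have hwU : wn d U ≤ b := (wn_dil_le hr0.le hr1.le d P).trans (by rw [hb]; linarith)
  have hwQ : wn d Q ≤ b := by rw [hb]; linarith
  have hwB : wn d B ≤ b := by
    have h1 : wn d (1 + dil r (RM P M)) ≤ 2 := by
      refine (wn_add_le _ _ _).trans ?_
      have h2 : wn d (1 : MvPolynomial (Fin d) ℂ) = 1 := by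
        rw [show (1 : MvPolynomial (Fin d) ℂ) = monomial 0 1 from rfl, wn_monomial]
        simp
      rw [h2]
      linarith
    calc wn d B ≤ wn d P * wn d (1 + dil r (RM P M)) := wn_mul_le _ _ _
      _ ≤ wn d P * 2 := mul_le_mul_of_nonneg_left h1 nP
      _ ≤ b := by rw [hb]; linarith
  -- pointwise bound of the derivatives
  have hX : ∀ S : Finset (Fin d), ∀ x, ‖eval (tor x) (Xl F S.toList)‖ ≤ K0 S := by
    intro S x
    have hs : S.card ≤ d := by
      have := Finset.card_le_univ S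
      simpa using this
    have hlen : S.toList.length = S.card := Finset.length_toList S
    have h1 := congrArg (eval (tor x)) (Xl_identity U Q B F L hUF S.toList (by rw [hlen]; omega))
    rw [map_mul, map_mul, map_pow, map_pow, hlen] at h1
    have htn : ∀ j, ‖tor x j‖ = 1 := norm_tor x
    have htn' : ∀ j, ‖tor x j‖ ≤ 1 := fun j => (htn j).le
    have hU0 : eval (tor x) U ≠ 0 := by
      rw [hU, dil_eval]
      apply hz
      intro j
      rw [norm_mul, htn, mul_one, Complex.norm_real, Real.norm_of_nonneg hr0.le]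
      exact hr1
    have hUpos : 0 < ‖eval (tor x) U‖ := norm_pos_iff.2 hU0
    have hQN : ‖eval (tor x) Q‖ ^ N ≤ C' * ‖eval (tor x) U‖ := by
      refine (hL _ htn).trans ?_
      rw [hC', mul_assoc]
      apply mul_le_mul_of_nonneg_left _ hC.le
      rw [hU, dil_eval]
      exact norm_eval_le_dil P hP hz hr0.le hr1.le _ htn'
    have hQb : ‖eval (tor x) Q‖ ≤ bQ := (norm_eval_le_wn Q _ htn').trans (le_max_right _ _)
    have hG : ‖eval (tor x) (Gl U Q B L S.toList)‖ ≤ c S.toList := by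
      refine (norm_eval_le_wn _ _ htn').trans ?_
      apply hc
      · exact (wn_mono (by rw [hlen]; omega) U).trans hwU
      · exact (wn_mono (by rw [hlen]; omega) Q).trans hwQ
      · exact (wn_mono (by rw [hlen]; omega) B).trans hwB
    have hQpow : ‖eval (tor x) Q‖ ^ (L - S.card) ≤ C' ^ (S.card + 1) * ‖eval (tor x) U‖ ^ (S.card + 1) * bQ ^ L := by
      obtain ⟨e, he⟩ : ∃ e, L - S.card = N * (S.card + 1) + e := by
        refine ⟨L - S.card - N * (S.card + 1), ?_⟩
        have h2 : N * (S.card + 1) ≤ N * (d + 1) := Nat.mul_le_mul_left _ (by omega)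
        omega
      rw [he, pow_add, pow_mul]
      have h2 : (‖eval (tor x) Q‖ ^ N) ^ (S.card + 1) ≤ (C' * ‖eval (tor x) U‖) ^ (S.card + 1) :=
        pow_le_pow_left₀ (by positivity) hQN _
      have h3 : ‖eval (tor x) Q‖ ^ e ≤ bQ ^ L := by
        calc ‖eval (tor x) Q‖ ^ e ≤ bQ ^ e := pow_le_pow_left₀ (norm_nonneg _) hQb _
          _ ≤ bQ ^ L := pow_le_pow_right₀ hbQ1 (by omega)
      rw [mul_pow] at h2
      exact mul_le_mul h2 h3 (by positivity) (by positivity)
    have h2 : ‖eval (tor x) U‖ ^ (S.card + 1) * ‖eval (tor x) (Xl F S.toList)‖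
        ≤ ‖eval (tor x) U‖ ^ (S.card + 1) * K0 S := by
      rw [← norm_pow, ← norm_mul, h1, norm_mul, norm_pow]
      calc ‖eval (tor x) Q‖ ^ (L - S.card) * ‖eval (tor x) (Gl U Q B L S.toList)‖
          ≤ (C' ^ (S.card + 1) * ‖eval (tor x) U‖ ^ (S.card + 1) * bQ ^ L) * c S.toList :=
            mul_le_mul hQpow hG (norm_nonneg _) (by positivity)
        _ = ‖(eval (tor x)) U ^ (S.card + 1)‖ * K0 S := by
            rw [hK0, norm_pow]
            ring
    exact le_of_mul_le_mul_left h2 (by positivity)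
  apply Real.le_sqrt_of_sq_le
  rw [J_norm]
  have h1 : ∀ S : Finset (Fin d), ∑ α ∈ F.support, (∏ j ∈ S, (α j : ℝ) ^ 2) * ‖F.coeff α‖ ^ 2 ≤ K0 S ^ 2 := by
    intro S
    have h2 := sum_sq_le (Xl F S.toList) (B := K0 S ^ 2) fun x =>
      pow_le_pow_left₀ (norm_nonneg _) (hX S x) 2
    refine le_trans ?_ h2
    have h3 : ∀ α, ‖(Xl F S.toList).coeff α‖ ^ 2 = (∏ j ∈ S, (α j : ℝ) ^ 2) * ‖F.coeff α‖ ^ 2 := by
      intro α
      rw [coeff_Xl, norm_mul, mul_pow, Finset.prod_map_toList, norm_prod, ← Finset.prod_pow]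
      congr 1
      apply Finset.prod_congr rfl
      intro j _
      rw [Complex.norm_natCast]
    have hsub : (Xl F S.toList).support ⊆ F.support := by
      intro α hα
      rw [mem_support_iff, coeff_Xl] at hα
      rw [mem_support_iff]
      exact right_ne_zero_of_mul hα
    apply le_of_eq
    symm
    rw [Finset.sum_subset hsub]
    · exact Finset.sum_congr rfl fun α _ => h3 α
    · intro α _ hα
      rw [notMem_support_iff] at hα
      rw [hα]
      simp
  calc ∑ α ∈ F.support, weight t α * ‖F.coeff α‖ ^ 2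
      ≤ ∑ α ∈ F.support, (∏ j, (1 + (α j : ℝ) ^ 2)) * ‖F.coeff α‖ ^ 2 := by
        apply Finset.sum_le_sum
        intro α _
        exact mul_le_mul_of_nonneg_right (weight_le_prod ht α) (by positivity)
    _ = ∑ α ∈ F.support, ∑ S ∈ (Finset.univ : Finset (Fin d)).powerset,
          (∏ j ∈ S, (α j : ℝ) ^ 2) * ‖F.coeff α‖ ^ 2 := by
        apply Finset.sum_congr rfl
        intro α _
        rw [Finset.prod_one_add, Finset.sum_mul]
    _ = ∑ S ∈ (Finset.univ : Finset (Fin d)).powerset, ∑ α ∈ F.support,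
          (∏ j ∈ S, (α j : ℝ) ^ 2) * ‖F.coeff α‖ ^ 2 := Finset.sum_comm
    _ ≤ ∑ S ∈ (Finset.univ : Finset (Fin d)).powerset, K0 S ^ 2 :=
        Finset.sum_le_sum fun S _ => h1 S

/-- coefficientwise convergence -/
theorem tendsto_coeff (P : MvPolynomial (Fin d) ℂ) (hP : P.coeff 0 = 1) (r : ℕ → ℝ)
    (hr : Tendsto r atTop (𝓝 1)) (M : ℕ → ℕ) (hM : ∀ m, m ≤ M m) (α : Fin d →₀ ℕ) :
    Tendsto (fun m => (dil (r m) (EM P (M m)) * P).coeff α) atTop
      (𝓝 ((1 : MvPolynomial (Fin d) ℂ).coeff α)) := by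
  have h1 : Tendsto (fun m => ∑ x ∈ antidiagonal α.degree,
      ((r m : ℝ) : ℂ) ^ x.2 * (homogeneousComponent x.1 P * hh P x.2).coeff α) atTop
      (𝓝 (∑ x ∈ antidiagonal α.degree,
      (((1 : ℝ) : ℂ)) ^ x.2 * (homogeneousComponent x.1 P * hh P x.2).coeff α)) := by
    apply tendsto_finsetSum
    intro x _
    apply Tendsto.mul_const
    apply Tendsto.pow
    exact (Complex.continuous_ofReal.tendsto _).comp hr
  have h2 : (∑ x ∈ antidiagonal α.degree,
      (((1 : ℝ) : ℂ)) ^ x.2 * (homogeneousComponent x.1 P * hh P x.2).coeff α)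
      = (1 : MvPolynomial (Fin d) ℂ).coeff α := by
    have h3 := congrArg (fun Q => MvPolynomial.coeff α Q) (hh_identity P hP α.degree)
    simp only [coeff_sum] at h3
    simp only [Complex.ofReal_one, one_pow, one_mul]
    rw [h3]
    split_ifs with h
    · rfl
    · rw [coeff_zero, coeff_one, if_neg]
      rintro rfl
      exact h (by simp)
  rw [h2] at h1
  apply h1.congr'
  filter_upwards [eventually_ge_atTop α.degree] with m hm
  rw [dil_EM, coeff_FF_mul]
  exact hm.trans (hM m)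

/-- abstract approximation lemma -/
theorem bounded_approx {t : ℝ} (P A f : MvPolynomial (Fin d) ℂ)
    (G : ℕ → MvPolynomial (Fin d) ℂ) (K : ℝ)
    (hK : ∀ m, ‖J t (A * G m * P)‖ ≤ K)
    (hG : ∀ α, Tendsto (fun m => (G m * P).coeff α) atTop
      (𝓝 ((1 : MvPolynomial (Fin d) ℂ).coeff α)))
    (φ : lp (fun _ : Fin d →₀ ℕ => ℂ) 2)
    (hφ : ∀ g : MvPolynomial (Fin d) ℂ, ⟪φ, J t (g * P)⟫_ℂ = 0) :
    ⟪φ, J t (f * A)⟫_ℂ = 0 := by
  classical
  obtain ⟨K', hK', hK'b⟩ := exists_multiplier_bound t f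
  have h2 : ∀ m, ⟪φ, J t (A * G m * P * f)⟫_ℂ = 0 := by
    intro m
    have : A * G m * P * f = (A * G m * f) * P := by ring
    rw [this]
    exact hφ _
  have h1 : Tendsto (fun m => ⟪φ, J t (A * G m * P * f)⟫_ℂ) atTop (𝓝 ⟪φ, J t (f * A)⟫_ℂ) := by
    apply tendsto_inner_of_bounded φ _ _ (K' * K)
    · intro m
      refine (hK'b _).trans ?_
      exact mul_le_mul_of_nonneg_left (hK m) hK'.le
    · intro α
      simp only [J_apply]
      apply Tendsto.const_mul
      have h2 : ∀ m, (A * G m * P * f).coeff α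
          = ∑ x ∈ antidiagonal α, (G m * P).coeff x.1 * (f * A).coeff x.2 := by
        intro m
        rw [← coeff_mul]
        congr 1
        ring
      have h3 : (f * A).coeff α
          = ∑ x ∈ antidiagonal α, (1 : MvPolynomial (Fin d) ℂ).coeff x.1 * (f * A).coeff x.2 := by
        rw [← coeff_mul, one_mul]
      rw [h3]
      refine Tendsto.congr (fun m => (h2 m).symm) ?_
      apply tendsto_finsetSum
      intro x _
      exact (hG x.1).mul_const _
  have h4 : (fun m => ⟪φ, J t (A * G m * P * f)⟫_ℂ) = fun _ => (0 : ℂ) := funext h2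
  rw [h4] at h1
  exact (tendsto_nhds_unique h1 tendsto_const_nhds)

theorem comparison_aux {t : ℝ} (ht : t ≤ 1) (P Q : MvPolynomial (Fin d) ℂ) (hP : P.coeff 0 = 1)
    (hz : ∀ z : Fin d → ℂ, (∀ j, ‖z j‖ < 1) → eval z P ≠ 0)
    (hPQ : ∀ ζ : Fin d → ℂ, (∀ j, ‖ζ j‖ = 1) → eval ζ P = 0 → eval ζ Q = 0)
    (hQ : ShiftCyclic t Q) : ShiftCyclic t P := by
  classical
  obtain ⟨N, C, hC, hL⟩ := Pool.Agent.Helper49.Loj.lojasiewicz P Q hPQ
  obtain ⟨K, hK⟩ := uniform_bound ht P Q hP hz N hC hL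
  set r : ℕ → ℝ := fun m => 1 - 1 / ((m : ℝ) + 2) with hr
  have hr0 : ∀ m, 0 < r m := by
    intro m
    simp only [hr]
    have : (1 : ℝ) / ((m : ℝ) + 2) < 1 := by
      rw [div_lt_one (by positivity)]
      have : (0 : ℝ) ≤ m := Nat.cast_nonneg m
      linarith
    linarith
  have hr1 : ∀ m, r m < 1 := by
    intro m
    simp only [hr]
    have : (0 : ℝ) < 1 / ((m : ℝ) + 2) := by positivity
    linarith
  have hrlim : Tendsto r atTop (𝓝 1) := by
    have h1 : Tendsto (fun m : ℕ => 1 / ((m : ℝ) + 2)) atTop (𝓝 0) := by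
      have := (tendsto_one_div_add_atTop_nhds_zero_nat (𝕜 := ℝ)).comp (tendsto_add_atTop_nat 1)
      refine this.congr fun m => ?_
      simp only [Function.comp_apply]
      push_cast
      ring_nf
    have h2 := tendsto_const_nhds (x := (1 : ℝ)) |>.sub h1
    simpa [hr] using h2
  choose M hmM hMs using fun m => exists_small_RM P hP hz (hr0 m) (hr1 m) d m
  set L := N * (d + 1) + d with hLdef
  apply shiftCyclic_of_annihilator
  intro φ hφ
  -- `φ` annihilates `Q ^ L`
  have hQL : ShiftCyclic t (Q ^ L) := by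
    have h1 : ∀ n : ℕ, ShiftCyclic t (Q ^ n) := by
      intro n
      induction n with
      | zero => rw [pow_zero]; exact shiftCyclic_one t
      | succ n ih => rw [pow_succ]; exact ih.mul hQ
    exact h1 L
  apply annihilator_eq_zero t (Q ^ L) hQL
  intro f
  exact bounded_approx P (Q ^ L) f (fun m => dil (r m) (EM P (M m))) K
    (fun m => hK (r m) (M m) (hr0 m) (hr1 m) (hMs m)) (tendsto_coeff P hP r hrlim M hmM) φ hφ

/-- **Comparison theorem**: for `t ≤ 1`, if `P` has no zeros in the open polydisk and the zeros of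
`P` on the torus are zeros of a cyclic polynomial, then `P` is cyclic. -/
theorem comparison {t : ℝ} (ht : t ≤ 1) (P Q : MvPolynomial (Fin d) ℂ)
    (hz : ∀ z : Fin d → ℂ, (∀ j, ‖z j‖ < 1) → eval z P ≠ 0)
    (hPQ : ∀ ζ : Fin d → ℂ, (∀ j, ‖ζ j‖ = 1) → eval ζ P = 0 → eval ζ Q = 0)
    (hQ : ShiftCyclic t Q) : ShiftCyclic t P := by
  have h0 : P.coeff 0 ≠ 0 := by
    have := hz 0 (by simp)
    rwa [MvPolynomial.eval_zero, constantCoeff_eq] at this
  have hinv := inv_ne_zero h0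
  have h1 : ShiftCyclic t (P * C (P.coeff 0)⁻¹) := by
    apply comparison_aux ht _ Q
    · rw [mul_comm, coeff_C_mul, inv_mul_cancel₀ h0]
    · intro z hz'
      rw [map_mul, eval_C]
      exact mul_ne_zero (hz z hz') hinv
    · intro ζ hζ h2
      rw [map_mul, eval_C] at h2
      exact hPQ ζ hζ ((mul_eq_zero.1 h2).resolve_right hinv)
    · exact hQ
  exact h1.of_mul

end Pool.Agent.Helper49.Comp
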