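import Mathlib
import Pool.Agent.Helper49.CycComp

/-! Decay of the coefficients of `g^L / P` where `g` is obtained from `P` by freezing a variable. -/

set_option autoImplicit false

namespace Pool.Agent.Helper49.FA

open Filter Topology MvPolynomial Finset
open Pool.Agent.Helper49.Cyc Pool.Agent.Helper49.Torus Pool.Agent.Helper49.Univ
open Pool.Agent.Helper49.Toral Pool.Agent.Helper49.Comp

variable {d : ℕ}

theorem one_var_ineq (p : Polynomial ℂ) (hp : ∀ z : ℂ, ‖z‖ < 1 → p.eval z ≠ 0) {D : ℕ}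
    (hD : p.natDegree ≤ D) {c w : ℂ} (hc : ‖c‖ ≤ 1) (hw : ‖w‖ < 1) :
    ‖p.eval c‖ * ((1 - ‖w‖) / 2) ^ D ≤ ‖p.eval w‖ := by
  have hp0 : p.coeff 0 ≠ 0 := by
    have := hp 0 (by simp)
    rwa [← Polynomial.coeff_zero_eq_eval_zero] at this
  set q : Polynomial ℂ := Polynomial.C (p.coeff 0)⁻¹ * p with hq
  have hq0 : q.coeff 0 = 1 := by
    rw [hq, Polynomial.coeff_C_mul, inv_mul_cancel₀ hp0]
  have hpq : p = Polynomial.C (p.coeff 0) * q := by
    rw [hq, ← mul_assoc, ← Polynomial.C_mul, mul_inv_cancel₀ hp0, Polynomial.C_1, one_mul]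
  obtain ⟨L, hL1, hL2, hL3⟩ := OneVar.exists_list_factor q hq0 (by
    intro z hz
    rw [hq, Polynomial.eval_mul, Polynomial.eval_C]
    exact mul_ne_zero (inv_ne_zero hp0) (hp z hz))
  have hdeg : q.natDegree ≤ D := by
    refine le_trans ?_ hD
    rw [hq]
    exact Polynomial.natDegree_C_mul_le _ _
  set s : ℝ := (1 - ‖w‖) / 2 with hs
  have hs0 : 0 < s := by rw [hs]; linarith
  have hs1 : s ≤ 1 := by rw [hs]; have := norm_nonneg w; linarith
  have h3 : ∀ M : List ℂ, (∀ a ∈ M, ‖a‖ ≤ 1) →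
      ‖((M.map fun a => 1 - Polynomial.C a * Polynomial.X).prod : Polynomial ℂ).eval c‖ * s ^ M.length
        ≤ ‖((M.map fun a => 1 - Polynomial.C a * Polynomial.X).prod : Polynomial ℂ).eval w‖ := by
    intro M
    induction M with
    | nil => simp
    | cons a M ih =>
      intro hM
      have ha := hM a List.mem_cons_self
      have ih' := ih fun x hx => hM x (List.mem_cons_of_mem _ hx)
      rw [List.map_cons, List.prod_cons, Polynomial.eval_mul, Polynomial.eval_mul, norm_mul, norm_mul,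
        List.length_cons]
      simp only [Polynomial.eval_sub, Polynomial.eval_one, Polynomial.eval_mul, Polynomial.eval_C,
        Polynomial.eval_X]
      have h4 : ‖1 - a * c‖ * s ≤ ‖1 - a * w‖ := by
        have h5 : ‖1 - a * c‖ ≤ 2 := by
          refine (norm_sub_le _ _).trans ?_
          rw [norm_one, norm_mul]
          nlinarith [norm_nonneg a, norm_nonneg c]
        have h7 : 1 - ‖w‖ ≤ ‖1 - a * w‖ := by
          have h8 : ‖(1 : ℂ)‖ - ‖a * w‖ ≤ ‖1 - a * w‖ := norm_sub_norm_le _ _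
          rw [norm_one, norm_mul] at h8
          nlinarith [norm_nonneg w]
        have h9 : ‖1 - a * c‖ * s ≤ 2 * s := mul_le_mul_of_nonneg_right h5 hs0.le
        rw [hs] at h9 ⊢
        linarith
      calc ‖1 - a * c‖ * ‖((M.map fun a => 1 - Polynomial.C a * Polynomial.X).prod : Polynomial ℂ).eval c‖
            * s ^ (M.length + 1)
          = (‖1 - a * c‖ * s) * (‖((M.map fun a => 1 - Polynomial.C a * Polynomial.X).prod : Polynomial ℂ).eval c‖
            * s ^ M.length) := by rw [pow_succ]; ring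
        _ ≤ ‖1 - a * w‖ * ‖((M.map fun a => 1 - Polynomial.C a * Polynomial.X).prod : Polynomial ℂ).eval w‖ :=
            mul_le_mul h4 ih' (by positivity) (norm_nonneg _)
  have h4 := h3 L hL2
  rw [← hL3, hL1] at h4
  have h5 : ‖q.eval c‖ * s ^ D ≤ ‖q.eval w‖ := by
    refine le_trans ?_ h4
    apply mul_le_mul_of_nonneg_left _ (norm_nonneg _)
    exact pow_le_pow_of_le_one hs0.le hs1 hdeg
  have hev : ∀ z : ℂ, p.eval z = p.coeff 0 * q.eval z := by
    intro z
    rw [hq, Polynomial.eval_mul, Polynomial.eval_C, ← mul_assoc, mul_inv_cancel₀ hp0, one_mul]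
  rw [hev c, hev w, norm_mul, norm_mul, mul_assoc]
  exact mul_le_mul_of_nonneg_left h5 (norm_nonneg _)

/-- freeze the variable `i` at the value `c` -/
noncomputable def setv (i : Fin d) (c : ℂ) : MvPolynomial (Fin d) ℂ →ₐ[ℂ] MvPolynomial (Fin d) ℂ :=
  aeval (fun j => if j = i then C c else X j)

theorem eval_setv (i : Fin d) (c : ℂ) (P : MvPolynomial (Fin d) ℂ) (z : Fin d → ℂ) :
    eval z (setv i c P) = eval (Function.update z i c) P := by
  have h : (aeval z : MvPolynomial (Fin d) ℂ →ₐ[ℂ] ℂ).comp (setv i c) = aeval (Function.update z i c) := by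
    apply MvPolynomial.algHom_ext
    intro j
    rw [AlgHom.comp_apply, setv, aeval_X, aeval_X]
    by_cases hj : j = i
    · subst hj; simp
    · simp [hj]
  have h1 := DFunLike.congr_fun h P
  rw [AlgHom.comp_apply] at h1
  simpa [coe_aeval_eq_eval] using h1

theorem poly_ineq (P : MvPolynomial (Fin d) ℂ)
    (hz : ∀ z : Fin d → ℂ, (∀ j, ‖z j‖ < 1) → eval z P ≠ 0) (i : Fin d) {c : ℂ} (hc : ‖c‖ ≤ 1)
    (z : Fin d → ℂ) (hz1 : ∀ j, ‖z j‖ < 1) :
    ‖eval z (setv i c P)‖ * ((1 - ‖z i‖) / 2) ^ P.totalDegree ≤ ‖eval z P‖ := by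
  have h1 := one_var_ineq (sj i z P) (D := P.totalDegree) (c := c) (w := z i) (by
    intro w hw
    rw [sj_eval]
    apply hz
    intro j
    by_cases hj : j = i
    · subst hj; simpa using hw
    · rw [Function.update_of_ne hj]; exact hz1 j)
    ((natDegree_sj_le i z P).trans (degreeOf_le_totalDegree P i)) hc (hz1 i)
  rw [sj_eval, sj_eval, Function.update_eq_self] at h1
  rw [eval_setv]
  exact h1

/-- anisotropic dilation -/
noncomputable def dilv (ρ : Fin d → ℝ) : MvPolynomial (Fin d) ℂ →ₐ[ℂ] MvPolynomial (Fin d) ℂ :=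
  aeval (fun j => C (ρ j : ℂ) * X j)

theorem dilv_eval (ρ : Fin d → ℝ) (F : MvPolynomial (Fin d) ℂ) (ζ : Fin d → ℂ) :
    eval ζ (dilv ρ F) = eval (fun j => (ρ j : ℂ) * ζ j) F := by
  have h : (aeval ζ : MvPolynomial (Fin d) ℂ →ₐ[ℂ] ℂ).comp (dilv ρ)
      = aeval (fun j => (ρ j : ℂ) * ζ j) := by
    apply MvPolynomial.algHom_ext
    intro j
    simp [dilv]
  have h1 := DFunLike.congr_fun h F
  rw [AlgHom.comp_apply] at h1
  simpa [coe_aeval_eq_eval] using h1

theorem dilv_monomial (ρ : Fin d → ℝ) (α : Fin d →₀ ℕ) (a : ℂ) :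
    dilv ρ (monomial α a) = monomial α (a * ∏ j, (ρ j : ℂ) ^ α j) := by
  rw [dilv, aeval_monomial, Finsupp.prod_fintype _ _ (by simp)]
  simp only [mul_pow]
  rw [Finset.prod_mul_distrib]
  have h1 : (∏ i, (X i : MvPolynomial (Fin d) ℂ) ^ α i) = monomial α 1 := by
    rw [monomial_eq, C_1, one_mul, Finsupp.prod_fintype _ _ (by simp)]
  rw [h1]
  have h2 : (∏ i, (C (ρ i : ℂ) : MvPolynomial (Fin d) ℂ) ^ α i) = C (∏ j, (ρ j : ℂ) ^ α j) := by
    rw [map_prod]
    simp
  rw [h2, show (algebraMap ℂ (MvPolynomial (Fin d) ℂ)) a = C a from rfl, ← mul_assoc, ← C_mul,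
    C_mul_monomial, mul_one]

theorem coeff_dilv (ρ : Fin d → ℝ) (F : MvPolynomial (Fin d) ℂ) (α : Fin d →₀ ℕ) :
    (dilv ρ F).coeff α = F.coeff α * ∏ j, (ρ j : ℂ) ^ α j := by
  classical
  induction F using MvPolynomial.induction_on' with
  | monomial β a =>
    rw [dilv_monomial, coeff_monomial, coeff_monomial]
    split_ifs with h
    · rw [h]
    · simp
  | add p q hp hq => rw [map_add, coeff_add, coeff_add, hp, hq]; ring

theorem norm_prod_pow {ρ : Fin d → ℝ} (hρ : ∀ j, 0 ≤ ρ j) (α : Fin d →₀ ℕ) :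
    ‖∏ j, (ρ j : ℂ) ^ α j‖ = ∏ j, ρ j ^ α j := by
  rw [norm_prod]
  apply Finset.prod_congr rfl
  intro j _
  rw [norm_pow, Complex.norm_real, Real.norm_of_nonneg (hρ j)]

theorem wn_dilv_le {ρ : Fin d → ℝ} {r : ℝ} (hρ0 : ∀ j, 0 ≤ ρ j) (hρr : ∀ j, ρ j ≤ r) (K : ℕ)
    (F : MvPolynomial (Fin d) ℂ) : wn K (dilv ρ F) ≤ wn K (dil r F) := by
  by_cases hr : 0 ≤ r
  · have hsub : (dilv ρ F).support ⊆ F.support := by
      intro α hα
      rw [mem_support_iff, coeff_dilv] at hα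
      rw [mem_support_iff]
      exact left_ne_zero_of_mul hα
    have hsub' : (dil r F).support ⊆ F.support := by
      intro α hα
      rw [mem_support_iff, coeff_dil] at hα
      rw [mem_support_iff]
      exact left_ne_zero_of_mul hα
    rw [wn_eq K _ hsub, wn_eq K _ hsub']
    apply Finset.sum_le_sum
    intro α _
    apply mul_le_mul_of_nonneg_right _ (by positivity)
    rw [coeff_dilv, coeff_dil, norm_mul, norm_mul]
    apply mul_le_mul_of_nonneg_left _ (norm_nonneg _)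
    rw [norm_prod_pow hρ0, norm_pow, Complex.norm_real, Real.norm_of_nonneg hr]
    calc ∏ j, ρ j ^ α j ≤ ∏ j, r ^ α j := by
          apply Finset.prod_le_prod
          · intro j _; exact pow_nonneg (hρ0 j) _
          · intro j _; exact pow_le_pow_left₀ (hρ0 j) (hρr j) _
      _ = r ^ α.degree := by
          rw [Finset.prod_pow_eq_pow_sum, Finsupp.degree_eq_sum]
  · -- no variables at all
    rcases isEmpty_or_nonempty (Fin d) with h | ⟨⟨j⟩⟩
    · have h1 : dilv ρ = dil r := MvPolynomial.algHom_ext fun j => (h.false j).elim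
      rw [h1]
    · exact absurd ((hρ0 j).trans (hρr j)) hr

theorem wn_dilv_le' {ρ : Fin d → ℝ} (hρ0 : ∀ j, 0 ≤ ρ j) (hρ1 : ∀ j, ρ j ≤ 1) (K : ℕ)
    (F : MvPolynomial (Fin d) ℂ) : wn K (dilv ρ F) ≤ wn K F :=
  (wn_dilv_le hρ0 hρ1 K F).trans (wn_dil_le zero_le_one le_rfl K F)

/-- the list with each element of `S` repeated `a` times -/
noncomputable def rl (a : ℕ) (S : Finset (Fin d)) : List (Fin d) :=
  S.toList.flatMap fun j => List.replicate a j

theorem length_rl (a : ℕ) (S : Finset (Fin d)) : (rl a S).length = S.card * a := by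
  rw [rl, List.length_flatMap]
  simp [List.map_const', Finset.length_toList]

theorem prod_rl (a : ℕ) (S : Finset (Fin d)) (x : Fin d → ℂ) :
    ((rl a S).map x).prod = ∏ j ∈ S, x j ^ a := by
  have h : ∀ l : List (Fin d), ((l.flatMap fun j => List.replicate a j).map x).prod
      = (l.map fun j => x j ^ a).prod := by
    intro l
    induction l with
    | nil => simp
    | cons j l ih =>
      rw [List.flatMap_cons, List.map_append, List.prod_append, ih]
      simp
  rw [rl, h, Finset.prod_map_toList]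

/-- uniform bound for the derivatives of `g^L / P` on tori -/
theorem deriv_bound (P : MvPolynomial (Fin d) ℂ) (hP : P.coeff 0 = 1)
    (hz : ∀ z : Fin d → ℂ, (∀ j, ‖z j‖ < 1) → eval z P ≠ 0) (i : Fin d) {c : ℂ} (hc : ‖c‖ ≤ 1) (a : ℕ) :
    ∃ K : ℝ, 0 ≤ K ∧ ∀ (ρ : Fin d → ℝ) (M : ℕ), (∀ j, 0 < ρ j) → (∀ j, ρ j < 1) →
      wn (d * a) (dilv ρ (RM P M)) ≤ 1 → ∀ S : Finset (Fin d), ∀ x,
      ‖eval (tor x) (Xl (dilv ρ ((setv i c P) ^ (2 * (d * a) + 1) * EM P M)) (rl a S))‖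
        ≤ K * ((2 / (1 - ρ i)) ^ P.totalDegree) ^ (d * a + 1) := by
  classical
  set m := d * a with hm
  set L := 2 * m + 1 with hL
  set g := setv i c P with hg
  set b : ℝ := wn m P + wn m g + 2 with hb
  have nP := wn_nonneg m P
  have ng := wn_nonneg m g
  choose c' hc'0 hc' using fun l : List (Fin d) => Gl_bound L l 0 b
  set bg : ℝ := max 1 (wn 0 g) with hbg
  have hbg1 : 1 ≤ bg := le_max_left _ _
  refine ⟨∑ S : Finset (Fin d), bg ^ L * c' (rl a S), Finset.sum_nonneg fun S _ => mul_nonneg (by positivity) (hc'0 _), ?_⟩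
  intro ρ M hρ0 hρ1 hRM S x
  have hρ0' : ∀ j, 0 ≤ ρ j := fun j => (hρ0 j).le
  have hρ1' : ∀ j, ρ j ≤ 1 := fun j => (hρ1 j).le
  set G := dilv ρ g with hG
  set U := dilv ρ P with hU
  set B := 1 + dilv ρ (RM P M) with hB
  set F := dilv ρ (g ^ L * EM P M) with hF
  have hUF : U * F = G ^ L * B := by
    have h1 : dilv ρ (EM P M) * U = B := by
      rw [hU, hB, ← map_mul, RM, map_sub, map_one]
      ring
    rw [hF, map_mul, map_pow, ← h1]
    ring
  have hwU : wn m U ≤ b := (wn_dilv_le' hρ0' hρ1' m P).trans (by rw [hb]; linarith)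
  have hwG : wn m G ≤ b := (wn_dilv_le' hρ0' hρ1' m g).trans (by rw [hb]; linarith)
  have hwB : wn m B ≤ b := by
    refine (wn_add_le _ _ _).trans ?_
    have h2 : wn m (1 : MvPolynomial (Fin d) ℂ) = 1 := by
      rw [show (1 : MvPolynomial (Fin d) ℂ) = monomial 0 1 from rfl, wn_monomial]
      simp
    rw [h2, hb]
    linarith
  have hlen : (rl a S).length ≤ m := by
    rw [length_rl, hm]
    apply Nat.mul_le_mul_right
    have := Finset.card_le_univ S
    simpa using this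
  set n := (rl a S).length with hn
  have htn : ∀ j, ‖tor x j‖ = 1 := norm_tor x
  have htn' : ∀ j, ‖tor x j‖ ≤ 1 := fun j => (htn j).le
  have hpt : ∀ j, ‖(ρ j : ℂ) * tor x j‖ = ρ j := by
    intro j
    rw [norm_mul, htn, mul_one, Complex.norm_real, Real.norm_of_nonneg (hρ0' j)]
  have hU0 : eval (tor x) U ≠ 0 := by
    rw [hU, dilv_eval]
    apply hz
    intro j
    rw [hpt]; exact hρ1 j
  have hUpos : 0 < ‖eval (tor x) U‖ := norm_pos_iff.2 hU0
  set q : ℝ := (2 / (1 - ρ i)) ^ P.totalDegree with hq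
  have hs : 0 < 1 - ρ i := by have := hρ1 i; linarith
  have hq1 : 1 ≤ q := by
    apply one_le_pow₀
    rw [one_le_div hs]
    have := hρ0 i
    linarith
  have hGU : ‖eval (tor x) G‖ ≤ q * ‖eval (tor x) U‖ := by
    have h1 := poly_ineq P hz i hc (fun j => (ρ j : ℂ) * tor x j) (fun j => by rw [hpt]; exact hρ1 j)
    rw [hpt] at h1
    rw [hG, hU, dilv_eval, dilv_eval]
    have h2 : q * ((1 - ρ i) / 2) ^ P.totalDegree = 1 := by
      rw [hq, ← mul_pow]
      rw [show 2 / (1 - ρ i) * ((1 - ρ i) / 2) = 1 by field_simp]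
      exact one_pow _
    calc ‖eval (fun j => (ρ j : ℂ) * tor x j) g‖
        = q * (‖eval (fun j => (ρ j : ℂ) * tor x j) g‖ * ((1 - ρ i) / 2) ^ P.totalDegree) := by
          rw [← mul_assoc, mul_comm q, mul_assoc, h2, mul_one]
      _ ≤ q * ‖eval (fun j => (ρ j : ℂ) * tor x j) P‖ :=
          mul_le_mul_of_nonneg_left h1 (by positivity)
  have hGb : ‖eval (tor x) G‖ ≤ bg := by
    refine (norm_eval_le_wn G _ htn').trans ?_
    exact (wn_dilv_le' hρ0' hρ1' 0 g).trans (le_max_right _ _)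
  have hGl : ‖eval (tor x) (Gl U G B L (rl a S))‖ ≤ c' (rl a S) := by
    refine (norm_eval_le_wn _ _ htn').trans ?_
    apply hc'
    · exact (wn_mono (by rw [← hn]; omega) U).trans hwU
    · exact (wn_mono (by rw [← hn]; omega) G).trans hwG
    · exact (wn_mono (by rw [← hn]; omega) B).trans hwB
  have h1 := congrArg (eval (tor x)) (Xl_identity U G B F L hUF (rl a S) (by rw [← hn]; omega))
  rw [map_mul, map_mul, map_pow, map_pow, ← hn] at h1
  have hGpow : ‖eval (tor x) G‖ ^ (L - n) ≤ q ^ (m + 1) * ‖eval (tor x) U‖ ^ (n + 1) * bg ^ L := by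
    obtain ⟨e, he⟩ : ∃ e, L - n = (n + 1) + e := ⟨L - n - (n + 1), by omega⟩
    rw [he, pow_add]
    have h2 : ‖eval (tor x) G‖ ^ (n + 1) ≤ q ^ (m + 1) * ‖eval (tor x) U‖ ^ (n + 1) := by
      calc ‖eval (tor x) G‖ ^ (n + 1) ≤ (q * ‖eval (tor x) U‖) ^ (n + 1) :=
            pow_le_pow_left₀ (norm_nonneg _) hGU _
        _ = q ^ (n + 1) * ‖eval (tor x) U‖ ^ (n + 1) := mul_pow _ _ _
        _ ≤ q ^ (m + 1) * ‖eval (tor x) U‖ ^ (n + 1) := by
            apply mul_le_mul_of_nonneg_right _ (by positivity)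
            exact pow_le_pow_right₀ hq1 (by omega)
    have h3 : ‖eval (tor x) G‖ ^ e ≤ bg ^ L := by
      calc ‖eval (tor x) G‖ ^ e ≤ bg ^ e := pow_le_pow_left₀ (norm_nonneg _) hGb _
        _ ≤ bg ^ L := pow_le_pow_right₀ hbg1 (by omega)
    exact mul_le_mul h2 h3 (by positivity) (by positivity)
  have h2 : ‖eval (tor x) U‖ ^ (n + 1) * ‖eval (tor x) (Xl F (rl a S))‖
      ≤ ‖eval (tor x) U‖ ^ (n + 1) * ((bg ^ L * c' (rl a S)) * q ^ (m + 1)) := by
    rw [← norm_pow, ← norm_mul, h1, norm_mul, norm_pow]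
    calc ‖eval (tor x) G‖ ^ (L - n) * ‖eval (tor x) (Gl U G B L (rl a S))‖
        ≤ (q ^ (m + 1) * ‖eval (tor x) U‖ ^ (n + 1) * bg ^ L) * c' (rl a S) :=
          mul_le_mul hGpow hGl (norm_nonneg _) (by positivity)
      _ = ‖(eval (tor x)) U ^ (n + 1)‖ * ((bg ^ L * c' (rl a S)) * q ^ (m + 1)) := by
          rw [norm_pow]; ring
  have h3 := le_of_mul_le_mul_left h2 (by positivity)
  refine h3.trans ?_
  apply mul_le_mul_of_nonneg_right _ (by positivity)
  exact Finset.single_le_sum (f := fun S => bg ^ L * c' (rl a S))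
    (fun S _ => mul_nonneg (by positivity) (hc'0 _)) (Finset.mem_univ S)

/-- one coefficient is bounded by the supremum on the torus -/
theorem norm_coeff_le_of_torus (F : MvPolynomial (Fin d) ℂ) {B : ℝ} (hB0 : 0 ≤ B)
    (hB : ∀ x, ‖eval (tor x) F‖ ≤ B) (α : Fin d →₀ ℕ) : ‖F.coeff α‖ ≤ B := by
  by_cases hα : α ∈ F.support
  · have h1 := sum_sq_le F (B := B ^ 2) fun x => pow_le_pow_left₀ (norm_nonneg _) (hB x) 2
    have h2 := Finset.single_le_sum (f := fun α => ‖F.coeff α‖ ^ 2) (fun α _ => by positivity) hα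
    exact le_of_sq_le_sq (h2.trans h1) hB0
  · rw [notMem_support_iff] at hα
    rw [hα, norm_zero]
    exact hB0

/-- **Decay of the coefficients** of `g^L / P`. -/
theorem coef_decay (P : MvPolynomial (Fin d) ℂ) (hP : P.coeff 0 = 1)
    (hz : ∀ z : Fin d → ℂ, (∀ j, ‖z j‖ < 1) → eval z P ≠ 0) (i : Fin d) {c : ℂ} (hc : ‖c‖ ≤ 1) (a : ℕ) :
    ∃ (K : ℝ) (κ : ℕ), 0 ≤ K ∧ ∀ α : Fin d →₀ ℕ,
      ‖MvPowerSeries.coeff α ((((setv i c P) ^ (2 * (d * a) + 1) : MvPolynomial (Fin d) ℂ) :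
        MvPowerSeries (Fin d) ℂ) * (P : MvPowerSeries (Fin d) ℂ)⁻¹)‖ * ∏ j ∈ Finset.univ.erase i, (1 + (α j : ℝ)) ^ a
        ≤ K * (1 + (α i : ℝ)) ^ κ := by
  classical
  obtain ⟨K, hK0, hK⟩ := deriv_bound P hP hz i hc a
  set L := 2 * (d * a) + 1 with hL
  set g := setv i c P with hg
  set κ := P.totalDegree * (d * a + 1) with hκ
  refine ⟨2 ^ (d * a) * (Real.exp 1 * (K * 4 ^ κ)), κ, by positivity, fun α => ?_⟩
  set cα := MvPowerSeries.coeff α ((((g : MvPolynomial (Fin d) ℂ) ^ L : MvPolynomial (Fin d) ℂ) :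
        MvPowerSeries (Fin d) ℂ) * (P : MvPowerSeries (Fin d) ℂ)⁻¹) with hcα
  set b : ℝ := (α i : ℝ) with hb
  have hb0 : 0 ≤ b := Nat.cast_nonneg _
  set ρi : ℝ := (b + 1) / (b + 2) with hρi
  have hρi0 : 0 < ρi := by positivity
  have hρi1 : ρi < 1 := by rw [hρi, div_lt_one (by positivity)]; linarith
  have h1ρ : 1 - ρi = 1 / (b + 2) := by rw [hρi]; field_simp; ring
  set S : Finset (Fin d) := (Finset.univ.erase i).filter fun j => 0 < α j with hS
  set A : ℝ := ∏ j ∈ S, (α j : ℝ) ^ a with hA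
  have hA0 : 0 ≤ A := Finset.prod_nonneg fun j _ => by positivity
  -- the estimate for `r < 1`
  have hr : ∀ r : ℝ, ρi ≤ r → r < 1 →
      (‖cα‖ * (ρi ^ α i * ∏ j ∈ Finset.univ.erase i, r ^ α j)) * A ≤ K * (2 * (b + 2)) ^ κ := by
    intro r hr0 hr1
    have hr0' : 0 < r := hρi0.trans_le hr0
    set ρ : Fin d → ℝ := fun j => if j = i then ρi else r with hρ
    have hρpos : ∀ j, 0 < ρ j := by
      intro j; simp only [hρ]; split_ifs <;> assumption
    have hρ1 : ∀ j, ρ j < 1 := by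
      intro j; simp only [hρ]; split_ifs <;> assumption
    have hρr : ∀ j, ρ j ≤ r := by
      intro j; simp only [hρ]; split_ifs
      · exact hr0
      · exact le_rfl
    obtain ⟨M, hM1, hM2⟩ := exists_small_RM P hP hz hr0' hr1 (d * a) α.degree
    have hM3 : wn (d * a) (dilv ρ (RM P M)) ≤ 1 :=
      (wn_dilv_le (fun j => (hρpos j).le) hρr _ _).trans hM2
    have h1 := fun x => hK ρ M hρpos hρ1 hM3 S x
    have hB0 : 0 ≤ K * ((2 / (1 - ρ i)) ^ P.totalDegree) ^ (d * a + 1) := by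
      have : 0 < 1 - ρ i := by have := hρ1 i; linarith
      positivity
    have h2 := norm_coeff_le_of_torus _ hB0 h1 α
    rw [coeff_Xl, prod_rl, coeff_dilv, norm_mul, norm_mul, norm_prod_pow (fun j => (hρpos j).le),
      ← coeff_mul_inv P (g ^ L) hP hM1] at h2
    have h3 : ‖∏ j ∈ S, ((α j : ℕ) : ℂ) ^ a‖ = A := by
      rw [norm_prod]
      apply Finset.prod_congr rfl
      intro j _
      rw [norm_pow, Complex.norm_natCast]
    have h4 : ∏ j, ρ j ^ α j = ρi ^ α i * ∏ j ∈ Finset.univ.erase i, r ^ α j := by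
      rw [← Finset.mul_prod_erase _ _ (Finset.mem_univ i)]
      congr 1
      · simp [hρ]
      · apply Finset.prod_congr rfl
        intro j hj
        simp only [hρ, if_neg (Finset.ne_of_mem_erase hj)]
    have h5 : K * ((2 / (1 - ρ i)) ^ P.totalDegree) ^ (d * a + 1) = K * (2 * (b + 2)) ^ κ := by
      have : ρ i = ρi := by simp [hρ]
      rw [this, h1ρ, ← pow_mul, hκ]
      congr 2
      field_simp
    rw [h3, h4, h5] at h2
    calc (‖cα‖ * (ρi ^ α i * ∏ j ∈ Finset.univ.erase i, r ^ α j)) * A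
        = A * (‖cα‖ * (ρi ^ α i * ∏ j ∈ Finset.univ.erase i, r ^ α j)) := mul_comm _ _
      _ ≤ _ := h2
  -- let `r → 1`
  have hlim : (‖cα‖ * (ρi ^ α i * ∏ j ∈ Finset.univ.erase i, (1 : ℝ) ^ α j)) * A ≤ K * (2 * (b + 2)) ^ κ := by
    have hcont : Continuous fun r : ℝ => (‖cα‖ * (ρi ^ α i * ∏ j ∈ Finset.univ.erase i, r ^ α j)) * A := by
      fun_prop
    have ht : Tendsto (fun r : ℝ => (‖cα‖ * (ρi ^ α i * ∏ j ∈ Finset.univ.erase i, r ^ α j)) * A)
        (𝓝[<] 1) (𝓝 ((‖cα‖ * (ρi ^ α i * ∏ j ∈ Finset.univ.erase i, (1 : ℝ) ^ α j)) * A)) :=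
      (hcont.tendsto 1).mono_left nhdsWithin_le_nhds
    apply le_of_tendsto ht
    filter_upwards [Ioo_mem_nhdsLT hρi1] with r hr'
    exact hr r hr'.1.le hr'.2
  simp only [one_pow, Finset.prod_const_one, mul_one] at hlim
  -- remove `ρi`
  have hρe : 1 ≤ Real.exp 1 * ρi ^ α i := by
    have h1 : ρi⁻¹ ≤ Real.exp (1 / (b + 1)) := by
      have h2 := Real.add_one_le_exp (1 / (b + 1))
      have h3 : ρi⁻¹ = 1 / (b + 1) + 1 := by rw [hρi]; field_simp; ring
      rw [h3]; exact h2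
    have h2 : (ρi⁻¹) ^ α i ≤ Real.exp 1 := by
      calc (ρi⁻¹) ^ α i ≤ Real.exp (1 / (b + 1)) ^ α i := pow_le_pow_left₀ (by positivity) h1 _
        _ = Real.exp (b * (1 / (b + 1))) := by rw [← Real.exp_nat_mul]
        _ ≤ Real.exp 1 := by
            apply Real.exp_le_exp.2
            rw [mul_one_div, div_le_one (by positivity)]
            linarith
    rw [inv_pow] at h2
    have h3 : 0 < ρi ^ α i := by positivity
    calc (1 : ℝ) = (ρi ^ α i)⁻¹ * ρi ^ α i := (inv_mul_cancel₀ h3.ne').symm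
      _ ≤ _ := mul_le_mul_of_nonneg_right h2 h3.le
  have h6 : ‖cα‖ * A ≤ Real.exp 1 * (K * 4 ^ κ) * (1 + b) ^ κ := by
    calc ‖cα‖ * A = ‖cα‖ * A * 1 := (mul_one _).symm
      _ ≤ ‖cα‖ * A * (Real.exp 1 * ρi ^ α i) := by
          apply mul_le_mul_of_nonneg_left hρe; positivity
      _ = Real.exp 1 * ((‖cα‖ * ρi ^ α i) * A) := by ring
      _ ≤ Real.exp 1 * (K * (2 * (b + 2)) ^ κ) := mul_le_mul_of_nonneg_left hlim (Real.exp_pos _).le
      _ ≤ Real.exp 1 * (K * (4 * (1 + b)) ^ κ) := by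
          apply mul_le_mul_of_nonneg_left _ (Real.exp_pos _).le
          apply mul_le_mul_of_nonneg_left _ hK0
          apply pow_le_pow_left₀ (by positivity)
          linarith
      _ = _ := by rw [mul_pow]; ring
  have h7 : ∏ j ∈ Finset.univ.erase i, (1 + (α j : ℝ)) ^ a ≤ 2 ^ (d * a) * A := by
    have h8 : ∏ j ∈ Finset.univ.erase i, (1 + (α j : ℝ)) ^ a
        ≤ ∏ j ∈ Finset.univ.erase i, (2 ^ a * (if 0 < α j then (α j : ℝ) ^ a else 1)) := by
      apply Finset.prod_le_prod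
      · intro j _; positivity
      · intro j _
        split_ifs with hj
        · rw [← mul_pow]
          apply pow_le_pow_left₀ (by positivity)
          have : (1 : ℝ) ≤ α j := by exact_mod_cast hj
          linarith
        · have : α j = 0 := by omega
          rw [this]
          simp
          exact one_le_pow₀ (by norm_num)
    refine h8.trans ?_
    rw [Finset.prod_mul_distrib, Finset.prod_const, ← pow_mul, ← Finset.prod_filter, ← hS, ← hA]
    apply mul_le_mul_of_nonneg_right _ hA0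
    apply pow_le_pow_right₀ (by norm_num)
    rw [Finset.card_erase_of_mem (Finset.mem_univ i), Finset.card_univ, Fintype.card_fin, mul_comm]
    apply Nat.mul_le_mul_right
    omega
  calc ‖cα‖ * ∏ j ∈ Finset.univ.erase i, (1 + (α j : ℝ)) ^ a ≤ ‖cα‖ * (2 ^ (d * a) * A) :=
        mul_le_mul_of_nonneg_left h7 (norm_nonneg _)
    _ = 2 ^ (d * a) * (‖cα‖ * A) := by ring
    _ ≤ 2 ^ (d * a) * (Real.exp 1 * (K * 4 ^ κ) * (1 + b) ^ κ) :=
        mul_le_mul_of_nonneg_left h6 (by positivity)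
    _ = _ := by ring

end Pool.Agent.Helper49.FA
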