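import Mathlib

/-! Combinatorial lemmas: adapted bases, layers, products of summable families. -/

set_option autoImplicit false
set_option linter.unusedSectionVars false

namespace Pool.Agent.Helper49.FA

open Set Filter Topology Submodule

/-- independent families adapted to finitely many level sets -/
theorem exists_adapted_aux {σ V : Type*} [Fintype σ] [AddCommGroup V] [Module ℝ V] (l : σ → V)
    (μ : σ → ℝ) (A : Finset ℝ) :
    ∃ J : Set σ, LinearIndepOn ℝ l J ∧ (∀ j ∈ J, ∃ x ∈ A, x ≤ μ j) ∧
      ∀ a ∈ A, ∀ i, a ≤ μ i → l i ∈ span ℝ (l '' {j | j ∈ J ∧ a ≤ μ j}) := by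
  classical
  induction A using Finset.induction_on_min with
  | empty => exact ⟨∅, linearIndepOn_empty ℝ l, by simp, by simp⟩
  | insert a s hs ih =>
    obtain ⟨J, hJ, hJs, hJspan⟩ := ih
    have hsub : J ⊆ {i | a ≤ μ i} := by
      intro j hj
      obtain ⟨x, hx, hxj⟩ := hJs j hj
      exact (hs x hx).le.trans hxj
    obtain ⟨b, hb1, hb2, hb3, hb4⟩ := exists_linearIndepOn_extension hJ hsub
    refine ⟨b, hb4, fun j hj => ⟨a, Finset.mem_insert_self _ _, hb1 hj⟩, ?_⟩
    intro x hx i hi
    rw [Finset.mem_insert] at hx
    rcases hx with rfl | hx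
    · have h1 : {j | j ∈ b ∧ x ≤ μ j} = b := by
        ext j
        exact ⟨fun h => h.1, fun h => ⟨h, hb1 h⟩⟩
      rw [h1]
      exact hb3 ⟨i, hi, rfl⟩
    · refine span_mono (Set.image_mono ?_) (hJspan x hx i hi)
      exact fun j hj => ⟨hb2 hj.1, hj.2⟩

/-- A basis adapted to the level sets of `μ`. -/
theorem exists_adapted {σ V : Type*} [Fintype σ] [DecidableEq σ] [AddCommGroup V] [Module ℝ V] (l : σ → V)
    (μ : σ → ℝ) :
    ∃ J : Finset σ, LinearIndepOn ℝ l (J : Set σ) ∧ (∀ i, l i ∈ span ℝ (l '' (J : Set σ))) ∧
      ∀ a ∈ Finset.univ.image μ, ∀ i, a ≤ μ i →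
        l i ∈ span ℝ (l '' ((J.filter fun j => a ≤ μ j : Finset σ) : Set σ)) := by
  classical
  obtain ⟨J, hJ, -, hJs⟩ := exists_adapted_aux l μ (Finset.univ.image μ)
  have hJ' : ((Finset.univ.filter fun j => j ∈ J : Finset σ) : Set σ) = J := by
    ext j; simp
  refine ⟨Finset.univ.filter fun j => j ∈ J, by rw [hJ']; exact hJ, ?_, ?_⟩
  · intro i
    rw [hJ']
    refine span_mono (Set.image_mono ?_) (hJs (μ i) (Finset.mem_image_of_mem _ (Finset.mem_univ i)) i le_rfl)
    exact fun j hj => hj.1
  · intro a ha i hi
    have h1 : (((Finset.univ.filter fun j => j ∈ J).filter fun j => a ≤ μ j : Finset σ) : Set σ)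
        = {j | j ∈ J ∧ a ≤ μ j} := by
      ext j; simp
    rw [h1]
    exact hJs a ha i hi

/-- **Layers.** -/
theorem layer_neg {σ : Type*} [Fintype σ] (c : σ → ℝ) (n : ℕ) : ∀ μ : σ → ℝ, (∀ j, 0 ≤ μ j) →
    (Finset.univ.filter fun j => 0 < μ j).card ≤ n →
    (∀ a : ℝ, 0 < a → (∃ j, μ j = a) → ∑ j ∈ Finset.univ.filter (fun j => a ≤ μ j), c j < 0) →
    ∑ j, μ j * c j ≤ 0 ∧ ((∃ j, 0 < μ j) → ∑ j, μ j * c j < 0) := by
  classical
  induction n with
  | zero =>
    intro μ hμ hn _
    have h0 : ∀ j, μ j = 0 := by
      intro j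
      by_contra hne
      have h1 : j ∈ Finset.univ.filter fun j => 0 < μ j :=
        Finset.mem_filter.2 ⟨Finset.mem_univ _, lt_of_le_of_ne (hμ j) (Ne.symm hne)⟩
      have := Finset.card_pos.2 ⟨j, h1⟩
      omega
    refine ⟨by simp [h0], ?_⟩
    rintro ⟨j, hj⟩
    exact absurd (h0 j) hj.ne'
  | succ n ih =>
    intro μ hμ hn hc
    by_cases hne : (Finset.univ.filter fun j => 0 < μ j).Nonempty
    · obtain ⟨i, hi, hmin⟩ := Finset.exists_min_image _ μ hne
      set m := μ i with hm
      have hmpos : 0 < m := (Finset.mem_filter.1 hi).2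
      set S := Finset.univ.filter fun j => 0 < μ j with hS
      set μ' : σ → ℝ := fun j => if j ∈ S then μ j - m else 0 with hμ'
      have hμ'nn : ∀ j, 0 ≤ μ' j := by
        intro j
        simp only [hμ']
        split_ifs with h
        · linarith [hmin j h]
        · exact le_rfl
      have hμ'pos : ∀ j, 0 < μ' j ↔ m < μ j := by
        intro j
        simp only [hμ']
        split_ifs with h
        · exact sub_pos
        · constructor
          · intro h'; exact absurd h' (lt_irrefl _)
          · intro h'
            exact absurd (show j ∈ S from Finset.mem_filter.2 ⟨Finset.mem_univ _, hmpos.trans h'⟩) h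
      have hcard : (Finset.univ.filter fun j => 0 < μ' j).card ≤ n := by
        have h1 : (Finset.univ.filter fun j => 0 < μ' j) ⊂ S := by
          rw [Finset.ssubset_iff_of_subset]
          · refine ⟨i, hi, ?_⟩
            rw [Finset.mem_filter, hμ'pos]
            exact fun h => lt_irrefl _ h.2
          · intro j hj
            rw [Finset.mem_filter, hμ'pos] at hj
            exact Finset.mem_filter.2 ⟨Finset.mem_univ _, hmpos.trans hj.2⟩
        have := Finset.card_lt_card h1
        omega
      have hlev : ∀ a : ℝ, 0 < a → ∀ j, a ≤ μ' j ↔ a + m ≤ μ j := by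
        intro a ha j
        simp only [hμ']
        split_ifs with h
        · constructor <;> intro h' <;> linarith
        · constructor
          · intro h'; linarith
          · intro h'
            exact absurd (show j ∈ S from Finset.mem_filter.2 ⟨Finset.mem_univ _, by linarith⟩) h
      have hih := ih μ' hμ'nn hcard (by
        rintro a ha ⟨j, hj⟩
        have h1 : (Finset.univ.filter fun j => a ≤ μ' j) = Finset.univ.filter fun j => a + m ≤ μ j := by
          ext j
          simp only [Finset.mem_filter, Finset.mem_univ, true_and]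
          exact hlev a ha j
        rw [h1]
        apply hc (a + m) (by linarith)
        refine ⟨j, ?_⟩
        have h2 : 0 < μ' j := by rw [hj]; exact ha
        have h3 : j ∈ S := by
          rw [hμ'pos] at h2
          exact Finset.mem_filter.2 ⟨Finset.mem_univ _, hmpos.trans h2⟩
        have h4 : μ' j = μ j - m := by simp only [hμ', if_pos h3]
        linarith)
      have hsum : ∑ j, μ j * c j = m * ∑ j ∈ S, c j + ∑ j, μ' j * c j := by
        have h1 : ∀ j, μ j * c j = (if j ∈ S then m * c j else 0) + μ' j * c j := by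
          intro j
          simp only [hμ']
          split_ifs with h
          · ring
          · have : μ j = 0 := by
              by_contra hne'
              exact h (Finset.mem_filter.2 ⟨Finset.mem_univ _, lt_of_le_of_ne (hμ j) (Ne.symm hne')⟩)
            rw [this]; ring
        rw [Finset.sum_congr rfl fun j _ => h1 j, Finset.sum_add_distrib, Finset.sum_ite_mem,
          Finset.univ_inter, Finset.mul_sum]
      have hSneg : ∑ j ∈ S, c j < 0 := by
        have h1 : S = Finset.univ.filter fun j => m ≤ μ j := by
          ext j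
          simp only [hS, Finset.mem_filter, Finset.mem_univ, true_and]
          constructor
          · intro h
            exact hmin j (Finset.mem_filter.2 ⟨Finset.mem_univ _, h⟩)
          · intro h; linarith
        rw [h1]
        exact hc m hmpos ⟨i, rfl⟩
      have hfin : ∑ j, μ j * c j < 0 := by
        rw [hsum]
        have := mul_neg_of_pos_of_neg hmpos hSneg
        linarith [hih.1]
      exact ⟨hfin.le, fun _ => hfin⟩
    · rw [Finset.not_nonempty_iff_eq_empty] at hne
      exact ih μ hμ (by rw [hne]; simp) hc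

/-- products of summable families -/
theorem summable_pi_prod {ι : Type*} [Fintype ι] [DecidableEq ι] {α : Type*} [DecidableEq α] (f : ι → α → ℝ)
    (hf : ∀ i a, 0 ≤ f i a) (hs : ∀ i, Summable (f i)) : Summable fun r : ι → α => ∏ i, f i (r i) := by
  apply summable_of_sum_le (c := ∏ i, ∑' a, f i a)
  · intro r
    exact Finset.prod_nonneg fun i _ => hf i _
  · intro S
    set T : ι → Finset α := fun i => S.image fun r => r i with hT
    have hsub : S ⊆ Fintype.piFinset T := by
      intro r hr
      rw [Fintype.mem_piFinset]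
      intro i
      exact Finset.mem_image_of_mem _ hr
    calc ∑ r ∈ S, ∏ i, f i (r i) ≤ ∑ r ∈ Fintype.piFinset T, ∏ i, f i (r i) :=
          Finset.sum_le_sum_of_subset_of_nonneg hsub fun r _ _ => Finset.prod_nonneg fun i _ => hf i _
      _ = ∏ i, ∑ a ∈ T i, f i a := (Finset.prod_univ_sum T f).symm
      _ ≤ ∏ i, ∑' a, f i a := by
          apply Finset.prod_le_prod
          · intro i _; exact Finset.sum_nonneg fun a _ => hf i a
          · intro i _; exact (hs i).sum_le_tsum _ fun a _ => hf i a

end Pool.Agent.Helper49.FA
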