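import Mathlib
import Pool.Agent.Helper49.FCoef
import Pool.Agent.Helper49.FComb

/-! The extension operators: from a functional annihilated by a zero-free polynomial to a sequence on
the whole integer lattice. -/

set_option autoImplicit false

namespace Pool.Agent.Helper49.FA

open Filter Topology MvPolynomial Finset
open Pool.Agent.Helper49.Cyc Pool.Agent.Helper49.Torus Pool.Agent.Helper49.Univ
open Pool.Agent.Helper49.Toral Pool.Agent.Helper49.Comp

variable {n : ℕ}

/-- good functionals -/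
structure Good (t K : ℝ) (𝔮 : Ideal (MvPolynomial (Fin n) ℂ)) (u : MvPolynomial (Fin n) ℂ → ℂ) : Prop where
  add : ∀ f g, u (f + g) = u f + u g
  smul : ∀ (a : ℂ) f, u (C a * f) = a * u f
  bound : ∀ f, ‖u f‖ ≤ K * ‖J t f‖
  kill : ∀ q ∈ 𝔮, ∀ f, u (q * f) = 0

theorem Good.zero {t K : ℝ} {𝔮 : Ideal (MvPolynomial (Fin n) ℂ)} {u : MvPolynomial (Fin n) ℂ → ℂ}
    (hu : Good t K 𝔮 u) : u 0 = 0 := by
  have h := hu.smul 0 0
  simpa using h

theorem Good.sum {t K : ℝ} {𝔮 : Ideal (MvPolynomial (Fin n) ℂ)} {u : MvPolynomial (Fin n) ℂ → ℂ}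
    (hu : Good t K 𝔮 u) {ι : Type*} (s : Finset ι) (f : ι → MvPolynomial (Fin n) ℂ) :
    u (∑ i ∈ s, f i) = ∑ i ∈ s, u (f i) := by
  classical
  induction s using Finset.induction_on with
  | empty => simp [hu.zero]
  | insert i s hi ih => rw [Finset.sum_insert hi, Finset.sum_insert hi, hu.add, ih]

theorem Good.mono {t K K' : ℝ} {𝔮 : Ideal (MvPolynomial (Fin n) ℂ)} {u : MvPolynomial (Fin n) ℂ → ℂ}
    (hu : Good t K 𝔮 u) (h : K ≤ K') : Good t K' 𝔮 u :=
  ⟨hu.add, hu.smul, fun f => (hu.bound f).trans (mul_le_mul_of_nonneg_right h (norm_nonneg _)), hu.kill⟩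

/-- expansion of `u (P f)` -/
theorem Good.mul {t K : ℝ} {𝔮 : Ideal (MvPolynomial (Fin n) ℂ)} {u : MvPolynomial (Fin n) ℂ → ℂ}
    (hu : Good t K 𝔮 u) (P f : MvPolynomial (Fin n) ℂ) :
    u (P * f) = ∑ β ∈ P.support, P.coeff β * u (monomial β 1 * f) := by
  conv_lhs => rw [P.as_sum, Finset.sum_mul, hu.sum]
  apply Finset.sum_congr rfl
  intro β _
  rw [show (monomial β (P.coeff β) : MvPolynomial (Fin n) ℂ) = C (P.coeff β) * monomial β 1 by
    rw [C_mul_monomial, mul_one], mul_assoc, hu.smul]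

theorem sqrt_weight_le {t : ℝ} (ht0 : 0 ≤ t) (ht1 : t ≤ 1) (δ : Fin n →₀ ℕ) :
    Real.sqrt (weight |t| δ) ≤ ∏ j, (1 + (δ j : ℝ)) := by
  rw [abs_of_nonneg ht0]
  have h1 : weight t δ ≤ ∏ j, (1 + (δ j : ℝ)) := by
    unfold weight
    apply Finset.prod_le_prod
    · intro j _; positivity
    · intro j _
      calc (1 + (δ j : ℝ)) ^ t ≤ (1 + (δ j : ℝ)) ^ (1 : ℝ) :=
            Real.rpow_le_rpow_of_exponent_le (by simp) ht1
        _ = _ := Real.rpow_one _
  have h2 : (1 : ℝ) ≤ ∏ j, (1 + (δ j : ℝ)) := by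
    rw [← Finset.prod_const_one (s := (Finset.univ : Finset (Fin n)))]
    apply Finset.prod_le_prod
    · intro j _; norm_num
    · intro j _; simp
  apply Real.sqrt_le_iff.2
  constructor
  · linarith
  · nlinarith

theorem Good.monomial_bound {t K : ℝ} (ht0 : 0 ≤ t) (ht1 : t ≤ 1) (hK : 0 ≤ K)
    {𝔮 : Ideal (MvPolynomial (Fin n) ℂ)} {u : MvPolynomial (Fin n) ℂ → ℂ}
    (hu : Good t K 𝔮 u) (δ : Fin n →₀ ℕ) (f : MvPolynomial (Fin n) ℂ) :
    ‖u (monomial δ 1 * f)‖ ≤ K * ‖J t f‖ * ∏ j, (1 + (δ j : ℝ)) := by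
  have h1 := hu.bound (monomial δ 1 * f)
  have h2 := norm_J_monomial_mul t δ 1 f
  rw [norm_one, one_mul] at h2
  calc ‖u (monomial δ 1 * f)‖ ≤ K * ‖J t (monomial δ 1 * f)‖ := h1
    _ ≤ K * ((∏ j, (1 + (δ j : ℝ))) * ‖J t f‖) := by
        apply mul_le_mul_of_nonneg_left _ hK
        exact h2.trans (mul_le_mul_of_nonneg_right (sqrt_weight_le ht0 ht1 δ) (norm_nonneg _))
    _ = _ := by ring

/-- a summable weight on exponents -/
noncomputable def Zt (γ : Fin n →₀ ℕ) : ℝ := ∏ j, ((1 + (γ j : ℝ)) ^ 2)⁻¹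

theorem Zt_nonneg (γ : Fin n →₀ ℕ) : 0 ≤ Zt γ := Finset.prod_nonneg fun j _ => by positivity

theorem summable_Zt : Summable (Zt : (Fin n →₀ ℕ) → ℝ) := by
  have h1 : Summable fun a : ℕ => ((1 + (a : ℝ)) ^ 2)⁻¹ := by
    have h := (summable_nat_add_iff 1).2 (Real.summable_nat_pow_inv.2 (one_lt_two : 1 < 2))
    refine h.congr fun a => ?_
    push_cast
    rw [add_comm]
  have h2 := summable_pi_prod (fun (_ : Fin n) (a : ℕ) => ((1 + (a : ℝ)) ^ 2)⁻¹)
    (fun i a => by positivity) (fun _ => h1)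
  exact h2.comp_injective (i := fun γ : Fin n →₀ ℕ => (γ : Fin n → ℕ)) DFunLike.coe_injective

/-- the total mass -/
noncomputable def ZZ (n : ℕ) : ℝ := ∑' γ : Fin n →₀ ℕ, Zt γ

theorem ZZ_nonneg : 0 ≤ ZZ n := tsum_nonneg Zt_nonneg

section ts

variable {t K : ℝ} {𝔮 : Ideal (MvPolynomial (Fin n) ℂ)} {u : MvPolynomial (Fin n) ℂ → ℂ}

theorem ts_bound (ht0 : 0 ≤ t) (ht1 : t ≤ 1) (hK : 0 ≤ K) (hu : Good t K 𝔮 u)
    {e : (Fin n →₀ ℕ) → ℂ} {h : (Fin n →₀ ℕ) → (Fin n →₀ ℕ)} {M : ℝ}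
    (hM : ∀ γ, ‖e γ‖ * ∏ j, (1 + (h γ j : ℝ)) ≤ M * Zt γ) (f : MvPolynomial (Fin n) ℂ) (γ : Fin n →₀ ℕ) :
    ‖e γ * u (monomial (h γ) 1 * f)‖ ≤ (K * ‖J t f‖ * M) * Zt γ := by
  rw [norm_mul]
  calc ‖e γ‖ * ‖u (monomial (h γ) 1 * f)‖ ≤ ‖e γ‖ * (K * ‖J t f‖ * ∏ j, (1 + (h γ j : ℝ))) :=
        mul_le_mul_of_nonneg_left (hu.monomial_bound ht0 ht1 hK _ _) (norm_nonneg _)
    _ = (K * ‖J t f‖) * (‖e γ‖ * ∏ j, (1 + (h γ j : ℝ))) := by ring
    _ ≤ (K * ‖J t f‖) * (M * Zt γ) := mul_le_mul_of_nonneg_left (hM γ) (by positivity)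
    _ = _ := by ring

theorem ts_summable (ht0 : 0 ≤ t) (ht1 : t ≤ 1) (hK : 0 ≤ K) (hu : Good t K 𝔮 u)
    {e : (Fin n →₀ ℕ) → ℂ} {h : (Fin n →₀ ℕ) → (Fin n →₀ ℕ)} {M : ℝ}
    (hM : ∀ γ, ‖e γ‖ * ∏ j, (1 + (h γ j : ℝ)) ≤ M * Zt γ) (f : MvPolynomial (Fin n) ℂ) :
    Summable fun γ => e γ * u (monomial (h γ) 1 * f) :=
  Summable.of_norm_bounded (summable_Zt.mul_left (K * ‖J t f‖ * M)) (ts_bound ht0 ht1 hK hu hM f)

theorem ts_good (ht0 : 0 ≤ t) (ht1 : t ≤ 1) (hK : 0 ≤ K) (hu : Good t K 𝔮 u)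
    {e : (Fin n →₀ ℕ) → ℂ} {h : (Fin n →₀ ℕ) → (Fin n →₀ ℕ)} {M : ℝ}
    (hM : ∀ γ, ‖e γ‖ * ∏ j, (1 + (h γ j : ℝ)) ≤ M * Zt γ) :
    Good t (K * (M * ZZ n)) 𝔮 (fun f => ∑' γ, e γ * u (monomial (h γ) 1 * f)) := by
  refine ⟨fun f g => ?_, fun a f => ?_, fun f => ?_, fun q hq f => ?_⟩
  · rw [← (ts_summable ht0 ht1 hK hu hM f).tsum_add (ts_summable ht0 ht1 hK hu hM g)]
    apply tsum_congr
    intro γ
    rw [mul_add, hu.add, mul_add]
  · rw [← tsum_mul_left]
    apply tsum_congr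
    intro γ
    rw [show monomial (h γ) (1 : ℂ) * (C a * f) = C a * (monomial (h γ) 1 * f) by ring, hu.smul]
    ring
  · have h1 := tsum_of_norm_bounded ((summable_Zt (n := n)).mul_left (K * ‖J t f‖ * M)).hasSum
      (ts_bound ht0 ht1 hK hu hM f)
    refine h1.trans (le_of_eq ?_)
    rw [tsum_mul_left, ZZ]
    ring
  · have : ∀ γ, e γ * u (monomial (h γ) 1 * (q * f)) = 0 := by
      intro γ
      rw [show monomial (h γ) (1 : ℂ) * (q * f) = q * (monomial (h γ) 1 * f) by ring, hu.kill q hq, mul_zero]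
    simp [this]

end ts

/-- the data of an extension operator in the direction `i` -/
structure ExtData (i : Fin n) (P G : MvPolynomial (Fin n) ℂ) (c : (Fin n →₀ ℕ) → ℂ) (K₁ : ℝ) (κ : ℕ) : Prop where
  nonneg : 0 ≤ K₁
  decay : ∀ γ : Fin n →₀ ℕ, ‖c γ‖ * ∏ j ∈ Finset.univ.erase i, (1 + (γ j : ℝ)) ^ 3 ≤ K₁ * (1 + (γ i : ℝ)) ^ κ
  free : ∀ α : Fin n →₀ ℕ, α i ≠ 0 → G.coeff α = 0
  mul : ∀ α : Fin n →₀ ℕ, G.coeff α = ∑ β ∈ P.support, if β ≤ α then P.coeff β * c (α - β) else 0

/-- the extension operators -/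
noncomputable def Ext (i : Fin n) (P G : MvPolynomial (Fin n) ℂ) (c : (Fin n →₀ ℕ) → ℂ) (m : ℕ)
    (u : MvPolynomial (Fin n) ℂ → ℂ) (f : MvPolynomial (Fin n) ℂ) : ℂ :=
  if m = 0 then u (G * f) else
    - ∑ β ∈ P.support, P.coeff β * ∑' γ : Fin n →₀ ℕ,
      (if γ i < m ∧ m ≤ γ i + β i then c γ else 0) * u (monomial (γ + β - Finsupp.single i m) 1 * f)

section Ext

variable {t K : ℝ} {𝔮 : Ideal (MvPolynomial (Fin n) ℂ)} {u : MvPolynomial (Fin n) ℂ → ℂ}
  {i : Fin n} {P G : MvPolynomial (Fin n) ℂ} {c : (Fin n →₀ ℕ) → ℂ} {K₁ : ℝ} {κ : ℕ}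

theorem ExtData.cbound (hD : ExtData i P G c K₁ κ) (m : ℕ) (β : Fin n →₀ ℕ) {γ : Fin n →₀ ℕ}
    (hγ : γ i ≤ m) : ‖c γ‖ * ∏ j, (1 + ((γ + β - Finsupp.single i m : Fin n →₀ ℕ) j : ℝ))
      ≤ (K₁ * (1 + (m : ℝ)) ^ (κ + 2) * ∏ j, (1 + (β j : ℝ))) * Zt γ := by
  have h1 : ∏ j, (1 + ((γ + β - Finsupp.single i m : Fin n →₀ ℕ) j : ℝ))
      ≤ (∏ j ∈ Finset.univ.erase i, (1 + (γ j : ℝ))) * ∏ j, (1 + (β j : ℝ)) := by
    rw [← Finset.mul_prod_erase Finset.univ _ (Finset.mem_univ i),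
      ← Finset.mul_prod_erase Finset.univ (fun j => (1 + (β j : ℝ))) (Finset.mem_univ i)]
    have h2 : (1 + ((γ + β - Finsupp.single i m : Fin n →₀ ℕ) i : ℝ)) ≤ 1 + (β i : ℝ) := by
      have h3 : (γ + β - Finsupp.single i m : Fin n →₀ ℕ) i ≤ β i := by
        simp only [Finsupp.coe_tsub, Finsupp.coe_add, Pi.sub_apply, Pi.add_apply, Finsupp.single_eq_same]
        omega
      have h4 : ((γ + β - Finsupp.single i m : Fin n →₀ ℕ) i : ℝ) ≤ β i := by exact_mod_cast h3
      linarith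
    have h5 : ∏ j ∈ Finset.univ.erase i, (1 + ((γ + β - Finsupp.single i m : Fin n →₀ ℕ) j : ℝ))
        ≤ (∏ j ∈ Finset.univ.erase i, (1 + (γ j : ℝ))) * ∏ j ∈ Finset.univ.erase i, (1 + (β j : ℝ)) := by
      rw [← Finset.prod_mul_distrib]
      apply Finset.prod_le_prod
      · intro j _; positivity
      · intro j hj
        have hji : j ≠ i := Finset.ne_of_mem_erase hj
        have h6 : (γ + β - Finsupp.single i m : Fin n →₀ ℕ) j = γ j + β j := by
          simp only [Finsupp.coe_tsub, Finsupp.coe_add, Pi.sub_apply, Pi.add_apply,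
            Finsupp.single_eq_of_ne hji, Nat.sub_zero]
        rw [h6]
        push_cast
        have h7 : (0 : ℝ) ≤ γ j := Nat.cast_nonneg _
        have h8 : (0 : ℝ) ≤ β j := Nat.cast_nonneg _
        (clear * -; nlinarith)
    calc (1 + ((γ + β - Finsupp.single i m : Fin n →₀ ℕ) i : ℝ)) *
          ∏ j ∈ Finset.univ.erase i, (1 + ((γ + β - Finsupp.single i m : Fin n →₀ ℕ) j : ℝ))
        ≤ (1 + (β i : ℝ)) * ((∏ j ∈ Finset.univ.erase i, (1 + (γ j : ℝ))) *
            ∏ j ∈ Finset.univ.erase i, (1 + (β j : ℝ))) :=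
          mul_le_mul h2 h5 (Finset.prod_nonneg fun j _ => by positivity) (by positivity)
      _ = _ := by ring
  have h9 : ‖c γ‖ * ∏ j ∈ Finset.univ.erase i, (1 + (γ j : ℝ)) ≤ K₁ * (1 + (m : ℝ)) ^ (κ + 2) * Zt γ := by
    have h10 : Zt γ = ((1 + (γ i : ℝ)) ^ 2)⁻¹ * ∏ j ∈ Finset.univ.erase i, ((1 + (γ j : ℝ)) ^ 2)⁻¹ := by
      rw [Zt, ← Finset.mul_prod_erase Finset.univ _ (Finset.mem_univ i)]
    set Z' := ∏ j ∈ Finset.univ.erase i, ((1 + (γ j : ℝ)) ^ 2)⁻¹ with hZ'
    have hZ'0 : 0 ≤ Z' := Finset.prod_nonneg fun j _ => by positivity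
    have h11 : ∏ j ∈ Finset.univ.erase i, (1 + (γ j : ℝ))
        = (∏ j ∈ Finset.univ.erase i, (1 + (γ j : ℝ)) ^ 3) * Z' := by
      rw [hZ', ← Finset.prod_mul_distrib]
      apply Finset.prod_congr rfl
      intro j _
      have : (1 + (γ j : ℝ)) ≠ 0 := by positivity
      field_simp
    have hγm : (γ i : ℝ) ≤ m := by exact_mod_cast hγ
    calc ‖c γ‖ * ∏ j ∈ Finset.univ.erase i, (1 + (γ j : ℝ))
        = (‖c γ‖ * ∏ j ∈ Finset.univ.erase i, (1 + (γ j : ℝ)) ^ 3) * Z' := by rw [h11]; ring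
      _ ≤ (K₁ * (1 + (γ i : ℝ)) ^ κ) * Z' := mul_le_mul_of_nonneg_right (hD.decay γ) hZ'0
      _ = K₁ * (1 + (γ i : ℝ)) ^ (κ + 2) * Zt γ := by
          rw [h10, pow_add]
          have : (1 + (γ i : ℝ)) ≠ 0 := by positivity
          field_simp
      _ ≤ _ := by
          apply mul_le_mul_of_nonneg_right _ (Zt_nonneg γ)
          apply mul_le_mul_of_nonneg_left _ hD.nonneg
          apply pow_le_pow_left₀ (by positivity)
          linarith
  calc ‖c γ‖ * ∏ j, (1 + ((γ + β - Finsupp.single i m : Fin n →₀ ℕ) j : ℝ))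
      ≤ ‖c γ‖ * ((∏ j ∈ Finset.univ.erase i, (1 + (γ j : ℝ))) * ∏ j, (1 + (β j : ℝ))) :=
        mul_le_mul_of_nonneg_left h1 (norm_nonneg _)
    _ = (‖c γ‖ * ∏ j ∈ Finset.univ.erase i, (1 + (γ j : ℝ))) * ∏ j, (1 + (β j : ℝ)) := by ring
    _ ≤ (K₁ * (1 + (m : ℝ)) ^ (κ + 2) * Zt γ) * ∏ j, (1 + (β j : ℝ)) :=
        mul_le_mul_of_nonneg_right h9 (Finset.prod_nonneg fun j _ => by positivity)
    _ = _ := by ring

theorem ExtData.ibound (hD : ExtData i P G c K₁ κ) (m : ℕ) (β : Fin n →₀ ℕ)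
    (p : (Fin n →₀ ℕ) → Prop) [DecidablePred p] (hp : ∀ γ, p γ → γ i ≤ m) (γ : Fin n →₀ ℕ) :
    ‖(if p γ then c γ else 0)‖ * ∏ j, (1 + ((γ + β - Finsupp.single i m : Fin n →₀ ℕ) j : ℝ))
      ≤ (K₁ * (1 + (m : ℝ)) ^ (κ + 2) * ∏ j, (1 + (β j : ℝ))) * Zt γ := by
  split_ifs with h
  · exact hD.cbound m β (hp γ h)
  · rw [norm_zero, zero_mul]
    have := hD.nonneg
    have h1 := Zt_nonneg γ
    have h2 : 0 ≤ ∏ j, (1 + (β j : ℝ)) := Finset.prod_nonneg fun j _ => by positivity
    positivity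

theorem Ext_good (ht0 : 0 ≤ t) (ht1 : t ≤ 1) (hD : ExtData i P G c K₁ κ) :
    ∃ C : ℝ, 0 ≤ C ∧ ∀ (m : ℕ) (K : ℝ) (u : MvPolynomial (Fin n) ℂ → ℂ), 0 ≤ K → Good t K 𝔮 u →
      Good t (K * (C * (1 + (m : ℝ)) ^ (κ + 2))) 𝔮 (Ext i P G c m u) := by
  obtain ⟨K₂, hK₂, hK₂'⟩ := exists_multiplier_bound t G
  set C₁ : ℝ := ∑ β ∈ P.support, ‖P.coeff β‖ * (K₁ * (∏ j, (1 + (β j : ℝ))) * ZZ n) with hC₁
  have hZ := ZZ_nonneg (n := n)
  have hK1 := hD.nonneg
  have hC₁0 : 0 ≤ C₁ := by
    apply Finset.sum_nonneg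
    intro β _
    have : 0 ≤ ∏ j, (1 + (β j : ℝ)) := Finset.prod_nonneg fun j _ => by positivity
    positivity
  refine ⟨K₂ + C₁, by positivity, fun m K u hK hu => ?_⟩
  by_cases hm : m = 0
  · subst hm
    have h1 : Ext i P G c 0 u = fun f => u (G * f) := by
      funext f; simp [Ext]
    rw [h1]
    refine ⟨fun f g => by rw [mul_add, hu.add], fun a f => ?_, fun f => ?_, fun q hq f => ?_⟩
    · rw [show G * (C a * f) = C a * (G * f) by ring, hu.smul]
    · refine (hu.bound _).trans ?_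
      rw [mul_comm G f, mul_assoc]
      apply mul_le_mul_of_nonneg_left _ hK
      refine (hK₂' f).trans ?_
      apply mul_le_mul_of_nonneg_right _ (norm_nonneg _)
      simp
      linarith
    · rw [show G * (q * f) = q * (G * f) by ring, hu.kill q hq]
  · have hgood : ∀ β ∈ P.support, Good t (K * ((K₁ * (1 + (m : ℝ)) ^ (κ + 2) * ∏ j, (1 + (β j : ℝ))) * ZZ n)) 𝔮
        (fun f => ∑' γ : Fin n →₀ ℕ, (if γ i < m ∧ m ≤ γ i + β i then c γ else 0)
          * u (monomial (γ + β - Finsupp.single i m) 1 * f)) := by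
      intro β _
      exact ts_good ht0 ht1 hK hu (h := fun γ => γ + β - Finsupp.single i m)
        (hD.ibound m β (fun γ => γ i < m ∧ m ≤ γ i + β i) (fun γ h => h.1.le))
    have h1 : ∀ f, Ext i P G c m u f = - ∑ β ∈ P.support, P.coeff β * ∑' γ : Fin n →₀ ℕ,
        (if γ i < m ∧ m ≤ γ i + β i then c γ else 0) * u (monomial (γ + β - Finsupp.single i m) 1 * f) := by
      intro f; rw [Ext, if_neg hm]
    refine ⟨fun f g => ?_, fun a f => ?_, fun f => ?_, fun q hq f => ?_⟩
    · rw [h1, h1, h1, ← neg_add, ← Finset.sum_add_distrib]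
      congr 1
      apply Finset.sum_congr rfl
      intro β hβ
      rw [(hgood β hβ).add, mul_add]
    · rw [h1, h1, mul_neg, Finset.mul_sum]
      congr 1
      apply Finset.sum_congr rfl
      intro β hβ
      rw [(hgood β hβ).smul]
      ring
    · rw [h1, norm_neg]
      refine (norm_sum_le _ _).trans ?_
      calc ∑ β ∈ P.support, ‖P.coeff β * ∑' γ : Fin n →₀ ℕ,
            (if γ i < m ∧ m ≤ γ i + β i then c γ else 0) * u (monomial (γ + β - Finsupp.single i m) 1 * f)‖
          ≤ ∑ β ∈ P.support, ‖P.coeff β‖ *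
            ((K * ((K₁ * (1 + (m : ℝ)) ^ (κ + 2) * ∏ j, (1 + (β j : ℝ))) * ZZ n)) * ‖J t f‖) := by
            apply Finset.sum_le_sum
            intro β hβ
            rw [norm_mul]
            exact mul_le_mul_of_nonneg_left ((hgood β hβ).bound f) (norm_nonneg _)
        _ = (K * (C₁ * (1 + (m : ℝ)) ^ (κ + 2))) * ‖J t f‖ := by
            rw [hC₁, Finset.sum_mul, Finset.mul_sum, Finset.sum_mul]
            apply Finset.sum_congr rfl
            intro β _
            ring
        _ ≤ _ := by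
            apply mul_le_mul_of_nonneg_right _ (norm_nonneg _)
            apply mul_le_mul_of_nonneg_left _ hK
            apply mul_le_mul_of_nonneg_right _ (by positivity)
            linarith
    · rw [h1, neg_eq_zero]
      apply Finset.sum_eq_zero
      intro β hβ
      rw [(hgood β hβ).kill q hq, mul_zero]

theorem Ext_comp_mul (m : ℕ) (u : MvPolynomial (Fin n) ℂ → ℂ) (h f : MvPolynomial (Fin n) ℂ) :
    Ext i P G c m u (h * f) = Ext i P G c m (fun f => u (h * f)) f := by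
  unfold Ext
  split_ifs with hm
  · rw [show G * (h * f) = h * (G * f) by ring]
  · congr 1
    apply Finset.sum_congr rfl
    intro β _
    congr 1
    apply tsum_congr
    intro γ
    rw [show monomial (γ + β - Finsupp.single i m) (1 : ℂ) * (h * f)
      = h * (monomial (γ + β - Finsupp.single i m) 1 * f) by ring]

/-- shift relation -/
theorem Ext_succ (ht0 : 0 ≤ t) (ht1 : t ≤ 1) (hK : 0 ≤ K) (hD : ExtData i P G c K₁ κ) (hu : Good t K 𝔮 u)
    (hP : P ∈ 𝔮) (m : ℕ) (f : MvPolynomial (Fin n) ℂ) :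
    Ext i P G c (m + 1) u (X i * f) = Ext i P G c m u f := by
  classical
  set T : (Fin n →₀ ℕ) → ℂ := fun δ => u (monomial δ 1 * f) with hT
  -- the four families
  set A : (Fin n →₀ ℕ) → (Fin n →₀ ℕ) → ℂ := fun β γ =>
    (if γ i ≤ m ∧ m + 1 ≤ γ i + β i then c γ else 0) * T (γ + β - Finsupp.single i m) with hA
  set B : (Fin n →₀ ℕ) → (Fin n →₀ ℕ) → ℂ := fun β γ =>
    (if γ i < m ∧ m ≤ γ i + β i then c γ else 0) * T (γ + β - Finsupp.single i m) with hB
  set E : (Fin n →₀ ℕ) → (Fin n →₀ ℕ) → ℂ := fun β γ =>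
    (if γ i = m then c γ else 0) * T (γ + β - Finsupp.single i m) with hE
  set F : (Fin n →₀ ℕ) → (Fin n →₀ ℕ) → ℂ := fun β γ =>
    (if γ i + β i = m then c γ else 0) * T (γ + β - Finsupp.single i m) with hF
  have sA : ∀ β, Summable (A β) := fun β =>
    ts_summable ht0 ht1 hK hu (h := fun γ => γ + β - Finsupp.single i m)
      (hD.ibound m β (fun γ => γ i ≤ m ∧ m + 1 ≤ γ i + β i) (fun γ h => h.1)) f
  have sB : ∀ β, Summable (B β) := fun β =>
    ts_summable ht0 ht1 hK hu (h := fun γ => γ + β - Finsupp.single i m)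
      (hD.ibound m β (fun γ => γ i < m ∧ m ≤ γ i + β i) (fun γ h => h.1.le)) f
  have sE : ∀ β, Summable (E β) := fun β =>
    ts_summable ht0 ht1 hK hu (h := fun γ => γ + β - Finsupp.single i m)
      (hD.ibound m β (fun γ => γ i = m) (fun γ h => h.le)) f
  have sF : ∀ β, Summable (F β) := fun β =>
    ts_summable ht0 ht1 hK hu (h := fun γ => γ + β - Finsupp.single i m)
      (hD.ibound m β (fun γ => γ i + β i = m) (fun γ h => by omega)) f
  have hAB : ∀ β, ∑' γ, A β γ = ∑' γ, E β γ + ∑' γ, B β γ - ∑' γ, F β γ := by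
    intro β
    rw [← (sE β).tsum_add (sB β), ← ((sE β).add (sB β)).tsum_sub (sF β)]
    apply tsum_congr
    intro γ
    simp only [hA, hB, hE, hF]
    rcases lt_trichotomy (γ i) m with h | h | h
    · by_cases h2 : γ i + β i = m
      · rw [if_neg (by omega), if_neg (by omega), if_pos (by omega), if_pos h2]; ring
      · by_cases h3 : m + 1 ≤ γ i + β i
        · rw [if_pos (by omega), if_neg (by omega), if_pos (by omega), if_neg h2]; ring
        · rw [if_neg (by omega), if_neg (by omega), if_neg (by omega), if_neg h2]; ring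
    · by_cases h2 : β i = 0
      · rw [if_neg (by omega), if_pos h, if_neg (by omega), if_pos (by omega)]; ring
      · rw [if_pos (by omega), if_pos h, if_neg (by omega), if_neg (by omega)]; ring
    · rw [if_neg (by omega), if_neg (by omega), if_neg (by omega), if_neg (by omega)]; ring
  -- the left side
  have hL : Ext i P G c (m + 1) u (X i * f) = - ∑ β ∈ P.support, P.coeff β * ∑' γ, A β γ := by
    rw [Ext, if_neg (Nat.succ_ne_zero m)]
    congr 1
    apply Finset.sum_congr rfl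
    intro β _
    congr 1
    apply tsum_congr
    intro γ
    simp only [hA]
    by_cases h : γ i ≤ m ∧ m + 1 ≤ γ i + β i
    · rw [if_pos h, if_pos ⟨by omega, h.2⟩]
      congr 1
      simp only [hT]
      have he : γ + β - Finsupp.single i (m + 1) + Finsupp.single i 1 = γ + β - Finsupp.single i m := by
        ext j
        by_cases hj : j = i
        · subst hj
          simp only [Finsupp.coe_add, Finsupp.coe_tsub, Pi.add_apply, Pi.sub_apply, Finsupp.single_eq_same]
          omega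
        · simp only [Finsupp.coe_add, Finsupp.coe_tsub, Pi.add_apply, Pi.sub_apply,
            Finsupp.single_eq_of_ne hj]
          omega
      rw [← mul_assoc, X, monomial_mul, one_mul, he]
    · rw [if_neg h, if_neg (by omega), zero_mul, zero_mul]
  -- the sum of the `E`
  have hE0 : ∑ β ∈ P.support, P.coeff β * ∑' γ, E β γ = 0 := by
    have h1 : ∑ β ∈ P.support, P.coeff β * ∑' γ, E β γ = ∑' γ, ∑ β ∈ P.support, P.coeff β * E β γ := by
      rw [Summable.tsum_finsetSum fun β _ => (sE β).mul_left _]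
      apply Finset.sum_congr rfl
      intro β _
      rw [tsum_mul_left]
    rw [h1]
    have h2 : ∀ γ, ∑ β ∈ P.support, P.coeff β * E β γ = 0 := by
      intro γ
      simp only [hE]
      by_cases h : γ i = m
      · simp only [if_pos h]
        have h3 : ∀ β : Fin n →₀ ℕ, T (γ + β - Finsupp.single i m)
            = u (monomial β 1 * (monomial (γ - Finsupp.single i m) 1 * f)) := by
          intro β
          simp only [hT]
          have he : β + (γ - Finsupp.single i m) = γ + β - Finsupp.single i m := by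
            ext j
            by_cases hj : j = i
            · subst hj
              simp only [Finsupp.coe_add, Finsupp.coe_tsub, Pi.add_apply, Pi.sub_apply,
                Finsupp.single_eq_same]
              omega
            · simp only [Finsupp.coe_add, Finsupp.coe_tsub, Pi.add_apply, Pi.sub_apply,
                Finsupp.single_eq_of_ne hj]
              omega
          rw [← mul_assoc, monomial_mul, one_mul, he]
        simp only [h3]
        have h4 := hu.mul P (monomial (γ - Finsupp.single i m) 1 * f)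
        rw [hu.kill P hP] at h4
        calc ∑ β ∈ P.support, P.coeff β * (c γ * u (monomial β 1 * (monomial (γ - Finsupp.single i m) 1 * f)))
            = c γ * ∑ β ∈ P.support, P.coeff β * u (monomial β 1 * (monomial (γ - Finsupp.single i m) 1 * f)) := by
              rw [Finset.mul_sum]
              apply Finset.sum_congr rfl
              intro β _
              ring
          _ = 0 := by rw [← h4, mul_zero]
      · simp [if_neg h]
    simp [h2]
  -- the sum of the `F`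
  have hF0 : ∑ β ∈ P.support, P.coeff β * ∑' γ, F β γ = if m = 0 then u (G * f) else 0 := by
    have h1 : ∀ β, ∑' γ, F β γ = ∑' α : Fin n →₀ ℕ, (if β ≤ α then c (α - β) else 0) *
        (if α i = m then T (α - Finsupp.single i m) else 0) := by
      intro β
      have hinj : Function.Injective (fun γ : Fin n →₀ ℕ => γ + β) := add_left_injective β
      rw [← hinj.tsum_eq (f := fun α : Fin n →₀ ℕ => (if β ≤ α then c (α - β) else 0) *
        (if α i = m then T (α - Finsupp.single i m) else 0))]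
      · apply tsum_congr
        intro γ
        simp only [hF]
        rw [if_pos (le_add_self), add_tsub_cancel_right, Finsupp.add_apply]
        by_cases h : γ i + β i = m
        · rw [if_pos h, if_pos h]
        · rw [if_neg h, if_neg h]; ring
      · intro α hα
        rw [Function.mem_support] at hα
        have h2 : β ≤ α := by
          by_contra hcon
          rw [if_neg hcon, zero_mul] at hα
          exact hα rfl
        exact ⟨α - β, tsub_add_cancel_of_le h2⟩
    have s1 : ∀ β, Summable fun α : Fin n →₀ ℕ => (if β ≤ α then c (α - β) else 0) *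
        (if α i = m then T (α - Finsupp.single i m) else 0) := by
      intro β
      have hinj : Function.Injective (fun γ : Fin n →₀ ℕ => γ + β) := add_left_injective β
      rw [← hinj.summable_iff]
      · refine (sF β).congr fun γ => ?_
        simp only [hF, Function.comp]
        rw [if_pos (le_add_self), add_tsub_cancel_right, Finsupp.add_apply]
        by_cases h : γ i + β i = m
        · rw [if_pos h, if_pos h]
        · rw [if_neg h, if_neg h]; ring
      · intro α hα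
        have h2 : ¬ β ≤ α := fun h => hα ⟨α - β, tsub_add_cancel_of_le h⟩
        rw [if_neg h2, zero_mul]
    have h2 : ∑ β ∈ P.support, P.coeff β * ∑' γ, F β γ = ∑' α : Fin n →₀ ℕ, ∑ β ∈ P.support, P.coeff β *
        ((if β ≤ α then c (α - β) else 0) * (if α i = m then T (α - Finsupp.single i m) else 0)) := by
      rw [Summable.tsum_finsetSum fun β _ => (s1 β).mul_left _]
      apply Finset.sum_congr rfl
      intro β _
      rw [h1, tsum_mul_left]
    have h3 : ∀ α : Fin n →₀ ℕ, ∑ β ∈ P.support, P.coeff β *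
        ((if β ≤ α then c (α - β) else 0) * (if α i = m then T (α - Finsupp.single i m) else 0))
        = G.coeff α * (if α i = m then T (α - Finsupp.single i m) else 0) := by
      intro α
      rw [hD.mul α, Finset.sum_mul]
      apply Finset.sum_congr rfl
      intro β _
      by_cases h : β ≤ α
      · rw [if_pos h, if_pos h]; ring
      · rw [if_neg h, if_neg h]; ring
    rw [h2]
    simp only [h3]
    split_ifs with hm
    · subst hm
      rw [hu.mul G f, tsum_eq_sum (s := G.support)]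
      · apply Finset.sum_congr rfl
        intro α hα
        have h4 : α i = 0 := by
          by_contra hcon
          exact (mem_support_iff.1 hα) (hD.free α hcon)
        rw [if_pos h4]
        simp [hT]
      · intro α hα
        rw [notMem_support_iff.1 hα, zero_mul]
    · have h4 : ∀ α : Fin n →₀ ℕ, G.coeff α * (if α i = m then T (α - Finsupp.single i m) else 0) = 0 := by
        intro α
        by_cases h : α i = m
        · rw [hD.free α (by omega), zero_mul]
        · rw [if_neg h, mul_zero]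
      simp [h4]
  -- conclusion
  have h5 : ∑ β ∈ P.support, P.coeff β * ∑' γ, A β γ
      = ∑ β ∈ P.support, P.coeff β * ∑' γ, B β γ - (if m = 0 then u (G * f) else 0) := by
    rw [← hF0, ← Finset.sum_sub_distrib]
    have h6 : ∀ β, P.coeff β * ∑' γ, A β γ
        = P.coeff β * ∑' γ, E β γ + (P.coeff β * ∑' γ, B β γ - P.coeff β * ∑' γ, F β γ) := by
      intro β; rw [hAB]; ring
    simp only [h6]
    rw [Finset.sum_add_distrib, hE0, zero_add]
  rw [hL, h5]
  by_cases hm : m = 0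
  · subst hm
    have h7 : ∑ β ∈ P.support, P.coeff β * ∑' γ, B β γ = 0 := by
      apply Finset.sum_eq_zero
      intro β _
      have : ∀ γ, B β γ = 0 := by
        intro γ
        simp [hB]
      simp [this]
    rw [h7, Ext, if_pos rfl, if_pos rfl]
    ring
  · rw [if_neg hm, Ext, if_neg hm, sub_zero]

end Ext

end Pool.Agent.Helper49.FA
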