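import Mathlib
import Pool.Agent.Helper49.FExt

/-! Iterated extension operators; the sequence on the integer lattice. -/

set_option autoImplicit false

namespace Pool.Agent.Helper49.FA

open Filter Topology MvPolynomial Finset
open Pool.Agent.Helper49.Cyc Pool.Agent.Helper49.Torus Pool.Agent.Helper49.Univ
open Pool.Agent.Helper49.Toral Pool.Agent.Helper49.Comp

variable {n : ℕ}

theorem coeff_setv_pow (i : Fin n) (c : ℂ) (P : MvPolynomial (Fin n) ℂ) (L : ℕ) (α : Fin n →₀ ℕ)
    (hα : α i ≠ 0) : ((setv i c P) ^ L).coeff α = 0 := by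
  classical
  by_contra hne
  have h1 : i ∈ ((setv i c P) ^ L).vars :=
    (mem_vars_iff_mem_support i).2 ⟨α, mem_support_iff.2 hne, Finsupp.mem_support_iff.2 hα⟩
  have h2 : i ∈ (setv i c P).vars := vars_pow _ _ h1
  have h3 : setv i c P = bind₁ (fun j => if j = i then C c else X j) P := rfl
  rw [h3] at h2
  have h4 := vars_bind₁ _ _ h2
  rw [Finset.mem_biUnion] at h4
  obtain ⟨j, -, hj⟩ := h4
  by_cases hji : j = i
  · rw [if_pos hji, vars_C] at hj
    exact absurd hj (Finset.notMem_empty _)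
  · rw [if_neg hji, vars_X, Finset.mem_singleton] at hj
    exact hji hj.symm

theorem exists_extData (i : Fin n) (P : MvPolynomial (Fin n) ℂ) (hP : P.coeff 0 = 1)
    (hz : ∀ z : Fin n → ℂ, (∀ j, ‖z j‖ < 1) → eval z P ≠ 0) {c : ℂ} (hc : ‖c‖ ≤ 1) :
    ∃ (cf : (Fin n →₀ ℕ) → ℂ) (K₁ : ℝ) (κ : ℕ),
      ExtData i P ((setv i c P) ^ (2 * (n * 3) + 1)) cf K₁ κ := by
  classical
  obtain ⟨K, κ, hK0, hK⟩ := coef_decay P hP hz i hc 3
  set G : MvPolynomial (Fin n) ℂ := (setv i c P) ^ (2 * (n * 3) + 1) with hG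
  set Q : MvPowerSeries (Fin n) ℂ := (G : MvPowerSeries (Fin n) ℂ) * (P : MvPowerSeries (Fin n) ℂ)⁻¹ with hQ
  refine ⟨fun α => MvPowerSeries.coeff α Q, K, κ, hK0, hK, fun α hα => coeff_setv_pow i c P _ α hα, ?_⟩
  intro α
  have h0 : MvPowerSeries.constantCoeff (P : MvPowerSeries (Fin n) ℂ) ≠ 0 := by
    rw [← MvPowerSeries.coeff_zero_eq_constantCoeff_apply, MvPolynomial.coeff_coe, hP]
    exact one_ne_zero
  have h1 : (G : MvPowerSeries (Fin n) ℂ) = (P : MvPowerSeries (Fin n) ℂ) * Q := by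
    rw [hQ, mul_comm (G : MvPowerSeries (Fin n) ℂ), ← mul_assoc, MvPowerSeries.mul_inv_cancel _ h0, one_mul]
  have h2 : (P : MvPowerSeries (Fin n) ℂ) = ∑ β ∈ P.support, MvPowerSeries.monomial β (P.coeff β) := by
    conv_lhs => rw [P.as_sum]
    rw [← MvPolynomial.coeToMvPowerSeries.ringHom_apply, map_sum]
    apply Finset.sum_congr rfl
    intro β _
    rw [MvPolynomial.coeToMvPowerSeries.ringHom_apply, MvPolynomial.coe_monomial]
  rw [← MvPolynomial.coeff_coe, h1]
  conv_lhs => rw [h2, Finset.sum_mul, map_sum]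
  apply Finset.sum_congr rfl
  intro β _
  rw [MvPowerSeries.coeff_monomial_mul]

section fold

variable (P G : Fin n → MvPolynomial (Fin n) ℂ) (c : Fin n → (Fin n →₀ ℕ) → ℂ)

/-- iterated extension -/
noncomputable def fold (l : List (Fin n)) (k : Fin n → ℕ) (u : MvPolynomial (Fin n) ℂ → ℂ) :
    MvPolynomial (Fin n) ℂ → ℂ :=
  l.foldr (fun i w => Ext i (P i) (G i) (c i) (k i) w) u

variable {P G c} {t : ℝ} {𝔮 : Ideal (MvPolynomial (Fin n) ℂ)} {K₁ : Fin n → ℝ} {κ : Fin n → ℕ}

theorem fold_cons (i : Fin n) (l : List (Fin n)) (k : Fin n → ℕ) (u : MvPolynomial (Fin n) ℂ → ℂ) :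
    fold P G c (i :: l) k u = Ext i (P i) (G i) (c i) (k i) (fold P G c l k u) := rfl

theorem fold_nil (k : Fin n → ℕ) (u : MvPolynomial (Fin n) ℂ → ℂ) :
    fold P G c [] k u = u := rfl

theorem fold_good (ht0 : 0 ≤ t) (ht1 : t ≤ 1) (hD : ∀ i, ExtData i (P i) (G i) (c i) (K₁ i) (κ i))
    (l : List (Fin n)) : ∃ (C : ℝ) (κ' : ℕ), 0 ≤ C ∧ ∀ (k : Fin n → ℕ) (K : ℝ)
      (u : MvPolynomial (Fin n) ℂ → ℂ), 0 ≤ K → Good t K 𝔮 u →
      Good t (K * (C * (1 + ((∑ j, k j : ℕ) : ℝ)) ^ κ')) 𝔮 (fold P G c l k u) := by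
  induction l with
  | nil =>
    refine ⟨1, 0, zero_le_one, fun k K u hK hu => ?_⟩
    simpa [fold] using hu
  | cons i l ih =>
    obtain ⟨C, κ', hC, h⟩ := ih
    obtain ⟨C₁, hC₁, h₁⟩ := Ext_good (𝔮 := 𝔮) ht0 ht1 (hD i)
    refine ⟨C * C₁, κ' + (κ i + 2), by positivity, fun k K u hK hu => ?_⟩
    have h2 := h k K u hK hu
    have h3 := h₁ (k i) _ _ (by positivity) h2
    rw [fold_cons]
    apply h3.mono
    have h5 : ((k i : ℕ) : ℝ) ≤ ((∑ j, k j : ℕ) : ℝ) := by
      exact_mod_cast Finset.single_le_sum (f := k) (fun _ _ => Nat.zero_le _) (Finset.mem_univ i)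
    calc K * (C * (1 + ((∑ j, k j : ℕ) : ℝ)) ^ κ') * (C₁ * (1 + ((k i : ℕ) : ℝ)) ^ (κ i + 2))
        ≤ K * (C * (1 + ((∑ j, k j : ℕ) : ℝ)) ^ κ') * (C₁ * (1 + ((∑ j, k j : ℕ) : ℝ)) ^ (κ i + 2)) := by
          apply mul_le_mul_of_nonneg_left _ (by positivity)
          apply mul_le_mul_of_nonneg_left _ hC₁
          apply pow_le_pow_left₀ (by positivity)
          linarith
      _ = _ := by rw [pow_add]; ring

theorem fold_comp_mul (l : List (Fin n)) (k : Fin n → ℕ) (h : MvPolynomial (Fin n) ℂ) :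
    ∀ (u : MvPolynomial (Fin n) ℂ → ℂ) (f : MvPolynomial (Fin n) ℂ),
      fold P G c l k u (h * f) = fold P G c l k (fun f => u (h * f)) f := by
  induction l with
  | nil => intro u f; rfl
  | cons i l ih =>
    intro u f
    rw [fold_cons, fold_cons, Ext_comp_mul]
    congr 1
    funext f'
    exact ih u f'

theorem fold_congr (l : List (Fin n)) {k k' : Fin n → ℕ} (h : ∀ i ∈ l, k i = k' i)
    (u : MvPolynomial (Fin n) ℂ → ℂ) : fold P G c l k u = fold P G c l k' u := by
  induction l with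
  | nil => rw [fold_nil, fold_nil]
  | cons i l ih =>
    have h1 : fold P G c l k u = fold P G c l k' u := ih fun j hj => h j (List.mem_cons_of_mem _ hj)
    have h2 : k i = k' i := h i List.mem_cons_self
    rw [fold_cons, fold_cons, h1, h2]

theorem fold_succ (ht0 : 0 ≤ t) (ht1 : t ≤ 1) (hD : ∀ i, ExtData i (P i) (G i) (c i) (K₁ i) (κ i))
    (hP : ∀ i, P i ∈ 𝔮) (l : List (Fin n)) (hl : l.Nodup) {i : Fin n} (hi : i ∈ l) (k : Fin n → ℕ)
    {K : ℝ} {u : MvPolynomial (Fin n) ℂ → ℂ} (hK : 0 ≤ K) (hu : Good t K 𝔮 u) :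
    ∀ f : MvPolynomial (Fin n) ℂ,
    fold P G c l (Function.update k i (k i + 1)) u (X i * f) = fold P G c l k u f := by
  induction l with
  | nil => exact absurd hi List.not_mem_nil
  | cons j l ih =>
    intro f
    rw [List.nodup_cons] at hl
    rw [fold_cons, fold_cons]
    by_cases hji : j = i
    · subst hji
      rw [Function.update_self, fold_congr l (k := Function.update k j (k j + 1)) (k' := k) (by
        intro m hm
        rw [Function.update_of_ne]
        rintro rfl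
        exact hl.1 hm)]
      obtain ⟨C, κ', hC, h⟩ := fold_good (𝔮 := 𝔮) ht0 ht1 hD l
      exact Ext_succ ht0 ht1 (by positivity) (hD j) (h k K u hK hu) (hP j) (k j) f
    · rw [Function.update_of_ne hji, Ext_comp_mul]
      congr 1
      funext f'
      apply ih hl.2
      rcases List.mem_cons.1 hi with h | h
      · exact absurd h.symm hji
      · exact h

theorem fold_shift (ht0 : 0 ≤ t) (ht1 : t ≤ 1) (hD : ∀ i, ExtData i (P i) (G i) (c i) (K₁ i) (κ i))
    (hP : ∀ i, P i ∈ 𝔮) {K : ℝ} {u : MvPolynomial (Fin n) ℂ → ℂ} (hK : 0 ≤ K) (hu : Good t K 𝔮 u)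
    (δ : Fin n →₀ ℕ) : ∀ (k : Fin n → ℕ) (f : MvPolynomial (Fin n) ℂ),
    fold P G c (List.finRange n) (k + ⇑δ) u (monomial δ 1 * f) = fold P G c (List.finRange n) k u f := by
  induction δ using Finsupp.induction_linear with
  | zero =>
    intro k f
    simp
  | add a b ha hb =>
    intro k f
    rw [Finsupp.coe_add, ← add_assoc, show monomial (a + b) (1 : ℂ) * f = monomial b 1 * (monomial a 1 * f) by
      rw [← mul_assoc, monomial_mul, one_mul, add_comm], hb, ha]
  | single i m =>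
    induction m with
    | zero =>
      intro k f
      simp
    | succ m ih =>
      intro k f
      have h1 : k + ⇑(Finsupp.single i (m + 1)) = Function.update (k + ⇑(Finsupp.single i m)) i
          ((k + ⇑(Finsupp.single i m)) i + 1) := by
        funext j
        by_cases hj : j = i
        · subst hj
          simp [add_assoc]
        · rw [Function.update_of_ne hj]
          simp [Finsupp.single_eq_of_ne hj]
      have h2 : monomial (Finsupp.single i (m + 1)) (1 : ℂ) * f
          = X i * (monomial (Finsupp.single i m) 1 * f) := by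
        rw [← mul_assoc, X, monomial_mul, one_mul, ← Finsupp.single_add, add_comm]
      rw [h1, h2, fold_succ ht0 ht1 hD hP _ (List.nodup_finRange n) (List.mem_finRange i) _ hK hu, ih]

theorem fold_zero (l : List (Fin n)) (u : MvPolynomial (Fin n) ℂ → ℂ) (f : MvPolynomial (Fin n) ℂ) :
    fold P G c l 0 u f = u ((l.map G).prod * f) := by
  induction l generalizing f with
  | nil => simp [fold]
  | cons i l ih =>
    rw [fold_cons, Pi.zero_apply, Ext, if_pos rfl, ih, List.map_cons, List.prod_cons]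
    congr 1
    ring

end fold

/-- a bound for the coefficients of a bounded functional -/
theorem sum_sq_le_of_bound {t K : ℝ} (hK : 0 ≤ K) {u : MvPolynomial (Fin n) ℂ → ℂ}
    {𝔮 : Ideal (MvPolynomial (Fin n) ℂ)} (hu : Good t K 𝔮 u) (S : Finset (Fin n →₀ ℕ)) :
    ∑ α ∈ S, ‖u (monomial α 1)‖ ^ 2 / weight t α ≤ K ^ 2 := by
  classical
  set a : (Fin n →₀ ℕ) → ℂ := fun α => (starRingEnd ℂ) (u (monomial α 1)) / (weight t α : ℂ) with ha
  set f : MvPolynomial (Fin n) ℂ := ∑ α ∈ S, monomial α (a α) with hf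
  set A : ℝ := ∑ α ∈ S, ‖u (monomial α 1)‖ ^ 2 / weight t α with hA
  have hw : ∀ α : Fin n →₀ ℕ, (0 : ℝ) < weight t α := weight_pos t
  have hA0 : 0 ≤ A := Finset.sum_nonneg fun α _ => div_nonneg (by positivity) (hw α).le
  have h1 : u f = (A : ℂ) := by
    rw [hf, hu.sum, hA, Complex.ofReal_sum]
    apply Finset.sum_congr rfl
    intro α _
    have h2 : (monomial α (a α) : MvPolynomial (Fin n) ℂ) = C (a α) * monomial α 1 := by
      rw [C_mul_monomial, mul_one]
    rw [h2, hu.smul, ha]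
    simp only
    rw [div_mul_eq_mul_div, Complex.conj_mul']
    push_cast
    rfl
  have hcoef : ∀ α, f.coeff α = if α ∈ S then a α else 0 := by
    intro α
    rw [hf, coeff_sum]
    simp only [coeff_monomial]
    by_cases hα : α ∈ S
    · rw [if_pos hα, Finset.sum_eq_single α]
      · rw [if_pos rfl]
      · intro b _ hb; rw [if_neg hb]
      · intro h; exact absurd hα h
    · rw [if_neg hα]
      apply Finset.sum_eq_zero
      intro b hb
      rw [if_neg]
      rintro rfl
      exact hα hb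
  have h3 : ‖J t f‖ ^ 2 = A := by
    rw [J_norm]
    have hsub : f.support ⊆ S := by
      intro α hα
      rw [mem_support_iff, hcoef] at hα
      by_contra hcon
      rw [if_neg hcon] at hα
      exact hα rfl
    rw [Finset.sum_subset hsub (by
      intro α _ hα
      rw [notMem_support_iff.1 hα]
      simp), hA]
    apply Finset.sum_congr rfl
    intro α hα
    rw [hcoef, if_pos hα, ha]
    simp only
    rw [norm_div, RCLike.norm_conj, Complex.norm_real, Real.norm_of_nonneg (hw α).le]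
    have := (hw α).ne'
    field_simp
  have h4 := hu.bound f
  rw [h1, Complex.norm_real, Real.norm_of_nonneg hA0] at h4
  have h5 : A ^ 2 ≤ K ^ 2 * A := by
    calc A ^ 2 ≤ (K * ‖J t f‖) ^ 2 := pow_le_pow_left₀ hA0 h4 2
      _ = K ^ 2 * A := by rw [mul_pow, h3]
  rcases hA0.eq_or_lt with h | h
  · rw [← h]; positivity
  · have : A * A ≤ K ^ 2 * A := by rw [← sq]; exact h5
    exact le_of_mul_le_mul_right this h

/-- the exponent of the positive part -/
noncomputable def pp (l : Fin n → ℤ) : Fin n →₀ ℕ := Finsupp.equivFunOnFinite.symm fun j => (l j).toNat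

theorem pp_apply (l : Fin n → ℤ) (j : Fin n) : pp l j = (l j).toNat := rfl

/-- integer vector of an exponent -/
def zz (α : Fin n →₀ ℕ) : Fin n → ℤ := fun j => (α j : ℤ)

/-- **The sequence on the lattice.** -/
theorem exists_V {t : ℝ} (ht0 : 0 ≤ t) (ht1 : t ≤ 1) {𝔮 : Ideal (MvPolynomial (Fin n) ℂ)} (h𝔮 : 𝔮.IsPrime)
    {u : MvPolynomial (Fin n) ℂ → ℂ} {K : ℝ} (hK : 0 ≤ K) (hu : Good t K 𝔮 u)
    (hann : ∀ q, (∀ f, u (q * f) = 0) → q ∈ 𝔮)
    (P : Fin n → MvPolynomial (Fin n) ℂ) (c : Fin n → ℂ) (hP : ∀ i, P i ∈ 𝔮) (hP1 : ∀ i, (P i).coeff 0 = 1)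
    (hz : ∀ i, ∀ z : Fin n → ℂ, (∀ j, ‖z j‖ < 1) → eval z (P i) ≠ 0) (hc : ∀ i, ‖c i‖ ≤ 1)
    (hg : ∀ i, setv i (c i) (P i) ∉ 𝔮) :
    ∃ (V : (Fin n → ℤ) → ℂ) (C : ℝ) (κ : ℕ), 0 ≤ C ∧
      (∀ q ∈ 𝔮, ∀ l, ∑ α ∈ q.support, q.coeff α * V (l + zz α) = 0) ∧
      (∀ (l : Fin n → ℤ) (S : Finset (Fin n →₀ ℕ)),
        ∑ α ∈ S, ‖V (l + zz α)‖ ^ 2 / weight t α ≤ (C * (1 + ‖l‖) ^ κ) ^ 2) ∧
      (∀ g, g ∉ 𝔮 → ∃ l, ∑ α ∈ g.support, g.coeff α * V (l + zz α) ≠ 0) := by
  classical
  choose cf K₁ κ₁ hD using fun i => exists_extData i (P i) (hP1 i) (hz i) (hc i)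
  set G : Fin n → MvPolynomial (Fin n) ℂ := fun i => (setv i (c i) (P i)) ^ (2 * (n * 3) + 1) with hG
  obtain ⟨C, κ, hC, hgood⟩ := fold_good (𝔮 := 𝔮) (P := P) (G := G) (c := cf) ht0 ht1 hD (List.finRange n)
  -- the functionals
  set W : (Fin n → ℤ) → MvPolynomial (Fin n) ℂ → ℂ := fun l f =>
    fold P G cf (List.finRange n) (fun j => (-(l j)).toNat) u (monomial (pp l) 1 * f) with hW
  have hWshift : ∀ (l : Fin n → ℤ) (α : Fin n →₀ ℕ) (f : MvPolynomial (Fin n) ℂ),
      W l (monomial α 1 * f) = W (l + zz α) f := by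
    intro l α f
    simp only [hW]
    set δ : Fin n →₀ ℕ := pp l + α - pp (l + zz α) with hδ
    have h1 : pp l + α = δ + pp (l + zz α) := by
      ext j
      simp only [hδ, Finsupp.coe_add, Finsupp.coe_tsub, Pi.add_apply, Pi.sub_apply, pp_apply, zz]
      omega
    have h2 : (fun j => (-(l j)).toNat) = (fun j => (-((l + zz α) j)).toNat) + ⇑δ := by
      funext j
      simp only [hδ, Finsupp.coe_add, Finsupp.coe_tsub, Pi.add_apply, Pi.sub_apply, pp_apply, zz]
      omega
    have h3 : monomial (pp l) (1 : ℂ) * (monomial α 1 * f)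
        = monomial δ 1 * (monomial (pp (l + zz α)) 1 * f) := by
      rw [← mul_assoc, ← mul_assoc, monomial_mul, monomial_mul, h1]
    rw [h3, h2, fold_shift ht0 ht1 hD hP hK hu]
  -- goodness of the functionals
  have hWgood : ∀ l : Fin n → ℤ, Good t (K * (C * (n + 1 : ℝ) ^ κ * (1 + ‖l‖) ^ (κ + n))) 𝔮 (W l) := by
    intro l
    have h1 := hgood (fun j => (-(l j)).toNat) K u hK hu
    have hl0 : 0 ≤ ‖l‖ := norm_nonneg l
    have hlj : ∀ j, |(l j : ℝ)| ≤ ‖l‖ := fun j => by
      have := norm_le_pi_norm l j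
      rwa [Int.norm_eq_abs] at this
    have h2 : ((∑ j, (-(l j)).toNat : ℕ) : ℝ) ≤ n * ‖l‖ := by
      push_cast
      calc ∑ j, (((-(l j)).toNat : ℕ) : ℝ) ≤ ∑ _j : Fin n, ‖l‖ := by
            apply Finset.sum_le_sum
            intro j _
            have h3 : (((-(l j)).toNat : ℕ) : ℤ) ≤ |l j| := by
              rw [Int.toNat_eq_max, ← abs_neg]
              exact max_le (le_abs_self _) (abs_nonneg _)
            have h4 : (((-(l j)).toNat : ℕ) : ℝ) ≤ |(l j : ℝ)| := by exact_mod_cast h3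
            exact h4.trans (hlj j)
        _ = n * ‖l‖ := by simp
    have h5 : ∏ j, (1 + (pp l j : ℝ)) ≤ (1 + ‖l‖) ^ n := by
      calc ∏ j, (1 + (pp l j : ℝ)) ≤ ∏ _j : Fin n, (1 + ‖l‖) := by
            apply Finset.prod_le_prod
            · intro j _; positivity
            · intro j _
              have h3 : ((pp l j : ℕ) : ℤ) ≤ |l j| := by
                rw [pp_apply, Int.toNat_eq_max]
                exact max_le (le_abs_self _) (abs_nonneg _)
              have h4 : ((pp l j : ℕ) : ℝ) ≤ |(l j : ℝ)| := by exact_mod_cast h3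
              linarith [hlj j]
        _ = _ := by simp
    refine ⟨fun f g => ?_, fun a f => ?_, fun f => ?_, fun q hq f => ?_⟩
    · simp only [hW]; rw [mul_add, h1.add]
    · simp only [hW]
      rw [show monomial (pp l) (1 : ℂ) * (MvPolynomial.C a * f) = MvPolynomial.C a * (monomial (pp l) 1 * f) by ring,
        h1.smul]
    · simp only [hW]
      have h6 := h1.monomial_bound ht0 ht1 (by positivity) (pp l) f
      refine h6.trans ?_
      have h7 : (1 + ((∑ j, (-(l j)).toNat : ℕ) : ℝ)) ^ κ ≤ ((n + 1 : ℝ) * (1 + ‖l‖)) ^ κ := by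
        apply pow_le_pow_left₀ (by positivity)
        have : (0 : ℝ) ≤ n := Nat.cast_nonneg n
        nlinarith
      calc K * (C * (1 + ((∑ j, (-(l j)).toNat : ℕ) : ℝ)) ^ κ) * ‖J t f‖ * ∏ j, (1 + (pp l j : ℝ))
          ≤ K * (C * ((n + 1 : ℝ) * (1 + ‖l‖)) ^ κ) * ‖J t f‖ * (1 + ‖l‖) ^ n := by
            apply mul_le_mul _ h5 (Finset.prod_nonneg fun j _ => by positivity) (by positivity)
            apply mul_le_mul_of_nonneg_right _ (norm_nonneg _)
            apply mul_le_mul_of_nonneg_left _ hK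
            exact mul_le_mul_of_nonneg_left h7 hC
        _ = _ := by rw [mul_pow, pow_add]; ring
    · simp only [hW]
      rw [show monomial (pp l) (1 : ℂ) * (q * f) = q * (monomial (pp l) 1 * f) by ring, h1.kill q hq]
  have hsum : ∀ (g : MvPolynomial (Fin n) ℂ) (l : Fin n → ℤ),
      ∑ α ∈ g.support, g.coeff α * W (l + zz α) 1 = W l g := by
    intro g l
    have h1 := (hWgood l).mul g 1
    rw [mul_one] at h1
    rw [h1]
    apply Finset.sum_congr rfl
    intro α _
    rw [hWshift]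
  refine ⟨fun l => W l 1, K * (C * (n + 1 : ℝ) ^ κ), κ + n, by positivity, ?_, ?_, ?_⟩
  · intro q hq l
    rw [hsum, ← mul_one q]
    exact (hWgood l).kill q hq 1
  · intro l S
    have h1 := sum_sq_le_of_bound (by positivity) (hWgood l) S
    calc ∑ α ∈ S, ‖W (l + zz α) 1‖ ^ 2 / weight t α
        = ∑ α ∈ S, ‖W l (monomial α 1)‖ ^ 2 / weight t α := by
          apply Finset.sum_congr rfl
          intro α _
          rw [← hWshift, mul_one]
      _ ≤ _ := h1
      _ = _ := by ring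
  · intro g hg'
    by_contra hcon
    push Not at hcon
    have hprod : ((List.finRange n).map G).prod ∉ 𝔮 := by
      intro hmem
      have h1 := (Ideal.IsPrime.multiset_prod_mem_iff_exists_mem h𝔮 (((List.finRange n).map G : List _) :
        Multiset (MvPolynomial (Fin n) ℂ))).1 (by rwa [Multiset.prod_coe])
      obtain ⟨p, hp, hpq⟩ := h1
      rw [Multiset.mem_coe, List.mem_map] at hp
      obtain ⟨i, -, rfl⟩ := hp
      exact hg i (h𝔮.mem_of_pow_mem _ hpq)
    have hall : ∀ f, u ((g * ((List.finRange n).map G).prod) * f) = 0 := by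
      intro f
      have h0 : ∀ f, W 0 f = u (((List.finRange n).map G).prod * f) := by
        intro f
        simp only [hW]
        have h1 : (fun j : Fin n => (-((0 : Fin n → ℤ) j)).toNat) = 0 := by
          funext j; simp
        have h2 : pp (0 : Fin n → ℤ) = 0 := by
          ext j; simp [pp_apply]
        rw [h1, h2, fold_zero]
        simp
      have h3 : W 0 (g * f) = 0 := by
        rw [mul_comm g f, (hWgood 0).mul f g]
        apply Finset.sum_eq_zero
        intro α _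
        rw [hWshift, ← hsum, hcon, mul_zero]
      rw [h0] at h3
      rw [← h3]
      congr 1
      ring
    rcases h𝔮.mem_or_mem (hann _ hall) with h | h
    · exact hg' h
    · exact hprod h

end Pool.Agent.Helper49.FA
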