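import Mathlib

/-! Nonstationary phase with parameters. -/

set_option autoImplicit false

namespace Pool.Agent.Helper49.FA

open MeasureTheory Set Filter Topology Complex
open scoped ContDiff

variable {ι : Type*} [Fintype ι] [DecidableEq ι]

/-- A function vanishing outside a closed set and smooth at its points is smooth. -/
theorem contDiff_of_closed {E F : Type*} [NormedAddCommGroup E] [NormedSpace ℝ E]
    [NormedAddCommGroup F] [NormedSpace ℝ F] {n : WithTop ℕ∞} {f : E → F} {K : Set E}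
    (hK : IsClosed K) (h0 : ∀ y, y ∉ K → f y = 0) (h1 : ∀ y ∈ K, ContDiffAt ℝ n f y) :
    ContDiff ℝ n f := by
  rw [contDiff_iff_contDiffAt]
  intro y
  by_cases hy : y ∈ K
  · exact h1 y hy
  · have : f =ᶠ[𝓝 y] fun _ => 0 := by
      filter_upwards [hK.isOpen_compl.mem_nhds hy] with z hz using h0 z hz
    exact contDiffAt_const.congr_of_eventuallyEq this

omit [DecidableEq ι] in
theorem integral_fderiv_zero {F : (ι → ℝ) → ℂ} (hF : ContDiff ℝ 1 F) (hc : HasCompactSupport F)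
    (v : ι → ℝ) : ∫ y, fderiv ℝ F y v = 0 := by
  have hcd : Continuous fun y => fderiv ℝ F y v := (hF.continuous_fderiv (by simp)).clm_apply continuous_const
  have hcs : HasCompactSupport fun y => fderiv ℝ F y v := hc.fderiv_apply ℝ v
  have h := integral_mul_fderiv_eq_neg_fderiv_mul_of_integrable (μ := (volume : Measure (ι → ℝ)))
    (f := fun _ => (1 : ℂ)) (g := F) (v := v) (by simp)
    (by simpa using hcd.integrable_of_hasCompactSupport hcs)
    (by simpa using hF.continuous.integrable_of_hasCompactSupport hc)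
    (fun _ _ => differentiableAt_const _)
    (fun x _ => (hF.differentiable (by simp)).differentiableAt)
  simpa using h

section
variable {Q : Type*} [NormedAddCommGroup Q] [NormedSpace ℝ Q]
variable (p : Q × (ι → ℝ) → ℝ) (e : (ι → ℝ) → (ι → ℝ))

/-- derivative of the phase along the field -/
noncomputable def hh (q : Q × (ι → ℝ)) : ℝ := fderiv ℝ p q (0, e q.2)

/-- components of the amplitude divided by `hh` -/
noncomputable def AA (Φ : Q × (ι → ℝ) → ℂ) (a : ι) (q : Q × (ι → ℝ)) : ℂ :=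
  Φ q * ((e q.2 a : ℝ) : ℂ) / ((hh p e q : ℝ) : ℂ)

/-- one integration by parts -/
noncomputable def TT (Φ : Q × (ι → ℝ) → ℂ) (q : Q × (ι → ℝ)) : ℂ :=
  -∑ a, fderiv ℝ (AA p e Φ a) q (0, Pi.single a 1)

/-- iterated amplitudes -/
noncomputable def PP (φ : (ι → ℝ) → ℂ) : ℕ → Q × (ι → ℝ) → ℂ
  | 0 => fun q => φ q.2
  | m + 1 => TT p e (PP φ m)

variable {p e}

omit [DecidableEq ι] in
theorem contDiffOn_hh {U : Set (ι → ℝ)} (hU : IsOpen U) (hp : ContDiffOn ℝ ∞ p (univ ×ˢ U))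
    (he : ContDiffOn ℝ ∞ e U) : ContDiffOn ℝ ∞ (hh p e) (univ ×ˢ U) := by
  unfold hh
  have h1 : ContDiffOn ℝ ∞ (fderiv ℝ p) (univ ×ˢ U) :=
    hp.fderiv_of_isOpen (isOpen_univ.prod hU) (by simp)
  apply h1.clm_apply
  apply contDiffOn_const.prodMk
  exact he.comp contDiffOn_snd (fun q hq => hq.2)

theorem isOpen_omega {U : Set (ι → ℝ)} (hU : IsOpen U) (hp : ContDiffOn ℝ ∞ p (univ ×ˢ U))
    (he : ContDiffOn ℝ ∞ e U) : IsOpen {q : Q × (ι → ℝ) | q.2 ∈ U ∧ hh p e q ≠ 0} := by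
  have h1 := (contDiffOn_hh hU hp he).continuousOn.isOpen_inter_preimage (isOpen_univ.prod hU)
    (isOpen_compl_singleton (x := (0 : ℝ)))
  have h2 : {q : Q × (ι → ℝ) | q.2 ∈ U ∧ hh p e q ≠ 0}
      = (univ ×ˢ U) ∩ hh p e ⁻¹' ({0}ᶜ : Set ℝ) := by
    ext q
    simp
  rw [h2]
  exact h1

theorem contDiffOn_AA {U : Set (ι → ℝ)} (hU : IsOpen U) (hp : ContDiffOn ℝ ∞ p (univ ×ˢ U))
    (he : ContDiffOn ℝ ∞ e U) {Φ : Q × (ι → ℝ) → ℂ}
    (hΦ : ContDiffOn ℝ ∞ Φ {q : Q × (ι → ℝ) | q.2 ∈ U ∧ hh p e q ≠ 0}) (a : ι) :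
    ContDiffOn ℝ ∞ (AA p e Φ a) {q : Q × (ι → ℝ) | q.2 ∈ U ∧ hh p e q ≠ 0} := by
  unfold AA
  have h1 : ContDiffOn ℝ ∞ (fun q : Q × (ι → ℝ) => ((e q.2 a : ℝ) : ℂ))
      {q : Q × (ι → ℝ) | q.2 ∈ U ∧ hh p e q ≠ 0} := by
    apply ofRealCLM.contDiff.comp_contDiffOn
    have h2 : ContDiffOn ℝ ∞ (fun q : Q × (ι → ℝ) => e q.2)
        {q : Q × (ι → ℝ) | q.2 ∈ U ∧ hh p e q ≠ 0} := he.comp contDiffOn_snd (fun q hq => hq.1)
    exact (contDiffOn_pi.1 h2) a
  have h2 : ContDiffOn ℝ ∞ (fun q : Q × (ι → ℝ) => ((hh p e q : ℝ) : ℂ))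
      {q : Q × (ι → ℝ) | q.2 ∈ U ∧ hh p e q ≠ 0} := by
    apply ofRealCLM.contDiff.comp_contDiffOn
    exact (contDiffOn_hh hU hp he).mono (fun q hq => ⟨mem_univ _, hq.1⟩)
  simp only [div_eq_mul_inv]
  exact (hΦ.mul h1).mul (h2.inv (fun q hq => by exact_mod_cast hq.2))

theorem contDiffOn_PP {U : Set (ι → ℝ)} (hU : IsOpen U) (hp : ContDiffOn ℝ ∞ p (univ ×ˢ U))
    (he : ContDiffOn ℝ ∞ e U) {φ : (ι → ℝ) → ℂ} (hφ : ContDiff ℝ ∞ φ) (m : ℕ) :
    ContDiffOn ℝ ∞ (PP p e φ m) {q : Q × (ι → ℝ) | q.2 ∈ U ∧ hh p e q ≠ 0} := by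
  induction m with
  | zero => exact (hφ.comp contDiff_snd).contDiffOn
  | succ m ih =>
    show ContDiffOn ℝ ∞ (fun q => -∑ a, fderiv ℝ (AA p e (PP p e φ m) a) q (0, Pi.single a 1)) _
    apply ContDiffOn.neg
    apply ContDiffOn.sum
    intro a _
    have h1 := (contDiffOn_AA hU hp he ih a).fderiv_of_isOpen (m := ∞) (isOpen_omega hU hp he) (by simp)
    exact h1.clm_apply contDiffOn_const

theorem PP_zero {φ : (ι → ℝ) → ℂ} (m : ℕ) (q : Q × (ι → ℝ)) (hq : q.2 ∉ tsupport φ) :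
    PP p e φ m q = 0 := by
  induction m generalizing q with
  | zero =>
    show φ q.2 = 0
    exact image_eq_zero_of_notMem_tsupport hq
  | succ m ih =>
    show -∑ a, fderiv ℝ (AA p e (PP p e φ m) a) q (0, Pi.single a 1) = 0
    rw [neg_eq_zero]
    apply Finset.sum_eq_zero
    intro a _
    have h1 : AA p e (PP p e φ m) a =ᶠ[𝓝 q] fun _ => 0 := by
      have h2 : {q : Q × (ι → ℝ) | q.2 ∉ tsupport φ} ∈ 𝓝 q :=
        ((isClosed_tsupport φ).isOpen_compl.preimage continuous_snd).mem_nhds hq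
      filter_upwards [h2] with r hr
      rw [AA, ih r hr]
      simp
    rw [h1.fderiv_eq]
    simp

theorem nsp_step {U : Set (ι → ℝ)} (hU : IsOpen U) (hp : ContDiffOn ℝ ∞ p (univ ×ˢ U))
    (he : ContDiffOn ℝ ∞ e U) {φ : (ι → ℝ) → ℂ} (hφ : ContDiff ℝ ∞ φ) (hφc : HasCompactSupport φ)
    (κ : Q) (hne : ∀ y ∈ tsupport φ, y ∈ U ∧ hh p e (κ, y) ≠ 0) (lam : ℝ) (g : (ι → ℝ) → ℂ)
    (hg : ContDiffOn ℝ 1 g U) (hge : ∀ y ∈ U, fderiv ℝ g y (e y) = 0) (m : ℕ) :
    I * lam * ∫ y, PP p e φ m (κ, y) * (g y * exp (I * lam * p (κ, y)))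
      = ∫ y, PP p e φ (m + 1) (κ, y) * (g y * exp (I * lam * p (κ, y))) := by
  set Ω : Set (Q × (ι → ℝ)) := {q | q.2 ∈ U ∧ hh p e q ≠ 0} with hΩ
  have hΩo : IsOpen Ω := isOpen_omega hU hp he
  set G : (ι → ℝ) → ℂ := fun y => g y * exp (I * lam * p (κ, y)) with hG
  have hpy : ∀ y ∈ U, ContDiffAt ℝ ∞ p (κ, y) := fun y hy =>
    (hp (κ, y) ⟨mem_univ _, hy⟩).contDiffAt ((isOpen_univ.prod hU).mem_nhds ⟨mem_univ _, hy⟩)
  have hincl : ∀ y : ι → ℝ, HasFDerivAt (fun z : ι → ℝ => (κ, z))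
      ((0 : (ι → ℝ) →L[ℝ] Q).prod (ContinuousLinearMap.id ℝ (ι → ℝ))) y := fun y =>
    (hasFDerivAt_const κ y).prodMk (hasFDerivAt_id y)
  have hGc : ∀ y ∈ U, ContDiffAt ℝ 1 G y := by
    intro y hy
    have h1 : ContDiffAt ℝ 1 g y := (hg y hy).contDiffAt (hU.mem_nhds hy)
    have h2 : ContDiffAt ℝ 1 (fun z : ι → ℝ => p (κ, z)) y :=
      ((hpy y hy).of_le (by simp)).comp y (contDiffAt_const.prodMk contDiffAt_id)
    have h3 : ContDiffAt ℝ 1 (fun z : ι → ℝ => I * lam * ((p (κ, z) : ℝ) : ℂ)) y :=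
      contDiffAt_const.mul (ofRealCLM.contDiff.contDiffAt.comp y h2)
    exact h1.mul h3.cexp
  have hGe : ∀ y ∈ U, fderiv ℝ G y (e y) = I * lam * (hh p e (κ, y) : ℂ) * G y := by
    intro y hy
    have h1 : DifferentiableAt ℝ g y := ((hg y hy).contDiffAt (hU.mem_nhds hy)).differentiableAt (by simp)
    have h2 : HasFDerivAt (fun z : ι → ℝ => p (κ, z))
        ((fderiv ℝ p (κ, y)).comp ((0 : (ι → ℝ) →L[ℝ] Q).prod (ContinuousLinearMap.id ℝ (ι → ℝ)))) y :=
      ((hpy y hy).differentiableAt (by simp)).hasFDerivAt.comp y (hincl y)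
    have h3 : HasFDerivAt (fun z : ι → ℝ => ((p (κ, z) : ℝ) : ℂ)) _ y :=
      ofRealCLM.hasFDerivAt.comp y h2
    have h4 := (h3.const_mul (I * lam)).cexp
    have h5 := h1.hasFDerivAt.mul h4
    have h6 : fderiv ℝ G y = _ := h5.fderiv
    rw [h6]
    simp only [add_apply, smul_apply, ContinuousLinearMap.comp_apply, smul_eq_mul,
      ContinuousLinearMap.prod_apply, zero_apply, ContinuousLinearMap.id_apply,
      ofRealCLM_apply, hge y hy, mul_zero, add_zero]
    rw [hG, hh]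
    ring
  -- the functions to integrate
  set Fa : ι → (ι → ℝ) → ℂ := fun a y => AA p e (PP p e φ m) a (κ, y) * G y with hFa
  have hK : IsClosed (tsupport φ) := isClosed_tsupport φ
  have hAAc : ∀ a, ∀ y ∈ tsupport φ, ContDiffAt ℝ 1 (AA p e (PP p e φ m) a) (κ, y) := by
    intro a y hy
    have h1 := (contDiffOn_AA hU hp he (contDiffOn_PP hU hp he hφ m) a (κ, y) (hne y hy)).contDiffAt
      (hΩo.mem_nhds (hne y hy))
    exact h1.of_le (by simp)
  have hFa0 : ∀ a y, y ∉ tsupport φ → Fa a y = 0 := by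
    intro a y hy
    simp only [hFa, AA]
    rw [PP_zero m (κ, y) hy]
    simp
  have hFac : ∀ a, ContDiff ℝ 1 (Fa a) := by
    intro a
    apply contDiff_of_closed hK (hFa0 a)
    intro y hy
    have h1 : ContDiffAt ℝ 1 (fun z : ι → ℝ => AA p e (PP p e φ m) a (κ, z)) y :=
      (hAAc a y hy).comp y (contDiffAt_const.prodMk contDiffAt_id)
    exact h1.mul (hGc y (hne y hy).1)
  have hFas : ∀ a, HasCompactSupport (Fa a) := fun a =>
    HasCompactSupport.intro hφc (fun y hy => hFa0 a y hy)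
  have hint : ∀ a, ∫ y, fderiv ℝ (Fa a) y (Pi.single a 1) = 0 := fun a =>
    integral_fderiv_zero (hFac a) (hFas a) _
  -- pointwise identity
  have hpt : ∀ y, ∑ a, fderiv ℝ (Fa a) y (Pi.single a 1)
      = I * lam * (PP p e φ m (κ, y) * G y) - PP p e φ (m + 1) (κ, y) * G y := by
    intro y
    by_cases hy : y ∈ tsupport φ
    · obtain ⟨hyU, hyh⟩ := hne y hy
      have hyh' : ((hh p e (κ, y) : ℝ) : ℂ) ≠ 0 := by exact_mod_cast hyh
      have h1 : ∀ a, fderiv ℝ (Fa a) y (Pi.single a 1)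
          = fderiv ℝ (AA p e (PP p e φ m) a) (κ, y) (0, Pi.single a 1) * G y
            + AA p e (PP p e φ m) a (κ, y) * fderiv ℝ G y (Pi.single a 1) := by
        intro a
        have h2 : HasFDerivAt (fun z : ι → ℝ => AA p e (PP p e φ m) a (κ, z))
            ((fderiv ℝ (AA p e (PP p e φ m) a) (κ, y)).comp
              ((0 : (ι → ℝ) →L[ℝ] Q).prod (ContinuousLinearMap.id ℝ (ι → ℝ)))) y :=
          ((hAAc a y hy).differentiableAt (by simp)).hasFDerivAt.comp y (hincl y)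
        have h3 := h2.mul ((hGc y hyU).differentiableAt (by simp)).hasFDerivAt
        have h4 : fderiv ℝ (Fa a) y = _ := h3.fderiv
        rw [h4]
        simp only [add_apply, smul_apply, ContinuousLinearMap.comp_apply, smul_eq_mul,
          ContinuousLinearMap.prod_apply, zero_apply, ContinuousLinearMap.id_apply]
        ring
      simp only [h1, Finset.sum_add_distrib]
      have h5 : ∑ a, AA p e (PP p e φ m) a (κ, y) * fderiv ℝ G y (Pi.single a 1)
          = I * lam * (PP p e φ m (κ, y) * G y) := by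
        have h6 : fderiv ℝ G y (e y) = ∑ a, ((e y a : ℝ) : ℂ) * fderiv ℝ G y (Pi.single a 1) := by
          conv_lhs => rw [pi_eq_sum_univ' (e y)]
          rw [map_sum]
          apply Finset.sum_congr rfl
          intro a _
          rw [map_smul, real_smul]
        have h7 : ∑ a, AA p e (PP p e φ m) a (κ, y) * fderiv ℝ G y (Pi.single a 1)
            = PP p e φ m (κ, y) / (hh p e (κ, y) : ℂ) * fderiv ℝ G y (e y) := by
          rw [h6, Finset.mul_sum]
          apply Finset.sum_congr rfl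
          intro a _
          rw [AA]
          ring
        rw [h7, hGe y hyU]
        field_simp
      rw [h5]
      have h8 : PP p e φ (m + 1) (κ, y)
          = -∑ a, fderiv ℝ (AA p e (PP p e φ m) a) (κ, y) (0, Pi.single a 1) := rfl
      rw [h8, ← Finset.sum_mul]
      ring
    · have h1 : ∀ a, fderiv ℝ (Fa a) y = 0 := by
        intro a
        have h2 : Fa a =ᶠ[𝓝 y] fun _ => 0 := by
          filter_upwards [hK.isOpen_compl.mem_nhds hy] with z hz using hFa0 a z hz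
        rw [h2.fderiv_eq]
        simp
      simp only [h1, zero_apply, Finset.sum_const_zero]
      rw [PP_zero m (κ, y) hy, PP_zero (m + 1) (κ, y) hy]
      simp
  have hint2 : ∫ y, (I * lam * (PP p e φ m (κ, y) * G y) - PP p e φ (m + 1) (κ, y) * G y) = 0 := by
    simp only [← hpt]
    rw [integral_finsetSum]
    · simp [hint]
    · intro a _
      exact (((hFac a).continuous_fderiv (by simp)).clm_apply continuous_const).integrable_of_hasCompactSupport
        ((hFas a).fderiv_apply ℝ _)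
  have hPPc : ∀ k, Continuous fun y => PP p e φ k (κ, y) * G y := by
    intro k
    have : ContDiff ℝ 0 fun y => PP p e φ k (κ, y) * G y := by
      apply contDiff_of_closed hK
      · intro y hy
        rw [PP_zero k (κ, y) hy, zero_mul]
      · intro y hy
        have h1 := (contDiffOn_PP hU hp he hφ k (κ, y) (hne y hy)).contDiffAt
          (hΩo.mem_nhds (hne y hy))
        have h2 : ContDiffAt ℝ 0 (fun z : ι → ℝ => PP p e φ k (κ, z)) y :=
          (h1.of_le (by simp)).comp y (contDiffAt_const.prodMk contDiffAt_id)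
        exact h2.mul ((hGc y (hne y hy).1).of_le (by simp))
    exact this.continuous
  have hPPs : ∀ k, HasCompactSupport fun y => PP p e φ k (κ, y) * G y := fun k =>
    HasCompactSupport.intro hφc (fun y hy => by rw [PP_zero k (κ, y) hy, zero_mul])
  have hPPi : ∀ k, Integrable fun y => PP p e φ k (κ, y) * G y := fun k =>
    (hPPc k).integrable_of_hasCompactSupport (hPPs k)
  rw [integral_sub ((hPPi m).const_mul _) (hPPi (m + 1)), integral_const_mul, sub_eq_zero] at hint2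
  exact hint2

/-- **Nonstationary phase**, uniform in the parameters. -/
theorem nsp {U : Set (ι → ℝ)} (hU : IsOpen U) (hp : ContDiffOn ℝ ∞ p (univ ×ˢ U))
    (he : ContDiffOn ℝ ∞ e U) {φ : (ι → ℝ) → ℂ} (hφ : ContDiff ℝ ∞ φ) (hφc : HasCompactSupport φ)
    (hφU : tsupport φ ⊆ U) {K : Set Q} (hK : IsCompact K)
    (hne : ∀ κ ∈ K, ∀ y ∈ tsupport φ, fderiv ℝ p (κ, y) (0, e y) ≠ 0) (M : ℕ) :
    ∃ C : ℝ, 0 ≤ C ∧ ∀ κ ∈ K, ∀ lam : ℝ, 0 < lam → ∀ g : (ι → ℝ) → ℂ, ContDiffOn ℝ 1 g U →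
      (∀ y ∈ U, ‖g y‖ ≤ 1) → (∀ y ∈ U, fderiv ℝ g y (e y) = 0) →
      ‖∫ y, φ y * (g y * exp (I * lam * p (κ, y)))‖ ≤ C / lam ^ M := by
  have hne' : ∀ κ ∈ K, ∀ y ∈ tsupport φ, y ∈ U ∧ hh p e (κ, y) ≠ 0 := fun κ hκ y hy =>
    ⟨hφU hy, hne κ hκ y hy⟩
  -- uniform bound of the amplitude
  obtain ⟨C, hC⟩ : ∃ C : ℝ, ∀ q ∈ K ×ˢ tsupport φ, ‖PP p e φ M q‖ ≤ C := by
    apply (hK.prod hφc).exists_bound_of_continuousOn
    exact (contDiffOn_PP hU hp he hφ M).continuousOn.mono fun q hq => hne' q.1 hq.1 q.2 hq.2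
  set C' := max C 0
  refine ⟨C' * (volume (tsupport φ)).toReal, by positivity, fun κ hκ lam hlam g hg hg1 hge => ?_⟩
  have hiter : ∀ m, (I * lam) ^ m * ∫ y, PP p e φ 0 (κ, y) * (g y * exp (I * lam * p (κ, y)))
      = ∫ y, PP p e φ m (κ, y) * (g y * exp (I * lam * p (κ, y))) := by
    intro m
    induction m with
    | zero => simp
    | succ m ih =>
      rw [← nsp_step hU hp he hφ hφc κ (hne' κ hκ) lam g hg hge m, ← ih, pow_succ]
      ring
  have h1 := hiter M
  have h2 : ∫ y, PP p e φ 0 (κ, y) * (g y * exp (I * lam * p (κ, y)))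
      = ∫ y, φ y * (g y * exp (I * lam * p (κ, y))) := rfl
  rw [h2] at h1
  have h3 : ‖∫ y, PP p e φ M (κ, y) * (g y * exp (I * lam * p (κ, y)))‖
      ≤ C' * (volume (tsupport φ)).toReal := by
    have h4 : ∫ y, PP p e φ M (κ, y) * (g y * exp (I * lam * p (κ, y)))
        = ∫ y in tsupport φ, PP p e φ M (κ, y) * (g y * exp (I * lam * p (κ, y))) := by
      rw [setIntegral_eq_integral_of_forall_compl_eq_zero]
      intro y hy
      rw [PP_zero M (κ, y) hy, zero_mul]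
    rw [h4]
    have h5 := norm_setIntegral_le_of_norm_le_const (μ := (volume : Measure (ι → ℝ)))
      (s := tsupport φ) (C := C') (f := fun y => PP p e φ M (κ, y) * (g y * exp (I * lam * p (κ, y))))
      (hφc.measure_lt_top) (by
        intro y hy
        have h6 : ‖exp (I * lam * p (κ, y))‖ = 1 := by
          rw [mul_assoc, ← ofReal_mul, mul_comm, norm_exp_ofReal_mul_I]
        rw [norm_mul, norm_mul, h6, mul_one]
        have h7 := hC (κ, y) ⟨hκ, hy⟩
        have h8 := hg1 y (hφU hy)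
        calc ‖PP p e φ M (κ, y)‖ * ‖g y‖ ≤ C' * 1 :=
              mul_le_mul (h7.trans (le_max_left _ _)) h8 (norm_nonneg _) (le_max_right _ _)
          _ = C' := mul_one _)
    exact h5
  rw [← h1, norm_mul, norm_pow, norm_mul, norm_I, one_mul, norm_real, Real.norm_of_nonneg hlam.le] at h3
  rw [le_div_iff₀ (by positivity), mul_comm]
  exact h3

end

end Pool.Agent.Helper49.FA
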