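import Mathlib
import Pool.Agent.Helper49.FNsp

/-! Bessel's inequality for phases which are local diffeomorphisms. -/

set_option autoImplicit false

namespace Pool.Agent.Helper49.FA

open MeasureTheory Set Filter Topology Complex
open scoped ContDiff ComplexConjugate

variable {ι : Type*} [Fintype ι]

/-- character with frequency `l` -/
noncomputable def chr (l : ι → ℤ) (z : ι → ℝ) : ℂ := exp (I * ∑ i, (l i : ℂ) * (z i : ℂ))

theorem norm_chr (l : ι → ℤ) (z : ι → ℝ) : ‖chr l z‖ = 1 := by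
  have : I * ∑ i, (l i : ℂ) * (z i : ℂ) = ((∑ i, (l i : ℝ) * z i : ℝ) : ℂ) * I := by
    push_cast; ring
  rw [chr, this, norm_exp_ofReal_mul_I]

theorem chr_zero (z : ι → ℝ) : chr 0 z = 1 := by simp [chr]

theorem chr_add (l m : ι → ℤ) (z : ι → ℝ) : chr (l + m) z = chr l z * chr m z := by
  rw [chr, chr, chr, ← exp_add, ← mul_add, ← Finset.sum_add_distrib]
  congr 2
  apply Finset.sum_congr rfl
  intro i _
  simp
  ring

theorem conj_chr (l : ι → ℤ) (z : ι → ℝ) : conj (chr l z) = chr (-l) z := by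
  rw [chr, chr, ← exp_conj]
  congr 1
  rw [map_mul, conj_I, map_sum]
  simp only [map_mul, conj_ofReal, map_intCast, Pi.neg_apply, Int.cast_neg]
  simp [Finset.sum_neg_distrib]

theorem chr_neg_mul (l : ι → ℤ) (z : ι → ℝ) : chr (-l) z * chr l z = 1 := by
  rw [← chr_add]; simp [chr_zero]

theorem chr_eq_prod (l : ι → ℤ) (z : ι → ℝ) : chr l z = ∏ i, exp (I * ((l i : ℂ) * (z i : ℂ))) := by
  rw [chr, Finset.mul_sum, exp_sum]

theorem contDiff_chr (l : ι → ℤ) : ContDiff ℝ ∞ (chr l) := by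
  unfold chr
  apply ContDiff.cexp
  apply contDiff_const.mul
  apply ContDiff.sum
  intro i _
  apply contDiff_const.mul
  exact ofRealCLM.contDiff.comp (contDiff_apply ℝ ℝ i)

theorem continuous_chr (l : ι → ℤ) : Continuous (chr l) := (contDiff_chr l).continuous

/-- the cell of side `2π` -/
def cell (c : ι → ℝ) : Set (ι → ℝ) := Set.pi univ fun i => Ioc (c i - Real.pi) (c i + Real.pi)

theorem measurableSet_cell (c : ι → ℝ) : MeasurableSet (cell c) :=
  MeasurableSet.univ_pi fun _ => measurableSet_Ioc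

theorem volume_cell_lt_top (c : ι → ℝ) : volume (cell c) < ⊤ := by
  rw [cell, volume_pi_pi]
  apply ENNReal.prod_lt_top
  intro i _
  rw [Real.volume_Ioc]
  exact ENNReal.ofReal_lt_top

theorem int_exp_one (a : ℝ) (n : ℤ) :
    ∫ z in Ioc (a - Real.pi) (a + Real.pi), exp (I * ((n : ℂ) * (z : ℂ)))
      = if n = 0 then 2 * Real.pi else 0 := by
  have hle : a - Real.pi ≤ a + Real.pi := by linarith [Real.pi_pos]
  rw [← intervalIntegral.integral_of_le hle]
  split_ifs with h
  · simp [h]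
    ring
  · have hn : (I * (n : ℂ)) ≠ 0 := by
      simp [h]
    have h1 : ∀ z : ℝ, exp (I * ((n : ℂ) * (z : ℂ))) = exp ((I * n) * z) := by
      intro z; congr 1; ring
    simp only [h1]
    rw [integral_exp_mul_complex hn]
    have h2 : I * (n : ℂ) * ((a + Real.pi : ℝ) : ℂ)
        = I * n * ((a - Real.pi : ℝ) : ℂ) + n * (2 * Real.pi * I) := by
      push_cast; ring
    rw [h2, exp_add, exp_int_mul_two_pi_mul_I]
    simp

theorem int_chr (c : ι → ℝ) (n : ι → ℤ) : ∫ z in cell c, chr n z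
    = if n = 0 then (2 * Real.pi : ℂ) ^ Fintype.card ι else 0 := by
  have h1 : (volume.restrict (cell c) : Measure (ι → ℝ))
      = Measure.pi fun i => volume.restrict (Ioc (c i - Real.pi) (c i + Real.pi)) := by
    rw [cell, volume_pi, Measure.restrict_pi_pi]
  simp only [chr_eq_prod]
  rw [h1, integral_fintype_prod_eq_prod (fun i (x : ℝ) => exp (I * ((n i : ℂ) * (x : ℂ))))]
  simp only [int_exp_one]
  split_ifs with h
  · simp [h]
  · obtain ⟨j, hj⟩ : ∃ j, n j ≠ 0 := by
      by_contra hcon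
      push Not at hcon
      exact h (funext hcon)
    exact Finset.prod_eq_zero (Finset.mem_univ j) (by rw [if_neg hj]; simp)

/-- **Parseval** for trigonometric polynomials -/
theorem parseval_cell (c : ι → ℝ) (S : Finset (ι → ℤ)) (a : (ι → ℤ) → ℂ) :
    ∫ z in cell c, ‖∑ l ∈ S, a l * chr l z‖ ^ 2
      = (2 * Real.pi) ^ Fintype.card ι * ∑ l ∈ S, ‖a l‖ ^ 2 := by
  have hfin : IsFiniteMeasure (volume.restrict (cell c)) :=
    ⟨by rw [Measure.restrict_apply_univ]; exact volume_cell_lt_top c⟩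
  have h1 : ∀ z, ((‖∑ l ∈ S, a l * chr l z‖ ^ 2 : ℝ) : ℂ)
      = ∑ l ∈ S, ∑ m ∈ S, (a l * conj (a m)) * chr (l - m) z := by
    intro z
    rw [← Complex.normSq_eq_norm_sq, Complex.normSq_eq_conj_mul_self, mul_comm, map_sum,
      Finset.sum_mul_sum]
    apply Finset.sum_congr rfl
    intro l _
    apply Finset.sum_congr rfl
    intro m _
    rw [map_mul, conj_chr, sub_eq_add_neg, chr_add]
    ring
  have hint : ∀ (b : ℂ) (l : ι → ℤ), Integrable (fun z => b * chr l z) (volume.restrict (cell c)) := by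
    intro b l
    apply Integrable.const_mul
    exact Integrable.of_bound (continuous_chr l).aestronglyMeasurable 1
      (Eventually.of_forall fun z => (norm_chr l z).le)
  have h2 : ((∫ z in cell c, ‖∑ l ∈ S, a l * chr l z‖ ^ 2 : ℝ) : ℂ)
      = (((2 * Real.pi) ^ Fintype.card ι * ∑ l ∈ S, ‖a l‖ ^ 2 : ℝ) : ℂ) := by
    rw [← integral_complex_ofReal]
    simp only [h1]
    rw [integral_finsetSum _ fun l _ => integrable_finsetSum _ fun m _ => hint _ _]
    push_cast
    rw [Finset.mul_sum]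
    apply Finset.sum_congr rfl
    intro l hl
    rw [integral_finsetSum _ fun m _ => hint _ _]
    simp only [integral_const_mul, int_chr]
    rw [Finset.sum_eq_single l]
    · rw [if_pos (sub_self l), ← Complex.ofReal_pow, ← Complex.normSq_eq_norm_sq,
        Complex.normSq_eq_conj_mul_self]
      ring
    · intro m _ hm
      rw [if_neg (sub_ne_zero.2 hm.symm), mul_zero]
    · intro h; exact absurd hl h
  exact_mod_cast h2

/-- **Bessel's inequality** for the phases `l · χ`. -/
theorem bessel {χ : (ι → ℝ) → (ι → ℝ)} {x₀ : ι → ℝ} (hχ : ContDiffAt ℝ 1 χ x₀)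
    (hdet : (fderiv ℝ χ x₀).det ≠ 0) :
    ∃ ρ : ℝ, 0 < ρ ∧ ∃ C : ℝ, 0 ≤ C ∧ ∀ (g : (ι → ℝ) → ℂ) (B : ℝ),
      AEStronglyMeasurable g volume → (∀ y, ‖g y‖ ≤ B) → (∀ y, y ∉ Metric.closedBall x₀ ρ → g y = 0) →
      ∀ S : Finset (ι → ℤ), ∑ l ∈ S, ‖∫ y, g y * chr l (χ y)‖ ^ 2 ≤ C * B ^ 2 := by
  classical
  -- choose the ball
  have hcont : ContinuousAt (fun y => (fderiv ℝ χ y).det) x₀ :=
    ContinuousLinearMap.continuous_det.continuousAt.comp (hχ.continuousAt_fderiv (by simp))
  set c : ℝ := |(fderiv ℝ χ x₀).det| / 2 with hc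
  have hcpos : 0 < c := by
    rw [hc]; have := abs_pos.2 hdet; linarith
  have e1 : ∀ᶠ y in 𝓝 x₀, c ≤ |(fderiv ℝ χ y).det| := by
    have h1 : ContinuousAt (fun y => |(fderiv ℝ χ y).det|) x₀ := hcont.abs
    have h2 : c < |(fderiv ℝ χ x₀).det| := by rw [hc]; have := abs_pos.2 hdet; linarith
    filter_upwards [h1.eventually (lt_mem_nhds h2)] with y hy using hy.le
  have e2 : ∀ᶠ y in 𝓝 x₀, ContDiffAt ℝ 1 χ y := hχ.eventually (by simp)
  have e3 : ∀ᶠ y in 𝓝 x₀, χ y ∈ cell (χ x₀) := by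
    have h1 : Metric.ball (χ x₀) Real.pi ⊆ cell (χ x₀) := by
      intro z hz i _
      rw [Metric.mem_ball, dist_pi_lt_iff Real.pi_pos] at hz
      have := hz i
      rw [Real.dist_eq, abs_lt] at this
      constructor <;> linarith [this.1, this.2]
    exact hχ.continuousAt.eventually (Filter.mem_of_superset (Metric.ball_mem_nhds _ Real.pi_pos) h1)
  obtain ⟨s, hs, hinj⟩ : ∃ s ∈ 𝓝 x₀, InjOn χ s := by
    have hA : (fderiv ℝ χ x₀).IsInvertible := by
      refine ⟨ContinuousLinearMap.toContinuousLinearEquivOfDetNeZero (fderiv ℝ χ x₀) hdet, ?_⟩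
      ext; simp
    obtain ⟨A, hA⟩ := hA
    have hst : HasStrictFDerivAt χ (A : (ι → ℝ) →L[ℝ] (ι → ℝ)) x₀ := by
      rw [hA]; exact hχ.hasStrictFDerivAt (by simp)
    exact ⟨(hst.toOpenPartialHomeomorph χ).source,
      (hst.toOpenPartialHomeomorph χ).open_source.mem_nhds hst.mem_toOpenPartialHomeomorph_source,
      (hst.toOpenPartialHomeomorph χ).injOn⟩
  obtain ⟨ρ, hρ, hball⟩ := Metric.nhds_basis_closedBall.mem_iff.1 (Filter.inter_mem hs (e1.and (e2.and e3)))
  set K := Metric.closedBall x₀ ρ with hK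
  have hKc : IsCompact K := isCompact_closedBall _ _
  have hKm : MeasurableSet K := hKc.measurableSet
  have hKfin : volume K < ⊤ := hKc.measure_lt_top
  have hKi : InjOn χ K := hinj.mono fun y hy => (hball hy).1
  have hKd : ∀ y ∈ K, c ≤ |(fderiv ℝ χ y).det| := fun y hy => (hball hy).2.1
  have hKs : ∀ y ∈ K, ContDiffAt ℝ 1 χ y := fun y hy => (hball hy).2.2.1
  have hKcell : ∀ y ∈ K, χ y ∈ cell (χ x₀) := fun y hy => (hball hy).2.2.2
  have hχK : ContinuousOn χ K := fun y hy => (hKs y hy).continuousAt.continuousWithinAt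
  set N := Fintype.card ι
  set V := (volume K).toReal with hV
  refine ⟨ρ, hρ, V * (c⁻¹ * (2 * Real.pi) ^ N), by positivity, fun g B hg hB hg0 S => ?_⟩
  have hBnn : 0 ≤ B := (norm_nonneg _).trans (hB x₀)
  set a : (ι → ℤ) → ℂ := fun l => ∫ y, g y * chr l (χ y) with ha
  set A := ∑ l ∈ S, ‖a l‖ ^ 2 with hA
  have hAnn : 0 ≤ A := Finset.sum_nonneg fun _ _ => by positivity
  set p : (ι → ℝ) → ℂ := fun z => ∑ l ∈ S, conj (a l) * chr l z with hp
  have hpc : Continuous p := continuous_finsetSum _ fun l _ => continuous_const.mul (continuous_chr l)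
  have hfin : IsFiniteMeasure (volume.restrict K) :=
    ⟨by rw [Measure.restrict_apply_univ]; exact hKfin⟩
  have hgK : ∀ F : (ι → ℝ) → ℂ, ∫ y, g y * F y = ∫ y in K, g y * F y := by
    intro F
    rw [setIntegral_eq_integral_of_forall_compl_eq_zero]
    intro y hy
    rw [hg0 y hy, zero_mul]
  have hgint : ∀ l, IntegrableOn (fun y => g y * chr l (χ y)) K := by
    intro l
    refine Integrable.of_bound ?_ B ?_
    · apply AEStronglyMeasurable.mul hg.restrict
      exact ((continuous_chr l).comp_continuousOn hχK).aestronglyMeasurable hKm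
    · refine Eventually.of_forall fun y => ?_
      rw [norm_mul, norm_chr, mul_one]
      exact hB y
  -- duality
  have h1 : (A : ℂ) = ∫ y in K, g y * p (χ y) := by
    have h2 : ∀ y, g y * p (χ y) = ∑ l ∈ S, conj (a l) * (g y * chr l (χ y)) := by
      intro y
      rw [hp]
      simp only
      rw [Finset.mul_sum]
      exact Finset.sum_congr rfl fun l _ => by ring
    simp only [h2]
    rw [integral_finsetSum _ fun l _ => (hgint l).const_mul _]
    rw [hA]
    push_cast
    apply Finset.sum_congr rfl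
    intro l _
    rw [integral_const_mul, ← hgK, ← Complex.ofReal_pow, ← Complex.normSq_eq_norm_sq,
      Complex.normSq_eq_conj_mul_self]
  -- change of variables
  have hpb : ∃ b, ∀ z ∈ χ '' K, ‖p z‖ ≤ b :=
    (hKc.image_of_continuousOn hχK).exists_bound_of_continuousOn hpc.continuousOn
  obtain ⟨b, hb⟩ := hpb
  have hq1 : IntegrableOn (fun y => ‖p (χ y)‖ ^ 2) K := by
    refine Integrable.of_bound ?_ (b ^ 2) ?_
    · exact (((hpc.comp_continuousOn hχK).norm).pow 2).aestronglyMeasurable hKm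
    · rw [ae_restrict_iff' hKm]
      refine Eventually.of_forall fun y hy => ?_
      rw [Real.norm_of_nonneg (by positivity)]
      exact pow_le_pow_left₀ (norm_nonneg _) (hb _ ⟨y, hy, rfl⟩) 2
  have hcell : IsFiniteMeasure (volume.restrict (cell (χ x₀))) :=
    ⟨by rw [Measure.restrict_apply_univ]; exact volume_cell_lt_top _⟩
  have hq2 : IntegrableOn (fun z => ‖p z‖ ^ 2) (cell (χ x₀)) := by
    have hb2 : ∀ z, ‖p z‖ ≤ ∑ l ∈ S, ‖a l‖ := by
      intro z
      refine (norm_sum_le _ _).trans (Finset.sum_le_sum fun l _ => ?_)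
      rw [norm_mul, norm_chr, mul_one, RCLike.norm_conj]
    refine Integrable.of_bound ?_ ((∑ l ∈ S, ‖a l‖) ^ 2) ?_
    · exact (hpc.norm.pow 2).aestronglyMeasurable
    · refine Eventually.of_forall fun y => ?_
      rw [Real.norm_of_nonneg (by positivity)]
      exact pow_le_pow_left₀ (norm_nonneg _) (hb2 _) 2
  have hder : ∀ y ∈ K, HasFDerivWithinAt χ (fderiv ℝ χ y) K y := fun y hy =>
    ((hKs y hy).differentiableAt (by simp)).hasFDerivAt.hasFDerivWithinAt
  have hcv := integral_image_eq_integral_abs_det_fderiv_smul volume hKm hder hKi (fun z => ‖p z‖ ^ 2)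
  have hsub : χ '' K ⊆ cell (χ x₀) := by
    rintro _ ⟨y, hy, rfl⟩
    exact hKcell y hy
  have hq3 : IntegrableOn (fun y => |(fderiv ℝ χ y).det| • ‖p (χ y)‖ ^ 2) K :=
    (integrableOn_image_iff_integrableOn_abs_det_fderiv_smul volume hKm hder hKi
      (fun z => ‖p z‖ ^ 2)).1 (hq2.mono_set hsub)
  have h3 : ∫ y in K, ‖p (χ y)‖ ^ 2 ≤ c⁻¹ * ((2 * Real.pi) ^ N * A) := by
    have h4 : ∫ y in K, c * ‖p (χ y)‖ ^ 2 ≤ ∫ y in K, |(fderiv ℝ χ y).det| • ‖p (χ y)‖ ^ 2 := by
      apply setIntegral_mono_on (hq1.const_mul _) hq3 hKm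
      intro y hy
      rw [smul_eq_mul]
      exact mul_le_mul_of_nonneg_right (hKd y hy) (by positivity)
    rw [← hcv, integral_const_mul] at h4
    have h5 : ∫ z in χ '' K, ‖p z‖ ^ 2 ≤ ∫ z in cell (χ x₀), ‖p z‖ ^ 2 :=
      setIntegral_mono_set hq2 (Eventually.of_forall fun z => by positivity) (LE.le.eventuallyLE hsub)
    have h6 : ∫ z in cell (χ x₀), ‖p z‖ ^ 2 = (2 * Real.pi) ^ N * A := by
      rw [hp, parseval_cell]
      simp [hA, N]
    rw [h6] at h5
    rw [inv_mul_eq_div, le_div_iff₀ hcpos]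
    linarith
  -- Cauchy-Schwarz
  have h7 : A ≤ B * ∫ y in K, ‖p (χ y)‖ := by
    have h8 : A = ‖∫ y in K, g y * p (χ y)‖ := by
      rw [← h1, Complex.norm_real, Real.norm_of_nonneg hAnn]
    have h9 : IntegrableOn (fun y => ‖p (χ y)‖) K := by
      refine Integrable.of_bound ?_ b ?_
      · exact ((hpc.comp_continuousOn hχK).norm).aestronglyMeasurable hKm
      · rw [ae_restrict_iff' hKm]
        refine Eventually.of_forall fun y hy => ?_
        rw [norm_norm]
        exact hb _ ⟨y, hy, rfl⟩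
    rw [h8, ← integral_const_mul]
    refine (norm_integral_le_integral_norm _).trans ?_
    apply integral_mono_of_nonneg (Eventually.of_forall fun y => by positivity) (h9.const_mul B)
    refine Eventually.of_forall fun y => ?_
    simp only [norm_mul]
    exact mul_le_mul_of_nonneg_right (hB y) (norm_nonneg _)
  have h10 : (∫ y in K, ‖p (χ y)‖) ^ 2 ≤ V * ∫ y in K, ‖p (χ y)‖ ^ 2 := by
    have h9 : IntegrableOn (fun y => ‖p (χ y)‖) K := by
      refine Integrable.of_bound ?_ b ?_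
      · exact ((hpc.comp_continuousOn hχK).norm).aestronglyMeasurable hKm
      · rw [ae_restrict_iff' hKm]
        refine Eventually.of_forall fun y hy => ?_
        rw [norm_norm]
        exact hb _ ⟨y, hy, rfl⟩
    -- from `0 ≤ ∫ (|p| - s)^2`
    set m := ∫ y in K, ‖p (χ y)‖ with hm
    set q := ∫ y in K, ‖p (χ y)‖ ^ 2 with hq
    have hVnn : 0 ≤ V := ENNReal.toReal_nonneg
    have h11 : ∀ s : ℝ, 0 ≤ q - 2 * s * m + s ^ 2 * V := by
      intro s
      have h12 : 0 ≤ ∫ y in K, (‖p (χ y)‖ - s) ^ 2 := integral_nonneg fun y => by positivity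
      have h13 : ∀ y, (‖p (χ y)‖ - s) ^ 2 = (‖p (χ y)‖ ^ 2 - 2 * s * ‖p (χ y)‖) + s ^ 2 := by
        intro y; ring
      simp only [h13] at h12
      have i1 : Integrable (fun y => ‖p (χ y)‖ ^ 2 - 2 * s * ‖p (χ y)‖) (volume.restrict K) :=
        hq1.sub (h9.const_mul _)
      have i2 : Integrable (fun y => 2 * s * ‖p (χ y)‖) (volume.restrict K) := h9.const_mul _
      rw [integral_add i1 (integrable_const _), integral_sub hq1 i2, integral_const_mul,
        integral_const] at h12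
      simpa [hV, Measure.real, mul_comm] using h12
    rcases eq_or_lt_of_le hVnn with hV0 | hVpos
    · have hm0 : m = 0 := by
        have : volume K = 0 := by
          have h14 := (ENNReal.toReal_eq_zero_iff _).1 hV0.symm
          exact h14.resolve_right hKfin.ne
        rw [hm, Measure.restrict_eq_zero.2 this, integral_zero_measure]
      rw [hm0, ← hV0]; simp
    · have h15 := h11 (m / V)
      have h16 : q - 2 * (m / V) * m + (m / V) ^ 2 * V = q - m ^ 2 / V := by
        field_simp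
        ring
      rw [h16, sub_nonneg, div_le_iff₀ hVpos] at h15
      linarith
  -- conclusion
  have h17 : A ^ 2 ≤ B ^ 2 * (V * (c⁻¹ * ((2 * Real.pi) ^ N * A))) := by
    have hint : 0 ≤ ∫ y in K, ‖p (χ y)‖ := integral_nonneg fun y => norm_nonneg _
    calc A ^ 2 ≤ (B * ∫ y in K, ‖p (χ y)‖) ^ 2 := pow_le_pow_left₀ hAnn h7 2
      _ = B ^ 2 * (∫ y in K, ‖p (χ y)‖) ^ 2 := by ring
      _ ≤ B ^ 2 * (V * ∫ y in K, ‖p (χ y)‖ ^ 2) := by gcongr
      _ ≤ _ := by gcongr
  rcases eq_or_lt_of_le hAnn with h0 | hpos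
  · rw [← h0]; positivity
  · have h18 : A * A ≤ (V * (c⁻¹ * (2 * Real.pi) ^ N) * B ^ 2) * A := by
      calc A * A = A ^ 2 := by ring
        _ ≤ B ^ 2 * (V * (c⁻¹ * ((2 * Real.pi) ^ N * A))) := h17
        _ = _ := by ring
    exact le_of_mul_le_mul_right h18 hpos

end Pool.Agent.Helper49.FA
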