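import Mathlib
import Pool.Agent.Helper49.FBessel

/-! Test functions, Fourier coefficients, functionals of finite order. -/

set_option autoImplicit false

namespace Pool.Agent.Helper49.FA

open MeasureTheory Set Filter Topology Complex
open scoped ContDiff ComplexConjugate

variable {ι : Type*} [Fintype ι]

/-- test functions -/
def Tst (φ : (ι → ℝ) → ℂ) : Prop := ContDiff ℝ ∞ φ ∧ HasCompactSupport φ

/-- (unnormalised) Fourier coefficients of a function on `ℝ^ι` at the integer frequencies -/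
noncomputable def fc (φ : (ι → ℝ) → ℂ) (l : ι → ℤ) : ℂ := ∫ θ, φ θ * chr (-l) θ

/-- a functional on test functions which is of order `M` (a distribution) -/
structure IsDist (W : ((ι → ℝ) → ℂ) → ℂ) (M : ℕ) : Prop where
  add : ∀ φ ψ, Tst φ → Tst ψ → W (fun θ => φ θ + ψ θ) = W φ + W ψ
  smul : ∀ (a : ℂ) (φ : (ι → ℝ) → ℂ), Tst φ → W (fun θ => a * φ θ) = a * W φ
  order : ∀ R : ℝ, ∃ C : ℝ, 0 ≤ C ∧ ∀ (φ : (ι → ℝ) → ℂ) (S : ℝ), Tst φ → (∀ θ, R < ‖θ‖ → φ θ = 0) →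
    (∀ i ≤ M, ∀ θ, ‖iteratedFDeriv ℝ i φ θ‖ ≤ S) → ‖W φ‖ ≤ C * S

/-- `x` is in the support of `W` -/
def InSupp (W : ((ι → ℝ) → ℂ) → ℂ) (x : ι → ℝ) : Prop :=
  ∀ ε : ℝ, 0 < ε → ∃ φ : (ι → ℝ) → ℂ, Tst φ ∧ (∀ θ, ε < ‖θ - x‖ → φ θ = 0) ∧ W φ ≠ 0

end Pool.Agent.Helper49.FA
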