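import Mathlib
import Pool.Agent.Helper49.FTestDefs
import Pool.Agent.Helper49.FComb

/-! Test functions and the decay of their Fourier coefficients. -/

set_option autoImplicit false

namespace Pool.Agent.Helper49.FA

open MeasureTheory Set Filter Topology Complex
open scoped ContDiff ComplexConjugate

variable {ι : Type*} [Fintype ι]

theorem Tst.cont {φ : (ι → ℝ) → ℂ} (h : Tst φ) : Continuous φ := h.1.continuous

theorem Tst.integrable {φ : (ι → ℝ) → ℂ} (h : Tst φ) : Integrable φ :=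
  h.cont.integrable_of_hasCompactSupport h.2

theorem Tst.mul_left {φ g : (ι → ℝ) → ℂ} (h : Tst φ) (hg : ContDiff ℝ ∞ g) : Tst fun θ => g θ * φ θ :=
  ⟨hg.mul h.1, HasCompactSupport.mul_left (f := g) h.2⟩

theorem Tst.add {φ ψ : (ι → ℝ) → ℂ} (h : Tst φ) (h' : Tst ψ) : Tst fun θ => φ θ + ψ θ :=
  ⟨h.1.add h'.1, HasCompactSupport.add h.2 h'.2⟩

theorem Tst.sub {φ ψ : (ι → ℝ) → ℂ} (h : Tst φ) (h' : Tst ψ) : Tst fun θ => φ θ - ψ θ :=
  ⟨h.1.sub h'.1, HasCompactSupport.sub h.2 h'.2⟩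

theorem Tst.zero : Tst (fun _ : ι → ℝ => (0 : ℂ)) := ⟨contDiff_const, HasCompactSupport.zero⟩

theorem Tst.const_mul {φ : (ι → ℝ) → ℂ} (h : Tst φ) (a : ℂ) : Tst fun θ => a * φ θ :=
  h.mul_left contDiff_const

theorem Tst.sum {κ : Type*} (s : Finset κ) {φ : κ → (ι → ℝ) → ℂ} (h : ∀ i ∈ s, Tst (φ i)) :
    Tst fun θ => ∑ i ∈ s, φ i θ := by
  classical
  induction s using Finset.induction_on with
  | empty => simpa using Tst.zero
  | insert i s hi ih =>
    have h1 : (fun θ => ∑ j ∈ insert i s, φ j θ) = fun θ => φ i θ + ∑ j ∈ s, φ j θ := by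
      funext θ; rw [Finset.sum_insert hi]
    rw [h1]
    exact (h i (Finset.mem_insert_self i s)).add (ih fun j hj => h j (Finset.mem_insert_of_mem hj))

/-- directional derivative along a coordinate -/
noncomputable def pd (v : ι → ℝ) (φ : (ι → ℝ) → ℂ) : (ι → ℝ) → ℂ := fun θ => fderiv ℝ φ θ v

theorem Tst.pd {φ : (ι → ℝ) → ℂ} (h : Tst φ) (v : ι → ℝ) : Tst (pd v φ) :=
  ⟨(h.1.fderiv_right (m := ∞) (by simp)).clm_apply contDiff_const, h.2.fderiv_apply ℝ v⟩

theorem Tst.pd_iterate {φ : (ι → ℝ) → ℂ} (h : Tst φ) (v : ι → ℝ) (M : ℕ) : Tst ((FA.pd v)^[M] φ) := by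
  induction M with
  | zero => exact h
  | succ M ih => rw [Function.iterate_succ_apply']; exact ih.pd v

theorem norm_iteratedFDeriv_pd_le {φ : (ι → ℝ) → ℂ} (h : ContDiff ℝ ∞ φ) {v : ι → ℝ} (hv : ‖v‖ ≤ 1) (i : ℕ)
    (θ : ι → ℝ) : ‖iteratedFDeriv ℝ i (pd v φ) θ‖ ≤ ‖iteratedFDeriv ℝ (i + 1) φ θ‖ := by
  have h2 : ContDiff ℝ ∞ (fderiv ℝ φ) := h.fderiv_right (m := ∞) (by simp)
  have h3 := norm_iteratedFDeriv_clm_apply_const (c := v) (n := i) (h2.contDiffAt (x := θ))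
    (by exact_mod_cast le_top)
  rw [norm_iteratedFDeriv_fderiv] at h3
  exact h3.trans (mul_le_of_le_one_left (norm_nonneg _) hv)

theorem norm_pd_iterate_le {φ : (ι → ℝ) → ℂ} (h : Tst φ) {v : ι → ℝ} (hv : ‖v‖ ≤ 1) (M : ℕ) :
    ∀ (i : ℕ) (θ : ι → ℝ), ‖iteratedFDeriv ℝ i ((pd v)^[M] φ) θ‖ ≤ ‖iteratedFDeriv ℝ (i + M) φ θ‖ := by
  induction M with
  | zero => intro i θ; simp
  | succ M ih =>
    intro i θ
    rw [Function.iterate_succ_apply']
    refine (norm_iteratedFDeriv_pd_le (h.pd_iterate v M).1 hv i θ).trans ?_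
    refine (ih (i + 1) θ).trans (le_of_eq ?_)
    rw [show i + 1 + M = i + (M + 1) by ring]

theorem hasFDerivAt_chr (l : ι → ℤ) (θ v : ι → ℝ) :
    fderiv ℝ (chr l) θ v = I * (∑ i, (l i : ℂ) * (v i : ℂ)) * chr l θ := by
  have h1 : HasFDerivAt (fun z : ι → ℝ => I * ∑ i, (l i : ℂ) * (z i : ℂ))
      (I • ∑ i, (l i : ℂ) • (ofRealCLM.comp (ContinuousLinearMap.proj (R := ℝ) i))) θ := by
    apply HasFDerivAt.const_mul
    apply HasFDerivAt.fun_sum
    intro i _
    apply HasFDerivAt.const_mul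
    exact ofRealCLM.hasFDerivAt.comp θ (hasFDerivAt_apply i θ)
  have h2 := h1.cexp
  have h3 : fderiv ℝ (chr l) θ = _ := h2.fderiv
  rw [h3]
  simp only [smul_apply, sum_apply, ContinuousLinearMap.comp_apply,
    ContinuousLinearMap.proj_apply, ofRealCLM_apply, smul_eq_mul, chr]
  ring

theorem fc_pd {φ : (ι → ℝ) → ℂ} (h : Tst φ) (v : ι → ℝ) (l : ι → ℤ) :
    fc (pd v φ) l = I * (∑ i, (l i : ℂ) * (v i : ℂ)) * fc φ l := by
  have hc := contDiff_chr (-l)
  have hT : Tst fun θ => chr (-l) θ * φ θ := h.mul_left hc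
  have h1 := integral_fderiv_zero (F := fun θ => chr (-l) θ * φ θ) (hT.1.of_le (by simp)) hT.2 v
  have h2 : ∀ θ, fderiv ℝ (fun θ => chr (-l) θ * φ θ) θ v
      = pd v φ θ * chr (-l) θ - (I * (∑ i, (l i : ℂ) * (v i : ℂ))) * (φ θ * chr (-l) θ) := by
    intro θ
    have h3 : DifferentiableAt ℝ (chr (-l)) θ := (hc.differentiable (by simp)).differentiableAt
    have h4 : DifferentiableAt ℝ φ θ := (h.1.differentiable (by simp)).differentiableAt
    rw [fderiv_fun_mul h3 h4]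
    simp only [add_apply, smul_apply, smul_eq_mul, hasFDerivAt_chr, Pi.neg_apply, Int.cast_neg, neg_mul,
      Finset.sum_neg_distrib, pd]
    ring
  simp only [h2] at h1
  have i1 : Integrable fun θ => pd v φ θ * chr (-l) θ := by
    have := ((h.pd v).mul_left hc).integrable
    simpa [mul_comm] using this
  have i2 : Integrable fun θ => φ θ * chr (-l) θ := by
    have := hT.integrable
    simpa [mul_comm] using this
  rw [integral_sub i1 (i2.const_mul _), integral_const_mul, sub_eq_zero] at h1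
  exact h1

theorem norm_fc_le {φ : (ι → ℝ) → ℂ} {S R : ℝ} (hR : ∀ θ, R < ‖θ‖ → φ θ = 0) (hS : ∀ θ, ‖φ θ‖ ≤ S) (l : ι → ℤ) :
    ‖fc φ l‖ ≤ S * (volume (Metric.closedBall (0 : ι → ℝ) R)).toReal := by
  have h1 : fc φ l = ∫ θ in Metric.closedBall (0 : ι → ℝ) R, φ θ * chr (-l) θ := by
    rw [setIntegral_eq_integral_of_forall_compl_eq_zero]
    · rfl
    · intro θ hθ
      rw [Metric.mem_closedBall, dist_zero_right, not_le] at hθ
      rw [hR θ hθ, zero_mul]
  rw [h1]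
  apply norm_setIntegral_le_of_norm_le_const
  · exact (isCompact_closedBall _ _).measure_lt_top
  · intro θ _
    rw [norm_mul, norm_chr, mul_one]
    exact hS θ

theorem pd_support {φ : (ι → ℝ) → ℂ} {R : ℝ} (hR : ∀ θ, R < ‖θ‖ → φ θ = 0) (v : ι → ℝ) :
    ∀ θ, R < ‖θ‖ → pd v φ θ = 0 := by
  intro θ hθ
  have h1 : φ =ᶠ[𝓝 θ] fun _ => 0 := by
    have h2 : {θ : ι → ℝ | R < ‖θ‖} ∈ 𝓝 θ := (isOpen_lt continuous_const continuous_norm).mem_nhds hθ
    filter_upwards [h2] with θ' h' using hR θ' h'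
  rw [pd, h1.fderiv_eq]
  simp

theorem pd_iterate_support {φ : (ι → ℝ) → ℂ} {R : ℝ} (hR : ∀ θ, R < ‖θ‖ → φ θ = 0) (v : ι → ℝ) (M : ℕ) :
    ∀ θ, R < ‖θ‖ → ((pd v)^[M] φ) θ = 0 := by
  induction M with
  | zero => exact hR
  | succ M ih => rw [Function.iterate_succ_apply']; exact pd_support ih v

/-- decay of the Fourier coefficients of a test function -/
theorem fc_decay (M : ℕ) (R : ℝ) : ∃ C : ℝ, 0 ≤ C ∧ ∀ (φ : (ι → ℝ) → ℂ) (S : ℝ), Tst φ →
    (∀ θ, R < ‖θ‖ → φ θ = 0) → (∀ i ≤ M, ∀ θ, ‖iteratedFDeriv ℝ i φ θ‖ ≤ S) → ∀ l,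
    ‖fc φ l‖ * (1 + ‖l‖) ^ M ≤ C * S := by
  classical
  set vol := (volume (Metric.closedBall (0 : ι → ℝ) R)).toReal with hvol
  have hvol0 : 0 ≤ vol := ENNReal.toReal_nonneg
  refine ⟨2 ^ M * (2 * vol), by positivity, fun φ S hφ hR hS l => ?_⟩
  have hS0 : 0 ≤ S := (norm_nonneg _).trans (hS 0 (Nat.zero_le _) 0)
  have h0 : ‖fc φ l‖ ≤ S * vol := norm_fc_le hR (fun θ => by
    have := hS 0 (Nat.zero_le _) θ
    rwa [norm_iteratedFDeriv_zero] at this) l
  have h1 : ‖fc φ l‖ * ‖l‖ ^ M ≤ S * vol := by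
    rcases isEmpty_or_nonempty ι with hι | hι
    · have : ‖l‖ = 0 := by
        rw [norm_eq_zero]; exact Subsingleton.elim _ _
      rw [this]
      rcases Nat.eq_zero_or_pos M with hM | hM
      · rw [hM, pow_zero, mul_one]; exact h0
      · rw [zero_pow hM.ne', mul_zero]; positivity
    · obtain ⟨j, hj⟩ : ∃ j, ‖l‖ = ‖l j‖ := by
        obtain ⟨j, -, hj⟩ := Finset.exists_max_image Finset.univ (fun j => ‖l j‖) Finset.univ_nonempty
        refine ⟨j, le_antisymm ?_ (norm_le_pi_norm l j)⟩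
        exact (pi_norm_le_iff_of_nonneg (norm_nonneg _)).2 fun i => hj i (Finset.mem_univ i)
      set v : ι → ℝ := Pi.single j 1 with hv
      have hv1 : ‖v‖ ≤ 1 := by
        rw [hv, Pi.norm_single]; simp
      have h2 : ∀ M, fc ((pd v)^[M] φ) l = (I * (l j : ℂ)) ^ M * fc φ l := by
        intro M
        induction M with
        | zero => simp
        | succ M ih =>
          rw [Function.iterate_succ_apply', fc_pd (hφ.pd_iterate v M), ih]
          have h3 : (∑ i, (l i : ℂ) * (v i : ℂ)) = l j := by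
            rw [Finset.sum_eq_single j]
            · simp [hv]
            · intro i _ hi; simp [hv, hi]
            · intro h; exact absurd (Finset.mem_univ j) h
          rw [h3]; ring
      have h4 : ‖fc ((pd v)^[M] φ) l‖ ≤ S * vol := by
        apply norm_fc_le (pd_iterate_support hR v M)
        intro θ
        have h5 := norm_pd_iterate_le hφ hv1 M 0 θ
        rw [norm_iteratedFDeriv_zero, zero_add] at h5
        exact h5.trans (hS M le_rfl θ)
      rw [h2, norm_mul, norm_pow, norm_mul, norm_I, one_mul] at h4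
      have h6 : ‖((l j : ℤ) : ℂ)‖ = ‖l‖ := by
        rw [hj, Complex.norm_intCast, Int.norm_eq_abs]
      rw [h6] at h4
      rw [mul_comm]; exact h4
  have h7 : (1 + ‖l‖) ^ M ≤ 2 ^ M * (1 + ‖l‖ ^ M) := by
    have hl := norm_nonneg l
    rcases le_total ‖l‖ 1 with h | h
    · calc (1 + ‖l‖) ^ M ≤ 2 ^ M := pow_le_pow_left₀ (by positivity) (by linarith) M
        _ = 2 ^ M * 1 := (mul_one _).symm
        _ ≤ _ := by
            apply mul_le_mul_of_nonneg_left _ (by positivity)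
            have := pow_nonneg hl M
            linarith
    · calc (1 + ‖l‖) ^ M ≤ (2 * ‖l‖) ^ M := pow_le_pow_left₀ (by positivity) (by linarith) M
        _ = 2 ^ M * ‖l‖ ^ M := mul_pow _ _ _
        _ ≤ _ := by
            apply mul_le_mul_of_nonneg_left _ (by positivity)
            linarith
  calc ‖fc φ l‖ * (1 + ‖l‖) ^ M ≤ ‖fc φ l‖ * (2 ^ M * (1 + ‖l‖ ^ M)) :=
        mul_le_mul_of_nonneg_left h7 (norm_nonneg _)
    _ = 2 ^ M * (‖fc φ l‖ + ‖fc φ l‖ * ‖l‖ ^ M) := by ring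
    _ ≤ 2 ^ M * (S * vol + S * vol) := by
        apply mul_le_mul_of_nonneg_left _ (by positivity)
        exact add_le_add h0 h1
    _ = _ := by ring

/-- bounds for all derivatives of a test function -/
theorem Tst.exists_bound {φ : (ι → ℝ) → ℂ} (h : Tst φ) (M : ℕ) :
    ∃ S : ℝ, 0 ≤ S ∧ ∀ i ≤ M, ∀ θ, ‖iteratedFDeriv ℝ i φ θ‖ ≤ S := by
  have h1 : ∀ i : ℕ, ∃ S, ∀ θ, ‖iteratedFDeriv ℝ i φ θ‖ ≤ S := by
    intro i
    have hc : Continuous (iteratedFDeriv ℝ i φ) := h.1.continuous_iteratedFDeriv (by exact_mod_cast le_top)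
    have hs : HasCompactSupport (iteratedFDeriv ℝ i φ) := h.2.iteratedFDeriv i
    exact hs.exists_bound_of_continuous hc
  choose S hS using h1
  refine ⟨∑ i ∈ Finset.range (M + 1), |S i|, Finset.sum_nonneg fun _ _ => abs_nonneg _, fun i hi θ => ?_⟩
  refine (hS i θ).trans ((le_abs_self _).trans ?_)
  exact Finset.single_le_sum (f := fun i => |S i|) (fun _ _ => abs_nonneg _) (Finset.mem_range.2 (by omega))

theorem Tst.exists_radius {φ : (ι → ℝ) → ℂ} (h : Tst φ) : ∃ R : ℝ, ∀ θ, R < ‖θ‖ → φ θ = 0 := by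
  obtain ⟨R, hR⟩ := h.2.isCompact.isBounded.exists_norm_le
  refine ⟨R, fun θ hθ => ?_⟩
  by_contra hne
  exact absurd (hR θ (subset_tsupport _ hne)) (not_le.2 hθ)

theorem Tst.fc_decay {φ : (ι → ℝ) → ℂ} (h : Tst φ) (M : ℕ) :
    ∃ C : ℝ, 0 ≤ C ∧ ∀ l, ‖fc φ l‖ * (1 + ‖l‖) ^ M ≤ C := by
  obtain ⟨R, hR⟩ := h.exists_radius
  obtain ⟨S, hS0, hS⟩ := h.exists_bound M
  obtain ⟨C, hC0, hC⟩ := FA.fc_decay (ι := ι) M R
  exact ⟨C * S, by positivity, hC φ S h hR hS⟩

/-- a summable weight on the lattice -/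
theorem summable_inv_pow : Summable fun l : ι → ℤ => ((1 + ‖l‖) ^ (2 * Fintype.card ι))⁻¹ := by
  classical
  have h1 : Summable fun a : ℤ => ((1 + |(a : ℝ)|) ^ 2)⁻¹ := by
    have h := Real.summable_nat_pow_inv.2 (one_lt_two : 1 < 2)
    have h' : Summable fun a : ℕ => ((1 + (a : ℝ)) ^ 2)⁻¹ := by
      have h2 := (summable_nat_add_iff 1).2 h
      refine h2.congr fun a => ?_
      push_cast
      rw [add_comm]
    apply Summable.of_nat_of_neg
    · simpa using h'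
    · simpa using h'
  have h2 := summable_pi_prod (fun (_ : ι) (a : ℤ) => ((1 + |(a : ℝ)|) ^ 2)⁻¹)
    (fun i a => by positivity) (fun _ => h1)
  refine Summable.of_nonneg_of_le (fun l => by positivity) (fun l => ?_) h2
  rw [Finset.prod_inv_distrib]
  apply inv_anti₀ (Finset.prod_pos fun j _ => by positivity)
  calc ∏ j, (1 + |(l j : ℝ)|) ^ 2 ≤ ∏ _j : ι, (1 + ‖l‖) ^ 2 := by
        apply Finset.prod_le_prod
        · intro j _; positivity
        · intro j _
          apply pow_le_pow_left₀ (by positivity)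
          have := norm_le_pi_norm l j
          rw [Int.norm_eq_abs] at this
          linarith
    _ = _ := by rw [Finset.prod_const, Finset.card_univ, ← pow_mul]

theorem Tst.summable_fc {φ : (ι → ℝ) → ℂ} (h : Tst φ) (M : ℕ) :
    Summable fun l => ‖fc φ l‖ * (1 + ‖l‖) ^ M := by
  obtain ⟨C, hC0, hC⟩ := h.fc_decay (M + 2 * Fintype.card ι)
  refine Summable.of_nonneg_of_le (fun l => by positivity) (fun l => ?_) (summable_inv_pow.mul_left C)
  have h1 := hC l
  rw [pow_add, ← mul_assoc] at h1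
  rw [← div_eq_mul_inv, le_div_iff₀ (by positivity)]
  exact h1

theorem fc_chr_mul (φ : (ι → ℝ) → ℂ) (a l : ι → ℤ) : fc (fun θ => chr a θ * φ θ) l = fc φ (l - a) := by
  unfold fc
  congr 1
  funext θ
  rw [show -(l - a) = -l + a by abel, chr_add]
  ring

end Pool.Agent.Helper49.FA
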