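import Mathlib
import Pool.Agent.Helper49.FTest
import Pool.Agent.Helper49.FExt2

/-! The distribution attached to a polynomially bounded sequence on the lattice. -/

set_option autoImplicit false

namespace Pool.Agent.Helper49.FA

open MeasureTheory Set Filter Topology Complex
open scoped ContDiff ComplexConjugate Convolution

variable {ι : Type*} [Fintype ι]

/-- the distribution of a sequence on the lattice -/
noncomputable def Wd (V : (ι → ℤ) → ℂ) (φ : (ι → ℝ) → ℂ) : ℂ := ∑' l, fc φ l * V l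

/-- polynomial growth -/
def Gr (V : (ι → ℤ) → ℂ) (C : ℝ) (κ : ℕ) : Prop := 0 ≤ C ∧ ∀ l, ‖V l‖ ≤ C * (1 + ‖l‖) ^ κ

theorem one_add_norm_le (l a : ι → ℤ) : 1 + ‖l + a‖ ≤ (1 + ‖l‖) * (1 + ‖a‖) := by
  have h1 := norm_add_le l a
  have h2 := norm_nonneg l
  have h3 := norm_nonneg a
  nlinarith

theorem Gr.shift {V : (ι → ℤ) → ℂ} {C : ℝ} {κ : ℕ} (h : Gr V C κ) (a l : ι → ℤ) :
    ‖V (l + a)‖ ≤ C * (1 + ‖a‖) ^ κ * (1 + ‖l‖) ^ κ := by
  calc ‖V (l + a)‖ ≤ C * (1 + ‖l + a‖) ^ κ := h.2 _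
    _ ≤ C * ((1 + ‖l‖) * (1 + ‖a‖)) ^ κ := by
        apply mul_le_mul_of_nonneg_left _ h.1
        exact pow_le_pow_left₀ (by positivity) (one_add_norm_le l a) κ
    _ = _ := by rw [mul_pow]; ring

theorem Gr.norm_term_le {V : (ι → ℤ) → ℂ} {C : ℝ} {κ : ℕ} (h : Gr V C κ) (φ : (ι → ℝ) → ℂ) (a l : ι → ℤ) :
    ‖fc φ l * V (l + a)‖ ≤ C * (1 + ‖a‖) ^ κ * (‖fc φ l‖ * (1 + ‖l‖) ^ κ) := by
  rw [norm_mul]
  calc ‖fc φ l‖ * ‖V (l + a)‖ ≤ ‖fc φ l‖ * (C * (1 + ‖a‖) ^ κ * (1 + ‖l‖) ^ κ) :=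
        mul_le_mul_of_nonneg_left (h.shift a l) (norm_nonneg _)
    _ = _ := by ring

theorem Gr.summable {V : (ι → ℤ) → ℂ} {C : ℝ} {κ : ℕ} (h : Gr V C κ) {φ : (ι → ℝ) → ℂ} (hφ : Tst φ)
    (a : ι → ℤ) : Summable fun l => fc φ l * V (l + a) :=
  Summable.of_norm_bounded ((hφ.summable_fc κ).mul_left (C * (1 + ‖a‖) ^ κ)) (h.norm_term_le φ a)

theorem Gr.summable₀ {V : (ι → ℤ) → ℂ} {C : ℝ} {κ : ℕ} (h : Gr V C κ) {φ : (ι → ℝ) → ℂ} (hφ : Tst φ) :
    Summable fun l => fc φ l * V l := by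
  simpa using h.summable hφ 0

theorem fc_add {φ ψ : (ι → ℝ) → ℂ} (hφ : Tst φ) (hψ : Tst ψ) (l : ι → ℤ) :
    fc (fun θ => φ θ + ψ θ) l = fc φ l + fc ψ l := by
  unfold fc
  rw [← integral_add]
  · congr 1; funext θ; ring
  · have := (hφ.mul_left (contDiff_chr (-l))).integrable
    simpa [mul_comm] using this
  · have := (hψ.mul_left (contDiff_chr (-l))).integrable
    simpa [mul_comm] using this

theorem fc_smul (a : ℂ) (φ : (ι → ℝ) → ℂ) (l : ι → ℤ) : fc (fun θ => a * φ θ) l = a * fc φ l := by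
  unfold fc
  rw [← integral_const_mul]
  congr 1; funext θ; ring

theorem Wd_chr (V : (ι → ℤ) → ℂ) (φ : (ι → ℝ) → ℂ) (a : ι → ℤ) :
    Wd V (fun θ => chr a θ * φ θ) = ∑' l, fc φ l * V (l + a) := by
  unfold Wd
  rw [← (Equiv.addRight a).tsum_eq]
  apply tsum_congr
  intro l
  rw [fc_chr_mul]
  simp

theorem Wd_isDist {V : (ι → ℤ) → ℂ} {C : ℝ} {κ : ℕ} (h : Gr V C κ) :
    IsDist (Wd V) (κ + 2 * Fintype.card ι) := by
  refine ⟨fun φ ψ hφ hψ => ?_, fun a φ hφ => ?_, fun R => ?_⟩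
  · unfold Wd
    rw [← (h.summable₀ hφ).tsum_add (h.summable₀ hψ)]
    apply tsum_congr
    intro l
    rw [fc_add hφ hψ, add_mul]
  · unfold Wd
    rw [← tsum_mul_left]
    apply tsum_congr
    intro l
    rw [fc_smul, mul_assoc]
  · obtain ⟨C₁, hC₁, h₁⟩ := fc_decay (ι := ι) (κ + 2 * Fintype.card ι) R
    have hs := summable_inv_pow (ι := ι)
    set Z := ∑' l : ι → ℤ, ((1 + ‖l‖) ^ (2 * Fintype.card ι))⁻¹ with hZ
    have hZ0 : 0 ≤ Z := tsum_nonneg fun l => by positivity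
    refine ⟨C * C₁ * Z, by have := h.1; positivity, fun φ S hφ hR hS => ?_⟩
    have h2 : ∀ l, ‖fc φ l * V l‖ ≤ (C * (C₁ * S)) * ((1 + ‖l‖) ^ (2 * Fintype.card ι))⁻¹ := by
      intro l
      have h3 := h₁ φ S hφ hR hS l
      rw [pow_add, ← mul_assoc] at h3
      have h4 : ‖fc φ l‖ * (1 + ‖l‖) ^ κ ≤ (C₁ * S) * ((1 + ‖l‖) ^ (2 * Fintype.card ι))⁻¹ := by
        rw [← div_eq_mul_inv, le_div_iff₀ (by positivity)]
        exact h3
      rw [norm_mul]
      calc ‖fc φ l‖ * ‖V l‖ ≤ ‖fc φ l‖ * (C * (1 + ‖l‖) ^ κ) :=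
            mul_le_mul_of_nonneg_left (h.2 l) (norm_nonneg _)
        _ = C * (‖fc φ l‖ * (1 + ‖l‖) ^ κ) := by ring
        _ ≤ C * ((C₁ * S) * ((1 + ‖l‖) ^ (2 * Fintype.card ι))⁻¹) := mul_le_mul_of_nonneg_left h4 h.1
        _ = _ := by ring
    have h5 := tsum_of_norm_bounded (hs.mul_left (C * (C₁ * S))).hasSum h2
    refine h5.trans (le_of_eq ?_)
    rw [tsum_mul_left]
    ring

/-- growth of the Fourier coefficients of `φ W` -/
theorem Wd_growth {V : (ι → ℤ) → ℂ} {C : ℝ} {κ : ℕ} (h : Gr V C κ) {φ : (ι → ℝ) → ℂ} (hφ : Tst φ) :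
    ∃ C' : ℝ, Gr (fun a => Wd V (fun θ => chr a θ * φ θ)) C' κ := by
  refine ⟨C * ∑' l, ‖fc φ l‖ * (1 + ‖l‖) ^ κ,
    mul_nonneg h.1 (tsum_nonneg fun l => by positivity), fun a => ?_⟩
  show ‖Wd V (fun θ => chr a θ * φ θ)‖ ≤ _
  rw [Wd_chr]
  have h5 := tsum_of_norm_bounded ((hφ.summable_fc κ).mul_left (C * (1 + ‖a‖) ^ κ)).hasSum
    (h.norm_term_le φ a)
  refine h5.trans (le_of_eq ?_)
  rw [tsum_mul_left]
  ring

/-- square summability of the Fourier coefficients of `φ W` -/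
theorem Wd_sq {n : ℕ} {t : ℝ} {V : (Fin n → ℤ) → ℂ} {C : ℝ} {κ : ℕ} (hC : 0 ≤ C)
    (hV : ∀ (l : Fin n → ℤ) (S : Finset (Fin n →₀ ℕ)),
        ∑ α ∈ S, ‖V (l + zz α)‖ ^ 2 / Cyc.weight t α ≤ (C * (1 + ‖l‖) ^ κ) ^ 2)
    (hg : Gr V C κ) {φ : (Fin n → ℝ) → ℂ} (hφ : Tst φ) :
    Summable fun α : Fin n →₀ ℕ => ‖Wd V (fun θ => chr (zz α) θ * φ θ)‖ ^ 2 / Cyc.weight t α := by
  set A : ℝ := ∑' l, ‖fc φ l‖ with hA
  have sA : Summable fun l => ‖fc φ l‖ := by simpa using hφ.summable_fc 0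
  have sB : Summable fun l => ‖fc φ l‖ * (C * (1 + ‖l‖) ^ κ) ^ 2 := by
    have := (hφ.summable_fc (κ * 2)).mul_left (C ^ 2)
    refine this.congr fun l => ?_
    rw [pow_mul]; ring
  have hA0 : 0 ≤ A := tsum_nonneg fun l => norm_nonneg _
  have hw : ∀ α : Fin n →₀ ℕ, 0 < Cyc.weight t α := Cyc.weight_pos t
  apply summable_of_sum_le (c := A * ∑' l, ‖fc φ l‖ * (C * (1 + ‖l‖) ^ κ) ^ 2)
  · intro α
    exact div_nonneg (by positivity) (hw α).le
  intro S
  -- Cauchy–Schwarz for each term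
  have hterm : ∀ α : Fin n →₀ ℕ, ‖Wd V (fun θ => chr (zz α) θ * φ θ)‖ ^ 2
      ≤ A * ∑' l, ‖fc φ l‖ * ‖V (l + zz α)‖ ^ 2 := by
    intro α
    have s1 : Summable fun l => ‖fc φ l‖ * ‖V (l + zz α)‖ ^ 2 := by
      refine Summable.of_nonneg_of_le (fun l => by positivity) (fun l => ?_)
        ((hφ.summable_fc (κ * 2)).mul_left ((C * (1 + ‖zz α‖) ^ κ) ^ 2))
      have h1 := hg.shift (zz α) l
      have h2 := pow_le_pow_left₀ (norm_nonneg _) h1 2
      calc ‖fc φ l‖ * ‖V (l + zz α)‖ ^ 2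
          ≤ ‖fc φ l‖ * (C * (1 + ‖zz α‖) ^ κ * (1 + ‖l‖) ^ κ) ^ 2 :=
            mul_le_mul_of_nonneg_left h2 (norm_nonneg _)
        _ = _ := by rw [pow_mul]; ring
    have s2 : Summable fun l => ‖fc φ l‖ * ‖V (l + zz α)‖ := by
      have := (hg.summable hφ (zz α)).norm
      refine this.congr fun l => ?_
      rw [norm_mul]
    have h3 : ‖Wd V (fun θ => chr (zz α) θ * φ θ)‖ ≤ ∑' l, ‖fc φ l‖ * ‖V (l + zz α)‖ := by
      rw [Wd_chr]
      refine tsum_of_norm_bounded s2.hasSum fun l => ?_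
      rw [norm_mul]
    have h4 : (∑' l, ‖fc φ l‖ * ‖V (l + zz α)‖) ^ 2 ≤ A * ∑' l, ‖fc φ l‖ * ‖V (l + zz α)‖ ^ 2 := by
      have hB0 : 0 ≤ ∑' l, ‖fc φ l‖ * ‖V (l + zz α)‖ ^ 2 := tsum_nonneg fun l => by positivity
      have h5 : ∀ T : Finset (Fin n → ℤ), (∑ l ∈ T, ‖fc φ l‖ * ‖V (l + zz α)‖) ^ 2
          ≤ A * ∑' l, ‖fc φ l‖ * ‖V (l + zz α)‖ ^ 2 := by
        intro T
        have h6 := Finset.sum_mul_sq_le_sq_mul_sq T (fun l => Real.sqrt ‖fc φ l‖)
          (fun l => Real.sqrt ‖fc φ l‖ * ‖V (l + zz α)‖)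
        have h7 : ∀ l, Real.sqrt ‖fc φ l‖ * (Real.sqrt ‖fc φ l‖ * ‖V (l + zz α)‖)
            = ‖fc φ l‖ * ‖V (l + zz α)‖ := by
          intro l
          rw [← mul_assoc, Real.mul_self_sqrt (norm_nonneg _)]
        simp only [h7, mul_pow, Real.sq_sqrt (norm_nonneg _)] at h6
        refine h6.trans ?_
        apply mul_le_mul (sA.sum_le_tsum T fun l _ => norm_nonneg _)
          (s1.sum_le_tsum T fun l _ => by positivity) (Finset.sum_nonneg fun l _ => by positivity) hA0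
      have h8 : Tendsto (fun T : Finset (Fin n → ℤ) => (∑ l ∈ T, ‖fc φ l‖ * ‖V (l + zz α)‖) ^ 2) atTop
          (𝓝 ((∑' l, ‖fc φ l‖ * ‖V (l + zz α)‖) ^ 2)) := s2.hasSum.pow 2
      exact le_of_tendsto h8 (Eventually.of_forall h5)
    exact (pow_le_pow_left₀ (norm_nonneg _) h3 2).trans h4
  have s3 : ∀ α : Fin n →₀ ℕ, Summable fun l => ‖fc φ l‖ * (‖V (l + zz α)‖ ^ 2 / Cyc.weight t α) := by
    intro α
    have s1 : Summable fun l => ‖fc φ l‖ * ‖V (l + zz α)‖ ^ 2 := by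
      refine Summable.of_nonneg_of_le (fun l => by positivity) (fun l => ?_)
        ((hφ.summable_fc (κ * 2)).mul_left ((C * (1 + ‖zz α‖) ^ κ) ^ 2))
      have h1 := hg.shift (zz α) l
      have h2 := pow_le_pow_left₀ (norm_nonneg _) h1 2
      calc ‖fc φ l‖ * ‖V (l + zz α)‖ ^ 2
          ≤ ‖fc φ l‖ * (C * (1 + ‖zz α‖) ^ κ * (1 + ‖l‖) ^ κ) ^ 2 :=
            mul_le_mul_of_nonneg_left h2 (norm_nonneg _)
        _ = _ := by rw [pow_mul]; ring
    refine (s1.mul_right (Cyc.weight t α)⁻¹).congr fun l => ?_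
    rw [div_eq_mul_inv, mul_assoc]
  calc ∑ α ∈ S, ‖Wd V (fun θ => chr (zz α) θ * φ θ)‖ ^ 2 / Cyc.weight t α
      ≤ ∑ α ∈ S, A * ∑' l, ‖fc φ l‖ * (‖V (l + zz α)‖ ^ 2 / Cyc.weight t α) := by
        apply Finset.sum_le_sum
        intro α _
        rw [div_le_iff₀ (hw α)]
        refine (hterm α).trans (le_of_eq ?_)
        rw [mul_assoc]
        congr 1
        rw [← tsum_mul_right]
        apply tsum_congr
        intro l
        have := (hw α).ne'
        field_simp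
    _ = A * ∑' l, ‖fc φ l‖ * ∑ α ∈ S, ‖V (l + zz α)‖ ^ 2 / Cyc.weight t α := by
        rw [← Finset.mul_sum]
        congr 1
        rw [← Summable.tsum_finsetSum fun α _ => s3 α]
        apply tsum_congr
        intro l
        rw [Finset.mul_sum]
    _ ≤ A * ∑' l, ‖fc φ l‖ * (C * (1 + ‖l‖) ^ κ) ^ 2 := by
        apply mul_le_mul_of_nonneg_left _ hA0
        have s4 : Summable fun l => ‖fc φ l‖ * ∑ α ∈ S, ‖V (l + zz α)‖ ^ 2 / Cyc.weight t α := by
          refine Summable.of_nonneg_of_le (fun l => ?_) (fun l => ?_) sB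
          · exact mul_nonneg (norm_nonneg _) (Finset.sum_nonneg fun α _ => div_nonneg (by positivity) (hw α).le)
          · exact mul_le_mul_of_nonneg_left (hV l S) (norm_nonneg _)
        exact s4.tsum_le_tsum (fun l => mul_le_mul_of_nonneg_left (hV l S) (norm_nonneg _)) sB

/-! ### polynomials -/

section poly

variable {n : ℕ}

/-- the function on `ℝ^n` defined by a polynomial on the torus -/
noncomputable def pe (q : MvPolynomial (Fin n) ℂ) (θ : Fin n → ℝ) : ℂ :=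
  MvPolynomial.eval (fun j => exp (I * (θ j : ℂ))) q

theorem pe_eq (q : MvPolynomial (Fin n) ℂ) (θ : Fin n → ℝ) :
    pe q θ = ∑ α ∈ q.support, q.coeff α * chr (zz α) θ := by
  rw [pe, MvPolynomial.eval_eq']
  apply Finset.sum_congr rfl
  intro α _
  rw [chr_eq_prod]
  congr 1
  apply Finset.prod_congr rfl
  intro j _
  rw [← exp_nat_mul]
  congr 1
  simp [zz]
  ring

theorem pe_mul (p q : MvPolynomial (Fin n) ℂ) (θ : Fin n → ℝ) : pe (p * q) θ = pe p θ * pe q θ := by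
  simp [pe]

theorem pe_pow (p : MvPolynomial (Fin n) ℂ) (N : ℕ) (θ : Fin n → ℝ) : pe (p ^ N) θ = pe p θ ^ N := by
  simp [pe]

theorem contDiff_pe (q : MvPolynomial (Fin n) ℂ) : ContDiff ℝ ∞ (pe q) := by
  have h : pe q = fun θ => ∑ α ∈ q.support, q.coeff α * chr (zz α) θ := by
    funext θ; exact pe_eq q θ
  rw [h]
  apply ContDiff.sum
  intro α _
  exact contDiff_const.mul (contDiff_chr _)

theorem IsDist.wsum {W : ((ι → ℝ) → ℂ) → ℂ} {M : ℕ} (hW : IsDist W M) {κ : Type*} (s : Finset κ)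
    {φ : κ → (ι → ℝ) → ℂ} (h : ∀ i ∈ s, Tst (φ i)) : W (fun θ => ∑ i ∈ s, φ i θ) = ∑ i ∈ s, W (φ i) := by
  classical
  induction s using Finset.induction_on with
  | empty =>
    have h0 := hW.smul 0 (fun _ => 0) Tst.zero
    simp only [mul_zero, zero_mul] at h0
    simpa using h0
  | insert i s hi ih =>
    have h1 : (fun θ => ∑ j ∈ insert i s, φ j θ) = fun θ => φ i θ + ∑ j ∈ s, φ j θ := by
      funext θ; rw [Finset.sum_insert hi]
    rw [h1, hW.add _ _ (h i (Finset.mem_insert_self i s))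
      (Tst.sum s fun j hj => h j (Finset.mem_insert_of_mem hj)), Finset.sum_insert hi,
      ih fun j hj => h j (Finset.mem_insert_of_mem hj)]

theorem Wd_poly {V : (Fin n → ℤ) → ℂ} {C : ℝ} {κ : ℕ} (h : Gr V C κ) {φ : (Fin n → ℝ) → ℂ} (hφ : Tst φ)
    (q : MvPolynomial (Fin n) ℂ) :
    Wd V (fun θ => pe q θ * φ θ) = ∑' l, fc φ l * ∑ α ∈ q.support, q.coeff α * V (l + zz α) := by
  have h1 : (fun θ => pe q θ * φ θ) = fun θ => ∑ α ∈ q.support, q.coeff α * (chr (zz α) θ * φ θ) := by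
    funext θ
    rw [pe_eq, Finset.sum_mul]
    apply Finset.sum_congr rfl
    intro α _
    ring
  rw [h1, (Wd_isDist h).wsum]
  · have h2 : ∀ α ∈ q.support, Wd V (fun θ => q.coeff α * (chr (zz α) θ * φ θ))
        = ∑' l, fc φ l * (q.coeff α * V (l + zz α)) := by
      intro α _
      rw [(Wd_isDist h).smul _ _ (hφ.mul_left (contDiff_chr _)), Wd_chr, ← tsum_mul_left]
      apply tsum_congr
      intro l
      ring
    rw [Finset.sum_congr rfl h2, ← Summable.tsum_finsetSum]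
    · apply tsum_congr
      intro l
      rw [Finset.mul_sum]
    · intro α _
      refine ((h.summable hφ (zz α)).mul_left (q.coeff α)).congr fun l => ?_
      ring
  · intro α _
    exact (hφ.mul_left (contDiff_chr _)).const_mul _

/-- a test function with the Fourier coefficients of a constant -/
theorem exists_partition : ∃ φ : (ι → ℝ) → ℂ, Tst φ ∧ ∀ l, fc φ l = if l = 0 then 1 else 0 := by
  classical
  -- a bump function of integral one
  let b : ContDiffBump (0 : ι → ℝ) := ⟨1, 2, one_pos, one_lt_two⟩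
  set g : (ι → ℝ) → ℂ := fun θ => ((b.normed volume θ : ℝ) : ℂ) with hg
  have hgT : Tst g := by
    refine ⟨ofRealCLM.contDiff.comp b.contDiff_normed, ?_⟩
    exact b.hasCompactSupport_normed.comp_left (g := fun x : ℝ => (x : ℂ)) (by simp)
  have hg1 : ∫ θ, g θ = 1 := by
    show ∫ θ, ((b.normed volume θ : ℝ) : ℂ) = 1
    rw [integral_complex_ofReal, b.integral_normed]
    simp
  set f : (ι → ℝ) → ℂ := (cell (0 : ι → ℝ)).indicator fun _ => 1 with hf
  have hcellm := measurableSet_cell (0 : ι → ℝ)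
  have hfi : Integrable f := by
    rw [hf, integrable_indicator_iff hcellm]
    exact integrableOn_const (volume_cell_lt_top 0).ne
  have hfc : HasCompactSupport f := by
    apply HasCompactSupport.intro (isCompact_closedBall (0 : ι → ℝ) Real.pi)
    intro x hx
    rw [hf, Set.indicator_of_notMem]
    intro hxc
    apply hx
    rw [Metric.mem_closedBall, dist_zero_right]
    refine (pi_norm_le_iff_of_nonneg Real.pi_pos.le).2 fun i => ?_
    have := hxc i (Set.mem_univ i)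
    rw [Real.norm_eq_abs, abs_le]
    simp only [Pi.zero_apply, zero_sub, zero_add] at this
    exact ⟨this.1.le, this.2⟩
  set φ : (ι → ℝ) → ℂ := f ⋆[ContinuousLinearMap.mul ℝ ℂ, volume] g with hφ
  have hφT : Tst φ := by
    refine ⟨?_, ?_⟩
    · exact HasCompactSupport.contDiff_convolution_right (n := ⊤) _ hgT.2 hfi.locallyIntegrable hgT.1
    · exact HasCompactSupport.convolution _ hfc hgT.2
  have hfc' : ∀ l, fc φ l = (∫ θ in cell (0 : ι → ℝ), chr (-l) θ) * fc g l := by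
    intro l
    have e1 : fc φ l = ∫ θ, ((fun s => f s * chr (-l) s) ⋆[ContinuousLinearMap.mul ℝ ℂ, volume]
        (fun s => g s * chr (-l) s)) θ := by
      unfold fc
      congr 1
      funext θ
      rw [hφ, convolution_def, convolution_def, ← integral_mul_const]
      congr 1
      funext s
      simp only [ContinuousLinearMap.mul_apply']
      have h2 : chr (-l) θ = chr (-l) s * chr (-l) (θ - s) := by
        unfold chr
        rw [← exp_add, ← mul_add, ← Finset.sum_add_distrib]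
        congr 2
        apply Finset.sum_congr rfl
        intro i _
        simp
        ring
      rw [h2]; ring
    have hcc : Continuous (chr (-l) : (ι → ℝ) → ℂ) := continuous_chr (-l)
    have i1 : Integrable fun s => f s * chr (-l) s := by
      have h3 : (fun s => f s * chr (-l) s) = (cell (0 : ι → ℝ)).indicator fun s => chr (-l) s := by
        funext s
        by_cases hs : s ∈ cell (0 : ι → ℝ)
        · simp [hf, hs]
        · simp [hf, hs]
      rw [h3, integrable_indicator_iff hcellm]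
      apply Measure.integrableOn_of_bounded (M := 1) (volume_cell_lt_top 0).ne hcc.aestronglyMeasurable
      exact Eventually.of_forall fun s => (norm_chr _ _).le
    have i2 : Integrable fun s => g s * chr (-l) s := by
      have := (hgT.mul_left (contDiff_chr (-l))).integrable
      simpa [mul_comm] using this
    rw [e1, integral_convolution _ i1 i2]
    simp only [ContinuousLinearMap.mul_apply']
    congr 1
    rw [← integral_indicator hcellm]
    congr 1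
    funext s
    by_cases hs : s ∈ cell (0 : ι → ℝ)
    · simp [hf, hs]
    · simp [hf, hs]
  set c : ℂ := (2 * Real.pi : ℂ) ^ Fintype.card ι with hc
  have hc0 : c ≠ 0 := by
    rw [hc]
    apply pow_ne_zero
    have : (Real.pi : ℂ) ≠ 0 := by exact_mod_cast Real.pi_ne_zero
    simp [this]
  refine ⟨fun θ => c⁻¹ * φ θ, hφT.const_mul _, fun l => ?_⟩
  rw [fc_smul, hfc', int_chr]
  by_cases hl : l = 0
  · subst hl
    have : fc g 0 = 1 := by
      unfold fc
      simp only [neg_zero, chr_zero, mul_one]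
      exact hg1
    rw [this]
    simp [hc0, ← hc]
  · rw [if_neg (by simpa using hl), if_neg hl]
    ring

theorem Wd_kill {𝔮 : Ideal (MvPolynomial (Fin n) ℂ)} {V : (Fin n → ℤ) → ℂ} {C : ℝ} {κ : ℕ} (h : Gr V C κ)
    (hV : ∀ q ∈ 𝔮, ∀ l, ∑ α ∈ q.support, q.coeff α * V (l + zz α) = 0) {φ : (Fin n → ℝ) → ℂ} (hφ : Tst φ)
    {q : MvPolynomial (Fin n) ℂ} (hq : q ∈ 𝔮) : Wd V (fun θ => pe q θ * φ θ) = 0 := by
  rw [Wd_poly h hφ]
  simp [hV q hq]

theorem mem_of_kill {𝔮 : Ideal (MvPolynomial (Fin n) ℂ)} {V : (Fin n → ℤ) → ℂ} {C : ℝ} {κ : ℕ} (h : Gr V C κ)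
    (hV : ∀ g, g ∉ 𝔮 → ∃ l, ∑ α ∈ g.support, g.coeff α * V (l + zz α) ≠ 0)
    {g : MvPolynomial (Fin n) ℂ} (hg : ∀ φ, Tst φ → Wd V (fun θ => pe g θ * φ θ) = 0) : g ∈ 𝔮 := by
  by_contra hne
  obtain ⟨a, ha⟩ := hV g hne
  obtain ⟨φ, hφ, hfc⟩ := exists_partition (ι := Fin n)
  have h1 := hg (fun θ => chr a θ * φ θ) (hφ.mul_left (contDiff_chr a))
  rw [Wd_poly h (hφ.mul_left (contDiff_chr a))] at h1
  simp only [fc_chr_mul, hfc] at h1
  rw [tsum_eq_single a] at h1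
  · simp only [sub_self, if_true, one_mul] at h1
    exact ha h1
  · intro l hl
    rw [if_neg (sub_ne_zero.2 hl), zero_mul]

end poly

end Pool.Agent.Helper49.FA
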