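import Mathlib

/-! Definitions for the classification of shift-cyclic polynomials: smooth patches of the zero set
on the torus, their conormal spaces, and thinness. -/

set_option autoImplicit false

namespace Pool.Agent.Helper49.FA

open scoped ContDiff

variable {d : ℕ} {E : Type*} [NormedAddCommGroup E] [NormedSpace ℝ E]

/-- The conormal space of (the range of) a linear map `L` into `ℝ^d`: the vectors of `ℝ^d`
orthogonal to the range of `L`. -/
def conormal (L : E →L[ℝ] (Fin d → ℝ)) : Submodule ℝ (Fin d → ℝ) where
  carrier := {n | ∀ w, ∑ j, n j * L w j = 0}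
  add_mem' := by
    intro a b ha hb w
    simp only [Pi.add_apply, add_mul, Finset.sum_add_distrib, ha w, hb w, add_zero]
  zero_mem' := by intro w; simp
  smul_mem' := by
    intro c a ha w
    simp only [Pi.smul_apply, smul_eq_mul, mul_assoc, ← Finset.mul_sum, ha w, mul_zero]

/-- The vectors of `ℝ^d` whose support is contained in that of `n`. -/
def suppIn (n : Fin d → ℝ) : Submodule ℝ (Fin d → ℝ) where
  carrier := {m | ∀ j, n j = 0 → m j = 0}
  add_mem' := by
    intro a b ha hb j hj
    rw [Pi.add_apply, ha j hj, hb j hj, add_zero]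
  zero_mem' := by intro j _; rfl
  smul_mem' := by
    intro c a ha j hj
    rw [Pi.smul_apply, ha j hj, smul_zero]

/-- `L` is thin for the parameter `t`: for every nonzero conormal vector `n` with nonnegative
coordinates, the space of the conormal vectors with support contained in the support of `n` has
dimension less than `t` times the size of the support of `n`. -/
def Thin (t : ℝ) (L : E →L[ℝ] (Fin d → ℝ)) : Prop :=
  ∀ n ∈ conormal L, (∀ j, 0 ≤ n j) → n ≠ 0 →
    (Module.finrank ℝ ↥(conormal L ⊓ suppIn n) : ℝ) < t * (Finset.univ.filter fun j => n j ≠ 0).card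

/-- A patch of the zero set of `P` on the torus `𝕋^d`: a smooth immersion `ψ` of a nonempty open set
`U` of `ℝ^s` into `ℝ^d` such that `P` vanishes at the points `(e^{iψ_1(u)}, …, e^{iψ_d(u)})`. -/
structure Patch (P : MvPolynomial (Fin d) ℂ) (s : ℕ) (U : Set (Fin s → ℝ))
    (ψ : (Fin s → ℝ) → (Fin d → ℝ)) : Prop where
  isOpen : IsOpen U
  nonempty : U.Nonempty
  smooth : ContDiffOn ℝ ∞ ψ U
  immersion : ∀ u ∈ U, Function.Injective (fderiv ℝ ψ u)
  zero : ∀ u ∈ U, MvPolynomial.eval (fun j => Complex.exp (Complex.I * (ψ u j : ℂ))) P = 0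

end Pool.Agent.Helper49.FA
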