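import Mathlib

/-! Linear algebra: Stiemke's lemma. -/

set_option autoImplicit false

namespace Pool.Agent.Helper49.FA

open Set Filter Topology

/-- **Stiemke's lemma.** -/
theorem stiemke {σ E : Type*} [Fintype σ] [DecidableEq σ] [AddCommGroup E] [Module ℝ E]
    (L : E →ₗ[ℝ] (σ → ℝ)) (F : Finset σ) :
    (∃ n : σ → ℝ, (∀ j ∈ F, 0 < n j) ∧ (∀ j, j ∉ F → n j = 0) ∧ ∀ w, ∑ j, n j * L w j = 0) ∨
    (∃ w, (∀ j ∈ F, 0 ≤ L w j) ∧ ∃ j ∈ F, 0 < L w j) := by
  classical
  set R : (σ → ℝ) →ₗ[ℝ] (F → ℝ) := LinearMap.pi fun j => LinearMap.proj (j : σ) with hR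
  set W : Submodule ℝ (F → ℝ) := LinearMap.range (R.comp L) with hW
  by_cases hdis : Disjoint (stdSimplex ℝ F) (W : Set (F → ℝ))
  · left
    have hWc : IsClosed (W : Set (F → ℝ)) := W.closed_of_finiteDimensional
    obtain ⟨f, u, v, hfu, huv, hfv⟩ := geometric_hahn_banach_compact_closed
      (convex_stdSimplex ℝ F) (isCompact_stdSimplex ℝ F) W.convex hWc hdis
    have hv0 : v < 0 := by
      have := hfv 0 W.zero_mem
      simpa using this
    have hfW : ∀ w ∈ W, f w = 0 := by
      intro w hw
      by_contra hne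
      have h1 := hfv ((v / f w) • w) (W.smul_mem _ hw)
      rw [map_smul, smul_eq_mul, div_mul_cancel₀ _ hne] at h1
      exact lt_irrefl _ h1
    refine ⟨fun j => if h : j ∈ F then -f (Pi.single ⟨j, h⟩ 1) else 0, ?_, ?_, ?_⟩
    · intro j hj
      simp only [dif_pos hj]
      have h1 := hfu (Pi.single (⟨j, hj⟩ : F) 1) (single_mem_stdSimplex ℝ (⟨j, hj⟩ : F))
      linarith
    · intro j hj
      simp only [dif_neg hj]
    · intro w
      have h1 := hfW (R (L w)) ⟨w, rfl⟩
      have h2 : f (R (L w)) = ∑ j : F, L w j * f (Pi.single j 1) := by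
        conv_lhs => rw [pi_eq_sum_univ' (R (L w))]
        rw [map_sum]
        apply Finset.sum_congr rfl
        intro j _
        rw [map_smul, smul_eq_mul]
        rfl
      have h3 : ∑ j, (if h : j ∈ F then -f (Pi.single ⟨j, h⟩ 1) else 0) * L w j
          = ∑ j : F, -f (Pi.single j 1) * L w j := by
        rw [← Finset.sum_subset (Finset.subset_univ F)]
        · rw [← Finset.sum_attach F]
          apply Finset.sum_congr rfl
          intro j _
          simp only [j.2, dif_pos]
        · intro j _ hj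
          rw [dif_neg hj, zero_mul]
      rw [h3]
      have h4 : ∑ j : F, -f (Pi.single j 1) * L w j = -∑ j : F, L w j * f (Pi.single j 1) := by
        rw [← Finset.sum_neg_distrib]
        exact Finset.sum_congr rfl fun j _ => by ring
      rw [h4, ← h2, h1, neg_zero]
  · right
    rw [Set.not_disjoint_iff] at hdis
    obtain ⟨x, hx1, hx2⟩ := hdis
    obtain ⟨w, hw⟩ := hx2
    refine ⟨w, fun j hj => ?_, ?_⟩
    · have := hx1.1 ⟨j, hj⟩
      rw [← hw] at this
      exact this
    · by_contra hcon
      push Not at hcon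
      have h1 : ∑ j, x j ≤ 0 := by
        apply Finset.sum_nonpos
        intro j _
        rw [← hw]
        exact hcon j j.2
      rw [hx1.2] at h1
      linarith

end Pool.Agent.Helper49.FA
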