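import Mathlib
import Pool.Agent.Helper49.FLin

/-! Ranks of families of differentials, and vector fields killing a family of functions. -/

set_option autoImplicit false
set_option linter.unusedSectionVars false

namespace Pool.Agent.Helper49.FA

open Set Filter Topology Submodule
open scoped ContDiff

variable {σ : Type*} [Fintype σ] {E : Type*} [NormedAddCommGroup E] [NormedSpace ℝ E]

/-- the differentials of the components -/
noncomputable def row (ψ : E → σ → ℝ) (u : E) (j : σ) : E →L[ℝ] ℝ :=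
  (ContinuousLinearMap.proj j : (σ → ℝ) →L[ℝ] ℝ).comp (fderiv ℝ ψ u)

theorem row_apply (ψ : E → σ → ℝ) (u : E) (j : σ) (w : E) : row ψ u j w = fderiv ℝ ψ u w j := rfl

theorem contDiffOn_row {ψ : E → σ → ℝ} {U : Set E} (hU : IsOpen U) (hψ : ContDiffOn ℝ ∞ ψ U) (j : σ) :
    ContDiffOn ℝ ∞ (fun u => row ψ u j) U := by
  have h1 : ContDiffOn ℝ ∞ (fderiv ℝ ψ) U := hψ.fderiv_of_isOpen hU (by simp)
  exact contDiffOn_const.clm_comp h1

/-- rank of a family of differentials -/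
noncomputable def rk (ψ : E → σ → ℝ) (u : E) (B : Finset σ) : ℕ :=
  Module.finrank ℝ (span ℝ (row ψ u '' (B : Set σ)))

/-- the ranks are locally maximal at `u₀` -/
def RankConst (ψ : E → σ → ℝ) (u₀ : E) : Prop :=
  ∀ B : Finset σ, ∀ᶠ u in 𝓝 u₀, rk ψ u B ≤ rk ψ u₀ B

section
variable [FiniteDimensional ℝ E]

theorem rk_eq_card {ψ : E → σ → ℝ} {u : E} {J : Finset σ}
    (h : LinearIndepOn ℝ (row ψ u) (J : Set σ)) : rk ψ u J = J.card := by
  have h1 := finrank_span_eq_card (h : LinearIndependent ℝ fun x : (J : Set σ) => row ψ u x)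
  rw [rk, Set.image_eq_range, h1]
  simp

theorem exists_basis_subset [DecidableEq σ] (ψ : E → σ → ℝ) (u : E) (B : Finset σ) :
    ∃ J ⊆ B, LinearIndepOn ℝ (row ψ u) (J : Set σ) ∧
      ∀ i ∈ B, row ψ u i ∈ span ℝ (row ψ u '' (J : Set σ)) := by
  classical
  obtain ⟨b, hb1, -, hb2, hb3⟩ := exists_linearIndepOn_extension
    (linearIndepOn_empty ℝ (row ψ u)) (Set.empty_subset (B : Set σ))
  refine ⟨B.filter (fun i => i ∈ b), Finset.filter_subset _ _, ?_, ?_⟩
  · have h1 : ((B.filter (fun i => i ∈ b) : Finset σ) : Set σ) = b := by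
      ext i; simp; exact fun h => hb1 h
    rw [h1]; exact hb3
  · intro i hi
    have h1 : ((B.filter (fun i => i ∈ b) : Finset σ) : Set σ) = b := by
      ext i; simp; exact fun h => hb1 h
    rw [h1]
    exact hb2 ⟨i, hi, rfl⟩

theorem rk_eq_of_span {ψ : E → σ → ℝ} {u : E} {J B : Finset σ} (hJB : J ⊆ B)
    (h : LinearIndepOn ℝ (row ψ u) (J : Set σ))
    (hs : ∀ i ∈ B, row ψ u i ∈ span ℝ (row ψ u '' (J : Set σ))) : rk ψ u B = J.card := by
  have hsp : span ℝ (row ψ u '' (B : Set σ)) = span ℝ (row ψ u '' (J : Set σ)) := by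
    apply le_antisymm
    · rw [span_le]
      rintro _ ⟨i, hi, rfl⟩
      exact hs i hi
    · exact span_mono (Set.image_mono (by exact_mod_cast hJB))
  rw [← rk_eq_card h, rk, rk, hsp]

theorem rk_mono {ψ : E → σ → ℝ} {u : E} {A B : Finset σ} (h : A ⊆ B) : rk ψ u A ≤ rk ψ u B := by
  apply Submodule.finrank_mono
  exact span_mono (Set.image_mono (by exact_mod_cast h))

theorem eventually_indep {ψ : E → σ → ℝ} {u₀ : E} (hc : ∀ j, ContinuousAt (fun u => row ψ u j) u₀)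
    {J : Finset σ} (h : LinearIndepOn ℝ (row ψ u₀) (J : Set σ)) :
    ∀ᶠ u in 𝓝 u₀, LinearIndepOn ℝ (row ψ u) (J : Set σ) := by
  have h1 : ContinuousAt (fun u => fun x : (J : Set σ) => row ψ u x) u₀ :=
    continuousAt_pi.2 fun x => hc x
  have h2 : IsOpen {f : ↥(J : Set σ) → (E →L[ℝ] ℝ) | LinearIndependent ℝ f} :=
    isOpen_setOfPred_linearIndependent
  have h3 : (fun x : (J : Set σ) => row ψ u₀ x) ∈
      {f : ↥(J : Set σ) → (E →L[ℝ] ℝ) | LinearIndependent ℝ f} := h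
  exact h1.preimage_mem_nhds (h2.mem_nhds h3)

theorem eventually_rk_ge [DecidableEq σ] {ψ : E → σ → ℝ} {u₀ : E} (hc : ∀ j, ContinuousAt (fun u => row ψ u j) u₀)
    (B : Finset σ) : ∀ᶠ u in 𝓝 u₀, rk ψ u₀ B ≤ rk ψ u B := by
  obtain ⟨J, hJB, hJ, hs⟩ := exists_basis_subset ψ u₀ B
  filter_upwards [eventually_indep hc hJ] with u hu
  rw [rk_eq_of_span hJB hJ hs, ← rk_eq_card hu]
  exact rk_mono hJB

theorem exists_rankConst [DecidableEq σ] {ψ : E → σ → ℝ} {U : Set E} (hU : IsOpen U) (hne : U.Nonempty)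
    (hψ : ContDiffOn ℝ ∞ ψ U) : ∃ u₀ ∈ U, RankConst ψ u₀ := by
  classical
  set f : E → ℕ := fun u => ∑ B : Finset σ, rk ψ u B with hf
  have hbound : ∀ u, f u ≤ ∑ _B : Finset σ, Module.finrank ℝ (E →L[ℝ] ℝ) := fun u =>
    Finset.sum_le_sum fun B _ => Submodule.finrank_le _
  set S : Set ℕ := {m | ∃ u ∈ U, f u = m} with hS
  have hSne : S.Nonempty := by obtain ⟨u, hu⟩ := hne; exact ⟨f u, u, hu, rfl⟩
  have hSb : BddAbove S := ⟨∑ _B : Finset σ, Module.finrank ℝ (E →L[ℝ] ℝ), by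
    rintro _ ⟨u, _, rfl⟩; exact hbound u⟩
  obtain ⟨u₀, hu₀, hmax⟩ := Nat.sSup_mem hSne hSb
  have hmax' : ∀ u ∈ U, f u ≤ f u₀ := by
    intro u hu
    rw [hmax]
    exact le_csSup hSb ⟨u, hu, rfl⟩
  refine ⟨u₀, hu₀, fun B => ?_⟩
  have hc : ∀ j, ContinuousAt (fun u => row ψ u j) u₀ := fun j =>
    ((contDiffOn_row hU hψ j).continuousOn).continuousAt (hU.mem_nhds hu₀)
  have h1 : ∀ᶠ u in 𝓝 u₀, ∀ A : Finset σ, rk ψ u₀ A ≤ rk ψ u A := by
    rw [eventually_all]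
    exact fun A => eventually_rk_ge hc A
  filter_upwards [h1, hU.mem_nhds hu₀] with u hu huU
  by_contra hcon
  push Not at hcon
  have h2 : f u₀ < f u := Finset.sum_lt_sum (fun A _ => hu A) ⟨B, Finset.mem_univ _, hcon⟩
  exact absurd (hmax' u huU) (not_le.2 h2)

theorem eventually_mem_span {ψ : E → σ → ℝ} {u₀ : E} (hc : ∀ j, ContinuousAt (fun u => row ψ u j) u₀)
    (hr : RankConst ψ u₀) {J B : Finset σ} (hJB : J ⊆ B)
    (h : LinearIndepOn ℝ (row ψ u₀) (J : Set σ))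
    (hs : ∀ i ∈ B, row ψ u₀ i ∈ span ℝ (row ψ u₀ '' (J : Set σ))) :
    ∀ᶠ u in 𝓝 u₀, ∀ i ∈ B, row ψ u i ∈ span ℝ (row ψ u '' (J : Set σ)) := by
  filter_upwards [eventually_indep hc h, hr B] with u hu hru
  have h1 : span ℝ (row ψ u '' (J : Set σ)) = span ℝ (row ψ u '' (B : Set σ)) := by
    apply Submodule.eq_of_le_of_finrank_le (span_mono (Set.image_mono (by exact_mod_cast hJB)))
    have h2 : Module.finrank ℝ (span ℝ (row ψ u '' (J : Set σ))) = J.card := rk_eq_card hu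
    have h3 : Module.finrank ℝ (span ℝ (row ψ u '' (B : Set σ))) ≤ J.card := by
      rw [← rk_eq_of_span hJB h hs]; exact hru
    rw [h2]; exact h3
  intro i hi
  rw [h1]
  exact subset_span ⟨i, hi, rfl⟩

/-- the family of differentials of a finite set of components, as a map -/
noncomputable def rowMap (ψ : E → σ → ℝ) (J : Finset σ) (u : E) : E →L[ℝ] (J → ℝ) :=
  ContinuousLinearMap.pi fun j : J => row ψ u j

theorem rowMap_surjective {ψ : E → σ → ℝ} {J : Finset σ} {u : E}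
    (h : LinearIndepOn ℝ (row ψ u) (J : Set σ)) : LinearMap.range (rowMap ψ J u : E →ₗ[ℝ] (J → ℝ)) = ⊤ := by
  classical
  by_contra hne
  obtain ⟨f, hf0, hf⟩ := Submodule.exists_le_ker_of_lt_top _ (lt_top_iff_ne_top.2 hne)
  apply hf0
  have hli : LinearIndependent ℝ fun x : (J : Set σ) => row ψ u x := h
  rw [Fintype.linearIndependent_iff] at hli
  have h1 := hli (fun x => f (Pi.single (⟨x, x.2⟩ : J) 1)) (by
    ext w
    have h2 := hf ⟨w, rfl⟩
    rw [LinearMap.mem_ker] at h2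
    have h3 : f ((rowMap ψ J u : E →ₗ[ℝ] (J → ℝ)) w) = ∑ j : J, row ψ u j w * f (Pi.single j 1) := by
      conv_lhs => rw [pi_eq_sum_univ' ((rowMap ψ J u : E →ₗ[ℝ] (J → ℝ)) w)]
      rw [map_sum]
      apply Finset.sum_congr rfl
      intro j _
      rw [map_smul, smul_eq_mul]
      rfl
    rw [h3] at h2
    simp only [FunLike.coe_sum, Finset.sum_apply, FunLike.coe_smul,
      Pi.smul_apply, smul_eq_mul, zero_apply]
    rw [← h2]
    exact Finset.sum_congr rfl fun j _ => mul_comm _ _)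
  apply LinearMap.pi_ext'
  intro j
  ext
  simpa using h1 ⟨j, j.2⟩

/-- A vector field killing the components in `B`, with prescribed value at `u₀`. -/
theorem exists_field [DecidableEq σ] {ψ : E → σ → ℝ} {U : Set E} (hU : IsOpen U) (hψ : ContDiffOn ℝ ∞ ψ U)
    {u₀ : E} (hu₀ : u₀ ∈ U) (hr : RankConst ψ u₀) (B : Finset σ) (w : E)
    (hw : ∀ j ∈ B, row ψ u₀ j w = 0) :
    ∃ (V : Set E) (e : E → E), IsOpen V ∧ u₀ ∈ V ∧ V ⊆ U ∧ ContDiffOn ℝ ∞ e V ∧ e u₀ = w ∧
      ∀ u ∈ V, ∀ j ∈ B, row ψ u j (e u) = 0 := by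
  classical
  have hc : ∀ j, ContinuousAt (fun u => row ψ u j) u₀ := fun j =>
    ((contDiffOn_row hU hψ j).continuousOn).continuousAt (hU.mem_nhds hu₀)
  obtain ⟨J, hJB, hJ, hs⟩ := exists_basis_subset ψ u₀ B
  obtain ⟨B0, hB0⟩ := ContinuousLinearMap.exists_rightInverse_of_surjective (rowMap ψ J u₀)
    (rowMap_surjective hJ)
  set A : E → (E →L[ℝ] (J → ℝ)) := fun u => rowMap ψ J u with hA
  have hAc : ContDiffOn ℝ ∞ A U := by
    have h1 : ContDiffOn ℝ ∞ (fun u => fun j : J => row ψ u j) U :=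
      contDiffOn_pi.2 fun j => contDiffOn_row hU hψ j
    exact (ContinuousLinearMap.piEquivL ℝ E (fun _ : J => ℝ)).contDiff.comp_contDiffOn h1
  set M : E → ((J → ℝ) →L[ℝ] (J → ℝ)) := fun u => (A u).comp B0 with hM
  have hMc : ContDiffOn ℝ ∞ M U := hAc.clm_comp contDiffOn_const
  have hM0 : M u₀ = 1 := hB0
  set V1 : Set E := {u | u ∈ U ∧ IsUnit (M u)} with hV1
  have hV1o : IsOpen V1 := by
    have := hMc.continuousOn.isOpen_inter_preimage hU (Units.isOpen (R := (J → ℝ) →L[ℝ] (J → ℝ)))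
    exact this
  obtain ⟨V2, hV2, hV2o, hV2m⟩ := eventually_nhds_iff.1 (eventually_mem_span hc hr hJB hJ hs)
  set e : E → E := fun u => w - B0 (Ring.inverse (M u) (A u w)) with he
  refine ⟨V1 ∩ V2, e, hV1o.inter hV2o, ⟨⟨hu₀, by rw [hM0]; exact isUnit_one⟩, hV2m⟩,
    fun u hu => hu.1.1, ?_, ?_, ?_⟩
  · intro u hu
    have hMu : ContDiffAt ℝ ∞ M u := (hMc u hu.1.1).contDiffAt (hU.mem_nhds hu.1.1)
    have hAu : ContDiffAt ℝ ∞ A u := (hAc u hu.1.1).contDiffAt (hU.mem_nhds hu.1.1)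
    obtain ⟨x, hx⟩ := hu.1.2
    have h1 : ContDiffAt ℝ ∞ (fun u => Ring.inverse (M u)) u := by
      have h2 : ContDiffAt ℝ ∞ Ring.inverse (M u) := by
        rw [← hx]; exact contDiffAt_ringInverse ℝ x
      exact h2.comp u hMu
    have h3 : ContDiffAt ℝ ∞ (fun u => Ring.inverse (M u) (A u w)) u :=
      h1.clm_apply (hAu.clm_apply contDiffAt_const)
    exact (contDiffAt_const.sub (B0.contDiff.contDiffAt.comp u h3)).contDiffWithinAt
  · have h1 : A u₀ w = 0 := by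
      funext j
      exact hw j (hJB j.2)
    simp only [he, h1, map_zero, sub_zero]
  · intro u hu j hj
    -- first for `J`
    have h1 : A u (e u) = 0 := by
      simp only [he, map_sub]
      have h2 : A u (B0 (Ring.inverse (M u) (A u w))) = (M u * Ring.inverse (M u)) (A u w) := rfl
      rw [h2, Ring.mul_inverse_cancel _ hu.1.2]
      simp
    have h2 : ∀ i ∈ J, row ψ u i (e u) = 0 := fun i hi => congrFun h1 ⟨i, hi⟩
    have h3 := hV2 u hu.2 j hj
    have h4 : span ℝ (row ψ u '' (J : Set σ)) ≤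
        LinearMap.ker (ContinuousLinearMap.apply ℝ ℝ (e u) : (E →L[ℝ] ℝ) →ₗ[ℝ] ℝ) := by
      rw [span_le]
      rintro _ ⟨i, hi, rfl⟩
      exact h2 i hi
    exact h4 h3

/-- **Positive vector fields.** If no positive combination of the differentials in `F` vanishes at
`u₀` then there is a vector field killing some of the components of `F` and increasing the
others. -/
theorem exists_positive_field [DecidableEq σ] {ψ : E → σ → ℝ} {U : Set E} (hU : IsOpen U)
    (hψ : ContDiffOn ℝ ∞ ψ U) {u₀ : E} (hu₀ : u₀ ∈ U) (hr : RankConst ψ u₀) (F : Finset σ)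
    (hF : ¬ ∃ n : σ → ℝ, (∀ j ∈ F, 0 < n j) ∧ (∀ j, j ∉ F → n j = 0) ∧
      ∀ w, ∑ j, n j * fderiv ℝ ψ u₀ w j = 0) :
    ∃ (V : Set E) (e : E → E) (B₁ : Finset σ), IsOpen V ∧ u₀ ∈ V ∧ V ⊆ U ∧ ContDiffOn ℝ ∞ e V ∧
      B₁ ⊆ F ∧ B₁.Nonempty ∧ (∀ u ∈ V, ∀ j ∈ F \ B₁, row ψ u j (e u) = 0) ∧
      (∀ u ∈ V, ∀ j ∈ B₁, 0 < row ψ u j (e u)) := by
  classical
  rcases stiemke (fderiv ℝ ψ u₀ : E →ₗ[ℝ] (σ → ℝ)) F with h | ⟨w, hw1, hw2⟩
  · exact absurd h hF
  set B₁ := F.filter (fun j => 0 < fderiv ℝ ψ u₀ w j) with hB₁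
  obtain ⟨V, e, hV, hu₀V, hVU, he, he0, hek⟩ := exists_field hU hψ hu₀ hr (F \ B₁) w (by
    intro j hj
    rw [Finset.mem_sdiff, hB₁, Finset.mem_filter, not_and] at hj
    have h1 := hw1 j hj.1
    have h2 := hj.2 hj.1
    exact le_antisymm (not_lt.1 h2) h1)
  have hpos : ∀ᶠ u in 𝓝 u₀, ∀ j ∈ B₁, 0 < row ψ u j (e u) := by
    rw [Filter.eventually_all_finset]
    intro j hj
    have h1 : ContinuousAt (fun u => row ψ u j (e u)) u₀ := by
      have h2 : ContinuousAt (fun u => row ψ u j) u₀ :=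
        ((contDiffOn_row hU hψ j).continuousOn).continuousAt (hU.mem_nhds hu₀)
      have h3 : ContinuousAt e u₀ := he.continuousOn.continuousAt (hV.mem_nhds hu₀V)
      exact h2.clm_apply h3
    have h2 : 0 < row ψ u₀ j (e u₀) := by
      rw [he0]
      exact (Finset.mem_filter.1 hj).2
    exact h1.eventually (lt_mem_nhds h2)
  obtain ⟨V', hV', hV'o, hV'm⟩ := eventually_nhds_iff.1 hpos
  refine ⟨V ∩ V', e, B₁, hV.inter hV'o, ⟨hu₀V, hV'm⟩, fun u hu => hVU hu.1, he.mono inter_subset_left,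
    Finset.filter_subset _ _, ?_, fun u hu j hj => hek u hu.1 j hj, fun u hu j hj => hV' u hu.2 j hj⟩
  obtain ⟨j, hj, hj2⟩ := hw2
  exact ⟨j, Finset.mem_filter.2 ⟨hj, hj2⟩⟩

end

end Pool.Agent.Helper49.FA
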