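import Mathlib
import Pool.Agent.Helper49.FNsp
import Pool.Agent.Helper49.FBessel
import Pool.Agent.Helper49.FRank
import Pool.Agent.Helper49.FComb

/-! Decay and square summability of the Fourier coefficients of measures on patches. -/

set_option autoImplicit false
set_option linter.unusedSectionVars false

namespace Pool.Agent.Helper49.FA

open MeasureTheory Set Filter Topology Complex
open scoped ContDiff ComplexConjugate

variable {ι σ : Type*} [Fintype ι] [DecidableEq ι] [Fintype σ] [DecidableEq σ]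

/-- Fourier coefficients of the measure `φ du` pushed forward by `ψ` -/
noncomputable def vv (φ : (ι → ℝ) → ℂ) (ψ : (ι → ℝ) → (σ → ℝ)) (k : σ → ℤ) : ℂ :=
  ∫ u, φ u * chr k (ψ u)

/-- `F` carries a positive conormal at `u₀` -/
def Pos {E : Type*} [NormedAddCommGroup E] [NormedSpace ℝ E] (ψ : E → σ → ℝ) (u₀ : E) (F : Finset σ) : Prop :=
  ∃ n : σ → ℝ, (∀ j ∈ F, 0 < n j) ∧ (∀ j, j ∉ F → n j = 0) ∧ ∀ w, ∑ j, n j * fderiv ℝ ψ u₀ w j = 0

theorem hasFDerivAt_comb {ψ : (ι → ℝ) → (σ → ℝ)} {u : ι → ℝ} (h : DifferentiableAt ℝ ψ u) (κ : σ → ℝ) :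
    HasFDerivAt (fun v => ∑ j, κ j * ψ v j) (∑ j, κ j • row ψ u j) u := by
  have h1 : ∀ j, HasFDerivAt (fun v => ψ v j) (row ψ u j) u := fun j =>
    (ContinuousLinearMap.proj j : (σ → ℝ) →L[ℝ] ℝ).hasFDerivAt.comp u h.hasFDerivAt
  exact HasFDerivAt.fun_sum fun j _ => (h1 j).const_mul (κ j)

theorem fderiv_chr_comp {ψ : (ι → ℝ) → (σ → ℝ)} {u : ι → ℝ} (h : DifferentiableAt ℝ ψ u) (k : σ → ℤ)
    (w : ι → ℝ) :
    fderiv ℝ (fun v => chr k (ψ v)) u w = (I * ∑ j, (k j : ℂ) * (row ψ u j w : ℂ)) * chr k (ψ u) := by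
  have h1 := (hasFDerivAt_comb h (fun j => (k j : ℝ)))
  have h2 : HasFDerivAt (fun v => ((∑ j, (k j : ℝ) * ψ v j : ℝ) : ℂ)) _ u := ofRealCLM.hasFDerivAt.comp u h1
  have h3 := (h2.const_mul I).cexp
  have h4 : (fun v => chr k (ψ v)) = fun v => exp (I * ((∑ j, (k j : ℝ) * ψ v j : ℝ) : ℂ)) := by
    funext v
    rw [chr]
    push_cast
    rfl
  rw [h4, h3.fderiv]
  simp only [smul_apply, ContinuousLinearMap.comp_apply, smul_eq_mul, ofRealCLM_apply,
    FunLike.coe_sum, Finset.sum_apply, FunLike.coe_smul, Pi.smul_apply]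
  rw [chr]
  push_cast
  ring

/-- Rapid decay in the cones which carry no positive conormal. -/
theorem decay {ψ : (ι → ℝ) → (σ → ℝ)} {U : Set (ι → ℝ)} (hU : IsOpen U) (hψ : ContDiffOn ℝ ∞ ψ U)
    {u₀ : ι → ℝ} (hu₀ : u₀ ∈ U) (hr : RankConst ψ u₀) (F : Finset σ) (hF : ¬ Pos ψ u₀ F) :
    ∃ O : Set (ι → ℝ), IsOpen O ∧ u₀ ∈ O ∧ ∃ B₁ : Finset σ, B₁ ⊆ F ∧ B₁.Nonempty ∧ ∃ ε : ℝ, 0 < ε ∧
      ∀ φ : (ι → ℝ) → ℂ, ContDiff ℝ ∞ φ → HasCompactSupport φ → tsupport φ ⊆ O → ∀ M : ℕ,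
        ∃ C : ℝ, 0 ≤ C ∧ ∀ k : σ → ℕ, ∀ i ∈ B₁, 0 < k i → (∀ j ∈ B₁, k j ≤ k i) →
          (∀ j, j ∉ F → (k j : ℝ) ≤ ε * k i) → ‖vv φ ψ (fun j => (k j : ℤ))‖ ≤ C / (k i : ℝ) ^ M := by
  classical
  obtain ⟨V, e, B₁, hV, hu₀V, hVU, he, hB₁F, hB₁ne, hzero, hpos⟩ :=
    exists_positive_field hU hψ hu₀ hr F hF
  have hrc : ∀ j, ContinuousAt (fun u => row ψ u j (e u)) u₀ := by
    intro j
    have h2 : ContinuousAt (fun u => row ψ u j) u₀ :=
      ((contDiffOn_row hU hψ j).continuousOn).continuousAt (hU.mem_nhds hu₀)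
    have h3 : ContinuousAt e u₀ := he.continuousOn.continuousAt (hV.mem_nhds hu₀V)
    exact h2.clm_apply h3
  obtain ⟨j0, hj0, hmin⟩ := Finset.exists_min_image B₁ (fun j => row ψ u₀ j (e u₀)) hB₁ne
  set c : ℝ := row ψ u₀ j0 (e u₀) / 2 with hc
  have hcpos : 0 < c := by have := hpos u₀ hu₀V j0 hj0; rw [hc]; linarith
  set C' : ℝ := 1 + ∑ j, |row ψ u₀ j (e u₀)| with hC'
  have hC'1 : 1 ≤ C' := by
    rw [hC']; linarith [Finset.sum_nonneg (fun j (_ : j ∈ Finset.univ) => abs_nonneg (row ψ u₀ j (e u₀)))]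
  set N : ℝ := (Fintype.card σ : ℝ) with hN
  have hNnn : 0 ≤ N := Nat.cast_nonneg _
  set ε : ℝ := c / (2 * (N * C' + 1)) with hε
  have hεpos : 0 < ε := by rw [hε]; positivity
  have hεN : N * (ε * C') ≤ c / 2 := by
    have h1 : N * (ε * C') = c / 2 * ((N * C') / (N * C' + 1)) := by
      rw [hε]; field_simp
    rw [h1]
    have h2 : (N * C') / (N * C' + 1) ≤ 1 := by
      rw [div_le_one (by positivity)]; linarith
    nlinarith
  have e1 : ∀ᶠ u in 𝓝 u₀, ∀ j ∈ B₁, c < row ψ u j (e u) := by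
    rw [Filter.eventually_all_finset]
    intro j hj
    have h1 : c < row ψ u₀ j (e u₀) := by
      have h2 := hmin j hj
      have h3 := hpos u₀ hu₀V j0 hj0
      rw [hc]; linarith
    exact (hrc j).eventually (lt_mem_nhds h1)
  have e2 : ∀ᶠ u in 𝓝 u₀, ∀ j, |row ψ u j (e u)| < C' := by
    rw [Filter.eventually_all]
    intro j
    have h1 : |row ψ u₀ j (e u₀)| < C' := by
      have := Finset.single_le_sum (f := fun j => |row ψ u₀ j (e u₀)|) (fun j _ => abs_nonneg _)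
        (Finset.mem_univ j)
      rw [hC']; linarith
    exact (hrc j).abs.eventually (gt_mem_nhds h1)
  obtain ⟨O', hO', hO'o, hO'm⟩ := eventually_nhds_iff.1 (e1.and e2)
  refine ⟨V ∩ O', hV.inter hO'o, ⟨hu₀V, hO'm⟩, B₁, hB₁F, hB₁ne, ε, hεpos, ?_⟩
  intro φ hφ hφc hφO M
  -- the phase
  set p : (σ → ℝ) × (ι → ℝ) → ℝ := fun q => ∑ j, q.1 j * ψ q.2 j with hp
  have hpc : ContDiffOn ℝ ∞ p (univ ×ˢ V) := by
    apply ContDiffOn.sum
    intro j _
    have h1 : ContDiffOn ℝ ∞ (fun q : (σ → ℝ) × (ι → ℝ) => q.1 j) (univ ×ˢ V) :=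
      ((contDiff_apply ℝ ℝ j).comp contDiff_fst).contDiffOn
    have h2 : ContDiffOn ℝ ∞ (fun q : (σ → ℝ) × (ι → ℝ) => ψ q.2) (univ ×ˢ V) :=
      hψ.comp contDiffOn_snd fun q hq => hVU hq.2
    exact h1.mul (contDiffOn_pi.1 h2 j)
  have hpd : ∀ κ : σ → ℝ, ∀ y ∈ V, ∀ w : ι → ℝ, fderiv ℝ p (κ, y) (0, w) = ∑ j, κ j * row ψ y j w := by
    intro κ y hy w
    have h1 : DifferentiableAt ℝ p (κ, y) :=
      ((hpc (κ, y) ⟨mem_univ _, hy⟩).contDiffAt ((isOpen_univ.prod hV).mem_nhds ⟨mem_univ _, hy⟩)).differentiableAt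
        (by simp)
    have h2 : HasFDerivAt (fun z : ι → ℝ => (κ, z))
        ((0 : (ι → ℝ) →L[ℝ] (σ → ℝ)).prod (ContinuousLinearMap.id ℝ (ι → ℝ))) y :=
      (hasFDerivAt_const κ y).prodMk (hasFDerivAt_id y)
    have h3 := h1.hasFDerivAt.comp y h2
    have h4 : DifferentiableAt ℝ ψ y :=
      ((hψ y (hVU hy)).contDiffAt (hU.mem_nhds (hVU hy))).differentiableAt (by simp)
    have h5 := hasFDerivAt_comb h4 κ
    have h6 := h3.unique h5
    have h7 := DFunLike.congr_fun h6 w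
    simpa using h7
  -- the parameters
  set K : Set (σ → ℝ) := {κ | κ ∈ Icc (0 : σ → ℝ) 1 ∧ (∃ i ∈ B₁, κ i = 1) ∧ (∀ j, j ∉ F → κ j ≤ ε) ∧
    ∀ j ∈ F \ B₁, κ j = 0} with hK
  have hKc : IsCompact K := by
    have h1 : K = Icc (0 : σ → ℝ) 1 ∩ ((⋃ i ∈ B₁, {κ | κ i = 1}) ∩ ((⋂ j, {κ | j ∉ F → κ j ≤ ε}) ∩
        ⋂ j ∈ F \ B₁, {κ | κ j = 0})) := by
      ext κ
      simp only [hK, mem_ofPred_eq, mem_inter_iff, mem_iUnion, mem_iInter, exists_prop]
    rw [h1]
    apply isCompact_Icc.inter_right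
    apply IsClosed.inter
    · apply Set.Finite.isClosed_biUnion (Finset.finite_toSet B₁)
      intro i _
      exact isClosed_eq (continuous_apply i) continuous_const
    · apply IsClosed.inter
      · apply isClosed_iInter
        intro j
        by_cases hj : j ∉ F
        · simp only [hj, not_false_eq_true, true_implies]
          exact isClosed_le (continuous_apply j) continuous_const
        · have : {κ : σ → ℝ | j ∉ F → κ j ≤ ε} = univ := by
            ext κ; simp only [mem_ofPred_eq, mem_univ, iff_true]; exact fun h => absurd h hj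
          rw [this]; exact isClosed_univ
      · apply isClosed_iInter
        intro j
        apply isClosed_iInter
        intro _
        exact isClosed_eq (continuous_apply j) continuous_const
  have hne : ∀ κ ∈ K, ∀ y ∈ tsupport φ, fderiv ℝ p (κ, y) (0, e y) ≠ 0 := by
    rintro κ ⟨hκ, ⟨i, hi, hκi⟩, hκF, hκ0⟩ y hy
    have hyV := (hφO hy).1
    have hyO := hO' y (hφO hy).2
    rw [hpd κ y hyV]
    have h1 : ∀ j, (if j = i then c else 0) - ε * C' ≤ κ j * row ψ y j (e y) := by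
      intro j
      have hκj0 : 0 ≤ κ j := hκ.1 j
      by_cases hjF : j ∈ F
      · by_cases hjB : j ∈ B₁
        · have h2 := hyO.1 j hjB
          split_ifs with hji
          · rw [hji, hκi]
            rw [hji] at h2
            nlinarith [mul_pos hεpos (lt_of_lt_of_le one_pos hC'1)]
          · have := mul_nonneg hκj0 (hcpos.trans h2).le
            nlinarith [mul_pos hεpos (lt_of_lt_of_le one_pos hC'1)]
        · rw [hκ0 j (Finset.mem_sdiff.2 ⟨hjF, hjB⟩), zero_mul]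
          have hji : j ≠ i := fun h => hjB (h ▸ hi)
          rw [if_neg hji]
          nlinarith [mul_pos hεpos (lt_of_lt_of_le one_pos hC'1)]
      · have hji : j ≠ i := fun h => hjF (h ▸ hB₁F hi)
        rw [if_neg hji]
        have h2 := abs_lt.1 (hyO.2 j)
        have h3 := hκF j hjF
        have h4 : |κ j * row ψ y j (e y)| ≤ ε * C' := by
          rw [abs_mul, abs_of_nonneg hκj0]
          exact mul_le_mul h3 (hyO.2 j).le (abs_nonneg _) hεpos.le
        have h5 := (abs_le.1 h4).1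
        linarith
    have h2 : c / 2 ≤ ∑ j, κ j * row ψ y j (e y) := by
      calc c / 2 ≤ c - N * (ε * C') := by linarith
        _ = ∑ j, ((if j = i then c else 0) - ε * C') := by
            rw [Finset.sum_sub_distrib, Finset.sum_ite_eq', if_pos (Finset.mem_univ i), Finset.sum_const,
              nsmul_eq_mul, Finset.card_univ]
        _ ≤ _ := Finset.sum_le_sum fun j _ => h1 j
    linarith
  obtain ⟨C, hC0, hC⟩ := nsp hV hpc he hφ hφc (fun y hy => (hφO hy).1) hKc hne M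
  refine ⟨C, hC0, fun k i hi hki hkB hkF => ?_⟩
  have hkiR : (0 : ℝ) < k i := by exact_mod_cast hki
  set κ : σ → ℝ := fun j => if j ∈ F \ B₁ then 0 else (k j : ℝ) / k i with hκ
  set kF : σ → ℤ := fun j => if j ∈ F \ B₁ then (k j : ℤ) else 0 with hkF'
  have hεle : ∀ j, j ∉ F → κ j ≤ ε := by
    intro j hj
    have h1 : j ∉ F \ B₁ := fun h => hj (Finset.mem_sdiff.1 h).1
    simp only [hκ, if_neg h1]
    rw [div_le_iff₀ hkiR]
    exact hkF j hj
  have hε1 : ε ≤ 1 := by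
    have h1 : c ≤ C' := by
      have h2 := Finset.single_le_sum (f := fun j => |row ψ u₀ j (e u₀)|) (fun j _ => abs_nonneg _)
        (Finset.mem_univ j0)
      have h3 := le_abs_self (row ψ u₀ j0 (e u₀))
      have h4 := hpos u₀ hu₀V j0 hj0
      rw [hc, hC']; linarith
    have hN1 : 1 ≤ N := by
      rw [hN]
      exact_mod_cast Fintype.card_pos_iff.2 ⟨j0⟩
    rw [hε, div_le_one (by positivity)]
    nlinarith
  have hκK : κ ∈ K := by
    refine ⟨⟨fun j => ?_, fun j => ?_⟩, ⟨i, hi, ?_⟩, hεle, ?_⟩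
    · simp only [hκ, Pi.zero_apply]
      split_ifs
      · exact le_rfl
      · positivity
    · simp only [Pi.one_apply]
      by_cases hjF : j ∈ F
      · by_cases hjB : j ∈ B₁
        · have h1 : j ∉ F \ B₁ := fun h => (Finset.mem_sdiff.1 h).2 hjB
          simp only [hκ, if_neg h1]
          rw [div_le_one hkiR]
          exact_mod_cast hkB j hjB
        · simp only [hκ, if_pos (Finset.mem_sdiff.2 ⟨hjF, hjB⟩)]
          exact zero_le_one
      · exact (hεle j hjF).trans hε1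
    · have h1 : i ∉ F \ B₁ := fun h => (Finset.mem_sdiff.1 h).2 hi
      simp only [hκ, if_neg h1]
      exact div_self hkiR.ne'
    · intro j hj
      simp only [hκ, if_pos hj]
  have hmain := hC κ hκK (k i) hkiR (fun u => chr kF (ψ u)) (by
    have h1 : ContDiffOn ℝ ∞ (fun u => chr kF (ψ u)) V := (contDiff_chr kF).comp_contDiffOn (hψ.mono hVU)
    exact h1.of_le (by simp)) (fun y _ => (norm_chr _ _).le) (by
    intro y hy
    have h4 : DifferentiableAt ℝ ψ y :=
      ((hψ y (hVU hy)).contDiffAt (hU.mem_nhds (hVU hy))).differentiableAt (by simp)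
    rw [fderiv_chr_comp h4]
    have h5 : ∑ j, (kF j : ℂ) * (row ψ y j (e y) : ℂ) = 0 := by
      apply Finset.sum_eq_zero
      intro j _
      simp only [hkF']
      split_ifs with hj
      · rw [hzero y hy j hj]; simp
      · simp
    rw [h5]; simp)
  have h1 : vv φ ψ (fun j => (k j : ℤ)) = ∫ y, φ y * (chr kF (ψ y) * exp (I * ((k i : ℝ) : ℂ) * (p (κ, y) : ℂ))) := by
    rw [vv]
    congr 1
    funext y
    congr 1
    have hki0 : ((k i : ℕ) : ℂ) ≠ 0 := by exact_mod_cast hki.ne'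
    have h2 : ∑ j, (((k j : ℕ) : ℤ) : ℂ) * (ψ y j : ℂ)
        = ∑ j, (kF j : ℂ) * (ψ y j : ℂ) + (k i : ℂ) * (p (κ, y) : ℂ) := by
      rw [hp]
      push_cast
      rw [Finset.mul_sum, ← Finset.sum_add_distrib]
      apply Finset.sum_congr rfl
      intro j _
      by_cases hj : j ∈ F \ B₁
      · simp only [hκ, hkF', if_pos hj]
        simp
      · simp only [hκ, hkF', if_neg hj]
        push_cast
        field_simp
        simp
        ring
    rw [chr, chr, ← exp_add, h2]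
    congr 1
    push_cast
    ring
  rw [h1]
  exact hmain

end Pool.Agent.Helper49.FA
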