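import Mathlib
import Pool.Agent.Helper49.FDecay

/-! Thin patches carry measures of finite one-sided energy. -/

set_option autoImplicit false
set_option linter.unusedSectionVars false

namespace Pool.Agent.Helper49.FA

open MeasureTheory Set Filter Topology Complex Submodule
open scoped ContDiff ComplexConjugate

variable {ι σ : Type*} [Fintype ι] [DecidableEq ι] [Fintype σ] [DecidableEq σ]

theorem bessel_basis {ψ : (ι → ℝ) → (σ → ℝ)} {U : Set (ι → ℝ)} (hU : IsOpen U) (hψ : ContDiffOn ℝ ∞ ψ U)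
    {u₀ : ι → ℝ} (hu₀ : u₀ ∈ U) {J : Finset σ} (hJ : LinearIndepOn ℝ (row ψ u₀) (J : Set σ))
    (hspan : ∀ i, row ψ u₀ i ∈ span ℝ (row ψ u₀ '' (J : Set σ)))
    (himm : ∀ w, fderiv ℝ ψ u₀ w = 0 → w = 0) :
    ∃ O : Set (ι → ℝ), IsOpen O ∧ u₀ ∈ O ∧ ∀ φ : (ι → ℝ) → ℂ, Continuous φ → HasCompactSupport φ →
      tsupport φ ⊆ O → ∃ C : ℝ, 0 ≤ C ∧ ∀ S : Finset (σ → ℕ),
        (∀ k ∈ S, ∀ k' ∈ S, ∀ j, j ∉ J → k j = k' j) →
        ∑ k ∈ S, ‖vv φ ψ (fun j => (k j : ℤ))‖ ^ 2 ≤ C := by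
  classical
  have hψ0 : ContDiffAt ℝ ∞ ψ u₀ := (hψ u₀ hu₀).contDiffAt (hU.mem_nhds hu₀)
  have hψd : DifferentiableAt ℝ ψ u₀ := hψ0.differentiableAt (by simp)
  -- all rows vanish when those of `J` do
  have hall : ∀ w, (∀ j ∈ J, row ψ u₀ j w = 0) → w = 0 := by
    intro w hw
    apply himm
    funext i
    have h4 : span ℝ (row ψ u₀ '' (J : Set σ)) ≤
        LinearMap.ker (ContinuousLinearMap.apply ℝ ℝ w : ((ι → ℝ) →L[ℝ] ℝ) →ₗ[ℝ] ℝ) := by
      rw [span_le]
      rintro _ ⟨i, hi, rfl⟩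
      exact hw i hi
    exact h4 (hspan i)
  have hcard : Fintype.card ι = Fintype.card J := by
    have hinj : Function.Injective (rowMap ψ J u₀ : (ι → ℝ) →ₗ[ℝ] (J → ℝ)) := by
      rw [← LinearMap.ker_eq_bot, LinearMap.ker_eq_bot']
      intro w hw
      apply hall
      intro j hj
      exact congrFun hw ⟨j, hj⟩
    have hsurj : Function.Surjective (rowMap ψ J u₀ : (ι → ℝ) →ₗ[ℝ] (J → ℝ)) :=
      LinearMap.range_eq_top.1 (rowMap_surjective hJ)
    have := (LinearEquiv.ofBijective _ ⟨hinj, hsurj⟩).finrank_eq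
    simpa using this
  set e : ι ≃ J := Fintype.equivOfCardEq hcard with he
  set χ : (ι → ℝ) → (ι → ℝ) := fun u a => ψ u (e a) with hχ
  have hχc : ContDiffOn ℝ ∞ χ U := contDiffOn_pi.2 fun a => contDiffOn_pi.1 hψ (e a)
  have hχ0 : ContDiffAt ℝ 1 χ u₀ := ((hχc u₀ hu₀).contDiffAt (hU.mem_nhds hu₀)).of_le (by simp)
  have hχd : ∀ w a, fderiv ℝ χ u₀ w a = row ψ u₀ (e a) w := by
    intro w a
    have h1 : HasFDerivAt χ (ContinuousLinearMap.pi fun a => row ψ u₀ (e a)) u₀ := by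
      rw [hasFDerivAt_pi]
      intro a
      exact (ContinuousLinearMap.proj (e a : σ) : (σ → ℝ) →L[ℝ] ℝ).hasFDerivAt.comp u₀ hψd.hasFDerivAt
    rw [h1.fderiv]
    rfl
  have hdet : (fderiv ℝ χ u₀).det ≠ 0 := by
    intro h0
    have h1 := LinearMap.bot_lt_ker_of_det_eq_zero (f := (fderiv ℝ χ u₀ : (ι → ℝ) →ₗ[ℝ] (ι → ℝ))) h0
    apply h1.ne'
    rw [LinearMap.ker_eq_bot']
    intro w hw
    apply hall
    intro j hj
    have h2 := congrFun hw (e.symm ⟨j, hj⟩)
    have h3 := hχd w (e.symm ⟨j, hj⟩)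
    rw [Equiv.apply_symm_apply] at h3
    rw [← h3]
    exact h2
  obtain ⟨ρ, hρ, C, hC, hB⟩ := bessel hχ0 hdet
  refine ⟨Metric.ball u₀ ρ ∩ U, Metric.isOpen_ball.inter hU, ⟨Metric.mem_ball_self hρ, hu₀⟩, ?_⟩
  intro φ hφ hφc hφO
  obtain ⟨B, hφB⟩ := hφc.exists_bound_of_continuous hφ
  refine ⟨C * B ^ 2, by positivity, fun S hS => ?_⟩
  rcases S.eq_empty_or_nonempty with rfl | ⟨k', hk'⟩
  · simp; positivity
  set k0 : σ → ℤ := fun j => if j ∈ J then 0 else (k' j : ℤ) with hk0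
  set l : (σ → ℕ) → (ι → ℤ) := fun k a => (k (e a) : ℤ) with hl
  set g : (ι → ℝ) → ℂ := fun u => φ u * chr k0 (ψ u) with hg
  have hgc : Continuous g := by
    have : ContDiff ℝ 0 g := by
      apply contDiff_of_closed (isClosed_tsupport φ)
      · intro y hy
        simp only [hg]
        rw [image_eq_zero_of_notMem_tsupport hy, zero_mul]
      · intro y hy
        have hyU := (hφO hy).2
        have h1 : ContDiffAt ℝ 0 ψ y := ((hψ y hyU).contDiffAt (hU.mem_nhds hyU)).of_le (by simp)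
        have h2 : ContDiffAt ℝ 0 (fun u => chr k0 (ψ u)) y :=
          ((contDiff_chr k0).of_le (by simp)).contDiffAt.comp y h1
        exact (contDiff_zero.2 hφ).contDiffAt.mul h2
    exact this.continuous
  have hkey : ∀ k ∈ S, vv φ ψ (fun j => (k j : ℤ)) = ∫ u, g u * chr (l k) (χ u) := by
    intro k hk
    rw [vv]
    congr 1
    funext u
    simp only [hg, mul_assoc]
    congr 1
    rw [chr, chr, chr, ← exp_add]
    congr 1
    rw [← mul_add]
    congr 1
    have h1 : ∑ a, ((l k a : ℤ) : ℂ) * (χ u a : ℂ) = ∑ j ∈ J, ((k j : ℕ) : ℂ) * (ψ u j : ℂ) := by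
      rw [← Finset.sum_attach J]
      have := Equiv.sum_comp e (fun j : J => ((k j : ℕ) : ℂ) * (ψ u j : ℂ))
      rw [Finset.univ_eq_attach] at this
      rw [← this]
      apply Finset.sum_congr rfl
      intro a _
      simp [hl, hχ]
    rw [h1]
    have h2 : ∑ j, ((k0 j : ℤ) : ℂ) * (ψ u j : ℂ) = ∑ j ∈ Finset.univ.filter (fun j => j ∉ J), ((k j : ℕ) : ℂ) * (ψ u j : ℂ) := by
      rw [Finset.sum_filter]
      apply Finset.sum_congr rfl
      intro j _
      simp only [hk0]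
      by_cases hj : j ∈ J
      · simp [hj]
      · simp only [hj, if_false, not_false_eq_true, if_true]
        rw [hS k hk k' hk' j hj]
        simp
    rw [h2]
    have h3 := Finset.sum_filter_add_sum_filter_not Finset.univ (fun j => j ∉ J)
      (fun j => ((k j : ℕ) : ℂ) * (ψ u j : ℂ))
    have h4 : (Finset.univ.filter fun j => ¬ j ∉ J) = J := by ext j; simp
    rw [h4] at h3
    rw [h3]
    simp
  have hinj : Set.InjOn l (S : Set (σ → ℕ)) := by
    intro k hk k2 hk2 h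
    funext j
    by_cases hj : j ∈ J
    · have := congrFun h (e.symm ⟨j, hj⟩)
      simp only [hl, Equiv.apply_symm_apply] at this
      exact_mod_cast this
    · exact hS k hk k2 hk2 j hj
  have hmain := hB g B hgc.aestronglyMeasurable (fun y => by
    simp only [hg, norm_mul, norm_chr, mul_one]
    exact hφB y) (fun y hy => by
    simp only [hg]
    rw [image_eq_zero_of_notMem_tsupport (fun h => hy (Metric.ball_subset_closedBall (hφO h).1)), zero_mul])
    (S.image l)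
  rw [Finset.sum_image hinj] at hmain
  refine le_trans (le_of_eq ?_) hmain
  apply Finset.sum_congr rfl
  intro k hk
  rw [hkey k hk]

/-- weighted summability coming from Bessel's inequality -/
theorem summable_of_fibers {J : Finset σ} (f : (σ → ℕ) → ℝ) (hf : ∀ k, 0 ≤ f k) (C : ℝ)
    (hC : ∀ S : Finset (σ → ℕ), (∀ k ∈ S, ∀ k' ∈ S, ∀ j, j ∉ J → k j = k' j) → ∑ k ∈ S, f k ≤ C)
    (s : ℝ) (hs : 1 < s) :
    Summable fun k : σ → ℕ => f k * ∏ j ∈ Jᶜ, (1 + (k j : ℝ)) ^ (-s) := by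
  classical
  set r : (σ → ℕ) → ({j // j ∉ J} → ℕ) := fun k j => k j with hr
  have hCnn : 0 ≤ C := by simpa using hC ∅ (by simp)
  set w : ({j // j ∉ J} → ℕ) → ℝ := fun q => ∏ j, (1 + (q j : ℝ)) ^ (-s) with hw
  have hw0 : ∀ q, 0 ≤ w q := fun q => Finset.prod_nonneg fun j _ => by positivity
  have hwk : ∀ k : σ → ℕ, ∏ j ∈ Jᶜ, (1 + (k j : ℝ)) ^ (-s) = w (r k) := by
    intro k
    rw [hw]
    simp only [hr]
    rw [← Finset.prod_subtype Jᶜ (p := fun j => j ∉ J) (fun x => by simp) (fun j => (1 + (k j : ℝ)) ^ (-s))]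
  have hsw : Summable w := by
    apply summable_pi_prod (fun (_ : {j // j ∉ J}) (n : ℕ) => (1 + (n : ℝ)) ^ (-s))
    · intro i a; positivity
    · intro i
      have h1 := (Real.summable_nat_rpow (p := -s)).2 (by linarith)
      have h2 := (summable_nat_add_iff 1).2 h1
      refine h2.congr fun n => ?_
      push_cast
      rw [add_comm]
  apply summable_of_sum_le (c := C * ∑' q, w q)
  · intro k
    exact mul_nonneg (hf k) (Finset.prod_nonneg fun j _ => by positivity)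
  · intro S
    have h1 : ∑ k ∈ S, f k * ∏ j ∈ Jᶜ, (1 + (k j : ℝ)) ^ (-s)
        = ∑ q ∈ S.image r, ∑ k ∈ S.filter (fun k => r k = q), f k * w q := by
      rw [← Finset.sum_fiberwise_of_maps_to (g := r) (t := S.image r) fun k hk =>
        Finset.mem_image_of_mem _ hk]
      apply Finset.sum_congr rfl
      intro q _
      apply Finset.sum_congr rfl
      intro k hk
      rw [hwk, (Finset.mem_filter.1 hk).2]
    rw [h1]
    calc ∑ q ∈ S.image r, ∑ k ∈ S.filter (fun k => r k = q), f k * w q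
        ≤ ∑ q ∈ S.image r, C * w q := by
          apply Finset.sum_le_sum
          intro q _
          rw [← Finset.sum_mul]
          apply mul_le_mul_of_nonneg_right _ (hw0 q)
          apply hC
          intro k hk k' hk' j hj
          have h2 := (Finset.mem_filter.1 hk).2
          have h3 := (Finset.mem_filter.1 hk').2
          have h4 := congrFun (h2.trans h3.symm) ⟨j, hj⟩
          exact h4
      _ = C * ∑ q ∈ S.image r, w q := by rw [Finset.mul_sum]
      _ ≤ C * ∑' q, w q := by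
          apply mul_le_mul_of_nonneg_left _ hCnn
          exact hsw.sum_le_tsum _ fun q _ => hw0 q

/-- largest coordinate -/
def Nk (k : σ → ℕ) : ℕ := Finset.univ.sup k

/-- logarithmic size of the coordinates, relative to the largest one -/
noncomputable def mm (k : σ → ℕ) (j : σ) : ℝ := Real.log (1 + k j) / Real.log (1 + Nk k)

theorem le_Nk (k : σ → ℕ) (j : σ) : k j ≤ Nk k := Finset.le_sup (Finset.mem_univ j)

theorem Nk_pos {k : σ → ℕ} (hk : k ≠ 0) : 0 < Nk k := by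
  obtain ⟨j, hj⟩ := Function.ne_iff.1 hk
  exact lt_of_lt_of_le (Nat.pos_of_ne_zero hj) (le_Nk k j)

theorem exists_Nk {k : σ → ℕ} (hk : k ≠ 0) : ∃ j, k j = Nk k := by
  obtain ⟨i, hi⟩ := Function.ne_iff.1 hk
  obtain ⟨j, -, hj⟩ := Finset.exists_mem_eq_sup Finset.univ ⟨i, Finset.mem_univ i⟩ k
  exact ⟨j, hj.symm⟩

theorem log_Nk_pos {k : σ → ℕ} (hk : k ≠ 0) : 0 < Real.log (1 + Nk k) := by
  apply Real.log_pos
  have : (0 : ℝ) < Nk k := by exact_mod_cast Nk_pos hk
  linarith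

theorem exp_mm {k : σ → ℕ} (hk : k ≠ 0) (j : σ) :
    Real.exp (mm k j * Real.log (1 + Nk k)) = 1 + k j := by
  rw [mm, div_mul_cancel₀ _ (log_Nk_pos hk).ne', Real.exp_log (by positivity)]

theorem rpow_mm {k : σ → ℕ} (hk : k ≠ 0) (j : σ) (s : ℝ) :
    (1 + (k j : ℝ)) ^ s = Real.exp (s * mm k j * Real.log (1 + Nk k)) := by
  rw [← exp_mm hk j, ← Real.exp_mul]
  congr 1
  ring

/-- the compact set of directions -/
def Dir (σ : Type*) [Fintype σ] : Set (σ → ℝ) := {μ | μ ∈ Icc (0 : σ → ℝ) 1 ∧ ∃ j, μ j = 1}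

theorem isCompact_Dir : IsCompact (Dir σ) := by
  have h1 : Dir σ = Icc (0 : σ → ℝ) 1 ∩ ⋃ j, {μ | μ j = 1} := by
    ext μ
    simp only [Dir, mem_ofPred_eq, mem_inter_iff, mem_iUnion]
  rw [h1]
  apply isCompact_Icc.inter_right
  apply isClosed_iUnion_of_finite
  intro j
  exact isClosed_eq (continuous_apply j) continuous_const

theorem mm_mem {k : σ → ℕ} (hk : k ≠ 0) : mm k ∈ Dir σ := by
  have hL := log_Nk_pos hk
  refine ⟨⟨fun j => ?_, fun j => ?_⟩, ?_⟩
  · exact div_nonneg (Real.log_nonneg (by simp)) hL.le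
  · show Real.log (1 + k j) / Real.log (1 + Nk k) ≤ 1
    rw [div_le_one hL]
    apply Real.log_le_log (by positivity)
    have : (k j : ℝ) ≤ Nk k := by exact_mod_cast le_Nk k j
    linarith
  · obtain ⟨j, hj⟩ := exists_Nk hk
    exact ⟨j, by rw [mm, hj, div_self hL.ne']⟩

end Pool.Agent.Helper49.FA
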