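import Mathlib
import Pool.Agent.Helper49.FPartI

/-! Finite one-sided energy of measures on thin patches. -/

set_option autoImplicit false
set_option linter.unusedSectionVars false

namespace Pool.Agent.Helper49.FA

open MeasureTheory Set Filter Topology Complex Submodule
open scoped ContDiff ComplexConjugate

variable {ι σ : Type*} [Fintype ι] [DecidableEq ι] [Fintype σ] [DecidableEq σ]

theorem summable_two : Summable fun k : σ → ℕ => ∏ j, (1 + (k j : ℝ)) ^ (-2 : ℝ) := by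
  apply summable_pi_prod (fun (_ : σ) (n : ℕ) => (1 + (n : ℝ)) ^ (-2 : ℝ))
  · intro i a; positivity
  · intro i
    have h1 := (Real.summable_nat_rpow (p := -2)).2 (by norm_num)
    have h2 := (summable_nat_add_iff 1).2 h1
    refine h2.congr fun n => ?_
    push_cast
    rw [add_comm]

theorem norm_vv_le (φ : (ι → ℝ) → ℂ) (ψ : (ι → ℝ) → (σ → ℝ)) (k : σ → ℤ) :
    ‖vv φ ψ k‖ ≤ ∫ u, ‖φ u‖ := by
  rw [vv]
  refine (norm_integral_le_integral_norm _).trans (le_of_eq ?_)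
  congr 1
  funext u
  rw [norm_mul, norm_chr, mul_one]

theorem prod_neg_le_one {t : ℝ} (ht : 0 < t) (k : σ → ℕ) : ∏ j, (1 + (k j : ℝ)) ^ (-t) ≤ 1 := by
  apply Finset.prod_le_one
  · intro j _; positivity
  · intro j _
    apply Real.rpow_le_one_of_one_le_of_nonpos
    · simp
    · linarith

/-- one region: directions with a bad level set -/
theorem region_bad (v : (σ → ℕ) → ℂ) (A : ℝ) (hA : ∀ k, ‖v k‖ ≤ A) {t : ℝ} (ht : 0 < t) (μ : σ → ℝ)
    {a : ℝ} (ha : 0 < a) (ha1 : a ≤ 1) (B₁ : Finset σ) (hB₁ : ∀ j ∈ B₁, a ≤ μ j) (hne : B₁.Nonempty)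
    {ε : ℝ} (hε : 0 < ε)
    (hdec : ∀ M : ℕ, ∃ C : ℝ, 0 ≤ C ∧ ∀ k : σ → ℕ, ∀ i ∈ B₁, 0 < k i → (∀ j ∈ B₁, k j ≤ k i) →
          (∀ j, μ j < a → (k j : ℝ) ≤ ε * k i) → ‖v k‖ ≤ C / (k i : ℝ) ^ M) :
    ∃ δ : ℝ, 0 < δ ∧ Summable fun k : σ → ℕ =>
      if k ≠ 0 ∧ dist (mm k) μ < δ then ‖v k‖ ^ 2 * ∏ j, (1 + (k j : ℝ)) ^ (-t) else 0 := by
  classical
  -- the gap
  obtain ⟨g, hg, hgap⟩ : ∃ g : ℝ, 0 < g ∧ ∀ j, μ j < a → μ j ≤ a - g := by
    by_cases hex : (Finset.univ.filter fun j => μ j < a).Nonempty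
    · obtain ⟨i, hi, hmax⟩ := Finset.exists_max_image _ μ hex
      refine ⟨a - μ i, by have := (Finset.mem_filter.1 hi).2; linarith, fun j hj => ?_⟩
      have := hmax j (Finset.mem_filter.2 ⟨Finset.mem_univ _, hj⟩)
      linarith
    · refine ⟨1, one_pos, fun j hj => ?_⟩
      exact absurd ⟨j, Finset.mem_filter.2 ⟨Finset.mem_univ _, hj⟩⟩ hex
  set δ : ℝ := min (a / 2) (g / 4) with hδ
  have hδpos : 0 < δ := lt_min (by linarith) (by linarith)
  have hδa : δ ≤ a / 2 := min_le_left _ _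
  have hδg : δ ≤ g / 4 := min_le_right _ _
  refine ⟨δ, hδpos, ?_⟩
  set d : ℕ := Fintype.card σ with hd
  obtain ⟨M, hM⟩ := exists_nat_ge (2 * (d : ℝ) / a)
  obtain ⟨C, hC, hCb⟩ := hdec M
  -- threshold
  obtain ⟨N₀, hN₀⟩ : ∃ N₀ : ℕ, ∀ N : ℕ, N₀ ≤ N →
      2 / ε ≤ Real.exp (2 * δ * Real.log (1 + N)) ∧ 2 ≤ Real.exp ((a - δ) * Real.log (1 + N)) := by
    have h1 : Tendsto (fun N : ℕ => Real.log (1 + (N : ℝ))) atTop atTop :=
      Real.tendsto_log_atTop.comp (tendsto_atTop_add_const_left _ _ tendsto_natCast_atTop_atTop)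
    have h2 : Tendsto (fun N : ℕ => Real.exp (2 * δ * Real.log (1 + N))) atTop atTop :=
      Real.tendsto_exp_atTop.comp (h1.const_mul_atTop (by positivity))
    have h3 : Tendsto (fun N : ℕ => Real.exp ((a - δ) * Real.log (1 + N))) atTop atTop :=
      Real.tendsto_exp_atTop.comp (h1.const_mul_atTop (by linarith))
    exact eventually_atTop.1 ((h2.eventually_ge_atTop _).and (h3.eventually_ge_atTop _))
  set C' : ℝ := (C * 2 ^ M) ^ 2 + A ^ 2 * ((1 + (N₀ : ℝ)) ^ (2 : ℝ)) ^ d with hC'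
  have hC'0 : 0 ≤ C' := by positivity
  apply Summable.of_nonneg_of_le _ _ (summable_two.mul_left C')
  · intro k
    split_ifs
    · positivity
    · exact le_rfl
  · intro k
    split_ifs with hk
    swap
    · exact mul_nonneg hC'0 (Finset.prod_nonneg fun j _ => by positivity)
    obtain ⟨hk0, hkd⟩ := hk
    have hL := log_Nk_pos hk0
    set L := Real.log (1 + (Nk k : ℝ)) with hLdef
    have hmm : ∀ j, |mm k j - μ j| < δ := by
      intro j
      have h1 := (dist_pi_lt_iff hδpos).1 hkd j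
      rwa [Real.dist_eq] at h1
    have hp0 : 0 ≤ ∏ j, (1 + (k j : ℝ)) ^ (-2 : ℝ) := Finset.prod_nonneg fun j _ => by positivity
    have hv0 : 0 ≤ ‖v k‖ ^ 2 := by positivity
    have hstep : ‖v k‖ ^ 2 * ∏ j, (1 + (k j : ℝ)) ^ (-t) ≤ ‖v k‖ ^ 2 := by
      calc ‖v k‖ ^ 2 * ∏ j, (1 + (k j : ℝ)) ^ (-t) ≤ ‖v k‖ ^ 2 * 1 :=
            mul_le_mul_of_nonneg_left (prod_neg_le_one ht k) hv0
        _ = _ := mul_one _
    refine hstep.trans ?_
    by_cases hN : N₀ ≤ Nk k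
    · -- rapid decay
      obtain ⟨hE1, hE2⟩ := hN₀ (Nk k) hN
      rw [← hLdef] at hE1 hE2
      obtain ⟨i, hi, hmax⟩ := Finset.exists_max_image B₁ k hne
      have hi1 : a - δ < mm k i := by
        have h1 := (abs_lt.1 (hmm i)).1
        have h2 := hB₁ i hi
        linarith
      have hki : Real.exp ((a - δ) * L) ≤ 1 + k i := by
        rw [← exp_mm hk0 i, ← hLdef]
        apply Real.exp_le_exp.2
        exact mul_le_mul_of_nonneg_right hi1.le hL.le
      have hki2 : Real.exp ((a - δ) * L) / 2 ≤ k i := by linarith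
      have hkipos : 0 < k i := by
        have : (0 : ℝ) < k i := lt_of_lt_of_le (by linarith) hki2
        exact_mod_cast this
      have hkj : ∀ j, μ j < a → (k j : ℝ) ≤ ε * k i := by
        intro j hj
        have h1 : mm k j ≤ a - 3 * δ := by
          have h2 := (abs_lt.1 (hmm j)).2
          have h3 := hgap j hj
          linarith
        have h2 : 1 + (k j : ℝ) ≤ Real.exp ((a - 3 * δ) * L) := by
          rw [← exp_mm hk0 j, ← hLdef]
          apply Real.exp_le_exp.2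
          exact mul_le_mul_of_nonneg_right h1 hL.le
        have h3 : Real.exp ((a - δ) * L) = Real.exp ((a - 3 * δ) * L) * Real.exp (2 * δ * L) := by
          rw [← Real.exp_add]; congr 1; ring
        have h4 : (2 / ε) * Real.exp ((a - 3 * δ) * L) ≤ Real.exp ((a - δ) * L) := by
          rw [h3, mul_comm]
          exact mul_le_mul_of_nonneg_left hE1 (Real.exp_pos _).le
        have h5 : Real.exp ((a - 3 * δ) * L) ≤ ε * (Real.exp ((a - δ) * L) / 2) := by
          have h6 : (2 / ε) * Real.exp ((a - 3 * δ) * L) * (ε / 2) ≤ Real.exp ((a - δ) * L) * (ε / 2) :=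
            mul_le_mul_of_nonneg_right h4 (by positivity)
          have h7 : (2 / ε) * Real.exp ((a - 3 * δ) * L) * (ε / 2) = Real.exp ((a - 3 * δ) * L) := by
            field_simp
          rw [h7] at h6
          linarith
        calc (k j : ℝ) ≤ Real.exp ((a - 3 * δ) * L) := by linarith
          _ ≤ ε * (Real.exp ((a - δ) * L) / 2) := h5
          _ ≤ ε * k i := mul_le_mul_of_nonneg_left hki2 hε.le
      have hb := hCb k i hi hkipos hmax hkj
      have hkiR : (0 : ℝ) < k i := by exact_mod_cast hkipos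
      have h1 : ‖v k‖ ≤ (C * 2 ^ M) * Real.exp (-((d : ℝ) * L)) := by
        refine hb.trans ?_
        rw [div_le_iff₀ (by positivity)]
        have h2 : (Real.exp ((a - δ) * L) / 2) ^ M ≤ (k i : ℝ) ^ M :=
          pow_le_pow_left₀ (by positivity) hki2 M
        have h3 : Real.exp ((d : ℝ) * L) ≤ Real.exp ((a - δ) * L) ^ M := by
          rw [← Real.exp_nat_mul]
          apply Real.exp_le_exp.2
          have h4 : (d : ℝ) ≤ M * (a - δ) := by
            rw [div_le_iff₀ ha] at hM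
            have h5 : (M : ℝ) * (a / 2) ≤ M * (a - δ) :=
              mul_le_mul_of_nonneg_left (by linarith) (Nat.cast_nonneg _)
            linarith
          nlinarith
        rw [div_pow] at h2
        have h6 : Real.exp ((d : ℝ) * L) ≤ 2 ^ M * (k i : ℝ) ^ M := by
          rw [div_le_iff₀ (by positivity)] at h2
          linarith
        have h7 : 1 ≤ Real.exp (-((d : ℝ) * L)) * (2 ^ M * (k i : ℝ) ^ M) := by
          rw [Real.exp_neg, inv_mul_eq_div, one_le_div (Real.exp_pos _)]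
          exact h6
        calc C = C * 1 := (mul_one _).symm
          _ ≤ C * (Real.exp (-((d : ℝ) * L)) * (2 ^ M * (k i : ℝ) ^ M)) :=
              mul_le_mul_of_nonneg_left h7 hC
          _ = _ := by ring
      have h2 : ‖v k‖ ^ 2 ≤ (C * 2 ^ M) ^ 2 * Real.exp (-((d : ℝ) * L)) ^ 2 := by
        rw [← mul_pow]
        exact pow_le_pow_left₀ (norm_nonneg _) h1 2
      have h3 : Real.exp (-((d : ℝ) * L)) ^ 2 ≤ ∏ j, (1 + (k j : ℝ)) ^ (-2 : ℝ) := by
        have h4 : Real.exp (-((d : ℝ) * L)) ^ 2 = ∏ _j : σ, Real.exp (-2 * L) := by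
          rw [Finset.prod_const, Finset.card_univ, ← hd, ← Real.exp_nat_mul, ← Real.exp_nat_mul]
          congr 1
          push_cast
          ring
        rw [h4]
        apply Finset.prod_le_prod
        · intro j _; positivity
        · intro j _
          rw [rpow_mm hk0, ← hLdef]
          apply Real.exp_le_exp.2
          have h5 : mm k j ≤ 1 := (mm_mem hk0).1.2 j
          nlinarith
      calc ‖v k‖ ^ 2 ≤ (C * 2 ^ M) ^ 2 * ∏ j, (1 + (k j : ℝ)) ^ (-2 : ℝ) :=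
            h2.trans (mul_le_mul_of_nonneg_left h3 (by positivity))
        _ ≤ C' * ∏ j, (1 + (k j : ℝ)) ^ (-2 : ℝ) := by
            apply mul_le_mul_of_nonneg_right _ hp0
            rw [hC']
            have : 0 ≤ A ^ 2 * ((1 + (N₀ : ℝ)) ^ (2 : ℝ)) ^ d := by positivity
            linarith
    · push Not at hN
      have h1 : 1 ≤ ((1 + (N₀ : ℝ)) ^ (2 : ℝ)) ^ d * ∏ j, (1 + (k j : ℝ)) ^ (-2 : ℝ) := by
        have h2 : ((1 + (N₀ : ℝ)) ^ (2 : ℝ)) ^ d * ∏ j, (1 + (k j : ℝ)) ^ (-2 : ℝ)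
            = ∏ j, ((1 + (N₀ : ℝ)) ^ (2 : ℝ) * (1 + (k j : ℝ)) ^ (-2 : ℝ)) := by
          rw [Finset.prod_mul_distrib, Finset.prod_const, Finset.card_univ]
        rw [h2]
        rw [show (1 : ℝ) = ∏ _j : σ, (1 : ℝ) by simp]
        apply Finset.prod_le_prod (fun _ _ => zero_le_one)
        intro j _
        rw [Real.rpow_neg (by positivity), ← div_eq_mul_inv, one_le_div (by positivity)]
        apply Real.rpow_le_rpow (by positivity) _ (by norm_num)
        have h3 : k j ≤ N₀ := (le_Nk k j).trans hN.le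
        have h4 : (k j : ℝ) ≤ N₀ := by exact_mod_cast h3
        linarith
      have hA0 : 0 ≤ A := (norm_nonneg _).trans (hA k)
      calc ‖v k‖ ^ 2 ≤ A ^ 2 := pow_le_pow_left₀ (norm_nonneg _) (hA k) 2
        _ = A ^ 2 * 1 := (mul_one _).symm
        _ ≤ A ^ 2 * (((1 + (N₀ : ℝ)) ^ (2 : ℝ)) ^ d * ∏ j, (1 + (k j : ℝ)) ^ (-2 : ℝ)) :=
            mul_le_mul_of_nonneg_left h1 (by positivity)
        _ = (A ^ 2 * ((1 + (N₀ : ℝ)) ^ (2 : ℝ)) ^ d) * ∏ j, (1 + (k j : ℝ)) ^ (-2 : ℝ) := by ring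
        _ ≤ C' * ∏ j, (1 + (k j : ℝ)) ^ (-2 : ℝ) := by
            apply mul_le_mul_of_nonneg_right _ hp0
            rw [hC']
            have : 0 ≤ (C * 2 ^ M) ^ 2 := by positivity
            linarith

/-- one region: directions all whose level sets are good -/
theorem region_good (v : (σ → ℕ) → ℂ) {t : ℝ} (ht : 0 < t) (μ : σ → ℝ) (hμ0 : ∀ j, 0 ≤ μ j) (J : Finset σ)
    (hlt : ∑ j ∈ Jᶜ, μ j < t * ∑ j, μ j) (C : ℝ)
    (hC : ∀ S : Finset (σ → ℕ), (∀ k ∈ S, ∀ k' ∈ S, ∀ j, j ∉ J → k j = k' j) → ∑ k ∈ S, ‖v k‖ ^ 2 ≤ C) :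
    ∃ δ : ℝ, 0 < δ ∧ Summable fun k : σ → ℕ =>
      if k ≠ 0 ∧ dist (mm k) μ < δ then ‖v k‖ ^ 2 * ∏ j, (1 + (k j : ℝ)) ^ (-t) else 0 := by
  classical
  set A := ∑ j ∈ Jᶜ, μ j with hA
  set B := ∑ j, μ j with hB
  set d : ℝ := (Fintype.card σ : ℝ) with hd
  have hd0 : 0 ≤ d := Nat.cast_nonneg _
  have hA0 : 0 ≤ A := Finset.sum_nonneg fun j _ => hμ0 j
  set G := t * B - A with hG
  have hGpos : 0 < G := by rw [hG]; linarith
  set η : ℝ := min 1 (G / (A + 2 * d + t * d + 1)) with hη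
  have hden : 0 < A + 2 * d + t * d + 1 := by positivity
  have hηpos : 0 < η := lt_min one_pos (by positivity)
  have hη1 : η ≤ 1 := min_le_left _ _
  have hηG : η * (A + 2 * d + t * d) ≤ G := by
    have h1 : η * (A + 2 * d + t * d + 1) ≤ G := by
      rw [← le_div_iff₀ hden]; exact min_le_right _ _
    nlinarith
  refine ⟨η, hηpos, ?_⟩
  have hsum := summable_of_fibers (J := J) (fun k => ‖v k‖ ^ 2) (fun k => by positivity) C hC (1 + η)
    (by linarith)
  apply Summable.of_nonneg_of_le _ _ hsum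
  · intro k
    split_ifs
    · positivity
    · exact le_rfl
  · intro k
    have hr0 : 0 ≤ ‖v k‖ ^ 2 * ∏ j ∈ Jᶜ, (1 + (k j : ℝ)) ^ (-(1 + η)) := by positivity
    split_ifs with hk
    swap
    · exact hr0
    obtain ⟨hk0, hkd⟩ := hk
    have hL := log_Nk_pos hk0
    set L := Real.log (1 + (Nk k : ℝ)) with hLdef
    have hmm : ∀ j, |mm k j - μ j| < η := by
      intro j
      have h1 := (dist_pi_lt_iff hηpos).1 hkd j
      rwa [Real.dist_eq] at h1
    apply mul_le_mul_of_nonneg_left _ (by positivity)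
    have h1 : ∏ j, (1 + (k j : ℝ)) ^ (-t) = Real.exp (-t * (∑ j, mm k j) * L) := by
      rw [Finset.prod_congr rfl fun j _ => rpow_mm hk0 j (-t), ← Real.exp_sum, ← hLdef]
      congr 1
      rw [Finset.mul_sum, Finset.sum_mul]
    have h2 : ∏ j ∈ Jᶜ, (1 + (k j : ℝ)) ^ (-(1 + η)) = Real.exp (-(1 + η) * (∑ j ∈ Jᶜ, mm k j) * L) := by
      rw [Finset.prod_congr rfl fun j _ => rpow_mm hk0 j (-(1 + η)), ← Real.exp_sum, ← hLdef]
      congr 1
      rw [Finset.mul_sum, Finset.sum_mul]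
    rw [h1, h2]
    apply Real.exp_le_exp.2
    apply mul_le_mul_of_nonneg_right _ hL.le
    have h3 : B - d * η ≤ ∑ j, mm k j := by
      have h4 : ∑ j, (μ j - η) ≤ ∑ j, mm k j := by
        apply Finset.sum_le_sum
        intro j _
        have := (abs_lt.1 (hmm j)).1
        linarith
      rw [Finset.sum_sub_distrib, Finset.sum_const, nsmul_eq_mul, Finset.card_univ] at h4
      exact h4
    have h5 : ∑ j ∈ Jᶜ, mm k j ≤ A + d * η := by
      have h4 : ∑ j ∈ Jᶜ, mm k j ≤ ∑ j ∈ Jᶜ, (μ j + η) := by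
        apply Finset.sum_le_sum
        intro j _
        have := (abs_lt.1 (hmm j)).2
        linarith
      rw [Finset.sum_add_distrib, Finset.sum_const, nsmul_eq_mul] at h4
      have h6 : ((Jᶜ : Finset σ).card : ℝ) ≤ d := by
        rw [hd]; exact_mod_cast Finset.card_le_univ _
      nlinarith
    have h7 : (1 + η) * ∑ j ∈ Jᶜ, mm k j ≤ (1 + η) * (A + d * η) :=
      mul_le_mul_of_nonneg_left h5 (by linarith)
    have h8 : t * (B - d * η) ≤ t * ∑ j, mm k j := mul_le_mul_of_nonneg_left h3 ht.le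
    have h9 : (1 + η) * (A + d * η) ≤ t * (B - d * η) := by
      have h10 : η * η ≤ η := by nlinarith
      have h11 : d * (η * η) ≤ d * η := mul_le_mul_of_nonneg_left h10 hd0
      nlinarith
    linarith

/-- **Finite one-sided energy on thin patches.** -/
theorem summable_energy {ψ : (ι → ℝ) → (σ → ℝ)} {U : Set (ι → ℝ)} (hU : IsOpen U) (hψ : ContDiffOn ℝ ∞ ψ U)
    {u₀ : ι → ℝ} (hu₀ : u₀ ∈ U) (hr : RankConst ψ u₀) (himm : ∀ w, fderiv ℝ ψ u₀ w = 0 → w = 0)
    {t : ℝ} (ht : 0 < t)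
    (hthin : ∀ F : Finset σ, F.Nonempty → Pos ψ u₀ F → (F.card : ℝ) - rk ψ u₀ F < t * F.card) :
    ∃ O : Set (ι → ℝ), IsOpen O ∧ u₀ ∈ O ∧ ∀ φ : (ι → ℝ) → ℂ, ContDiff ℝ ∞ φ → HasCompactSupport φ →
      tsupport φ ⊆ O → Summable fun k : σ → ℕ =>
        ‖vv φ ψ (fun j => (k j : ℤ))‖ ^ 2 * ∏ j, (1 + (k j : ℝ)) ^ (-t) := by
  classical
  -- neighbourhoods for the bad sets
  have hbad : ∀ F : Finset σ, ∃ O : Set (ι → ℝ), IsOpen O ∧ u₀ ∈ O ∧ (¬ Pos ψ u₀ F →
      ∃ B₁ : Finset σ, B₁ ⊆ F ∧ B₁.Nonempty ∧ ∃ ε : ℝ, 0 < ε ∧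
      ∀ φ : (ι → ℝ) → ℂ, ContDiff ℝ ∞ φ → HasCompactSupport φ → tsupport φ ⊆ O → ∀ M : ℕ,
        ∃ C : ℝ, 0 ≤ C ∧ ∀ k : σ → ℕ, ∀ i ∈ B₁, 0 < k i → (∀ j ∈ B₁, k j ≤ k i) →
          (∀ j, j ∉ F → (k j : ℝ) ≤ ε * k i) → ‖vv φ ψ (fun j => (k j : ℤ))‖ ≤ C / (k i : ℝ) ^ M) := by
    intro F
    by_cases hF : Pos ψ u₀ F
    · exact ⟨univ, isOpen_univ, mem_univ _, fun h => absurd hF h⟩
    · obtain ⟨O, h1, h2, h3⟩ := decay hU hψ hu₀ hr F hF
      exact ⟨O, h1, h2, fun _ => h3⟩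
  choose O₁ hO₁o hO₁m hO₁ using hbad
  have hgood : ∀ J : Finset σ, ∃ O : Set (ι → ℝ), IsOpen O ∧ u₀ ∈ O ∧
      ((LinearIndepOn ℝ (row ψ u₀) (J : Set σ) ∧
        ∀ i, row ψ u₀ i ∈ span ℝ (row ψ u₀ '' (J : Set σ))) →
      ∀ φ : (ι → ℝ) → ℂ, Continuous φ → HasCompactSupport φ →
      tsupport φ ⊆ O → ∃ C : ℝ, 0 ≤ C ∧ ∀ S : Finset (σ → ℕ),
        (∀ k ∈ S, ∀ k' ∈ S, ∀ j, j ∉ J → k j = k' j) →
        ∑ k ∈ S, ‖vv φ ψ (fun j => (k j : ℤ))‖ ^ 2 ≤ C) := by
    intro J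
    by_cases hJ : LinearIndepOn ℝ (row ψ u₀) (J : Set σ) ∧
        ∀ i, row ψ u₀ i ∈ span ℝ (row ψ u₀ '' (J : Set σ))
    · obtain ⟨O, h1, h2, h3⟩ := bessel_basis hU hψ hu₀ hJ.1 hJ.2 himm
      exact ⟨O, h1, h2, fun _ => h3⟩
    · exact ⟨univ, isOpen_univ, mem_univ _, fun h => absurd h hJ⟩
  choose O₂ hO₂o hO₂m hO₂ using hgood
  refine ⟨(⋂ F, O₁ F) ∩ ⋂ J, O₂ J, (isOpen_iInter_of_finite hO₁o).inter (isOpen_iInter_of_finite hO₂o),
    ⟨mem_iInter.2 hO₁m, mem_iInter.2 hO₂m⟩, ?_⟩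
  intro φ hφ hφc hφO
  set v : (σ → ℕ) → ℂ := fun k => vv φ ψ (fun j => (k j : ℤ)) with hv
  set A := ∫ u, ‖φ u‖ with hA
  have hvA : ∀ k, ‖v k‖ ≤ A := fun k => norm_vv_le φ ψ _
  have hregion : ∀ μ ∈ Dir σ, ∃ δ : ℝ, 0 < δ ∧ Summable fun k : σ → ℕ =>
      if k ≠ 0 ∧ dist (mm k) μ < δ then ‖v k‖ ^ 2 * ∏ j, (1 + (k j : ℝ)) ^ (-t) else 0 := by
    intro μ hμ
    have hμ0 : ∀ j, 0 ≤ μ j := fun j => hμ.1.1 j
    have hμ1 : ∀ j, μ j ≤ 1 := fun j => hμ.1.2 j
    by_cases hall : ∀ i, 0 < μ i → Pos ψ u₀ (Finset.univ.filter fun j => μ i ≤ μ j)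
    · -- good
      obtain ⟨J, hJ1, hJ2, hJ3⟩ := exists_adapted (row ψ u₀) μ
      obtain ⟨C, -, hC⟩ := hO₂ J ⟨hJ1, hJ2⟩ φ hφ.continuous hφc (fun y hy => mem_iInter.1 (hφO hy).2 J)
      apply region_good v ht μ hμ0 J _ C hC
      -- the inequality
      have hlay := (layer_neg (fun j => (if j ∈ J then (0 : ℝ) else 1) - t) (Fintype.card σ) μ hμ0
        (Finset.card_le_univ _) (by
          rintro a ha ⟨i, rfl⟩
          set F := Finset.univ.filter fun j => μ i ≤ μ j with hF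
          have hFne : F.Nonempty := ⟨i, Finset.mem_filter.2 ⟨Finset.mem_univ _, le_rfl⟩⟩
          have h1 := hthin F hFne (hall i ha)
          have h2 : rk ψ u₀ F = (J.filter fun j => μ i ≤ μ j).card := by
            apply rk_eq_of_span
            · intro j hj
              exact Finset.mem_filter.2 ⟨Finset.mem_univ _, (Finset.mem_filter.1 hj).2⟩
            · exact hJ1.mono (by
                intro j hj
                exact (Finset.mem_filter.1 (Finset.mem_coe.1 hj)).1)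
            · intro j hj
              exact hJ3 (μ i) (Finset.mem_image_of_mem _ (Finset.mem_univ i)) j (Finset.mem_filter.1 hj).2
          rw [h2] at h1
          rw [Finset.sum_sub_distrib, Finset.sum_const, nsmul_eq_mul]
          have h3 : ∑ j ∈ F, (if j ∈ J then (0 : ℝ) else 1) = (F.card : ℝ) - (J.filter fun j => μ i ≤ μ j).card := by
            have h4 : ∀ j, (if j ∈ J then (0 : ℝ) else 1) = 1 - (if j ∈ J then 1 else 0) := by
              intro j; split_ifs <;> simp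
            rw [Finset.sum_congr rfl fun j _ => h4 j, Finset.sum_sub_distrib, Finset.sum_const, nsmul_eq_mul,
              mul_one, Finset.sum_ite_mem]
            congr 1
            rw [Finset.sum_const, nsmul_eq_mul, mul_one]
            congr 2
            ext j
            simp [hF, and_comm]
          rw [h3]
          linarith)).2
      obtain ⟨i, hi⟩ := hμ.2
      have h5 := hlay ⟨i, by rw [hi]; exact one_pos⟩
      have h6 : ∑ j, μ j * ((if j ∈ J then (0 : ℝ) else 1) - t) = ∑ j ∈ Jᶜ, μ j - t * ∑ j, μ j := by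
        have h7 : ∀ j, μ j * ((if j ∈ J then (0 : ℝ) else 1) - t) = (if j ∈ Jᶜ then μ j else 0) - t * μ j := by
          intro j
          by_cases hj : j ∈ J
          · simp [hj]; ring
          · simp [hj]; ring
        rw [Finset.sum_congr rfl fun j _ => h7 j, Finset.sum_sub_distrib, Finset.sum_ite_mem,
          Finset.univ_inter, Finset.mul_sum]
      rw [h6] at h5
      linarith
    · -- bad
      push Not at hall
      obtain ⟨i, hi, hbad⟩ := hall
      set F := Finset.univ.filter fun j => μ i ≤ μ j with hF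
      obtain ⟨B₁, hB₁F, hB₁ne, ε, hε, hdec⟩ := hO₁ F hbad
      apply region_bad v A hvA ht μ hi (hμ1 i) B₁ (fun j hj => (Finset.mem_filter.1 (hB₁F hj)).2) hB₁ne hε
      intro M
      obtain ⟨C, hC, hCb⟩ := hdec φ hφ hφc (fun y hy => mem_iInter.1 (hφO hy).1 F) M
      refine ⟨C, hC, fun k i' hi' hki hkB hkj => hCb k i' hi' hki hkB fun j hj => hkj j ?_⟩
      by_contra hcon
      push Not at hcon
      exact hj (Finset.mem_filter.2 ⟨Finset.mem_univ _, hcon⟩)
  -- compactness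
  choose δ hδ hsum using hregion
  obtain ⟨T, hT⟩ := isCompact_Dir.elim_nhds_subcover' (fun μ hμ => Metric.ball μ (δ μ hμ))
    (fun μ hμ => Metric.ball_mem_nhds μ (hδ μ hμ))
  have hS : Summable fun k : σ → ℕ => (if k = 0 then ‖v k‖ ^ 2 * ∏ j, (1 + (k j : ℝ)) ^ (-t) else 0) +
      ∑ μ ∈ T, (if k ≠ 0 ∧ dist (mm k) (μ : σ → ℝ) < δ μ μ.2 then
        ‖v k‖ ^ 2 * ∏ j, (1 + (k j : ℝ)) ^ (-t) else 0) := by
    apply Summable.add
    · apply summable_of_ne_finset_zero (s := {0})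
      intro k hk
      rw [if_neg (by simpa using hk)]
    · exact summable_sum fun μ _ => hsum μ μ.2
  apply Summable.of_nonneg_of_le (fun k => by positivity) _ hS
  intro k
  have hnn : 0 ≤ ‖v k‖ ^ 2 * ∏ j, (1 + (k j : ℝ)) ^ (-t) := by positivity
  have hsumnn : 0 ≤ ∑ μ ∈ T, (if k ≠ 0 ∧ dist (mm k) (μ : σ → ℝ) < δ μ μ.2 then
        ‖v k‖ ^ 2 * ∏ j, (1 + (k j : ℝ)) ^ (-t) else 0) :=
    Finset.sum_nonneg fun μ _ => by split_ifs; exacts [hnn, le_rfl]
  by_cases hk : k = 0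
  · rw [if_pos hk]
    exact le_add_of_nonneg_right hsumnn
  · rw [if_neg hk, zero_add]
    obtain ⟨μ, hμT, hμ⟩ : ∃ μ ∈ T, mm k ∈ Metric.ball (μ : σ → ℝ) (δ μ μ.2) := by
      have h1 := hT (mm_mem hk)
      simpa using h1
    calc ‖v k‖ ^ 2 * ∏ j, (1 + (k j : ℝ)) ^ (-t)
        = (if k ≠ 0 ∧ dist (mm k) (μ : σ → ℝ) < δ μ μ.2 then
          ‖v k‖ ^ 2 * ∏ j, (1 + (k j : ℝ)) ^ (-t) else 0) := by
          rw [if_pos ⟨hk, Metric.mem_ball.1 hμ⟩]
      _ ≤ _ := Finset.single_le_sum (f := fun μ : Dir σ => if k ≠ 0 ∧ dist (mm k) (μ : σ → ℝ) < δ μ μ.2 then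
          ‖v k‖ ^ 2 * ∏ j, (1 + (k j : ℝ)) ^ (-t) else 0)
          (fun μ _ => by split_ifs; exacts [hnn, le_rfl]) hμT

end Pool.Agent.Helper49.FA
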