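import Mathlib
import Pool.Agent.Helper49.FDefs
import Pool.Agent.Helper49.FEnergy
import Pool.Agent.Helper49.CycFunc

/-! Thin patches give noncyclicity. -/

set_option autoImplicit false
set_option linter.unusedSectionVars false

namespace Pool.Agent.Helper49.FA

open MeasureTheory Set Filter Topology Submodule MvPolynomial
open scoped ContDiff ComplexConjugate
open Pool.Agent.Helper49.Cyc

variable {d : ℕ} {E : Type*} [NormedAddCommGroup E] [NormedSpace ℝ E] [FiniteDimensional ℝ E]

/-- vectors supported in a finite set -/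
def suppF (F : Finset (Fin d)) : Submodule ℝ (Fin d → ℝ) where
  carrier := {m | ∀ j, j ∉ F → m j = 0}
  add_mem' := by
    intro a b ha hb j hj
    rw [Pi.add_apply, ha j hj, hb j hj, add_zero]
  zero_mem' := by intro j _; rfl
  smul_mem' := by
    intro c a ha j hj
    rw [Pi.smul_apply, ha j hj, smul_zero]

theorem suppIn_eq (n : Fin d → ℝ) : suppIn n = suppF (Finset.univ.filter fun j => n j ≠ 0) := by
  ext m
  constructor
  · intro h j hj
    apply h
    by_contra hne
    exact hj (Finset.mem_filter.2 ⟨Finset.mem_univ _, hne⟩)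
  · intro h j hj
    apply h
    intro h'
    exact (Finset.mem_filter.1 h').2 hj

/-- the dimension of the conormals supported in `F` -/
theorem finrank_conormal (ψ : E → (Fin d → ℝ)) (u : E) (F : Finset (Fin d)) :
    Module.finrank ℝ ↥(conormal (fderiv ℝ ψ u) ⊓ suppF F) + rk ψ u F = F.card := by
  classical
  set R : (F → ℝ) →ₗ[ℝ] (E →L[ℝ] ℝ) := Fintype.linearCombination ℝ (fun j : F => row ψ u j) with hR
  have hrange : LinearMap.range R = span ℝ (row ψ u '' (F : Set (Fin d))) := by
    rw [hR, Fintype.range_linearCombination]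
    congr 1
    ext x
    simp
  have hker : Module.finrank ℝ (LinearMap.ker R) = Module.finrank ℝ ↥(conormal (fderiv ℝ ψ u) ⊓ suppF F) := by
    apply LinearEquiv.finrank_eq
    refine LinearEquiv.ofBijective (LinearMap.codRestrict _
      ((LinearMap.pi fun j => if h : j ∈ F then LinearMap.proj (⟨j, h⟩ : F) else 0 :
        (F → ℝ) →ₗ[ℝ] (Fin d → ℝ)).comp (LinearMap.ker R).subtype) ?_) ⟨?_, ?_⟩
    · rintro ⟨c, hc⟩
      rw [LinearMap.mem_ker] at hc
      refine ⟨?_, ?_⟩
      · intro w
        have h1 := DFunLike.congr_fun hc w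
        rw [hR, Fintype.linearCombination_apply] at h1
        simp only [FunLike.coe_sum, Finset.sum_apply, FunLike.coe_smul, Pi.smul_apply, smul_eq_mul,
          zero_apply, row_apply] at h1
        rw [← h1]
        have h2 : ∀ j, (if h : j ∈ F then c ⟨j, h⟩ else 0) * fderiv ℝ ψ u w j
            = if h : j ∈ F then c ⟨j, h⟩ * fderiv ℝ ψ u w j else 0 := by
          intro j; split_ifs <;> simp
        have h3 : ∀ j, ((LinearMap.pi fun j => if h : j ∈ F then LinearMap.proj (⟨j, h⟩ : F) else 0 :
            (F → ℝ) →ₗ[ℝ] (Fin d → ℝ)).comp (LinearMap.ker R).subtype) ⟨c, hc⟩ j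
            = if h : j ∈ F then c ⟨j, h⟩ else 0 := by
          intro j
          simp only [LinearMap.comp_apply, LinearMap.pi_apply]
          split_ifs <;> simp
        simp only [h3, h2]
        rw [← Finset.sum_subset (Finset.subset_univ F)]
        · rw [← Finset.sum_attach F]
          apply Finset.sum_congr rfl
          intro j _
          simp
        · intro j _ hj
          rw [dif_neg hj]
      · intro j hj
        simp [hj]
    · intro a b hab
      have h1 := congrArg Subtype.val hab
      apply Subtype.ext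
      funext j
      have h2 := congrFun h1 j
      simpa using h2
    · rintro ⟨m, hm1, hm2⟩
      refine ⟨⟨fun j => m j, ?_⟩, ?_⟩
      · rw [LinearMap.mem_ker]
        ext w
        rw [hR, Fintype.linearCombination_apply]
        simp only [FunLike.coe_sum, Finset.sum_apply, FunLike.coe_smul, Pi.smul_apply, smul_eq_mul,
          zero_apply, row_apply]
        rw [← hm1 w, ← Finset.sum_subset (Finset.subset_univ F)]
        · rw [← Finset.sum_attach F]
          rfl
        · intro j _ hj
          rw [hm2 j hj, zero_mul]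
      · apply Subtype.ext
        funext j
        by_cases hj : j ∈ F
        · simp [hj]
        · simp only [LinearMap.codRestrict_apply, LinearMap.comp_apply, LinearMap.pi_apply, dif_neg hj]
          exact (hm2 j hj).symm
  have h1 := LinearMap.finrank_range_add_finrank_ker R
  rw [hker, hrange, Module.finrank_fintype_fun_eq_card, Fintype.card_coe] at h1
  rw [rk]
  omega

theorem finrank_conormal_cast (ψ : E → (Fin d → ℝ)) (u : E) (F : Finset (Fin d)) :
    (Module.finrank ℝ ↥(conormal (fderiv ℝ ψ u) ⊓ suppF F) : ℝ) = (F.card : ℝ) - rk ψ u F := by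
  have h1 := finrank_conormal ψ u F
  have h2 : ((Module.finrank ℝ ↥(conormal (fderiv ℝ ψ u) ⊓ suppF F) : ℕ) : ℝ) + (rk ψ u F : ℝ) = F.card := by
    exact_mod_cast h1
  linarith

/-- thinness in terms of ranks -/
theorem thin_iff (t : ℝ) (ψ : E → (Fin d → ℝ)) (u : E) :
    Thin t (fderiv ℝ ψ u) ↔
      ∀ F : Finset (Fin d), F.Nonempty → Pos ψ u F → (F.card : ℝ) - rk ψ u F < t * F.card := by
  classical
  constructor
  · rintro h F ⟨j, hj⟩ ⟨n, hn1, hn2, hn3⟩
    have hF : (Finset.univ.filter fun j => n j ≠ 0) = F := by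
      ext i
      simp only [Finset.mem_filter, Finset.mem_univ, true_and]
      constructor
      · intro h'
        by_contra hcon
        exact h' (hn2 i hcon)
      · intro h'
        exact (hn1 i h').ne'
    have h1 := h n hn3 (fun i => by
      by_cases hi : i ∈ F
      · exact (hn1 i hi).le
      · exact (hn2 i hi).ge) (fun h0 => by
      have := hn1 j hj
      rw [h0] at this
      exact lt_irrefl _ this)
    rw [suppIn_eq, hF, finrank_conormal_cast] at h1
    exact h1
  · intro h n hn hn0 hne
    rw [suppIn_eq, finrank_conormal_cast]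
    apply h
    · obtain ⟨j, hj⟩ := Function.ne_iff.1 hne
      exact ⟨j, Finset.mem_filter.2 ⟨Finset.mem_univ _, hj⟩⟩
    · refine ⟨n, fun j hj => lt_of_le_of_ne (hn0 j) (Ne.symm (Finset.mem_filter.1 hj).2), ?_, hn⟩
      intro j hj
      by_contra hne'
      exact hj (Finset.mem_filter.2 ⟨Finset.mem_univ _, hne'⟩)

/-- **Thin patches give noncyclicity.** -/
theorem not_shiftCyclic_of_patch {t : ℝ} (ht : 0 < t) (P : MvPolynomial (Fin d) ℂ) {s : ℕ}
    {U : Set (Fin s → ℝ)} {ψ : (Fin s → ℝ) → (Fin d → ℝ)} (hP : Patch P s U ψ)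
    (hthin : ∀ u ∈ U, Thin t (fderiv ℝ ψ u)) : ¬ ShiftCyclic t P := by
  classical
  obtain ⟨u₀, hu₀, hr⟩ := exists_rankConst hP.isOpen hP.nonempty hP.smooth
  obtain ⟨O, hO, hu₀O, hsum⟩ := summable_energy hP.isOpen hP.smooth hu₀ hr
    (fun w hw => hP.immersion u₀ hu₀ (by rw [hw, map_zero])) ht ((thin_iff t ψ u₀).1 (hthin u₀ hu₀))
  -- a bump function
  obtain ⟨ρ, hρ, hball⟩ := Metric.isOpen_iff.1 (hO.inter hP.isOpen) u₀ ⟨hu₀O, hu₀⟩
  set b : ContDiffBump u₀ := ⟨ρ / 4, ρ / 2, by positivity, by linarith⟩ with hb
  set φ : (Fin s → ℝ) → ℂ := fun u => ((b u : ℝ) : ℂ) with hφ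
  have hφs : ContDiff ℝ ∞ φ := Complex.ofRealCLM.contDiff.comp b.contDiff
  have hφt : tsupport φ ⊆ Metric.closedBall u₀ (ρ / 2) := by
    have h1 : tsupport φ ⊆ tsupport (b : (Fin s → ℝ) → ℝ) := by
      apply closure_mono
      intro u hu
      simp only [Function.mem_support, hφ, ne_eq, Complex.ofReal_eq_zero] at hu ⊢
      exact hu
    rw [b.tsupport_eq] at h1
    exact h1
  have hφc : HasCompactSupport φ := (isCompact_closedBall u₀ (ρ / 2)).of_isClosed_subset
    (isClosed_tsupport φ) hφt
  have hφOU : tsupport φ ⊆ O ∩ U := hφt.trans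
    ((Metric.closedBall_subset_ball (by linarith)).trans hball)
  have hS := hsum φ hφs hφc fun y hy => (hφOU hy).1
  set v : (Fin d →₀ ℕ) → ℂ := fun k => vv φ ψ (fun j => (k j : ℤ)) with hv
  -- summability in the form of the criterion
  have hS' : Summable fun k : Fin d →₀ ℕ => ‖v k‖ ^ 2 / weight t k := by
    have h1 := (Finsupp.equivFunOnFinite : (Fin d →₀ ℕ) ≃ (Fin d → ℕ)).summable_iff.2 hS
    refine h1.congr fun k => ?_
    simp only [Function.comp, hv, weight, Finsupp.equivFunOnFinite_apply, div_eq_mul_inv]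
    congr 1
    rw [← Finset.prod_inv_distrib]
    apply Finset.prod_congr rfl
    intro j _
    rw [Real.rpow_neg (by positivity)]
  apply not_shiftCyclic_of_seq t P v (∑' k, ‖v k‖ ^ 2 / weight t k)
    (fun s => hS'.sum_le_tsum s fun k _ => div_nonneg (by positivity) (weight_pos t k).le) _ 0 _
  · -- `v` annihilates `P`
    intro k
    have hint : ∀ l : Fin d → ℤ, Integrable fun u => φ u * chr l (ψ u) := by
      intro l
      have hc : Continuous fun u => φ u * chr l (ψ u) := by
        have : ContDiff ℝ 0 fun u => φ u * chr l (ψ u) := by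
          apply contDiff_of_closed (isClosed_tsupport φ)
          · intro y hy
            rw [image_eq_zero_of_notMem_tsupport hy, zero_mul]
          · intro y hy
            have hyU := (hφOU hy).2
            have h1 : ContDiffAt ℝ 0 ψ y :=
              ((hP.smooth y hyU).contDiffAt (hP.isOpen.mem_nhds hyU)).of_le (by simp)
            have h2 : ContDiffAt ℝ 0 (fun u => chr l (ψ u)) y :=
              ((contDiff_chr l).of_le (by simp)).contDiffAt.comp y h1
            exact (hφs.of_le (by simp)).contDiffAt.mul h2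
        exact this.continuous
      apply hc.integrable_of_hasCompactSupport
      exact HasCompactSupport.intro hφc fun y hy => by
        rw [image_eq_zero_of_notMem_tsupport hy, zero_mul]
    have h1 : ∑ β ∈ P.support, P.coeff β * v (k + β)
        = ∫ u, ∑ β ∈ P.support, P.coeff β * (φ u * chr (fun j => (((k + β) j : ℕ) : ℤ)) (ψ u)) := by
      rw [integral_finsetSum _ fun β _ => (hint _).const_mul _]
      apply Finset.sum_congr rfl
      intro β _
      rw [integral_const_mul]
      rfl
    rw [h1]
    have h2 : ∀ u, ∑ β ∈ P.support, P.coeff β * (φ u * chr (fun j => (((k + β) j : ℕ) : ℤ)) (ψ u)) = 0 := by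
      intro u
      by_cases hu : u ∈ tsupport φ
      · have hz := hP.zero u (hφOU hu).2
        rw [eval_eq'] at hz
        have h3 : ∀ β : Fin d →₀ ℕ, chr (fun j => (((k + β) j : ℕ) : ℤ)) (ψ u)
            = chr (fun j => ((k j : ℕ) : ℤ)) (ψ u) * ∏ j, Complex.exp (Complex.I * (ψ u j : ℂ)) ^ β j := by
          intro β
          have h4 : (fun j => (((k + β) j : ℕ) : ℤ)) = (fun j => ((k j : ℕ) : ℤ)) + fun j => ((β j : ℕ) : ℤ) := by
            funext j; simp
          rw [h4, chr_add]
          congr 1
          rw [chr_eq_prod]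
          apply Finset.prod_congr rfl
          intro j _
          rw [← Complex.exp_nat_mul]
          congr 1
          push_cast
          ring
        have h5 : ∑ β ∈ P.support, P.coeff β * (φ u * chr (fun j => (((k + β) j : ℕ) : ℤ)) (ψ u))
            = φ u * chr (fun j => ((k j : ℕ) : ℤ)) (ψ u) *
              ∑ β ∈ P.support, P.coeff β * ∏ j, Complex.exp (Complex.I * (ψ u j : ℂ)) ^ β j := by
          rw [Finset.mul_sum]
          apply Finset.sum_congr rfl
          intro β _
          rw [h3]
          ring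
        rw [h5, hz, mul_zero]
      · rw [image_eq_zero_of_notMem_tsupport hu]
        simp
    simp only [h2, integral_zero]
  · -- `v 0 ≠ 0`
    have h1 : v 0 = ∫ u, φ u := by
      simp only [hv, vv]
      congr 1
      funext u
      have : (fun j => (((0 : Fin d →₀ ℕ) j : ℕ) : ℤ)) = 0 := by funext j; simp
      rw [this, chr_zero, mul_one]
    rw [h1]
    have h2 : ∫ u, φ u = ((∫ u, b u : ℝ) : ℂ) := integral_complex_ofReal
    rw [h2]
    have h3 : 0 < ∫ u, b u := b.integral_pos
    exact_mod_cast h3.ne'

end Pool.Agent.Helper49.FA
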