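import Mathlib
import Pool.Agent.Helper49.FDist
import Pool.Agent.Helper49.FThin

/-! Definitions for the second half of the classification. -/

set_option autoImplicit false

namespace Pool.Agent.Helper49.FA

open MeasureTheory Set Filter Topology Complex
open MvPolynomial (monomial pderiv)
open scoped ContDiff ComplexConjugate

variable {n : ℕ}

/-- the multidegree of a polynomial -/
noncomputable def dg (q : MvPolynomial (Fin n) ℂ) : Fin n →₀ ℕ :=
  Finsupp.equivFunOnFinite.symm fun j => q.degreeOf j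

/-- the reflection of a polynomial in the torus: `z^D conj (q (1 / conj z))` -/
noncomputable def rv (q : MvPolynomial (Fin n) ℂ) : MvPolynomial (Fin n) ℂ :=
  ∑ α ∈ q.support, monomial (dg q - α) (conj (q.coeff α))

/-- `𝔮` is the ideal of all polynomials which kill the distribution `W` -/
structure Adm (𝔮 : Ideal (MvPolynomial (Fin n) ℂ)) (W : ((Fin n → ℝ) → ℂ) → ℂ) (M : ℕ) : Prop where
  dist : IsDist W M
  kill : ∀ q ∈ 𝔮, ∀ φ, Tst φ → W (fun θ => pe q θ * φ θ) = 0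
  mem : ∀ g, (∀ φ, Tst φ → W (fun θ => pe g θ * φ θ) = 0) → g ∈ 𝔮

/-- the graph of the functions `β j`, `j ∉ J`, as a map defined on the whole space -/
def Psi (J : Finset (Fin n)) (β : Fin n → (Fin n → ℝ) → ℝ) (θ : Fin n → ℝ) : Fin n → ℝ :=
  fun k => if k ∈ J then θ k else β k θ

/-- there is a patch on which all elements of `𝔮` vanish and which is thin everywhere -/
def QPatch (t : ℝ) (𝔮 : Ideal (MvPolynomial (Fin n) ℂ)) : Prop :=
  ∃ (s : ℕ) (U : Set (Fin s → ℝ)) (ψ : (Fin s → ℝ) → (Fin n → ℝ)), IsOpen U ∧ U.Nonempty ∧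
    ContDiff ℝ ∞ ψ ∧ (∀ u ∈ U, Function.Injective (fderiv ℝ ψ u)) ∧
    (∀ u ∈ U, Thin t (fderiv ℝ ψ u)) ∧ ∀ q ∈ 𝔮, ∀ u ∈ U, pe q (ψ u) = 0

/-- the core statement -/
def CoreStmt (t : ℝ) : Prop :=
  ∀ (n : ℕ) (𝔮 : Ideal (MvPolynomial (Fin n) ℂ)) (u : MvPolynomial (Fin n) ℂ → ℂ) (K : ℝ)
    (P : Fin n → MvPolynomial (Fin n) ℂ) (c : Fin n → ℂ),
    𝔮.IsPrime → 0 ≤ K → Good t K 𝔮 u → (∀ q, (∀ f, u (q * f) = 0) → q ∈ 𝔮) → (∀ i, P i ∈ 𝔮) →
    (∀ i, (P i).coeff 0 = 1) →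
    (∀ i, ∀ z : Fin n → ℂ, (∀ j, ‖z j‖ < 1) → MvPolynomial.eval z (P i) ≠ 0) →
    (∀ i, ‖c i‖ ≤ 1) → (∀ i, setv i (c i) (P i) ∉ 𝔮) → QPatch t 𝔮

/-- substitution: the variable `κ i` becomes `X i`, the other variables get the values `y j` -/
noncomputable def sub {d : ℕ} (κ : Fin n → Fin d) (y : Fin d → ℂ) :
    MvPolynomial (Fin d) ℂ →ₐ[ℂ] MvPolynomial (Fin n) ℂ :=
  MvPolynomial.aeval (Function.extend κ MvPolynomial.X fun j => MvPolynomial.C (y j))

end Pool.Agent.Helper49.FA
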