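import Mathlib
import Pool.Agent.Helper49.FCoreDefs
import Pool.Agent.Helper57.FASupp

/-! Reflections; points of the support of the distribution. -/

set_option autoImplicit false

namespace Pool.Agent.Helper49.FA

open MeasureTheory Set Filter Topology Complex
open MvPolynomial (monomial pderiv)
open scoped ContDiff ComplexConjugate

variable {n : ℕ}

theorem le_dg (q : MvPolynomial (Fin n) ℂ) {α : Fin n →₀ ℕ} (hα : α ∈ q.support) : α ≤ dg q := by
  intro j
  show α j ≤ q.degreeOf j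
  exact MvPolynomial.monomial_le_degreeOf j hα

theorem pe_monomial (α : Fin n →₀ ℕ) (a : ℂ) (θ : Fin n → ℝ) : pe (monomial α a) θ = a * chr (zz α) θ := by
  rw [pe, MvPolynomial.eval_monomial, Finsupp.prod_fintype _ _ (by simp), chr_eq_prod]
  congr 1
  apply Finset.prod_congr rfl
  intro j _
  rw [← exp_nat_mul]
  congr 1
  simp [zz]
  ring

theorem pe_sum {κ : Type*} (s : Finset κ) (f : κ → MvPolynomial (Fin n) ℂ) (θ : Fin n → ℝ) :
    pe (∑ i ∈ s, f i) θ = ∑ i ∈ s, pe (f i) θ := by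
  simp [pe, map_sum]

theorem pe_rv (q : MvPolynomial (Fin n) ℂ) (θ : Fin n → ℝ) :
    pe (rv q) θ = chr (zz (dg q)) θ * conj (pe q θ) := by
  rw [rv, pe_sum, pe_eq q, map_sum, Finset.mul_sum]
  apply Finset.sum_congr rfl
  intro α hα
  rw [pe_monomial, map_mul, conj_chr]
  have h1 : zz (dg q - α) = zz (dg q) + -zz α := by
    funext j
    have h2 := le_dg q hα j
    simp only [zz, Finsupp.coe_tsub, Pi.sub_apply, Pi.add_apply, Pi.neg_apply]
    omega
  rw [h1, chr_add]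
  ring

theorem vars_rv (q : MvPolynomial (Fin n) ℂ) : (rv q).vars ⊆ q.vars := by
  classical
  intro j hj
  rw [MvPolynomial.mem_vars_iff_mem_support] at hj
  obtain ⟨γ, hγ, hjγ⟩ := hj
  have h1 : ∃ α ∈ q.support, γ ∈ (monomial (dg q - α) (conj (q.coeff α)) : MvPolynomial (Fin n) ℂ).support := by
    have h2 := MvPolynomial.support_sum (s := q.support)
      (f := fun α => (monomial (dg q - α) (conj (q.coeff α)) : MvPolynomial (Fin n) ℂ)) hγ
    rw [Finset.mem_biUnion] at h2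
    exact h2
  obtain ⟨α, hα, hγα⟩ := h1
  have h3 : γ = dg q - α := by
    have h4 := MvPolynomial.support_monomial_subset hγα
    rwa [Finset.mem_singleton] at h4
  rw [Finsupp.mem_support_iff, h3, Finsupp.coe_tsub, Pi.sub_apply] at hjγ
  have h5 : q.degreeOf j ≠ 0 := by
    intro h6
    apply hjγ
    have h7 : (dg q) j = 0 := h6
    rw [h7, Nat.zero_sub]
  by_contra hcon
  apply h5
  rw [MvPolynomial.degreeOf_eq_sup]
  have h8 : ∀ m ∈ q.support, m j = 0 := by
    intro m hm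
    by_contra h9
    exact hcon ((MvPolynomial.mem_vars_iff_mem_support j).2 ⟨m, hm, Finsupp.mem_support_iff.2 h9⟩)
  apply le_antisymm _ (Nat.zero_le _)
  apply Finset.sup_le
  intro m hm
  rw [h8 m hm]

/-- division by a function which does not vanish on the support -/
theorem Tst.div {φ g : (Fin n → ℝ) → ℂ} (hφ : Tst φ) (hg : ContDiff ℝ ∞ g) (h : ∀ θ ∈ tsupport φ, g θ ≠ 0) :
    Tst (fun θ => φ θ / g θ) ∧ ∀ θ, g θ * (φ θ / g θ) = φ θ := by
  refine ⟨⟨?_, ?_⟩, fun θ => ?_⟩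
  · rw [contDiff_iff_contDiffAt]
    intro θ
    by_cases hθ : θ ∈ tsupport φ
    · simp only [div_eq_mul_inv]
      exact hφ.1.contDiffAt.mul (hg.contDiffAt.inv (h θ hθ))
    · have h1 : (fun θ => φ θ / g θ) =ᶠ[𝓝 θ] fun _ => 0 := by
        have h2 : (tsupport φ)ᶜ ∈ 𝓝 θ := (isClosed_tsupport φ).isOpen_compl.mem_nhds hθ
        filter_upwards [h2] with θ' hθ'
        rw [image_eq_zero_of_notMem_tsupport hθ', zero_div]
      exact contDiffAt_const.congr_of_eventuallyEq h1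
  · apply HasCompactSupport.intro hφ.2
    intro θ hθ
    rw [image_eq_zero_of_notMem_tsupport hθ, zero_div]
  · by_cases hθ : θ ∈ tsupport φ
    · rw [mul_div_cancel₀ _ (h θ hθ)]
    · rw [image_eq_zero_of_notMem_tsupport hθ, zero_div, mul_zero]

section Adm

variable {𝔮 : Ideal (MvPolynomial (Fin n) ℂ)} {W : ((Fin n → ℝ) → ℂ) → ℂ} {M : ℕ}

theorem Adm.kill_off (h : Adm 𝔮 W M) {q : MvPolynomial (Fin n) ℂ} (hq : q ∈ 𝔮) {φ : (Fin n → ℝ) → ℂ}
    (hφ : Tst φ) (h0 : ∀ θ ∈ tsupport φ, pe q θ ≠ 0) : W φ = 0 := by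
  obtain ⟨h1, h2⟩ := hφ.div (contDiff_pe q) h0
  have h3 := h.kill q hq _ h1
  have h4 : (fun θ => pe q θ * (φ θ / pe q θ)) = φ := by
    funext θ; exact h2 θ
  rwa [h4] at h3

theorem Adm.rv_mem (h : Adm 𝔮 W M) (h𝔮 : 𝔮.IsPrime) {q : MvPolynomial (Fin n) ℂ} (hq : q ∈ 𝔮) : rv q ∈ 𝔮 := by
  apply h𝔮.mem_of_pow_mem (M + 1)
  apply h.mem
  intro φ hφ
  have h1 : (fun θ => pe (rv q ^ (M + 1)) θ * φ θ)
      = fun θ => conj (pe q θ) ^ (M + 1) * (chr (zz (dg q)) θ ^ (M + 1) * φ θ) := by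
    funext θ
    rw [pe_pow, pe_rv, mul_pow]
    ring
  rw [h1]
  have h2 : ContDiff ℝ ∞ fun θ : Fin n → ℝ => chr (zz (dg q)) θ ^ (M + 1) := (contDiff_chr _).pow _
  exact (supp_pow h.dist (contDiff_pe q) (fun φ hφ h0 => h.kill_off hq hφ h0) (hφ.mul_left h2)).2

theorem Adm.pe_eq_zero (h : Adm 𝔮 W M) {x : Fin n → ℝ} (hx : InSupp W x) {q : MvPolynomial (Fin n) ℂ}
    (hq : q ∈ 𝔮) : pe q x = 0 := by
  by_contra hne
  have h1 : {θ | pe q θ ≠ 0} ∈ 𝓝 x :=
    (isOpen_ne_fun (contDiff_pe q).continuous continuous_const).mem_nhds hne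
  obtain ⟨ε, hε, hball⟩ := Metric.nhds_basis_closedBall.mem_iff.1 h1
  obtain ⟨φ, hφ, hφs, hW⟩ := hx ε hε
  apply hW
  apply h.kill_off hq hφ
  intro θ hθ
  apply hball
  have h2 : tsupport φ ⊆ Metric.closedBall x ε := by
    apply closure_minimal _ Metric.isClosed_closedBall
    intro θ hθ
    rw [Metric.mem_closedBall, dist_eq_norm]
    by_contra hcon
    exact hθ (hφs θ (not_le.1 hcon))
  exact h2 hθ

theorem Adm.exists_point (h : Adm 𝔮 W M) (h𝔮 : 𝔮.IsPrime) {g : MvPolynomial (Fin n) ℂ} (hg : g ∉ 𝔮) :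
    ∃ x, InSupp W x ∧ pe g x ≠ 0 := by
  by_contra hcon
  push Not at hcon
  apply hg
  apply h𝔮.mem_of_pow_mem (M + 1)
  apply h.mem
  intro φ hφ
  simp only [pe_pow]
  refine (supp_pow h.dist (contDiff_pe g) (fun φ hφ h0 => ?_) hφ).1
  apply eq_zero_of_not_inSupp h.dist hφ
  intro x hx hs
  exact h0 x hx (hcon x hs)

end Adm

/-- thinness is an open condition at points where the ranks are locally constant -/
theorem thin_near {E : Type*} [NormedAddCommGroup E] [NormedSpace ℝ E] [FiniteDimensional ℝ E]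
    {ψ : E → (Fin n → ℝ)} {U : Set E} (hU : IsOpen U) (hψ : ContDiffOn ℝ ∞ ψ U) {u₀ : E} (hu₀ : u₀ ∈ U)
    (hr : RankConst ψ u₀) {t : ℝ} (h : Thin t (fderiv ℝ ψ u₀)) : ∀ᶠ u in 𝓝 u₀, Thin t (fderiv ℝ ψ u) := by
  classical
  have hc : ∀ j, ContinuousAt (fun u => row ψ u j) u₀ := fun j =>
    ((contDiffOn_row hU hψ j).continuousOn).continuousAt (hU.mem_nhds hu₀)
  have h1 : ∀ F : Finset (Fin n), F.Nonempty → ∀ᶠ u in 𝓝 u₀, Pos ψ u F → (F.card : ℝ) - rk ψ u F < t * F.card := by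
    intro F hF
    by_cases hpos : Pos ψ u₀ F
    · have h2 := (thin_iff t ψ u₀).1 h F hF hpos
      filter_upwards [eventually_rk_ge hc F] with u hu _
      have h3 : (rk ψ u₀ F : ℝ) ≤ rk ψ u F := by exact_mod_cast hu
      linarith
    · obtain ⟨V, e, B₁, hV, hu₀V, hVU, -, hB₁F, hB₁, he1, he2⟩ := exists_positive_field hU hψ hu₀ hr F hpos
      filter_upwards [hV.mem_nhds hu₀V] with u hu hposu
      exfalso
      obtain ⟨m, hm1, hm2, hm3⟩ := hposu
      have h4 := hm3 (e u)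
      have h5 : ∑ j, m j * fderiv ℝ ψ u (e u) j = ∑ j ∈ B₁, m j * row ψ u j (e u) := by
        symm
        apply Finset.sum_subset_zero_on_sdiff (Finset.subset_univ _)
        · intro j hj
          rw [Finset.mem_sdiff] at hj
          by_cases hjF : j ∈ F
          · have := he1 u hu j (Finset.mem_sdiff.2 ⟨hjF, hj.2⟩)
            rw [row_apply] at this
            rw [this, mul_zero]
          · rw [hm2 j hjF, zero_mul]
        · intro j _
          rfl
      rw [h5] at h4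
      have h6 : 0 < ∑ j ∈ B₁, m j * row ψ u j (e u) :=
        Finset.sum_pos (fun j hj => mul_pos (hm1 j (hB₁F hj)) (he2 u hu j hj)) hB₁
      linarith
  have h2 : ∀ᶠ u in 𝓝 u₀, ∀ F : Finset (Fin n), F.Nonempty → Pos ψ u F → (F.card : ℝ) - rk ψ u F < t * F.card := by
    rw [Filter.eventually_all]
    intro F
    by_cases hF : F.Nonempty
    · filter_upwards [h1 F hF] with u hu _ using hu
    · exact Eventually.of_forall fun u h => absurd h hF
  filter_upwards [h2] with u hu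
  exact (thin_iff t ψ u).2 hu

end Pool.Agent.Helper49.FA
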