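import Mathlib

/-! Abstract part of the Balian-Low argument: Riesz bases of a Hilbert space indexed by a group,
generated from one vector by a projective unitary representation. -/

set_option autoImplicit false

namespace Pool.Agent.Helper49.BLT

open scoped InnerProductSpace ComplexConjugate ENNReal
open Filter Topology

variable {H : Type*} [NormedAddCommGroup H] [InnerProductSpace ℂ H] [CompleteSpace H]
variable {ι : Type*}

/-- Completeness plus the two Riesz bounds. -/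
structure IsRiesz (e : ι → H) : Prop where
  complete : ∀ f : H, (∀ k, ⟪e k, f⟫_ℂ = 0) → f = 0
  bounds : ∃ A B : ℝ, 0 < A ∧ 0 < B ∧ ∀ (s : Finset ι) (c : ι → ℂ),
    A * ∑ k ∈ s, ‖c k‖ ^ 2 ≤ ‖∑ k ∈ s, c k • e k‖ ^ 2 ∧
      ‖∑ k ∈ s, c k • e k‖ ^ 2 ≤ B * ∑ k ∈ s, ‖c k‖ ^ 2

omit [CompleteSpace H] in
/-- Bessel inequality from the upper Riesz bound. -/
theorem bessel {e : ι → H} {B : ℝ} (hB0 : 0 ≤ B)
    (hB : ∀ (s : Finset ι) (c : ι → ℂ), ‖∑ k ∈ s, c k • e k‖ ^ 2 ≤ B * ∑ k ∈ s, ‖c k‖ ^ 2)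
    (f : H) (s : Finset ι) : ∑ k ∈ s, ‖⟪e k, f⟫_ℂ‖ ^ 2 ≤ B * ‖f‖ ^ 2 := by
  set S : ℝ := ∑ k ∈ s, ‖⟪e k, f⟫_ℂ‖ ^ 2 with hS
  have hS0 : 0 ≤ S := Finset.sum_nonneg (fun _ _ => by positivity)
  set v : H := ∑ k ∈ s, (⟪e k, f⟫_ℂ) • e k with hv
  have h1 : ⟪v, f⟫_ℂ = (S : ℂ) := by
    rw [hv, sum_inner, hS]
    push_cast
    apply Finset.sum_congr rfl
    intro k _
    rw [inner_smul_left, Complex.conj_mul']
  have h2 : S ≤ ‖v‖ * ‖f‖ := by
    have := norm_inner_le_norm (𝕜 := ℂ) v f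
    rw [h1, Complex.norm_real, Real.norm_of_nonneg hS0] at this
    exact this
  have h3 : ‖v‖ ^ 2 ≤ B * S := hB s (fun k => ⟪e k, f⟫_ℂ)
  have h4 : S ^ 2 ≤ (B * S) * ‖f‖ ^ 2 := by
    calc S ^ 2 ≤ (‖v‖ * ‖f‖) ^ 2 := by gcongr
      _ = ‖v‖ ^ 2 * ‖f‖ ^ 2 := by ring
      _ ≤ (B * S) * ‖f‖ ^ 2 := by gcongr
  rcases hS0.eq_or_lt with h | h
  · rw [← h]
    positivity
  · nlinarith

omit [CompleteSpace H] in
/-- The analysis operator of a Bessel family. -/
theorem exists_analysis {e : ι → H} {B : ℝ} (hB0 : 0 ≤ B)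
    (hB : ∀ (s : Finset ι) (c : ι → ℂ), ‖∑ k ∈ s, c k • e k‖ ^ 2 ≤ B * ∑ k ∈ s, ‖c k‖ ^ 2) :
    ∃ C : H →L[ℂ] lp (fun _ : ι => ℂ) 2, ∀ f k, C f k = ⟪e k, f⟫_ℂ := by
  have h2 : (2 : ℝ≥0∞).toReal = 2 := by norm_num
  have hmem : ∀ f : H, Memℓp (fun k => ⟪e k, f⟫_ℂ) 2 := by
    intro f
    apply memℓp_gen' (C := B * ‖f‖ ^ 2)
    intro s
    rw [h2]
    simpa using bessel hB0 hB f s
  let L : H →ₗ[ℂ] lp (fun _ : ι => ℂ) 2 :=
    { toFun := fun f => ⟨fun k => ⟪e k, f⟫_ℂ, hmem f⟩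
      map_add' := by
        intro f g
        ext k
        exact inner_add_right _ _ _
      map_smul' := by
        intro a f
        ext k
        exact inner_smul_right _ _ _ }
  have hLk : ∀ f k, L f k = ⟪e k, f⟫_ℂ := fun f k => rfl
  have hL : ∀ f, ‖L f‖ ≤ Real.sqrt B * ‖f‖ := by
    intro f
    apply lp.norm_le_of_forall_sum_le (by rw [h2]; norm_num) (by positivity)
    intro s
    rw [h2]
    have h3 : (Real.sqrt B * ‖f‖) ^ (2 : ℝ) = B * ‖f‖ ^ 2 := by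
      rw [Real.rpow_two, mul_pow, Real.sq_sqrt hB0]
    rw [h3]
    simpa [hLk] using bessel hB0 hB f s
  exact ⟨L.mkContinuous _ hL, fun f k => rfl⟩

/-- The synthesis operator of a Riesz basis is an isomorphism from `ℓ²`. -/
theorem IsRiesz.exists_synthesis [DecidableEq ι] {e : ι → H} (he : IsRiesz e) :
    ∃ T : lp (fun _ : ι => ℂ) 2 ≃L[ℂ] H, ∀ k, T (lp.single 2 k (1 : ℂ)) = e k := by
  obtain ⟨A, B, hA, hB, hAB⟩ := he.bounds
  obtain ⟨C, hC⟩ := exists_analysis hB.le (fun s c => (hAB s c).2)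
  have h2 : (2 : ℝ≥0∞).toReal = 2 := by norm_num
  let T : lp (fun _ : ι => ℂ) 2 →L[ℂ] H := ContinuousLinearMap.adjoint C
  have hT : ∀ k, T (lp.single 2 k (1 : ℂ)) = e k := by
    intro k
    apply ext_inner_right ℂ
    intro f
    rw [ContinuousLinearMap.adjoint_inner_left, lp.inner_single_left, hC]
    simp
  have hTs : ∀ (k : ι) (a : ℂ), T (lp.single 2 k a) = a • e k := by
    intro k a
    rw [← hT k, ← map_smul, ← lp.single_smul]
    simp
  have hlow : ∀ c : lp (fun _ : ι => ℂ) 2, A * ‖c‖ ^ 2 ≤ ‖T c‖ ^ 2 := by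
    intro c
    have h3 : Tendsto (fun s : Finset ι => ∑ k ∈ s, lp.single 2 k (c k)) atTop (𝓝 c) :=
      lp.hasSum_single (by norm_num) c
    have h4 : Tendsto (fun s : Finset ι => ‖T (∑ k ∈ s, lp.single 2 k (c k))‖ ^ 2) atTop
        (𝓝 (‖T c‖ ^ 2)) :=
      (((T.continuous.tendsto c).comp h3).norm).pow 2
    have h5 : Tendsto (fun s : Finset ι => A * ∑ k ∈ s, ‖c k‖ ^ 2) atTop (𝓝 (A * ‖c‖ ^ 2)) := by
      have := lp.hasSum_norm (p := 2) (by rw [h2]; norm_num) c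
      rw [h2] at this
      simp only [Real.rpow_two] at this
      exact Tendsto.const_mul A this
    refine le_of_tendsto_of_tendsto' h5 h4 (fun s => ?_)
    rw [map_sum]
    simp only [hTs]
    exact (hAB s (fun k => c k)).1
  have hanti : AntilipschitzWith (Real.toNNReal (Real.sqrt A)⁻¹) T := by
    apply T.antilipschitz_of_bound
    intro c
    have h3 := hlow c
    have h4 : Real.sqrt A * ‖c‖ ≤ ‖T c‖ := by
      apply le_of_sq_le_sq _ (norm_nonneg _)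
      rw [mul_pow, Real.sq_sqrt hA.le]
      exact h3
    have h5 : 0 < Real.sqrt A := Real.sqrt_pos.2 hA
    rw [Real.coe_toNNReal _ (by positivity), ← div_eq_inv_mul, le_div_iff₀ h5]
    linarith
  have hinj : Function.Injective T := hanti.injective
  have hclosed : IsClosed (Set.range T) := hanti.isClosed_range T.uniformContinuous
  have hsurj : Function.Surjective T := by
    have hcl : IsClosed ((LinearMap.range (T : lp (fun _ : ι => ℂ) 2 →ₗ[ℂ] H) : Submodule ℂ H) :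
        Set H) := by
      rw [LinearMap.coe_range]
      exact hclosed
    have horth : (LinearMap.range (T : lp (fun _ : ι => ℂ) 2 →ₗ[ℂ] H))ᗮ = ⊥ := by
      rw [Submodule.eq_bot_iff]
      intro f hf
      apply he.complete
      intro k
      rw [Submodule.mem_orthogonal] at hf
      have := hf (e k) ⟨lp.single 2 k (1 : ℂ), hT k⟩
      exact this
    have htop : (LinearMap.range (T : lp (fun _ : ι => ℂ) 2 →ₗ[ℂ] H)) = ⊤ := by
      have : CompleteSpace (LinearMap.range (T : lp (fun _ : ι => ℂ) 2 →ₗ[ℂ] H)) :=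
        hcl.completeSpace_coe
      exact (Submodule.orthogonal_eq_bot_iff).1 horth
    intro f
    have : f ∈ (LinearMap.range (T : lp (fun _ : ι => ℂ) 2 →ₗ[ℂ] H)) := by rw [htop]; trivial
    exact this
  refine ⟨ContinuousLinearEquiv.ofBijective T (LinearMap.ker_eq_bot.2 hinj)
    (LinearMap.range_eq_top.2 hsurj), fun k => ?_⟩
  rw [ContinuousLinearEquiv.coeFn_ofBijective]
  exact hT k

variable [AddCommGroup ι]

/-- A projective unitary representation of the group `ι` on `H`. -/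
structure ProjRep (π : ι → H →ₗᵢ[ℂ] H) : Prop where
  zero : ∀ x, π 0 x = x
  mul : ∀ k l, ∃ c : ℂ, ‖c‖ = 1 ∧ ∀ x, π k (π l x) = c • π (k + l) x

omit [CompleteSpace H] in
theorem ProjRep.neg_right {π : ι → H →ₗᵢ[ℂ] H} (hπ : ProjRep π) (k : ι) :
    ∃ c : ℂ, ‖c‖ = 1 ∧ ∀ x, π (-k) (π k x) = c • x := by
  obtain ⟨c, hc, h⟩ := hπ.mul (-k) k
  refine ⟨c, hc, fun x => ?_⟩
  rw [h x, neg_add_cancel, hπ.zero]

omit [CompleteSpace H] in
/-- Moving `π k` from one side of the inner product to the other, up to a phase. -/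
theorem ProjRep.inner_left {π : ι → H →ₗᵢ[ℂ] H} (hπ : ProjRep π) (k : ι) :
    ∃ c : ℂ, ‖c‖ = 1 ∧ (∀ x y, ⟪x, π k y⟫_ℂ = c * ⟪π (-k) x, y⟫_ℂ) ∧
      (∀ x y, ⟪π k x, y⟫_ℂ = conj c * ⟪x, π (-k) y⟫_ℂ) := by
  obtain ⟨c, hc, h⟩ := hπ.neg_right k
  refine ⟨c, hc, fun x y => ?_, fun x y => ?_⟩
  · rw [← (π (-k)).inner_map_map x (π k y), h y, inner_smul_right]
  · rw [← (π (-k)).inner_map_map (π k x) y, h x, inner_smul_left]

/-- The dual window of a Riesz basis generated by a projective representation. -/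
theorem exists_dual [DecidableEq ι] {π : ι → H →ₗᵢ[ℂ] H} (hπ : ProjRep π) {g : H}
    (hg : IsRiesz (fun k => π k g)) :
    ∃ (h : H) (T : lp (fun _ : ι => ℂ) 2 ≃L[ℂ] H),
      (∀ k, T (lp.single 2 k (1 : ℂ)) = π k g) ∧
      (∀ k x, T.symm x k = ⟪π k h, x⟫_ℂ) ∧
      (∀ k x, ContinuousLinearMap.adjoint (T : lp (fun _ : ι => ℂ) 2 →L[ℂ] H) x k
        = ⟪π k g, x⟫_ℂ) ∧
      (∀ k, ⟪π k g, h⟫_ℂ = if k = 0 then 1 else 0) := by
  obtain ⟨T, hT⟩ := hg.exists_synthesis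
  set R : H →L[ℂ] lp (fun _ : ι => ℂ) 2 := (T.symm : H →L[ℂ] lp (fun _ : ι => ℂ) 2) with hR
  set h : H := ContinuousLinearMap.adjoint R (lp.single 2 0 (1 : ℂ)) with hh
  have hsingle : ∀ (k : ι) (f : lp (fun _ : ι => ℂ) 2),
      ⟪lp.single 2 k (1 : ℂ), f⟫_ℂ = f k := by
    intro k f
    rw [lp.inner_single_left]
    simp
  have hgh : ∀ k, ⟪π k g, h⟫_ℂ = if k = 0 then 1 else 0 := by
    intro k
    rw [hh, ContinuousLinearMap.adjoint_inner_right, ← hT k, hR]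
    simp only [ContinuousLinearEquiv.coe_coe, ContinuousLinearEquiv.symm_apply_apply]
    rw [hsingle, lp.single_apply]
    by_cases h0 : k = 0
    · subst h0; simp
    · simp [h0]
  have hadj : ∀ k x, ContinuousLinearMap.adjoint (T : lp (fun _ : ι => ℂ) 2 →L[ℂ] H) x k
        = ⟪π k g, x⟫_ℂ := by
    intro k x
    rw [← hsingle, ContinuousLinearMap.adjoint_inner_right, ← hT k]
    simp
  have hdual : ∀ k, ContinuousLinearMap.adjoint R (lp.single 2 k (1 : ℂ)) = π k h := by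
    intro k
    rw [← sub_eq_zero]
    apply hg.complete
    intro l
    rw [inner_sub_right, ContinuousLinearMap.adjoint_inner_right, ← hT l, hR]
    simp only [ContinuousLinearEquiv.coe_coe, ContinuousLinearEquiv.symm_apply_apply]
    rw [hsingle, lp.single_apply, hT l]
    obtain ⟨c, hc, h1, h2⟩ := hπ.inner_left k
    rw [h1]
    obtain ⟨c', hc', h3⟩ := hπ.mul (-k) l
    rw [h3, inner_smul_left, hgh]
    by_cases hkl : l = k
    · subst hkl
      have h4 := h1 (π l g) g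
      rw [h3, inner_smul_left, (π l).inner_map_map] at h4
      simp only [neg_add_cancel, if_true, Pi.single_eq_same]
      rw [neg_add_cancel, hπ.zero] at h4
      have hgne : ⟪g, g⟫_ℂ ≠ 0 := by
        intro h0
        have hg0 : g = 0 := inner_self_eq_zero.1 h0
        have := hgh 0
        rw [hπ.zero, hg0, inner_zero_left] at this
        simp at this
      have h5 : c * conj c' = 1 := by
        have : ⟪g, g⟫_ℂ * (c * conj c' - 1) = 0 := by
          linear_combination -h4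
        rcases mul_eq_zero.1 this with h6 | h6
        · exact absurd h6 hgne
        · exact sub_eq_zero.1 h6
      linear_combination -h5
    · have h0 : ¬ (-k + l = 0) := by
        intro h0
        apply hkl
        have := neg_add_eq_zero.1 h0
        exact this.symm
      simp [h0, hkl]
  refine ⟨h, T, hT, fun k x => ?_, hadj, hgh⟩
  rw [← hdual, ContinuousLinearMap.adjoint_inner_left, hsingle, hR]
  simp

/-- **Key estimate.** The dual window is at least as regular as the window, for every unitary `U`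
that commutes with the representation up to phases. -/
theorem dual_lipschitz [DecidableEq ι] {π : ι → H →ₗᵢ[ℂ] H} (hπ : ProjRep π) {g h : H}
    {T : lp (fun _ : ι => ℂ) 2 ≃L[ℂ] H}
    (hT1 : ∀ k x, T.symm x k = ⟪π k h, x⟫_ℂ)
    (hT2 : ∀ k x, ContinuousLinearMap.adjoint (T : lp (fun _ : ι => ℂ) 2 →L[ℂ] H) x k
        = ⟪π k g, x⟫_ℂ)
    (hgh : ∀ k, ⟪π k g, h⟫_ℂ = if k = 0 then 1 else 0)
    (U : H ≃ₗᵢ[ℂ] H) (χ : ι → ℂ) (hχ : ∀ k, ‖χ k‖ = 1) (hχ0 : χ 0 = 1)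
    (hU : ∀ k x, U (π k x) = χ k • π k (U x)) :
    ‖U h - h‖ ≤ ‖(T.symm : H →L[ℂ] lp (fun _ : ι => ℂ) 2)‖ ^ 2 * ‖U g - g‖ := by
  set R : H →L[ℂ] lp (fun _ : ι => ℂ) 2 := (T.symm : H →L[ℂ] lp (fun _ : ι => ℂ) 2) with hR
  set v : H := h - U.symm h with hv
  have hw : ‖U h - h‖ = ‖v‖ := by
    rw [← U.norm_map v, hv, map_sub, U.apply_symm_apply]
  have hcoef : ∀ k, ‖ContinuousLinearMap.adjoint (T : lp (fun _ : ι => ℂ) 2 →L[ℂ] H) v k‖
      = ‖R (U g - g) (-k)‖ := by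
    intro k
    have h1 : ⟪π k g, U.symm h⟫_ℂ = conj (χ k) * ⟪π k (U g), h⟫_ℂ := by
      rw [← U.inner_map_map (π k g) (U.symm h), U.apply_symm_apply, hU, inner_smul_left]
    have h2 : ⟪π k (U g), h⟫_ℂ = ⟪π k (U g - g), h⟫_ℂ + (if k = 0 then 1 else 0) := by
      rw [map_sub, inner_sub_left, hgh k]
      ring
    have h3 : ⟪π k g, v⟫_ℂ = - (conj (χ k) * ⟪π k (U g - g), h⟫_ℂ) := by
      rw [hv, inner_sub_right, h1, h2, hgh k]
      by_cases hk : k = 0
      · subst hk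
        simp [hχ0]
      · simp [hk]
    rw [hT2, h3, norm_neg, norm_mul, RCLike.norm_conj, hχ, one_mul]
    obtain ⟨c, hc, -, h5⟩ := hπ.inner_left k
    rw [h5, norm_mul, RCLike.norm_conj, hc, one_mul, norm_inner_symm]
    rw [hR]
    simp only [ContinuousLinearEquiv.coe_coe]
    rw [hT1]
  set a : lp (fun _ : ι => ℂ) 2 :=
    ContinuousLinearMap.adjoint (T : lp (fun _ : ι => ℂ) 2 →L[ℂ] H) v with ha
  have hnorm : ‖a‖ = ‖R (U g - g)‖ := by
    rw [lp.norm_eq_tsum_rpow (by norm_num), lp.norm_eq_tsum_rpow (by norm_num)]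
    congr 1
    rw [← (Equiv.neg ι).tsum_eq]
    apply tsum_congr
    intro k
    rw [hcoef, Equiv.neg_apply, neg_neg]
  have hv2 : v = ContinuousLinearMap.adjoint R a := by
    apply ext_inner_right ℂ
    intro y
    rw [ContinuousLinearMap.adjoint_inner_left, ha, ContinuousLinearMap.adjoint_inner_left, hR]
    simp
  rw [hw, hv2]
  calc ‖ContinuousLinearMap.adjoint R a‖
      ≤ ‖ContinuousLinearMap.adjoint R‖ * ‖a‖ := ContinuousLinearMap.le_opNorm _ _
    _ = ‖R‖ * ‖R (U g - g)‖ := by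
        rw [hnorm, LinearIsometryEquiv.norm_map]
    _ ≤ ‖R‖ * (‖R‖ * ‖U g - g‖) := by
        gcongr
        exact ContinuousLinearMap.le_opNorm _ _
    _ = ‖R‖ ^ 2 * ‖U g - g‖ := by ring

/-- Bounded families have weak limits along ultrafilters. -/
theorem exists_weak_limit {α : Type*} (𝒰 : Ultrafilter α) (w : α → H) (K : ℝ)
    (hw : ∀ᶠ t in (𝒰 : Filter α), ‖w t‖ ≤ K) :
    ∃ w0 : H, ∀ f : H, Tendsto (fun t => ⟪w t, f⟫_ℂ) 𝒰 (𝓝 ⟪w0, f⟫_ℂ) := by
  have hcomp := WeakDual.isCompact_closedBall (𝕜 := ℂ) (E := H) 0 K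
  let Φ : α → WeakDual ℂ H := fun t => StrongDual.toWeakDual (InnerProductSpace.toDual ℂ H (w t))
  have hmem : ∀ᶠ t in (𝒰 : Filter α), Φ t ∈ (WeakDual.toStrongDual ⁻¹'
      Metric.closedBall (0 : StrongDual ℂ H) K) := by
    filter_upwards [hw] with t ht
    simp only [Φ, Set.mem_preimage, Metric.mem_closedBall, dist_zero_right]
    simpa using ht
  obtain ⟨φ, -, hφ⟩ := hcomp.ultrafilter_le_nhds (𝒰.map Φ) (by
    rw [Filter.le_principal_iff]
    exact hmem)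
  refine ⟨(InnerProductSpace.toDual ℂ H).symm (WeakDual.toStrongDual φ), fun f => ?_⟩
  have h1 : Tendsto Φ 𝒰 (𝓝 φ) := hφ
  have h2 := ((WeakDual.eval_continuous f).tendsto φ).comp h1
  rw [InnerProductSpace.toDual_symm_apply]
  exact h2

omit [CompleteSpace H] in
/-- Transfer of a unitary from one side of the inner product to the other. -/
theorem inner_flip (U U' : H ≃ₗᵢ[ℂ] H) (hU : ∀ x, U (U' x) = x) (x y : H) :
    ⟪U x, y⟫_ℂ = ⟪x, U' y⟫_ℂ := by
  rw [← U.inner_map_map x (U' y), hU]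

omit [CompleteSpace H] in
/-- First-order behaviour of a phase. -/
theorem tendsto_phase_div (b : ℝ) :
    Tendsto (fun s : ℝ => (Complex.exp (-(Complex.I * (s : ℂ) * b)) - 1) / (s : ℂ)) (𝓝[≠] 0)
      (𝓝 (-(Complex.I * b))) := by
  have h1 : HasDerivAt (fun s : ℝ => Complex.exp (-(Complex.I * (s : ℂ) * b)))
      (Complex.exp (-(Complex.I * ((0 : ℝ) : ℂ) * b)) * (-(Complex.I * 1 * b))) 0 := by
    apply HasDerivAt.cexp
    apply HasDerivAt.neg
    apply HasDerivAt.mul_const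
    apply HasDerivAt.const_mul
    exact Complex.ofRealCLM.hasDerivAt
  have h2 := h1.tendsto_slope_zero
  refine (h2.congr (fun s => ?_)).trans (by simp)
  simp only [zero_add, Complex.real_smul]
  push_cast
  rw [div_eq_inv_mul]
  simp

/-- **Abstract Balian-Low theorem.** -/
theorem balian_low_abstract [DecidableEq ι] {π : ι → H →ₗᵢ[ℂ] H} (hπ : ProjRep π) {g : H}
    (hg : IsRiesz (fun k => π k g)) (U V : ℝ → H ≃ₗᵢ[ℂ] H) (α β : ι → ℝ)
    (hα : α 0 = 0) (hβ : β 0 = 0)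
    (hU : ∀ t k x, U t (π k x) = Complex.exp (Complex.I * t * α k) • π k (U t x))
    (hV : ∀ s k x, V s (π k x) = Complex.exp (Complex.I * s * β k) • π k (V s x))
    (c : ℝ) (hc : c ≠ 0)
    (hUV : ∀ s t x, U t (V s x) = Complex.exp (Complex.I * s * (t * c)) • V s (U t x))
    (hUneg : ∀ t x, U t (U (-t) x) = x) (hVneg : ∀ s x, V s (V (-s) x) = x)
    (L : ℝ) (hLU : ∀ t, ‖U t g - g‖ ≤ L * |t|) (hLV : ∀ s, ‖V s g - g‖ ≤ L * |s|) : False := by
  obtain ⟨h, T, hT0, hT1, hT2, hgh⟩ := exists_dual hπ hg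
  set K : ℝ := ‖(T.symm : H →L[ℂ] lp (fun _ : ι => ℂ) 2)‖ ^ 2 with hK
  have hK0 : 0 ≤ K := by positivity
  have hphase : ∀ (t b : ℝ), ‖Complex.exp (Complex.I * t * b)‖ = 1 := by
    intro t b
    have : Complex.I * t * b = ((t * b : ℝ) : ℂ) * Complex.I := by push_cast; ring
    rw [this, Complex.norm_exp_ofReal_mul_I]
  -- Lipschitz bounds for the dual window
  have hLUh : ∀ t, ‖U t h - h‖ ≤ K * L * |t| := by
    intro t
    have := dual_lipschitz hπ hT1 hT2 hgh (U t) (fun k => Complex.exp (Complex.I * t * α k))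
      (fun k => hphase t (α k)) (by simp [hα]) (hU t)
    calc ‖U t h - h‖ ≤ K * ‖U t g - g‖ := this
      _ ≤ K * (L * |t|) := by gcongr; exact hLU t
      _ = K * L * |t| := by ring
  have hLVh : ∀ s, ‖V s h - h‖ ≤ K * L * |s| := by
    intro s
    have := dual_lipschitz hπ hT1 hT2 hgh (V s) (fun k => Complex.exp (Complex.I * s * β k))
      (fun k => hphase s (β k)) (by simp [hβ]) (hV s)
    calc ‖V s h - h‖ ≤ K * ‖V s g - g‖ := this
      _ ≤ K * (L * |s|) := by gcongr; exact hLV s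
      _ = K * L * |s| := by ring
  -- an ultrafilter converging to zero from outside
  let 𝒰 : Ultrafilter ℝ := Ultrafilter.of (𝓝[≠] (0 : ℝ))
  have h𝒰 : (𝒰 : Filter ℝ) ≤ 𝓝[≠] (0 : ℝ) := Ultrafilter.of_le _
  have h𝒰0 : (𝒰 : Filter ℝ) ≤ 𝓝 (0 : ℝ) := h𝒰.trans nhdsWithin_le_nhds
  have hne : ∀ᶠ t in (𝒰 : Filter ℝ), t ≠ 0 := h𝒰 self_mem_nhdsWithin
  -- weak limits of difference quotients
  have hquot : ∀ (W : ℝ → H ≃ₗᵢ[ℂ] H) (x : H) (M : ℝ), (∀ t, ‖W t x - x‖ ≤ M * |t|) →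
      ∃ w0 : H, ∀ f : H, Tendsto (fun t : ℝ => ⟪((t : ℂ)⁻¹) • (W t x - x), f⟫_ℂ) 𝒰
        (𝓝 ⟪w0, f⟫_ℂ) := by
    intro W x M hW
    apply exists_weak_limit 𝒰 _ M
    filter_upwards [hne] with t ht
    rw [norm_smul, norm_inv, Complex.norm_real, Real.norm_eq_abs, inv_mul_le_iff₀ (abs_pos.2 ht)]
    linarith [hW t]
  obtain ⟨p, hp⟩ := hquot V g L hLV
  obtain ⟨q, hq⟩ := hquot U g L hLU
  obtain ⟨p', hp'⟩ := hquot (fun s => V (-s)) h (K * L) (fun s => by simpa using hLVh (-s))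
  obtain ⟨q', hq'⟩ := hquot (fun t => U (-t)) h (K * L) (fun t => by simpa using hLUh (-t))
  have hflip : ∀ (w : ℝ → H) (w0 : H),
      (∀ f : H, Tendsto (fun t : ℝ => ⟪w t, f⟫_ℂ) 𝒰 (𝓝 ⟪w0, f⟫_ℂ)) →
      ∀ f : H, Tendsto (fun t : ℝ => ⟪f, w t⟫_ℂ) 𝒰 (𝓝 ⟪f, w0⟫_ℂ) := by
    intro w w0 hw f
    have h1 := (Complex.continuous_conj.tendsto _).comp (hw f)
    simp only [Function.comp_def, inner_conj_symm] at h1
    exact h1
  -- coefficient identities
  have hcoef : ∀ (W : ℝ → H ≃ₗᵢ[ℂ] H) (γ : ι → ℝ) (hγ : γ 0 = 0)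
      (hW : ∀ t k x, W t (π k x) = Complex.exp (Complex.I * t * γ k) • π k (W t x))
      (hWneg : ∀ t x, W t (W (-t) x) = x) (w w' : H)
      (hw : ∀ f : H, Tendsto (fun t : ℝ => ⟪((t : ℂ)⁻¹) • (W t g - g), f⟫_ℂ) 𝒰 (𝓝 ⟪w, f⟫_ℂ))
      (hw' : ∀ f : H, Tendsto (fun t : ℝ => ⟪((t : ℂ)⁻¹) • (W (-t) h - h), f⟫_ℂ) 𝒰
        (𝓝 ⟪w', f⟫_ℂ)) (k : ι), ⟪w, π k h⟫_ℂ = ⟪g, π k w'⟫_ℂ := by
    intro W γ hγ hW hWneg w w' hw hw' k
    obtain ⟨e, he, he1, he2⟩ := hπ.inner_left k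
    have h1 := hw (π k h)
    have h2 := hflip _ _ hw' (π (-k) g)
    have h3 : Tendsto (fun t : ℝ => Complex.exp (Complex.I * (-t : ℝ) * γ k)) 𝒰 (𝓝 1) := by
      have : Tendsto (fun t : ℝ => Complex.exp (Complex.I * (-t : ℝ) * γ k)) (𝓝 0)
          (𝓝 (Complex.exp (Complex.I * (-(0 : ℝ) : ℝ) * γ k))) := by
        apply Continuous.tendsto
        fun_prop
      simp only [neg_zero, Complex.ofReal_zero, mul_zero, zero_mul, Complex.exp_zero] at this
      exact this.mono_left h𝒰0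
    have h4 : Tendsto (fun t : ℝ => Complex.exp (Complex.I * (-t : ℝ) * γ k) *
        (e * ⟪π (-k) g, ((t : ℂ)⁻¹) • (W (-t) h - h)⟫_ℂ)) 𝒰 (𝓝 (1 * (e * ⟪π (-k) g, w'⟫_ℂ))) :=
      h3.mul (h2.const_mul e)
    rw [one_mul, ← he1] at h4
    refine tendsto_nhds_unique_of_eventuallyEq h1 h4 ?_
    filter_upwards [hne] with t ht
    rw [← he1]
    rw [inner_smul_left, inner_sub_left, inner_flip (W t) (W (-t)) (hWneg t), hW (-t),
      inner_smul_right, map_smul, inner_smul_right, map_sub, inner_sub_right]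
    have hreal : conj ((t : ℂ)⁻¹) = (t : ℂ)⁻¹ := by
      rw [map_inv₀, Complex.conj_ofReal]
    rw [hreal]
    have h5 : ⟪g, π k h⟫_ℂ = if k = 0 then 1 else 0 := by
      by_cases hk : k = 0
      · subst hk
        have := hgh 0
        rw [hπ.zero] at this
        rw [hπ.zero, this]
      · rw [he1, hgh, if_neg (by simpa using hk), mul_zero, if_neg hk]
    rw [h5]
    by_cases hk : k = 0
    · subst hk
      rw [hγ]
      simp only [Complex.ofReal_zero, mul_zero, Complex.exp_zero, if_true]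
      ring
    · rw [if_neg hk]
      ring
  have hcp := hcoef V β hβ hV hVneg p p' hp hp'
  have hcq := hcoef U α hα hU hUneg q q' hq hq'
  -- expansion of inner products
  have hexp : ∀ x y : H, HasSum (fun k => ⟪x, π k h⟫_ℂ * ⟪π k g, y⟫_ℂ) ⟪x, y⟫_ℂ := by
    intro x y
    have h1 : ⟪x, y⟫_ℂ = ⟪T.symm x,
        ContinuousLinearMap.adjoint (T : lp (fun _ : ι => ℂ) 2 →L[ℂ] H) y⟫_ℂ := by
      rw [ContinuousLinearMap.adjoint_inner_right]
      simp
    rw [h1]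
    have h2 := lp.hasSum_inner (𝕜 := ℂ) (T.symm x)
      (ContinuousLinearMap.adjoint (T : lp (fun _ : ι => ℂ) 2 →L[ℂ] H) y)
    have h3 : (fun k => ⟪x, π k h⟫_ℂ * ⟪π k g, y⟫_ℂ) = fun k => ⟪T.symm x k,
        ContinuousLinearMap.adjoint (T : lp (fun _ : ι => ℂ) 2 →L[ℂ] H) y k⟫_ℂ := by
      funext k
      rw [hT1, hT2, RCLike.inner_apply, inner_conj_symm, mul_comm]
    rw [h3]
    exact h2
  have hsymm : ⟪p, q'⟫_ℂ = ⟪q, p'⟫_ℂ := by
    have h1 := hexp p q'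
    have h2 := (Equiv.neg ι).hasSum_iff.2 (hexp q p')
    have h3 : (fun k => ⟪p, π k h⟫_ℂ * ⟪π k g, q'⟫_ℂ)
        = (fun k => ⟪q, π k h⟫_ℂ * ⟪π k g, p'⟫_ℂ) ∘ (Equiv.neg ι) := by
      funext k
      simp only [Function.comp, Equiv.neg_apply]
      obtain ⟨e, he, he1, he2⟩ := hπ.inner_left k
      rw [hcp k, hcq (-k), he1 g p', he2 g q']
      have : conj e * e = 1 := by
        rw [Complex.conj_mul', he]; norm_num
      linear_combination (⟪π (-k) g, p'⟫_ℂ * ⟪g, π (-k) q'⟫_ℂ) * this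
    rw [h3] at h1
    exact h1.unique h2
  -- commutation relation in the limit
  have hgh0 : ⟪g, h⟫_ℂ = 1 := by
    have := hgh 0
    rwa [hπ.zero, if_pos rfl] at this
  have hcomm : ∀ s t : ℝ, ⟪V s g - g, U (-t) h - h⟫_ℂ
      = ⟪U t g - g, V (-s) h - h⟫_ℂ
        + (Complex.exp (-(Complex.I * (s : ℂ) * ((t * c : ℝ) : ℂ))) - 1) *
          ⟪U t g, V (-s) h⟫_ℂ := by
    intro s t
    have h1 : ⟪V s g, U (-t) h⟫_ℂ
        = Complex.exp (-(Complex.I * (s : ℂ) * ((t * c : ℝ) : ℂ))) * ⟪U t g, V (-s) h⟫_ℂ := by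
      rw [← inner_flip (U t) (U (-t)) (hUneg t), hUV, inner_smul_left,
        inner_flip (V s) (V (-s)) (hVneg s), ← Complex.exp_conj]
      congr 2
      simp only [map_mul, Complex.conj_I, Complex.conj_ofReal]
      push_cast
      ring
    have h2 : ⟪V s g, h⟫_ℂ = ⟪g, V (-s) h⟫_ℂ := inner_flip (V s) (V (-s)) (hVneg s) g h
    have h3 : ⟪U t g, h⟫_ℂ = ⟪g, U (-t) h⟫_ℂ := inner_flip (U t) (U (-t)) (hUneg t) g h
    simp only [inner_sub_left, inner_sub_right]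
    rw [h1, h2, h3]
    ring
  -- continuity of `V (-s) h` and `U t g` at zero
  have hVh0 : ∀ x : H, Tendsto (fun s : ℝ => ⟪x, V (-s) h⟫_ℂ) 𝒰 (𝓝 ⟪x, h⟫_ℂ) := by
    intro x
    have h1 : Tendsto (fun s : ℝ => V (-s) h) 𝒰 (𝓝 h) := by
      rw [tendsto_iff_norm_sub_tendsto_zero]
      have h2 : Tendsto (fun s : ℝ => K * L * |s|) 𝒰 (𝓝 0) := by
        have : Tendsto (fun s : ℝ => K * L * |s|) (𝓝 0) (𝓝 (K * L * |(0 : ℝ)|)) := by
          apply Continuous.tendsto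
          fun_prop
        simp only [abs_zero, mul_zero] at this
        exact this.mono_left h𝒰0
      refine squeeze_zero (fun _ => norm_nonneg _) (fun s => ?_) h2
      simpa using hLVh (-s)
    exact (tendsto_const_nhds (x := x)).inner h1
  have hUg0 : Tendsto (fun t : ℝ => ⟪U t g, h⟫_ℂ) 𝒰 (𝓝 ⟪g, h⟫_ℂ) := by
    have h1 : Tendsto (fun s : ℝ => U s g) 𝒰 (𝓝 g) := by
      rw [tendsto_iff_norm_sub_tendsto_zero]
      have h2 : Tendsto (fun s : ℝ => L * |s|) 𝒰 (𝓝 0) := by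
        have : Tendsto (fun s : ℝ => L * |s|) (𝓝 0) (𝓝 (L * |(0 : ℝ)|)) := by
          apply Continuous.tendsto
          fun_prop
        simp only [abs_zero, mul_zero] at this
        exact this.mono_left h𝒰0
      exact squeeze_zero (fun _ => norm_nonneg _) (fun s => hLU s) h2
    exact h1.inner (tendsto_const_nhds (x := h))
  have hreal : ∀ t : ℝ, conj ((t : ℂ)⁻¹) = (t : ℂ)⁻¹ := by
    intro t
    rw [map_inv₀, Complex.conj_ofReal]
  -- first limit, in `s`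
  have hlim1 : ∀ t : ℝ, ⟪p, U (-t) h - h⟫_ℂ
      = ⟪U t g - g, p'⟫_ℂ + (-(Complex.I * ((t * c : ℝ) : ℂ))) * ⟪U t g, h⟫_ℂ := by
    intro t
    have h1 := hp (U (-t) h - h)
    have h2 := hflip _ _ hp' (U t g - g)
    have h3 := ((tendsto_phase_div (t * c)).mono_left h𝒰).mul (hVh0 (U t g))
    have h4 := h2.add h3
    refine tendsto_nhds_unique_of_eventuallyEq h1 h4 ?_
    filter_upwards [hne] with s hs
    rw [inner_smul_left, hreal, hcomm s t, inner_smul_right]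
    ring
  -- second limit, in `t`
  have hlim2 : ⟪p, q'⟫_ℂ = ⟪q, p'⟫_ℂ + (-(Complex.I * (c : ℂ))) * ⟪g, h⟫_ℂ := by
    have h1 := hflip _ _ hq' p
    have h2 := hq p'
    have h3 := hUg0.const_mul (-(Complex.I * (c : ℂ)))
    have h4 := h2.add h3
    refine tendsto_nhds_unique_of_eventuallyEq h1 h4 ?_
    filter_upwards [hne] with t ht
    rw [inner_smul_right, hlim1 t, inner_smul_left, hreal]
    have ht' : (t : ℂ) ≠ 0 := by exact_mod_cast ht
    push_cast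
    field_simp
  rw [hsymm, hgh0] at hlim2
  have h5 : Complex.I * (c : ℂ) = 0 := by linear_combination hlim2
  rcases mul_eq_zero.1 h5 with h6 | h6
  · exact Complex.I_ne_zero h6
  · exact hc (by exact_mod_cast h6)

end Pool.Agent.Helper49.BLT
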