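import Mathlib
import Pool.Agent.Helper49.BLTAbstract

/-! Time-frequency shifts on `L²(ℝ^d)`. -/

set_option autoImplicit false

namespace Pool.Agent.Helper49.BLT

open scoped InnerProductSpace ComplexConjugate ENNReal
open Filter Topology MeasureTheory

variable {d : ℕ}

/-- The function-level time-frequency shift with an extra phase `θ`. -/
noncomputable def tfFun (θ : ℝ) (p q : Fin d → ℝ) (f : (Fin d → ℝ) → ℂ) (x : Fin d → ℝ) : ℂ :=
  Complex.exp (((θ + 2 * Real.pi * ∑ j, q j * x j : ℝ) : ℂ) * Complex.I) * f (x - p)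

theorem norm_tfFun (θ : ℝ) (p q : Fin d → ℝ) (f : (Fin d → ℝ) → ℂ) (x : Fin d → ℝ) :
    ‖tfFun θ p q f x‖ = ‖f (x - p)‖ := by
  unfold tfFun
  rw [norm_mul, Complex.norm_exp_ofReal_mul_I, one_mul]

theorem memLp_tfFun (θ : ℝ) (p q : Fin d → ℝ) {f : (Fin d → ℝ) → ℂ} (hf : MemLp f 2 volume) :
    MemLp (tfFun θ p q f) 2 volume := by
  have h1 : MemLp (fun x => f (x - p)) 2 volume :=
    hf.comp_measurePreserving (measurePreserving_sub_right volume p)
  refine h1.congr_norm ?_ (ae_of_all _ fun x => (norm_tfFun θ p q f x).symm)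
  unfold tfFun
  apply AEStronglyMeasurable.mul _ h1.1
  apply Continuous.aestronglyMeasurable
  fun_prop

theorem tfFun_congr (θ : ℝ) (p q : Fin d → ℝ) {f g : (Fin d → ℝ) → ℂ} (h : f =ᵐ[volume] g) :
    tfFun θ p q f =ᵐ[volume] tfFun θ p q g := by
  have h1 := (measurePreserving_sub_right (volume : Measure (Fin d → ℝ)) p).quasiMeasurePreserving.ae_eq_comp h
  filter_upwards [h1] with x hx
  unfold tfFun
  simp only [Function.comp] at hx
  rw [hx]

theorem tfFun_tfFun (θ θ' : ℝ) (p q p' q' : Fin d → ℝ) (f : (Fin d → ℝ) → ℂ) :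
    tfFun θ p q (tfFun θ' p' q' f)
      = tfFun (θ + θ' - 2 * Real.pi * ∑ j, q' j * p j) (p + p') (q + q') f := by
  funext x
  unfold tfFun
  rw [← mul_assoc, ← Complex.exp_add]
  have h1 : x - p - p' = x - (p + p') := by abel
  rw [h1]
  congr 2
  have h2 : ∑ j, (q + q') j * x j = ∑ j, q j * x j + ∑ j, q' j * x j := by
    rw [← Finset.sum_add_distrib]
    apply Finset.sum_congr rfl
    intro j _
    simp only [Pi.add_apply]
    ring
  have h3 : ∑ j, q' j * (x - p) j = ∑ j, q' j * x j - ∑ j, q' j * p j := by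
    rw [← Finset.sum_sub_distrib]
    apply Finset.sum_congr rfl
    intro j _
    simp only [Pi.sub_apply]
    ring
  rw [h2, h3]
  push_cast
  ring

/-- Time-frequency shift as a linear isometry of `L²`. -/
noncomputable def tf (θ : ℝ) (p q : Fin d → ℝ) :
    Lp ℂ 2 (volume : Measure (Fin d → ℝ)) →ₗᵢ[ℂ] Lp ℂ 2 (volume : Measure (Fin d → ℝ)) where
  toFun f := (memLp_tfFun θ p q (Lp.memLp f)).toLp
  map_add' f g := by
    rw [← MemLp.toLp_add, MemLp.toLp_eq_toLp_iff]
    refine (tfFun_congr θ p q (Lp.coeFn_add f g)).trans (ae_of_all _ fun x => ?_)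
    simp only [tfFun, Pi.add_apply]
    ring
  map_smul' c f := by
    rw [RingHom.id_apply, ← MemLp.toLp_const_smul, MemLp.toLp_eq_toLp_iff]
    refine (tfFun_congr θ p q (Lp.coeFn_smul c f)).trans (ae_of_all _ fun x => ?_)
    simp only [tfFun, Pi.smul_apply, smul_eq_mul]
    ring
  norm_map' f := by
    change ‖(memLp_tfFun θ p q (Lp.memLp f)).toLp‖ = ‖f‖
    rw [Lp.norm_toLp, Lp.norm_def]
    congr 1
    have h1 : eLpNorm (tfFun θ p q f) 2 volume = eLpNorm (fun x => f (x - p)) 2 volume :=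
      eLpNorm_congr_norm_ae (ae_of_all _ fun x => norm_tfFun θ p q f x)
    rw [h1]
    exact eLpNorm_comp_measurePreserving (Lp.aestronglyMeasurable f)
      (measurePreserving_sub_right volume p)

theorem tf_toLp (θ : ℝ) (p q : Fin d → ℝ) {f : (Fin d → ℝ) → ℂ} (hf : MemLp f 2 volume) :
    tf θ p q hf.toLp = (memLp_tfFun θ p q hf).toLp := by
  change (memLp_tfFun θ p q (Lp.memLp hf.toLp)).toLp = _
  rw [MemLp.toLp_eq_toLp_iff]
  exact tfFun_congr θ p q hf.coeFn_toLp

theorem tf_tf (θ θ' : ℝ) (p q p' q' : Fin d → ℝ) (f : Lp ℂ 2 (volume : Measure (Fin d → ℝ))) :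
    tf θ p q (tf θ' p' q' f)
      = tf (θ + θ' - 2 * Real.pi * ∑ j, q' j * p j) (p + p') (q + q') f := by
  conv_lhs => rw [← Lp.toLp_coeFn f (Lp.memLp f), tf_toLp, tf_toLp]
  conv_rhs => rw [← Lp.toLp_coeFn f (Lp.memLp f), tf_toLp]
  rw [MemLp.toLp_eq_toLp_iff, tfFun_tfFun]

theorem tf_zero (f : Lp ℂ 2 (volume : Measure (Fin d → ℝ))) : tf 0 0 0 f = f := by
  conv_lhs => rw [← Lp.toLp_coeFn f (Lp.memLp f), tf_toLp]
  conv_rhs => rw [← Lp.toLp_coeFn f (Lp.memLp f)]
  rw [MemLp.toLp_eq_toLp_iff]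
  apply ae_of_all
  intro x
  simp [tfFun]

theorem tf_phase (a θ : ℝ) (p q : Fin d → ℝ) (f : Lp ℂ 2 (volume : Measure (Fin d → ℝ))) :
    tf (a + θ) p q f = Complex.exp (Complex.I * a) • tf θ p q f := by
  conv_lhs => rw [← Lp.toLp_coeFn f (Lp.memLp f), tf_toLp]
  conv_rhs => rw [← Lp.toLp_coeFn f (Lp.memLp f), tf_toLp]
  rw [← MemLp.toLp_const_smul, MemLp.toLp_eq_toLp_iff]
  apply ae_of_all
  intro x
  simp only [tfFun, Pi.smul_apply, smul_eq_mul]
  rw [← mul_assoc, ← Complex.exp_add]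
  congr 2
  push_cast
  ring

/-- The one-parameter group in the phase-space direction `(p, q)`. -/
noncomputable def rho (p q : Fin d → ℝ) (t : ℝ) :
    Lp ℂ 2 (volume : Measure (Fin d → ℝ)) ≃ₗᵢ[ℂ] Lp ℂ 2 (volume : Measure (Fin d → ℝ)) :=
  LinearIsometryEquiv.ofSurjective
    (tf (-(Real.pi * t ^ 2 * ∑ j, q j * p j)) (t • p) (t • q)) (by
      intro f
      refine ⟨tf (-(Real.pi * t ^ 2 * ∑ j, q j * p j)) (-(t • p)) (-(t • q)) f, ?_⟩
      rw [tf_tf]
      have h1 : (t • p) + (-(t • p)) = 0 := by abel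
      have h2 : (t • q) + (-(t • q)) = 0 := by abel
      rw [h1, h2]
      have h3 : ∑ j, (-(t • q)) j * (t • p) j = - t ^ 2 * ∑ j, q j * p j := by
        rw [Finset.mul_sum]
        apply Finset.sum_congr rfl
        intro j _
        simp only [Pi.neg_apply, Pi.smul_apply, smul_eq_mul]
        ring
      rw [h3]
      have h4 : -(Real.pi * t ^ 2 * ∑ j, q j * p j) + -(Real.pi * t ^ 2 * ∑ j, q j * p j)
          - 2 * Real.pi * (-t ^ 2 * ∑ j, q j * p j) = 0 := by ring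
      rw [h4, tf_zero])

theorem rho_apply (p q : Fin d → ℝ) (t : ℝ) (f : Lp ℂ 2 (volume : Measure (Fin d → ℝ))) :
    rho p q t f = tf (-(Real.pi * t ^ 2 * ∑ j, q j * p j)) (t • p) (t • q) f := rfl

theorem rho_neg (p q : Fin d → ℝ) (t : ℝ) (f : Lp ℂ 2 (volume : Measure (Fin d → ℝ))) :
    rho p q t (rho p q (-t) f) = f := by
  rw [rho_apply, rho_apply, tf_tf]
  have h1 : (t • p) + ((-t) • p) = 0 := by rw [← add_smul]; simp
  have h2 : (t • q) + ((-t) • q) = 0 := by rw [← add_smul]; simp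
  rw [h1, h2]
  have h3 : ∑ j, ((-t) • q) j * (t • p) j = - t ^ 2 * ∑ j, q j * p j := by
    rw [Finset.mul_sum]
    apply Finset.sum_congr rfl
    intro j _
    simp only [Pi.smul_apply, smul_eq_mul]
    ring
  rw [h3]
  have h4 : -(Real.pi * t ^ 2 * ∑ j, q j * p j) + -(Real.pi * (-t) ^ 2 * ∑ j, q j * p j)
      - 2 * Real.pi * (-t ^ 2 * ∑ j, q j * p j) = 0 := by ring
  rw [h4, tf_zero]

/-- Commutation of `rho` with a time-frequency shift. -/
theorem rho_tf (p q : Fin d → ℝ) (t : ℝ) (a b : Fin d → ℝ)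
    (f : Lp ℂ 2 (volume : Measure (Fin d → ℝ))) :
    rho p q t (tf 0 a b f)
      = Complex.exp (Complex.I * t * ((2 * Real.pi * (∑ j, q j * a j - ∑ j, b j * p j) : ℝ) : ℂ)) •
        tf 0 a b (rho p q t f) := by
  rw [rho_apply, rho_apply, tf_tf, tf_tf]
  have h1 : a + t • p = t • p + a := add_comm _ _
  have h2 : b + t • q = t • q + b := add_comm _ _
  rw [h1, h2]
  have h3 : Complex.I * (t : ℂ) * ((2 * Real.pi * (∑ j, q j * a j - ∑ j, b j * p j) : ℝ) : ℂ)
      = Complex.I * ((t * (2 * Real.pi * (∑ j, q j * a j - ∑ j, b j * p j)) : ℝ) : ℂ) := by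
    push_cast; ring
  rw [h3, ← tf_phase]
  congr 1
  congr 1
  have h4 : ∑ j, b j * (t • p) j = t * ∑ j, b j * p j := by
    rw [Finset.mul_sum]
    apply Finset.sum_congr rfl
    intro j _
    simp only [Pi.smul_apply, smul_eq_mul]
    ring
  have h5 : ∑ j, (t • q) j * a j = t * ∑ j, q j * a j := by
    rw [Finset.mul_sum]
    apply Finset.sum_congr rfl
    intro j _
    simp only [Pi.smul_apply, smul_eq_mul]
    ring
  rw [h4, h5]
  ring

theorem rho_rho (p q p' q' : Fin d → ℝ) (s t : ℝ)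
    (f : Lp ℂ 2 (volume : Measure (Fin d → ℝ))) :
    rho p q t (rho p' q' s f)
      = Complex.exp (Complex.I * s * (t * ((2 * Real.pi * (∑ j, q j * p' j - ∑ j, q' j * p j) : ℝ) : ℂ))) •
        rho p' q' s (rho p q t f) := by
  rw [rho_apply, rho_apply, rho_apply, rho_apply, tf_tf, tf_tf]
  have h1 : s • p' + t • p = t • p + s • p' := add_comm _ _
  have h2 : s • q' + t • q = t • q + s • q' := add_comm _ _
  rw [h1, h2]
  have h3 : Complex.I * (s : ℂ) * (t * ((2 * Real.pi * (∑ j, q j * p' j - ∑ j, q' j * p j) : ℝ) : ℂ))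
      = Complex.I * ((s * (t * (2 * Real.pi * (∑ j, q j * p' j - ∑ j, q' j * p j))) : ℝ) : ℂ) := by
    push_cast; ring
  rw [h3, ← tf_phase]
  congr 1
  congr 1
  have h4 : ∑ j, (s • q') j * (t • p) j = s * t * ∑ j, q' j * p j := by
    rw [Finset.mul_sum]
    apply Finset.sum_congr rfl
    intro j _
    simp only [Pi.smul_apply, smul_eq_mul]
    ring
  have h5 : ∑ j, (t • q) j * (s • p') j = s * t * ∑ j, q j * p' j := by
    rw [Finset.mul_sum]
    apply Finset.sum_congr rfl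
    intro j _
    simp only [Pi.smul_apply, smul_eq_mul]
    ring
  rw [h4, h5]
  ring

end Pool.Agent.Helper49.BLT
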