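import Mathlib
import Pool.Agent.Helper49.BLTShift

/-! Weak differentiability along a phase-space direction implies a Lipschitz bound along the
corresponding one-parameter group. -/

set_option autoImplicit false

namespace Pool.Agent.Helper49.BLT

open scoped InnerProductSpace ComplexConjugate ENNReal ContDiff
open Filter Topology MeasureTheory

variable {d : ℕ}

/-- The flow acting on test functions. -/
noncomputable def flow (p q : Fin d → ℝ) (φ : (Fin d → ℝ) → ℂ) (t : ℝ) (y : Fin d → ℝ) : ℂ :=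
  Complex.exp (((Real.pi * t ^ 2 * ∑ j, q j * p j + 2 * Real.pi * t * ∑ j, q j * y j : ℝ) : ℂ)
    * Complex.I) * φ (y + t • p)

/-- The (transposed) generator. -/
noncomputable def gen (p q : Fin d → ℝ) (φ : (Fin d → ℝ) → ℂ) (y : Fin d → ℝ) : ℂ :=
  fderiv ℝ φ y p + 2 * (Real.pi : ℂ) * Complex.I * ((∑ j, q j * y j : ℝ) : ℂ) * φ y

/-- `h` is the weak value of `(2πi q·x - p·∇) g`. -/
def WeakGen (p q : Fin d → ℝ) (g h : (Fin d → ℝ) → ℂ) : Prop :=
  ∀ φ : (Fin d → ℝ) → ℂ, ContDiff ℝ ((⊤ : ℕ∞) : WithTop ℕ∞) φ → HasCompactSupport φ →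
    ∫ x, g x * gen p q φ x = ∫ x, h x * φ x

theorem contDiff_flow (p q : Fin d → ℝ) {φ : (Fin d → ℝ) → ℂ}
    (hφ : ContDiff ℝ ((⊤ : ℕ∞) : WithTop ℕ∞) φ) (t : ℝ) :
    ContDiff ℝ ((⊤ : ℕ∞) : WithTop ℕ∞) (flow p q φ t) := by
  unfold flow
  apply ContDiff.mul
  · apply ContDiff.cexp
    apply ContDiff.mul _ contDiff_const
    have h : ContDiff ℝ ((⊤ : ℕ∞) : WithTop ℕ∞) (fun y : Fin d → ℝ =>
        Real.pi * t ^ 2 * ∑ j, q j * p j + 2 * Real.pi * t * ∑ j, q j * y j) := by fun_prop
    exact Complex.ofRealCLM.contDiff.comp h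
  · exact hφ.comp (by fun_prop)

theorem hasCompactSupport_flow (p q : Fin d → ℝ) {φ : (Fin d → ℝ) → ℂ}
    (hφ : HasCompactSupport φ) (t : ℝ) : HasCompactSupport (flow p q φ t) := by
  unfold flow
  apply HasCompactSupport.mul_left
  exact hφ.comp_homeomorph (Homeomorph.addRight (t • p))

/-- Fundamental derivative identity for the flow. -/
theorem hasDerivAt_flow (p q : Fin d → ℝ) {φ : (Fin d → ℝ) → ℂ}
    (hφ : ContDiff ℝ ((⊤ : ℕ∞) : WithTop ℕ∞) φ) (t : ℝ) (y : Fin d → ℝ) :
    HasDerivAt (fun t => flow p q φ t y) (gen p q (flow p q φ t) y) t := by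
  have hφd : Differentiable ℝ φ := hφ.differentiable (by simp)
  set Q : ℝ := ∑ j, q j * p j with hQ
  set Y : ℝ := ∑ j, q j * y j with hY
  -- derivative in `t`
  have h1 : HasDerivAt (fun t : ℝ => (((Real.pi * t ^ 2 * Q + 2 * Real.pi * t * Y : ℝ) : ℂ)
      * Complex.I)) (((Real.pi * (2 * t) * Q + 2 * Real.pi * Y : ℝ) : ℂ) * Complex.I) t := by
    apply HasDerivAt.mul_const
    apply HasDerivAt.ofReal_comp
    have h2 : HasDerivAt (fun t : ℝ => Real.pi * t ^ 2 * Q + 2 * Real.pi * t * Y)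
        (Real.pi * ((2 : ℕ) * t ^ (2 - 1)) * Q + 2 * Real.pi * 1 * Y) t := by
      apply HasDerivAt.add
      · exact ((hasDerivAt_pow 2 t).const_mul _).mul_const _
      · exact ((hasDerivAt_id t).const_mul _).mul_const _
    convert h2 using 1
    norm_num
  have h3 : HasDerivAt (fun t : ℝ => φ (y + t • p)) (fderiv ℝ φ (y + t • p) p) t := by
    have h4 : HasDerivAt (fun t : ℝ => y + t • p) p t := by
      have := ((hasDerivAt_id t).smul_const p).const_add y
      simpa using this
    exact (hφd (y + t • p)).hasFDerivAt.comp_hasDerivAt t h4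
  have h5 := (h1.cexp).mul h3
  -- space derivative of the flow in the direction `p`
  have h6 : fderiv ℝ (flow p q φ t) y p
      = Complex.exp (((Real.pi * t ^ 2 * Q + 2 * Real.pi * t * Y : ℝ) : ℂ) * Complex.I) *
          (((2 * Real.pi * t * Q : ℝ) : ℂ) * Complex.I) * φ (y + t • p)
        + Complex.exp (((Real.pi * t ^ 2 * Q + 2 * Real.pi * t * Y : ℝ) : ℂ) * Complex.I) *
          fderiv ℝ φ (y + t • p) p := by
    have hd : DifferentiableAt ℝ (flow p q φ t) y :=
      ((contDiff_flow p q hφ t).differentiable (by simp)) y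
    have h7 : HasDerivAt (fun r : ℝ => flow p q φ t (y + r • p)) (fderiv ℝ (flow p q φ t) y p) 0 := by
      have h4 : HasDerivAt (fun r : ℝ => y + r • p) p 0 := by
        have := ((hasDerivAt_id (0 : ℝ)).smul_const p).const_add y
        simpa using this
      have h8 : HasFDerivAt (flow p q φ t) (fderiv ℝ (flow p q φ t) y) (y + (0 : ℝ) • p) := by
        simpa using hd.hasFDerivAt
      exact h8.comp_hasDerivAt 0 h4
    have h9 : HasDerivAt (fun r : ℝ => flow p q φ t (y + r • p))
        (Complex.exp (((Real.pi * t ^ 2 * Q + 2 * Real.pi * t * Y : ℝ) : ℂ) * Complex.I) *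
          (((2 * Real.pi * t * Q : ℝ) : ℂ) * Complex.I) * φ (y + t • p)
        + Complex.exp (((Real.pi * t ^ 2 * Q + 2 * Real.pi * t * Y : ℝ) : ℂ) * Complex.I) *
          fderiv ℝ φ (y + t • p) p) 0 := by
      have e1 : ∀ r : ℝ, flow p q φ t (y + r • p) =
          Complex.exp (((Real.pi * t ^ 2 * Q + 2 * Real.pi * t * (Y + r * Q) : ℝ) : ℂ)
            * Complex.I) * φ (y + t • p + r • p) := by
        intro r
        unfold flow
        have e2 : ∑ j, q j * (y + r • p) j = Y + r * Q := by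
          rw [hY, hQ, Finset.mul_sum, ← Finset.sum_add_distrib]
          apply Finset.sum_congr rfl
          intro j _
          simp only [Pi.add_apply, Pi.smul_apply, smul_eq_mul]
          ring
        rw [e2, ← hQ]
        congr 2
        abel
      have h10 : HasDerivAt (fun r : ℝ =>
          (((Real.pi * t ^ 2 * Q + 2 * Real.pi * t * (Y + r * Q) : ℝ) : ℂ) * Complex.I))
          (((2 * Real.pi * t * Q : ℝ) : ℂ) * Complex.I) 0 := by
        apply HasDerivAt.mul_const
        apply HasDerivAt.ofReal_comp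
        have := ((((hasDerivAt_id (0 : ℝ)).mul_const Q).const_add Y).const_mul
          (2 * Real.pi * t)).const_add (Real.pi * t ^ 2 * Q)
        simpa using this
      have h11 : HasDerivAt (fun r : ℝ => φ (y + t • p + r • p)) (fderiv ℝ φ (y + t • p) p) 0 := by
        have h4 : HasDerivAt (fun r : ℝ => y + t • p + r • p) p 0 := by
          have := ((hasDerivAt_id (0 : ℝ)).smul_const p).const_add (y + t • p)
          simpa using this
        have h8 : HasFDerivAt φ (fderiv ℝ φ (y + t • p)) (y + t • p + (0 : ℝ) • p) := by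
          simpa using (hφd (y + t • p)).hasFDerivAt
        exact h8.comp_hasDerivAt 0 h4
      have h12 := (h10.cexp).mul h11
      simp only [zero_mul, add_zero, zero_smul] at h12
      refine h12.congr_of_eventuallyEq (Eventually.of_forall fun r => ?_)
      exact e1 r
    exact h7.unique h9
  unfold gen
  rw [h6]
  refine h5.congr_deriv ?_
  unfold flow
  rw [← hQ, ← hY]
  push_cast
  ring

/-- A compactly supported function is square integrable. -/
theorem memLp_test {φ : (Fin d → ℝ) → ℂ} (hφ : ContDiff ℝ ((⊤ : ℕ∞) : WithTop ℕ∞) φ)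
    (hs : HasCompactSupport φ) : MemLp φ 2 volume :=
  hφ.continuous.memLp_of_hasCompactSupport hs

/-- Locally uniform domination of the generator along the flow. -/
theorem gen_flow_bound (p q : Fin d → ℝ) {φ : (Fin d → ℝ) → ℂ}
    (hφ : ContDiff ℝ ((⊤ : ℕ∞) : WithTop ℕ∞) φ) (hs : HasCompactSupport φ) (t₀ : ℝ) :
    ∃ C R : ℝ, ∀ t ∈ Metric.ball t₀ 1, ∀ y : Fin d → ℝ,
      ‖gen p q (flow p q φ t) y‖ ≤ (Metric.closedBall (0 : Fin d → ℝ) R).indicator (fun _ => C) y := by
  -- the map `(t, y) ↦ gen p q (flow p q φ t) y` is continuous with an explicit formula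
  set Q : ℝ := ∑ j, q j * p j with hQ
  let G : ℝ × (Fin d → ℝ) → ℂ := fun z =>
    Complex.exp (((Real.pi * z.1 ^ 2 * Q + 2 * Real.pi * z.1 * ∑ j, q j * z.2 j : ℝ) : ℂ)
      * Complex.I) * ((((Real.pi * (2 * z.1) * Q + 2 * Real.pi * ∑ j, q j * z.2 j : ℝ) : ℂ)
      * Complex.I) * φ (z.2 + z.1 • p) + fderiv ℝ φ (z.2 + z.1 • p) p)
  have hG : ∀ t y, gen p q (flow p q φ t) y = G (t, y) := by
    intro t y
    have h1 := hasDerivAt_flow p q hφ t y
    have hφd : Differentiable ℝ φ := hφ.differentiable (by simp)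
    have h2 : HasDerivAt (fun t : ℝ => (((Real.pi * t ^ 2 * Q + 2 * Real.pi * t * ∑ j, q j * y j
        : ℝ) : ℂ) * Complex.I))
        (((Real.pi * (2 * t) * Q + 2 * Real.pi * ∑ j, q j * y j : ℝ) : ℂ) * Complex.I) t := by
      apply HasDerivAt.mul_const
      apply HasDerivAt.ofReal_comp
      have h2 : HasDerivAt (fun t : ℝ => Real.pi * t ^ 2 * Q + 2 * Real.pi * t * ∑ j, q j * y j)
          (Real.pi * ((2 : ℕ) * t ^ (2 - 1)) * Q + 2 * Real.pi * 1 * ∑ j, q j * y j) t := by
        apply HasDerivAt.add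
        · exact ((hasDerivAt_pow 2 t).const_mul _).mul_const _
        · exact ((hasDerivAt_id t).const_mul _).mul_const _
      convert h2 using 1
      norm_num
    have h3 : HasDerivAt (fun t : ℝ => φ (y + t • p)) (fderiv ℝ φ (y + t • p) p) t := by
      have h4 : HasDerivAt (fun t : ℝ => y + t • p) p t := by
        have := ((hasDerivAt_id t).smul_const p).const_add y
        simpa using this
      exact (hφd (y + t • p)).hasFDerivAt.comp_hasDerivAt t h4
    have h5 := (h2.cexp).mul h3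
    have h6 := h1.unique h5
    rw [h6]
    simp only [G]
    ring
  have hcont : Continuous G := by
    have hφc : Continuous φ := hφ.continuous
    have hφ' : Continuous (fun y => fderiv ℝ φ y p) :=
      (hφ.continuous_fderiv (by simp)).clm_apply continuous_const
    have ha : Continuous (fun z : ℝ × (Fin d → ℝ) => φ (z.2 + z.1 • p)) :=
      hφc.comp (by fun_prop)
    have hb : Continuous (fun z : ℝ × (Fin d → ℝ) => fderiv ℝ φ (z.2 + z.1 • p) p) :=
      hφ'.comp (f := fun z : ℝ × (Fin d → ℝ) => z.2 + z.1 • p) (by fun_prop)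
    have hc : Continuous (fun z : ℝ × (Fin d → ℝ) =>
        Complex.exp (((Real.pi * z.1 ^ 2 * Q + 2 * Real.pi * z.1 * ∑ j, q j * z.2 j : ℝ) : ℂ)
          * Complex.I)) := by fun_prop
    have hd : Continuous (fun z : ℝ × (Fin d → ℝ) =>
        (((Real.pi * (2 * z.1) * Q + 2 * Real.pi * ∑ j, q j * z.2 j : ℝ) : ℂ)
          * Complex.I)) := by fun_prop
    exact hc.mul ((hd.mul ha).add hb)
  obtain ⟨R₀, hR₀⟩ := hs.isCompact.isBounded.subset_closedBall (0 : Fin d → ℝ)
  set R : ℝ := R₀ + (|t₀| + 1) * ‖p‖ with hR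
  -- vanishing outside the ball
  have hzero : ∀ t ∈ Metric.ball t₀ 1, ∀ y : Fin d → ℝ, y ∉ Metric.closedBall (0 : Fin d → ℝ) R →
      G (t, y) = 0 := by
    intro t ht y hy
    have h1 : y + t • p ∉ tsupport φ := by
      intro h
      apply hy
      have h2 := hR₀ h
      rw [Metric.mem_closedBall, dist_zero_right] at h2 ⊢
      have h3 : |t| ≤ |t₀| + 1 := by
        rw [Metric.mem_ball, Real.dist_eq] at ht
        have := abs_sub_abs_le_abs_sub t t₀
        linarith
      calc ‖y‖ = ‖(y + t • p) - t • p‖ := by rw [add_sub_cancel_right]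
        _ ≤ ‖y + t • p‖ + ‖t • p‖ := norm_sub_le _ _
        _ ≤ R₀ + |t| * ‖p‖ := by rw [norm_smul, Real.norm_eq_abs]; linarith
        _ ≤ R := by
          rw [hR]
          gcongr
    have h2 : φ (y + t • p) = 0 := image_eq_zero_of_notMem_tsupport h1
    have h3 : fderiv ℝ φ (y + t • p) = 0 := by
      have := tsupport_fderiv_subset (𝕜 := ℝ) (f := φ)
      exact image_eq_zero_of_notMem_tsupport (fun h => h1 (this h))
    simp only [G]
    rw [h2, h3]
    simp
  obtain ⟨C, hC⟩ := ((isCompact_closedBall t₀ 1).prod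
    (isCompact_closedBall (0 : Fin d → ℝ) R)).exists_bound_of_continuousOn hcont.continuousOn
  refine ⟨C, R, fun t ht y => ?_⟩
  rw [hG]
  by_cases hy : y ∈ Metric.closedBall (0 : Fin d → ℝ) R
  · rw [Set.indicator_of_mem hy]
    exact hC (t, y) ⟨Metric.ball_subset_closedBall ht, hy⟩
  · rw [Set.indicator_of_notMem hy, hzero t ht y hy, norm_zero]

/-- The `L²` norm of the flow does not depend on time. -/
theorem norm_flow (p q : Fin d → ℝ) {φ : (Fin d → ℝ) → ℂ}
    (hφ : ContDiff ℝ ((⊤ : ℕ∞) : WithTop ℕ∞) φ) (hs : HasCompactSupport φ) (t : ℝ) :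
    ‖(memLp_test (contDiff_flow p q hφ t) (hasCompactSupport_flow p q hs t)).toLp‖
      = ‖(memLp_test hφ hs).toLp‖ := by
  rw [Lp.norm_toLp, Lp.norm_toLp]
  congr 1
  have h1 : eLpNorm (flow p q φ t) 2 volume = eLpNorm (fun x => φ (x + t • p)) 2 volume := by
    apply eLpNorm_congr_norm_ae
    apply ae_of_all
    intro x
    unfold flow
    rw [norm_mul, Complex.norm_exp_ofReal_mul_I, one_mul]
  rw [h1]
  exact eLpNorm_comp_measurePreserving (memLp_test hφ hs).1
    (measurePreserving_add_right volume (t • p))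

/-- Integral pairing bounded by the product of `L²` norms. -/
theorem norm_integral_mul_le {f g : (Fin d → ℝ) → ℂ} (hf : MemLp f 2 volume)
    (hg : MemLp g 2 volume) : ‖∫ x, f x * g x‖ ≤ ‖hf.toLp‖ * ‖hg.toLp‖ := by
  have hf' : MemLp (fun x => conj (f x)) 2 volume := by
    refine hf.congr_norm ?_ (ae_of_all _ fun x => by simp)
    exact Complex.continuous_conj.comp_aestronglyMeasurable hf.1
  have h1 : ∫ x, f x * g x = ⟪hf'.toLp, hg.toLp⟫_ℂ := by
    rw [MeasureTheory.L2.inner_def]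
    apply integral_congr_ae
    filter_upwards [hf'.coeFn_toLp, hg.coeFn_toLp] with x h1 h2
    rw [h1, h2, RCLike.inner_apply]
    simp [mul_comm]
  have h2 : ‖hf'.toLp‖ = ‖hf.toLp‖ := by
    rw [Lp.norm_toLp, Lp.norm_toLp]
    congr 1
    apply eLpNorm_congr_norm_ae
    exact ae_of_all _ fun x => by simp
  rw [h1, ← h2]
  exact norm_inner_le_norm _ _

/-- Differentiation of the pairing along the flow. -/
theorem hasDerivAt_pairing (p q : Fin d → ℝ) {g : (Fin d → ℝ) → ℂ} (hg : MemLp g 2 volume)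
    {φ : (Fin d → ℝ) → ℂ} (hφ : ContDiff ℝ ((⊤ : ℕ∞) : WithTop ℕ∞) φ)
    (hs : HasCompactSupport φ) (t₀ : ℝ) :
    HasDerivAt (fun t => ∫ y, g y * flow p q φ t y)
      (∫ y, g y * gen p q (flow p q φ t₀) y) t₀ := by
  obtain ⟨C, R, hCR⟩ := gen_flow_bound p q hφ hs t₀
  have hcontflow : ∀ t, Continuous (flow p q φ t) := fun t => (contDiff_flow p q hφ t).continuous
  have hgencont : ∀ t, Continuous (gen p q (flow p q φ t)) := by
    intro t
    unfold gen
    have h1 := contDiff_flow p q hφ t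
    apply Continuous.add
    · exact (h1.continuous_fderiv (by simp)).clm_apply continuous_const
    · apply Continuous.mul _ h1.continuous
      fun_prop
  have hloc : LocallyIntegrable g volume := hg.locallyIntegrable (by norm_num)
  have hint : Integrable (fun y => ‖g y‖ *
      (Metric.closedBall (0 : Fin d → ℝ) R).indicator (fun _ => C) y) volume := by
    have h1 : IntegrableOn (fun y => ‖g y‖ * C) (Metric.closedBall (0 : Fin d → ℝ) R) volume :=
      ((hloc.integrableOn_isCompact (isCompact_closedBall _ _)).norm).mul_const C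
    have h2 := h1.integrable_indicator measurableSet_closedBall
    refine h2.congr (ae_of_all _ fun y => ?_)
    by_cases hy : y ∈ Metric.closedBall (0 : Fin d → ℝ) R
    · simp only [Set.indicator_of_mem hy]
    · simp only [Set.indicator_of_notMem hy, mul_zero]
  have hflowint : ∀ t, Integrable (fun y => g y * flow p q φ t y) volume := by
    intro t
    have h1 := memLp_test (contDiff_flow p q hφ t) (hasCompactSupport_flow p q hs t)
    exact hg.integrable_mul h1
  refine (hasDerivAt_integral_of_dominated_loc_of_deriv_le (s := Metric.ball t₀ 1)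
    (F := fun t y => g y * flow p q φ t y) (F' := fun t y => g y * gen p q (flow p q φ t) y)
    (Metric.ball_mem_nhds t₀ one_pos) ?_ (hflowint t₀) ?_ ?_ hint ?_).2
  · exact Eventually.of_forall fun t => (hflowint t).1
  · exact hg.1.mul (hgencont t₀).aestronglyMeasurable
  · apply ae_of_all
    intro y t ht
    rw [norm_mul]
    exact mul_le_mul_of_nonneg_left (hCR t ht y) (norm_nonneg _)
  · apply ae_of_all
    intro y t _
    exact (hasDerivAt_flow p q hφ t y).const_mul (g y)

/-- Lipschitz estimate for the pairing. -/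
theorem pairing_lipschitz (p q : Fin d → ℝ) {g h : (Fin d → ℝ) → ℂ} (hg : MemLp g 2 volume)
    (hh : MemLp h 2 volume) (hw : WeakGen p q g h)
    {φ : (Fin d → ℝ) → ℂ} (hφ : ContDiff ℝ ((⊤ : ℕ∞) : WithTop ℕ∞) φ)
    (hs : HasCompactSupport φ) (t : ℝ) :
    ‖(∫ y, g y * flow p q φ t y) - ∫ y, g y * flow p q φ 0 y‖
      ≤ ‖hh.toLp‖ * ‖(memLp_test hφ hs).toLp‖ * |t| := by
  have h1 : ∀ r ∈ (Set.univ : Set ℝ), HasDerivWithinAt (fun t => ∫ y, g y * flow p q φ t y)
      (∫ y, g y * gen p q (flow p q φ r) y) Set.univ r :=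
    fun r _ => (hasDerivAt_pairing p q hg hφ hs r).hasDerivWithinAt
  have h2 : ∀ r ∈ (Set.univ : Set ℝ), ‖∫ y, g y * gen p q (flow p q φ r) y‖
      ≤ ‖hh.toLp‖ * ‖(memLp_test hφ hs).toLp‖ := by
    intro r _
    rw [hw (flow p q φ r) (contDiff_flow p q hφ r) (hasCompactSupport_flow p q hs r),
      ← norm_flow p q hφ hs r]
    exact norm_integral_mul_le hh _
  have h3 := Convex.norm_image_sub_le_of_norm_hasDerivWithin_le h1 h2 convex_univ
    (Set.mem_univ 0) (Set.mem_univ t)
  simpa using h3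

theorem flow_zero (p q : Fin d → ℝ) (φ : (Fin d → ℝ) → ℂ) : flow p q φ 0 = φ := by
  funext y
  simp [flow]

/-- The flow is the transpose of the one-parameter group. -/
theorem integral_tf_mul (p q : Fin d → ℝ) (g φ : (Fin d → ℝ) → ℂ) (t : ℝ) :
    ∫ x, tfFun (-(Real.pi * t ^ 2 * ∑ j, q j * p j)) (t • p) (t • q) g x * φ x
      = ∫ y, g y * flow p q φ t y := by
  rw [← integral_add_right_eq_self _ (t • p)]
  apply integral_congr_ae
  apply ae_of_all
  intro y
  simp only [tfFun, flow, add_sub_cancel_right]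
  have h1 : ∑ j, (t • q) j * (y + t • p) j
      = t * ∑ j, q j * y j + t ^ 2 * ∑ j, q j * p j := by
    rw [Finset.mul_sum, Finset.mul_sum, ← Finset.sum_add_distrib]
    apply Finset.sum_congr rfl
    intro j _
    simp only [Pi.add_apply, Pi.smul_apply, smul_eq_mul]
    ring
  rw [h1]
  have h2 : (-(Real.pi * t ^ 2 * ∑ j, q j * p j)
      + 2 * Real.pi * (t * ∑ j, q j * y j + t ^ 2 * ∑ j, q j * p j) : ℝ)
      = Real.pi * t ^ 2 * ∑ j, q j * p j + 2 * Real.pi * t * ∑ j, q j * y j := by ring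
  rw [h2]
  ring

/-- Test functions are dense: a bound on pairings gives a bound on the norm. -/
theorem norm_le_of_pairing {w : (Fin d → ℝ) → ℂ} (hw : MemLp w 2 volume) {C : ℝ} (hC : 0 ≤ C)
    (h : ∀ φ : (Fin d → ℝ) → ℂ, ∀ (hφ : ContDiff ℝ ((⊤ : ℕ∞) : WithTop ℕ∞) φ)
      (hs : HasCompactSupport φ), ‖∫ x, w x * φ x‖ ≤ C * ‖(memLp_test hφ hs).toLp‖) :
    ‖hw.toLp‖ ≤ C := by
  -- the subspace of test functions
  let D : Submodule ℂ (Lp ℂ 2 (volume : Measure (Fin d → ℝ))) :=
    { carrier := {f | ∃ (φ : (Fin d → ℝ) → ℂ) (hφ : ContDiff ℝ ((⊤ : ℕ∞) : WithTop ℕ∞) φ)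
        (hs : HasCompactSupport φ), f = (memLp_test hφ hs).toLp}
      add_mem' := by
        rintro f g ⟨φ, hφ, hs, rfl⟩ ⟨ψ, hψ, hs', rfl⟩
        exact ⟨φ + ψ, hφ.add hψ, hs.add hs', rfl⟩
      zero_mem' := ⟨0, contDiff_const, HasCompactSupport.zero, by
        rw [← MemLp.toLp_zero]⟩
      smul_mem' := by
        rintro c f ⟨φ, hφ, hs, rfl⟩
        exact ⟨c • φ, hφ.const_smul c, hs.smul_left, rfl⟩ }
  have hpair : ∀ (φ : (Fin d → ℝ) → ℂ) (hφ : ContDiff ℝ ((⊤ : ℕ∞) : WithTop ℕ∞) φ)
      (hs : HasCompactSupport φ) (f : Lp ℂ 2 (volume : Measure (Fin d → ℝ))),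
      ⟪(memLp_test hφ hs).toLp, f⟫_ℂ = ∫ x, f x * conj (φ x) := by
    intro φ hφ hs f
    rw [MeasureTheory.L2.inner_def]
    apply integral_congr_ae
    filter_upwards [(memLp_test hφ hs).coeFn_toLp] with x h1
    rw [h1, RCLike.inner_apply]
  have horth : Dᗮ = ⊥ := by
    rw [Submodule.eq_bot_iff]
    intro f hf
    rw [Submodule.mem_orthogonal] at hf
    have h1 : ∀ᵐ x ∂(volume : Measure (Fin d → ℝ)), f x = 0 := by
      apply ae_eq_zero_of_integral_contDiff_smul_eq_zero
        ((Lp.memLp f).locallyIntegrable (by norm_num))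
      intro ψ hψ hs
      have hψ' : ContDiff ℝ ((⊤ : ℕ∞) : WithTop ℕ∞) (fun x => ((ψ x : ℝ) : ℂ)) :=
        Complex.ofRealCLM.contDiff.comp hψ
      have hs' : HasCompactSupport (fun x => ((ψ x : ℝ) : ℂ)) :=
        hs.comp_left (g := fun r : ℝ => (r : ℂ)) (by simp)
      have h2 := hf _ ⟨_, hψ', hs', rfl⟩
      rw [hpair _ hψ' hs'] at h2
      rw [← h2]
      apply integral_congr_ae
      apply ae_of_all
      intro x
      simp [mul_comm]
    exact Lp.eq_zero_iff_ae_eq_zero.2 h1
  have hdense : Dense (D : Set (Lp ℂ 2 (volume : Measure (Fin d → ℝ)))) := by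
    rw [Submodule.dense_iff_topologicalClosure_eq_top]
    exact (Submodule.topologicalClosure_eq_top_iff).2 horth
  have hall : ∀ f : Lp ℂ 2 (volume : Measure (Fin d → ℝ)), ‖⟪f, hw.toLp⟫_ℂ‖ ≤ C * ‖f‖ := by
    intro f
    have hcl : IsClosed {f : Lp ℂ 2 (volume : Measure (Fin d → ℝ)) |
        ‖⟪f, hw.toLp⟫_ℂ‖ ≤ C * ‖f‖} := by
      apply isClosed_le
      · fun_prop
      · fun_prop
    refine closure_minimal (s := (D : Set (Lp ℂ 2 (volume : Measure (Fin d → ℝ))))) ?_ hcl
      (hdense f)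
    · rintro f ⟨φ, hφ, hs, rfl⟩
      change ‖⟪(memLp_test hφ hs).toLp, hw.toLp⟫_ℂ‖ ≤ C * ‖(memLp_test hφ hs).toLp‖
      rw [hpair φ hφ hs]
      have hφ' : ContDiff ℝ ((⊤ : ℕ∞) : WithTop ℕ∞) (fun x => conj (φ x)) :=
        Complex.conjCLE.contDiff.comp hφ
      have hs' : HasCompactSupport (fun x => conj (φ x)) :=
        hs.comp_left (g := fun r : ℂ => conj r) (by simp)
      have h1 := h _ hφ' hs'
      have h2 : ‖(memLp_test hφ' hs').toLp‖ = ‖(memLp_test hφ hs).toLp‖ := by
        rw [Lp.norm_toLp, Lp.norm_toLp]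
        congr 1
        apply eLpNorm_congr_norm_ae
        exact ae_of_all _ fun x => by simp
      rw [h2] at h1
      refine le_trans (le_of_eq ?_) h1
      congr 1
      apply integral_congr_ae
      filter_upwards [hw.coeFn_toLp] with x h3
      rw [h3]
  have h1 := hall hw.toLp
  rw [inner_self_eq_norm_sq_to_K] at h1
  have h2 : ‖((‖hw.toLp‖ : ℂ)) ^ 2‖ = ‖hw.toLp‖ ^ 2 := by
    rw [norm_pow, Complex.norm_real, Real.norm_of_nonneg (norm_nonneg _)]
  rcases (norm_nonneg hw.toLp).eq_or_lt with h3 | h3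
  · rw [← h3]; exact hC
  · have h4 : ‖hw.toLp‖ ^ 2 ≤ C * ‖hw.toLp‖ := by
      rw [← h2]
      exact h1
    nlinarith

/-- **Weak differentiability gives a Lipschitz bound.** -/
theorem rho_lipschitz (p q : Fin d → ℝ) {g h : (Fin d → ℝ) → ℂ} (hg : MemLp g 2 volume)
    (hh : MemLp h 2 volume) (hw : WeakGen p q g h) (t : ℝ) :
    ‖rho p q t hg.toLp - hg.toLp‖ ≤ ‖hh.toLp‖ * |t| := by
  rw [rho_apply, tf_toLp, ← MemLp.toLp_sub]
  apply norm_le_of_pairing
  · positivity
  · intro φ hφ hs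
    have h1 := pairing_lipschitz p q hg hh hw hφ hs t
    rw [← integral_tf_mul, flow_zero] at h1
    have hm := memLp_tfFun (-(Real.pi * t ^ 2 * ∑ j, q j * p j)) (t • p) (t • q) hg
    have hi1 : Integrable (fun x => tfFun (-(Real.pi * t ^ 2 * ∑ j, q j * p j)) (t • p) (t • q)
        g x * φ x) volume := hm.integrable_mul (memLp_test hφ hs)
    have hi2 : Integrable (fun x => g x * φ x) volume := hg.integrable_mul (memLp_test hφ hs)
    rw [← integral_sub hi1 hi2] at h1
    calc _ = ‖∫ x, (tfFun (-(Real.pi * t ^ 2 * ∑ j, q j * p j)) (t • p) (t • q) g x * φ x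
          - g x * φ x)‖ := by
          congr 1
          apply integral_congr_ae
          apply ae_of_all
          intro x
          simp only [Pi.sub_apply]
          ring
      _ ≤ ‖hh.toLp‖ * ‖(memLp_test hφ hs).toLp‖ * |t| := h1
      _ = _ := by ring

end Pool.Agent.Helper49.BLT
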