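import Mathlib
import Pool.Agent.Helper49.BLTWeak

/-! The Balian-Low theorem for arbitrary lattices, in every pair of conjugate directions. -/

set_option autoImplicit false

namespace Pool.Agent.Helper49.BLT

open scoped InnerProductSpace ComplexConjugate ENNReal ContDiff
open Filter Topology MeasureTheory

variable {d : ℕ}

/-- position part of the lattice point -/
noncomputable def posPart (M : Matrix (Fin d ⊕ Fin d) (Fin d ⊕ Fin d) ℝ)
    (k : Fin d ⊕ Fin d → ℤ) : Fin d → ℝ :=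
  fun j => Matrix.mulVec M (fun i => ((k i : ℤ) : ℝ)) (Sum.inl j)

/-- frequency part of the lattice point -/
noncomputable def freqPart (M : Matrix (Fin d ⊕ Fin d) (Fin d ⊕ Fin d) ℝ)
    (k : Fin d ⊕ Fin d → ℤ) : Fin d → ℝ :=
  fun j => Matrix.mulVec M (fun i => ((k i : ℤ) : ℝ)) (Sum.inr j)

/-- Gabor atoms, written exactly as in the frozen statement. -/
noncomputable def atom (M : Matrix (Fin d ⊕ Fin d) (Fin d ⊕ Fin d) ℝ)
    (g : (Fin d → ℝ) → ℂ) (k : Fin d ⊕ Fin d → ℤ) (x : Fin d → ℝ) : ℂ :=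
  Complex.exp (2 * (Real.pi : ℂ) * Complex.I *
    ((∑ j, Matrix.mulVec M (fun i => ((k i : ℤ) : ℝ)) (Sum.inr j) * x j : ℝ) : ℂ)) *
      g (x - fun j => Matrix.mulVec M (fun i => ((k i : ℤ) : ℝ)) (Sum.inl j))

theorem atom_eq (M : Matrix (Fin d ⊕ Fin d) (Fin d ⊕ Fin d) ℝ)
    (g : (Fin d → ℝ) → ℂ) (k : Fin d ⊕ Fin d → ℤ) :
    atom M g k = tfFun 0 (posPart M k) (freqPart M k) g := by
  funext x
  unfold atom tfFun posPart freqPart
  congr 2
  push_cast
  ring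

theorem posPart_add (M : Matrix (Fin d ⊕ Fin d) (Fin d ⊕ Fin d) ℝ)
    (k l : Fin d ⊕ Fin d → ℤ) : posPart M (k + l) = posPart M k + posPart M l := by
  have h : (fun i => (((k + l) i : ℤ) : ℝ)) = (fun i => ((k i : ℤ) : ℝ)) + (fun i => ((l i : ℤ) : ℝ)) := by
    funext i; simp
  funext j
  change Matrix.mulVec M (fun i => (((k + l) i : ℤ) : ℝ)) (Sum.inl j) = _
  rw [h, Matrix.mulVec_add]
  rfl

theorem freqPart_add (M : Matrix (Fin d ⊕ Fin d) (Fin d ⊕ Fin d) ℝ)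
    (k l : Fin d ⊕ Fin d → ℤ) : freqPart M (k + l) = freqPart M k + freqPart M l := by
  have h : (fun i => (((k + l) i : ℤ) : ℝ)) = (fun i => ((k i : ℤ) : ℝ)) + (fun i => ((l i : ℤ) : ℝ)) := by
    funext i; simp
  funext j
  change Matrix.mulVec M (fun i => (((k + l) i : ℤ) : ℝ)) (Sum.inr j) = _
  rw [h, Matrix.mulVec_add]
  rfl

theorem posPart_zero (M : Matrix (Fin d ⊕ Fin d) (Fin d ⊕ Fin d) ℝ) : posPart M 0 = 0 := by
  have := posPart_add M 0 0
  simpa using this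

theorem freqPart_zero (M : Matrix (Fin d ⊕ Fin d) (Fin d ⊕ Fin d) ℝ) : freqPart M 0 = 0 := by
  have := freqPart_add M 0 0
  simpa using this

/-- Squared norm in `L²` as an integral. -/
theorem norm_sq_toLp {f : (Fin d → ℝ) → ℂ} (hf : MemLp f 2 volume) :
    ‖hf.toLp‖ ^ 2 = ∫ x, ‖f x‖ ^ 2 := by
  have h1 : ((‖hf.toLp‖ : ℂ)) ^ 2 = ∫ x, ((‖f x‖ ^ 2 : ℝ) : ℂ) := by
    have h2 := inner_self_eq_norm_sq_to_K (𝕜 := ℂ) hf.toLp
    rw [MeasureTheory.L2.inner_def] at h2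
    have h3 : ((‖hf.toLp‖ : ℂ)) ^ 2 = ∫ x, ⟪(hf.toLp f) x, (hf.toLp f) x⟫_ℂ := h2.symm
    rw [h3]
    apply integral_congr_ae
    filter_upwards [hf.coeFn_toLp] with x hx
    rw [hx, inner_self_eq_norm_sq_to_K]
    push_cast
    rfl
  have h4 : (((‖hf.toLp‖ ^ 2 : ℝ)) : ℂ) = ((∫ x, ‖f x‖ ^ 2 : ℝ) : ℂ) := by
    rw [← integral_complex_ofReal]
    rw [← h1]
    push_cast
    rfl
  exact_mod_cast h4

/-- The family of Gabor atoms satisfies the hypotheses of the abstract theorem. -/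
theorem isRiesz_of_gabor (M : Matrix (Fin d ⊕ Fin d) (Fin d ⊕ Fin d) ℝ)
    {g : (Fin d → ℝ) → ℂ} (hg : MemLp g 2 volume)
    (hcomp : ∀ h : (Fin d → ℝ) → ℂ, MemLp h 2 volume →
      (∀ k : Fin d ⊕ Fin d → ℤ, ∫ x, (starRingEnd ℂ) (h x) * atom M g k x = 0) →
      h =ᵐ[volume] 0)
    (hbd : ∃ A B : ℝ, 0 < A ∧ 0 < B ∧
      ∀ (s : Finset (Fin d ⊕ Fin d → ℤ)) (c : (Fin d ⊕ Fin d → ℤ) → ℂ),
        A * ∑ k ∈ s, ‖c k‖ ^ 2 ≤ ∫ x, ‖∑ k ∈ s, c k * atom M g k x‖ ^ 2 ∧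
        ∫ x, ‖∑ k ∈ s, c k * atom M g k x‖ ^ 2 ≤ B * ∑ k ∈ s, ‖c k‖ ^ 2) :
    IsRiesz (fun k : Fin d ⊕ Fin d → ℤ => tf 0 (posPart M k) (freqPart M k) hg.toLp) := by
  have hatom : ∀ k, MemLp (atom M g k) 2 volume := by
    intro k
    rw [atom_eq]
    exact memLp_tfFun _ _ _ hg
  have hE : ∀ k, tf 0 (posPart M k) (freqPart M k) hg.toLp = (hatom k).toLp := by
    intro k
    rw [tf_toLp]
    rw [MemLp.toLp_eq_toLp_iff, atom_eq]
  constructor
  · intro f hf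
    have h1 := hcomp f (Lp.memLp f) (fun k => by
      have h2 := hf k
      simp only [hE] at h2
      rw [MeasureTheory.L2.inner_def] at h2
      have h3 : ∫ x, conj (⟪((hatom k).toLp (atom M g k)) x, f x⟫_ℂ) = 0 := by
        rw [integral_conj, h2, map_zero]
      rw [← h3]
      apply integral_congr_ae
      filter_upwards [(hatom k).coeFn_toLp] with x hx
      rw [hx, RCLike.inner_apply, map_mul, Complex.conj_conj])
    exact Lp.eq_zero_iff_ae_eq_zero.2 h1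
  · obtain ⟨A, B, hA, hB, hAB⟩ := hbd
    refine ⟨A, B, hA, hB, fun s c => ?_⟩
    have hsum : MemLp (fun x => ∑ k ∈ s, c k * atom M g k x) 2 volume := by
      apply memLp_finsetSum
      intro k _
      exact (hatom k).const_mul (c k)
    have h1 : ∑ k ∈ s, c k • tf 0 (posPart M k) (freqPart M k) hg.toLp = hsum.toLp := by
      apply Lp.ext
      have h3 : ∀ᵐ x ∂(volume : Measure (Fin d → ℝ)), ∀ k,
          (c k • tf 0 (posPart M k) (freqPart M k) (hg.toLp g)) x = c k * atom M g k x := by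
        rw [ae_all_iff]
        intro k
        rw [hE]
        filter_upwards [Lp.coeFn_smul (c k) ((hatom k).toLp (atom M g k)),
          (hatom k).coeFn_toLp] with x hx1 hx2
        rw [hx1, Pi.smul_apply, hx2, smul_eq_mul]
      filter_upwards [Lp.coeFn_finsetSum s
        (fun k => c k • tf 0 (posPart M k) (freqPart M k) (hg.toLp g)), hsum.coeFn_toLp, h3]
        with x hx1 hx2 hx3
      rw [hx1, hx2, Finset.sum_apply]
      exact Finset.sum_congr rfl (fun k _ => hx3 k)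
    rw [h1, norm_sq_toLp]
    exact hAB s c

theorem projRep (M : Matrix (Fin d ⊕ Fin d) (Fin d ⊕ Fin d) ℝ) :
    ProjRep (fun k : Fin d ⊕ Fin d → ℤ => tf 0 (posPart M k) (freqPart M k)) := by
  constructor
  · intro x
    simp only [posPart_zero, freqPart_zero]
    exact tf_zero x
  · intro k l
    refine ⟨Complex.exp (Complex.I * ((-(2 * Real.pi * ∑ j, freqPart M l j * posPart M k j) : ℝ) : ℂ)),
      ?_, fun x => ?_⟩
    · rw [mul_comm, Complex.norm_exp_ofReal_mul_I]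
    · rw [tf_tf, posPart_add, freqPart_add, ← tf_phase]
      congr 2
      ring

/-- **Balian-Low theorem for every lattice and every pair of conjugate directions.** -/
theorem balian_low_directional (M : Matrix (Fin d ⊕ Fin d) (Fin d ⊕ Fin d) ℝ)
    {g : (Fin d → ℝ) → ℂ} (hg : MemLp g 2 volume)
    (hcomp : ∀ h : (Fin d → ℝ) → ℂ, MemLp h 2 volume →
      (∀ k : Fin d ⊕ Fin d → ℤ, ∫ x, (starRingEnd ℂ) (h x) * atom M g k x = 0) →
      h =ᵐ[volume] 0)
    (hbd : ∃ A B : ℝ, 0 < A ∧ 0 < B ∧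
      ∀ (s : Finset (Fin d ⊕ Fin d → ℤ)) (c : (Fin d ⊕ Fin d → ℤ) → ℂ),
        A * ∑ k ∈ s, ‖c k‖ ^ 2 ≤ ∫ x, ‖∑ k ∈ s, c k * atom M g k x‖ ^ 2 ∧
        ∫ x, ‖∑ k ∈ s, c k * atom M g k x‖ ^ 2 ≤ B * ∑ k ∈ s, ‖c k‖ ^ 2)
    (p q p' q' : Fin d → ℝ) (hΩ : ∑ j, q j * p' j - ∑ j, q' j * p j ≠ 0)
    {h h' : (Fin d → ℝ) → ℂ} (hh : MemLp h 2 volume) (hh' : MemLp h' 2 volume)
    (hw : WeakGen p q g h) (hw' : WeakGen p' q' g h') : False := by
  classical
  have hR := isRiesz_of_gabor M hg hcomp hbd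
  set L : ℝ := max ‖hh.toLp‖ ‖hh'.toLp‖ with hL
  refine balian_low_abstract (projRep M) hR (rho p q) (rho p' q')
    (fun k => 2 * Real.pi * (∑ j, q j * posPart M k j - ∑ j, freqPart M k j * p j))
    (fun k => 2 * Real.pi * (∑ j, q' j * posPart M k j - ∑ j, freqPart M k j * p' j))
    ?_ ?_ ?_ ?_ (2 * Real.pi * (∑ j, q j * p' j - ∑ j, q' j * p j)) ?_ ?_ ?_ ?_ L ?_ ?_
  · simp [posPart_zero, freqPart_zero]
  · simp [posPart_zero, freqPart_zero]
  · intro t k x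
    exact rho_tf p q t _ _ x
  · intro t k x
    exact rho_tf p' q' t _ _ x
  · exact mul_ne_zero (mul_ne_zero two_ne_zero Real.pi_ne_zero) hΩ
  · intro s t x
    exact rho_rho p q p' q' s t x
  · exact rho_neg p q
  · exact rho_neg p' q'
  · intro t
    exact (rho_lipschitz p q hg hh hw t).trans
      (mul_le_mul_of_nonneg_right (le_max_left _ _) (abs_nonneg t))
  · intro t
    exact (rho_lipschitz p' q' hg hh' hw' t).trans
      (mul_le_mul_of_nonneg_right (le_max_right _ _) (abs_nonneg t))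

end Pool.Agent.Helper49.BLT
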