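import Mathlib
import Pool.Agent.Helper49.CycMain

/-! Polynomials with cyclicity threshold exactly `r / s`. -/

set_option autoImplicit false

namespace Pool.Agent.Helper49.Cyc

open scoped ENNReal
open Filter Topology MvPolynomial

variable {d r s : ℕ}

/-- The exponent vector with entries `a_0, ..., a_{r-1}`, then `s - r` times `∑ a`, then zeros. -/
noncomputable def KK (d r s : ℕ) (a : Fin r → ℕ) : Fin d →₀ ℕ :=
  Finsupp.equivFunOnFinite.symm
    (fun j => if h : (j : ℕ) < r then a ⟨j, h⟩ else if (j : ℕ) < s then ∑ i, a i else 0)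

theorem KK_apply (a : Fin r → ℕ) (j : Fin d) :
    KK d r s a j = if h : (j : ℕ) < r then a ⟨j, h⟩ else if (j : ℕ) < s then ∑ i, a i else 0 := rfl

theorem KK_add (a b : Fin r → ℕ) : KK d r s (a + b) = KK d r s a + KK d r s b := by
  ext j
  rw [Finsupp.add_apply, KK_apply, KK_apply, KK_apply]
  split_ifs
  · simp
  · simp [Finset.sum_add_distrib]
  · simp

theorem KK_zero : KK d r s (0 : Fin r → ℕ) = 0 := by
  ext j
  rw [KK_apply]
  split_ifs <;> simp

theorem KK_injective (hrd : r ≤ d) : Function.Injective (KK d r s) := by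
  intro a b h
  funext i
  have h1 := DFunLike.congr_fun h (⟨i, lt_of_lt_of_le i.2 hrd⟩ : Fin d)
  rw [KK_apply, KK_apply] at h1
  simpa using h1

/-- The weight of `KK a`. -/
theorem weight_KK (hrs : r ≤ s) (hsd : s ≤ d) (t : ℝ) (a : Fin r → ℕ) :
    weight t (KK d r s a)
      = (∏ i, (1 + (a i : ℝ)) ^ t) * ((1 + ((∑ i, a i : ℕ) : ℝ)) ^ t) ^ (s - r) := by
  unfold weight
  set g : ℕ → ℝ := fun j => (1 + (((if h : j < r then a ⟨j, h⟩ else if j < s then ∑ i, a i else 0)
    : ℕ) : ℝ)) ^ t with hg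
  have h1 : ∏ j : Fin d, (1 + ((KK d r s a j : ℕ) : ℝ)) ^ t = ∏ j ∈ Finset.range d, g j := by
    rw [← Fin.prod_univ_eq_prod_range]
    rfl
  have h2 : ∏ i : Fin r, (1 + (a i : ℝ)) ^ t = ∏ j ∈ Finset.range r, g j := by
    rw [← Fin.prod_univ_eq_prod_range]
    apply Finset.prod_congr rfl
    intro i _
    simp [hg]
  rw [h1, h2, ← Finset.prod_range_mul_prod_Ico g (hrs.trans hsd),
    ← Finset.prod_Ico_consecutive g hrs hsd, ← mul_assoc]
  have h3 : ∏ j ∈ Finset.Ico r s, g j = ((1 + ((∑ i, a i : ℕ) : ℝ)) ^ t) ^ (s - r) := by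
    rw [Finset.prod_congr rfl (g := fun _ => (1 + ((∑ i, a i : ℕ) : ℝ)) ^ t)]
    · simp
    · intro j hj
      rw [Finset.mem_Ico] at hj
      simp only [hg]
      rw [dif_neg (by omega), if_pos (by omega)]
  have h4 : ∏ j ∈ Finset.Ico s d, g j = 1 := by
    apply Finset.prod_eq_one
    intro j hj
    rw [Finset.mem_Ico] at hj
    simp only [hg]
    rw [dif_neg (by omega), if_neg (by omega)]
    simp
  rw [h3, h4, mul_one]

/-- The threshold polynomial `r - ∑_{i < r} z_i z_r ⋯ z_{s-1}` (indices from `0`). -/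
noncomputable def thrPoly (d r s : ℕ) : MvPolynomial (Fin d) ℂ :=
  C (r : ℂ) - ∑ i : Fin r, monomial (KK d r s (Pi.single i 1)) 1

theorem KK_single_ne_zero (hrd : r ≤ d) (i : Fin r) : KK d r s (Pi.single i 1) ≠ 0 := by
  intro h
  rw [← KK_zero] at h
  have := KK_injective hrd h
  have h1 := congrFun this i
  simp at h1

theorem coeff_thrPoly_zero (hrd : r ≤ d) : (thrPoly d r s).coeff 0 = r := by
  classical
  unfold thrPoly
  rw [coeff_sub, coeff_C, if_pos rfl, coeff_sum]
  have : ∑ i : Fin r, coeff 0 (monomial (KK d r s (Pi.single i 1)) (1 : ℂ)) = 0 := by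
    apply Finset.sum_eq_zero
    intro i _
    rw [coeff_monomial, if_neg (KK_single_ne_zero hrd i)]
  rw [this, sub_zero]

theorem coeff_thrPoly (α : Fin d →₀ ℕ) (hα : α ≠ 0) :
    (thrPoly d r s).coeff α
      = - ((Finset.univ.filter (fun i : Fin r => KK d r s (Pi.single i 1) = α)).card : ℂ) := by
  classical
  unfold thrPoly
  rw [coeff_sub, coeff_C, if_neg (Ne.symm hα), coeff_sum, zero_sub]
  congr 1
  simp only [coeff_monomial]
  rw [Finset.sum_boole]

theorem thrPoly_dominated (hrd : r ≤ d) :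
    ∑ α ∈ (thrPoly d r s).support.erase 0, ‖(thrPoly d r s).coeff α‖
      ≤ ‖(thrPoly d r s).coeff 0‖ := by
  classical
  rw [coeff_thrPoly_zero hrd]
  have h1 : ∀ α ∈ (thrPoly d r s).support.erase 0, ‖(thrPoly d r s).coeff α‖
      = ∑ i : Fin r, if KK d r s (Pi.single i 1) = α then (1 : ℝ) else 0 := by
    intro α hα
    rw [coeff_thrPoly α (Finset.ne_of_mem_erase hα), norm_neg, Complex.norm_natCast,
      Finset.sum_boole]
  rw [Finset.sum_congr rfl h1, Finset.sum_comm]
  calc ∑ i : Fin r, ∑ α ∈ (thrPoly d r s).support.erase 0,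
        (if KK d r s (Pi.single i 1) = α then (1 : ℝ) else 0)
      ≤ ∑ _i : Fin r, (1 : ℝ) := by
        apply Finset.sum_le_sum
        intro i _
        rw [Finset.sum_ite_eq]
        split_ifs <;> norm_num
    _ = ‖(r : ℂ)‖ := by simp

theorem thrPoly_zero : ∃ ζ : Fin d → ℂ, (∀ j, ‖ζ j‖ = 1) ∧ eval ζ (thrPoly d r s) = 0 := by
  refine ⟨fun _ => 1, fun _ => by simp, ?_⟩
  unfold thrPoly
  rw [map_sub, eval_C, map_sum]
  simp [eval_monomial]

theorem toZ_KK (a : Fin r → ℕ) :
    toZ (KK d r s a) = ∑ i, (a i) • toZ (KK d r s (Pi.single i 1)) := by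
  have h1 : ∀ (T : Finset (Fin r)), toZ (KK d r s (∑ i ∈ T, (a i) • (Pi.single i 1)))
      = ∑ i ∈ T, (a i) • toZ (KK d r s (Pi.single i 1)) := by
    intro T
    classical
    induction T using Finset.induction_on with
    | empty =>
      rw [Finset.sum_empty, Finset.sum_empty, KK_zero]
      funext j; simp [toZ]
    | insert i T hi ih =>
      rw [Finset.sum_insert hi, Finset.sum_insert hi, KK_add, toZ_add, ih]
      congr 1
      generalize a i = n
      induction n with
      | zero =>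
        rw [zero_smul, zero_smul, KK_zero]
        funext j; simp [toZ]
      | succ n ihn => rw [succ_nsmul, succ_nsmul, KK_add, toZ_add, ihn]
  have h2 : a = ∑ i, (a i) • (Pi.single i 1 : Fin r → ℕ) := by
    funext j
    simp [Finset.sum_apply, Pi.single_apply]
  conv_lhs => rw [h2]
  exact h1 Finset.univ

/-- The nonnegative points of the exponent group are exactly the vectors `KK a`. -/
theorem expPoints_thrPoly (hrs : r ≤ s) (hsd : s ≤ d) :
    expPoints (thrPoly d r s) = Set.range (KK d r s) := by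
  classical
  have hrd : r ≤ d := hrs.trans hsd
  apply Set.eq_of_subset_of_subset
  · intro k hk
    have hk' : toZ k ∈ expGroup (thrPoly d r s) := hk
    -- a subgroup containing the exponents
    let W : AddSubgroup (Fin d → ℤ) :=
      { carrier := {v | ∀ j : Fin d, r ≤ (j : ℕ) → v j = if (j : ℕ) < s then
          ∑ i : Fin r, v ⟨i, lt_of_lt_of_le i.2 hrd⟩ else 0}
        zero_mem' := by
          intro j _
          simp
        add_mem' := by
          intro x y hx hy j hj
          rw [Pi.add_apply, hx j hj, hy j hj]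
          split_ifs
          · simp [Finset.sum_add_distrib]
          · simp
        neg_mem' := by
          intro x hx j hj
          rw [Pi.neg_apply, hx j hj]
          split_ifs
          · simp [Finset.sum_neg_distrib]
          · simp }
    have hKW : ∀ a : Fin r → ℕ, toZ (KK d r s a) ∈ W := by
      intro a j hj
      simp only [toZ, KK_apply]
      rw [dif_neg (by omega)]
      by_cases hjs : (j : ℕ) < s
      · rw [if_pos hjs, if_pos hjs]
        push_cast
        apply Finset.sum_congr rfl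
        intro i _
        rw [dif_pos i.2]
      · rw [if_neg hjs, if_neg hjs]; simp
    have hle : expGroup (thrPoly d r s) ≤ W := by
      unfold expGroup
      rw [AddSubgroup.closure_le]
      rintro v ⟨α, hα, rfl⟩
      by_cases h0 : α = 0
      · subst h0
        have : (fun j => (((0 : Fin d →₀ ℕ) j : ℕ) : ℤ)) = 0 := by funext j; simp
        rw [this]
        exact W.zero_mem
      · have h1 := mem_support_iff.1 hα
        rw [coeff_thrPoly α h0, neg_ne_zero, Nat.cast_ne_zero, Finset.card_ne_zero] at h1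
        obtain ⟨i, hi⟩ := h1
        rw [Finset.mem_filter] at hi
        rw [← hi.2]
        exact hKW _
    have hkW := hle hk'
    refine ⟨fun i => k ⟨i, lt_of_lt_of_le i.2 hrd⟩, ?_⟩
    ext j
    rw [KK_apply]
    by_cases hj : (j : ℕ) < r
    · rw [dif_pos hj]
    · rw [dif_neg hj]
      have h1 := hkW j (by omega)
      simp only [toZ] at h1
      by_cases hjs : (j : ℕ) < s
      · rw [if_pos hjs] at h1 ⊢
        exact_mod_cast h1.symm
      · rw [if_neg hjs] at h1 ⊢
        exact_mod_cast h1.symm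
  · rintro k ⟨a, rfl⟩
    change toZ (KK d r s a) ∈ expGroup (thrPoly d r s)
    rw [toZ_KK]
    apply sum_mem
    intro i _
    apply nsmul_mem
    apply AddSubgroup.subset_closure
    refine ⟨KK d r s (Pi.single i 1), ?_, rfl⟩
    rw [mem_support_iff, coeff_thrPoly _ (KK_single_ne_zero hrd i), neg_ne_zero, Nat.cast_ne_zero,
      Finset.card_ne_zero]
    exact ⟨i, by simp⟩

/-- The series over the exponent points as a series over `ℕ^r`. -/
theorem tsum_thrPoly (hrs : r ≤ s) (hsd : s ≤ d) (t : ℝ) :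
    ∑' k : expPoints (thrPoly d r s), ENNReal.ofReal ((weight t (k : Fin d →₀ ℕ))⁻¹)
      = ∑' a : Fin r → ℕ, ENNReal.ofReal ((weight t (KK d r s a))⁻¹) := by
  rw [expPoints_thrPoly hrs hsd]
  exact tsum_range (fun k => ENNReal.ofReal ((weight t k)⁻¹)) (KK_injective (hrs.trans hsd))

/-- Convergence above the threshold. -/
theorem conv_thr (hr : 1 ≤ r) (hrs : r ≤ s) (hsd : s ≤ d) {t : ℝ} (ht : (r : ℝ) / s < t) :
    ∑' a : Fin r → ℕ, ENNReal.ofReal ((weight t (KK d r s a))⁻¹) ≠ ⊤ := by
  have hr0 : (0 : ℝ) < r := by exact_mod_cast hr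
  have hs0 : (0 : ℝ) < s := by exact_mod_cast lt_of_lt_of_le hr hrs
  have ht0 : 0 < t := lt_trans (by positivity) ht
  set q : ℝ := t * s / r with hq
  have hq1 : 1 < q := by
    rw [hq, lt_div_iff₀ hr0, one_mul]
    rw [div_lt_iff₀ hs0] at ht
    exact ht
  -- the one-dimensional series
  have hf : Summable (fun n : ℕ => (1 + (n : ℝ)) ^ (-q)) := by
    have h1 := (Real.summable_nat_rpow (p := -q)).2 (by linarith)
    have h2 := (summable_nat_add_iff 1).2 h1
    refine h2.congr (fun n => ?_)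
    push_cast
    rw [add_comm]
  set F : ℝ := ∑' n : ℕ, (1 + (n : ℝ)) ^ (-q) with hF
  -- comparison of the weights
  have hcomp : ∀ a : Fin r → ℕ, (weight t (KK d r s a))⁻¹ ≤ ∏ i, (1 + (a i : ℝ)) ^ (-q) := by
    intro a
    have h1 : ∏ i, (1 + (a i : ℝ)) ^ q ≤ weight t (KK d r s a) := by
      rw [weight_KK hrs hsd]
      have h2 : ∀ i : Fin r, (1 + (a i : ℝ)) ^ q
          = (1 + (a i : ℝ)) ^ t * (1 + (a i : ℝ)) ^ (t * (s - r) / r) := by
        intro i
        rw [← Real.rpow_add (by positivity)]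
        congr 1
        rw [hq]
        field_simp
        ring
      simp only [h2]
      rw [Finset.prod_mul_distrib]
      have h3 : ∏ i : Fin r, (1 + (a i : ℝ)) ^ (t * (s - r) / r)
          ≤ ((1 + ((∑ i, a i : ℕ) : ℝ)) ^ t) ^ (s - r) := by
        have hsr : (0 : ℝ) ≤ (s : ℝ) - r := by
          have : (r : ℝ) ≤ s := by exact_mod_cast hrs
          linarith
        calc ∏ i : Fin r, (1 + (a i : ℝ)) ^ (t * (s - r) / r)
            ≤ ∏ _i : Fin r, (1 + ((∑ i, a i : ℕ) : ℝ)) ^ (t * (s - r) / r) := by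
              apply Finset.prod_le_prod
              · intro i _; positivity
              · intro i _
                apply Real.rpow_le_rpow (by positivity) _ (by positivity)
                have : a i ≤ ∑ i, a i := Finset.single_le_sum (fun _ _ => Nat.zero_le _)
                  (Finset.mem_univ i)
                have : (a i : ℝ) ≤ ((∑ i, a i : ℕ) : ℝ) := by exact_mod_cast this
                linarith
          _ = ((1 + ((∑ i, a i : ℕ) : ℝ)) ^ t) ^ (s - r) := by
              rw [Finset.prod_const, Finset.card_univ, Fintype.card_fin, ← Real.rpow_natCast,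
                ← Real.rpow_natCast, ← Real.rpow_mul (by positivity), ← Real.rpow_mul (by positivity)]
              congr 1
              rw [Nat.cast_sub hrs]
              field_simp
      have h4 : 0 ≤ ∏ i : Fin r, (1 + (a i : ℝ)) ^ t := Finset.prod_nonneg fun i _ => by positivity
      gcongr
    have h5 : 0 < ∏ i, (1 + (a i : ℝ)) ^ q := Finset.prod_pos fun i _ => by positivity
    calc (weight t (KK d r s a))⁻¹ ≤ (∏ i, (1 + (a i : ℝ)) ^ q)⁻¹ := inv_anti₀ h5 h1
      _ = ∏ i, (1 + (a i : ℝ)) ^ (-q) := by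
          rw [← Finset.prod_inv_distrib]
          apply Finset.prod_congr rfl
          intro i _
          rw [Real.rpow_neg (by positivity)]
  have hsum : Summable (fun a : Fin r → ℕ => (weight t (KK d r s a))⁻¹) := by
    apply summable_of_sum_le (c := F ^ r)
    · intro a; exact inv_nonneg.2 (weight_pos _ _).le
    · intro T
      -- bounding box
      obtain ⟨N, hN⟩ : ∃ N : ℕ, ∀ a ∈ T, ∀ i, a i < N := by
        refine ⟨(T.sup fun a => ∑ i, a i) + 1, fun a ha i => ?_⟩
        have h1 : ∑ i, a i ≤ T.sup fun a => ∑ i, a i := Finset.le_sup (f := fun a => ∑ i, a i) ha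
        have h2 : a i ≤ ∑ i, a i := Finset.single_le_sum (fun _ _ => Nat.zero_le _)
          (Finset.mem_univ i)
        omega
      calc ∑ a ∈ T, (weight t (KK d r s a))⁻¹
          ≤ ∑ a ∈ T, ∏ i, (1 + (a i : ℝ)) ^ (-q) := Finset.sum_le_sum fun a _ => hcomp a
        _ ≤ ∑ a ∈ Fintype.piFinset (fun _ : Fin r => Finset.range N),
              ∏ i, (1 + (a i : ℝ)) ^ (-q) := by
            apply Finset.sum_le_sum_of_subset_of_nonneg
            · intro a ha
              rw [Fintype.mem_piFinset]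
              intro i
              rw [Finset.mem_range]
              exact hN a ha i
            · intro a _ _
              exact Finset.prod_nonneg fun i _ => by positivity
        _ = ∏ _i : Fin r, ∑ n ∈ Finset.range N, (1 + (n : ℝ)) ^ (-q) := by
            rw [Finset.prod_univ_sum]
        _ ≤ ∏ _i : Fin r, F := by
            apply Finset.prod_le_prod
            · intro i _
              exact Finset.sum_nonneg fun n _ => by positivity
            · intro i _
              exact hf.sum_le_tsum _ (fun n _ => by positivity)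
        _ = F ^ r := by simp
  rw [← ENNReal.ofReal_tsum_of_nonneg (fun a => inv_nonneg.2 (weight_pos _ _).le) hsum]
  exact ENNReal.ofReal_ne_top

/-- Divergence at and below the threshold. -/
theorem div_thr (hr : 1 ≤ r) (hrs : r ≤ s) (hsd : s ≤ d) {t : ℝ} (ht : t ≤ (r : ℝ) / s) :
    ∑' a : Fin r → ℕ, ENNReal.ofReal ((weight t (KK d r s a))⁻¹) = ⊤ := by
  have hr0 : (0 : ℝ) < r := by exact_mod_cast hr
  have hs0 : (0 : ℝ) < s := by exact_mod_cast lt_of_lt_of_le hr hrs
  -- blocks
  let blk : (Σ m : ℕ, (Fin r → Fin (2 ^ m))) → (Fin r → ℕ) := fun x i => 2 ^ x.1 + (x.2 i : ℕ)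
  have hblk : Function.Injective blk := by
    rintro ⟨m, b⟩ ⟨m', b'⟩ h
    have h0 : ∀ i, 2 ^ m + (b i : ℕ) = 2 ^ m' + (b' i : ℕ) := fun i => congrFun h i
    have hm : m = m' := by
      have h1 := h0 ⟨0, hr⟩
      have hb := (b ⟨0, hr⟩).2
      have hb' := (b' ⟨0, hr⟩).2
      have e1 : Nat.log 2 (2 ^ m + (b ⟨0, hr⟩ : ℕ)) = m := by
        rw [Nat.log_eq_iff (by right; exact ⟨one_lt_two, by positivity⟩)]
        rw [pow_succ]; omega
      have e2 : Nat.log 2 (2 ^ m' + (b' ⟨0, hr⟩ : ℕ)) = m' := by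
        rw [Nat.log_eq_iff (by right; exact ⟨one_lt_two, by positivity⟩)]
        rw [pow_succ]; omega
      rw [← e1, h1, e2]
    subst hm
    congr 1
    funext i
    apply Fin.ext
    have := h0 i
    omega
  set c : ℝ := ((3 * (r : ℝ)) ^ r)⁻¹ with hc
  have hcpos : 0 < c := by positivity
  have hbound : ∀ x, c * (((2 : ℝ) ^ x.1) ^ r)⁻¹ ≤ (weight t (KK d r s (blk x)))⁻¹ := by
    rintro ⟨m, b⟩
    have h1 : weight t (KK d r s (blk ⟨m, b⟩)) ≤ (3 * r * 2 ^ m : ℝ) ^ r := by
      have hX : (1 : ℝ) ≤ 3 * r * 2 ^ m := by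
        have h2 : (1 : ℝ) ≤ 2 ^ m := one_le_pow₀ (by norm_num)
        have h3 : (1 : ℝ) ≤ r := by exact_mod_cast hr
        nlinarith
      have h2 : ∀ i : Fin r, (1 + ((blk ⟨m, b⟩ i : ℕ) : ℝ)) ≤ 3 * r * 2 ^ m := by
        intro i
        have hb := (b i).2
        have h3 : (blk ⟨m, b⟩ i : ℕ) + 1 ≤ 2 * 2 ^ m := by
          simp only [blk]; omega
        have h4 : ((blk ⟨m, b⟩ i : ℕ) : ℝ) + 1 ≤ 2 * 2 ^ m := by exact_mod_cast h3
        have h5 : (1 : ℝ) ≤ r := by exact_mod_cast hr
        have h6 : (0 : ℝ) < 2 ^ m := by positivity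
        nlinarith
      have h3 : (1 + ((∑ i, blk ⟨m, b⟩ i : ℕ) : ℝ)) ≤ 3 * r * 2 ^ m := by
        have h4 : ∑ i, blk ⟨m, b⟩ i ≤ ∑ _i : Fin r, 2 * 2 ^ m := by
          apply Finset.sum_le_sum
          intro i _
          have hb := (b i).2
          simp only [blk]; omega
        rw [Finset.sum_const, Finset.card_univ, Fintype.card_fin, smul_eq_mul] at h4
        have h5 : ((∑ i, blk ⟨m, b⟩ i : ℕ) : ℝ) ≤ r * (2 * 2 ^ m) := by exact_mod_cast h4
        have h6 : (1 : ℝ) ≤ 2 ^ m := one_le_pow₀ (by norm_num)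
        have h7 : (1 : ℝ) ≤ r := by exact_mod_cast hr
        nlinarith
      have hmono : ∀ y : ℝ, 1 ≤ y → y ≤ 3 * r * 2 ^ m → y ^ t ≤ (3 * r * 2 ^ m : ℝ) ^ ((r : ℝ) / s) := by
        intro y hy1 hy2
        calc y ^ t ≤ y ^ ((r : ℝ) / s) := Real.rpow_le_rpow_of_exponent_le hy1 ht
          _ ≤ _ := Real.rpow_le_rpow (by linarith) hy2 (by positivity)
      rw [weight_KK hrs hsd]
      calc (∏ i, (1 + ((blk ⟨m, b⟩ i : ℕ) : ℝ)) ^ t) *
            ((1 + ((∑ i, blk ⟨m, b⟩ i : ℕ) : ℝ)) ^ t) ^ (s - r)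
          ≤ (∏ _i : Fin r, (3 * r * 2 ^ m : ℝ) ^ ((r : ℝ) / s)) *
            ((3 * r * 2 ^ m : ℝ) ^ ((r : ℝ) / s)) ^ (s - r) := by
            gcongr with i _
            · exact hmono _ (le_add_of_nonneg_right (Nat.cast_nonneg _)) (h2 i)
            · exact hmono _ (le_add_of_nonneg_right (Nat.cast_nonneg _)) h3
        _ = (3 * r * 2 ^ m : ℝ) ^ r := by
            rw [Finset.prod_const, Finset.card_univ, Fintype.card_fin, ← pow_add,
              Nat.add_sub_cancel' hrs, ← Real.rpow_natCast, ← Real.rpow_mul (by positivity),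
              div_mul_cancel₀ _ hs0.ne', Real.rpow_natCast]
    calc c * (((2 : ℝ) ^ m) ^ r)⁻¹ = ((3 * r * 2 ^ m : ℝ) ^ r)⁻¹ := by
          rw [hc, ← mul_inv, ← mul_pow]
      _ ≤ (weight t (KK d r s (blk ⟨m, b⟩)))⁻¹ := inv_anti₀ (weight_pos _ _) h1
  -- lower bound of the series
  have h1 : ∑' x : (Σ m : ℕ, (Fin r → Fin (2 ^ m))),
      ENNReal.ofReal ((weight t (KK d r s (blk x)))⁻¹)
      ≤ ∑' a : Fin r → ℕ, ENNReal.ofReal ((weight t (KK d r s a))⁻¹) :=
    ENNReal.tsum_comp_le_tsum_of_injective hblk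
      (fun a => ENNReal.ofReal ((weight t (KK d r s a))⁻¹))
  rw [eq_top_iff]
  refine le_trans ?_ h1
  rw [ENNReal.tsum_sigma']
  have h2 : ∀ m : ℕ, ENNReal.ofReal c ≤ ∑' b : Fin r → Fin (2 ^ m),
      ENNReal.ofReal ((weight t (KK d r s (blk ⟨m, b⟩)))⁻¹) := by
    intro m
    calc ENNReal.ofReal c = ∑' _b : Fin r → Fin (2 ^ m),
          ENNReal.ofReal (c * (((2 : ℝ) ^ m) ^ r)⁻¹) := by
          rw [tsum_fintype, Finset.sum_const, Finset.card_univ, Fintype.card_fun,
            Fintype.card_fin, Fintype.card_fin, nsmul_eq_mul, ← ENNReal.ofReal_natCast,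
            ← ENNReal.ofReal_mul (by positivity)]
          congr 1
          push_cast
          field_simp
      _ ≤ _ := ENNReal.tsum_le_tsum fun b => ENNReal.ofReal_le_ofReal (hbound ⟨m, b⟩)
  calc (⊤ : ℝ≥0∞) = ∑' _m : ℕ, ENNReal.ofReal c := by
        rw [ENNReal.tsum_const_eq_top_of_ne_zero]
        rw [ne_eq, ENNReal.ofReal_eq_zero, not_le]
        exact hcpos
    _ ≤ _ := ENNReal.tsum_le_tsum h2

/-- The polynomial `thrPoly d r s` is shift-cyclic exactly for `t ≤ r / s`. -/
theorem shiftCyclic_thrPoly (hr : 1 ≤ r) (hrs : r ≤ s) (hsd : s ≤ d) (t : ℝ) :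
    ShiftCyclic t (thrPoly d r s) ↔ t ≤ (r : ℝ) / s := by
  rw [shiftCyclic_iff_of_dominated t _ (thrPoly_dominated (hrs.trans hsd)) thrPoly_zero,
    tsum_thrPoly hrs hsd]
  constructor
  · intro h
    by_contra hlt
    push Not at hlt
    exact conv_thr hr hrs hsd hlt h
  · intro h
    exact div_thr hr hrs hsd h

end Pool.Agent.Helper49.Cyc
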