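import Mathlib
import Pool.Agent.Helper49.CycThreshold

set_option autoImplicit false

/-! Proof of MP_f1c2ec_an.CapacityCriterionFails. -/

namespace Pool.Agent.Helper49.CapF

open scoped ENNReal
open MeasureTheory Pool.Agent.Helper49.Cyc

/-- The polynomial `2 - (z_0 + z_1) z_2 z_3 ⋯ z_{n+1}` in `n + 2` variables. -/
noncomputable def capPoly (n : ℕ) : MvPolynomial (Fin (n + 2)) ℂ :=
  MvPolynomial.C 2 -
    (MvPolynomial.X 0 + MvPolynomial.X 1) * ∏ j : Fin n, MvPolynomial.X j.succ.succ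

/-- The zero set of `P` on the torus `𝕋^d`. -/
def torusZeros {d : ℕ} (P : MvPolynomial (Fin d) ℂ) : Set (Fin d → ℂ) :=
  {z | (∀ j, ‖z j‖ = 1) ∧ MvPolynomial.eval z P = 0}

/-- The Fourier coefficient `∫ z^{-k} dμ`, `k ∈ ℤ^d`, of a measure carried by the torus. -/
noncomputable def fourierCoeff {d : ℕ} (μ : Measure (Fin d → ℂ)) (k : Fin d → ℤ) : ℂ :=
  ∫ z, ∏ j, (z j) ^ (-(k j)) ∂μ

/-- The `t`-energy `∑_{k ∈ ℤ^d} |μ̂(k)|² ∏_j (1 + |k_j|)^{-t}` of a measure carried by the
torus. -/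
noncomputable def energy {d : ℕ} (t : ℝ) (μ : Measure (Fin d → ℂ)) : ℝ≥0∞ :=
  ∑' k : Fin d → ℤ,
    ENNReal.ofReal (‖fourierCoeff μ k‖ ^ 2 * ∏ j, (1 + |(k j : ℝ)|) ^ (-t))

/-- A polynomial with dominant constant term has no zeros in the open polydisk. -/
theorem no_zero_in_polydisk (d : ℕ) (P : MvPolynomial (Fin d) ℂ) (hP0 : P.coeff 0 ≠ 0)
    (hdom : ∑ α ∈ P.support.erase 0, ‖P.coeff α‖ ≤ ‖P.coeff 0‖)
    (z : Fin d → ℂ) (hz : ∀ j, ‖z j‖ < 1) : MvPolynomial.eval z P ≠ 0 := by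
  classical
  intro h
  have h0mem : (0 : Fin d →₀ ℕ) ∈ P.support := MvPolynomial.mem_support_iff.2 hP0
  rw [MvPolynomial.eval_eq', ← Finset.add_sum_erase _ _ h0mem] at h
  simp only [Finsupp.coe_zero, Pi.zero_apply, pow_zero, Finset.prod_const_one, mul_one] at h
  have h1 : ‖P.coeff 0‖ = ‖∑ α ∈ P.support.erase 0, P.coeff α * ∏ j, z j ^ α j‖ := by
    rw [← norm_neg]
    congr 1
    linear_combination -h
  have hprod' : ∀ α : Fin d →₀ ℕ, α ≠ 0 → ‖∏ j, z j ^ α j‖ < 1 := by
    intro α hα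
    obtain ⟨i, hi⟩ : ∃ i, α i ≠ 0 := by
      by_contra hcon
      push Not at hcon
      exact hα (by ext j; simpa using hcon j)
    rw [norm_prod, ← Finset.mul_prod_erase _ _ (Finset.mem_univ i)]
    have h2 : ‖z i ^ α i‖ < 1 := by
      rw [norm_pow]
      exact pow_lt_one₀ (norm_nonneg _) (hz i) hi
    have h3 : ∏ x ∈ Finset.univ.erase i, ‖z x ^ α x‖ ≤ 1 := by
      apply Finset.prod_le_one
      · intro j _; exact norm_nonneg _
      · intro j _
        rw [norm_pow]
        exact pow_le_one₀ (norm_nonneg _) (hz j).le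
    have h4 : 0 ≤ ∏ x ∈ Finset.univ.erase i, ‖z x ^ α x‖ :=
      Finset.prod_nonneg fun j _ => norm_nonneg _
    calc ‖z i ^ α i‖ * ∏ x ∈ Finset.univ.erase i, ‖z x ^ α x‖
        ≤ ‖z i ^ α i‖ * 1 := by gcongr
      _ < 1 := by linarith
  rcases (P.support.erase 0).eq_empty_or_nonempty with he | he
  · rw [he, Finset.sum_empty, norm_zero] at h1
    exact hP0 (norm_eq_zero.1 h1)
  · have h2 : ‖∑ α ∈ P.support.erase 0, P.coeff α * ∏ j, z j ^ α j‖
        < ∑ α ∈ P.support.erase 0, ‖P.coeff α‖ := by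
      refine lt_of_le_of_lt (norm_sum_le _ _) ?_
      apply Finset.sum_lt_sum_of_nonempty he
      intro α hα
      rw [norm_mul]
      have h3 := hprod' α (Finset.ne_of_mem_erase hα)
      have h4 : 0 < ‖P.coeff α‖ :=
        norm_pos_iff.2 (MvPolynomial.mem_support_iff.1 (Finset.mem_of_mem_erase hα))
      nlinarith
    rw [← h1] at h2
    linarith

theorem monomial_KK (n : ℕ) (i : Fin 2) :
    MvPolynomial.monomial (KK (n + 2) 2 (n + 2) (Pi.single i 1)) (1 : ℂ)
      = MvPolynomial.X (Fin.castLE (by omega) i) * ∏ j : Fin n, MvPolynomial.X j.succ.succ := by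
  rw [MvPolynomial.monomial_eq, Finsupp.prod_fintype _ _ (by simp), Fin.prod_univ_succ,
    Fin.prod_univ_succ, MvPolynomial.C_1, one_mul]
  have h3 : ∀ j : Fin n, KK (n + 2) 2 (n + 2) (Pi.single i 1) j.succ.succ = 1 := by
    intro j
    rw [KK_apply, dif_neg (by simp [Fin.val_succ]), if_pos (by simp [Fin.val_succ])]
    simp
  have h4 : ∀ i' : Fin 2, KK (n + 2) 2 (n + 2) (Pi.single i 1) (Fin.castLE (by omega) i')
      = if i' = i then 1 else 0 := by
    intro i'
    rw [KK_apply, dif_pos (by have := i'.2; simp only [Fin.val_castLE]; omega)]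
    simp [Pi.single_apply]
  have h5 : KK (n + 2) 2 (n + 2) (Pi.single i 1) 0 = if (0 : Fin 2) = i then 1 else 0 := h4 0
  have h6 : KK (n + 2) 2 (n + 2) (Pi.single i 1) (Fin.succ 0)
      = if (1 : Fin 2) = i then 1 else 0 := h4 1
  rw [h5, h6]
  simp only [h3, pow_one]
  have h7 : (Fin.castLE (by omega) (0 : Fin 2) : Fin (n + 2)) = 0 := rfl
  have h8 : (Fin.castLE (by omega) (1 : Fin 2) : Fin (n + 2)) = 1 := rfl
  obtain rfl | rfl : i = 0 ∨ i = 1 := by fin_cases i <;> simp
  · simp [h7]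
  · simp [h8]

theorem capPoly_eq (n : ℕ) : capPoly n = thrPoly (n + 2) 2 (n + 2) := by
  unfold capPoly thrPoly
  rw [Fin.sum_univ_two, monomial_KK, monomial_KK]
  have h0 : (Fin.castLE (by omega) (0 : Fin 2) : Fin (n + 2)) = 0 := rfl
  have h1 : (Fin.castLE (by omega) (1 : Fin 2) : Fin (n + 2)) = 1 := rfl
  rw [h0, h1]
  push_cast
  ring

theorem eval_capPoly (n : ℕ) (z : Fin (n + 2) → ℂ) :
    MvPolynomial.eval z (capPoly n) = 2 - (z 0 + z 1) * ∏ j : Fin n, z j.succ.succ := by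
  simp [capPoly, map_prod]

/-- The polynomial has no zero in the open polydisk. -/
theorem capPoly_ne_zero (n : ℕ) (z : Fin (n + 2) → ℂ) (hz : ∀ j, ‖z j‖ < 1) :
    MvPolynomial.eval z (capPoly n) ≠ 0 := by
  rw [eval_capPoly]
  intro h
  have h1 : ‖(z 0 + z 1) * ∏ j : Fin n, z j.succ.succ‖ = 2 := by
    rw [← sub_eq_zero.1 h]; simp
  rw [norm_mul, norm_prod] at h1
  have h2 : ∏ j : Fin n, ‖z j.succ.succ‖ ≤ 1 :=
    Finset.prod_le_one (fun _ _ => norm_nonneg _) (fun j _ => (hz _).le)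
  have h3 : ‖z 0 + z 1‖ < 2 := by
    have := norm_add_le (z 0) (z 1)
    have := hz 0
    have := hz 1
    linarith
  have h4 : 0 ≤ ∏ j : Fin n, ‖z j.succ.succ‖ := Finset.prod_nonneg fun _ _ => norm_nonneg _
  nlinarith [norm_nonneg (z 0 + z 1)]

/-- On the torus the zero set is contained in the set where the first two coordinates agree. -/
theorem eq_of_zero (n : ℕ) (z : Fin (n + 2) → ℂ) (h : z ∈ torusZeros (capPoly n)) :
    z 0 = z 1 := by
  obtain ⟨hz, h⟩ := h
  rw [eval_capPoly] at h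
  have h1 : ‖(z 0 + z 1) * ∏ j : Fin n, z j.succ.succ‖ = 2 := by
    rw [← sub_eq_zero.1 h]; simp
  rw [norm_mul, norm_prod] at h1
  have h2 : ∏ j : Fin n, ‖z j.succ.succ‖ = 1 := Finset.prod_eq_one fun j _ => hz _
  rw [h2, mul_one] at h1
  have h3 : ‖z 0 + z 1‖ ^ 2 + ‖z 0 - z 1‖ ^ 2 = 4 := by
    have := parallelogram_law_with_norm ℝ (z 0) (z 1)
    rw [hz, hz] at this
    nlinarith [this]
  rw [h1] at h3
  have h4 : ‖z 0 - z 1‖ = 0 := by nlinarith [norm_nonneg (z 0 - z 1)]
  exact sub_eq_zero.1 (norm_eq_zero.1 h4)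

theorem energy_eq_top (n : ℕ) (t : ℝ) (ht : t ≤ 1 / 2) (μ : Measure (Fin (n + 2) → ℂ))
    [IsFiniteMeasure μ] (hμ : μ ≠ 0) (hsupp : μ (torusZeros (capPoly n))ᶜ = 0) :
    energy t μ = ⊤ := by
  classical
  set c : ℝ := μ.real Set.univ with hc
  have hcpos : 0 < c := by
    rw [hc, Measure.real, ENNReal.toReal_pos_iff]
    exact ⟨by rwa [pos_iff_ne_zero, ne_eq, Measure.measure_univ_eq_zero], measure_lt_top _ _⟩
  set e : ℕ → (Fin (n + 2) → ℤ) := fun m j => if j = 0 then (m : ℤ) else if j = 1 then -(m : ℤ)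
    else 0 with he
  have he_inj : Function.Injective e := by
    intro a b hab
    have := congrFun hab 0
    simpa [he] using this
  have hae : ∀ᵐ z ∂μ, z ∈ torusZeros (capPoly n) := by
    rw [ae_iff]; exact hsupp
  have hF : ∀ m, fourierCoeff μ (e m) = (c : ℂ) := by
    intro m
    unfold fourierCoeff
    have h1 : ∀ᵐ z ∂μ, ∏ j, (z j) ^ (-(e m j)) = (1 : ℂ) := by
      filter_upwards [hae] with z hz
      have hz' := eq_of_zero n z hz
      have hz0 : z 0 ≠ 0 := by
        intro h0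
        have := hz.1 0
        rw [h0, norm_zero] at this
        norm_num at this
      rw [Fin.prod_univ_succ, Fin.prod_univ_succ]
      have h2 : ∀ j : Fin n, e m j.succ.succ = 0 := by
        intro j
        have ha : (j.succ.succ : Fin (n + 2)) ≠ 0 := Fin.succ_ne_zero _
        have hb : (j.succ.succ : Fin (n + 2)) ≠ 1 := by
          intro h
          have := congrArg Fin.val h
          simp [Fin.val_succ] at this
        simp [he, ha, hb]
      have h3 : e m 0 = m := by simp [he]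
      have h4 : e m (Fin.succ 0) = -(m : ℤ) := by
        have : (Fin.succ 0 : Fin (n + 2)) = 1 := rfl
        simp [he, this]
      simp only [h2, h3, h4]
      have h5 : (Fin.succ 0 : Fin (n + 2)) = 1 := rfl
      rw [h5, ← hz']
      simp [hz0]
    rw [integral_congr_ae h1]
    simp [hc]
  rw [eq_top_iff]
  have key : ∑' m : ℕ, ENNReal.ofReal (c ^ 2 * (1 / ((m : ℝ) + 1))) = ⊤ := by
    by_contra hne
    have h1 := ENNReal.summable_toReal hne
    have h2 : Summable fun m : ℕ => c ^ 2 * (1 / ((m : ℝ) + 1)) := by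
      refine h1.congr fun m => ?_
      rw [ENNReal.toReal_ofReal (by positivity)]
    rw [summable_mul_left_iff (by positivity)] at h2
    have h3 := (summable_nat_add_iff (f := fun m : ℕ => 1 / (m : ℝ)) 1).1 (by
      simpa using h2)
    exact Real.not_summable_one_div_natCast h3
  calc (⊤ : ℝ≥0∞) = ∑' m : ℕ, ENNReal.ofReal (c ^ 2 * (1 / ((m : ℝ) + 1))) := key.symm
    _ ≤ ∑' m : ℕ, ENNReal.ofReal
        (‖fourierCoeff μ (e m)‖ ^ 2 * ∏ j, (1 + |((e m) j : ℝ)|) ^ (-t)) := by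
        apply ENNReal.tsum_le_tsum
        intro m
        apply ENNReal.ofReal_le_ofReal
        rw [hF m, Complex.norm_real, Real.norm_of_nonneg hcpos.le]
        apply mul_le_mul_of_nonneg_left _ (by positivity)
        rw [Fin.prod_univ_succ, Fin.prod_univ_succ]
        have h2 : ∀ j : Fin n, e m j.succ.succ = 0 := by
          intro j
          have ha : (j.succ.succ : Fin (n + 2)) ≠ 0 := Fin.succ_ne_zero _
          have hb : (j.succ.succ : Fin (n + 2)) ≠ 1 := by
            intro h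
            have := congrArg Fin.val h
            simp [Fin.val_succ] at this
          simp [he, ha, hb]
        have h3 : e m 0 = m := by simp [he]
        have h4 : e m (Fin.succ 0) = -(m : ℤ) := by
          have : (Fin.succ 0 : Fin (n + 2)) = 1 := rfl
          simp [he, this]
        simp only [h2, h3, h4]
        simp only [Int.cast_natCast, Int.cast_neg, abs_neg, Int.cast_zero, abs_zero, add_zero,
          Real.one_rpow, Finset.prod_const_one, mul_one]
        rw [abs_of_nonneg (Nat.cast_nonneg m), ← Real.rpow_add (by positivity)]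
        rw [one_div, ← Real.rpow_neg_one, add_comm (m : ℝ) 1]
        apply Real.rpow_le_rpow_of_exponent_le
        · have : (0 : ℝ) ≤ m := Nat.cast_nonneg m
          linarith
        · linarith
    _ ≤ energy t μ := ENNReal.tsum_comp_le_tsum_of_injective he_inj
        (fun k => ENNReal.ofReal (‖fourierCoeff μ k‖ ^ 2 * ∏ j, (1 + |(k j : ℝ)|) ^ (-t)))

/-- **Rational thresholds and failure of the zero-capacity criterion.**
(1) For all `1 ≤ r ≤ s ≤ d` there is a polynomial in `d` variables, without zeros in the open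
polydisk, which is shift-cyclic in `𝓓_t(𝔻^d)` exactly for `t ≤ r / s`.
(2) For every `n` the polynomial `2 - (z_0 + z_1) z_2 ⋯ z_{n+1}` in `d = n + 2` variables has no
zeros in the open polydisk and is shift-cyclic in `𝓓_t(𝔻^d)` exactly for `t ≤ 2 / (n + 2)`,
although for all `t ≤ 1 / 2` every nonzero finite Borel measure on the torus carried by its zero
set has infinite `t`-energy. -/
theorem main :
    (∀ d r s : ℕ, 1 ≤ r → r ≤ s → s ≤ d → ∃ P : MvPolynomial (Fin d) ℂ,
      (∀ z : Fin d → ℂ, (∀ j, ‖z j‖ < 1) → MvPolynomial.eval z P ≠ 0) ∧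
      ∀ t : ℝ, ShiftCyclic t P ↔ t ≤ (r : ℝ) / s) ∧
    (∀ n : ℕ,
      (∀ z : Fin (n + 2) → ℂ, (∀ j, ‖z j‖ < 1) → MvPolynomial.eval z (capPoly n) ≠ 0) ∧
      (∀ t : ℝ, ShiftCyclic t (capPoly n) ↔ t ≤ 2 / ((n : ℝ) + 2)) ∧
      (∀ t : ℝ, t ≤ 1 / 2 → ∀ μ : Measure (Fin (n + 2) → ℂ), IsFiniteMeasure μ → μ ≠ 0 →
        μ (torusZeros (capPoly n))ᶜ = 0 → energy t μ = ⊤)) := by
  refine ⟨?_, ?_⟩
  · intro d r s hr hrs hsd
    refine ⟨thrPoly d r s, ?_, fun t => shiftCyclic_thrPoly hr hrs hsd t⟩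
    intro z hz
    apply no_zero_in_polydisk d _ _ (thrPoly_dominated (hrs.trans hsd)) z hz
    rw [coeff_thrPoly_zero (hrs.trans hsd)]
    exact_mod_cast (by omega : r ≠ 0)
  · intro n
    refine ⟨fun z hz => capPoly_ne_zero n z hz, fun t => ?_, fun t ht μ hfin hμ hsupp => ?_⟩
    · rw [capPoly_eq, shiftCyclic_thrPoly (by norm_num) (by omega) le_rfl]
      push_cast
      rfl
    · exact energy_eq_top n t ht μ hμ hsupp

end Pool.Agent.Helper49.CapF
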