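import Mathlib
import Pool.Agent.Helper49.FCoreDefs
import Pool.Agent.Helper49.FExt

/-! The induction on the number of variables (piece M of MP_f1c2ec_an). -/

set_option autoImplicit false

namespace Pool.Agent.Helper49.FA

open Filter Topology MvPolynomial Finset
open Pool.Agent.Helper49.Cyc Pool.Agent.Helper49.Torus Pool.Agent.Helper49.Univ
open Pool.Agent.Helper49.Toral Pool.Agent.Helper49.Comp

variable {n m d : ℕ}

/-! ### substitution -/

theorem eval_sub_ind (κ : Fin n → Fin d) (y : Fin d → ℂ) (z : Fin n → ℂ)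
    (P : MvPolynomial (Fin d) ℂ) :
    eval z (sub κ y P) = eval (Function.extend κ z y) P := by
  have h : (aeval z : MvPolynomial (Fin n) ℂ →ₐ[ℂ] ℂ).comp (sub κ y) =
      aeval (Function.extend κ z y) := by
    apply MvPolynomial.algHom_ext
    intro j
    rw [AlgHom.comp_apply, sub, aeval_X, aeval_X]
    by_cases hj : ∃ i, κ i = j
    · unfold Function.extend
      rw [dif_pos hj, dif_pos hj, aeval_X]
    · unfold Function.extend
      rw [dif_neg hj, dif_neg hj, aeval_C]
      rfl
  have h1 := DFunLike.congr_fun h P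
  rw [AlgHom.comp_apply] at h1
  simpa [coe_aeval_eq_eval] using h1

theorem setv_sub (κ : Fin (m + 1) → Fin d) (hκ : Function.Injective κ) (y : Fin d → ℂ)
    (i : Fin (m + 1)) (P : MvPolynomial (Fin d) ℂ) :
    setv i (y (κ i)) (sub κ y P) = rename i.succAbove (sub (κ ∘ i.succAbove) y P) := by
  have h : (setv i (y (κ i))).comp (sub κ y) =
      (rename i.succAbove : MvPolynomial (Fin m) ℂ →ₐ[ℂ] MvPolynomial (Fin (m + 1)) ℂ).comp
        (sub (κ ∘ i.succAbove) y) := by
    apply MvPolynomial.algHom_ext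
    intro j
    rw [AlgHom.comp_apply, AlgHom.comp_apply, sub, sub, aeval_X, aeval_X]
    by_cases hj : ∃ k, κ k = j
    · obtain ⟨k, rfl⟩ := hj
      rw [hκ.extend_apply]
      by_cases hk : k = i
      · subst hk
        have h2 : ¬ ∃ k', (κ ∘ k.succAbove) k' = κ k := by
          rintro ⟨k', hk'⟩
          exact Fin.succAbove_ne k k' (hκ hk')
        rw [Function.extend_apply' _ _ _ h2, rename_C, setv, aeval_X, if_pos rfl]
      · obtain ⟨k', rfl⟩ := Fin.exists_succAbove_eq hk
        have h3 : Function.Injective (κ ∘ i.succAbove) :=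
          hκ.comp Fin.succAbove_right_injective
        rw [show κ (i.succAbove k') = (κ ∘ i.succAbove) k' from rfl, h3.extend_apply, rename_X,
          setv, aeval_X, if_neg (Fin.succAbove_ne i k')]
    · have h2 : ¬ ∃ k', (κ ∘ i.succAbove) k' = j := by
        rintro ⟨k', hk'⟩
        exact hj ⟨_, hk'⟩
      rw [Function.extend_apply' _ _ _ hj, Function.extend_apply' _ _ _ h2, rename_C]
      rw [setv, aeval_C]
      rfl
  exact DFunLike.congr_fun h P

/-! ### the norm -/

theorem weight_mapDomain (t : ℝ) (i : Fin (m + 1)) (α : Fin m →₀ ℕ) :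
    weight t (Finsupp.mapDomain i.succAbove α) = weight t α := by
  unfold weight
  rw [Fin.prod_univ_succAbove _ i]
  have h0 : Finsupp.mapDomain i.succAbove α i = 0 := by
    apply Finsupp.mapDomain_of_notMem_range
    rintro ⟨k, hk⟩
    exact Fin.succAbove_ne i k hk
  rw [h0, Nat.cast_zero, add_zero, Real.one_rpow, one_mul]
  apply Finset.prod_congr rfl
  intro k _
  rw [Finsupp.mapDomain_apply Fin.succAbove_right_injective]

theorem norm_J_rename (t : ℝ) (i : Fin (m + 1)) (f : MvPolynomial (Fin m) ℂ) :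
    ‖J t (rename i.succAbove f)‖ = ‖J t f‖ := by
  classical
  have hinj : Function.Injective (i.succAbove) := Fin.succAbove_right_injective
  have h : ‖J t (rename i.succAbove f)‖ ^ 2 = ‖J t f‖ ^ 2 := by
    rw [J_norm, J_norm, support_rename_of_injective hinj, Finset.sum_image]
    · apply Finset.sum_congr rfl
      intro α _
      rw [weight_mapDomain, coeff_rename_mapDomain _ hinj]
    · intro a _ b _ hab
      exact Finsupp.mapDomain_injective hinj hab
  have h1 := norm_nonneg (J t (rename i.succAbove f))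
  have h2 := norm_nonneg (J t f)
  exact (pow_left_inj₀ h1 h2 two_ne_zero).1 h

/-! ### the annihilator -/

/-- the annihilator of a functional -/
def annu {t K : ℝ} {u : MvPolynomial (Fin n) ℂ → ℂ}
    (hu : Good t K (⊥ : Ideal (MvPolynomial (Fin n) ℂ)) u) : Ideal (MvPolynomial (Fin n) ℂ) where
  carrier := {q | ∀ f, u (q * f) = 0}
  add_mem' := by
    intro a b ha hb f
    rw [add_mul, hu.add, ha f, hb f, add_zero]
  zero_mem' := by
    intro f
    rw [zero_mul, hu.zero]
  smul_mem' := by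
    intro c a ha f
    rw [smul_eq_mul, mul_comm c a, mul_assoc]
    exact ha _

theorem mem_annu {t K : ℝ} {u : MvPolynomial (Fin n) ℂ → ℂ}
    (hu : Good t K (⊥ : Ideal (MvPolynomial (Fin n) ℂ)) u) (q : MvPolynomial (Fin n) ℂ) :
    q ∈ annu hu ↔ ∀ f, u (q * f) = 0 := Iff.rfl

theorem exists_prime {t K : ℝ} {u : MvPolynomial (Fin n) ℂ → ℂ}
    (hu : Good t K (⊥ : Ideal (MvPolynomial (Fin n) ℂ)) u) (hne : ∃ f, u f ≠ 0) :
    ∃ (𝔮 : Ideal (MvPolynomial (Fin n) ℂ)) (g : MvPolynomial (Fin n) ℂ), 𝔮.IsPrime ∧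
      ∀ q, q ∈ 𝔮 ↔ ∀ f, u (g * (q * f)) = 0 := by
  have htop : annu hu ≠ ⊤ := by
    intro h
    obtain ⟨f, hf⟩ := hne
    apply hf
    have h1 : (1 : MvPolynomial (Fin n) ℂ) ∈ annu hu := by rw [h]; trivial
    have := (mem_annu hu 1).1 h1 f
    rwa [one_mul] at this
  have hnt : Nontrivial (MvPolynomial (Fin n) ℂ ⧸ annu hu) := Ideal.Quotient.nontrivial_iff.2 htop
  obtain ⟨𝔮, h𝔮⟩ := associatedPrimes.nonempty (MvPolynomial (Fin n) ℂ)
    (MvPolynomial (Fin n) ℂ ⧸ annu hu)
  have h1 := (Submodule.isAssociatedPrime_iff).1 (AssociatedPrimes.mem_iff.1 h𝔮)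
  obtain ⟨hp, x, hx⟩ := h1
  obtain ⟨g, rfl⟩ := Ideal.Quotient.mk_surjective x
  refine ⟨𝔮, g, hp, fun q => ?_⟩
  rw [hx, Submodule.mem_colon_singleton]
  rw [Submodule.mem_bot]
  have h2 : q • (Ideal.Quotient.mk (annu hu) g) = Ideal.Quotient.mk (annu hu) (q * g) := by
    rw [map_mul]; rfl
  rw [h2, Ideal.Quotient.eq_zero_iff_mem, mem_annu]
  constructor
  · intro h f
    rw [← mul_assoc, mul_comm g q]
    exact h f
  · intro h f
    have := h f
    rwa [← mul_assoc, mul_comm g q] at this

theorem exists_monomial {t K : ℝ} {𝔮 : Ideal (MvPolynomial (Fin n) ℂ)}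
    {u : MvPolynomial (Fin n) ℂ → ℂ} (hu : Good t K 𝔮 u) (hne : ∃ f, u f ≠ 0) :
    ∃ β, u (monomial β 1) ≠ 0 := by
  by_contra hcon
  push Not at hcon
  obtain ⟨f, hf⟩ := hne
  apply hf
  have h := hu.mul f 1
  rw [mul_one] at h
  rw [h]
  apply Finset.sum_eq_zero
  intro β _
  rw [mul_one, hcon, mul_zero]

/-! ### polynomial dependence on the substituted values -/

/-- substitution with generic values -/
noncomputable def gsub (κ : Fin m → Fin d) :
    MvPolynomial (Fin d) ℂ →ₐ[ℂ] MvPolynomial (Fin m) (MvPolynomial (Fin d) ℂ) :=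
  aeval (Function.extend κ X fun j => C (X j))

theorem map_gsub (κ : Fin m → Fin d) (y : Fin d → ℂ) (P : MvPolynomial (Fin d) ℂ) :
    MvPolynomial.map (eval y) (gsub κ P) = sub κ y P := by
  have h : (MvPolynomial.map (eval y)).comp (gsub κ : MvPolynomial (Fin d) ℂ →+*
      MvPolynomial (Fin m) (MvPolynomial (Fin d) ℂ)) =
      (sub κ y : MvPolynomial (Fin d) ℂ →+* MvPolynomial (Fin m) ℂ) := by
    apply MvPolynomial.ringHom_ext
    · intro a
      rw [RingHom.comp_apply]
      change MvPolynomial.map (eval y) (gsub κ (C a)) = sub κ y (C a)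
      rw [gsub, sub, aeval_C, aeval_C]
      rw [IsScalarTower.algebraMap_apply ℂ (MvPolynomial (Fin d) ℂ)
        (MvPolynomial (Fin m) (MvPolynomial (Fin d) ℂ))]
      rw [algebraMap_eq, algebraMap_eq, algebraMap_eq, map_C, eval_C]
    · intro j
      rw [RingHom.comp_apply]
      change MvPolynomial.map (eval y) (gsub κ (X j)) = sub κ y (X j)
      rw [gsub, sub, aeval_X, aeval_X]
      by_cases hj : ∃ i, κ i = j
      · unfold Function.extend
        rw [dif_pos hj, dif_pos hj, map_X]
      · unfold Function.extend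
        rw [dif_neg hj, dif_neg hj, map_C, eval_X]
  exact DFunLike.congr_fun h P

theorem exists_poly_y (κ : Fin m → Fin d) (w : MvPolynomial (Fin m) ℂ →ₗ[ℂ] ℂ)
    (P : MvPolynomial (Fin d) ℂ) :
    ∃ Q : MvPolynomial (Fin d) ℂ, ∀ y, eval y Q = w (sub κ y P) := by
  classical
  refine ⟨∑ α ∈ (gsub κ P).support, (gsub κ P).coeff α * C (w (monomial α 1)), fun y => ?_⟩
  have h1 : sub κ y P = ∑ α ∈ (gsub κ P).support, eval y ((gsub κ P).coeff α) • monomial α 1 := by
    rw [← map_gsub]
    conv_lhs => rw [(gsub κ P).as_sum]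
    rw [map_sum]
    apply Finset.sum_congr rfl
    intro α _
    rw [map_monomial, smul_monomial, smul_eq_mul, mul_one]
  rw [h1, map_sum, map_sum]
  apply Finset.sum_congr rfl
  intro α _
  rw [map_mul, eval_C, map_smul, smul_eq_mul]

theorem zero_of_polydisk (κ : Fin m → Fin d) (w : MvPolynomial (Fin m) ℂ →ₗ[ℂ] ℂ)
    (P : MvPolynomial (Fin d) ℂ)
    (h : ∀ y : Fin d → ℂ, (∀ j, ‖y j‖ < 1) → w (sub κ y P) = 0) (y : Fin d → ℂ) :
    w (sub κ y P) = 0 := by
  obtain ⟨Q, hQ⟩ := exists_poly_y κ w P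
  have hQ0 : Q = 0 := by
    apply MvPolynomial.funext_set (fun _ => Metric.ball (0 : ℂ) 1)
    · intro _
      exact infinite_of_mem_nhds (0 : ℂ) (Metric.ball_mem_nhds 0 one_pos)
    · intro x hx
      rw [hQ, map_zero]
      apply h
      intro j
      have := hx j (Set.mem_univ j)
      rwa [Metric.mem_ball, dist_zero_right] at this
  rw [← hQ, hQ0, map_zero]

/-! ### the induction -/

/-- a good functional with annihilator exactly `𝔮`, as a linear map -/
noncomputable def linOf {t K : ℝ} {𝔮 : Ideal (MvPolynomial (Fin n) ℂ)}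
    {u : MvPolynomial (Fin n) ℂ → ℂ} (hu : Good t K 𝔮 u) : MvPolynomial (Fin n) ℂ →ₗ[ℂ] ℂ where
  toFun := u
  map_add' := hu.add
  map_smul' := by
    intro a f
    rw [MvPolynomial.smul_eq_C_mul, hu.smul]
    rfl

theorem single_add_mapDomain (i : Fin (m + 1)) (β : Fin (m + 1) →₀ ℕ) :
    Finsupp.single i (β i) + Finsupp.mapDomain i.succAbove
      (Finsupp.equivFunOnFinite.symm (fun k => β (i.succAbove k))) = β := by
  ext j
  rw [Finsupp.add_apply]
  by_cases hj : j = i
  · subst hj
    have h0 : Finsupp.mapDomain j.succAbove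
        (Finsupp.equivFunOnFinite.symm (fun k => β (j.succAbove k))) j = 0 := by
      apply Finsupp.mapDomain_of_notMem_range
      rintro ⟨k, hk⟩
      exact Fin.succAbove_ne j k hk
    rw [h0, Finsupp.single_eq_same, add_zero]
  · obtain ⟨k, rfl⟩ := Fin.exists_succAbove_eq hj
    rw [Finsupp.mapDomain_apply Fin.succAbove_right_injective, Finsupp.single_eq_of_ne]
    · rw [zero_add]; rfl
    · exact hj

/-- case A: a variable can be removed -/
theorem case_A {t K : ℝ} (hK : 0 ≤ K) {𝔮 : Ideal (MvPolynomial (Fin (m + 1)) ℂ)}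
    {u : MvPolynomial (Fin (m + 1)) ℂ → ℂ} (hu : Good t K 𝔮 u) (hne : ∃ f, u f ≠ 0)
    (i : Fin (m + 1)) :
    ∃ (u' : MvPolynomial (Fin m) ℂ → ℂ) (K' : ℝ), 0 ≤ K' ∧
      Good t K' (⊥ : Ideal (MvPolynomial (Fin m) ℂ)) u' ∧ (∃ f, u' f ≠ 0) ∧
      ∀ q, rename i.succAbove q ∈ 𝔮 → ∀ f, u' (q * f) = 0 := by
  obtain ⟨β, hβ⟩ := exists_monomial hu hne
  set M : MvPolynomial (Fin (m + 1)) ℂ := monomial (Finsupp.single i (β i)) 1 with hM
  refine ⟨fun f => u (M * rename i.succAbove f),
    K * (‖(1 : ℂ)‖ * Real.sqrt (weight |t| (Finsupp.single i (β i)))), by positivity, ?_, ?_, ?_⟩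
  · have hadd : ∀ f g : MvPolynomial (Fin m) ℂ, u (M * rename i.succAbove (f + g)) =
        u (M * rename i.succAbove f) + u (M * rename i.succAbove g) := by
      intro f g
      rw [map_add, mul_add, hu.add]
    have hsmul : ∀ (a : ℂ) (f : MvPolynomial (Fin m) ℂ), u (M * rename i.succAbove (C a * f)) =
        a * u (M * rename i.succAbove f) := by
      intro a f
      rw [map_mul, rename_C, ← mul_assoc, mul_comm M, mul_assoc, hu.smul]
    refine ⟨hadd, hsmul, ?_, ?_⟩
    · intro f
      calc ‖u (M * rename i.succAbove f)‖ ≤ K * ‖J t (M * rename i.succAbove f)‖ := hu.bound _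
        _ ≤ K * ((‖(1 : ℂ)‖ * Real.sqrt (weight |t| (Finsupp.single i (β i)))) *
            ‖J t (rename i.succAbove f)‖) :=
            mul_le_mul_of_nonneg_left (norm_J_monomial_mul t _ 1 _) hK
        _ = _ := by rw [norm_J_rename]; ring
    · intro q hq f
      rw [Ideal.mem_bot] at hq
      rw [hq, zero_mul]
      change u (M * rename i.succAbove 0) = 0
      rw [map_zero, mul_zero, hu.zero]
  · refine ⟨monomial (Finsupp.equivFunOnFinite.symm (fun k => β (i.succAbove k))) 1, ?_⟩
    change u (M * rename i.succAbove _) ≠ 0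
    rw [rename_monomial, hM, monomial_mul, one_mul, single_add_mapDomain]
    exact hβ
  · intro q hq f
    change u (M * rename i.succAbove (q * f)) = 0
    rw [map_mul, ← mul_assoc, mul_comm M, mul_assoc]
    exact hu.kill _ hq _

theorem claim {t : ℝ} (ht0 : 0 < t) (ht1 : t ≤ 1) (hcore : CoreStmt t) {d : ℕ} {P : MvPolynomial (Fin d) ℂ}
    (hz : ∀ z : Fin d → ℂ, (∀ j, ‖z j‖ < 1) → MvPolynomial.eval z P ≠ 0) :
    ∀ (n : ℕ) (κ : Fin n → Fin d), Function.Injective κ →
      ∀ (u : MvPolynomial (Fin n) ℂ → ℂ) (K : ℝ), 0 ≤ K → Good t K (⊥ : Ideal (MvPolynomial (Fin n) ℂ)) u →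
      (∃ f, u f ≠ 0) → (∀ (y : Fin d → ℂ) (f : MvPolynomial (Fin n) ℂ), u (sub κ y P * f) = 0) →
      ∃ (m : ℕ) (κ' : Fin m → Fin d) (𝔮 : Ideal (MvPolynomial (Fin m) ℂ)), Function.Injective κ' ∧
        QPatch t 𝔮 ∧ ∀ y : Fin d → ℂ, sub κ' y P ∈ 𝔮 := by
  intro n
  induction n with
  | zero =>
    intro κ hκ u K hK hu hne hkill
    obtain ⟨𝔮, g, hprime, hmem⟩ := exists_prime hu hne
    obtain ⟨Kg, hKg0, hKg⟩ := exists_multiplier_bound t g
    have hu' : Good t (K * Kg) 𝔮 (fun f => u (g * f)) := by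
      refine ⟨?_, ?_, ?_, ?_⟩
      · intro a b
        rw [mul_add, hu.add]
      · intro a f
        rw [← mul_assoc, mul_comm g, mul_assoc, hu.smul]
      · intro f
        refine (hu.bound _).trans ?_
        rw [mul_assoc, mul_comm g f]
        exact mul_le_mul_of_nonneg_left (hKg f) hK
      · intro q hq f
        exact (hmem q).1 hq f
    have hP : ∀ y, sub κ y P ∈ 𝔮 := by
      intro y
      rw [hmem]
      intro f
      rw [← mul_assoc, mul_comm g, mul_assoc]
      exact hkill y _
    refine ⟨0, κ, 𝔮, hκ, ?_, hP⟩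
    exact hcore 0 𝔮 (fun f => u (g * f)) (K * Kg) (fun i => i.elim0) (fun i => i.elim0) hprime
      (by positivity) hu' (fun q hq => (hmem q).2 hq) (fun i => i.elim0) (fun i => i.elim0)
      (fun i => i.elim0) (fun i => i.elim0) (fun i => i.elim0)
  | succ m ih =>
    intro κ hκ u K hK hu hne hkill
    obtain ⟨𝔮, g, hprime, hmem⟩ := exists_prime hu hne
    obtain ⟨Kg, hKg0, hKg⟩ := exists_multiplier_bound t g
    have hu' : Good t (K * Kg) 𝔮 (fun f => u (g * f)) := by
      refine ⟨?_, ?_, ?_, ?_⟩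
      · intro a b
        rw [mul_add, hu.add]
      · intro a f
        rw [← mul_assoc, mul_comm g, mul_assoc, hu.smul]
      · intro f
        refine (hu.bound _).trans ?_
        rw [mul_assoc, mul_comm g f]
        exact mul_le_mul_of_nonneg_left (hKg f) hK
      · intro q hq f
        exact (hmem q).1 hq f
    have hP : ∀ y, sub κ y P ∈ 𝔮 := by
      intro y
      rw [hmem]
      intro f
      rw [← mul_assoc, mul_comm g, mul_assoc]
      exact hkill y _
    have hne' : ∃ f, (fun f => u (g * f)) f ≠ 0 := by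
      by_contra hcon
      push Not at hcon
      apply hprime.ne_top
      rw [Ideal.eq_top_iff_one, hmem]
      intro f
      exact hcon (1 * f)
    by_cases hA : ∃ i : Fin (m + 1), ∀ y, rename i.succAbove (sub (κ ∘ i.succAbove) y P) ∈ 𝔮
    · obtain ⟨i, hi⟩ := hA
      obtain ⟨u', K', hK', hgood, hne'', hkill'⟩ := case_A (by positivity) hu' hne' i
      exact ih (κ ∘ i.succAbove) (hκ.comp Fin.succAbove_right_injective) u' K' hK' hgood hne''
        (fun y f => hkill' _ (hi y) f)
    · push Not at hA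
      have hB : ∀ i : Fin (m + 1), ∃ y : Fin d → ℂ, (∀ j, ‖y j‖ < 1) ∧
          rename i.succAbove (sub (κ ∘ i.succAbove) y P) ∉ 𝔮 := by
        intro i
        by_contra hcon
        push Not at hcon
        obtain ⟨y₀, hy₀⟩ := hA i
        apply hy₀
        rw [hmem]
        intro f
        -- the linear functional
        let w : MvPolynomial (Fin m) ℂ →ₗ[ℂ] ℂ :=
          (linOf hu').comp ((LinearMap.mulRight ℂ f).comp (rename i.succAbove :
            MvPolynomial (Fin m) ℂ →ₐ[ℂ] MvPolynomial (Fin (m + 1)) ℂ).toLinearMap)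
        have hw : ∀ h, w h = u (g * (rename i.succAbove h * f)) := fun h => rfl
        rw [← hw]
        apply zero_of_polydisk
        intro y hy
        rw [hw]
        exact (hmem _).1 (hcon y hy) f
      choose y hy1 hy2 using hB
      refine ⟨m + 1, κ, 𝔮, hκ, ?_, hP⟩
      have hev : ∀ (i : Fin (m + 1)) (z : Fin (m + 1) → ℂ), (∀ j, ‖z j‖ < 1) →
          eval z (sub κ (y i) P) ≠ 0 := by
        intro i z hz1
        rw [eval_sub_ind]
        apply hz
        intro j
        by_cases hj : ∃ k, κ k = j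
        · obtain ⟨k, rfl⟩ := hj
          rw [hκ.extend_apply]
          exact hz1 k
        · rw [Function.extend_apply' _ _ _ hj]
          exact hy1 i j
      have hp0 : ∀ i, (sub κ (y i) P).coeff 0 ≠ 0 := by
        intro i
        have h1 := hev i 0 (fun j => by simp)
        rw [← constantCoeff_eq, ← eval_zero]
        exact h1
      refine hcore (m + 1) 𝔮 (fun f => u (g * f)) (K * Kg)
        (fun i => C ((sub κ (y i) P).coeff 0)⁻¹ * sub κ (y i) P) (fun i => y i (κ i)) hprime
        (by positivity) hu' (fun q hq => (hmem q).2 hq) ?_ ?_ ?_ ?_ ?_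
      · intro i
        exact 𝔮.mul_mem_left _ (hP _)
      · intro i
        change coeff 0 (C ((sub κ (y i) P).coeff 0)⁻¹ * sub κ (y i) P) = 1
        rw [coeff_C_mul, inv_mul_cancel₀ (hp0 i)]
      · intro i z hz1
        change eval z (C ((sub κ (y i) P).coeff 0)⁻¹ * sub κ (y i) P) ≠ 0
        rw [map_mul, eval_C]
        exact mul_ne_zero (inv_ne_zero (hp0 i)) (hev i z hz1)
      · intro i
        exact (hy1 i _).le
      · intro i hcon
        change setv i (y i (κ i)) (C ((sub κ (y i) P).coeff 0)⁻¹ * sub κ (y i) P) ∈ 𝔮 at hcon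
        rw [map_mul, setv_sub κ hκ] at hcon
        apply hy2 i
        have h1 : setv i (y i (κ i)) (C ((sub κ (y i) P).coeff 0)⁻¹) =
            (C ((sub κ (y i) P).coeff 0)⁻¹ : MvPolynomial (Fin (m + 1)) ℂ) := by
          rw [setv, aeval_C]
          rfl
        rw [h1] at hcon
        have h2 := 𝔮.mul_mem_left (C ((sub κ (y i) P).coeff 0)) hcon
        rwa [← mul_assoc, ← map_mul, mul_inv_cancel₀ (hp0 i), map_one, one_mul] at h2

end Pool.Agent.Helper49.FA
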