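import Mathlib
import Pool.Agent.Helper49.FARefl
import Pool.Agent.Helper12.FAAlg
import Pool.Agent.Helper12.FAPatch
import Pool.Agent.Helper21.FAGraph
import Pool.Agent.Helper30.FADivApp
import Pool.Agent.Helper33.FABeta

/-! The core statement: the ideal of a distribution has a thin patch. -/

set_option autoImplicit false

namespace Pool.Agent.Helper49.FA

open MeasureTheory Set Filter Topology Complex
open MvPolynomial (monomial pderiv)
open scoped ContDiff ComplexConjugate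

variable {n : ℕ}

theorem gr_of_sq {t : ℝ} {V : (Fin n → ℤ) → ℂ} {C : ℝ} {κ : ℕ} (hC : 0 ≤ C)
    (hV : ∀ (l : Fin n → ℤ) (S : Finset (Fin n →₀ ℕ)),
        ∑ α ∈ S, ‖V (l + zz α)‖ ^ 2 / Cyc.weight t α ≤ (C * (1 + ‖l‖) ^ κ) ^ 2) : Gr V C κ := by
  refine ⟨hC, fun l => ?_⟩
  have h1 := hV l {0}
  rw [Finset.sum_singleton] at h1
  have h2 : Cyc.weight t (0 : Fin n →₀ ℕ) = 1 := by
    simp [Cyc.weight]
  have h3 : zz (0 : Fin n →₀ ℕ) = 0 := by
    funext j; simp [zz]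
  rw [h2, h3, add_zero, div_one] at h1
  have := norm_nonneg l
  exact le_of_sq_le_sq h1 (by positivity)

theorem contDiff_Psi {J : Finset (Fin n)} {β : Fin n → (Fin n → ℝ) → ℝ} (hβ : ∀ j ∉ J, ContDiff ℝ ∞ (β j)) :
    ContDiff ℝ ∞ (Psi J β) := by
  rw [contDiff_pi]
  intro k
  by_cases hk : k ∈ J
  · have : (fun θ : Fin n → ℝ => Psi J β θ k) = fun θ => θ k := by
      funext θ; simp [Psi, hk]
    rw [this]
    exact contDiff_apply ℝ ℝ k
  · have : (fun θ : Fin n → ℝ => Psi J β θ k) = fun θ => β k θ := by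
      funext θ; simp [Psi, hk]
    rw [this]
    exact hβ k hk

theorem core {t : ℝ} (ht0 : 0 < t) (ht1 : t ≤ 1) : CoreStmt t := by
  classical
  intro n 𝔮 u K P c h𝔮 hK hu hann hP hP1 hz hc hg
  obtain ⟨V, C, κ, hC, hV1, hV2, hV3⟩ := exists_V ht0.le ht1 h𝔮 hK hu hann P c hP hP1 hz hc hg
  have hGr : Gr V C κ := gr_of_sq hC hV2
  have hAdm : Adm 𝔮 (Wd V) (κ + 2 * Fintype.card (Fin n)) :=
    ⟨Wd_isDist hGr, fun q hq φ hφ => Wd_kill hGr hV1 hφ hq, fun g hg => mem_of_kill hGr hV3 hg⟩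
  have hsq := fun (φ : (Fin n → ℝ) → ℂ) (hφ : Tst φ) => Wd_sq (t := t) hC hV2 hGr hφ
  have hrv : ∀ q ∈ 𝔮, rv q ∈ 𝔮 := fun q hq => hAdm.rv_mem h𝔮 hq
  obtain ⟨J, R, hJ, hR, hder, htan⟩ := exists_algData h𝔮
  choose H A hH hA1 hA2 hA3 using hder
  -- a polynomial outside `𝔮` collecting all nondegeneracy conditions
  set g : MvPolynomial (Fin n) ℂ := ∏ B : Finset (Fin n), ((∏ j ∈ B \ J B, pderiv j (R B j)) *
    ∏ b : {b // b ∈ J B}, H B b.1 b.2) with hgdef
  have hg0 : g ∉ 𝔮 := by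
    rw [hgdef, h𝔮.prod_mem_iff]
    rintro ⟨B, -, hB⟩
    rcases h𝔮.mem_or_mem hB with h | h
    · rw [h𝔮.prod_mem_iff] at h
      obtain ⟨j, hj, h⟩ := h
      exact (hR B j hj).2.2 h
    · rw [h𝔮.prod_mem_iff] at h
      obtain ⟨b, -, h⟩ := h
      exact hH B b.1 b.2 h
  obtain ⟨x, hxs, hgx⟩ := hAdm.exists_point h𝔮 hg0
  have hx : ∀ q ∈ 𝔮, pe q x = 0 := fun q hq => hAdm.pe_eq_zero hxs hq
  have hfac : ∀ B, pe (∏ j ∈ B \ J B, pderiv j (R B j)) x ≠ 0 ∧ pe (∏ b : {b // b ∈ J B}, H B b.1 b.2) x ≠ 0 := by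
    intro B
    have h1 : pe g x = ∏ B : Finset (Fin n), pe ((∏ j ∈ B \ J B, pderiv j (R B j)) *
        ∏ b : {b // b ∈ J B}, H B b.1 b.2) x := by
      simp [pe, hgdef, map_prod]
    rw [h1] at hgx
    have h2 := Finset.prod_ne_zero_iff.1 hgx B (Finset.mem_univ B)
    rw [pe_mul] at h2
    exact ⟨left_ne_zero_of_mul h2, right_ne_zero_of_mul h2⟩
  have hdR : ∀ B, ∀ j ∈ B \ J B, pe (pderiv j (R B j)) x ≠ 0 := by
    intro B j hj
    have h1 := (hfac B).1
    have h2 : pe (∏ j ∈ B \ J B, pderiv j (R B j)) x = ∏ j ∈ B \ J B, pe (pderiv j (R B j)) x := by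
      simp [pe, map_prod]
    rw [h2] at h1
    exact Finset.prod_ne_zero_iff.1 h1 j hj
  have hHx : ∀ B b (hb : b ∈ J B), pe (H B b hb) x ≠ 0 := by
    intro B b hb
    have h1 := (hfac B).2
    have h2 : pe (∏ b : {b // b ∈ J B}, H B b.1 b.2) x = ∏ b : {b // b ∈ J B}, pe (H B b.1 b.2) x := by
      simp [pe, map_prod]
    rw [h2] at h1
    exact Finset.prod_ne_zero_iff.1 h1 ⟨b, hb⟩ (Finset.mem_univ _)
  -- the functions `β`
  have hβ : ∀ B j, ∃ (R' : MvPolynomial (Fin n) ℂ) (β : (Fin n → ℝ) → ℝ), j ∈ B \ J B →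
      (R' ∈ 𝔮 ∧ R'.vars ⊆ insert j (J B) ∧
      pe (pderiv j R') x ≠ 0 ∧ ContDiff ℝ ∞ β ∧
      (∀ θ θ' : Fin n → ℝ, (∀ k ∈ J B, θ k = θ' k) → β θ = β θ') ∧ β x = x j ∧
      ∀ᶠ θ in 𝓝 x, pe R' (Function.update θ j (β θ)) = 0) := by
    intro B j
    by_cases hj : j ∈ B \ J B
    · obtain ⟨R', β, h⟩ := exists_beta hrv (Finset.mem_sdiff.1 hj).2 (hR B j hj).1 (hR B j hj).2.1
        (hx _ (hR B j hj).1) (hdR B j hj)
      exact ⟨R', β, fun _ => h⟩
    · exact ⟨0, fun _ => 0, fun h => absurd h hj⟩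
  choose R' β hβ using hβ
  have hmem : ∀ j, j ∉ J Finset.univ → j ∈ Finset.univ \ J Finset.univ := fun j hj =>
    Finset.mem_sdiff.2 ⟨Finset.mem_univ _, hj⟩
  set S := J Finset.univ with hS
  set Ψ := Psi S (β Finset.univ) with hΨdef
  have hvan : ∀ᶠ θ in 𝓝 x, ∀ q ∈ 𝔮, pe q (Ψ θ) = 0 :=
    vanish_near hx (R := R' Finset.univ) (fun j hj => (hβ Finset.univ j (hmem j hj)).2.1)
      (fun j hj => (hβ Finset.univ j (hmem j hj)).2.2.1)
      (fun j hj => (hβ Finset.univ j (hmem j hj)).2.2.2.1)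
      (fun j hj => (hβ Finset.univ j (hmem j hj)).2.2.2.2.1)
      (fun j hj => (hβ Finset.univ j (hmem j hj)).2.2.2.2.2.1)
      (fun j hj => (hβ Finset.univ j (hmem j hj)).2.2.2.2.2.2)
      (htan (R' Finset.univ) fun j hj => ⟨(hβ Finset.univ j (hmem j hj)).1, (hβ Finset.univ j (hmem j hj)).2.1⟩)
  have hΨ : ContDiff ℝ ∞ Ψ := contDiff_Psi fun j hj => (hβ Finset.univ j (hmem j hj)).2.2.2.1
  have hΨd : ∀ θ, DifferentiableAt ℝ Ψ θ := fun θ => (hΨ.differentiable (by simp)).differentiableAt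
  have hΨx : Ψ x = x := by
    funext k
    by_cases hk : k ∈ S
    · simp [hΨdef, Psi, hk]
    · simp only [hΨdef, Psi, if_neg hk]
      exact (hβ Finset.univ k (hmem k hk)).2.2.2.2.2.1
  have hind : ∀ B, LinearIndepOn ℝ (row Ψ x) (J B : Set (Fin n)) := by
    intro B
    exact indep_at hx (R := R' Finset.univ) (fun j hj => (hβ Finset.univ j (hmem j hj)).1)
      (fun j hj => (hβ Finset.univ j (hmem j hj)).2.1)
      (fun j hj => (hβ Finset.univ j (hmem j hj)).2.2.1)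
      (fun j hj => (hβ Finset.univ j (hmem j hj)).2.2.2.1)
      (fun j hj => (hβ Finset.univ j (hmem j hj)).2.2.2.2.1)
      (fun j hj => (hβ Finset.univ j (hmem j hj)).2.2.2.2.2.1)
      (fun j hj => (hβ Finset.univ j (hmem j hj)).2.2.2.2.2.2)
      (fun b hb => ⟨H B b hb, A B b hb, hHx B b hb, hA1 B b hb, hA2 B b hb, hA3 B b hb⟩)
  have hvan' : ∀ q ∈ 𝔮, ∀ᶠ θ in 𝓝 x, pe q (Ψ θ) = 0 := by
    intro q hq
    filter_upwards [hvan] with θ hθ using hθ q hq
  have hrow : ∀ B, ∀ j ∈ B \ J B, ∀ v, fderiv ℝ Ψ x v j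
      = ∑ a ∈ J B, fderiv ℝ (β B j) x (Pi.single a 1) * fderiv ℝ Ψ x v a := by
    intro B j hj v
    have h := hβ B j hj
    exact fderiv_of_beta (Finset.mem_sdiff.1 hj).2 h.2.1 h.2.2.2.1 h.2.2.2.2.1 h.2.2.2.2.2.1 h.2.2.1
      h.2.2.2.2.2.2 (hΨd x) hΨx (hvan' _ h.1) v
  -- ranks at `x`
  have hspan : ∀ B, ∀ j ∈ B, row Ψ x j ∈ Submodule.span ℝ (row Ψ x '' (J B : Set (Fin n))) := by
    intro B j hj
    by_cases hjJ : j ∈ J B
    · exact Submodule.subset_span ⟨j, hjJ, rfl⟩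
    · have h1 : row Ψ x j = ∑ a ∈ J B, fderiv ℝ (β B j) x (Pi.single a 1) • row Ψ x a := by
        ext v
        rw [row_apply, hrow B j (Finset.mem_sdiff.2 ⟨hj, hjJ⟩) v]
        simp [row_apply]
      rw [h1]
      exact Submodule.sum_mem _ fun a ha => Submodule.smul_mem _ _ (Submodule.subset_span ⟨a, ha, rfl⟩)
  have hrk : ∀ B, rk Ψ x B = (J B).card := fun B => rk_eq_of_span (hJ B) (hind B) (hspan B)
  -- the ranks are locally constant
  have hΨx' : Tendsto Ψ (𝓝 x) (𝓝 x) := by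
    have := hΨ.continuous.tendsto x
    rwa [hΨx] at this
  have hrc : RankConst Ψ x := by
    intro B
    have h1 : ∀ᶠ θ in 𝓝 x, ∀ j ∈ B \ J B, row Ψ θ j ∈ Submodule.span ℝ (row Ψ θ '' (J B : Set (Fin n))) := by
      rw [Filter.eventually_all_finset]
      intro j hj
      have h := hβ B j hj
      have e1 : ∀ᶠ θ in 𝓝 x, ∀ᶠ θ' in 𝓝 θ, pe (R' B j) (Ψ θ') = 0 := (hvan' _ h.1).eventually_nhds
      have e2 : ∀ᶠ θ in 𝓝 x, pe (pderiv j (R' B j)) (Ψ θ) ≠ 0 := by
        have h2 : {θ | pe (pderiv j (R' B j)) θ ≠ 0} ∈ 𝓝 x :=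
          (isOpen_ne_fun (contDiff_pe _).continuous continuous_const).mem_nhds h.2.2.1
        exact hΨx' h2
      filter_upwards [e1, e2] with θ h1 h2
      exact row_mem_span (Finset.mem_sdiff.1 hj).2 h.2.1 (hΨd θ) h1 h2
    filter_upwards [h1] with θ hθ
    rw [hrk B]
    have h2 : Submodule.span ℝ (row Ψ θ '' (B : Set (Fin n)))
        ≤ Submodule.span ℝ (row Ψ θ '' (J B : Set (Fin n))) := by
      rw [Submodule.span_le]
      rintro _ ⟨j, hj, rfl⟩
      by_cases hjJ : j ∈ J B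
      · exact Submodule.subset_span ⟨j, hjJ, rfl⟩
      · exact hθ j (Finset.mem_sdiff.2 ⟨hj, hjJ⟩)
    calc rk Ψ θ B ≤ Module.finrank ℝ (Submodule.span ℝ (row Ψ θ '' (J B : Set (Fin n)))) :=
          Submodule.finrank_mono h2
      _ ≤ (J B).card := by
          have h3 := finrank_span_le_card (R := ℝ) (row Ψ θ '' (J B : Set (Fin n)))
          refine h3.trans ?_
          rw [Set.toFinset_card]
          refine (Fintype.card_le_of_surjective
            (fun b : {b // b ∈ J B} => (⟨row Ψ θ b.1, b.1, b.2, rfl⟩ :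
              ↥(row Ψ θ '' (J B : Set (Fin n))))) ?_).trans ?_
          · rintro ⟨_, b, hb, rfl⟩
            exact ⟨⟨b, hb⟩, rfl⟩
          · simp
  -- thinness at `x`
  have hthin : Thin t (fderiv ℝ Ψ x) := by
    rw [thin_iff]
    rintro F hF ⟨m, hm1, hm2, hm3⟩
    rw [hrk F]
    have hcard : ((F.card : ℕ) : ℝ) - ((J F).card : ℕ) = ((F \ J F).card : ℕ) := by
      rw [Finset.card_sdiff_of_subset (hJ F)]
      rw [Nat.cast_sub (Finset.card_le_card (hJ F))]
    rw [hcard]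
    by_cases hne : (F \ J F).Nonempty
    · refine divergence_applied ht0.le hGr hsq hxs (hJ F) hne (β F) (fun j hj => (hβ F j hj).2.2.2.1)
        (fun j hj => (hβ F j hj).2.2.2.2.1) (fun j hj => ?_) m hm1 ?_
      · have h := hβ F j hj
        exact kill_beta (fun φ hφ => hAdm.kill _ h.1 φ hφ) h.2.2.2.1 h.2.2.2.2.2.1 h.2.2.1 h.2.2.2.2.2.2
      · -- the gradient condition
        have h1 : ∑ a ∈ J F, (m a + ∑ j ∈ F \ J F, m j * fderiv ℝ (β F j) x (Pi.single a 1)) • row Ψ x a = 0 := by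
          ext w
          have h2 := hm3 w
          have h3 : ∑ j, m j * fderiv ℝ Ψ x w j = ∑ j ∈ F, m j * fderiv ℝ Ψ x w j := by
            symm
            apply Finset.sum_subset (Finset.subset_univ _)
            intro j _ hj
            rw [hm2 j hj, zero_mul]
          rw [h3, ← Finset.sum_sdiff (hJ F)] at h2
          have h4 : ∑ j ∈ F \ J F, m j * fderiv ℝ Ψ x w j
              = ∑ a ∈ J F, (∑ j ∈ F \ J F, m j * fderiv ℝ (β F j) x (Pi.single a 1)) * fderiv ℝ Ψ x w a := by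
            simp only [Finset.sum_mul]
            rw [Finset.sum_comm]
            apply Finset.sum_congr rfl
            intro j hj
            rw [hrow F j hj w, Finset.mul_sum]
            apply Finset.sum_congr rfl
            intro a _
            ring
          rw [h4, ← Finset.sum_add_distrib] at h2
          rw [ContinuousLinearMap.sum_apply, ContinuousLinearMap.zero_apply, ← h2]
          apply Finset.sum_congr rfl
          intro a _
          rw [ContinuousLinearMap.smul_apply, row_apply, smul_eq_mul]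
          ring
        have h5 := linearIndepOn_finset_iff.1 (hind F) _ h1
        exact h5
    · rw [Finset.not_nonempty_iff_eq_empty.1 hne, Finset.card_empty, Nat.cast_zero]
      have : (0 : ℝ) < F.card := by exact_mod_cast hF.card_pos
      positivity
  have hnear := thin_near isOpen_univ hΨ.contDiffOn (Set.mem_univ x) hrc hthin
  obtain ⟨O, hOsub, hO, hxO⟩ := eventually_nhds_iff.1 (hvan.and hnear)
  obtain ⟨s, U, ψ, hU, hUne, hψ, hinj, hth, hval⟩ := reparam hΨ (J := S) (by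
      intro θ θ' h
      funext k
      by_cases hk : k ∈ S
      · simp only [hΨdef, Psi, if_pos hk]; exact h k hk
      · simp only [hΨdef, Psi, if_neg hk]
        exact (hβ Finset.univ k (hmem k hk)).2.2.2.2.1 θ θ' h) (by
      intro θ k hk
      simp only [hΨdef, Psi, if_pos hk]) hO hxO (fun θ hθ => (hOsub θ hθ).2)
  refine ⟨s, U, ψ, hU, hUne, hψ, hinj, hth, fun q hq u hu => ?_⟩
  obtain ⟨θ, hθ, hθu⟩ := hval u hu
  rw [hθu]
  exact (hOsub θ hθ).1 q hq

end Pool.Agent.Helper49.FA
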