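import Mathlib
import Pool.Agent.Helper49.FCore
import Pool.Agent.Helper49.FAInd
import Pool.Agent.Helper49.CycSelf

/-! The classification. -/

set_option autoImplicit false

namespace Pool.Agent.Helper49.FA

open MeasureTheory Set Filter Topology Complex
open MvPolynomial (monomial pderiv)
open scoped ContDiff ComplexConjugate InnerProductSpace
open Pool.Agent.Helper49.Cyc Pool.Agent.Helper49.Univ Pool.Agent.Helper49.Toral

variable {d : ℕ}

theorem sub_id (P : MvPolynomial (Fin d) ℂ) (y : Fin d → ℂ) : sub id y P = P := by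
  have h : sub (id : Fin d → Fin d) y = AlgHom.id ℂ _ := by
    apply MvPolynomial.algHom_ext
    intro j
    rw [sub, MvPolynomial.aeval_X, AlgHom.id_apply]
    exact Function.injective_id.extend_apply _ _ j
  rw [h, AlgHom.id_apply]

theorem exists_thin_patch {t : ℝ} (ht0 : 0 < t) (ht1 : t ≤ 1) {P : MvPolynomial (Fin d) ℂ}
    (hz : ∀ z : Fin d → ℂ, (∀ j, ‖z j‖ < 1) → MvPolynomial.eval z P ≠ 0) (h : ¬ ShiftCyclic t P) :
    ∃ (s : ℕ) (U : Set (Fin s → ℝ)) (ψ : (Fin s → ℝ) → (Fin d → ℝ)), Patch P s U ψ ∧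
      ∀ u ∈ U, Thin t (fderiv ℝ ψ u) := by
  classical
  have h1 : ∃ φ : HH d, (∀ Q : MvPolynomial (Fin d) ℂ, ⟪φ, J t (Q * P)⟫_ℂ = 0) ∧ φ ≠ 0 := by
    by_contra hcon
    push Not at hcon
    exact h (shiftCyclic_of_annihilator t P hcon)
  obtain ⟨φ, hφ, hφ0⟩ := h1
  set u : MvPolynomial (Fin d) ℂ → ℂ := fun f => ⟪φ, J t f⟫_ℂ with hu
  have hgood : Good t ‖φ‖ (⊥ : Ideal (MvPolynomial (Fin d) ℂ)) u := by
    refine ⟨fun f g => ?_, fun a f => ?_, fun f => norm_inner_le_norm _ _, fun q hq f => ?_⟩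
    · simp only [hu, map_add, inner_add_right]
    · simp only [hu]
      rw [← MvPolynomial.smul_eq_C_mul, map_smul, inner_smul_right]
    · rw [Ideal.mem_bot.1 hq, zero_mul]
      simp [hu]
  have hne : ∃ f, u f ≠ 0 := by
    by_contra hcon
    push Not at hcon
    exact hφ0 (eq_zero_of_forall_poly t φ hcon)
  obtain ⟨m, κ', 𝔮, hκ', hpatch, hq⟩ := claim ht0 ht1 (core ht0 ht1) hz d id Function.injective_id u ‖φ‖
    (norm_nonneg _) hgood hne (fun y f => by
      rw [sub_id, mul_comm]; exact hφ f)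
  exact lift_patch hpatch hκ' hq

/-- **Classification of the shift-cyclic polynomials** for `t ≤ 1`. -/
theorem classification {t : ℝ} (ht : t ≤ 1) (P : MvPolynomial (Fin d) ℂ) :
    ShiftCyclic t P ↔ (∀ z : Fin d → ℂ, (∀ j, ‖z j‖ < 1) → MvPolynomial.eval z P ≠ 0) ∧
      ∀ (s : ℕ) (U : Set (Fin s → ℝ)) (ψ : (Fin s → ℝ) → (Fin d → ℝ)), Patch P s U ψ →
        ∃ u ∈ U, ¬ Thin t (fderiv ℝ ψ u) := by
  constructor
  · intro h
    have hz := ne_zero_of_shiftCyclic t P h
    refine ⟨hz, fun s U ψ hpatch => ?_⟩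
    by_contra hcon
    push Not at hcon
    rcases lt_or_ge 0 t with ht0 | ht0
    · exact not_shiftCyclic_of_patch ht0 P hpatch hcon h
    · -- a small positive parameter
      set t' : ℝ := 1 / (d + 1) with ht'
      have ht'0 : 0 < t' := by positivity
      have hcyc : ShiftCyclic t' P := by
        apply shiftCyclic_of_vars t' P hz
        have h1 : (P.vars.card : ℝ) ≤ d := by
          have := Finset.card_le_univ P.vars
          rw [Fintype.card_fin] at this
          exact_mod_cast this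
        rw [ht', one_div, inv_mul_le_iff₀ (by positivity)]
        linarith
      refine not_shiftCyclic_of_patch ht'0 P hpatch (fun u hu => ?_) hcyc
      intro n hn hn0 hne
      have h2 := hcon u hu n hn hn0 hne
      have h3 : (0 : ℝ) ≤ (Finset.univ.filter fun j => n j ≠ 0).card := Nat.cast_nonneg _
      have h4 : (0 : ℝ) ≤ (Module.finrank ℝ ↥(conormal (fderiv ℝ ψ u) ⊓ suppIn n) : ℝ) := Nat.cast_nonneg _
      nlinarith
  · rintro ⟨hz, hpatch⟩
    rcases lt_or_ge 0 t with ht0 | ht0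
    · by_contra h
      obtain ⟨s, U, ψ, hP, hthin⟩ := exists_thin_patch ht0 ht hz h
      obtain ⟨u, hu, hnot⟩ := hpatch s U ψ hP
      exact hnot (hthin u hu)
    · apply shiftCyclic_of_vars t P hz
      have : (0 : ℝ) ≤ P.vars.card := Nat.cast_nonneg _
      nlinarith

end Pool.Agent.Helper49.FA
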